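import Pool.Agent.Lib.CMS.AStick
import Pool.Agent.Lib.MP_d9f52e_nt.APw

/-!
# Condition 1

* `cond1_fin`: `z` and its conjugates are units of the ring of integers, so all their valuations
  are `1`.
* `conj_place`: let `ψ : L → ℂ` be an embedding of the place `w` and `Ψ : M → ℂ` an extension of
  it. As `w` is real on `K`, complex conjugation after `Ψ` agrees with `Ψ` on `K`, so it is
  `Ψ ∘ τ` for an automorphism `τ` of the Galois extension `M / K`, and `τ ζ = ζ⁻¹` because
  `conj (Ψ ζ) = (Ψ ζ)⁻¹`; so `τ = S (-1)`. Hence `w (rs L S (-1) y) = w y`.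
* `cond1_inf`: `rs L S (-1)` maps `u = pw A z` to `u⁻¹` (`apply_pw`, `stick_odd`, `pw_neg`), so
  `w u = w u⁻¹ = (w u)⁻¹`.
-/

set_option autoImplicit false

open NumberField MPd9f52e

namespace CMS

variable {m : ℕ} [NeZero m] {K L M : Type} [Field K] [NumberField K] [Field L] [NumberField L]
  [Field M] [NumberField M] [Algebra K M] [Algebra K L] [Algebra L M] [IsScalarTower K L M]
  [Normal K L] {ζ : M}

/-- the valuation of an integral element is at most one -/
private theorem acond1_val {L : Type} [Field L] [NumberField L] {z : L} (h1 : IsIntegral ℤ z)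
    (w : IsDedekindDomain.HeightOneSpectrum (𝓞 L)) : w.valuation L z ≤ 1 := by
  obtain ⟨y, hy⟩ := (IsIntegralClosure.isIntegral_iff (A := 𝓞 L)).1 h1
  rw [← hy]
  exact w.valuation_le_one y

/-- the valuation of a unit is one -/
private theorem acond1_val_unit {L : Type} [Field L] [NumberField L] {z : L} (hz : z ≠ 0)
    (h1 : IsIntegral ℤ z) (h2 : IsIntegral ℤ z⁻¹)
    (w : IsDedekindDomain.HeightOneSpectrum (𝓞 L)) : w.valuation L z = 1 := by
  refine le_antisymm (acond1_val h1 w) ?_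
  have h3 := acond1_val h2 w
  rw [map_inv₀] at h3
  have h4 : w.valuation L z ≠ 0 := (Valuation.ne_zero_iff _).2 hz
  exact (inv_le_one₀ (zero_lt_iff.2 h4)).1 h3

omit [NeZero m] [Normal K L] in
theorem cond1_fin (A : (L ≃ₐ[K] L) → ℤ) {z : L} (hz : z ≠ 0) (h1 : IsIntegral ℤ z)
    (h2 : IsIntegral ℤ z⁻¹) (w : IsDedekindDomain.HeightOneSpectrum (𝓞 L)) :
    w.valuation L (pw A z) = 1 := by
  classical
  unfold pw
  rw [map_prod]
  refine Finset.prod_eq_one fun σ _ => ?_
  rw [map_zpow₀]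
  have hσ : IsIntegral ℤ (σ z) := h1.map (σ : L →+* L).toIntAlgHom
  have hσ' : IsIntegral ℤ (σ z)⁻¹ := by
    rw [← map_inv₀]
    exact h2.map (σ : L →+* L).toIntAlgHom
  rw [acond1_val_unit ((map_ne_zero_iff σ σ.injective).2 hz) hσ hσ' w, one_zpow]

/-- two homomorphisms which agree on `K` and on `ζ` are equal -/
private theorem acond1_ext {K M : Type} [Field K] [Field M] [Algebra K M] {ζ : M}
    (hgen : IntermediateField.adjoin K {ζ} = ⊤) {f g : M →+* ℂ}
    (h1 : ∀ x : K, f (algebraMap K M x) = g (algebraMap K M x)) (h2 : f ζ = g ζ) (y : M) :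
    f y = g y := by
  have hy : y ∈ IntermediateField.adjoin K {ζ} := by
    rw [hgen]
    exact IntermediateField.mem_top
  induction hy using IntermediateField.adjoin_induction with
  | mem x hx =>
    rw [Set.mem_singleton_iff.1 hx]
    exact h2
  | algebraMap x => exact h1 x
  | add x y _ _ hx hy => rw [map_add, map_add, hx, hy]
  | inv x _ hx => rw [map_inv₀, map_inv₀, hx]
  | mul x y _ _ hx hy => rw [map_mul, map_mul, hx, hy]

theorem conj_place (h : CycG m K M ζ) {S : (ZMod m)ˣ ≃* (M ≃ₐ[K] M)}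
    (hS : IsCycEquiv m K M ζ S) (w : InfinitePlace L)
    (hw : (w.comap (algebraMap K L)).IsReal) (y : L) : w (rs L S (-1) y) = w y := by
  have hLM : Algebra.IsAlgebraic L M := by
    have : Algebra.IsAlgebraic K M := inferInstance
    exact Algebra.IsAlgebraic.tower_top (K := K) L
  set Ψ : M →+* ℂ := ComplexEmbedding.lift M w.embedding with hΨ
  have hΨL : ∀ x : L, Ψ (algebraMap L M x) = w.embedding x := fun x => by
    have h1 := ComplexEmbedding.lift_comp_algebraMap M w.embedding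
    exact RingHom.congr_fun h1 x
  -- reality on `K`
  have hreal : ComplexEmbedding.IsReal (w.embedding.comp (algebraMap K L)) := by
    rw [← InfinitePlace.mk_embedding w, InfinitePlace.comap_mk, InfinitePlace.isReal_mk_iff] at hw
    exact hw
  have hK : ∀ x : K, (starRingEnd ℂ) (Ψ (algebraMap K M x)) = Ψ (algebraMap K M x) := by
    intro x
    rw [IsScalarTower.algebraMap_apply K L M, hΨL]
    exact RingHom.congr_fun hreal x
  -- the action on `ζ`
  have hζ : S (-1) ζ = ζ⁻¹ := by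
    rw [hS (-1)]
    refine eq_inv_of_mul_eq_one_left ?_
    rw [← pow_succ]
    have h1 : ((((-1 : (ZMod m)ˣ) : ZMod m).val + 1 : ℕ) : ZMod m) = 0 := by
      rw [Nat.cast_add, ZMod.natCast_zmod_val]
      simp
    have h2 : m ∣ ((-1 : (ZMod m)ˣ) : ZMod m).val + 1 := (ZMod.natCast_eq_zero_iff _ _).1 h1
    exact (h.prim.pow_eq_one_iff_dvd _).2 h2
  have hΨζ : (starRingEnd ℂ) (Ψ ζ) = Ψ (S (-1) ζ) := by
    rw [hζ, map_inv₀]
    refine (Complex.inv_eq_conj ?_).symm
    refine Complex.norm_eq_one_of_pow_eq_one (n := m) ?_ (NeZero.ne m)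
    rw [← map_pow, h.prim.pow_eq_one, map_one]
  have key : ∀ x : M, ((starRingEnd ℂ).comp Ψ) x = (Ψ.comp ((S (-1) : M ≃ₐ[K] M) : M →+* M)) x := by
    refine acond1_ext h.gen ?_ ?_
    · intro x
      show (starRingEnd ℂ) (Ψ (algebraMap K M x)) = Ψ (S (-1) (algebraMap K M x))
      rw [hK, AlgEquiv.commutes]
    · exact hΨζ
  have h3 : algebraMap L M (rs L S (-1) y) = S (-1) (algebraMap L M y) :=
    AlgEquiv.restrictNormal_commutes (S (-1)) L y
  have h4 : (starRingEnd ℂ) (Ψ (algebraMap L M y)) = Ψ (S (-1) (algebraMap L M y)) :=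
    key (algebraMap L M y)
  rw [← InfinitePlace.norm_embedding_eq w (rs L S (-1) y), ← InfinitePlace.norm_embedding_eq w y,
    ← hΨL, ← hΨL, h3, ← h4, RCLike.norm_conj]

theorem cond1_inf (h : CycG m K M ζ) {S : (ZMod m)ˣ ≃* (M ≃ₐ[K] M)}
    (hS : IsCycEquiv m K M ζ S) {A : (L ≃ₐ[K] L) → ℤ}
    (hA : ∀ σ, (A σ : ℚ) = (Units.torsionOrder L : ℚ) * thQ (rs L S) σ) {z : L} (hz : z ≠ 0)
    (w : InfinitePlace L) (hw : (w.comap (algebraMap K L)).IsReal) : w (pw A z) = 1 := by
  have h1 : rs L S (-1) (pw A z) = (pw A z)⁻¹ := by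
    rw [apply_pw, ← pw_neg]
    congr 1
    funext σ
    have h2 : (A ((rs L S (-1))⁻¹ * σ) : ℚ) = ((- A σ : ℤ) : ℚ) := by
      push_cast
      rw [hA, hA, stick_odd h hS]
      ring
    exact_mod_cast h2
  have h2 := conj_place h hS w hw (pw A z)
  rw [h1, map_inv₀] at h2
  have h3 : w (pw A z) ≠ 0 := by
    rw [Ne, map_eq_zero]
    exact pw_ne_zero A hz
  have h4 : 0 ≤ w (pw A z) := apply_nonneg w _
  have h5 : w (pw A z) * w (pw A z) = 1 := by
    nth_rewrite 1 [← h2]
    exact inv_mul_cancel₀ h3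
  nlinarith

end CMS
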