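import Pool.Agent.Lib.CMS.Cj
import Pool.Agent.Lib.MP_d9f52e_nt.ADef

/-!
# ADef: complex cubic fields, their Galois closure, cyclotomic extensions

The definitions `Stark`, `IsFrob`, `IsArtin`, `IsCycEquiv`, `rs`, `bet`, `thQ`, `thB`, `pw` are those of
`Pool.Agent.Lib.MP_d9f52e_nt.ADef` (namespace `MPd9f52e`).
-/

set_option autoImplicit false

open NumberField

namespace CMS

/-- complex cubic fields -/
structure CCub (K : Type) [Field K] [NumberField K] : Prop where
  three : Module.finrank ℚ K = 3
  cpx : ∃ v : InfinitePlace K, v.IsComplex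

/-- `K` is a complex cubic field and `M = K(ζ)` with `ζ` a primitive `m`-th root of unity, `m ≥ 3`. -/
structure CycG (m : ℕ) (K M : Type) [Field K] [NumberField K] [Field M] [NumberField M]
    [Algebra K M] (ζ : M) : Prop where
  three_le : 3 ≤ m
  finrank : Module.finrank ℚ K = 3
  cpx : ∃ v : InfinitePlace K, v.IsComplex
  prim : IsPrimitiveRoot ζ m
  gen : IntermediateField.adjoin K {ζ} = ⊤

/-- The Galois closure `E` of the complex cubic field `K`: `s 0, s 1, s 2 : K → E` are the three embeddings, the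
automorphisms of `E` are the permutations of the `s i`, `k` is the field of the even ones (the cyclic ones,
`i ↦ i + c`), `j : E → ℂ` is an embedding, and complex conjugation fixes `s 0` and exchanges `s 1`, `s 2`. -/
structure Dih (K k E : Type) [Field K] [NumberField K] [Field k] [NumberField k] [Field E] [NumberField E]
    [Algebra k E] (s : ZMod 3 → K →+* E) (j : E →+* ℂ) : Prop where
  three : Module.finrank ℚ K = 3
  iq : IQ k
  cyc : CycCubic k E
  gal : IsGalois ℚ E
  inj : Function.Injective s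
  perm : ∀ g : E ≃+* E, ∃ π : Equiv.Perm (ZMod 3), ∀ i x, g (s i x) = s (π i) x
  ofperm : ∀ π : Equiv.Perm (ZMod 3), ∃ g : E ≃+* E, ∀ i x, g (s i x) = s (π i) x
  faith : ∀ g : E ≃+* E, (∀ i x, g (s i x) = s i x) → ∀ y, g y = y
  fix : ∀ (g : E ≃+* E) (π : Equiv.Perm (ZMod 3)), (∀ i x, g (s i x) = s (π i) x) →
    ((∀ x : k, g (algebraMap k E x) = algebraMap k E x) ↔ ∃ c, ∀ i, π i = i + c)
  conj : ∀ i x, (starRingEnd ℂ) (j (s i x)) = j (s (-i) x)

/-- the embedding of `k` given by an embedding of `E` -/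
abbrev jk {k E : Type} [Field k] [Field E] [Algebra k E] (j : E →+* ℂ) : k →+* ℂ := j.comp (algebraMap k E)

/-- `t` shifts the three conjugates of `K` by `c` -/
def Sh {K E : Type} [Field K] [Field E] (s : ZMod 3 → K →+* E) (j : E →+* ℂ) (t : ℂ ≃+* ℂ) (c : ZMod 3) : Prop :=
  ∀ i x, t (j (s i x)) = j (s (i + c) x)

end CMS
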