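import Pool.Agent.Lib.CMS.AIrr

/-!
# Frobenius automorphisms

`P` is a nonzero prime ideal of `K` not containing `m`, `q = N P`.
* `frob_exists`: let `Q'` be a prime of `M` above `P`. There is an automorphism `φ` of `M / K` with
  `φ x ≡ x ^ q` modulo `Q'` for all `x` (Mathlib: `Mathlib.RingTheory.Frobenius`,
  existence of arithmetic Frobenius elements for a finite group acting, here the Galois group
  acting on `𝓞 M` with invariants `𝓞 K`). `φ ζ` and `ζ ^ q` are `m`-th roots of unity, congruent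
  modulo `Q'`; as `m ∉ Q'` the `m`-th roots of unity are different modulo `Q'` (the product of
  `1 - ζ ^ j` over `0 < j < m` is `m`), so `φ ζ = ζ ^ q`, `φ = S g`. So the same
  `φ` works for all `Q'` above `P`. Restrict to `L`: for `Q` above `P` in `L` take `Q'` above `Q`.
* `frob_unique`: let `τ = σ⁻¹ σ'`. For all primes `Q` above `P` and all `x` in `𝓞 L`,
  `σ x ≡ x ^ q ≡ σ' x` modulo `Q`. Let `Q'` be a prime of `M` above `Q`, `H` the set of `h` with
  `rs L S h = 1`, `σ = rs L S a`, `σ' = rs L S b`. For `x` the trace of `ζ ^ j` from `M` to `L` we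
  get `∑_{h ∈ H} ζ ^ (j a h) ≡ ∑_{h ∈ H} ζ ^ (j b h)` modulo `Q'` for all `j`. The maps
  `j ↦ (ζ modulo Q') ^ (j h)` for different `h` are different homomorphisms from `ℤ/m`
  (multiplicative) to the residue field, so linearly independent
  (`linearIndependent_monoidHom`); hence `a H = b H` and `σ = σ'`.
-/

set_option autoImplicit false

open NumberField MPd9f52e

namespace CMS

variable {m : ℕ} {K L M : Type} [Field K] [NumberField K] [Field L] [NumberField L]
  [Field M] [NumberField M] [Algebra K M] [Algebra K L] [Algebra L M] [IsScalarTower K L M]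
  [Normal K L] {ζ : M}

private theorem smul_algMap (σ : M ≃ₐ[K] M) (a : 𝓞 K) :
    σ • (algebraMap (𝓞 K) (𝓞 M) a) = algebraMap (𝓞 K) (𝓞 M) a := by
  apply RingOfIntegers.ext
  show σ (algebraMap K M (a : K)) = algebraMap K M (a : K)
  exact σ.commutes _

private theorem smulComm : SMulCommClass (M ≃ₐ[K] M) (𝓞 K) (𝓞 M) := by
  constructor
  intro σ a x
  rw [Algebra.smul_def, Algebra.smul_def, smul_mul', smul_algMap]

/-- automorphisms with the same value at `ζ` are equal -/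
private theorem gal_ext (h : CycG m K M ζ) {S : (ZMod m)ˣ ≃* (M ≃ₐ[K] M)}
    (hS : IsCycEquiv m K M ζ S) {σ τ : M ≃ₐ[K] M} (he : σ ζ = τ ζ) : σ = τ := by
  have : NeZero m := ⟨(lt_of_lt_of_le (by norm_num) h.three_le).ne'⟩
  obtain ⟨g, rfl⟩ := S.surjective σ
  obtain ⟨g', rfl⟩ := S.surjective τ
  rw [hS g, hS g'] at he
  have h1 := h.prim.pow_inj (ZMod.val_lt _) (ZMod.val_lt _) he
  have h2 : g = g' := Units.ext (ZMod.val_injective m h1)
  rw [h2]

/-- the root of unity as an algebraic integer -/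
private theorem exists_zint (h : CycG m K M ζ) : ∃ z : 𝓞 M, (z : M) = ζ ∧ z ^ m = 1 := by
  have hm : 0 < m := lt_of_lt_of_le (by norm_num) h.three_le
  refine ⟨⟨ζ, h.prim.isIntegral hm⟩, rfl, ?_⟩
  apply RingOfIntegers.ext
  show ζ ^ m = 1
  exact h.prim.pow_eq_one

private theorem pow_val (h : CycG m K M ζ) {g : (ZMod m)ˣ} {q : ℕ}
    (hg : (g : ZMod m) = (q : ZMod m)) : ζ ^ (g : ZMod m).val = ζ ^ q := by
  have : NeZero m := ⟨(lt_of_lt_of_le (by norm_num) h.three_le).ne'⟩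
  rw [hg, ZMod.val_natCast]
  exact (pow_mod_orderOf ζ q ▸ by rw [← h.prim.eq_orderOf])

private theorem not_mem_top {P : Ideal (𝓞 K)} (hm : (m : 𝓞 K) ∉ P) {Q : Ideal (𝓞 M)}
    (hQP : Q.comap (algebraMap (𝓞 K) (𝓞 M)) = P) : (m : 𝓞 M) ∉ Q := by
  intro h1
  apply hm
  rw [← hQP, Ideal.mem_comap, map_natCast]
  exact h1

private theorem ne_bot_top {P : Ideal (𝓞 K)} (hP0 : P ≠ ⊥) {Q : Ideal (𝓞 M)}
    (hQP : Q.comap (algebraMap (𝓞 K) (𝓞 M)) = P) : Q ≠ ⊥ := by
  rintro rfl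
  apply hP0
  rw [← hQP]
  exact Ideal.comap_bot_of_injective _ (FaithfulSMul.algebraMap_injective (𝓞 K) (𝓞 M))

theorem frob_exists_top (h : CycG m K M ζ) {S : (ZMod m)ˣ ≃* (M ≃ₐ[K] M)}
    (hS : IsCycEquiv m K M ζ S) {P : Ideal (𝓞 K)} (hP : P.IsPrime) (hP0 : P ≠ ⊥)
    (hm : (m : 𝓞 K) ∉ P) {g : (ZMod m)ˣ} (hg : (g : ZMod m) = (Ideal.absNorm P : ZMod m)) :
    IsFrob K M P (S g) := by
  intro Q hQ hQP x y hxy
  have : IsGalois K M := cyc_galois h
  have : SMulCommClass (M ≃ₐ[K] M) (𝓞 K) (𝓞 M) := smulComm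
  have : Finite (𝓞 M ⧸ Q) := Ideal.finiteQuotientOfFreeOfNeBot Q (ne_bot_top hP0 hQP)
  obtain ⟨σ, hσ⟩ := IsArithFrobAt.exists_of_isInvariant (𝓞 K) (M ≃ₐ[K] M) Q
  have hcard : Nat.card (𝓞 K ⧸ Q.under (𝓞 K)) = Ideal.absNorm P := by
    have h1 : Q.under (𝓞 K) = P := hQP
    rw [h1, Ideal.absNorm_apply]
    rfl
  obtain ⟨z, hz, hzm⟩ := exists_zint h
  have h1 := hσ.apply_of_pow_eq_one hzm (not_mem_top hm hQP)
  rw [hcard] at h1
  have h2 : σ ζ = ζ ^ Ideal.absNorm P := by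
    have h3 := congrArg (fun t : 𝓞 M => (t : M)) h1
    have h4 : ((σ • z : 𝓞 M) : M) = ((z ^ Ideal.absNorm P : 𝓞 M) : M) := h3
    rw [← hz]
    exact h4
  have h3 : S g = σ := by
    apply gal_ext h hS
    rw [hS g, h2, pow_val h hg]
  have h4 := hσ x
  rw [hcard] at h4
  have h5 : y = σ • x := by
    apply RingOfIntegers.ext
    rw [hxy, h3]
    rfl
  rw [h5]
  exact h4

/-- compatibility of the actions on integers -/
private theorem smul_res (σ : M ≃ₐ[K] M) (x : 𝓞 L) :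
    algebraMap (𝓞 L) (𝓞 M) ((AlgEquiv.restrictNormalHom L σ) • x) =
      σ • (algebraMap (𝓞 L) (𝓞 M) x) := by
  apply RingOfIntegers.ext
  show algebraMap L M ((AlgEquiv.restrictNormalHom L σ) (x : L)) = σ (algebraMap L M (x : L))
  exact AlgEquiv.restrictNormal_commutes σ L (x : L)

private theorem exists_above {Q : Ideal (𝓞 L)} (hQ : Q.IsPrime) :
    ∃ Q' : Ideal (𝓞 M), Q'.IsPrime ∧ Q'.comap (algebraMap (𝓞 L) (𝓞 M)) = Q := by
  obtain ⟨Q', -, h1, h2⟩ := Ideal.exists_ideal_over_prime_of_isIntegral (S := 𝓞 M) Q ⊥ (by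
    rw [Ideal.comap_bot_of_injective _ (FaithfulSMul.algebraMap_injective (𝓞 L) (𝓞 M))]
    exact bot_le)
  exact ⟨Q', h1, h2⟩

omit [Normal K L] in
private theorem comap_comap' {P : Ideal (𝓞 K)} {Q : Ideal (𝓞 L)} {Q' : Ideal (𝓞 M)}
    (h1 : Q'.comap (algebraMap (𝓞 L) (𝓞 M)) = Q) (h2 : Q.comap (algebraMap (𝓞 K) (𝓞 L)) = P) :
    Q'.comap (algebraMap (𝓞 K) (𝓞 M)) = P := by
  rw [IsScalarTower.algebraMap_eq (𝓞 K) (𝓞 L) (𝓞 M), ← Ideal.comap_comap, h1, h2]

theorem frob_exists (h : CycG m K M ζ) {S : (ZMod m)ˣ ≃* (M ≃ₐ[K] M)}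
    (hS : IsCycEquiv m K M ζ S) {P : Ideal (𝓞 K)} (hP : P.IsPrime) (hP0 : P ≠ ⊥)
    (hm : (m : 𝓞 K) ∉ P) {g : (ZMod m)ˣ} (hg : (g : ZMod m) = (Ideal.absNorm P : ZMod m)) :
    IsFrob K L P (rs L S g) := by
  intro Q hQ hQP x y hxy
  obtain ⟨Q', hQ', hQ'Q⟩ := exists_above (M := M) hQ
  have h1 := frob_exists_top h hS hP hP0 hm hg Q' hQ' (comap_comap' hQ'Q hQP)
    (algebraMap (𝓞 L) (𝓞 M) x) (algebraMap (𝓞 L) (𝓞 M) y) (by
      have h2 : y = (AlgEquiv.restrictNormalHom L (S g)) • x := by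
        apply RingOfIntegers.ext
        rw [hxy]; rfl
      rw [h2, smul_res]
      rfl)
  rw [← map_pow, ← map_sub] at h1
  rw [← hQ'Q]
  exact h1

private theorem eval_mem {R T : Type} [CommRing R] [CommRing T] {f : R →+* T} {I : Ideal T}
    {p : Polynomial R} (hp : ∀ n, f (p.coeff n) ∈ I) (x : T) : p.eval₂ f x ∈ I := by
  rw [Polynomial.eval₂_eq_sum_range]
  exact Ideal.sum_mem _ fun i _ => I.mul_mem_right _ (hp i)

theorem frob_unique (h : CycG m K M ζ) {S : (ZMod m)ˣ ≃* (M ≃ₐ[K] M)}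
    (hS : IsCycEquiv m K M ζ S) {P : Ideal (𝓞 K)} (hP : P.IsPrime) (hP0 : P ≠ ⊥)
    (hm : (m : 𝓞 K) ∉ P) {σ σ' : L ≃ₐ[K] L} (hσ : IsFrob K L P σ) (hσ' : IsFrob K L P σ') :
    σ = σ' := by
  have : IsGalois K M := cyc_galois h
  obtain ⟨Q, hQ, hQP⟩ := exists_above (L := K) (M := L) hP
  obtain ⟨Q', hQ', hQ'Q⟩ := exists_above (M := M) hQ
  have hQ'P := comap_comap' hQ'Q hQP
  obtain ⟨s, rfl⟩ := AlgEquiv.restrictNormalHom_surjective (K₁ := L) M σ
  obtain ⟨s', rfl⟩ := AlgEquiv.restrictNormalHom_surjective (K₁ := L) M σ'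
  set A : 𝓞 L →+* 𝓞 M := algebraMap (𝓞 L) (𝓞 M) with hA
  -- the two automorphisms are congruent
  have hcong : ∀ x : 𝓞 L, s • A x - s' • A x ∈ Q' := by
    intro x
    have h1 := hσ Q hQ hQP x ((AlgEquiv.restrictNormalHom L s) • x) rfl
    have h2 := hσ' Q hQ hQP x ((AlgEquiv.restrictNormalHom L s') • x) rfl
    have h3 := Q.sub_mem h1 h2
    rw [sub_sub_sub_cancel_right, ← hQ'Q, Ideal.mem_comap, map_sub, smul_res, smul_res] at h3
    exact h3
  obtain ⟨z, hz, hzm⟩ := exists_zint h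
  set f : Polynomial (𝓞 L) := minpoly (𝓞 L) z with hf
  have hzint : IsIntegral (𝓞 L) z := Algebra.IsIntegral.isIntegral z
  have hroot : f.eval₂ A z = 0 := minpoly.aeval (𝓞 L) z
  -- ring homs
  let φ : 𝓞 M →+* 𝓞 M := MulSemiringAction.toRingHom (M ≃ₐ[K] M) (𝓞 M) s
  let φ' : 𝓞 M →+* 𝓞 M := MulSemiringAction.toRingHom (M ≃ₐ[K] M) (𝓞 M) s'
  have hφ : ∀ x, φ x = s • x := fun _ => rfl
  have hφ' : ∀ x, φ' x = s' • x := fun _ => rfl
  have e1 : f.eval₂ (φ.comp A) (φ z) = 0 := by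
    rw [← Polynomial.hom_eval₂, hroot, map_zero]
  -- the value of the conjugate polynomial is in Q'
  have e2 : f.eval₂ (φ'.comp A) (φ z) ∈ Q' := by
    have h1 : f.eval₂ (φ'.comp A) (φ z) - f.eval₂ (φ.comp A) (φ z) ∈ Q' := by
      rw [Polynomial.eval₂_eq_sum_range, Polynomial.eval₂_eq_sum_range, ← Finset.sum_sub_distrib]
      refine Ideal.sum_mem _ fun i _ => ?_
      rw [← sub_mul]
      apply Q'.mul_mem_right
      have := hcong (f.coeff i)
      rw [← neg_mem_iff, neg_sub]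
      exact this
    rwa [e1, sub_zero] at h1
  -- f divides X^m - 1
  obtain ⟨g, hg⟩ : f ∣ Polynomial.X ^ m - 1 := by
    apply minpoly.isIntegrallyClosed_dvd hzint
    simp [hzm]
  have hzφ : (φ z) ^ m = 1 := by rw [← map_pow, hzm, map_one]
  have e3 : f.eval₂ (φ'.comp A) (φ z) = 0 := by
    by_contra hne
    have h1 : f.eval₂ (φ'.comp A) (φ z) * g.eval₂ (φ'.comp A) (φ z) = 0 := by
      rw [← Polynomial.eval₂_mul, ← hg]
      simp [hzφ]
    have h2 : g.eval₂ (φ'.comp A) (φ z) = 0 := (mul_eq_zero.1 h1).resolve_left hne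
    have h3 : Polynomial.derivative (Polynomial.X ^ m - 1 : Polynomial (𝓞 L)) =
        Polynomial.derivative f * g + f * Polynomial.derivative g := by
      rw [hg, Polynomial.derivative_mul]
    have h4 := congrArg (fun p => Polynomial.eval₂ (φ'.comp A) (φ z) p) h3
    simp only [Polynomial.eval₂_add, Polynomial.eval₂_mul, h2, mul_zero, zero_add] at h4
    have h5 : (m : 𝓞 M) * (φ z) ^ (m - 1) ∈ Q' := by
      have h6 : Polynomial.eval₂ (φ'.comp A) (φ z)
          (Polynomial.derivative (Polynomial.X ^ m - 1 : Polynomial (𝓞 L))) =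
            (m : 𝓞 M) * (φ z) ^ (m - 1) := by
        simp [Polynomial.derivative_X_pow]
      rw [← h6, h4]
      exact Q'.mul_mem_right _ e2
    apply not_mem_top hm hQ'P
    have hm1 : m - 1 + 1 = m := Nat.sub_add_cancel (le_trans (by norm_num) h.three_le)
    have h7 : (m : 𝓞 M) * (φ z) ^ (m - 1) * φ z = m := by
      rw [mul_assoc, ← pow_succ, hm1, hzφ, mul_one]
    rw [← h7]
    exact Q'.mul_mem_right _ h5
  -- so z and s'⁻¹ s z are conjugate over L
  set t : M ≃ₐ[K] M := s'⁻¹ * s with ht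
  have e4 : f.eval₂ A (t • z) = 0 := by
    have h1 : f.eval₂ (φ'.comp A) (φ' (t • z)) = 0 := by
      have h2 : φ' (t • z) = φ z := by
        rw [hφ', hφ, ht, ← mul_smul, mul_inv_cancel_left]
      rw [h2]; exact e3
    rw [← Polynomial.hom_eval₂] at h1
    have h3 : s' • (f.eval₂ A (t • z)) = 0 := h1
    have h4 := congrArg (fun w => s'⁻¹ • w) h3
    simpa using h4
  have hmin : minpoly L ζ = f.map (algebraMap (𝓞 L) L) := by
    rw [← hz]
    exact minpoly.isIntegrallyClosed_eq_field_fractions L M hzint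
  have e5 : Polynomial.aeval (t ζ) (minpoly L ζ) = 0 := by
    rw [hmin, Polynomial.aeval_def, Polynomial.eval₂_map]
    have h1 := congrArg (algebraMap (𝓞 M) M) e4
    rw [Polynomial.hom_eval₂, map_zero] at h1
    have h2 : (algebraMap (𝓞 M) M) (t • z) = t ζ := by
      rw [← hz]; rfl
    rw [h2] at h1
    convert h1 using 2
    ext x
    rfl
  have hζint : IsIntegral L ζ := IsIntegral.of_finite L ζ
  have e6 : minpoly L (t ζ) = minpoly L ζ := by
    symm
    exact minpoly.eq_of_irreducible_of_monic (minpoly.irreducible hζint) e5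
      (minpoly.monic hζint)
  have : IsGalois L M := IsGalois.tower_top_of_isGalois K L M
  obtain ⟨u, hu⟩ := (Normal.minpoly_eq_iff_mem_orbit M).1 e6
  have hu' : (u.restrictScalars K) ζ = t ζ := hu
  have e7 : u.restrictScalars K = t := gal_ext h hS hu'
  -- so t is the identity on L
  ext x
  apply (algebraMap L M).injective
  have h1 : t (algebraMap L M x) = algebraMap L M x := by
    rw [← e7]
    exact u.commutes x
  have h2 : s (algebraMap L M x) = s' (algebraMap L M x) := by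
    have h3 := congrArg s' h1
    rw [ht] at h3
    rw [← h3]
    show s (algebraMap L M x) = s' (s'⁻¹ (s (algebraMap L M x)))
    exact (AlgEquiv.apply_symm_apply s' _).symm
  rw [show algebraMap L M ((AlgEquiv.restrictNormalHom L s) x) = s (algebraMap L M x) from
    AlgEquiv.restrictNormal_commutes s L x,
    show algebraMap L M ((AlgEquiv.restrictNormalHom L s') x) = s' (algebraMap L M x) from
    AlgEquiv.restrictNormal_commutes s' L x]
  exact h2

end CMS
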