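import Pool.Agent.Lib.CMS.ADef

/-!
# AIrr: the Galois group of `K(ζ) / K`, `K` a complex cubic field

* `no_emb`: a complex cubic field has no embedding in an abelian number field: otherwise it is Galois over `ℚ` of odd degree,
  hence unramified at the infinite place of `ℚ`.
* `cyc_irr`: `M = ℚ(ζ)(θ)`, `K = ℚ(θ)`; the minimal polynomial of `θ` over `ℚ` has no root in `ℚ(ζ)` and degree `3`, so it
  is irreducible over `ℚ(ζ)`.
-/

set_option autoImplicit false

open NumberField MPd9f52e

namespace CMS

variable {m : ℕ} {K M : Type} [Field K] [NumberField K] [Field M] [NumberField M] [Algebra K M]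
  {ζ : M}

/-- a complex cubic field has no embedding in an abelian number field -/
theorem no_emb {K F : Type} [Field K] [NumberField K] [Field F] [NumberField F] [IsAbelianGalois ℚ F]
    (hK : Module.finrank ℚ K = 3) (hc : ∃ v : InfinitePlace K, v.IsComplex) (f : K →+* F) : False := by
  have hab : IsAbelianGalois ℚ K := IsAbelianGalois.of_algHom f.toRatAlgHom
  have hgal : IsGalois ℚ K := inferInstance
  have hodd : Odd (Module.finrank ℚ K) := by rw [hK]; decide
  have h1 : IsUnramifiedAtInfinitePlaces ℚ K := IsUnramifiedAtInfinitePlaces_of_odd_finrank hodd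
  obtain ⟨v, hv⟩ := hc
  have h2 : v.IsUnramified ℚ := h1.isUnramified v
  rw [InfinitePlace.isUnramified_iff] at h2
  rcases h2 with h2 | h2
  · rw [← InfinitePlace.not_isComplex_iff_isReal] at h2
    exact h2 hv
  · have h3 : (v.comap (algebraMap ℚ K)).IsReal := by
      have := Subsingleton.elim (v.comap (algebraMap ℚ K)) Rat.infinitePlace
      rw [this]
      exact Rat.isReal_infinitePlace
    rw [← InfinitePlace.not_isComplex_iff_isReal] at h3
    exact h3 h2

private theorem isCyc {k F : Type} [Field k] [Field F] [Algebra k F] [Algebra.IsIntegral k F]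
    {m : ℕ} [NeZero m] {ξ : F}
    (hξ : IsPrimitiveRoot ξ m) (hF : IntermediateField.adjoin k {ξ} = ⊤) :
    IsCyclotomicExtension {m} k F := by
  have h1 := hξ.intermediateField_adjoin_isCyclotomicExtension k
  rw [hF] at h1
  exact IsCyclotomicExtension.equiv {m} k _ IntermediateField.topEquiv

/-- a complex cubic field has no embedding in a field generated by a root of unity -/
theorem no_emb_cyc {K F : Type} [Field K] [NumberField K] [Field F] [NumberField F]
    (hK : Module.finrank ℚ K = 3) (hc : ∃ v : InfinitePlace K, v.IsComplex)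
    {m : ℕ} (hm : 0 < m) {ξ : F} (hξ : IsPrimitiveRoot ξ m) (hF : IntermediateField.adjoin ℚ {ξ} = ⊤)
    (f : K →+* F) : False := by
  have : NeZero m := ⟨hm.ne'⟩
  have hcyc : IsCyclotomicExtension {m} ℚ F := isCyc hξ hF
  have : IsAbelianGalois ℚ F := IsCyclotomicExtension.isAbelianGalois {m} ℚ F
  exact no_emb hK hc f

/-- the minimal polynomial of a generator of `K` stays irreducible over an abelian field -/
theorem irr_map {K F : Type} [Field K] [NumberField K] [Field F] [NumberField F] [IsAbelianGalois ℚ F]
    (hK : Module.finrank ℚ K = 3) (hc : ∃ v : InfinitePlace K, v.IsComplex) (pb : PowerBasis ℚ K) :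
    Irreducible ((minpoly ℚ pb.gen).map (algebraMap ℚ F)) := by
  have hint : IsIntegral ℚ pb.gen := IsIntegral.of_finite ℚ _
  have hmon : ((minpoly ℚ pb.gen).map (algebraMap ℚ F)).Monic := (minpoly.monic hint).map _
  have hdeg : ((minpoly ℚ pb.gen).map (algebraMap ℚ F)).natDegree = 3 := by
    rw [Polynomial.natDegree_map, pb.natDegree_minpoly, ← pb.finrank, hK]
  rw [hmon.irreducible_iff_roots_eq_zero_of_degree_le_three (by omega) (by omega)]
  rw [Multiset.eq_zero_iff_forall_notMem]
  intro r hr
  have h1 := (Polynomial.mem_roots'.1 hr).2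
  have h2 : Polynomial.aeval r (minpoly ℚ pb.gen) = 0 := by
    rw [Polynomial.aeval_def, ← Polynomial.eval_map]
    exact h1
  exact no_emb hK hc ((pb.lift r h2 : K →ₐ[ℚ] F) : K →+* F)

/-- `M` is generated over `ℚ(ζ)` by a generator of `K` -/
private theorem gen_top (h : CycG m K M ζ) (pb : PowerBasis ℚ K) :
    IntermediateField.adjoin (IntermediateField.adjoin ℚ {ζ}) {algebraMap K M pb.gen} = ⊤ := by
  set F := IntermediateField.adjoin ℚ {ζ} with hF
  set E := IntermediateField.adjoin F {algebraMap K M pb.gen} with hE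
  have hζE : ζ ∈ E := by
    have : algebraMap F M ⟨ζ, IntermediateField.mem_adjoin_simple_self ℚ ζ⟩ ∈ E :=
      E.algebraMap_mem _
    exact this
  have hθE : algebraMap K M pb.gen ∈ E := IntermediateField.mem_adjoin_simple_self F _
  have hQ : ∀ q : ℚ, algebraMap ℚ M q ∈ E := by
    intro q
    rw [IsScalarTower.algebraMap_apply ℚ F M]
    exact E.algebraMap_mem _
  have hK : ∀ x : K, algebraMap K M x ∈ E := by
    intro x
    have hx : x ∈ Algebra.adjoin ℚ {pb.gen} := by rw [pb.adjoin_gen_eq_top]; trivial
    induction hx using Algebra.adjoin_induction with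
    | mem y hy => rw [Set.mem_singleton_iff.1 hy]; exact hθE
    | algebraMap q =>
      rw [← IsScalarTower.algebraMap_apply ℚ K M]; exact hQ q
    | add y z _ _ h1 h2 => rw [map_add]; exact add_mem h1 h2
    | mul y z _ _ h1 h2 => rw [map_mul]; exact mul_mem h1 h2
  rw [eq_top_iff]
  intro x _
  have hx : x ∈ IntermediateField.adjoin K {ζ} := by rw [h.gen]; trivial
  induction hx using IntermediateField.adjoin_induction with
  | mem y hy => rw [Set.mem_singleton_iff.1 hy]; exact hζE
  | algebraMap q => exact hK q
  | add y z _ _ h1 h2 => exact add_mem (h1 trivial) (h2 trivial)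
  | inv y _ h1 => exact inv_mem (h1 trivial)
  | mul y z _ _ h1 h2 => exact mul_mem (h1 trivial) (h2 trivial)

theorem cyc_finrank (h : CycG m K M ζ) : Module.finrank ℚ M = 3 * Nat.totient m := by
  have hm : 0 < m := lt_of_lt_of_le (by norm_num) h.three_le
  set F := IntermediateField.adjoin ℚ {ζ} with hF
  have hdF : Module.finrank ℚ F = Nat.totient m := by
    rw [hF, IntermediateField.adjoin.finrank (IsIntegral.of_finite ℚ ζ),
      ← Polynomial.cyclotomic_eq_minpoly_rat h.prim hm, Polynomial.natDegree_cyclotomic]
  have : NumberField F := ⟨⟩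
  let ξ : F := IntermediateField.AdjoinSimple.gen ℚ ζ
  have hξ : IsPrimitiveRoot ξ m := by
    have h1 : IsPrimitiveRoot (algebraMap F M ξ) m := h.prim
    exact h1.of_map_of_injective (algebraMap F M).injective
  have hξtop : IntermediateField.adjoin ℚ {ξ} = ⊤ := by
    apply IntermediateField.eq_of_le_of_finrank_eq le_top
    rw [IntermediateField.finrank_top', hdF,
      IntermediateField.adjoin.finrank (IsIntegral.of_finite ℚ ξ),
      ← Polynomial.cyclotomic_eq_minpoly_rat hξ hm, Polynomial.natDegree_cyclotomic]
  have : NeZero m := ⟨hm.ne'⟩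
  have hcyc : IsCyclotomicExtension {m} ℚ F := isCyc hξ hξtop
  have : IsAbelianGalois ℚ F := IsCyclotomicExtension.isAbelianGalois {m} ℚ F
  let pb := Field.powerBasisOfFiniteOfSeparable ℚ K
  have hirr := irr_map (F := F) h.finrank h.cpx pb
  have hint : IsIntegral ℚ pb.gen := IsIntegral.of_finite ℚ _
  have hmin : minpoly F (algebraMap K M pb.gen) = (minpoly ℚ pb.gen).map (algebraMap ℚ F) := by
    symm
    apply minpoly.eq_of_irreducible_of_monic hirr
    · rw [Polynomial.aeval_map_algebraMap, Polynomial.aeval_algebraMap_apply, minpoly.aeval, map_zero]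
    · exact (minpoly.monic hint).map _
  have hMF : Module.finrank F M = 3 := by
    rw [← IntermediateField.finrank_top' (F := F) (E := M), ← gen_top h pb,
      IntermediateField.adjoin.finrank (IsIntegral.of_finite F _), hmin, Polynomial.natDegree_map,
      pb.natDegree_minpoly, ← pb.finrank, h.finrank]
  rw [← Module.finrank_mul_finrank ℚ F M, hdF, hMF, mul_comm]

theorem cyc_irr (h : CycG m K M ζ) : Irreducible (Polynomial.cyclotomic m K) := by
  have hm : 0 < m := lt_of_lt_of_le (by norm_num) h.three_le
  have h1 := Module.finrank_mul_finrank ℚ K M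
  rw [h.finrank, cyc_finrank h] at h1
  have hKM : Module.finrank K M = Nat.totient m := by omega
  have hint : IsIntegral K ζ := IsIntegral.of_finite K ζ
  have hdeg : (minpoly K ζ).natDegree = Nat.totient m := by
    rw [← IntermediateField.adjoin.finrank hint, h.gen, IntermediateField.finrank_top', hKM]
  have hdvd : minpoly K ζ ∣ Polynomial.cyclotomic m K := by
    apply minpoly.dvd
    rw [Polynomial.aeval_def, ← Polynomial.eval_map, Polynomial.map_cyclotomic]
    exact (h.prim.isRoot_cyclotomic hm)
  have heq : Polynomial.cyclotomic m K = minpoly K ζ := by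
    apply Polynomial.eq_of_monic_of_dvd_of_natDegree_le (minpoly.monic hint)
      (Polynomial.cyclotomic.monic m K) hdvd
    rw [hdeg, Polynomial.natDegree_cyclotomic]
  rw [heq]
  exact minpoly.irreducible hint

theorem cyc_galois (h : CycG m K M ζ) : IsGalois K M := by
  have : NeZero m := ⟨(lt_of_lt_of_le (by norm_num) h.three_le).ne'⟩
  have : IsCyclotomicExtension {m} K M := isCyc h.prim h.gen
  exact IsCyclotomicExtension.isGalois {m} K M

theorem cyc_equiv (h : CycG m K M ζ) :
    ∃ S : (ZMod m)ˣ ≃* (M ≃ₐ[K] M), IsCycEquiv m K M ζ S := by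
  have : NeZero m := ⟨(lt_of_lt_of_le (by norm_num) h.three_le).ne'⟩
  have : IsCyclotomicExtension {m} K M := isCyc h.prim h.gen
  refine ⟨(IsCyclotomicExtension.autEquivPow M (cyc_irr h)).symm, ?_⟩
  intro g
  set S := IsCyclotomicExtension.autEquivPow M (cyc_irr h) with hS
  have hz := IsCyclotomicExtension.zeta_spec m K M
  set z := IsCyclotomicExtension.zeta m K M with hzdef
  have h1 : z ^ (g : ZMod m).val = S.symm g z := by
    have h2 := hz.autToPow_spec K (S.symm g)
    have h3 : hz.autToPow K (S.symm g) = g := by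
      have : S (S.symm g) = g := S.apply_symm_apply g
      exact this
    rwa [h3] at h2
  obtain ⟨i, -, hi⟩ := hz.eq_pow_of_pow_eq_one h.prim.pow_eq_one
  rw [← hi, map_pow, ← h1, ← pow_mul, ← pow_mul, mul_comm]

theorem cyc_sub (h : CycG m K M ζ) (L : Type) [Field L] [NumberField L] [Algebra K L]
    [Algebra L M] [IsScalarTower K L M] :
    IsGalois K L ∧ ∀ σ τ : L ≃ₐ[K] L, σ * τ = τ * σ := by
  have : NeZero m := ⟨(lt_of_lt_of_le (by norm_num) h.three_le).ne'⟩
  have : IsCyclotomicExtension {m} K M := isCyc h.prim h.gen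
  have : IsAbelianGalois K M := IsCyclotomicExtension.isAbelianGalois {m} K M
  have : IsAbelianGalois K L := IsAbelianGalois.tower_bot K L M
  exact ⟨inferInstance, fun σ τ => (inferInstance : IsMulCommutative (L ≃ₐ[K] L)).is_comm.comm σ τ⟩

end CMS
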