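import Pool.Agent.Lib.CMS.AStick
import Pool.Agent.Lib.MP_d9f52e_nt.APw

/-!
# The logarithm of the unit
-/

set_option autoImplicit false

open NumberField MPd9f52e

namespace CMS

variable {m : ℕ} [NeZero m] {K L M : Type} [Field K] [NumberField K] [Field L] [NumberField L]
  [Field M] [NumberField M] [Algebra K M] [Algebra K L] [Algebra L M] [IsScalarTower K L M]
  [Normal K L] {ζ : M}

omit [NeZero m] [NumberField K] [NumberField L] [NumberField M] in
private theorem rs_algebraMap (S : (ZMod m)ˣ ≃* (M ≃ₐ[K] M)) (g : (ZMod m)ˣ) (y : L) :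
    algebraMap L M (rs L S g y) = S g (algebraMap L M y) :=
  AlgEquiv.restrictNormal_commutes (S g) L y

open Classical in
theorem place_norm (h : CycG m K M ζ) {S : (ZMod m)ˣ ≃* (M ≃ₐ[K] M)}
    (hS : IsCycEquiv m K M ζ S) (v : InfinitePlace L) (ι : M →+* ℂ)
    (hι : ∀ y : L, v y = ‖ι (algebraMap L M y)‖) (z : M) (ρ : L ≃ₐ[K] L) :
    v (ρ (Algebra.norm L z)) = ∏ g : (ZMod m)ˣ, if rs L S g = ρ then ‖ι (S g z)‖ else 1 := by
  have hKM : IsGalois K M := cyc_galois h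
  have hLM : IsGalois L M := IsGalois.tower_top_of_isGalois K L M
  have hfd : FiniteDimensional L M := Module.Finite.of_restrictScalars_finite ℚ L M
  have hNM : Normal K M := hKM.to_normal
  obtain ⟨χ, hχ⟩ := AlgEquiv.restrictNormalHom_surjective (F := K) (K₁ := L) M ρ
  obtain ⟨g₀, rfl⟩ := S.surjective χ
  have hg₀ : rs L S g₀ = ρ := hχ
  rw [hι, ← hg₀, rs_algebraMap, Algebra.norm_eq_prod_automorphisms, map_prod, map_prod, norm_prod,
    ← Finset.prod_filter]
  refine Finset.prod_bij (fun (φ : M ≃ₐ[L] M) _ => g₀ * S.symm (φ.restrictScalars K)) ?_ ?_ ?_ ?_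
  · intro φ _
    rw [Finset.mem_filter]
    refine ⟨Finset.mem_univ _, ?_⟩
    ext l
    apply (algebraMap L M).injective
    rw [rs_algebraMap, rs_algebraMap, map_mul, MulEquiv.apply_symm_apply]
    show S g₀ (φ (algebraMap L M l)) = S g₀ (algebraMap L M l)
    rw [φ.commutes]
  · intro φ _ ψ _ hφψ
    have h1 := S.symm.injective (mul_left_cancel hφψ)
    ext y
    exact congrArg (fun f : M ≃ₐ[K] M => f y) h1
  · intro g hg
    rw [Finset.mem_filter] at hg
    have hfix : ∀ l : L, S (g₀⁻¹ * g) (algebraMap L M l) = algebraMap L M l := by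
      intro l
      rw [← rs_algebraMap, map_mul, map_inv, hg.2, inv_mul_cancel]
      rfl
    let φ : M ≃ₐ[L] M := AlgEquiv.ofRingEquiv (f := (S (g₀⁻¹ * g)).toRingEquiv) hfix
    refine ⟨φ, Finset.mem_univ _, ?_⟩
    have hφ : φ.restrictScalars K = S (g₀⁻¹ * g) := by
      ext y
      rfl
    rw [hφ, MulEquiv.symm_apply_apply, mul_inv_cancel_left]
  · intro φ _
    rw [map_mul, MulEquiv.apply_symm_apply]
    rfl

open Classical in
theorem log_place (h : CycG m K M ζ) {S : (ZMod m)ˣ ≃* (M ≃ₐ[K] M)}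
    (hS : IsCycEquiv m K M ζ S) {A : (L ≃ₐ[K] L) → ℤ}
    (hA : ∀ σ, (A σ : ℚ) = (Units.torsionOrder L : ℚ) * thQ (rs L S) σ) (v : InfinitePlace L)
    (ι : M →+* ℂ) (hι : ∀ y : L, v y = ‖ι (algebraMap L M y)‖) {z : M} (hz : z ≠ 0)
    (ρ : L ≃ₐ[K] L) :
    Real.log (v (ρ (pw A (Algebra.norm L z)))) = (Units.torsionOrder L : ℝ) *
      ∑ g : (ZMod m)ˣ, if rs L S g = ρ then
        ∑ b : (ZMod m)ˣ, (bet m b : ℝ) * Real.log ‖ι (S (g * b⁻¹) z)‖ else 0 := by
  have hfd : FiniteDimensional L M := Module.Finite.of_restrictScalars_finite ℚ L M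
  have hn0 : Algebra.norm L z ≠ 0 := Algebra.norm_ne_zero_iff.2 hz
  set y : L := Algebra.norm L z with hy
  have hne : ∀ g, ‖ι (S g z)‖ ≠ 0 := fun g =>
    norm_ne_zero_iff.2 ((map_ne_zero ι).2 ((map_ne_zero_iff (S g) (S g).injective).2 hz))
  -- logarithm of one conjugate
  have hlog : ∀ σ : L ≃ₐ[K] L, Real.log (v (σ y)) =
      ∑ g : (ZMod m)ˣ, if rs L S g = σ then Real.log ‖ι (S g z)‖ else 0 := by
    intro σ
    rw [hy, place_norm h hS v ι hι z σ, Real.log_prod]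
    · refine Finset.sum_congr rfl fun g _ => ?_
      split_ifs
      · rfl
      · exact Real.log_one
    · intro g _
      split_ifs
      · exact hne g
      · exact one_ne_zero
  have hpw : Real.log (v (ρ (pw A y))) = ∑ σ : L ≃ₐ[K] L, (A σ : ℝ) * Real.log (v (ρ (σ y))) := by
    have h1 : v (ρ (pw A y)) = ∏ σ : L ≃ₐ[K] L, (v (ρ (σ y))) ^ (A σ) := by
      unfold pw
      rw [map_prod, map_prod]
      exact Finset.prod_congr (by ext; simp) fun σ _ => by rw [map_zpow₀, map_zpow₀]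
    rw [h1, Real.log_prod]
    · exact Finset.sum_congr rfl fun σ _ => Real.log_zpow _ _
    · intro σ _
      exact zpow_ne_zero _ ((map_ne_zero v).2
        ((map_ne_zero_iff ρ ρ.injective).2 ((map_ne_zero_iff σ σ.injective).2 hn0)))
  have hAr : ∀ σ : L ≃ₐ[K] L, (A σ : ℝ) = (Units.torsionOrder L : ℝ) *
      ∑ b : (ZMod m)ˣ, if rs L S b⁻¹ = σ then (bet m b : ℝ) else 0 := by
    intro σ
    have h1 := congrArg (Rat.cast : ℚ → ℝ) (hA σ)
    unfold thQ at h1
    push_cast at h1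
    rw [h1]
    congr 1
    exact Finset.sum_congr (by ext; simp) fun b _ => by split_ifs <;> simp
  rw [hpw]
  have h2 : ∀ σ : L ≃ₐ[K] L, (A σ : ℝ) * Real.log (v (ρ (σ y))) =
      (Units.torsionOrder L : ℝ) * ∑ b : (ZMod m)ˣ,
        if rs L S b⁻¹ = σ then (bet m b : ℝ) * Real.log (v (ρ (σ y))) else 0 := by
    intro σ
    rw [hAr σ, mul_assoc, Finset.sum_mul]
    congr 1
    exact Finset.sum_congr rfl fun b _ => by split_ifs <;> simp
  rw [Finset.sum_congr rfl fun σ _ => h2 σ, ← Finset.mul_sum, Finset.sum_comm]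
  congr 1
  have h3 : ∀ b : (ZMod m)ˣ, (∑ σ : L ≃ₐ[K] L,
      if rs L S b⁻¹ = σ then (bet m b : ℝ) * Real.log (v (ρ (σ y))) else 0) =
      ∑ g : (ZMod m)ˣ, if rs L S g = ρ then
        (bet m b : ℝ) * Real.log ‖ι (S (g * b⁻¹) z)‖ else 0 := by
    intro b
    rw [Finset.sum_ite_eq]
    simp only [Finset.mem_univ, if_true]
    have h4 := hlog (ρ * rs L S b⁻¹)
    have h5 : (ρ * rs L S b⁻¹) y = ρ (rs L S b⁻¹ y) := rfl
    rw [h5] at h4
    rw [h4, Finset.mul_sum]
    refine (Fintype.sum_equiv (Equiv.mulRight b⁻¹) _ _ fun g => ?_).symm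
    have e : (Equiv.mulRight b⁻¹) g = g * b⁻¹ := rfl
    show (if rs L S g = ρ then (bet m b : ℝ) * Real.log ‖ι (S (g * b⁻¹) z)‖ else 0) =
      (bet m b : ℝ) * (if rs L S (g * b⁻¹) = ρ * rs L S b⁻¹ then
        Real.log ‖ι (S (g * b⁻¹) z)‖ else 0)
    have e2 : (rs L S (g * b⁻¹) = ρ * rs L S b⁻¹) ↔ (rs L S g = ρ) := by
      rw [map_mul]
      exact mul_left_inj _
    simp only [e2]
    split_ifs <;> simp
  rw [Finset.sum_congr rfl fun b _ => h3 b, Finset.sum_comm]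
  refine Finset.sum_congr rfl fun g _ => ?_
  split_ifs
  · rfl
  · simp

end CMS
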