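import Pool.Agent.Lib.CMS.ACond1
import Pool.Agent.Lib.CMS.ACond3
import Pool.Agent.Lib.CMS.ANorm
import Pool.Agent.Lib.CMS.AArt

/-!
# Stark's conjecture from a unit and the partial zeta functions

`A` from `stick_int`, `u = pw A (N z)`, `N z` the norm of `z` to `L`. The embedding `ι` extends
the embedding of the place `v` of `L`. Condition 1 is `cond1_fin`, `cond1_inf`; condition 3 is
`cond3`. Condition 2: the continued zeta function is the sum over the `g` with `rs L S g = ρ` of
`Zf g` (`zeta_sum`), its derivative at `0` is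
`∑_{g} (-2) ∑_b bet b * log ‖ι (S (g b⁻¹) z)‖`, which is `-(2 / e) log v (ρ u)` by
`log_place`.
-/

set_option autoImplicit false

open NumberField MPd9f52e

namespace CMS

variable {m : ℕ} [NeZero m] {K L M : Type} [Field K] [NumberField K] [Field L] [NumberField L]
  [Field M] [NumberField M] [Algebra K M] [Algebra K L] [Algebra L M] [IsScalarTower K L M]
  {ζ : M}

/-- Some extension to `M` of an embedding of the place `v`. -/
theorem exists_iota (v : InfinitePlace L) :
    ∃ ι : M →+* ℂ, ∀ y : L, v y = ‖ι (algebraMap L M y)‖ := by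
  have hfd : FiniteDimensional L M := Module.Finite.of_restrictScalars_finite ℚ L M
  obtain ⟨w, hw⟩ := InfinitePlace.comap_surjective (K := M) v
  refine ⟨w.embedding, fun y => ?_⟩
  rw [InfinitePlace.norm_embedding_eq, ← hw, InfinitePlace.comap_apply]

omit [NeZero m] [NumberField M] in
/-- If `v` is complex on `K` then `ι` is not real on `K`. -/
theorem iota_nonreal {v : InfinitePlace L}
    (hv : (v.comap (algebraMap K L)).IsComplex) {ι : M →+* ℂ}
    (hι : ∀ y : L, v y = ‖ι (algebraMap L M y)‖) :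
    ¬ ∀ x : K, (starRingEnd ℂ) (ι (algebraMap K M x)) = ι (algebraMap K M x) := by
  intro hall
  set φ : K →+* ℂ := ι.comp (algebraMap K M) with hφ
  have hmk : v.comap (algebraMap K L) = InfinitePlace.mk φ := by
    ext x
    rw [InfinitePlace.comap_apply, hι, InfinitePlace.apply, ← IsScalarTower.algebraMap_apply K L M]
    rfl
  rw [hmk, InfinitePlace.isComplex_mk_iff] at hv
  apply hv
  rw [ComplexEmbedding.isReal_iff]
  exact RingHom.ext hall

theorem stark_of_data (h : CycG m K M ζ) {S : (ZMod m)ˣ ≃* (M ≃ₐ[K] M)}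
    (hS : IsCycEquiv m K M ζ S) {f : Ideal (𝓞 K)}
    (hf : ∀ P : Ideal (𝓞 K), P.IsPrime → (f ≤ P ↔ (m : 𝓞 K) ∈ P)) (v : InfinitePlace L)
    {ι : M →+* ℂ} (hι : ∀ y : L, v y = ‖ι (algebraMap L M y)‖) {z : M} (hz : z ≠ 0)
    (hz1 : IsIntegral ℤ z) (hz2 : IsIntegral ℤ z⁻¹) (Zf : (ZMod m)ˣ → ℂ → ℂ)
    (hZd : ∀ g, DifferentiableOn ℂ (Zf g) {s : ℂ | -1 / 2 < s.re ∧ s ≠ 1})
    (hZs : ∀ (g : (ZMod m)ˣ) (s : ℂ), 1 < s.re → HasSum
      (fun a : {a : Ideal (𝓞 K) // a ≠ ⊥ ∧ (g : ZMod m) = (Ideal.absNorm a : ZMod m)} =>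
        (Ideal.absNorm a.1 : ℂ) ^ (-s)) (Zf g s))
    (hZ0 : ∀ g : (ZMod m)ˣ, deriv (Zf g) 0 =
      ((-2 * ∑ b : (ZMod m)ˣ, (bet m b : ℝ) * Real.log ‖ι (S (g * b⁻¹) z)‖ : ℝ) : ℂ)) :
    Stark K L f v := by
  classical
  have hgal : IsGalois K L := (cyc_sub h L).1
  have hnor : Normal K L := hgal.to_normal
  have hfd : FiniteDimensional L M := Module.Finite.of_restrictScalars_finite ℚ L M
  obtain ⟨A, hA⟩ := stick_int (L := L) h hS
  have hn0 : Algebra.norm L z ≠ 0 := Algebra.norm_ne_zero_iff.2 hz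
  have hn1 : IsIntegral ℤ (Algebra.norm L z) := Algebra.isIntegral_norm L hz1
  have hn2 : IsIntegral ℤ (Algebra.norm L z)⁻¹ := by
    have h1 : (Algebra.norm L z)⁻¹ = Algebra.norm L z⁻¹ :=
      inv_eq_of_mul_eq_one_right (by rw [← map_mul, mul_inv_cancel₀ hz, map_one])
    rw [h1]
    exact Algebra.isIntegral_norm L hz2
  refine ⟨pw A (Algebra.norm L z), pw_ne_zero A hn0, fun w => cond1_fin A hn0 hn1 hn2 w,
    fun w hw => cond1_inf h hS hA hn0 w hw, ?_, ?_⟩
  · intro ρ
    refine ⟨fun s => ∑ g : (ZMod m)ˣ, if rs L S g = ρ then Zf g s else 0, ?_, ?_, ?_⟩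
    · refine DifferentiableOn.fun_sum fun g _ => ?_
      by_cases hg : rs L S g = ρ
      · simp only [hg, if_true]
        exact hZd g
      · simp only [hg, if_false]
        exact differentiableOn_const 0
    · intro s hs
      exact zeta_sum h hS hf s (fun g => Zf g s) (fun g => hZs g s hs) ρ
    · have hopen : {s : ℂ | -1 / 2 < s.re ∧ s ≠ 1} ∈ nhds (0 : ℂ) := by
        refine IsOpen.mem_nhds ?_ ⟨by norm_num, by norm_num⟩
        exact (isOpen_lt continuous_const Complex.continuous_re).inter isOpen_ne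
      have hd : ∀ g : (ZMod m)ˣ, HasDerivAt (fun s => if rs L S g = ρ then Zf g s else 0)
          (if rs L S g = ρ then
            ((-2 * ∑ b : (ZMod m)ˣ, (bet m b : ℝ) * Real.log ‖ι (S (g * b⁻¹) z)‖ : ℝ) : ℂ)
            else 0) 0 := by
        intro g
        by_cases hg : rs L S g = ρ
        · simp only [hg, if_true]
          rw [← hZ0 g]
          exact ((hZd g).differentiableAt hopen).hasDerivAt
        · simp only [hg, if_false]
          exact hasDerivAt_const _ _
      rw [(HasDerivAt.fun_sum fun g (_ : g ∈ Finset.univ) => hd g).deriv]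
      have hlog := log_place h hS hA v ι hι hz ρ
      rw [Real.log_pow, hlog]
      have he : (Units.torsionOrder L : ℝ) ≠ 0 :=
        Nat.cast_ne_zero.2 (Units.torsionOrder_ne_zero L)
      have hreal : (-(1 / (Units.torsionOrder L : ℝ)) * (((2 : ℕ) : ℝ) *
          ((Units.torsionOrder L : ℝ) * ∑ g : (ZMod m)ˣ, if rs L S g = ρ then
            ∑ b : (ZMod m)ˣ, (bet m b : ℝ) * Real.log ‖ι (S (g * b⁻¹) z)‖ else 0))) =
          ∑ g : (ZMod m)ˣ, if rs L S g = ρ then
            (-2 * ∑ b : (ZMod m)ˣ, (bet m b : ℝ) * Real.log ‖ι (S (g * b⁻¹) z)‖) else 0 := by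
        have h1 : ∀ X : ℝ, -(1 / (Units.torsionOrder L : ℝ)) * (((2 : ℕ) : ℝ) *
            ((Units.torsionOrder L : ℝ) * X)) = -2 * X := by
          intro X
          field_simp
          push_cast
          ring
        rw [h1, Finset.mul_sum]
        exact Finset.sum_congr rfl fun g _ => by split_ifs <;> simp
      rw [hreal, Complex.ofReal_sum]
      exact Finset.sum_congr rfl fun g _ => by split_ifs <;> simp
  · intro E _ _ _ _ x hx hE
    exact cond3 h hS hA hn0 E x hx hE

end CMS
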