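import Pool.Agent.Lib.CMS.AIrr

/-!
# Roots of unity in `K(ζ)`

* `root_unity`: let `η` have exact order `n` and `N = lcm n m`; `M` contains a primitive `N`-th
  root of unity `ξ` (a product of powers of `η` and `ζ`), and `φ(m) ∣ φ(N) ∣ [M : ℚ] = 3 φ(m)`. If
  `φ(N) = 3 φ(m)` then `M = ℚ(ξ)`, and `K` embeds in `ℚ(ξ)`, which contradicts `no_emb_cyc`. So
  `φ(N) = φ(m)`, `m ∣ N`, and `N = m`, or `m` is odd and `N = 2 m`.
* `S_root`: `S g (± ζ ^ k) = ± ζ ^ (k c) = (± ζ ^ k) ^ c` for odd `c`.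
* `odd_rep`: the representative of `g` in `{1, ..., m - 1}`, plus `m` if it is even (then `m` is
  odd).
-/

set_option autoImplicit false

open NumberField MPd9f52e

namespace CMS

variable {m : ℕ} {K M : Type} [Field K] [NumberField K] [Field M] [NumberField M] [Algebra K M]
  {ζ : M}

/-- a multiple `N` of `m` with `φ(N) = φ(m)` -/
private theorem ator_totient {m t : ℕ} (hm : 0 < m) (ht : 0 < t)
    (h : Nat.totient (m * t) = Nat.totient m) : t = 1 ∨ (t = 2 ∧ Odd m) := by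
  have hm' : 0 < Nat.totient m := Nat.totient_pos.2 hm
  have ht' : 0 < Nat.totient t := Nat.totient_pos.2 ht
  have h1 := Nat.totient_super_multiplicative m t
  rw [h] at h1
  have h2 : Nat.totient t ≤ 1 := by
    by_contra hcon
    rw [not_le] at hcon
    nlinarith
  have h3 : Nat.totient t = 1 := by omega
  rcases Nat.totient_eq_one_iff.1 h3 with h4 | h4
  · exact Or.inl h4
  · refine Or.inr ⟨h4, ?_⟩
    by_contra hodd
    rw [Nat.not_odd_iff_even] at hodd
    have h5 := Nat.totient_mul_of_prime_of_dvd Nat.prime_two hodd.two_dvd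
    rw [h4, mul_comm m 2, h5] at h
    omega

theorem root_unity (h : CycG m K M ζ) {η : M} {n : ℕ} (hn : 0 < n) (hη : η ^ n = 1) :
    ∃ k : ℕ, η = ζ ^ k ∨ η = - ζ ^ k := by
  have hm0 : 0 < m := lt_of_lt_of_le (by norm_num) h.three_le
  have : NeZero m := ⟨hm0.ne'⟩
  have hfin : IsOfFinOrder η := isOfFinOrder_iff_pow_eq_one.2 ⟨n, hn, hη⟩
  have ho : 0 < orderOf η := orderOf_pos_iff.2 hfin
  have hprim : IsPrimitiveRoot η (orderOf η) := IsPrimitiveRoot.orderOf η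
  -- a primitive root of order `N`
  obtain ⟨N, hN, hN0, hmN, hoN⟩ : ∃ N : ℕ, (∃ ξ : M, IsPrimitiveRoot ξ N) ∧ 0 < N ∧ m ∣ N ∧
      orderOf η ∣ N :=
    ⟨Nat.lcm (orderOf η) m, ⟨_, hprim.pow_mul_pow_lcm h.prim ho.ne' hm0.ne'⟩,
      Nat.lcm_pos ho hm0, Nat.dvd_lcm_right _ _, Nat.dvd_lcm_left _ _⟩
  obtain ⟨ξ, hξ⟩ := hN
  -- the degree of `ℚ(ξ)`
  have hint : IsIntegral ℚ ξ := Algebra.IsIntegral.isIntegral ξ
  have hdeg : Module.finrank ℚ (IntermediateField.adjoin ℚ {ξ}) = Nat.totient N := by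
    rw [IntermediateField.adjoin.finrank hint, ← Polynomial.cyclotomic_eq_minpoly_rat hξ hN0,
      Polynomial.natDegree_cyclotomic]
  have hmul := Module.finrank_mul_finrank ℚ (IntermediateField.adjoin ℚ {ξ}) M
  rw [hdeg, cyc_finrank h] at hmul
  obtain ⟨t, ht⟩ := hmN
  have hφ : Nat.totient m ∣ Nat.totient N := Nat.totient_dvd_of_dvd ⟨t, ht⟩
  obtain ⟨s, hs⟩ := hφ
  have hφm : 0 < Nat.totient m := Nat.totient_pos.2 hm0
  set F := Module.finrank (IntermediateField.adjoin ℚ {ξ}) M with hF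
  have hsF : s * F = 3 := by
    have h1 : Nat.totient m * (s * F) = Nat.totient m * 3 := by
      rw [← mul_assoc, ← hs, hmul]
      ring
    exact Nat.eq_of_mul_eq_mul_left hφm h1
  have hs3 : s ∣ 3 := ⟨F, hsF.symm⟩
  have hs' : s = 1 ∨ s = 3 := (Nat.dvd_prime Nat.prime_three).1 hs3
  have hs1 : s = 1 := by
    rcases hs' with h1 | h1
    · exact h1
    · exfalso
      have hF1 : F = 1 := by
        rw [h1] at hsF
        omega
      have htop : IntermediateField.adjoin ℚ {ξ} = (⊤ : IntermediateField ℚ M) :=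
        IntermediateField.finrank_eq_one_iff_eq_top.1 hF1
      exact no_emb_cyc h.finrank h.cpx hN0 hξ htop (algebraMap K M)
  have htot : Nat.totient (m * t) = Nat.totient m := by
    rw [← ht, hs, hs1, mul_one]
  have ht0 : 0 < t := by
    rcases Nat.eq_zero_or_pos t with h0 | h0
    · rw [h0, mul_zero] at ht
      omega
    · exact h0
  have hηN : η ^ N = 1 := by
    obtain ⟨a, ha⟩ := hoN
    rw [ha, pow_mul, pow_orderOf_eq_one, one_pow]
  rcases ator_totient hm0 ht0 htot with h1 | ⟨h2, hodd⟩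
  · rw [ht, h1, mul_one] at hηN
    obtain ⟨i, -, hi⟩ := h.prim.eq_pow_of_pow_eq_one hηN
    exact ⟨i, Or.inl hi.symm⟩
  · rw [ht, h2, pow_mul] at hηN
    rcases eq_or_eq_neg_of_sq_eq_sq _ _ (hηN.trans (one_pow 2).symm) with h3 | h3
    · obtain ⟨i, -, hi⟩ := h.prim.eq_pow_of_pow_eq_one h3
      exact ⟨i, Or.inl hi.symm⟩
    · have h4 : (-η) ^ m = 1 := by
        rw [hodd.neg_pow, h3, neg_neg]
      obtain ⟨i, -, hi⟩ := h.prim.eq_pow_of_pow_eq_one h4
      exact ⟨i, Or.inr (by rw [hi, neg_neg])⟩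

theorem odd_rep (hm : 3 ≤ m) (g : (ZMod m)ˣ) :
    ∃ c : ℕ, Odd c ∧ Nat.Coprime c m ∧ (g : ZMod m) = (c : ZMod m) := by
  have : NeZero m := ⟨by omega⟩
  have hcop : Nat.Coprime (g : ZMod m).val m := ZMod.val_coe_unit_coprime g
  have hval : (((g : ZMod m).val : ℕ) : ZMod m) = (g : ZMod m) := ZMod.natCast_zmod_val _
  rcases Nat.even_or_odd (g : ZMod m).val with he | ho
  · have hmodd : Odd m := by
      by_contra hcon
      rw [Nat.not_odd_iff_even] at hcon
      have h2 : 2 ∣ Nat.gcd (g : ZMod m).val m := Nat.dvd_gcd he.two_dvd hcon.two_dvd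
      rw [hcop] at h2
      omega
    refine ⟨(g : ZMod m).val + m, he.add_odd hmodd, ?_, ?_⟩
    · exact (Nat.coprime_add_self_left).2 hcop
    · rw [Nat.cast_add, ZMod.natCast_self, add_zero, hval]
  · exact ⟨_, ho, hcop, hval.symm⟩

theorem S_root (h : CycG m K M ζ) {S : (ZMod m)ˣ ≃* (M ≃ₐ[K] M)} (hS : IsCycEquiv m K M ζ S)
    {g : (ZMod m)ˣ} {c : ℕ} (hc : Odd c) (hg : (g : ZMod m) = (c : ZMod m)) {η : M} {n : ℕ}
    (hn : 0 < n) (hη : η ^ n = 1) : S g η = η ^ c := by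
  have hm0 : 0 < m := lt_of_lt_of_le (by norm_num) h.three_le
  have : NeZero m := ⟨hm0.ne'⟩
  have hζ : S g ζ = ζ ^ c := by
    rw [hS g]
    have h1 : (((g : ZMod m).val : ℕ) : ZMod m) = (c : ZMod m) := by
      rw [ZMod.natCast_zmod_val, hg]
    have h2 : (g : ZMod m).val ≡ c [MOD m] := (ZMod.natCast_eq_natCast_iff _ _ _).1 h1
    exact pow_eq_pow_of_modEq h2 h.prim.pow_eq_one
  obtain ⟨k, hk | hk⟩ := root_unity h hn hη
  · rw [hk, map_pow, hζ, ← pow_mul, ← pow_mul, mul_comm]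
  · rw [hk, map_neg, map_pow, hζ, hc.neg_pow, ← pow_mul, ← pow_mul, mul_comm]

end CMS
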