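import Pool.Agent.Lib.CMS.Defs

/-!
# Cj: complex conjugation on an imaginary quadratic field and its ideals

`cjk hk` is the automorphism of `k` different from the identity, `e (cjk hk x) = conj (e x)` for every embedding `e`;
`cjI hk a` is the conjugate ideal.
-/

set_option autoImplicit false

namespace CMS

open Complex NumberField

variable {k : Type} [Field k] [NumberField k]

/-- a quadratic field has an automorphism that induces complex conjugation -/
theorem exists_cjk (hk : IQ k) : ∃ c : k ≃+* k, ∀ (e : k →+* ℂ) (x : k), e (c x) = (starRingEnd ℂ) (e x) := by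
  classical
  have hq : Algebra.IsQuadraticExtension ℚ k := ⟨hk.two⟩
  have hgal : IsGalois ℚ k := inferInstance
  have hcard : Nat.card (k ≃ₐ[ℚ] k) = 2 := by
    rw [IsGalois.card_aut_eq_finrank, hk.two]
  obtain ⟨c, hc⟩ : ∃ c : k ≃ₐ[ℚ] k, c ≠ 1 := by
    by_contra hcon
    push Not at hcon
    have : Nat.card (k ≃ₐ[ℚ] k) = 1 := by
      rw [Nat.card_eq_one_iff_unique]
      exact ⟨⟨fun a b => by rw [hcon a, hcon b]⟩, ⟨1⟩⟩
    omega
  refine ⟨c.toRingEquiv, fun e x => ?_⟩
  have h2 : Fintype.card (k →+* ℂ) = 2 := by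
    rw [NumberField.Embeddings.card, hk.two]
  have hce : e.comp (c : k →+* k) ≠ e := by
    intro h
    apply hc
    ext y
    exact e.injective (RingHom.congr_fun h y)
  have hconj : ComplexEmbedding.conjugate e ≠ e := by
    intro h
    have h3 := hk.cpx (InfinitePlace.mk e)
    rw [InfinitePlace.isComplex_mk_iff] at h3
    exact h3 h
  have key : ComplexEmbedding.conjugate e = e.comp (c : k →+* k) := by
    by_contra hne
    have h3 : ({e, e.comp (c : k →+* k), ComplexEmbedding.conjugate e} : Finset (k →+* ℂ)).card = 3 := by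
      rw [Finset.card_eq_three]
      exact ⟨_, _, _, hce.symm, hconj.symm, fun h => hne h.symm, rfl⟩
    have h4 := Finset.card_le_univ ({e, e.comp (c : k →+* k), ComplexEmbedding.conjugate e} : Finset (k →+* ℂ))
    rw [h3, h2] at h4
    omega
  exact (RingHom.congr_fun key x).symm

/-- the nontrivial automorphism -/
noncomputable def cjk (hk : IQ k) : k ≃+* k := (exists_cjk hk).choose

theorem cjk_spec (hk : IQ k) (e : k →+* ℂ) (x : k) : e (cjk hk x) = (starRingEnd ℂ) (e x) :=
  (exists_cjk hk).choose_spec e x

/-- the conjugate ideal -/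
noncomputable def cjI (hk : IQ k) (a : Ideal (𝓞 k)) : Ideal (𝓞 k) := a.map (RingOfIntegers.mapRingEquiv (cjk hk))

end CMS
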