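import Mathlib
import Pool.Agent.Lib.CMS.Cj

/-!
# CBas: ideals prime to f, ray classes, ray characters: elementary properties  (about 260 lines)

PROOF. `Cop f a`: `a ≠ ⊥` and `a + (f) = (1)`.  `IsCoprime.mul_left_iff`.  `cop_prime`: a prime ideal `P` containing `p`: if `p ∣ f` then `f ∈ P`; if not, `1 = x p + y f`.
`Req f a b`: `(x) a = (y) b`, `x ≡ y ≡ 1 mod f`.  Transitivity, products: multiply (a product of elements `≡ 1` is `≡ 1`; products of nonzero elements are nonzero).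
`req_cop`: `(x)` is prime to `f` for `x ≡ 1 mod f` (`x - f d = 1`), so `Cop f a ↔ Cop f ((x) a)` by `cop_mul`.  `ray_req`: `φ((x) a) = φ((x)) + φ(a) = φ(a)`.
`ray_top`: `⊤ = (1)`.  `req_cancel`: nonzero ideals can be cancelled (`mul_left_cancel₀`).
-/

set_option autoImplicit false

namespace CMS

open Complex NumberField MPd9f52e

variable {k : Type} [Field k] [NumberField k]

private theorem cbas_ne {a b : Ideal (𝓞 k)} : a * b ≠ ⊥ ↔ a ≠ ⊥ ∧ b ≠ ⊥ := by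
  rw [ne_eq, Ideal.mul_eq_bot, not_or]

private theorem cbas_cast {f f' : ℕ} (h : f ∣ f') : (f : 𝓞 k) ∣ (f' : 𝓞 k) := by
  obtain ⟨g, rfl⟩ := h
  exact ⟨(g : 𝓞 k), by push_cast; ring⟩

private theorem cbas_one {f x y : 𝓞 k} (hx : f ∣ x - 1) (hy : f ∣ y - 1) : f ∣ x * y - 1 := by
  have e : x * y - 1 = x * (y - 1) + (x - 1) := by ring
  rw [e]
  exact dvd_add (hy.mul_left x) hx

theorem cop_mul {f : ℕ} {a b : Ideal (𝓞 k)} : Cop f (a * b) ↔ Cop f a ∧ Cop f b := by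
  unfold Cop
  rw [cbas_ne, IsCoprime.mul_left_iff]
  tauto

theorem cop_top (f : ℕ) : Cop f (⊤ : Ideal (𝓞 k)) := by
  refine ⟨top_ne_bot, ?_⟩
  rw [← Ideal.one_eq_top]
  exact isCoprime_one_left

theorem cop_dvd {f f' : ℕ} (h : f ∣ f') {a : Ideal (𝓞 k)} (ha : Cop f' a) : Cop f a := by
  obtain ⟨g, rfl⟩ := h
  refine ⟨ha.1, ?_⟩
  have h1 := ha.2
  rw [Nat.cast_mul, ← Ideal.span_singleton_mul_span_singleton] at h1
  exact (IsCoprime.mul_right_iff.1 h1).1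

/-- for a prime ideal above the prime number `p` -/
theorem cop_prime {f p : ℕ} (hp : p.Prime) {P : Ideal (𝓞 k)} (hP : P.IsPrime) (hpP : (p : 𝓞 k) ∈ P)
    (h0 : P ≠ ⊥) : Cop f P ↔ ¬ p ∣ f := by
  constructor
  · rintro ⟨-, h⟩ hd
    apply hP.ne_top
    rw [Ideal.isCoprime_iff_sup_eq] at h
    have h1 : Ideal.span {(f : 𝓞 k)} ≤ P := by
      rw [Ideal.span_singleton_le_iff_mem]
      obtain ⟨c, hc⟩ := cbas_cast (k := k) hd
      rw [hc]
      exact P.mul_mem_right c hpP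
    rwa [sup_eq_left.2 h1] at h
  · intro hd
    refine ⟨h0, ?_⟩
    rw [Ideal.isCoprime_iff_sup_eq, Ideal.eq_top_iff_one]
    have h1 : IsCoprime (p : ℤ) (f : ℤ) :=
      Nat.isCoprime_iff_coprime.2 ((Nat.Prime.coprime_iff_not_dvd hp).2 hd)
    obtain ⟨x, y, hxy⟩ := h1
    have h2 : (x : 𝓞 k) * (p : 𝓞 k) + (y : 𝓞 k) * (f : 𝓞 k) = 1 := by
      have h3 := congrArg (fun z : ℤ => (z : 𝓞 k)) hxy
      push_cast at h3
      exact h3
    rw [← h2]
    exact Submodule.add_mem_sup (P.mul_mem_left _ hpP)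
      (Ideal.mul_mem_left _ _ (Ideal.mem_span_singleton_self _))

theorem cop_span {f : ℕ} {x : 𝓞 k} (hx : x ≠ 0) (h : (f : 𝓞 k) ∣ x - 1) : Cop f (Ideal.span {x}) := by
  refine ⟨fun h1 => hx (Ideal.span_singleton_eq_bot.1 h1), ?_⟩
  rw [Ideal.isCoprime_span_singleton_iff]
  obtain ⟨d, hd⟩ := h
  exact ⟨1, -d, by linear_combination hd⟩

theorem req_refl (f : ℕ) (a : Ideal (𝓞 k)) : Req f a a :=
  ⟨1, 1, one_ne_zero, one_ne_zero, by simp, by simp, rfl⟩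

theorem req_symm {f : ℕ} {a b : Ideal (𝓞 k)} (h : Req f a b) : Req f b a := by
  obtain ⟨x, y, hx, hy, hx1, hy1, h⟩ := h
  exact ⟨y, x, hy, hx, hy1, hx1, h.symm⟩

theorem req_trans {f : ℕ} {a b c : Ideal (𝓞 k)} (h : Req f a b) (h' : Req f b c) : Req f a c := by
  obtain ⟨x, y, hx, hy, hx1, hy1, h⟩ := h
  obtain ⟨x', y', hx', hy', hx1', hy1', h'⟩ := h'
  refine ⟨x * x', y * y', mul_ne_zero hx hx', mul_ne_zero hy hy', cbas_one hx1 hx1',
    cbas_one hy1 hy1', ?_⟩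
  rw [← Ideal.span_singleton_mul_span_singleton, ← Ideal.span_singleton_mul_span_singleton]
  calc Ideal.span {x} * Ideal.span {x'} * a = Ideal.span {x'} * (Ideal.span {x} * a) := by ring
    _ = Ideal.span {y} * (Ideal.span {x'} * b) := by rw [h]; ring
    _ = Ideal.span {y} * Ideal.span {y'} * c := by rw [h']; ring

theorem req_mul {f : ℕ} {a b a' b' : Ideal (𝓞 k)} (h : Req f a b) (h' : Req f a' b') :
    Req f (a * a') (b * b') := by
  obtain ⟨x, y, hx, hy, hx1, hy1, h⟩ := h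
  obtain ⟨x', y', hx', hy', hx1', hy1', h'⟩ := h'
  refine ⟨x * x', y * y', mul_ne_zero hx hx', mul_ne_zero hy hy', cbas_one hx1 hx1',
    cbas_one hy1 hy1', ?_⟩
  rw [← Ideal.span_singleton_mul_span_singleton, ← Ideal.span_singleton_mul_span_singleton]
  calc Ideal.span {x} * Ideal.span {x'} * (a * a') =
        (Ideal.span {x} * a) * (Ideal.span {x'} * a') := by ring
    _ = (Ideal.span {y} * b) * (Ideal.span {y'} * b') := by rw [h, h']
    _ = Ideal.span {y} * Ideal.span {y'} * (b * b') := by ring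

theorem req_cancel {f : ℕ} {u a b : Ideal (𝓞 k)} (hu : u ≠ ⊥) (h : Req f (u * a) (u * b)) : Req f a b := by
  obtain ⟨x, y, hx, hy, hx1, hy1, h⟩ := h
  refine ⟨x, y, hx, hy, hx1, hy1, ?_⟩
  have hu' : u ≠ 0 := hu
  apply mul_left_cancel₀ hu'
  calc u * (Ideal.span {x} * a) = Ideal.span {x} * (u * a) := by ring
    _ = Ideal.span {y} * (u * b) := h
    _ = u * (Ideal.span {y} * b) := by ring

theorem req_dvd {f f' : ℕ} (h : f ∣ f') {a b : Ideal (𝓞 k)} (hab : Req f' a b) : Req f a b := by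
  obtain ⟨x, y, hx, hy, hx1, hy1, h1⟩ := hab
  exact ⟨x, y, hx, hy, (cbas_cast h).trans hx1, (cbas_cast h).trans hy1, h1⟩

theorem req_cop {f : ℕ} {a b : Ideal (𝓞 k)} (h : Req f a b) : Cop f a ↔ Cop f b := by
  obtain ⟨x, y, hx, hy, hx1, hy1, h⟩ := h
  have h1 : Cop f (Ideal.span {x} * a) ↔ Cop f a := by
    rw [cop_mul]
    exact ⟨fun h => h.2, fun h => ⟨cop_span hx hx1, h⟩⟩
  have h2 : Cop f (Ideal.span {y} * b) ↔ Cop f b := by
    rw [cop_mul]
    exact ⟨fun h => h.2, fun h => ⟨cop_span hy hy1, h⟩⟩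
  rw [← h1, ← h2, h]

theorem ray_req {f : ℕ} {φ : Ideal (𝓞 k) → ZMod 3} (hφ : RayChar f φ) {a b : Ideal (𝓞 k)} (ha : Cop f a)
    (h : Req f a b) : φ a = φ b := by
  have hb := (req_cop h).1 ha
  obtain ⟨x, y, hx, hy, hx1, hy1, h⟩ := h
  have h1 := hφ.mul _ _ (cop_span hx hx1) ha
  have h2 := hφ.mul _ _ (cop_span hy hy1) hb
  rw [hφ.prin x hx hx1, zero_add] at h1
  rw [hφ.prin y hy hy1, zero_add] at h2
  rw [← h1, ← h2, h]

theorem ray_dvd {f f' : ℕ} (h : f ∣ f') {φ : Ideal (𝓞 k) → ZMod 3} (hφ : RayChar f φ) : RayChar f' φ :=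
  ⟨fun a b ha hb => hφ.mul a b (cop_dvd h ha) (cop_dvd h hb),
    fun x hx hx1 => hφ.prin x hx ((cbas_cast h).trans hx1)⟩

theorem ray_top {f : ℕ} {φ : Ideal (𝓞 k) → ZMod 3} (hφ : RayChar f φ) : φ ⊤ = 0 := by
  have h1 := hφ.prin 1 one_ne_zero (by simp)
  rwa [Ideal.span_singleton_one] at h1

end CMS
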