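import Mathlib
import Pool.Agent.Lib.MP_d9f52e_nt.Defs

/-!
# Definitions for the project STARK, version A (MP_d9f52e_nt, all complex cubic fields)

See the paper `MP_d9f52e_paperA.md` in the team store.  Lattices of `ℂ` are `L : Submodule ℤ ℂ` with `IsLat L`;
`wp, wq, g2, g3` are Mathlib's Weierstrass functions (equal by definition to `PeriodPair.weierstrassP` etc. if
`L = P.lattice`).  `k` is an imaginary quadratic field, `e : k →+* ℂ`, `Lc e c` the lattice `c⁻¹`.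
-/

set_option autoImplicit false

namespace CMS

open Complex NumberField MPd9f52e

/-! ## Lattices -/

/-- lattices of `ℂ` -/
def IsLat (L : Submodule ℤ ℂ) : Prop := ∃ P : PeriodPair, P.lattice = L

/-- the Weierstrass function of `L` -/
noncomputable def wp (L : Submodule ℤ ℂ) (z : ℂ) : ℂ := ∑' l : L, (1 / (z - l) ^ 2 - 1 / (l : ℂ) ^ 2)

/-- the derivative of the Weierstrass function of `L` -/
noncomputable def wq (L : Submodule ℤ ℂ) (z : ℂ) : ℂ := - ∑' l : L, 2 / (z - l) ^ 3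

/-- `g₂(L)` -/
noncomputable def g2 (L : Submodule ℤ ℂ) : ℂ := 60 * ∑' l : L, ((l : ℂ) ^ 4)⁻¹

/-- `g₃(L)` -/
noncomputable def g3 (L : Submodule ℤ ℂ) : ℂ := 140 * ∑' l : L, ((l : ℂ) ^ 6)⁻¹

lemma wp_lattice (P : PeriodPair) : wp P.lattice = P.weierstrassP := rfl
lemma wq_lattice (P : PeriodPair) : wq P.lattice = P.derivWeierstrassP := rfl
lemma g2_lattice (P : PeriodPair) : g2 P.lattice = P.g₂ := rfl
lemma g3_lattice (P : PeriodPair) : g3 P.lattice = P.g₃ := rfl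

/-- the `j`-invariant -/
noncomputable def jj (L : Submodule ℤ ℂ) : ℂ := 1728 * g2 L ^ 3 / (g2 L ^ 3 - 27 * g3 L ^ 2)

/-- the lattice `c L` -/
noncomputable def sc (c : ℂ) (L : Submodule ℤ ℂ) : Submodule ℤ ℂ := L.map (LinearMap.mulLeft ℤ c)

lemma mem_sc {c : ℂ} {L : Submodule ℤ ℂ} {z : ℂ} : z ∈ sc c L ↔ ∃ l ∈ L, c * l = z := by
  simp [sc, Submodule.mem_map]

/-- the complex conjugate lattice -/
noncomputable def cjL (L : Submodule ℤ ℂ) : Submodule ℤ ℂ :=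
  L.map (starRingEnd ℂ : ℂ →+* ℂ).toAddMonoidHom.toIntLinearMap

lemma mem_cjL {L : Submodule ℤ ℂ} {z : ℂ} : z ∈ cjL L ↔ (starRingEnd ℂ) z ∈ L := by
  constructor
  · rintro ⟨l, hl, rfl⟩
    simpa using hl
  · intro h
    exact ⟨(starRingEnd ℂ) z, h, by simp⟩

/-- `S` is a system of representatives of `L' / L` containing `0` -/
def IsReps (L L' : Submodule ℤ ℂ) (S : Finset ℂ) : Prop :=
  (0 : ℂ) ∈ S ∧ (∀ s ∈ S, s ∈ L') ∧ ∀ x ∈ L', ∃! s, s ∈ S ∧ x - s ∈ L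

open Classical in
/-- the set of the values `wp L u`, `u ∈ L'` off `L` -/
noncomputable def XV (L L' : Submodule ℤ ℂ) : Finset ℂ :=
  if h : {x : ℂ | ∃ u ∈ L', u ∉ L ∧ wp L u = x}.Finite then h.toFinset else ∅

/-- the duplication function: `wp L (2 z) = dup L (wp L z)` -/
noncomputable def dup (L : Submodule ℤ ℂ) (x : ℂ) : ℂ :=
  ((x ^ 2 + g2 L / 4) ^ 2 + 2 * g3 L * x) / (4 * x ^ 3 - g2 L * x - g3 L)

/-- the elliptic numbers `R(z; L, L')` -/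
noncomputable def RQ (L L' : Submodule ℤ ℂ) (z : ℂ) : ℂ := ∏ x ∈ XV L L', (x - dup L x) / (wp L z - x)

/-! ## The lattice zeta function -/

/-- the half plane `Re s > a` -/
def HP (a : ℝ) : Set ℂ := {s : ℂ | a < s.re}

/-- the sum of the remainders `remT` over the nonzero elements of `L` -/
noncomputable def Rem (L : Submodule ℤ ℂ) (z s : ℂ) : ℂ := ∑' l : L, if (l : ℂ) = 0 then 0 else remT z s l

/-- analytic continuations of the lattice sums `E(s) = ∑ |l|^{-2s}`, `F(s) = s² E(s+1)`,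
`G(s) = ∑ l^{-2} |l|^{-2s}`, `G'(s) = ∑ conj(l)^{-2} |l|^{-2s}` (sums over `l ≠ 0` in `L`) -/
structure Ctn (L : Submodule ℤ ℂ) where
  E : ℂ → ℂ
  F : ℂ → ℂ
  G : ℂ → ℂ
  G' : ℂ → ℂ
  r0 : ℝ
  E_diff : DifferentiableOn ℂ E Dom
  E_sum : ∀ s : ℂ, 1 < s.re →
    HasSum (fun l : L => if (l : ℂ) = 0 then (0 : ℂ) else (‖(l : ℂ)‖ : ℂ) ^ (-2 * s)) (E s)
  F_diff : DifferentiableOn ℂ F (HP (-1 / 2))
  F_eq : ∀ s : ℂ, 1 < s.re → F s = s ^ 2 * E (s + 1)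
  F_zero : F 0 = 0
  F_deriv : HasDerivAt F (r0 : ℂ) 0
  G_diff : DifferentiableOn ℂ G (HP (-1 / 2))
  G_sum : ∀ s : ℂ, 1 < s.re →
    HasSum (fun l : L => if (l : ℂ) = 0 then (0 : ℂ) else ((l : ℂ) ^ 2)⁻¹ * (‖(l : ℂ)‖ : ℂ) ^ (-2 * s)) (G s)
  G'_diff : DifferentiableOn ℂ G' (HP (-1 / 2))
  G'_sum : ∀ s : ℂ, 1 < s.re →
    HasSum (fun l : L => if (l : ℂ) = 0 then (0 : ℂ) else
      ((starRingEnd ℂ) (l : ℂ) ^ 2)⁻¹ * (‖(l : ℂ)‖ : ℂ) ^ (-2 * s)) (G' s)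
  G'_zero : G' 0 = (starRingEnd ℂ) (G 0)

/-- the continued function `H(s, z)` built from the data `D` -/
noncomputable def Ctn.H {L : Submodule ℤ ℂ} (D : Ctn L) (z s : ℂ) : ℂ :=
  (‖z‖ : ℂ) ^ (-2 * s) + D.E s + (‖z‖ : ℂ) ^ 2 * D.F s +
    s * (s + 1) / 2 * (z ^ 2 * D.G s + (starRingEnd ℂ) z ^ 2 * D.G' s) + Rem L z s

open Classical in
/-- the lattice zeta function `H(s, z) = ∑_{l ∈ L} |z + l|^{-2s}` (continued to `Re s > -1/2`) -/
noncomputable def Hc (L : Submodule ℤ ℂ) (z s : ℂ) : ℂ :=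
  if h : Nonempty (Ctn L) then h.some.H z s else 0

open Classical in
/-- `phi(z) = exp(-H'(0,z)/2)` off the lattice, `0` on the lattice -/
noncomputable def phi (L : Submodule ℤ ℂ) (z : ℂ) : ℝ :=
  if z ∈ L then 0 else Real.exp (-(deriv (Hc L z) 0).re / 2)

/-- the factor of the sigma product -/
noncomputable def sigF (z l : ℂ) : ℂ := (1 + z / l) * Complex.exp (-(z / l) + z ^ 2 / (2 * l ^ 2))

/-- the Weierstrass sigma function of `L` -/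
noncomputable def sigma (L : Submodule ℤ ℂ) (z : ℂ) : ℂ := z * ∏' l : L, if (l : ℂ) = 0 then 1 else sigF z l

/-! ## Automorphisms of `ℂ` and lattices -/

/-- `L'` is the transform of `L` under `t` -/
def Tw (t : ℂ ≃+* ℂ) (L L' : Submodule ℤ ℂ) : Prop := IsLat L' ∧ g2 L' = t (g2 L) ∧ g3 L' = t (g3 L)

/-- the point `z'` modulo `L'` is the transform under `t` of the point `z` modulo `L` -/
def TR (t : ℂ ≃+* ℂ) (L L' : Submodule ℤ ℂ) (z z' : ℂ) : Prop :=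
  (z ∈ L ∧ z' ∈ L') ∨ (z ∉ L ∧ z' ∉ L' ∧ wp L' z' = t (wp L z) ∧ wq L' z' = t (wq L z))

/-! ## Valuations -/

section val

variable {Γ : Type*} [LinearOrderedCommGroupWithZero Γ]

/-- `X` is a coordinate of a Weierstrass model over the valuation ring of `v` of the curve `ℂ / L` -/
structure Crd (v : Valuation ℂ Γ) (L : Submodule ℤ ℂ) (X : ℂ → ℂ) (b2 b4 b6 b8 : ℂ) : Prop where
  hb2 : v b2 ≤ 1
  hb4 : v b4 ≤ 1
  hb6 : v b6 ≤ 1
  hb8 : v b8 ≤ 1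
  per : ∀ z l : ℂ, l ∈ L → X (z + l) = X z
  even : ∀ z, X (-z) = X z
  sum : ∀ P Q : ℂ, P ∉ L → Q ∉ L → P + Q ∉ L → P - Q ∉ L →
    (X (P + Q) + X (P - Q)) * (X P - X Q) ^ 2 = 2 * X P * X Q * (X P + X Q) + b2 * (X P * X Q) + b4 * (X P + X Q) + b6
  prod : ∀ P Q : ℂ, P ∉ L → Q ∉ L → P + Q ∉ L → P - Q ∉ L →
    X (P + Q) * X (P - Q) * (X P - X Q) ^ 2 = (X P * X Q) ^ 2 - b4 * (X P * X Q) - b6 * (X P + X Q) - b8
  dup : ∀ P : ℂ, P ∉ L → P + P ∉ L →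
    X (P + P) * (4 * X P ^ 3 + b2 * X P ^ 2 + 2 * b4 * X P + b6) = X P ^ 4 - b4 * X P ^ 2 - 2 * b6 * X P - b8
  dup0 : ∀ P : ℂ, P ∉ L → P + P ∈ L → 4 * X P ^ 3 + b2 * X P ^ 2 + 2 * b4 * X P + b6 = 0

/-- good reduction -/
def GR (v : Valuation ℂ Γ) (b2 b4 b6 b8 : ℂ) : Prop :=
  ∀ c : ℂ, v c ≤ 1 → v (4 * c ^ 3 + b2 * c ^ 2 + 2 * b4 * c + b6) < 1 →
    v (c ^ 4 - b4 * c ^ 2 - 2 * b6 * c - b8) < 1 → False

/-- good points: some multiple is a point of order prime to the residue characteristic, not zero -/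
def Good (v : Valuation ℂ Γ) (L : Submodule ℤ ℂ) (P : ℂ) : Prop :=
  ∃ n b : ℕ, v (b : ℂ) = 1 ∧ (n : ℂ) * P ∉ L ∧ (b : ℂ) * ((n : ℂ) * P) ∈ L

/-- the kernel of reduction -/
def E1 (v : Valuation ℂ Γ) (L : Submodule ℤ ℂ) (X : ℂ → ℂ) (P : ℂ) : Prop := P ∈ L ∨ 1 < v (X P)

/-- points of finite order prime to the residue characteristic -/
def TP (v : Valuation ℂ Γ) (L : Submodule ℤ ℂ) (P : ℂ) : Prop := ∃ n : ℕ, v (n : ℂ) = 1 ∧ (n : ℂ) * P ∈ L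

end val

/-! ## Ideals of an imaginary quadratic field -/

/-- imaginary quadratic fields -/
structure IQ (k : Type) [Field k] [NumberField k] : Prop where
  two : Module.finrank ℚ k = 2
  cpx : ∀ v : InfinitePlace k, v.IsComplex

section ideals

variable {k : Type} [Field k] [NumberField k]

/-- nonzero ideals prime to `f` -/
def Cop (f : ℕ) (a : Ideal (𝓞 k)) : Prop := a ≠ ⊥ ∧ IsCoprime a (Ideal.span {(f : 𝓞 k)})

/-- equality of ray classes modulo `f` -/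
def Req (f : ℕ) (a b : Ideal (𝓞 k)) : Prop := ∃ x y : 𝓞 k, x ≠ 0 ∧ y ≠ 0 ∧ (f : 𝓞 k) ∣ x - 1 ∧ (f : 𝓞 k) ∣ y - 1 ∧
  Ideal.span {x} * a = Ideal.span {y} * b

/-- cubic ray class characters modulo `f` (additive, with values in `ℤ/3`) -/
structure RayChar (f : ℕ) (φ : Ideal (𝓞 k) → ZMod 3) : Prop where
  mul : ∀ a b : Ideal (𝓞 k), Cop f a → Cop f b → φ (a * b) = φ a + φ b
  prin : ∀ x : 𝓞 k, x ≠ 0 → (f : 𝓞 k) ∣ x - 1 → φ (Ideal.span {x}) = 0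

/-- `S` is a system of representatives of the ray classes modulo `f` -/
def IsSys (f : ℕ) (S : Finset (Ideal (𝓞 k))) : Prop :=
  (∀ a ∈ S, Cop f a) ∧ (∀ a ∈ S, ∀ b ∈ S, Req f a b → a = b) ∧ ∀ a : Ideal (𝓞 k), Cop f a → ∃ b ∈ S, Req f a b

variable (k) in
open Classical in
/-- a system of representatives of the ray classes modulo `f` -/
noncomputable def Sys (f : ℕ) : Finset (Ideal (𝓞 k)) := if h : ∃ S, IsSys (k := k) f S then h.choose else ∅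

/-- the lattice `c⁻¹` -/
noncomputable def Lc (e : k →+* ℂ) (c : Ideal (𝓞 k)) : Submodule ℤ ℂ where
  carrier := {z | ∀ x ∈ c, ∃ y : 𝓞 k, z * e (x : k) = e (y : k)}
  add_mem' := by
    intro a b ha hb x hx
    obtain ⟨y, hy⟩ := ha x hx
    obtain ⟨y', hy'⟩ := hb x hx
    exact ⟨y + y', by rw [add_mul, hy, hy']; simp⟩
  zero_mem' := fun x _ => ⟨0, by simp⟩
  smul_mem' := by
    intro n a ha x hx
    obtain ⟨y, hy⟩ := ha x hx
    refine ⟨n * y, ?_⟩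
    rw [zsmul_eq_mul, mul_assoc, hy]
    simp

/-- the automorphism `t` (trivial on `k`) acts on the `f`-torsion by the ideal `u` and the factor `γ` -/
structure Act (e : k →+* ℂ) (t : ℂ ≃+* ℂ) (f : ℕ) (γ : ℂ) (u : Ideal (𝓞 k)) : Prop where
  gne : γ ≠ 0
  cop : Cop f u
  ag2 : ∀ c : Ideal (𝓞 k), c ≠ ⊥ → t (g2 (Lc e c)) = g2 (Lc e (u * c)) / γ ^ 4
  ag3 : ∀ c : Ideal (𝓞 k), c ≠ ⊥ → t (g3 (Lc e c)) = g3 (Lc e (u * c)) / γ ^ 6
  awp : ∀ c : Ideal (𝓞 k), c ≠ ⊥ → ∀ x : ℂ, (f : ℂ) * x ∈ Lc e c → x ∉ Lc e c →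
    t (wp (Lc e c) x) = wp (Lc e (u * c)) x / γ ^ 2
  awq : ∀ c : Ideal (𝓞 k), c ≠ ⊥ → ∀ x : ℂ, (f : ℂ) * x ∈ Lc e c → x ∉ Lc e c →
    t (wq (Lc e c) x) = wq (Lc e (u * c)) x / γ ^ 3

/-- the cross ratios of level `f` -/
noncomputable def crr (e : k →+* ℂ) (f : ℕ) (c : Ideal (𝓞 k)) (a : Fin 4 → 𝓞 k) : ℂ :=
  (wp (Lc e c) (e (a 0 : k) / f) - wp (Lc e c) (e (a 1 : k) / f)) /
    (wp (Lc e c) (e (a 2 : k) / f) - wp (Lc e c) (e (a 3 : k) / f))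

/-- admissible indices of cross ratios -/
def Adm (f : ℕ) (a : Fin 4 → 𝓞 k) : Prop := (∀ i, ¬ (f : 𝓞 k) ∣ a i) ∧ ¬ (f : 𝓞 k) ∣ a 2 - a 3 ∧ ¬ (f : 𝓞 k) ∣ a 2 + a 3

open Classical in
/-- `Phi(i,g)`: product of `phi(1/f; L_c)` over the classes with `φ(c) = i` and norm `≡ g mod m` -/
noncomputable def Phi (e : k →+* ℂ) (f m : ℕ) (φ : Ideal (𝓞 k) → ZMod 3) (i : ZMod 3) (g : ZMod m) : ℝ :=
  ∏ c ∈ (Sys k f).filter (fun c => φ c = i ∧ (Ideal.absNorm c : ZMod m) = g), phi (Lc e c) (1 / f)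

/-- `t(n)`: sum of `w^{φ(a)}` over the ideals `a` prime to `f` of norm `n` -/
noncomputable def tt (f : ℕ) (φ : Ideal (𝓞 k) → ZMod 3) (n : ℕ) : ℂ :=
  ∑ᶠ a ∈ {a : Ideal (𝓞 k) | Cop f a ∧ Ideal.absNorm a = n}, wj (φ a)

open Classical in
/-- `T_g(s) = ∑_{n ≡ g mod m} t(n) n^{-s}`, continued -/
noncomputable def TT (e : k →+* ℂ) (f m : ℕ) (φ : Ideal (𝓞 k) → ZMod 3) (g : ZMod m) (s : ℂ) : ℂ :=
  ∑ c ∈ (Sys k f).filter (fun c => (Ideal.absNorm c : ZMod m) = g),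
    wj (φ c) * (Ideal.absNorm c : ℂ) ^ (-s) * (f : ℂ) ^ (-2 * s) * Hc (Lc e c) (1 / f) s

open Classical in
/-- the partial zeta functions `∑_{(a,m)=1, N a ≡ g} N a^{-s}` of the cubic field, continued -/
noncomputable def ZZ (e : k →+* ℂ) (f m : ℕ) (φ : Ideal (𝓞 k) → ZMod 3) [NeZero m] (g : ZMod m) (s : ℂ) : ℂ :=
  ∑ b : (ZMod m)ˣ, zQ m (b : ZMod m) s * TT e f m φ (g * ((b⁻¹ : (ZMod m)ˣ) : ZMod m)) s

end ideals

/-! ## Primes in a cyclic cubic extension `E / k` -/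

section cyc

variable {k E : Type} [Field k] [NumberField k] [Field E] [NumberField E] [Algebra k E]

/-- more than one prime of `E` above `P` -/
def SplitsIn (E : Type) [Field E] [NumberField E] [Algebra k E] (P : Ideal (𝓞 k)) : Prop :=
  ∃ Q Q' : Ideal (𝓞 E), Q.IsPrime ∧ Q'.IsPrime ∧ Q ≠ Q' ∧ Q.comap (algebraMap (𝓞 k) (𝓞 E)) = P ∧
    Q'.comap (algebraMap (𝓞 k) (𝓞 E)) = P

/-- `P` is (totally) ramified in the cubic extension `E` -/
def RamIn (E : Type) [Field E] [NumberField E] [Algebra k E] (P : Ideal (𝓞 k)) : Prop :=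
  ∃ Q : Ideal (𝓞 E), Q.IsPrime ∧ P.map (algebraMap (𝓞 k) (𝓞 E)) = Q ^ 3

/-- cyclic cubic extensions -/
structure CycCubic (k E : Type) [Field k] [NumberField k] [Field E] [NumberField E] [Algebra k E] : Prop where
  gal : IsGalois k E
  three : Module.finrank k E = 3

/-- the conclusion of class field theory for `E / k`: `φ` is a nonzero cubic ray class character modulo `f`
that vanishes at the primes that split in `E`, and every prime number dividing `f` has a prime above it that ramifies in `E` -/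
structure CFT (k E : Type) [Field k] [NumberField k] [Field E] [NumberField E] [Algebra k E] (f : ℕ)
    (φ : Ideal (𝓞 k) → ZMod 3) : Prop where
  pos : f ≠ 0
  ray : RayChar f φ
  nonzero : ∃ a : Ideal (𝓞 k), Cop f a ∧ φ a ≠ 0
  split : ∀ P : Ideal (𝓞 k), P.IsPrime → Cop f P → SplitsIn E P → φ P = 0
  ram : ∀ p : ℕ, p.Prime → p ∣ f → ∃ P : Ideal (𝓞 k), P.IsPrime ∧ (p : 𝓞 k) ∈ P ∧ RamIn E P

end cyc

end CMS
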