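import Mathlib
import Pool.Agent.Lib.CMS.Defs

/-!
# LBas: lattices, representatives  (about 220 lines)

`isLat_sc` : the period pair `(c ω₁, c ω₂)`.  `isLat_cjL` : `(conj ω₁, conj ω₂)`.
`isLat_of_le` : `L ≤ L' ≤ n⁻¹ L`.  `n⁻¹ L` is the lattice of a period pair, so discrete; `L'` is discrete (subset of a discrete subgroup) and spans `ℂ` over `ℝ` (contains `L`): `IsZLattice ℝ L'`; `ZLattice.module_free`, `ZLattice.rank`: a `ℤ`-basis with two elements, `Basis.ofZLatticeBasis` gives a real basis, hence a period pair `P` with `P.lattice = L'`.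
`exists_mul_mem` : `L'` is finitely generated by `ω₁', ω₂'`; `L` contains two real independent vectors of `L'`, `L` has rank 2, so `L'/L` is torsion: e.g. write `ω₁ = a ω₁' + b ω₂'`, `ω₂ = c ω₁' + d ω₂'` with integers; `n = |ad - bc| ≠ 0` works (Cramer).
`exists_reps` : `L'/L` is finite by `exists_mul_mem` (quotient of `L'/nL'`, at most `n²` elements): among the elements `a ω₁' + b ω₂'`, `0 ≤ a, b < n`, choose one for each class, `0` for the class `0` (e.g. `Quotient.out` composed, replaced by `0` for the zero class; or induction: a maximal set of pairwise incongruent elements containing `0`).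
`reps_card` : the two systems are in bijection.  `card_mul_mem` : `S` is in bijection with the finite group `L'/L` (order `S.card`), the order kills the group.
-/

set_option autoImplicit false

namespace CMS

open Complex NumberField MPd9f52e

theorem mem_sc_iff {c : ℂ} (hc : c ≠ 0) {L : Submodule ℤ ℂ} {z : ℂ} : c * z ∈ sc c L ↔ z ∈ L := by
  rw [mem_sc]
  constructor
  · rintro ⟨l, hl, h⟩
    rwa [← mul_left_cancel₀ hc h]
  · intro h
    exact ⟨z, h, rfl⟩

theorem sc_one (L : Submodule ℤ ℂ) : sc 1 L = L := by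
  ext z
  rw [mem_sc]
  simp

theorem sc_sc (a b : ℂ) (L : Submodule ℤ ℂ) : sc a (sc b L) = sc (a * b) L := by
  ext z
  simp only [mem_sc]
  constructor
  · rintro ⟨x, ⟨y, hy, rfl⟩, rfl⟩
    exact ⟨y, hy, by ring⟩
  · rintro ⟨y, hy, rfl⟩
    exact ⟨b * y, ⟨y, hy, rfl⟩, by ring⟩

theorem sc_mono (c : ℂ) {L L' : Submodule ℤ ℂ} (h : L ≤ L') : sc c L ≤ sc c L' := Submodule.map_mono h

private theorem lb_isLat {L : Submodule ℤ ℂ} {a b : ℂ}
    (hab : ∀ s t : ℝ, (s : ℂ) * a + (t : ℂ) * b = 0 → s = 0 ∧ t = 0)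
    (h : ∀ z, z ∈ L ↔ ∃ m n : ℤ, (m : ℂ) * a + (n : ℂ) * b = z) : IsLat L := by
  refine ⟨⟨a, b, ?_⟩, ?_⟩
  · rw [LinearIndependent.pair_iff]
    intro s t hst
    exact hab s t (by simpa using hst)
  · ext z
    rw [PeriodPair.mem_lattice, h]

private theorem lb_get {L : Submodule ℤ ℂ} (hL : IsLat L) : ∃ a b : ℂ,
    (∀ s t : ℝ, (s : ℂ) * a + (t : ℂ) * b = 0 → s = 0 ∧ t = 0) ∧
    ∀ z, z ∈ L ↔ ∃ m n : ℤ, (m : ℂ) * a + (n : ℂ) * b = z := by
  obtain ⟨P, rfl⟩ := hL
  refine ⟨P.ω₁, P.ω₂, ?_, fun z => PeriodPair.mem_lattice⟩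
  intro s t hst
  exact LinearIndependent.pair_iff.1 P.indep s t (by simpa using hst)

private theorem lb_reps_eq {L L' : Submodule ℤ ℂ} {S : Finset ℂ} (hS : IsReps L L' S) {s s' : ℂ}
    (hs : s ∈ S) (hs' : s' ∈ S) (h : s - s' ∈ L) : s = s' := by
  obtain ⟨r, -, hr⟩ := hS.2.2 s (hS.2.1 s hs)
  rw [hr s ⟨hs, by rw [sub_self]; exact L.zero_mem⟩, hr s' ⟨hs', h⟩]

theorem isLat_sc {L : Submodule ℤ ℂ} (hL : IsLat L) {c : ℂ} (hc : c ≠ 0) : IsLat (sc c L) := by
  obtain ⟨a, b, hab, h⟩ := lb_get hL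
  refine lb_isLat (a := c * a) (b := c * b) ?_ ?_
  · intro s t hst
    refine hab s t (mul_left_cancel₀ hc ?_)
    rw [mul_zero, ← hst]
    ring
  · intro z
    rw [mem_sc]
    constructor
    · rintro ⟨l, hl, rfl⟩
      obtain ⟨m, n, rfl⟩ := (h l).1 hl
      exact ⟨m, n, by ring⟩
    · rintro ⟨m, n, rfl⟩
      exact ⟨m * a + n * b, (h _).2 ⟨m, n, rfl⟩, by ring⟩

theorem isLat_cjL {L : Submodule ℤ ℂ} (hL : IsLat L) : IsLat (cjL L) := by
  obtain ⟨a, b, hab, h⟩ := lb_get hL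
  refine lb_isLat (a := (starRingEnd ℂ) a) (b := (starRingEnd ℂ) b) ?_ ?_
  · intro s t hst
    refine hab s t ?_
    have h1 := congrArg (starRingEnd ℂ) hst
    simpa using h1
  · intro z
    rw [mem_cjL, h]
    constructor
    · rintro ⟨m, n, hz⟩
      refine ⟨m, n, ?_⟩
      have h1 := congrArg (starRingEnd ℂ) hz
      simpa using h1
    · rintro ⟨m, n, rfl⟩
      exact ⟨m, n, by simp⟩

theorem isLat_of_le {L L' : Submodule ℤ ℂ} (hL : IsLat L) (h : L ≤ L') {n : ℕ} (hn : n ≠ 0)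
    (h' : ∀ x ∈ L', (n : ℂ) * x ∈ L) : IsLat L' := by
  have hn' : (n : ℂ) ≠ 0 := Nat.cast_ne_zero.2 hn
  obtain ⟨P, rfl⟩ := hL
  let f : L' →ₗ[ℤ] P.lattice :=
    { toFun := fun x => ⟨(n : ℂ) * x, h' x x.2⟩
      map_add' := fun x y => Subtype.ext (by
        change (n : ℂ) * ((x : ℂ) + (y : ℂ)) = (n : ℂ) * x + (n : ℂ) * y
        ring)
      map_smul' := fun m x => Subtype.ext (by
        change (n : ℂ) * (m • (x : ℂ)) = m • ((n : ℂ) * (x : ℂ))
        rw [zsmul_eq_mul, zsmul_eq_mul]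
        ring) }
  have hf : Function.Injective f := by
    intro x y hxy
    have h1 : (n : ℂ) * (x : ℂ) = (n : ℂ) * (y : ℂ) := congrArg Subtype.val hxy
    exact Subtype.ext (mul_left_cancel₀ hn' h1)
  have i1 : Module.Finite ℤ P.lattice := Module.Finite.of_basis P.latticeBasis
  have i2 : IsNoetherian ℤ P.lattice := isNoetherian_of_isNoetherianRing_of_finite ℤ _
  have i3 : Module.Finite ℤ L' := Module.Finite.of_injective f hf
  have i4 : Module.Free ℤ L' := inferInstance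
  have hr : Module.finrank ℤ L' = 2 := by
    apply le_antisymm
    · rw [← P.finrank_lattice]
      exact LinearMap.finrank_le_finrank_of_injective hf
    · rw [← P.finrank_lattice]
      exact LinearMap.finrank_le_finrank_of_injective (Submodule.inclusion_injective h)
  let b := Module.finBasisOfFinrankEq ℤ L' hr
  have hb : ∀ z, z ∈ L' ↔ ∃ p q : ℤ, (p : ℂ) * (b 0 : ℂ) + (q : ℂ) * (b 1 : ℂ) = z := by
    intro z
    constructor
    · intro hz
      have h1 := b.sum_repr ⟨z, hz⟩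
      rw [Fin.sum_univ_two] at h1
      have h2 := congrArg (fun x : L' => (x : ℂ)) h1
      refine ⟨b.repr ⟨z, hz⟩ 0, b.repr ⟨z, hz⟩ 1, ?_⟩
      rw [← zsmul_eq_mul, ← zsmul_eq_mul]
      exact h2
    · rintro ⟨p, q, rfl⟩
      rw [← zsmul_eq_mul, ← zsmul_eq_mul]
      exact L'.add_mem (L'.smul_mem p (b 0).2) (L'.smul_mem q (b 1).2)
  have hspan : (⊤ : Submodule ℝ ℂ) ≤ Submodule.span ℝ (Set.range ![(b 0 : ℂ), (b 1 : ℂ)]) := by
    rw [← P.basis.span_eq, Submodule.span_le]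
    have hmem : ∀ z ∈ L', z ∈ Submodule.span ℝ (Set.range ![(b 0 : ℂ), (b 1 : ℂ)]) := by
      intro z hz
      obtain ⟨p, q, rfl⟩ := (hb z).1 hz
      have e0 : (b 0 : ℂ) ∈ Submodule.span ℝ (Set.range ![(b 0 : ℂ), (b 1 : ℂ)]) :=
        Submodule.subset_span ⟨0, rfl⟩
      have e1 : (b 1 : ℂ) ∈ Submodule.span ℝ (Set.range ![(b 0 : ℂ), (b 1 : ℂ)]) :=
        Submodule.subset_span ⟨1, rfl⟩
      have h3 := Submodule.add_mem _ (Submodule.smul_mem _ (p : ℝ) e0)
        (Submodule.smul_mem _ (q : ℝ) e1)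
      simpa using h3
    rintro _ ⟨i, rfl⟩
    fin_cases i
    · exact hmem _ (h (by simpa using P.ω₁_mem_lattice))
    · exact hmem _ (h (by simpa using P.ω₂_mem_lattice))
  have hind : LinearIndependent ℝ ![(b 0 : ℂ), (b 1 : ℂ)] :=
    linearIndependent_of_top_le_span_of_card_eq_finrank hspan (by simp)
  refine lb_isLat (a := (b 0 : ℂ)) (b := (b 1 : ℂ)) ?_ hb
  intro s t hst
  exact LinearIndependent.pair_iff.1 hind s t (by simpa using hst)

theorem exists_mul_mem {L L' : Submodule ℤ ℂ} (hL : IsLat L) (hL' : IsLat L') (h : L ≤ L') :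
    ∃ n : ℕ, n ≠ 0 ∧ ∀ x ∈ L', (n : ℂ) * x ∈ L := by
  obtain ⟨w1, w2, hw, hw'⟩ := lb_get hL
  obtain ⟨v1, v2, hv, hv'⟩ := lb_get hL'
  obtain ⟨a, b, hab⟩ := (hv' w1).1 (h ((hw' w1).2 ⟨1, 0, by push_cast; ring⟩))
  obtain ⟨c, d, hcd⟩ := (hv' w2).1 (h ((hw' w2).2 ⟨0, 1, by push_cast; ring⟩))
  have e1 : ((a * d - b * c : ℤ) : ℂ) * v1 = (d : ℂ) * w1 + ((-b : ℤ) : ℂ) * w2 := by
    rw [← hab, ← hcd]
    push_cast
    ring
  have e2 : ((a * d - b * c : ℤ) : ℂ) * v2 = ((-c : ℤ) : ℂ) * w1 + (a : ℂ) * w2 := by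
    rw [← hab, ← hcd]
    push_cast
    ring
  have hD : a * d - b * c ≠ 0 := by
    intro h0
    rw [h0, Int.cast_zero, zero_mul] at e1 e2
    have h1 := hw (d : ℝ) ((-b : ℤ) : ℝ) (by push_cast at e1 ⊢; exact e1.symm)
    have h2 := hw ((-c : ℤ) : ℝ) (a : ℝ) (by push_cast at e2 ⊢; exact e2.symm)
    have hb0 : b = 0 := by
      have := h1.2
      push_cast at this
      have h3 : (b : ℝ) = 0 := by linarith
      exact_mod_cast h3
    have ha0 : a = 0 := by exact_mod_cast h2.2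
    rw [ha0, hb0] at hab
    have h4 : w1 = 0 := by rw [← hab]; push_cast; ring
    have h5 := hw 1 0 (by rw [h4]; push_cast; ring)
    exact one_ne_zero h5.1
  have hall : ∀ x ∈ L', ((a * d - b * c : ℤ) : ℂ) * x ∈ L := by
    intro x hx
    obtain ⟨p, q, rfl⟩ := (hv' x).1 hx
    have h3 : ((a * d - b * c : ℤ) : ℂ) * ((p : ℂ) * v1 + (q : ℂ) * v2) =
        ((p * d - q * c : ℤ) : ℂ) * w1 + ((q * a - p * b : ℤ) : ℂ) * w2 := by
      have h4 : ((a * d - b * c : ℤ) : ℂ) * ((p : ℂ) * v1 + (q : ℂ) * v2) =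
          (p : ℂ) * (((a * d - b * c : ℤ) : ℂ) * v1) + (q : ℂ) * (((a * d - b * c : ℤ) : ℂ) * v2) := by
        ring
      rw [h4, e1, e2]
      push_cast
      ring
    rw [h3]
    exact (hw' _).2 ⟨_, _, rfl⟩
  refine ⟨(a * d - b * c).natAbs, Int.natAbs_ne_zero.2 hD, fun x hx => ?_⟩
  have h3 := hall x hx
  rcases Int.natAbs_eq (a * d - b * c) with h4 | h4
  · rw [h4] at h3
    simpa using h3
  · rw [h4] at h3
    have h5 := L.neg_mem h3
    simpa using h5

theorem exists_reps {L L' : Submodule ℤ ℂ} (hL : IsLat L) (hL' : IsLat L') (h : L ≤ L') :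
    ∃ S : Finset ℂ, IsReps L L' S := by
  classical
  obtain ⟨n, hn, hnL⟩ := exists_mul_mem hL hL' h
  obtain ⟨P, rfl⟩ := hL'
  have i1 : Module.Finite ℤ P.lattice := Module.Finite.of_basis P.latticeBasis
  set N : Submodule ℤ P.lattice := L.comap P.lattice.subtype with hN
  have i2 : Finite (P.lattice ⧸ N) := by
    apply Module.finite_of_fg_torsion
    intro q
    obtain ⟨x, rfl⟩ := Submodule.Quotient.mk_surjective N q
    refine ⟨⟨(n : ℤ), mem_nonZeroDivisors_of_ne_zero (by exact_mod_cast hn)⟩, ?_⟩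
    change (n : ℤ) • (Submodule.Quotient.mk x : P.lattice ⧸ N) = 0
    rw [← Submodule.Quotient.mk_smul, Submodule.Quotient.mk_eq_zero]
    change (((n : ℤ) • x : P.lattice) : ℂ) ∈ L
    have h1 := hnL x x.2
    rw [Submodule.coe_smul, zsmul_eq_mul]
    simpa using h1
  have i3 : Fintype (P.lattice ⧸ N) := Fintype.ofFinite _
  choose g hg using Submodule.Quotient.mk_surjective N
  let s : P.lattice ⧸ N → P.lattice := fun q => if q = 0 then 0 else g q
  have hs : ∀ q, (Submodule.Quotient.mk (s q) : P.lattice ⧸ N) = q := by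
    intro q
    by_cases hq : q = 0
    · simp only [s, if_pos hq, hq]
      rfl
    · simp only [s, if_neg hq]
      exact hg q
  have hmk : ∀ x y : P.lattice, (Submodule.Quotient.mk x : P.lattice ⧸ N) =
      Submodule.Quotient.mk y ↔ (x : ℂ) - (y : ℂ) ∈ L := by
    intro x y
    rw [Submodule.Quotient.eq]
    rfl
  refine ⟨Finset.univ.image fun q => (s q : ℂ), ?_, ?_, ?_⟩
  · refine Finset.mem_image.2 ⟨0, Finset.mem_univ _, ?_⟩
    simp [s]
  · intro x hx
    obtain ⟨q, -, rfl⟩ := Finset.mem_image.1 hx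
    exact (s q).2
  · intro x hx
    refine ⟨(s (Submodule.Quotient.mk ⟨x, hx⟩) : ℂ),
      ⟨Finset.mem_image.2 ⟨_, Finset.mem_univ _, rfl⟩, ?_⟩, ?_⟩
    · exact (hmk ⟨x, hx⟩ _).1 (hs _).symm
    · rintro y ⟨hy, hxy⟩
      obtain ⟨q, -, rfl⟩ := Finset.mem_image.1 hy
      have h1 := (hmk ⟨x, hx⟩ (s q)).2 hxy
      rw [hs] at h1
      rw [h1]

theorem reps_card {L L' : Submodule ℤ ℂ} (h : L ≤ L') {S T : Finset ℂ} (hS : IsReps L L' S) (hT : IsReps L L' T) :
    S.card = T.card := by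
  have key : ∀ S T : Finset ℂ, IsReps L L' S → IsReps L L' T → S.card ≤ T.card := by
    intro S T hS hT
    have hex : ∀ s : ℂ, ∃ t : ℂ, s ∈ S → t ∈ T ∧ s - t ∈ L := by
      intro s
      by_cases hs : s ∈ S
      · obtain ⟨t, ht, -⟩ := hT.2.2 s (hS.2.1 s hs)
        exact ⟨t, fun _ => ht⟩
      · exact ⟨0, fun h => absurd h hs⟩
    choose f hf using hex
    refine Finset.card_le_card_of_injOn f (fun s hs => (hf s hs).1) ?_
    intro s hs s' hs' heq
    refine lb_reps_eq hS hs hs' ?_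
    have h1 := (hf s hs).2
    have h2 := (hf s' hs').2
    rw [heq] at h1
    have h3 := L.sub_mem h1 h2
    have h4 : s - f s' - (s' - f s') = s - s' := by ring
    rwa [h4] at h3
  exact le_antisymm (key S T hS hT) (key T S hT hS)

theorem card_mul_mem {L L' : Submodule ℤ ℂ} (h : L ≤ L') {S : Finset ℂ} (hS : IsReps L L' S) {x : ℂ} (hx : x ∈ L') :
    (S.card : ℂ) * x ∈ L := by
  have hex : ∀ s : ℂ, ∃ t : ℂ, s ∈ S → t ∈ S ∧ s + x - t ∈ L := by
    intro s
    by_cases hs : s ∈ S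
    · obtain ⟨t, ht, -⟩ := hS.2.2 (s + x) (L'.add_mem (hS.2.1 s hs) hx)
      exact ⟨t, fun _ => ht⟩
    · exact ⟨0, fun h => absurd h hs⟩
  choose f hf using hex
  have hinj : Set.InjOn f S := by
    intro s hs s' hs' heq
    refine lb_reps_eq hS hs hs' ?_
    have h1 := (hf s hs).2
    have h2 := (hf s' hs').2
    rw [heq] at h1
    have h3 := L.sub_mem h1 h2
    have h4 : s + x - f s' - (s' + x - f s') = s - s' := by ring
    rwa [h4] at h3
  have hsum : ∑ s ∈ S, f s = ∑ s ∈ S, s := by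
    classical
    have himg : S.image f = S := by
      apply Finset.eq_of_subset_of_card_le
      · intro t ht
        obtain ⟨s, hs, rfl⟩ := Finset.mem_image.1 ht
        exact (hf s hs).1
      · rw [Finset.card_image_of_injOn hinj]
    conv_rhs => rw [← himg, Finset.sum_image hinj]
  have h1 : ∑ s ∈ S, (s + x - f s) ∈ L := L.sum_mem fun s hs => (hf s hs).2
  rw [Finset.sum_sub_distrib, Finset.sum_add_distrib, hsum, Finset.sum_const, nsmul_eq_mul,
    add_sub_cancel_left] at h1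
  exact h1

/-- a sum over `L'` is a sum over the representatives and over `L` -/
theorem reps_equiv {L L' : Submodule ℤ ℂ} (h : L ≤ L') {S : Finset ℂ} (hS : IsReps L L' S) :
    ∃ φ : (S × L) ≃ L', ∀ p : S × L, ((φ p : L') : ℂ) = (p.1 : ℂ) + (p.2 : ℂ) := by
  let g : S × L → L' := fun p => ⟨(p.1 : ℂ) + (p.2 : ℂ),
    L'.add_mem (hS.2.1 p.1 p.1.2) (h p.2.2)⟩
  have hg : Function.Bijective g := by
    constructor
    · rintro ⟨s, l⟩ ⟨s', l'⟩ heq
      have h1 : (s : ℂ) + (l : ℂ) = (s' : ℂ) + (l' : ℂ) := congrArg Subtype.val heq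
      have h2 : (s : ℂ) = s' := by
        refine lb_reps_eq hS s.2 s'.2 ?_
        have h3 : (s : ℂ) - s' = l' - l := by linear_combination h1
        rw [h3]
        exact L.sub_mem l'.2 l.2
      have h3 : (l : ℂ) = l' := by
        rw [h2] at h1
        exact add_left_cancel h1
      exact Prod.ext (Subtype.ext h2) (Subtype.ext h3)
    · rintro ⟨x, hx⟩
      obtain ⟨s, ⟨hs, hxs⟩, -⟩ := hS.2.2 x hx
      exact ⟨(⟨s, hs⟩, ⟨x - s, hxs⟩), Subtype.ext (by
        change s + (x - s) = x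
        ring)⟩
  exact ⟨Equiv.ofBijective g hg, fun p => rfl⟩

end CMS
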