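import Mathlib
import Pool.Agent.Lib.CMS.LBas
import Pool.Agent.Lib.MP_0162a5_an.A1
import Pool.Agent.Lib.MP_5e64e7_nt.OWp

/-!
# LWp: Weierstrass functions of submodule lattices  (about 230 lines)

Everything for `L = P.lattice`, where `wp L = P.weierstrassP` etc. by `rfl`.  Use Mathlib (`PeriodPair.weierstrassP_add_coe`, `derivWeierstrassP_sq`, `deriv_weierstrassP`, `order_weierstrassP`) and `Pool.Agent.T05` (file `MP_0162a5_an/A1`: `wp_uniq, wp_eq, wp_deriv_ne, wp_surj, wp_half, wp_deriv_half`), `MP5e.wp_first, wp_pole` (file `MP_5e64e7_nt/OWp`).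
`wpq_surj` : choose `z` with `wp L z = x`; `wq L z = ±y`; replace `z` by `-z` if necessary.
`wq_eq_zero_iff` : `wp_deriv_ne`, `wp_deriv_half`.
`disc_ne` : `4c³ - g₂c - g₃ = 4(c-e₁)(c-e₂)(c-e₃)` (`wp_half`) with distinct roots (`wp_eq`, the half periods are incongruent; see the proof of `wp_half`), and `16 ∏ (e_i - e_j)² = g₂³ - 27 g₃²`.
`wp_sc` etc. : reindex the sums by `l ↦ c l` (for `c = 0` excluded).  Compare `wp_scale` in `MP_0162a5_an/A2.lean`.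
`wp_cj` etc. : reindex the sums by complex conjugation, `Complex.conj_tsum` (or `(starRingEnd ℂ)` is continuous: `Function.Injective`-free `tsum` map by `conjCLE`).
`wp_lim` : `z² wp z = 1 + z² (wp z - 1/z²)`, `wp z - 1/z²` = Mathlib's `weierstrassPExcept 0` (continuous at `0`): `P.weierstrassPExcept_add`.
-/

set_option autoImplicit false

namespace CMS

open Complex NumberField MPd9f52e

variable {L : Submodule ℤ ℂ}

theorem wp_add_mem (hL : IsLat L) {l : ℂ} (hl : l ∈ L) (z : ℂ) : wp L (z + l) = wp L z := by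
  obtain ⟨P, rfl⟩ := hL
  exact P.weierstrassP_add_coe z ⟨l, hl⟩

theorem wq_add_mem (hL : IsLat L) {l : ℂ} (hl : l ∈ L) (z : ℂ) : wq L (z + l) = wq L z := by
  obtain ⟨P, rfl⟩ := hL
  exact P.derivWeierstrassP_add_coe z ⟨l, hl⟩

theorem wp_neg (hL : IsLat L) (z : ℂ) : wp L (-z) = wp L z := by
  obtain ⟨P, rfl⟩ := hL
  exact P.weierstrassP_neg z

theorem wq_neg (hL : IsLat L) (z : ℂ) : wq L (-z) = -wq L z := by
  obtain ⟨P, rfl⟩ := hL
  exact P.derivWeierstrassP_neg z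

theorem wq_sq (hL : IsLat L) {z : ℂ} (hz : z ∉ L) : wq L z ^ 2 = 4 * wp L z ^ 3 - g2 L * wp L z - g3 L := by
  obtain ⟨P, rfl⟩ := hL
  exact P.derivWeierstrassP_sq z hz

theorem wp_eq_iff (hL : IsLat L) {z u : ℂ} (hz : z ∉ L) (hu : u ∉ L) : wp L z = wp L u ↔ z - u ∈ L ∨ z + u ∈ L := by
  constructor
  · intro h
    obtain ⟨P, rfl⟩ := hL
    exact Pool.Agent.T05.wp_eq P hz hu h
  · rintro (h | h)
    · have h1 := wp_add_mem hL h u
      rwa [add_sub_cancel] at h1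
    · have h1 := wp_add_mem hL h (-u)
      rw [wp_neg hL, show -u + (z + u) = z by ring] at h1
      exact h1

theorem wp_wq_inj (hL : IsLat L) {z u : ℂ} (hz : z ∉ L) (hu : u ∉ L) (h : wp L z = wp L u) (h' : wq L z = wq L u) :
    z - u ∈ L := by
  obtain ⟨P, rfl⟩ := hL
  exact Pool.Agent.T05.wp_uniq P hz hu h h'

theorem wpq_surj (hL : IsLat L) {x y : ℂ} (h : y ^ 2 = 4 * x ^ 3 - g2 L * x - g3 L) :
    ∃ z, z ∉ L ∧ wp L z = x ∧ wq L z = y := by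
  obtain ⟨z, hz, hx⟩ : ∃ z, z ∉ L ∧ wp L z = x := by
    obtain ⟨P, rfl⟩ := hL
    exact Pool.Agent.T05.wp_surj P x
  have h1 := wq_sq hL hz
  rw [hx, ← h] at h1
  rcases sq_eq_sq_iff_eq_or_eq_neg.mp h1 with h2 | h2
  · exact ⟨z, hz, hx, h2⟩
  · exact ⟨-z, fun h3 => hz (neg_mem_iff.1 h3), by rw [wp_neg hL, hx], by rw [wq_neg hL, h2, neg_neg]⟩

theorem wq_eq_zero_iff (hL : IsLat L) {z : ℂ} (hz : z ∉ L) : wq L z = 0 ↔ z + z ∈ L := by
  obtain ⟨P, rfl⟩ := hL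
  constructor
  · intro h
    by_contra h1
    exact Pool.Agent.T05.wp_deriv_ne P hz (by rwa [two_mul]) h
  · intro h
    have h1 := Pool.Agent.T05.wp_deriv_half P h
    rw [show (z + z) / 2 = z by ring] at h1
    exact h1

theorem disc_ne (hL : IsLat L) : g2 L ^ 3 - 27 * g3 L ^ 2 ≠ 0 := by
  obtain ⟨P, rfl⟩ := hL
  rw [g2_lattice, g3_lattice]
  have hh := Pool.Agent.T05.wp_half P
  have m1 : P.ω₁ ∈ P.lattice := P.ω₁_mem_lattice
  have m2 : P.ω₂ ∈ P.lattice := P.ω₂_mem_lattice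
  have n1 : P.ω₁ / 2 ∉ P.lattice := P.ω₁_div_two_notMem_lattice
  have n2 : P.ω₂ / 2 ∉ P.lattice := P.ω₂_div_two_notMem_lattice
  have n3 : (P.ω₁ + P.ω₂) / 2 ∉ P.lattice := by
    have := Pool.Agent.T05.ratmul_notMem P (1 / 2) (1 / 2) (by norm_num)
    rwa [show ((1 / 2 : ℚ) : ℂ) * P.ω₁ + ((1 / 2 : ℚ) : ℂ) * P.ω₂ = (P.ω₁ + P.ω₂) / 2 by
      push_cast; ring] at this
  have d12 : P.weierstrassP (P.ω₁ / 2) ≠ P.weierstrassP (P.ω₂ / 2) := by
    intro h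
    rcases Pool.Agent.T05.wp_eq P n1 n2 h with h | h
    · have := add_mem h m2
      rw [show P.ω₁ / 2 - P.ω₂ / 2 + P.ω₂ = (P.ω₁ + P.ω₂) / 2 by ring] at this
      exact n3 this
    · rw [show P.ω₁ / 2 + P.ω₂ / 2 = (P.ω₁ + P.ω₂) / 2 by ring] at h
      exact n3 h
  have d13 : P.weierstrassP (P.ω₁ / 2) ≠ P.weierstrassP ((P.ω₁ + P.ω₂) / 2) := by
    intro h
    rcases Pool.Agent.T05.wp_eq P n1 n3 h with h | h
    · have := neg_mem h
      rw [show -(P.ω₁ / 2 - (P.ω₁ + P.ω₂) / 2) = P.ω₂ / 2 by ring] at this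
      exact n2 this
    · have := sub_mem h m1
      rw [show P.ω₁ / 2 + (P.ω₁ + P.ω₂) / 2 - P.ω₁ = P.ω₂ / 2 by ring] at this
      exact n2 this
  have d23 : P.weierstrassP (P.ω₂ / 2) ≠ P.weierstrassP ((P.ω₁ + P.ω₂) / 2) := by
    intro h
    rcases Pool.Agent.T05.wp_eq P n2 n3 h with h | h
    · have := neg_mem h
      rw [show -(P.ω₂ / 2 - (P.ω₁ + P.ω₂) / 2) = P.ω₁ / 2 by ring] at this
      exact n1 this
    · have := sub_mem h m2
      rw [show P.ω₂ / 2 + (P.ω₁ + P.ω₂) / 2 - P.ω₂ = P.ω₁ / 2 by ring] at this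
      exact n1 this
  generalize P.weierstrassP (P.ω₁ / 2) = e1 at *
  generalize P.weierstrassP (P.ω₂ / 2) = e2 at *
  generalize P.weierstrassP ((P.ω₁ + P.ω₂) / 2) = e3 at *
  have h0 := hh 0
  have h1 := hh 1
  have h2 := hh (-1)
  have s3 : e3 = -e1 - e2 := by linear_combination (h1 + h2 - 2 * h0) / 8
  subst s3
  have s2 : P.g₂ = 4 * (e1 ^ 2 + e1 * e2 + e2 ^ 2) := by linear_combination (h2 - h1) / 2
  have s1 : P.g₃ = 4 * (e1 * e2 * (-e1 - e2)) := by linear_combination -h0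
  rw [s1, s2]
  have h4 : (4 * (e1 ^ 2 + e1 * e2 + e2 ^ 2)) ^ 3 - 27 * (4 * (e1 * e2 * (-e1 - e2))) ^ 2 =
      16 * ((e1 - e2) * (e1 - (-e1 - e2)) * (e2 - (-e1 - e2))) ^ 2 := by ring
  rw [h4]
  exact mul_ne_zero (by norm_num) (pow_ne_zero 2 (mul_ne_zero (mul_ne_zero (sub_ne_zero.2 d12)
    (sub_ne_zero.2 d13)) (sub_ne_zero.2 d23)))

private noncomputable def scE {c : ℂ} (hc : c ≠ 0) (L : Submodule ℤ ℂ) : L ≃ sc c L :=
  Equiv.ofBijective (fun l : L => (⟨c * (l : ℂ), mem_sc.2 ⟨l, l.2, rfl⟩⟩ : sc c L)) (by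
    constructor
    · intro a b hab
      have h1 : c * (a : ℂ) = c * (b : ℂ) := congrArg Subtype.val hab
      exact Subtype.ext (mul_left_cancel₀ hc h1)
    · rintro ⟨b, hb⟩
      obtain ⟨l, hl, h⟩ := mem_sc.1 hb
      exact ⟨⟨l, hl⟩, Subtype.ext h⟩)

private theorem scE_coe {c : ℂ} (hc : c ≠ 0) (L : Submodule ℤ ℂ) (l : L) :
    ((scE hc L l : sc c L) : ℂ) = c * (l : ℂ) := rfl

private theorem tsum_sc {c : ℂ} (hc : c ≠ 0) (L : Submodule ℤ ℂ) (f : ℂ → ℂ) :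
    ∑' l : sc c L, f l = ∑' l : L, f (c * l) :=
  ((scE hc L).tsum_eq (fun l : sc c L => f l)).symm

private noncomputable def cjE (L : Submodule ℤ ℂ) : L ≃ cjL L :=
  Equiv.ofBijective (fun l : L => (⟨(starRingEnd ℂ) (l : ℂ), by
      rw [mem_cjL, Complex.conj_conj]; exact l.2⟩ : cjL L)) (by
    constructor
    · intro a b hab
      have h1 : (starRingEnd ℂ) (a : ℂ) = (starRingEnd ℂ) (b : ℂ) := congrArg Subtype.val hab
      exact Subtype.ext ((starRingEnd ℂ).injective h1)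
    · rintro ⟨b, hb⟩
      exact ⟨⟨(starRingEnd ℂ) b, mem_cjL.1 hb⟩, Subtype.ext (Complex.conj_conj b)⟩)

private theorem tsum_cj (L : Submodule ℤ ℂ) (f : ℂ → ℂ) :
    ∑' l : cjL L, f l = ∑' l : L, f ((starRingEnd ℂ) l) :=
  ((cjE L).tsum_eq (fun l : cjL L => f l)).symm

theorem wp_sc {c : ℂ} (hc : c ≠ 0) (L : Submodule ℤ ℂ) (z : ℂ) : wp (sc c L) (c * z) = wp L z / c ^ 2 := by
  unfold wp
  rw [tsum_sc hc L (fun l => 1 / (c * z - l) ^ 2 - 1 / l ^ 2), ← tsum_div_const]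
  refine tsum_congr fun l => ?_
  rw [← mul_sub, mul_pow, mul_pow, sub_div, div_div, div_div, mul_comm (c ^ 2), mul_comm (c ^ 2)]

theorem wq_sc {c : ℂ} (hc : c ≠ 0) (L : Submodule ℤ ℂ) (z : ℂ) : wq (sc c L) (c * z) = wq L z / c ^ 3 := by
  unfold wq
  rw [tsum_sc hc L (fun l => 2 / (c * z - l) ^ 3), neg_div, ← tsum_div_const]
  congr 1
  refine tsum_congr fun l => ?_
  rw [← mul_sub, mul_pow, div_div, mul_comm (c ^ 3)]

theorem g2_sc {c : ℂ} (hc : c ≠ 0) (L : Submodule ℤ ℂ) : g2 (sc c L) = g2 L / c ^ 4 := by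
  unfold g2
  rw [tsum_sc hc L (fun l => (l ^ 4)⁻¹), mul_div_assoc, ← tsum_div_const]
  congr 1
  refine tsum_congr fun l => ?_
  rw [mul_pow, mul_inv, div_eq_mul_inv, mul_comm]

theorem g3_sc {c : ℂ} (hc : c ≠ 0) (L : Submodule ℤ ℂ) : g3 (sc c L) = g3 L / c ^ 6 := by
  unfold g3
  rw [tsum_sc hc L (fun l => (l ^ 6)⁻¹), mul_div_assoc, ← tsum_div_const]
  congr 1
  refine tsum_congr fun l => ?_
  rw [mul_pow, mul_inv, div_eq_mul_inv, mul_comm]

theorem wp_cj (L : Submodule ℤ ℂ) (z : ℂ) : wp (cjL L) ((starRingEnd ℂ) z) = (starRingEnd ℂ) (wp L z) := by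
  unfold wp
  rw [tsum_cj L (fun l => 1 / ((starRingEnd ℂ) z - l) ^ 2 - 1 / l ^ 2), Complex.conj_tsum]
  refine tsum_congr fun l => ?_
  simp

theorem wp_deriv (hL : IsLat L) {z : ℂ} (hz : z ∉ L) : HasDerivAt (wp L) (wq L z) z := by
  obtain ⟨P, rfl⟩ := hL
  exact Pool.Agent.Lib.MP5e.wp_first P hz

theorem wp_lim (hL : IsLat L) : Filter.Tendsto (fun z => z ^ 2 * wp L z) (nhdsWithin 0 {0}ᶜ) (nhds 1) := by
  obtain ⟨P, rfl⟩ := hL
  have h1 : ContinuousAt (P.weierstrassPExcept 0) 0 :=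
    (P.analyticAt_weierstrassPExcept 0).continuousAt
  have h2 : Filter.Tendsto (fun z : ℂ => 1 + z ^ 2 * P.weierstrassPExcept 0 z) (nhdsWithin 0 {0}ᶜ)
      (nhds (1 + 0 ^ 2 * P.weierstrassPExcept 0 0)) := by
    have h3 : ContinuousAt (fun z : ℂ => 1 + z ^ 2 * P.weierstrassPExcept 0 z) 0 := by
      exact continuousAt_const.add ((continuousAt_id.pow 2).mul h1)
    exact h3.tendsto.mono_left nhdsWithin_le_nhds
  rw [zero_pow two_ne_zero, zero_mul, add_zero] at h2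
  refine h2.congr' ?_
  filter_upwards [self_mem_nhdsWithin] with z hz
  have hz' : z ≠ 0 := hz
  have h4 := P.weierstrassPExcept_add 0 z
  have h5 : wp P.lattice z = P.weierstrassPExcept 0 z + (1 / z ^ 2 - 1 / 0 ^ 2) := by
    rw [wp_lattice, ← h4]
    simp
  rw [h5]
  field_simp
  ring

theorem wp_lim_atTop (hL : IsLat L) {l : ℂ} (hl : l ∈ L) :
    Filter.Tendsto (fun z => ‖wp L z‖) (nhdsWithin l {l}ᶜ) Filter.atTop := by
  obtain ⟨P, rfl⟩ := hL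
  exact Pool.Agent.Lib.MP5e.wp_pole P hl

theorem isClosed_lat (hL : IsLat L) : IsClosed (L : Set ℂ) := by
  obtain ⟨P, rfl⟩ := hL
  exact P.isClosed_lattice

theorem countable_lat (hL : IsLat L) : (L : Set ℂ).Countable := by
  obtain ⟨P, rfl⟩ := hL
  exact Pool.Agent.T05.lattice_countable P

/-- a bounded fundamental domain -/
theorem exists_bound (hL : IsLat L) : ∃ B : ℝ, ∀ z : ℂ, ∃ l ∈ L, ‖z + l‖ ≤ B := by
  obtain ⟨P, rfl⟩ := hL
  refine ⟨‖P.ω₁‖ + ‖P.ω₂‖, fun z => ?_⟩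
  have h1 : P.basis.repr z 0 • P.ω₁ + P.basis.repr z 1 • P.ω₂ = z := by
    have h2 := P.basis.sum_repr z
    rw [Fin.sum_univ_two] at h2
    simpa using h2
  set a := P.basis.repr z 0 with ha
  set b := P.basis.repr z 1 with hb
  refine ⟨-((⌊a⌋ : ℤ) • P.ω₁ + (⌊b⌋ : ℤ) • P.ω₂), neg_mem (add_mem (Submodule.smul_mem _ _
    P.ω₁_mem_lattice) (Submodule.smul_mem _ _ P.ω₂_mem_lattice)), ?_⟩
  have h3 : z + -((⌊a⌋ : ℤ) • P.ω₁ + (⌊b⌋ : ℤ) • P.ω₂) =
      (Int.fract a) • P.ω₁ + (Int.fract b) • P.ω₂ := by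
    conv_lhs => rw [← h1]
    rw [Int.fract, Int.fract, sub_smul, sub_smul, Int.cast_smul_eq_zsmul, Int.cast_smul_eq_zsmul]
    abel
  rw [h3]
  refine (norm_add_le _ _).trans (add_le_add ?_ ?_)
  · rw [norm_smul, Real.norm_eq_abs, abs_of_nonneg (Int.fract_nonneg a)]
    exact mul_le_of_le_one_left (norm_nonneg _) (Int.fract_lt_one a).le
  · rw [norm_smul, Real.norm_eq_abs, abs_of_nonneg (Int.fract_nonneg b)]
    exact mul_le_of_le_one_left (norm_nonneg _) (Int.fract_lt_one b).le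

end CMS
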