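import Mathlib
import Pool.Agent.Lib.CMS.Cj
import Pool.Agent.Lib.CMS.LWp

/-!
# CCj: the conjugate ideal  (about 200 lines)

PROOF. `cjI hk a` is the image of `a` under a ring automorphism `σ` of `𝓞 k` (`RingOfIntegers.mapRingEquiv (cjk hk)`), so it is multiplicative etc.
(`Ideal.map_mul`, `Ideal.map_top`, `Ideal.map_isPrime_of_equiv`, `Ideal.comap_symm`).  `σ` is an involution: `e (cjk (cjk x)) = conj conj e x = e x` for an embedding `e` of `k`
(there is one: `k` is a number field), `cjk_spec`.  `cjI_norm`: `𝓞 k / a ≅ 𝓞 k / σ a` (Mathlib: `Ideal.absNorm` and ring equivalences; or `Ideal.absNorm_eq_...`; or via `Nat.card` of the quotient, `Ideal.quotientEquiv`).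
`cop_cj`, `req_cj`: apply `σ`, `σ f = f`, `σ (x - 1) = σ x - 1`, `Ideal.map_span`.
`Lc_cj`: `conj z · e(σ x) = conj(z e(x))`.
-/

set_option autoImplicit false

namespace CMS

open Complex NumberField MPd9f52e

variable {k : Type} [Field k] [NumberField k]

/-- the automorphism of the ring of integers -/
private noncomputable def sg (hk : IQ k) : 𝓞 k ≃+* 𝓞 k := RingOfIntegers.mapRingEquiv (cjk hk)

private theorem sg_coe (hk : IQ k) (x : 𝓞 k) : ((sg hk x : 𝓞 k) : k) = cjk hk (x : k) := rfl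

private theorem cjI_def (hk : IQ k) (a : Ideal (𝓞 k)) : cjI hk a = a.map (sg hk) := rfl

private theorem cjk_cjk (hk : IQ k) (x : k) : cjk hk (cjk hk x) = x := by
  obtain ⟨e⟩ : Nonempty (k →+* ℂ) := inferInstance
  apply e.injective
  rw [cjk_spec, cjk_spec, Complex.conj_conj]

private theorem sg_sg (hk : IQ k) (x : 𝓞 k) : sg hk (sg hk x) = x := by
  apply RingOfIntegers.ext
  rw [sg_coe, sg_coe, cjk_cjk]

private theorem mem_cjI (hk : IQ k) (a : Ideal (𝓞 k)) (x : 𝓞 k) : x ∈ cjI hk a ↔ sg hk x ∈ a := by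
  rw [cjI_def, Ideal.mem_map_of_equiv]
  constructor
  · rintro ⟨y, hy, rfl⟩
    rwa [sg_sg]
  · intro h
    exact ⟨sg hk x, h, sg_sg hk x⟩

/-- `cjI` is an involution, multiplicative, preserves norms and primes -/
theorem cjI_cjI (hk : IQ k) (a : Ideal (𝓞 k)) : cjI hk (cjI hk a) = a := by
  ext x
  rw [mem_cjI, mem_cjI, sg_sg]

theorem cjI_mul (hk : IQ k) (a b : Ideal (𝓞 k)) : cjI hk (a * b) = cjI hk a * cjI hk b := by
  exact Ideal.map_mul _ a b

theorem cjI_top (hk : IQ k) : cjI hk (⊤ : Ideal (𝓞 k)) = ⊤ := by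
  exact Ideal.map_top _

theorem cjI_prime (hk : IQ k) {P : Ideal (𝓞 k)} (hP : P.IsPrime) : (cjI hk P).IsPrime := by
  exact Ideal.map_isPrime_of_equiv (sg hk)

theorem cjI_norm (hk : IQ k) (a : Ideal (𝓞 k)) : Ideal.absNorm (cjI hk a) = Ideal.absNorm a := by
  rw [Ideal.absNorm_apply, Ideal.absNorm_apply, Submodule.cardQuot_apply, Submodule.cardQuot_apply]
  exact (Nat.card_congr (Ideal.quotientEquiv a (cjI hk a) (sg hk) rfl).toEquiv).symm

theorem cjI_ne (hk : IQ k) {a : Ideal (𝓞 k)} (ha : a ≠ ⊥) : cjI hk a ≠ ⊥ := by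
  intro h
  apply ha
  rw [← cjI_cjI hk a, h]
  exact Ideal.map_bot

private theorem cop_aux {hk : IQ k} {f : ℕ} {a : Ideal (𝓞 k)} (h : Cop f a) :
    Cop f (cjI hk a) := by
  refine ⟨cjI_ne hk h.1, ?_⟩
  have h2 := h.2
  rw [Ideal.isCoprime_iff_exists] at h2 ⊢
  obtain ⟨i, hi, j, hj, hij⟩ := h2
  refine ⟨sg hk i, ?_, sg hk j, ?_, ?_⟩
  · rw [mem_cjI, sg_sg]
    exact hi
  · rw [Ideal.mem_span_singleton] at hj ⊢
    have := map_dvd (sg hk) hj
    rwa [map_natCast] at this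
  · rw [← map_add, hij, map_one]

theorem cop_cj {hk : IQ k} {f : ℕ} {a : Ideal (𝓞 k)} : Cop f (cjI hk a) ↔ Cop f a := by
  constructor
  · intro h
    have h1 := cop_aux (hk := hk) h
    rwa [cjI_cjI] at h1
  · exact cop_aux

theorem req_cj {hk : IQ k} {f : ℕ} {a b : Ideal (𝓞 k)} (h : Req f a b) : Req f (cjI hk a) (cjI hk b) := by
  obtain ⟨x, y, hx, hy, hfx, hfy, heq⟩ := h
  have hsp : ∀ z : 𝓞 k, Ideal.span {sg hk z} = cjI hk (Ideal.span {z}) := by
    intro z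
    rw [cjI_def, Ideal.map_span, Set.image_singleton]
  refine ⟨sg hk x, sg hk y, ?_, ?_, ?_, ?_, ?_⟩
  · rw [Ne, EmbeddingLike.map_eq_zero_iff]
    exact hx
  · rw [Ne, EmbeddingLike.map_eq_zero_iff]
    exact hy
  · have := map_dvd (sg hk) hfx
    rwa [map_natCast, map_sub, map_one] at this
  · have := map_dvd (sg hk) hfy
    rwa [map_natCast, map_sub, map_one] at this
  · rw [hsp, hsp, ← cjI_mul, ← cjI_mul, heq]

theorem Lc_cj (hk : IQ k) (e : k →+* ℂ) (c : Ideal (𝓞 k)) : cjL (Lc e c) = Lc e (cjI hk c) := by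
  have hsg : ∀ x : 𝓞 k, e ((sg hk x : 𝓞 k) : k) = (starRingEnd ℂ) (e (x : k)) := fun x => by
    rw [sg_coe, cjk_spec]
  ext z
  rw [mem_cjL]
  constructor
  · intro h x hx
    obtain ⟨y, hy⟩ := h (sg hk x) ((mem_cjI hk c x).1 hx)
    refine ⟨sg hk y, ?_⟩
    rw [hsg, ← hy, hsg, map_mul, Complex.conj_conj, Complex.conj_conj]
  · intro h x hx
    have hx' : sg hk x ∈ cjI hk c := by
      rw [mem_cjI, sg_sg]
      exact hx
    obtain ⟨y, hy⟩ := h (sg hk x) hx'
    refine ⟨sg hk y, ?_⟩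
    rw [hsg, ← hy, hsg, map_mul, Complex.conj_conj]

end CMS
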