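import Mathlib
import Pool.Agent.Lib.CMS.Defs
import Pool.Agent.Lib.CMS.CBas

/-!
# CCop: a ray class contains ideals prime to any given integer  (about 200 lines)

PROOF. `c` prime to `f`.  Let `n = N(c)^{phi(f)}` (or any natural number `n ≠ 0` with `n ∈ c`, `n ≡ 1 mod f`; `absNorm c ∈ c` and `absNorm c` is prime to `f` because `c` is, `Nat.ModEq.pow_totient`), and `c'` the ideal
with `c c' = (n)` (`c ∣ (n)`); `c'` is prime to `f`.  Write `D = D₁ D₂`, every prime factor of `D₁` divides `f`, `D₂` prime to `f` (or: let `D₂` be the product of the prime powers of `D` at the primes not dividing `f`).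
There is `a ∈ c'` with `(a) + c' D₂ = c'` (Mathlib: `Ideal.exists_sup_span_eq`, for `c' D₂ ≤ c'`, `c' D₂ ≠ ⊥`).  By the Chinese remainder theorem (`f` and `c' D₂` are coprime) there is `x` with `x ≡ 1 mod f` and
`x ≡ a mod c' D₂`.  Then `x ∈ c'`, `(x) + c' D₂ = c'`; let `(x) = b c'` (`c' ∣ (x)`).  `b` is prime to `D₂` (`(b + D₂) c' = c'`), and prime to `f` because `x` is (so prime to `D₁`).
`n b = b c c' = x c`: `Req f c b` with the elements `x, n ≡ 1 mod f`: `(x) c = (n) b`.  (`x ≠ 0`: if `f` is not 1, `x ≡ 1 mod f`; for `f = 1` add a multiple of `f n D₂ N(c')`, i.e. choose `x ≠ 0` in its class modulo `f c' D₂`.)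
-/

set_option autoImplicit false

namespace CMS

open Complex NumberField MPd9f52e

variable {k : Type} [Field k] [NumberField k]

omit [NumberField k] in
private theorem cc_split {f : ℕ} (D : ℕ) (hD : D ≠ 0) : ∃ D₂ : ℕ, D₂ ≠ 0 ∧ Nat.Coprime f D₂ ∧
    ∀ b : Ideal (𝓞 k), IsCoprime b (Ideal.span {(f : 𝓞 k)}) →
      IsCoprime b (Ideal.span {(D₂ : 𝓞 k)}) → IsCoprime b (Ideal.span {(D : 𝓞 k)}) := by
  induction D using Nat.strong_induction_on with
  | _ D ih =>
    by_cases h : Nat.Coprime f D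
    · exact ⟨D, hD, h, fun b _ h2 => h2⟩
    · obtain ⟨p, hp, hpf, hpD⟩ := Nat.Prime.not_coprime_iff_dvd.1 h
      obtain ⟨D', rfl⟩ := hpD
      have hD' : D' ≠ 0 := right_ne_zero_of_mul hD
      have hlt : D' < p * D' := by
        have := hp.two_le
        have h1 : 0 < D' := Nat.pos_of_ne_zero hD'
        nlinarith
      obtain ⟨D₂, h0, h1, h2⟩ := ih D' hlt hD'
      refine ⟨D₂, h0, h1, fun b hb hb2 => ?_⟩
      have h3 := h2 b hb hb2
      have h4 : IsCoprime b (Ideal.span {(p : 𝓞 k)}) := by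
        rw [Ideal.isCoprime_iff_sup_eq] at hb ⊢
        rw [eq_top_iff, ← hb]
        refine sup_le_sup_left ?_ _
        rw [Ideal.span_singleton_le_span_singleton]
        exact Nat.cast_dvd_cast hpf
      have h5 := h4.mul_right h3
      rwa [Ideal.span_singleton_mul_span_singleton, ← Nat.cast_mul] at h5

theorem exists_cop {f D : ℕ} (hf : f ≠ 0) (hD : D ≠ 0) {c : Ideal (𝓞 k)} (hc : Cop f c) :
    ∃ b : Ideal (𝓞 k), Cop D b ∧ Cop f b ∧ Req f c b := by
  obtain ⟨hc0, hcf⟩ := hc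
  have hf0 : (f : 𝓞 k) ≠ 0 := Nat.cast_ne_zero.2 hf
  obtain ⟨α, hα0, hαc, w, hw⟩ : ∃ α : 𝓞 k, α ≠ 0 ∧ α ∈ c ∧ (f : 𝓞 k) ∣ α - 1 := by
    obtain ⟨u, hu, v, hv, huv⟩ := Ideal.isCoprime_iff_exists.1 hcf
    obtain ⟨w, rfl⟩ := Ideal.mem_span_singleton.1 hv
    by_cases h : u = 0
    · obtain ⟨β, hβ, hβ0⟩ := Submodule.exists_mem_ne_zero_of_ne_bot hc0
      refine ⟨f * β, mul_ne_zero hf0 hβ0, c.mul_mem_left _ hβ, β - w, ?_⟩
      rw [h, zero_add] at huv
      linear_combination huv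
    · exact ⟨u, h, hu, -w, by linear_combination huv⟩
  obtain ⟨c', hc'⟩ := Ideal.dvd_span_singleton.2 hαc
  have hc'0 : c' ≠ ⊥ := by
    rintro rfl
    rw [Ideal.mul_bot, Ideal.span_singleton_eq_bot] at hc'
    exact hα0 hc'
  have hαc' : α ∈ c' := by
    have h1 : Ideal.span {α} ≤ c' := by rw [hc']; exact Ideal.mul_le_right
    exact h1 (Ideal.mem_span_singleton_self α)
  obtain ⟨D₂, hD20, hD2f, hD2⟩ := cc_split (k := k) (f := f) D hD
  have hD20' : (D₂ : 𝓞 k) ≠ 0 := Nat.cast_ne_zero.2 hD20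
  have h1 : IsCoprime (Ideal.span {(f : 𝓞 k)}) (c' * Ideal.span {(D₂ : 𝓞 k)}) := by
    refine IsCoprime.mul_right ?_ ?_
    · rw [Ideal.isCoprime_iff_exists]
      refine ⟨-(f * w), ?_, α, hαc', by linear_combination hw⟩
      rw [Ideal.neg_mem_iff]
      exact Ideal.mul_mem_right _ _ (Ideal.mem_span_singleton_self _)
    · rw [Ideal.isCoprime_span_singleton_iff]
      exact Nat.Coprime.cast hD2f
  obtain ⟨a, ha⟩ := IsDedekindDomain.exists_sup_span_eq
    (I := c' * Ideal.span {(D₂ : 𝓞 k)}) (J := c') Ideal.mul_le_left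
    (mul_ne_zero hc'0 (by rwa [Ne, Ideal.zero_eq_bot, Ideal.span_singleton_eq_bot]))
  have hac' : a ∈ c' := by
    rw [← ha]
    exact Ideal.mem_sup_right (Ideal.mem_span_singleton_self a)
  obtain ⟨u, hu, v, hv, huv⟩ := Ideal.isCoprime_iff_exists.1 h1
  obtain ⟨u', rfl⟩ := Ideal.mem_span_singleton.1 hu
  obtain ⟨x, hx0, hxf, hxa⟩ : ∃ x : 𝓞 k, x ≠ 0 ∧ (f : 𝓞 k) ∣ x - 1 ∧
      x - a ∈ c' * Ideal.span {(D₂ : 𝓞 k)} := by
    have e1 : (f : 𝓞 k) ∣ a * (f * u') + v - 1 :=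
      ⟨a * u' - u', by linear_combination huv⟩
    have e2 : a * (f * u') + v - a ∈ c' * Ideal.span {(D₂ : 𝓞 k)} := by
      have e : a * (f * u') + v - a = (1 - a) * v := by linear_combination a * huv
      rw [e]
      exact Ideal.mul_mem_left _ _ hv
    by_cases h : a * (f * u') + v = 0
    · refine ⟨a * (f * u') + v + f * (α * D₂), ?_, ?_, ?_⟩
      · rw [h, zero_add]
        exact mul_ne_zero hf0 (mul_ne_zero hα0 hD20')
      · have e : a * (f * u') + v + f * (α * D₂) - 1 =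
            (a * (f * u') + v - 1) + f * (α * D₂) := by ring
        rw [e]
        exact dvd_add e1 (dvd_mul_right _ _)
      · have e : a * (f * u') + v + f * (α * D₂) - a =
            (a * (f * u') + v - a) + f * (α * D₂) := by ring
        rw [e]
        exact Ideal.add_mem _ e2 (Ideal.mul_mem_left _ _
          (Ideal.mul_mem_mul hαc' (Ideal.mem_span_singleton_self _)))
    · exact ⟨_, h, e1, e2⟩
  have hxc' : x ∈ c' := by
    have e : x = (x - a) + a := by ring
    rw [e]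
    exact Ideal.add_mem _ (Ideal.mul_le_left hxa) hac'
  obtain ⟨b, hb⟩ := Ideal.dvd_span_singleton.2 hxc'
  have hb0 : b ≠ ⊥ := by
    rintro rfl
    rw [Ideal.mul_bot, Ideal.span_singleton_eq_bot] at hb
    exact hx0 hb
  have hbD2 : IsCoprime b (Ideal.span {(D₂ : 𝓞 k)}) := by
    rw [Ideal.isCoprime_iff_sup_eq]
    have h2 : c' * (b ⊔ Ideal.span {(D₂ : 𝓞 k)}) = c' * ⊤ := by
      rw [Ideal.mul_sup, ← hb, Ideal.mul_top]
      refine le_antisymm (sup_le ?_ Ideal.mul_le_left) ?_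
      · rwa [Ideal.span_singleton_le_iff_mem]
      · conv_lhs => rw [← ha]
        refine sup_le le_sup_right ?_
        rw [Ideal.span_singleton_le_iff_mem]
        have e : a = x - (x - a) := by ring
        rw [e]
        exact Ideal.sub_mem _ (Ideal.mem_sup_left (Ideal.mem_span_singleton_self x))
          (Ideal.mem_sup_right hxa)
    exact mul_left_cancel₀ (a := c') (by rwa [Ne, Ideal.zero_eq_bot]) h2
  have hbf : IsCoprime b (Ideal.span {(f : 𝓞 k)}) := by
    have h2 := (cop_span hx0 hxf).2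
    rw [hb] at h2
    exact h2.of_mul_left_right
  refine ⟨b, ⟨hb0, hD2 b hbf hbD2⟩, ⟨hb0, hbf⟩, x, α, hx0, hα0, hxf, ⟨w, hw⟩, ?_⟩
  rw [hb, hc']
  ring

end CMS
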