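import Mathlib
import Pool.Agent.Lib.CMS.Defs
import Pool.Agent.Lib.CMS.CBas
import Pool.Agent.Lib.CMS.CCop

/-!
# CFin: finiteness of the ray classes; sums and products over the classes  (about 280 lines)

PROOF. FINITENESS. `ClassGroup (𝓞 k)` is finite; for every ideal class that contains an ideal prime to `f` fix one such ideal `c_i`, and as in CCop a natural number `n_i ≡ 1 mod f`, `n_i ≠ 0`, and an ideal `c_i'` with `c_i c_i' = (n_i)`.
If `c` is prime to `f` in the class `i` then `c c_i'` is principal, `= (z)`, `z` prime to `f`, and `(n_i) c = c c_i c_i' = (z) c_i`.  If `c, d` are in the class `i` with `(n_i) c = (z) c_i`, `(n_i) d = (z') c_i` and `z ≡ z' mod f`, then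
`(z')(n_i) c = (z) (n_i) d`, so `(z') c = (z) d`, and with `w z ≡ 1 mod f` (`z` is prime to `f`; choose `w ≠ 0`): `(w z') c = (w z) d`, `w z ≡ w z' ≡ 1`: `Req f c d`.  So the map (class, `z mod f`) from the ideals prime to `f` to the finite
set `ClassGroup × 𝓞 k/(f)` separates the ray classes; choose one ideal in every nonempty fibre, one per ray class.
`sys_spec`: `Sys k f` is the chosen system (`dif_pos`).
`prod_sys`: for `c ∈ S := Sys k f` let `ρ(c) ∈ S` be the representative of `T c` (`hT`, IsSys).  `ρ` is injective on `S` (`ρ c = ρ d` gives `Req f (T c) (T d)`, so `Req f c d`, so `c = d`), hence a bijection of the finite set `S`, and `F (T c) = F (ρ c)`.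
-/

set_option autoImplicit false

namespace CMS

open Complex NumberField MPd9f52e

variable {k : Type} [Field k] [NumberField k]

omit [NumberField k] in
private theorem cf_unit {f : ℕ} {c : Ideal (𝓞 k)} (hc : Cop f c) :
    ∃ u ∈ c, u ≠ 0 ∧ (f : 𝓞 k) ∣ u - 1 := by
  obtain ⟨a, ha, b, hb, hab⟩ := Submodule.mem_sup.1 (show (1 : 𝓞 k) ∈ c ⊔ Ideal.span {(f : 𝓞 k)} by
    rw [Ideal.isCoprime_iff_sup_eq.1 hc.2]
    exact Submodule.mem_top)
  obtain ⟨v, hv⟩ := Ideal.mem_span_singleton.1 hb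
  by_cases ha0 : a = 0
  · obtain ⟨u, hu, hu0⟩ := (Submodule.ne_bot_iff c).1 hc.1
    refine ⟨u, hu, hu0, ?_⟩
    have h1 : (f : 𝓞 k) ∣ 1 := ⟨v, by rw [← hv, ← hab, ha0, zero_add]⟩
    exact h1.trans (one_dvd _)
  · refine ⟨a, ha, ha0, -v, ?_⟩
    rw [mul_neg, ← hv, ← hab]
    ring

private theorem cf_cancel {R : Type*} [CommRing R] [IsDedekindDomain R] {I J K : Ideal R} (hI : I ≠ ⊥)
    (h : I * J = I * K) : J = K := (mul_right_inj' (b := J) (c := K) hI).1 h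

private theorem cf_dvd {R : Type*} [CommRing R] {x w : R} {J : Ideal R}
    (h : Ideal.span {x} * J = Ideal.span {w}) : x ∣ w := by
  have h3 : w ∈ Ideal.span {w} := Ideal.mem_span_singleton_self w
  rw [← h] at h3
  have h4 : Ideal.span {x} * J ≤ Ideal.span {x} := Ideal.mul_le_left
  exact Ideal.mem_span_singleton.1 (h4 h3)

omit [NumberField k] in
private theorem cf_span {x : 𝓞 k} (hx : x ≠ 0) : Ideal.span {x} ≠ ⊥ := by
  rwa [Ne, Ideal.span_singleton_eq_bot]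

private theorem cf_class (f : ℕ) (C : ClassGroup (𝓞 k)) :
    ∃ (c0 : Ideal (𝓞 k)) (u : 𝓞 k), u ≠ 0 ∧ ∀ (c : Ideal (𝓞 k)) (hc : Cop f c),
      ClassGroup.mk0 ⟨c, mem_nonZeroDivisors_iff_ne_zero.2 hc.1⟩ = C →
      ∃ z : 𝓞 k, Cop f (Ideal.span {z}) ∧ Ideal.span {u} * c = Ideal.span {z} * c0 := by
  by_cases h : ∃ (c : Ideal (𝓞 k)) (hc : Cop f c),
      ClassGroup.mk0 ⟨c, mem_nonZeroDivisors_iff_ne_zero.2 hc.1⟩ = C
  · obtain ⟨c0, hc0, hC⟩ := h
    obtain ⟨u, hu, hu0, huf⟩ := cf_unit hc0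
    obtain ⟨c1, hc1⟩ : c0 ∣ Ideal.span {u} := Ideal.dvd_span_singleton.2 hu
    have hcop1 : Cop f c1 := (cop_mul.1 (hc1 ▸ cop_span hu0 huf)).2
    refine ⟨c0, u, hu0, fun c hc hcC => ?_⟩
    obtain ⟨x, y, hx, hy, hxy⟩ := ClassGroup.mk0_eq_mk0_iff.1 (hcC.trans hC.symm)
    change Ideal.span {x} * c = Ideal.span {y} * c0 at hxy
    have h1 : Ideal.span {x} * (c * c1) = Ideal.span {y * u} := by
      rw [← mul_assoc, hxy, mul_assoc, ← hc1, Ideal.span_singleton_mul_span_singleton]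
    obtain ⟨z, hz⟩ := cf_dvd h1
    have h4 : c * c1 = Ideal.span {z} := by
      refine cf_cancel (cf_span hx) ?_
      rw [h1, hz, Ideal.span_singleton_mul_span_singleton]
    refine ⟨z, ?_, ?_⟩
    · rw [← h4]
      exact cop_mul.2 ⟨hc, hcop1⟩
    · rw [← h4, hc1]
      ring
  · refine ⟨⊤, 1, one_ne_zero, fun c hc hcC => ?_⟩
    exact absurd ⟨c, hc, hcC⟩ h

private theorem cf_sep (k : Type) [Field k] [NumberField k] (f : ℕ) :
    ∃ Ψ : {c : Ideal (𝓞 k) // Cop f c} → ClassGroup (𝓞 k) × (𝓞 k ⧸ Ideal.span {(f : 𝓞 k)}),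
      ∀ c d, Ψ c = Ψ d → Req f c.1 d.1 := by
  choose c0 u hu0 hcl using cf_class (k := k) f
  choose z hz hzc using fun (c : {c : Ideal (𝓞 k) // Cop f c}) =>
    hcl (ClassGroup.mk0 ⟨c.1, mem_nonZeroDivisors_iff_ne_zero.2 c.2.1⟩) c.1 c.2 rfl
  refine ⟨fun c => (ClassGroup.mk0 ⟨c.1, mem_nonZeroDivisors_iff_ne_zero.2 c.2.1⟩,
    Ideal.Quotient.mk _ (z c)), fun c d hcd => ?_⟩
  obtain ⟨h1, h2⟩ := Prod.ext_iff.1 hcd
  change ClassGroup.mk0 _ = ClassGroup.mk0 _ at h1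
  change Ideal.Quotient.mk _ (z c) = Ideal.Quotient.mk _ (z d) at h2
  have hc := hzc c
  have hd := hzc d
  rw [← h1] at hd
  rw [Ideal.Quotient.eq, Ideal.mem_span_singleton] at h2
  set C := ClassGroup.mk0 ⟨c.1, mem_nonZeroDivisors_iff_ne_zero.2 c.2.1⟩
  have h3 : Ideal.span {z d} * c.1 = Ideal.span {z c} * d.1 := by
    refine cf_cancel (cf_span (hu0 C)) ?_
    calc Ideal.span {u C} * (Ideal.span {z d} * c.1)
        = Ideal.span {z d} * (Ideal.span {u C} * c.1) := by ring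
      _ = Ideal.span {z d} * (Ideal.span {z c} * c0 C) := by rw [hc]
      _ = Ideal.span {z c} * (Ideal.span {z d} * c0 C) := by ring
      _ = Ideal.span {z c} * (Ideal.span {u C} * d.1) := by rw [hd]
      _ = Ideal.span {u C} * (Ideal.span {z c} * d.1) := by ring
  obtain ⟨v, hv, hv0, hvf⟩ := cf_unit (hz c)
  obtain ⟨w, rfl⟩ := Ideal.mem_span_singleton.1 hv
  have hzd : z d ≠ 0 := by
    intro h4
    exact (hz d).1 (by rw [h4, Ideal.span_singleton_eq_bot])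
  have hw : w ≠ 0 := right_ne_zero_of_mul hv0
  refine ⟨z d * w, z c * w, mul_ne_zero hzd hw, hv0, ?_, hvf, ?_⟩
  · have h5 : z d * w - 1 = (z c * w - 1) - (z c - z d) * w := by ring
    rw [h5]
    exact dvd_sub hvf (h2.mul_right w)
  · rw [← Ideal.span_singleton_mul_span_singleton, ← Ideal.span_singleton_mul_span_singleton,
      mul_right_comm, h3]
    ring

private def cf_setoid (k : Type) [Field k] [NumberField k] (f : ℕ) :
    Setoid {c : Ideal (𝓞 k) // Cop f c} where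
  r c d := Req f c.1 d.1
  iseqv := ⟨fun c => req_refl f c.1, fun h => req_symm h, fun h h' => req_trans h h'⟩

private theorem cf_quot {f : ℕ} (hf : f ≠ 0) : Finite (𝓞 k ⧸ Ideal.span {(f : 𝓞 k)}) := by
  apply Ideal.finiteQuotientOfFreeOfNeBot
  rw [Ne, Ideal.span_singleton_eq_bot]
  exact Nat.cast_ne_zero.2 hf

theorem exists_sys (k : Type) [Field k] [NumberField k] {f : ℕ} (hf : f ≠ 0) :
    ∃ S : Finset (Ideal (𝓞 k)), IsSys f S := by
  classical
  obtain ⟨Ψ, hΨ⟩ := cf_sep k f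
  have := cf_quot (k := k) hf
  have hfin : Finite (Quotient (cf_setoid k f)) := by
    apply Finite.of_injective (fun q : Quotient (cf_setoid k f) => Ψ q.out)
    intro q q' hq
    rw [← Quotient.out_eq q, ← Quotient.out_eq q']
    exact Quotient.sound (hΨ _ _ hq)
  have hft : Fintype (Quotient (cf_setoid k f)) := Fintype.ofFinite _
  refine ⟨Finset.univ.image (fun q : Quotient (cf_setoid k f) => q.out.1), ?_, ?_, ?_⟩
  · intro a ha
    obtain ⟨q, -, rfl⟩ := Finset.mem_image.1 ha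
    exact q.out.2
  · intro a ha b hb hab
    obtain ⟨q, -, rfl⟩ := Finset.mem_image.1 ha
    obtain ⟨q', -, rfl⟩ := Finset.mem_image.1 hb
    have h1 : q = q' := by
      rw [← Quotient.out_eq q, ← Quotient.out_eq q']
      exact Quotient.sound hab
    rw [h1]
  · intro a ha
    refine ⟨(Quotient.mk (cf_setoid k f) ⟨a, ha⟩).out.1,
      Finset.mem_image.2 ⟨_, Finset.mem_univ _, rfl⟩, ?_⟩
    have h1 : Req f ((Quotient.mk (cf_setoid k f) ⟨a, ha⟩).out).1 a :=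
      @Quotient.mk_out _ (cf_setoid k f) ⟨a, ha⟩
    exact req_symm h1

theorem sys_spec (k : Type) [Field k] [NumberField k] {f : ℕ} (hf : f ≠ 0) : IsSys f (Sys k f) := by
  have h := exists_sys k hf
  unfold Sys
  rw [dif_pos h]
  exact h.choose_spec

private theorem cf_bij {f : ℕ} (hf : f ≠ 0) {T : Ideal (𝓞 k) → Ideal (𝓞 k)}
    (hT : ∀ a, Cop f a → Cop f (T a)) (hT' : ∀ a b, Cop f a → Cop f b → Req f (T a) (T b) → Req f a b) :
    ∃ ρ : Ideal (𝓞 k) → Ideal (𝓞 k), (∀ c ∈ Sys k f, ρ c ∈ Sys k f) ∧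
      Set.InjOn ρ (Sys k f : Set (Ideal (𝓞 k))) ∧
      (∀ d ∈ Sys k f, ∃ c ∈ Sys k f, ρ c = d) ∧ ∀ c ∈ Sys k f, Req f (T c) (ρ c) := by
  classical
  have hS := sys_spec k hf
  have h0 : ∀ c : Ideal (𝓞 k), ∃ b : Ideal (𝓞 k), c ∈ Sys k f → b ∈ Sys k f ∧ Req f (T c) b := by
    intro c
    by_cases hc : c ∈ Sys k f
    · obtain ⟨b, hb, h1⟩ := hS.2.2 (T c) (hT c (hS.1 c hc))
      exact ⟨b, fun _ => ⟨hb, h1⟩⟩
    · exact ⟨c, fun h => absurd h hc⟩
  choose ρ hρ using h0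
  have hinj : Set.InjOn ρ (Sys k f : Set (Ideal (𝓞 k))) := by
    intro c hc d hd hcd
    have hc' : c ∈ Sys k f := hc
    have hd' : d ∈ Sys k f := hd
    apply hS.2.1 c hc' d hd'
    apply hT' c d (hS.1 c hc') (hS.1 d hd')
    refine req_trans (hρ c hc').2 ?_
    rw [hcd]
    exact req_symm (hρ d hd').2
  have him : (Sys k f).image ρ = Sys k f := by
    apply Finset.eq_of_subset_of_card_le
    · intro b hb
      obtain ⟨c, hc, rfl⟩ := Finset.mem_image.1 hb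
      exact (hρ c hc).1
    · rw [Finset.card_image_of_injOn hinj]
  refine ⟨ρ, fun c hc => (hρ c hc).1, hinj, fun d hd => ?_, fun c hc => (hρ c hc).2⟩
  rw [← him] at hd
  obtain ⟨c, hc, h1⟩ := Finset.mem_image.1 hd
  exact ⟨c, hc, h1⟩

theorem prod_sys {f : ℕ} (hf : f ≠ 0) {M : Type*} [CommMonoid M] {F : Ideal (𝓞 k) → M}
    (hF : ∀ a b, Cop f a → Req f a b → F a = F b) {T : Ideal (𝓞 k) → Ideal (𝓞 k)}
    (hT : ∀ a, Cop f a → Cop f (T a)) (hT' : ∀ a b, Cop f a → Cop f b → Req f (T a) (T b) → Req f a b) :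
    ∏ c ∈ Sys k f, F (T c) = ∏ c ∈ Sys k f, F c := by
  have hS := sys_spec k hf
  obtain ⟨ρ, h1, h2, h3, h4⟩ := cf_bij hf hT hT'
  exact Finset.prod_nbij ρ h1 h2 (fun d hd => by
    obtain ⟨c, hc, h5⟩ := h3 d hd
    exact ⟨c, hc, h5⟩) (fun c hc => hF _ _ (hT c (hS.1 c hc)) (h4 c hc))

theorem sum_sys {f : ℕ} (hf : f ≠ 0) {M : Type*} [AddCommMonoid M] {F : Ideal (𝓞 k) → M}
    (hF : ∀ a b, Cop f a → Req f a b → F a = F b) {T : Ideal (𝓞 k) → Ideal (𝓞 k)}
    (hT : ∀ a, Cop f a → Cop f (T a)) (hT' : ∀ a b, Cop f a → Cop f b → Req f (T a) (T b) → Req f a b) :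
    ∑ c ∈ Sys k f, F (T c) = ∑ c ∈ Sys k f, F c := by
  have hS := sys_spec k hf
  obtain ⟨ρ, h1, h2, h3, h4⟩ := cf_bij hf hT hT'
  exact Finset.sum_nbij ρ h1 h2 (fun d hd => by
    obtain ⟨c, hc, h5⟩ := h3 d hd
    exact ⟨c, hc, h5⟩) (fun c hc => hF _ _ (hT c (hS.1 c hc)) (h4 c hc))

end CMS
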