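import Mathlib
import Pool.Agent.Lib.CMS.Cj
import Pool.Agent.Lib.CMS.Defs

/-!
# CNrm: norms modulo f  (about 160 lines)

PROOF. `nm_emb`: the embeddings of `k` are `e` and `conj ∘ e` (two embeddings as `[k:ℚ] = 2`, and `e` is not real), so the norm of `x` is `e(x) conj(e(x)) = ‖e x‖²`
(`Algebra.norm_eq_prod_embeddings`, `Ideal.absNorm_span_singleton`); or: `x · cjk x` is rational.
`nm_mod`: `x = 1 + f y`: `N x = (1 + f y)(1 + f y')` with `y' = σ y` the conjugate integer (`cjk_spec`; `RingOfIntegers.mapRingEquiv`), so `N x - 1 ∈ f 𝓞 k`, an integer divisible by `f` in `𝓞 k`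
is divisible by `f` in `ℤ` (`f ≠ 0`: the quotient is rational and integral; `f = 0`: `x = 1`).  Here `absNorm (x) = |N x| = N x` as `N x = ‖e x‖² ≥ 0`.
`req_norm`: multiplicativity (`Ideal.absNorm` is a monoid homomorphism).
-/

set_option autoImplicit false

namespace CMS

open Complex NumberField MPd9f52e

variable {k : Type} [Field k] [NumberField k]

private theorem cn_place (hk : IQ k) (e : k →+* ℂ) (w : InfinitePlace k) : w = InfinitePlace.mk e := by
  classical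
  by_contra hne
  have h2 : ∀ w : InfinitePlace k, w.mult = 2 := fun w => InfinitePlace.mult_isComplex ⟨w, hk.cpx w⟩
  have hs := InfinitePlace.sum_mult_eq (K := k)
  rw [hk.two, Finset.sum_congr rfl (fun w _ => h2 w), Finset.sum_const, smul_eq_mul, Finset.card_univ] at hs
  have h3 : ({w, InfinitePlace.mk e} : Finset (InfinitePlace k)).card = 2 := Finset.card_pair hne
  have h4 := Finset.card_le_univ ({w, InfinitePlace.mk e} : Finset (InfinitePlace k))
  omega

theorem nm_emb (hk : IQ k) (e : k →+* ℂ) (x : 𝓞 k) : (Ideal.absNorm (Ideal.span {x}) : ℝ) = ‖e (x : k)‖ ^ 2 := by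
  classical
  have h := InfinitePlace.prod_eq_abs_norm (x : k)
  have hu : (Finset.univ : Finset (InfinitePlace k)) = {InfinitePlace.mk e} := by
    ext w
    simp [cn_place hk e w]
  rw [hu, Finset.prod_singleton, InfinitePlace.mult_isComplex ⟨_, hk.cpx (InfinitePlace.mk e)⟩,
    InfinitePlace.apply, ← Algebra.coe_norm_int] at h
  rw [h, Ideal.absNorm_span_singleton, Nat.cast_natAbs]
  push_cast
  rfl

private theorem cn_conj (hk : IQ k) (x : 𝓞 k) :
    ((Ideal.absNorm (Ideal.span {x}) : ℕ) : 𝓞 k) = x * RingOfIntegers.mapRingEquiv (cjk hk) x := by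
  obtain ⟨e⟩ : Nonempty (k →+* ℂ) := inferInstance
  apply RingOfIntegers.coe_injective
  apply e.injective
  have h1 : e ((RingOfIntegers.mapRingEquiv (cjk hk) x : 𝓞 k) : k) = (starRingEnd ℂ) (e (x : k)) := by
    have h2 : ((RingOfIntegers.mapRingEquiv (cjk hk) x : 𝓞 k) : k) = cjk hk (x : k) :=
      RingOfIntegers.mapRingEquiv_apply (cjk hk) x
    rw [h2, cjk_spec]
  have h3 : e (((x * RingOfIntegers.mapRingEquiv (cjk hk) x : 𝓞 k)) : k) = ((‖e (x : k)‖ ^ 2 : ℝ) : ℂ) := by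
    have h4 : (((x * RingOfIntegers.mapRingEquiv (cjk hk) x : 𝓞 k)) : k) =
        (x : k) * ((RingOfIntegers.mapRingEquiv (cjk hk) x : 𝓞 k) : k) :=
      map_mul (algebraMap (𝓞 k) k) _ _
    rw [h4, map_mul, h1, Complex.mul_conj, Complex.normSq_eq_norm_sq]
  have h5 : e ((((Ideal.absNorm (Ideal.span {x}) : ℕ) : 𝓞 k)) : k) = ((Ideal.absNorm (Ideal.span {x}) : ℝ) : ℂ) := by
    have h6 : ((((Ideal.absNorm (Ideal.span {x}) : ℕ) : 𝓞 k)) : k) = ((Ideal.absNorm (Ideal.span {x}) : ℕ) : k) :=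
      map_natCast (algebraMap (𝓞 k) k) _
    rw [h6, map_natCast, Complex.ofReal_natCast]
  exact h5.trans (by rw [nm_emb hk e x]; exact h3.symm)

private theorem cn_int {a b : ℤ} (h : (a : 𝓞 k) ∣ (b : 𝓞 k)) : a ∣ b := by
  obtain ⟨y, hy⟩ := h
  by_cases ha : a = 0
  · rw [ha, Int.cast_zero, zero_mul, Int.cast_eq_zero] at hy
    rw [hy]
    exact dvd_zero a
  have hint : IsIntegral ℤ ((b : ℚ) / a) := by
    have h1 : IsIntegral ℤ (algebraMap ℚ k ((b : ℚ) / a)) := by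
      have h2 : algebraMap ℚ k ((b : ℚ) / a) = (y : k) := by
        rw [map_div₀, map_intCast, map_intCast, div_eq_iff (Int.cast_ne_zero.mpr ha)]
        have h3 := congrArg (fun z : 𝓞 k => (z : k)) hy
        simp only [map_intCast, map_mul] at h3
        rw [h3, mul_comm]
      rw [h2]
      exact RingOfIntegers.isIntegral_coe y
    exact (isIntegral_algebraMap_iff (algebraMap ℚ k).injective).mp h1
  obtain ⟨c, hc⟩ := IsIntegrallyClosed.isIntegral_iff.mp hint
  refine ⟨c, ?_⟩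
  have h5 : (a : ℚ) ≠ 0 := Int.cast_ne_zero.mpr ha
  have h6 : (c : ℚ) = (b : ℚ) / a := by simpa using hc
  have h7 : (b : ℚ) = a * c := by rw [h6]; field_simp
  exact_mod_cast h7

theorem nm_mod (hk : IQ k) {f : ℕ} {x : 𝓞 k} (h : (f : 𝓞 k) ∣ x - 1) :
    (Ideal.absNorm (Ideal.span {x}) : ZMod f) = 1 := by
  have h1 : (f : 𝓞 k) ∣ RingOfIntegers.mapRingEquiv (cjk hk) x - 1 := by
    have := map_dvd (RingOfIntegers.mapRingEquiv (cjk hk)) h
    simpa using this
  have h2 : (f : 𝓞 k) ∣ ((Ideal.absNorm (Ideal.span {x}) : ℕ) : 𝓞 k) - 1 := by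
    rw [cn_conj hk x]
    have h3 : x * RingOfIntegers.mapRingEquiv (cjk hk) x - 1 =
        (x - 1) * RingOfIntegers.mapRingEquiv (cjk hk) x + (RingOfIntegers.mapRingEquiv (cjk hk) x - 1) := by ring
    rw [h3]
    exact dvd_add (dvd_mul_of_dvd_left h _) h1
  have h4 : ((f : ℤ) : 𝓞 k) ∣ (((Ideal.absNorm (Ideal.span {x}) : ℤ) - 1 : ℤ) : 𝓞 k) := by
    push_cast
    exact h2
  have h5 := cn_int h4
  rw [← ZMod.intCast_zmod_eq_zero_iff_dvd] at h5
  push_cast at h5
  exact sub_eq_zero.mp h5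

theorem req_norm (hk : IQ k) {f : ℕ} {a b : Ideal (𝓞 k)} (h : Req f a b) :
    (Ideal.absNorm a : ZMod f) = (Ideal.absNorm b : ZMod f) := by
  obtain ⟨x, y, _, _, hfx, hfy, hab⟩ := h
  have h1 := congrArg (fun I => (Ideal.absNorm I : ZMod f)) hab
  simp only [map_mul, Nat.cast_mul] at h1
  rwa [nm_mod hk hfx, nm_mod hk hfy, one_mul, one_mul] at h1

theorem req_norm_dvd (hk : IQ k) {f m : ℕ} (hmf : m ∣ f) {a b : Ideal (𝓞 k)} (h : Req f a b) :
    (Ideal.absNorm a : ZMod m) = (Ideal.absNorm b : ZMod m) := by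
  obtain ⟨x, y, hx, hy, hfx, hfy, hab⟩ := h
  have hd : (m : 𝓞 k) ∣ (f : 𝓞 k) := Nat.cast_dvd_cast hmf
  exact req_norm hk ⟨x, y, hx, hy, hd.trans hfx, hd.trans hfy, hab⟩

/-- the units `≡ 1 mod f` -/
theorem unit_one (hk : IQ k) {f : ℕ} (hf : 3 ≤ f) {x : 𝓞 k} (hx : IsUnit x) (h : (f : 𝓞 k) ∣ x - 1) : x = 1 := by
  obtain ⟨e⟩ : Nonempty (k →+* ℂ) := inferInstance
  obtain ⟨y, hy⟩ := h
  by_contra hne
  have hy0 : y ≠ 0 := by
    rintro rfl
    rw [mul_zero] at hy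
    exact hne (sub_eq_zero.mp hy)
  have h1 : ‖e (x : k)‖ = 1 := by
    have h2 := nm_emb hk e x
    rw [Ideal.span_singleton_eq_top.mpr hx, Ideal.absNorm_top, Nat.cast_one] at h2
    nlinarith [norm_nonneg (e (x : k))]
  have h3 : 1 ≤ ‖e (y : k)‖ := by
    have h2 := nm_emb hk e y
    have h4 : 1 ≤ Ideal.absNorm (Ideal.span {y}) := by
      rw [Nat.one_le_iff_ne_zero, Ne, Ideal.absNorm_eq_zero_iff, Ideal.span_singleton_eq_bot]
      exact hy0
    have h5 : (1 : ℝ) ≤ ‖e (y : k)‖ ^ 2 := by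
      rw [← h2]
      exact_mod_cast h4
    nlinarith [norm_nonneg (e (y : k))]
  have h6 : e (x : k) - 1 = f * e (y : k) := by
    have h7 := congrArg (fun z : 𝓞 k => e (z : k)) hy
    simpa using h7
  have h7 : ‖e (x : k) - 1‖ ≤ 2 := by
    calc ‖e (x : k) - 1‖ ≤ ‖e (x : k)‖ + ‖(1 : ℂ)‖ := norm_sub_le _ _
      _ = 2 := by rw [h1, norm_one]; norm_num
  rw [h6, norm_mul, Complex.norm_natCast] at h7
  have h8 : (3 : ℝ) ≤ f := by exact_mod_cast hf
  nlinarith

end CMS
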