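import Mathlib
import Pool.Agent.Lib.CMS.Defs
import Pool.Agent.Lib.CMS.LBas
import Pool.Agent.Lib.CMS.LWp

/-!
# OLc1: the lattices c^{-1}: basic properties  (about 260 lines)

PROOF. `Lc e c = {z : z e(x) ∈ e(𝓞 k) for x ∈ c}`.  For `c ≠ ⊥` every `z ∈ Lc e c` is `e(y/x)` with `0 ≠ x ∈ c`.  `Lc_span`: `z e(x) e(y) ∈ e(𝓞)` for `y ∈ c` iff `z e(x) ∈ Lc e c`.
`mem_Lc_mul`: the ideal `u c` is additively generated by the products `x y`, `x ∈ u`, `y ∈ c` (`Submodule.mul_induction_on`).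
`Lc_dual`: `c c⁻¹ = 1` as fractional ideals (`FractionalIdeal.mul_inv_cancel`; or: take an ideal `c'` and `n ≠ 0` with `c c' = (n)`: `n = ∑ x_i y_i`, `x_i ∈ c`, `y_i ∈ c'`, `z_i = e(y_i)/n`, and `x y_i ∈ (n)` for `x ∈ c`).
`Lc_inj`: `x ∈ c` iff `e(x) z ∈ e(𝓞 k)` for all `z ∈ Lc e c` (if so, `x = ∑ x_i (x z_i)`, `x_i ∈ c`, by `Lc_dual`).
`isLat_Lc`: `Lc e ⊤ = e(𝓞 k)` is a lattice: `𝓞 k` has a `ℤ`-basis of two elements `a, b` (`hk.two`; `RingOfIntegers.basis`), and `e(a), e(b)` are linearly independent over `ℝ`: otherwise `e(k) ⊆ ℝ e(a)`, so (divide by `e(a)`) `e(k) ⊆ ℝ` as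
`1 ∈ e(k)`, against `hk.cpx` (`InfinitePlace.mk e` is complex).  Then `Lc e c ⊇ Lc e ⊤` and `n Lc e c ⊆ Lc e ⊤` for `0 ≠ n ∈ c ∩ ℕ` (`n = absNorm c ∈ c`): `isLat_of_le` (LBas).
-/

set_option autoImplicit false

namespace CMS

open Complex NumberField MPd9f52e

variable {k : Type} [Field k] [NumberField k]

variable {e : k →+* ℂ}

private theorem olc_mem {c : Ideal (𝓞 k)} {z : ℂ} :
    z ∈ Lc e c ↔ ∀ x ∈ c, ∃ y : 𝓞 k, z * e (x : k) = e (y : k) := Iff.rfl

omit [NumberField k] in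
private theorem olc_inj {x y : 𝓞 k} (h : e (x : k) = e (y : k)) : x = y :=
  RingOfIntegers.ext (e.injective h)

omit [NumberField k] in
private theorem olc_ne {x : 𝓞 k} (h : x ≠ 0) : e (x : k) ≠ 0 := by
  intro h1
  apply h
  apply olc_inj (e := e)
  rw [h1]
  simp

omit [NumberField k] in
private theorem olc_mul (x y : 𝓞 k) : e ((x * y : 𝓞 k) : k) = e (x : k) * e (y : k) := by
  simp

omit [NumberField k] in
private theorem olc_add (x y : 𝓞 k) : e ((x + y : 𝓞 k) : k) = e (x : k) + e (y : k) := by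
  simp

theorem mem_Lc_top {z : ℂ} : z ∈ Lc e (⊤ : Ideal (𝓞 k)) ↔ ∃ y : 𝓞 k, z = e (y : k) := by
  constructor
  · intro h
    obtain ⟨y, hy⟩ := h 1 trivial
    exact ⟨y, by simpa using hy⟩
  · rintro ⟨y, rfl⟩ x _
    exact ⟨y * x, (olc_mul y x).symm⟩

theorem Lc_emb {c : Ideal (𝓞 k)} (hc : c ≠ ⊥) {z : ℂ} (hz : z ∈ Lc e c) : ∃ y : k, z = e y := by
  obtain ⟨x, hx, hx0⟩ := Submodule.exists_mem_ne_zero_of_ne_bot hc
  obtain ⟨y, hy⟩ := hz x hx
  refine ⟨(y : k) / (x : k), ?_⟩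
  rw [map_div₀, eq_div_iff (olc_ne hx0), hy]

theorem Lc_smul {c : Ideal (𝓞 k)} (a : 𝓞 k) {z : ℂ} (hz : z ∈ Lc e c) : e (a : k) * z ∈ Lc e c := by
  intro x hx
  obtain ⟨y, hy⟩ := hz x hx
  exact ⟨a * y, by rw [mul_assoc, hy, olc_mul]⟩

theorem emb_mem_Lc (c : Ideal (𝓞 k)) (a : 𝓞 k) : e (a : k) ∈ Lc e c := by
  intro x _
  exact ⟨a * x, (olc_mul a x).symm⟩

theorem one_mem_Lc (c : Ideal (𝓞 k)) : (1 : ℂ) ∈ Lc e c := by
  intro x _
  exact ⟨x, one_mul _⟩

theorem Lc_mul_mem {c : Ideal (𝓞 k)} {x : 𝓞 k} (hx : x ∈ c) {z : ℂ} (hz : z ∈ Lc e c) : ∃ y : 𝓞 k, e (x : k) * z = e (y : k) := by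
  obtain ⟨y, hy⟩ := hz x hx
  exact ⟨y, by rw [mul_comm, hy]⟩

theorem mem_Lc_mul {u c : Ideal (𝓞 k)} {z : ℂ} : z ∈ Lc e (u * c) ↔ ∀ x ∈ u, e (x : k) * z ∈ Lc e c := by
  constructor
  · intro h x hx y hy
    obtain ⟨w, hw⟩ := h (x * y) (Ideal.mul_mem_mul hx hy)
    refine ⟨w, ?_⟩
    rw [← hw, olc_mul]
    ring
  · intro h w hw
    induction hw using Submodule.mul_induction_on' with
    | mem_mul_mem x hx y hy =>
      obtain ⟨w, hw⟩ := h x hx y hy
      refine ⟨w, ?_⟩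
      rw [← hw, olc_mul]
      ring
    | add x _ y _ h1 h2 =>
      obtain ⟨w1, hw1⟩ := h1
      obtain ⟨w2, hw2⟩ := h2
      exact ⟨w1 + w2, by rw [olc_add, olc_add, mul_add, hw1, hw2]⟩

theorem Lc_le (u c : Ideal (𝓞 k)) : Lc e c ≤ Lc e (u * c) := by
  intro z hz
  exact mem_Lc_mul.2 fun x _ => Lc_smul x hz

theorem Lc_span {x : 𝓞 k} (hx : x ≠ 0) (c : Ideal (𝓞 k)) : Lc e (Ideal.span {x} * c) = sc (e (x : k))⁻¹ (Lc e c) := by
  have hx' : e (x : k) ≠ 0 := olc_ne hx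
  ext z
  rw [mem_Lc_mul, mem_sc]
  constructor
  · intro h
    exact ⟨_, h x (Ideal.mem_span_singleton_self x), by rw [inv_mul_cancel_left₀ hx']⟩
  · rintro ⟨l, hl, rfl⟩ y hy
    obtain ⟨w, rfl⟩ := Ideal.mem_span_singleton.1 hy
    have h1 : e ((x * w : 𝓞 k) : k) * ((e (x : k))⁻¹ * l) = e (w : k) * l := by
      rw [olc_mul]
      field_simp
    rw [h1]
    exact Lc_smul w hl

theorem Lc_dual {c : Ideal (𝓞 k)} (hc : c ≠ ⊥) : ∃ (n : ℕ) (x : Fin n → 𝓞 k) (z : Fin n → ℂ),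
    (∀ i, x i ∈ c) ∧ (∀ i, z i ∈ Lc e c) ∧ ∑ i, e (x i : k) * z i = 1 := by
  obtain ⟨N, hN, hN0⟩ := Submodule.exists_mem_ne_zero_of_ne_bot hc
  have hN' : e (N : k) ≠ 0 := olc_ne hN0
  have hdvd : c ∣ Ideal.span {N} :=
    Ideal.dvd_iff_le.2 ((Ideal.span_singleton_le_iff_mem c).2 hN)
  obtain ⟨J, hJ⟩ := hdvd
  have key : ∀ w ∈ c * J, ∃ (n : ℕ) (x : Fin n → 𝓞 k) (z : Fin n → ℂ),
      (∀ i, x i ∈ c) ∧ (∀ i, z i ∈ Lc e c) ∧ ∑ i, e (x i : k) * z i = e (w : k) / e (N : k) := by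
    intro w hw
    induction hw using Submodule.mul_induction_on' with
    | mem_mul_mem x hx y hy =>
      refine ⟨1, fun _ => x, fun _ => e (y : k) / e (N : k), fun _ => hx, fun _ => ?_, ?_⟩
      · intro x' hx'
        have h1 : x' * y ∈ Ideal.span {N} := by
          rw [hJ]
          exact Ideal.mul_mem_mul hx' hy
        obtain ⟨w, hw⟩ := Ideal.mem_span_singleton.1 h1
        refine ⟨w, ?_⟩
        have h2 : e (x' : k) * e (y : k) = e (N : k) * e (w : k) := by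
          rw [← olc_mul, hw, olc_mul]
        field_simp
        linear_combination h2
      · rw [Fin.sum_univ_one, olc_mul]
        ring
    | add x _ y _ h1 h2 =>
      obtain ⟨n1, x1, z1, h11, h12, h13⟩ := h1
      obtain ⟨n2, x2, z2, h21, h22, h23⟩ := h2
      refine ⟨n1 + n2, Fin.append x1 x2, Fin.append z1 z2, ?_, ?_, ?_⟩
      · intro i
        refine Fin.addCases (fun i => ?_) (fun i => ?_) i
        · rw [Fin.append_left]
          exact h11 i
        · rw [Fin.append_right]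
          exact h21 i
      · intro i
        refine Fin.addCases (fun i => ?_) (fun i => ?_) i
        · rw [Fin.append_left]
          exact h12 i
        · rw [Fin.append_right]
          exact h22 i
      · rw [Fin.sum_univ_add]
        simp only [Fin.append_left, Fin.append_right]
        rw [h13, h23, olc_add, add_div]
  obtain ⟨n, x, z, h1, h2, h3⟩ := key N (by rw [← hJ]; exact Ideal.mem_span_singleton_self N)
  exact ⟨n, x, z, h1, h2, by rw [h3, div_self hN']⟩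

private theorem olc_mem_of {c : Ideal (𝓞 k)} (hc : c ≠ ⊥) {x : 𝓞 k}
    (h : ∀ z ∈ Lc e c, ∃ y : 𝓞 k, e (x : k) * z = e (y : k)) : x ∈ c := by
  obtain ⟨n, a, z, h1, h2, h3⟩ := Lc_dual (e := e) hc
  choose y hy using fun i => h (z i) (h2 i)
  have h4 : x = ∑ i, a i * y i := by
    apply olc_inj (e := e)
    have h5 : e ((∑ i, a i * y i : 𝓞 k) : k) = ∑ i, e (a i : k) * e (y i : k) := by
      change (e.comp (algebraMap (𝓞 k) k)) (∑ i, a i * y i) = _
      rw [map_sum]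
      exact Finset.sum_congr rfl fun i _ => olc_mul _ _
    rw [h5]
    calc e (x : k) = e (x : k) * ∑ i, e (a i : k) * z i := by rw [h3, mul_one]
      _ = ∑ i, e (a i : k) * e (y i : k) := by
        rw [Finset.mul_sum]
        refine Finset.sum_congr rfl fun i _ => ?_
        rw [← hy i]
        ring
  rw [h4]
  exact Ideal.sum_mem _ fun i _ => Ideal.mul_mem_right _ _ (h1 i)

theorem Lc_inj {c c' : Ideal (𝓞 k)} (hc : c ≠ ⊥) (hc' : c' ≠ ⊥) (h : Lc e c = Lc e c') : c = c' := by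
  apply le_antisymm
  · intro x hx
    apply olc_mem_of (e := e) hc'
    intro z hz
    rw [← h] at hz
    exact Lc_mul_mem hx hz
  · intro x hx
    apply olc_mem_of (e := e) hc
    intro z hz
    rw [h] at hz
    exact Lc_mul_mem hx hz

private theorem olc_isLat_top (hk : IQ k) (e : k →+* ℂ) : IsLat (Lc e (⊤ : Ideal (𝓞 k))) := by
  have hr : Module.finrank ℤ (𝓞 k) = 2 := by
    rw [RingOfIntegers.rank, hk.two]
  let b := Module.finBasisOfFinrankEq ℤ (𝓞 k) hr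
  have hb : ∀ y : 𝓞 k, ∃ p q : ℤ, e (y : k) = (p : ℂ) * e (b 0 : k) + (q : ℂ) * e (b 1 : k) := by
    intro y
    refine ⟨b.repr y 0, b.repr y 1, ?_⟩
    have h1 := b.sum_repr y
    rw [Fin.sum_univ_two] at h1
    conv_lhs => rw [← h1]
    simp
  have hb0 : e (b 0 : k) ≠ 0 := olc_ne (b.ne_zero 0)
  have hind : LinearIndependent ℝ ![e (b 0 : k), e (b 1 : k)] := by
    rw [LinearIndependent.pair_iff]
    intro s t hst
    rw [Complex.real_smul, Complex.real_smul] at hst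
    by_cases ht : t = 0
    · refine ⟨?_, ht⟩
      rw [ht, Complex.ofReal_zero, zero_mul, add_zero] at hst
      exact_mod_cast (mul_eq_zero.1 hst).resolve_right hb0
    · exfalso
      have ht' : (t : ℂ) ≠ 0 := Complex.ofReal_ne_zero.2 ht
      have hb1 : e (b 1 : k) = ((-(s / t) : ℝ) : ℂ) * e (b 0 : k) := by
        push_cast
        field_simp
        linear_combination hst
      -- all values are real multiples of `e (b 0)`
      have hall : ∀ y : 𝓞 k, ∃ r : ℝ, e (y : k) = (r : ℂ) * e (b 0 : k) := by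
        intro y
        obtain ⟨p, q, hpq⟩ := hb y
        refine ⟨p + q * (-(s / t)), ?_⟩
        rw [hpq, hb1]
        push_cast
        ring
      obtain ⟨r, hr⟩ := hall 1
      have hr1 : (1 : ℂ) = (r : ℂ) * e (b 0 : k) := by
        rw [← hr]
        simp
      have hr0 : (r : ℂ) ≠ 0 := by
        intro h0
        rw [h0, zero_mul] at hr1
        exact one_ne_zero hr1
      have hbr : e (b 0 : k) = ((r⁻¹ : ℝ) : ℂ) := by
        push_cast
        apply eq_inv_of_mul_eq_one_left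
        rw [mul_comm]
        exact hr1.symm
      have hreal : ∀ y : 𝓞 k, ∃ r : ℝ, e (y : k) = (r : ℂ) := by
        intro y
        obtain ⟨r', hr'⟩ := hall y
        exact ⟨r' * r⁻¹, by rw [hr', hbr]; push_cast; ring⟩
      have hrealk : ∀ y : k, ∃ r : ℝ, e y = (r : ℂ) := by
        intro y
        obtain ⟨⟨a, d⟩, had⟩ := IsLocalization.surj (nonZeroDivisors (𝓞 k)) y
        have hd : e ((d : 𝓞 k) : k) ≠ 0 := olc_ne (nonZeroDivisors.ne_zero d.2)
        obtain ⟨ra, hra⟩ := hreal a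
        obtain ⟨rd, hrd⟩ := hreal (d : 𝓞 k)
        refine ⟨ra / rd, ?_⟩
        have h1 : e y * e ((d : 𝓞 k) : k) = e (a : k) := by
          rw [← map_mul]
          exact congrArg e had
        push_cast
        rw [← hra, ← hrd, eq_div_iff hd, h1]
      have hR : ComplexEmbedding.IsReal e := by
        rw [ComplexEmbedding.isReal_iff]
        ext y
        obtain ⟨r, hr⟩ := hrealk y
        rw [ComplexEmbedding.conjugate_coe_eq, hr, Complex.conj_ofReal]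
      have h2 : (InfinitePlace.mk e).IsReal := ⟨e, hR, rfl⟩
      exact InfinitePlace.not_isReal_iff_isComplex.2 (hk.cpx (InfinitePlace.mk e)) h2
  refine ⟨⟨e (b 0 : k), e (b 1 : k), hind⟩, ?_⟩
  ext z
  rw [PeriodPair.mem_lattice, mem_Lc_top]
  constructor
  · rintro ⟨p, q, rfl⟩
    refine ⟨(p : 𝓞 k) * b 0 + (q : 𝓞 k) * b 1, ?_⟩
    simp
  · rintro ⟨y, rfl⟩
    obtain ⟨p, q, hpq⟩ := hb y
    exact ⟨p, q, hpq.symm⟩

theorem isLat_Lc (hk : IQ k) (e : k →+* ℂ) {c : Ideal (𝓞 k)} (hc : c ≠ ⊥) : IsLat (Lc e c) := by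
  refine isLat_of_le (olc_isLat_top hk e) ?_ (n := Ideal.absNorm c) ?_ ?_
  · intro z hz
    obtain ⟨y, rfl⟩ := mem_Lc_top.1 hz
    exact emb_mem_Lc c y
  · exact fun h => hc (Ideal.absNorm_eq_zero_iff.1 h)
  · intro x hx
    obtain ⟨y, hy⟩ := Lc_mul_mem (Ideal.absNorm_mem c) hx
    rw [mem_Lc_top]
    exact ⟨y, by rw [← hy]; simp⟩

end CMS
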