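import Mathlib
import Pool.Agent.Lib.CMS.Defs
import Pool.Agent.Lib.CMS.Cj
import Pool.Agent.Lib.CMS.CBas
import Pool.Agent.Lib.CMS.CCop
import Pool.Agent.Lib.CMS.OLc1
import Pool.Agent.Lib.CMS.CNrm

/-!
# CPrm: degree one primes generate the ray classes (paper 4.4)  (about 300 lines)

PROOF. Let `D = f · (N0)!`.  By `exists_cop` there is `b ~ c` prime to `D` (and `f`), `Req f c b`.  Fix an embedding `e : k →+* ℂ` (exists) and a basis: `Lc e b = P.lattice`, `w1 = P.ω₁, w2 = P.ω₂` (`isLat_Lc`).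
`1 = c1 w1 + c2 w2`, `c1, c2 ∈ ℤ` (`one_mem_Lc`).  (a) `gcd(c1, c2, D) = 1`: if `p` divides all three, then `1/p ∈ Lc e b`, so `b ⊆ p 𝓞 k`, `b` is not prime to `D`.
(b) There are `a1 = c1 + D x1`, `a2 = c2 + D x2` with `gcd(a1, a2) = 1`: choose `x1` with `a1 ≠ 0`, and `x2` such that `a2 ≡ 1 mod p` for every prime `p ∣ a1`, `p ∤ D` (Chinese remainder theorem); a prime `p ∣ a1`, `p ∣ D` divides `c1`, so not `c2`, so not `a2`.
(c) `α = a1 w1 + a2 w2 = 1 + D l`, `l = x1 w1 + x2 w2 ∈ Lc e b`, `α ≠ 0`.  `α ∈ Lc e b` is `e(α₀)`, `α₀ ∈ k`; the ideal `b' := α₀ b` is integral: `b' = {y : e y = α e z, z ∈ b}` (`Lc_mul_mem`).  `Req D b b'`: choose `y ∈ b`, `y ≡ 1 mod D`, `y ≠ 0`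
(`b` prime to `D`); `x := α₀ y = y + D (l y) ∈ y + D 𝓞 k`, `x ≡ 1 mod D`, and `(x) b = (y) b'`.  So `b'` is prime to `D` (`req_cop`) and `Req f c b'`.
(d) `b'` is not contained in `n 𝓞 k` for `n > 1`: `α₀ b ⊆ n 𝓞 k` gives `α/n ∈ Lc e b`, so `n ∣ a1, a2`.
(e) `l := normalizedFactors b'` (a multiset of prime ideals with product `b'`).  For `P ∈ l` above the prime number `p`: `P` is prime to `D`, so `p ∤ D`, `p > N0`.  `absNorm P = p` or `p²` (`[k:ℚ] = 2`; `absNorm P ∣ absNorm (p) = p²`).  If it is `p²` then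
`P = (p)` (`P ∣ (p)`, equal norms), so `b' ⊆ (p)`, contradiction to (d).
-/

set_option autoImplicit false

namespace CMS

open Complex NumberField MPd9f52e

variable {k : Type} [Field k] [NumberField k]

/-- a primitive vector in a residue class -/
private theorem cp_int (D : ℕ) (hD : D ≠ 0) (c1 c2 : ℤ)
    (h : ∀ p : ℕ, p.Prime → (p : ℤ) ∣ c1 → (p : ℤ) ∣ c2 → ¬ p ∣ D) :
    ∃ x1 x2 : ℤ, c1 + D * x1 ≠ 0 ∧ IsCoprime (c1 + D * x1) (c2 + D * x2) := by
  classical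
  have hD0 : (D : ℤ) ≠ 0 := Nat.cast_ne_zero.2 hD
  obtain ⟨x1, hx1⟩ : ∃ x1 : ℤ, c1 + D * x1 ≠ 0 := by
    by_cases h1 : c1 = 0
    · exact ⟨1, by rw [h1]; simpa using hD⟩
    · exact ⟨0, by simpa using h1⟩
  set a1 := c1 + D * x1 with ha1
  set s := a1.natAbs.primeFactors.filter (fun p : ℕ => ¬ (p : ℤ) ∣ c2) with hs
  refine ⟨x1, ∏ p ∈ s, (p : ℤ), hx1, ?_⟩
  rw [Int.isCoprime_iff_gcd_eq_one]
  by_contra hne
  obtain ⟨p, hp, hpd⟩ := Nat.exists_prime_and_dvd hne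
  have hp1 : (p : ℤ) ∣ a1 := (Int.natCast_dvd_natCast.2 hpd).trans (Int.gcd_dvd_left _ _)
  have hp2 : (p : ℤ) ∣ c2 + D * ∏ p ∈ s, (p : ℤ) :=
    (Int.natCast_dvd_natCast.2 hpd).trans (Int.gcd_dvd_right _ _)
  have hpI : Prime (p : ℤ) := Nat.prime_iff_prime_int.1 hp
  by_cases hc : (p : ℤ) ∣ c2
  · have h3 : (p : ℤ) ∣ D * ∏ p ∈ s, (p : ℤ) := (dvd_add_right hc).1 hp2
    rcases hpI.dvd_or_dvd h3 with h4 | h4
    · have h5 : p ∣ D := Int.natCast_dvd_natCast.1 h4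
      have h6 : (p : ℤ) ∣ c1 := by
        have : c1 = a1 - D * x1 := by rw [ha1]; ring
        rw [this]
        exact dvd_sub hp1 (h4.mul_right _)
      exact h p hp h6 hc h5
    · obtain ⟨q, hq, hpq⟩ := (Prime.dvd_finsetProd_iff hpI _).1 h4
      rw [hs, Finset.mem_filter] at hq
      have hq' : q.Prime := Nat.prime_of_mem_primeFactors hq.1
      have h7 : p = q := (Nat.prime_dvd_prime_iff_eq hp hq').1 (Int.natCast_dvd_natCast.1 hpq)
      subst h7
      exact hq.2 hc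
  · have h3 : p ∈ s := by
      rw [hs, Finset.mem_filter, Nat.mem_primeFactors]
      refine ⟨⟨hp, ?_, Int.natAbs_ne_zero.2 hx1⟩, hc⟩
      exact Int.natCast_dvd.1 hp1
    have h4 : (p : ℤ) ∣ D * ∏ p ∈ s, (p : ℤ) := (Finset.dvd_prod_of_mem (fun p : ℕ => (p : ℤ)) h3).mul_left _
    exact hc ((dvd_add_left h4).1 hp2)

private theorem cp_norm (hk : IQ k) (p : ℕ) :
    Ideal.absNorm (Ideal.span {(p : 𝓞 k)}) = p ^ 2 := by
  rw [Ideal.absNorm_span_natCast, RingOfIntegers.rank, hk.two]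

private theorem cp_unit (hk : IQ k) {p : ℕ} (hp : p.Prime) : ¬ (p : 𝓞 k) ∣ 1 := by
  intro h
  have h1 : Ideal.span {(p : 𝓞 k)} = ⊤ := Ideal.span_singleton_eq_top.2 (isUnit_of_dvd_one h)
  have h2 := cp_norm hk p
  rw [h1, Ideal.absNorm_top] at h2
  have := hp.two_le
  nlinarith

/-- a basis of the lattice -/
private theorem cp_basis (hk : IQ k) (e : k →+* ℂ) {c : Ideal (𝓞 k)} (hc : c ≠ ⊥) :
    ∃ w1 w2 : ℂ, (∀ z, z ∈ Lc e c ↔ ∃ m n : ℤ, m * w1 + n * w2 = z) ∧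
      ∀ m n m' n' : ℤ, m * w1 + n * w2 = m' * w1 + n' * w2 → m = m' ∧ n = n' := by
  obtain ⟨P, hP⟩ := isLat_Lc hk e hc
  refine ⟨P.ω₁, P.ω₂, fun z => by rw [← hP, PeriodPair.mem_lattice], fun m n m' n' h => ?_⟩
  have h1 := LinearIndependent.pair_iff.mp P.indep ((m : ℝ) - m') ((n : ℝ) - n') (by
    simp only [Complex.real_smul]
    push_cast
    linear_combination h)
  constructor
  · have := sub_eq_zero.1 h1.1
    exact_mod_cast this
  · have := sub_eq_zero.1 h1.2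
    exact_mod_cast this

/-- a primitive ideal in a ray class -/
private theorem cp_prim (hk : IQ k) {D : ℕ} (hD : D ≠ 0) {b : Ideal (𝓞 k)} (hb : Cop D b) :
    ∃ b' : Ideal (𝓞 k), b' ≠ ⊥ ∧ Req D b b' ∧
      ∀ p : ℕ, p.Prime → ¬ b' ≤ Ideal.span {(p : 𝓞 k)} := by
  obtain ⟨hb0, hbD⟩ := hb
  have hD0 : (D : 𝓞 k) ≠ 0 := Nat.cast_ne_zero.2 hD
  obtain ⟨e⟩ : Nonempty (k →+* ℂ) := inferInstance
  have einj : ∀ {x y : 𝓞 k}, e (x : k) = e (y : k) → x = y := fun h =>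
    RingOfIntegers.ext (e.injective h)
  obtain ⟨w1, w2, hL, huniq⟩ := cp_basis hk e hb0
  obtain ⟨c1, c2, hc⟩ := (hL 1).1 (one_mem_Lc b)
  obtain ⟨z0, hz0, v0, hv0, hzv⟩ := Ideal.isCoprime_iff_exists.1 hbD
  obtain ⟨v1, rfl⟩ := Ideal.mem_span_singleton.1 hv0
  have hgcd : ∀ p : ℕ, p.Prime → (p : ℤ) ∣ c1 → (p : ℤ) ∣ c2 → ¬ p ∣ D := by
    rintro p hp ⟨d1, rfl⟩ ⟨d2, rfl⟩ ⟨D', rfl⟩
    have hp0 : (p : ℂ) ≠ 0 := Nat.cast_ne_zero.2 hp.ne_zero
    have h1 : (1 / p : ℂ) ∈ Lc e b := by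
      refine (hL _).2 ⟨d1, d2, ?_⟩
      push_cast at hc
      rw [eq_div_iff hp0]
      linear_combination hc
    obtain ⟨y, hy⟩ := h1 z0 hz0
    have h2 : z0 = p * y := by
      apply einj
      push_cast
      rw [map_mul, ← hy, map_natCast]
      field_simp
    apply cp_unit hk hp
    rw [← hzv, h2]
    push_cast
    exact ⟨y + D' * v1, by ring⟩
  obtain ⟨x1, x2, ha, hco⟩ := cp_int D hD c1 c2 hgcd
  set l : ℂ := x1 * w1 + x2 * w2 with hl
  have hlL : l ∈ Lc e b := (hL _).2 ⟨x1, x2, rfl⟩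
  obtain ⟨u, hu0, hub, t, ht⟩ : ∃ u : 𝓞 k, u ≠ 0 ∧ u ∈ b ∧ (D : 𝓞 k) ∣ u - 1 := by
    by_cases h : z0 = 0
    · obtain ⟨β, hβ, hβ0⟩ := Submodule.exists_mem_ne_zero_of_ne_bot hb0
      refine ⟨D * β, mul_ne_zero hD0 hβ0, b.mul_mem_left _ hβ, β - v1, ?_⟩
      rw [h, zero_add] at hzv
      linear_combination hzv
    · exact ⟨z0, h, hz0, -v1, by linear_combination hzv⟩
  obtain ⟨m, hm⟩ := hlL u hub
  set α : ℂ := 1 + D * l with hα
  have hα' : ((c1 + D * x1 : ℤ) : ℂ) * w1 + ((c2 + D * x2 : ℤ) : ℂ) * w2 = α := by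
    rw [hα, hl, ← hc]
    push_cast
    ring
  have hαL : α ∈ Lc e b := (hL _).2 ⟨_, _, hα'⟩
  have hα0 : α ≠ 0 := by
    intro h
    rw [h] at hα'
    have h1 := huniq (c1 + D * x1) (c2 + D * x2) 0 0 (by rw [hα']; simp)
    exact ha h1.1
  set v : 𝓞 k := u + D * m with hv
  have hve : e (v : k) = α * e (u : k) := by
    rw [hv, hα]
    push_cast
    rw [map_add, map_mul, map_natCast, ← hm]
    ring
  have hv0' : v ≠ 0 := by
    intro h
    rw [h] at hve
    have h1 : α * e (u : k) = 0 := by rw [← hve]; simp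
    rcases mul_eq_zero.1 h1 with h2 | h2
    · exact hα0 h2
    · exact hu0 (einj (by rw [h2]; simp))
  have hdvd : Ideal.span {u} ∣ Ideal.span {v} * b := by
    rw [Ideal.dvd_iff_le, Ideal.span_singleton_mul_le_iff]
    intro z hz
    obtain ⟨y, hy⟩ := hαL z hz
    rw [Ideal.mem_span_singleton]
    refine ⟨y, einj ?_⟩
    push_cast
    rw [map_mul, map_mul, hve, ← hy]
    ring
  obtain ⟨b', hb'⟩ := hdvd
  refine ⟨b', ?_, ⟨v, u, hv0', hu0, ?_, ⟨t, ht⟩, hb'⟩, ?_⟩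
  · rintro rfl
    rw [Ideal.mul_bot, Ideal.mul_eq_bot, Ideal.span_singleton_eq_bot] at hb'
    rcases hb' with h | h
    · exact hv0' h
    · exact hb0 h
  · exact ⟨t + m, by rw [hv]; linear_combination ht⟩
  · intro p hp hle
    have hp0 : (p : ℂ) ≠ 0 := Nat.cast_ne_zero.2 hp.ne_zero
    have h1 : α / p ∈ Lc e b := by
      intro z hz
      have h2 : v * z ∈ Ideal.span {u} * b' := by
        rw [← hb']
        exact Ideal.mul_mem_mul (Ideal.mem_span_singleton_self v) hz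
      have h3 : v * z ∈ Ideal.span {u} * Ideal.span {(p : 𝓞 k)} := Ideal.mul_mono_right hle h2
      rw [Ideal.span_singleton_mul_span_singleton, Ideal.mem_span_singleton] at h3
      obtain ⟨y, hy⟩ := h3
      refine ⟨y, ?_⟩
      have h4 : e (v : k) * e (z : k) = e (u : k) * p * e (y : k) := by
        have := congrArg (fun x : 𝓞 k => e (x : k)) hy
        push_cast at this
        simpa only [map_mul, map_natCast] using this
      rw [hve] at h4
      have hu : e (u : k) ≠ 0 := by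
        intro h
        exact hu0 (einj (by rw [h]; simp))
      field_simp
      apply mul_left_cancel₀ hu
      linear_combination h4
    obtain ⟨m1, m2, hm12⟩ := (hL _).1 h1
    rw [eq_div_iff hp0] at hm12
    have h5 := huniq (c1 + D * x1) (c2 + D * x2) (p * m1) (p * m2) (by
      rw [hα', ← hm12]
      push_cast
      ring)
    have h6 : IsUnit (p : ℤ) := hco.isUnit_of_dvd' ⟨m1, h5.1⟩ ⟨m2, h5.2⟩
    exact (Nat.prime_iff_prime_int.1 hp).not_isUnit h6

/-- degree one primes generate the ray classes (4.4) -/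
theorem exists_deg_one (hk : IQ k) {f : ℕ} (hf : f ≠ 0) (N0 : ℕ) {c : Ideal (𝓞 k)} (hc : Cop f c) :
    ∃ l : Multiset (Ideal (𝓞 k)), (∀ P ∈ l, P.IsPrime ∧ (Ideal.absNorm P).Prime ∧ N0 < Ideal.absNorm P ∧ Cop f P) ∧
      Req f c l.prod := by
  have hD : f * N0.factorial ≠ 0 := mul_ne_zero hf (Nat.factorial_ne_zero _)
  obtain ⟨b, hbD, hbf, hcb⟩ := exists_cop hf hD hc
  obtain ⟨b', hb'0, hbb', hprim⟩ := cp_prim hk hD hbD
  have hb'D : Cop (f * N0.factorial) b' := (req_cop hbb').1 hbD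
  have hprod : (UniqueFactorizationMonoid.normalizedFactors b').prod = b' :=
    associated_iff_eq.1 (UniqueFactorizationMonoid.prod_normalizedFactors hb'0)
  refine ⟨UniqueFactorizationMonoid.normalizedFactors b', fun P hP => ?_, ?_⟩
  · have hPp := UniqueFactorizationMonoid.prime_of_normalized_factor P hP
    have hPP : P.IsPrime := Ideal.isPrime_of_prime hPp
    have hP0 : P ≠ ⊥ := hPp.ne_zero
    have hPd : P ∣ b' := UniqueFactorizationMonoid.dvd_of_mem_normalizedFactors hP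
    have hPD : Cop (f * N0.factorial) P := by
      obtain ⟨Q, hQ⟩ := hPd
      rw [hQ] at hb'D
      exact (cop_mul.1 hb'D).1
    have hN0 : Ideal.absNorm P ≠ 0 := by
      rw [Ne, Ideal.absNorm_eq_zero_iff]
      exact hP0
    have hN1 : Ideal.absNorm P ≠ 1 := by
      rw [Ne, Ideal.absNorm_eq_one_iff]
      exact hPP.ne_top
    obtain ⟨p, hp, hpP⟩ : ∃ p : ℕ, p.Prime ∧ (p : 𝓞 k) ∈ P := by
      by_contra hcon
      push Not at hcon
      have : ∀ n : ℕ, n ≠ 0 → (n : 𝓞 k) ∉ P := by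
        intro n hn
        induction n using Nat.recOnMul with
        | zero => exact absurd rfl hn
        | one => rw [Nat.cast_one]; exact fun h => hPP.ne_top ((Ideal.eq_top_iff_one P).2 h)
        | prime p hp => exact hcon p hp
        | mul a b iha ihb =>
          rw [Nat.cast_mul]
          intro h
          rcases hPP.mem_or_mem h with h1 | h1
          · exact iha (left_ne_zero_of_mul hn) h1
          · exact ihb (right_ne_zero_of_mul hn) h1
      exact this _ hN0 (Ideal.absNorm_mem P)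
    have hpd : ¬ p ∣ f * N0.factorial := (cop_prime hp hPP hpP hP0).1 hPD
    obtain ⟨Q, hQ⟩ := Ideal.dvd_span_singleton.2 hpP
    have hnorm : Ideal.absNorm P * Ideal.absNorm Q = p ^ 2 := by
      rw [← map_mul, ← hQ, cp_norm hk]
    have hdv : Ideal.absNorm P ∣ p ^ 2 := ⟨_, hnorm.symm⟩
    obtain ⟨i, hi, hPi⟩ := (Nat.dvd_prime_pow hp).1 hdv
    have hP1 : Ideal.absNorm P = p := by
      interval_cases i
      · exact absurd (by simpa using hPi) hN1
      · simpa using hPi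
      · exfalso
        have h1 : Ideal.absNorm Q = 1 := by
          rw [hPi] at hnorm
          have h2 : 0 < p ^ 2 := pow_pos hp.pos 2
          exact Nat.eq_of_mul_eq_mul_left h2 (by rw [hnorm, mul_one])
        rw [Ideal.absNorm_eq_one_iff] at h1
        rw [h1, Ideal.mul_top] at hQ
        apply hprim p hp
        rw [hQ]
        exact Ideal.le_of_dvd hPd
    refine ⟨hPP, by rw [hP1]; exact hp, ?_, cop_dvd (dvd_mul_right _ _) hPD⟩
    rw [hP1]
    by_contra hle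
    exact hpd (((Nat.Prime.dvd_factorial hp).2 (not_lt.1 hle)).mul_left _)
  · rw [hprod]
    exact req_trans hcb (req_dvd (dvd_mul_right _ _) hbb')

end CMS
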