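import Pool.Agent.Lib.CMS.Defs
import Pool.Agent.Lib.CF3.Final

/-!
# CMS.CftExists: class field theory (the norm index inequality) for cyclic cubic extensions of
imaginary quadratic fields, in the form needed for Stark's conjecture.

The proof is `CF3.second_inequality` (directory `Lib/CF3`): a Herbrand quotient count on the finite
ray class group of `E` modulo the group `W = 1 + f^(c+1) A[G] θ`, `θ` a normal basis.
-/

namespace CMS

open NumberField

theorem finite_units_of_IQ {k : Type} [Field k] [NumberField k] (hk : IQ k) : Finite (𝓞 k)ˣ := by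
  have h1 := InfinitePlace.card_add_two_mul_card_eq_rank (K := k)
  have h2 := InfinitePlace.card_eq_nrRealPlaces_add_nrComplexPlaces (K := k)
  have h3 : InfinitePlace.nrRealPlaces k = 0 := by
    rw [NumberField.nrRealPlaces_eq_zero_iff]
    exact ⟨hk.cpx⟩
  have h4 : Units.rank k = 0 := by
    unfold Units.rank
    rw [hk.two] at h1
    omega
  have h5 : Module.finrank ℤ (Additive (𝓞 k)ˣ) = 0 := by
    rw [Units.finrank_eq, h4]
  rw [Module.finrank_eq_zero_iff_isTorsion] at h5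
  have h6 : Finite (Additive (𝓞 k)ˣ) := Module.finite_of_fg_torsion _ h5
  exact h6

/-- **the norm index inequality**, in the form of the structure `CFT`. -/
theorem cft_exists {k E : Type} [Field k] [NumberField k] [Field E] [NumberField E] [Algebra k E]
    (hk : IQ k) (hE : CycCubic k E) : ∃ (f : ℕ) (φ : Ideal (𝓞 k) → ZMod 3), CFT k E f φ := by
  classical
  have hgal := hE.gal
  obtain ⟨σ, hσ⟩ : ∃ σ : E ≃ₐ[k] E, σ ≠ 1 := by
    have hcard : Nat.card (E ≃ₐ[k] E) = 3 := by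
      rw [IsGalois.card_aut_eq_finrank, hE.three]
    have hfin : Finite (E ≃ₐ[k] E) := inferInstance
    have : Nontrivial (E ≃ₐ[k] E) := Finite.one_lt_card_iff_nontrivial.1 (by omega)
    exact exists_ne 1
  have h : CF3.Gen3 k E σ := ⟨hE.gal, hE.three, hσ⟩
  obtain ⟨f, φ, hf, h1, h2, h3, h4, h5⟩ := CF3.second_inequality h (finite_units_of_IQ hk)
  refine ⟨f, φ, ⟨hf.ne', ⟨?_, h2⟩, ?_, ?_, ?_⟩⟩
  · intro a b ha hb
    exact h1 a b ha.1 ha.2 hb.1 hb.2
  · obtain ⟨a, ha, hac, hφ⟩ := h3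
    exact ⟨a, ⟨ha, hac⟩, hφ⟩
  · rintro P hP hPc ⟨Q, Q', hQ, hQ', hne, hQP, hQP'⟩
    refine h4 P hP hPc.1 hPc.2 Q hQ hQP ?_
    intro he
    rcases h.trans P Q Q' hQ hQ' hQP hQP' with e | e | e
    · exact hne e.symm
    · exact hne (by rw [e, he])
    · exact hne (by rw [e, he, he])
  · intro p hp hpd
    obtain ⟨Q, hQ, hpQ, hQr⟩ := h5 p hp hpd
    refine ⟨Q.comap (algebraMap (𝓞 k) (𝓞 E)), hQ.comap _, ?_, Q, hQ, hQr⟩
    rw [Ideal.mem_comap, map_natCast]
    exact hpQ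

/-- **the norm index inequality** at every level `f0` divisible by the primes below the ramified ones. -/
theorem cft_level {k E : Type} [Field k] [NumberField k] [Field E] [NumberField E] [Algebra k E]
    (hk : IQ k) (hE : CycCubic k E) (f0 : ℕ) (hf0 : 0 < f0)
    (hram : ∀ p : ℕ, p.Prime → ∀ P : Ideal (𝓞 k), P.IsPrime → (p : 𝓞 k) ∈ P → RamIn E P → p ∣ f0) :
    ∃ (n : ℕ) (φ : Ideal (𝓞 k) → ZMod 3), 1 ≤ n ∧ RayChar (f0 ^ n) φ ∧
      (∃ a : Ideal (𝓞 k), Cop f0 a ∧ φ a ≠ 0) ∧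
      (∀ P : Ideal (𝓞 k), P.IsPrime → Cop f0 P → SplitsIn E P → φ P = 0) := by
  classical
  have hgal := hE.gal
  obtain ⟨σ, hσ⟩ : ∃ σ : E ≃ₐ[k] E, σ ≠ 1 := by
    have hcard : Nat.card (E ≃ₐ[k] E) = 3 := by
      rw [IsGalois.card_aut_eq_finrank, hE.three]
    have : Nontrivial (E ≃ₐ[k] E) := Finite.one_lt_card_iff_nontrivial.1 (by omega)
    exact exists_ne 1
  have h : CF3.Gen3 k E σ := ⟨hE.gal, hE.three, hσ⟩
  have hr : ∀ Q : Ideal (𝓞 E), Q.IsPrime → Q ∣ differentIdeal (𝓞 k) (𝓞 E) → (f0 : 𝓞 E) ∈ Q := by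
    intro Q hQ hQd
    have hQ0 : Q ≠ ⊥ := by
      rintro rfl
      exact differentIdeal_ne_bot (zero_dvd_iff.1 hQd)
    -- the prime number below Q
    have hn0 : Ideal.absNorm Q ≠ 0 := by rwa [Ne, Ideal.absNorm_eq_zero_iff]
    have hmem : ((Ideal.absNorm Q : ℕ) : 𝓞 E) ∈ Q := Ideal.absNorm_mem Q
    obtain ⟨p, hp, hpQ⟩ : ∃ p : ℕ, p.Prime ∧ (p : 𝓞 E) ∈ Q := by
      have key : ∀ n : ℕ, n ≠ 0 → (n : 𝓞 E) ∈ Q → ∃ p : ℕ, p.Prime ∧ (p : 𝓞 E) ∈ Q := by
        intro n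
        induction n using Nat.recOnMul with
        | zero => intro h0; exact absurd rfl h0
        | one =>
          intro _ h1
          rw [Nat.cast_one] at h1
          exact absurd ((Ideal.eq_top_iff_one Q).2 h1) hQ.ne_top
        | prime p hp => intro _ h1; exact ⟨p, hp, h1⟩
        | mul a b ha hb =>
          intro h0 h1
          rw [Nat.cast_mul] at h1
          rcases hQ.mem_or_mem h1 with h2 | h2
          · exact ha (left_ne_zero_of_mul h0) h2
          · exact hb (right_ne_zero_of_mul h0) h2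
      exact key _ hn0 hmem
    have hpP : (p : 𝓞 k) ∈ Q.comap (algebraMap (𝓞 k) (𝓞 E)) := by
      rw [Ideal.mem_comap, map_natCast]; exact hpQ
    obtain ⟨c, hc⟩ := hram p hp _ (hQ.comap _) hpP ⟨Q, hQ, h.ram Q hQ hQd⟩
    rw [hc, Nat.cast_mul]
    exact Q.mul_mem_right _ hpQ
  obtain ⟨N, φ, h1, h2, h3, h4⟩ :=
    CF3.second_inequality_level h (finite_units_of_IQ hk) f0 hf0 hr
  refine ⟨N + 1, φ, by omega, ⟨?_, h2⟩, ?_, ?_⟩
  · intro a b ha hb
    exact h1 a b ha.1 ((CF3.coprime_span_pow f0 N a).1 ha.2) hb.1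
      ((CF3.coprime_span_pow f0 N b).1 hb.2)
  · obtain ⟨a, ha, hac, hφ⟩ := h3
    exact ⟨a, ⟨ha, hac⟩, hφ⟩
  · rintro P hP hPc ⟨Q, Q', hQ, hQ', hne, hQP, hQP'⟩
    refine h4 P hP hPc.1 hPc.2 Q hQ hQP ?_
    intro he
    rcases h.trans P Q Q' hQ hQ' hQP hQP' with e | e | e
    · exact hne e.symm
    · exact hne (by rw [e, he])
    · exact hne (by rw [e, he, he])

end CMS
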