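import Pool.Agent.Lib.CMS.ADef
import Pool.Agent.Lib.MP_d9f52e_nt.GExt

/-!
# EBig: large Galois extensions of `k` inside `ℂ`  (about 120 lines)

* `exists_bigE`: `letI := e.toAlgebra` (so `ℂ` is a `k`-algebra).  The elements of `S` are algebraic over `k`.  Take
  `F = IntermediateField.adjoin k (⋃ x ∈ S, (minpoly k x).rootSet ℂ)` (finite dimensional: adjoin of a finite set of integral
  elements; normal because it is generated by the roots of polynomials that split in `ℂ`; e.g. `F` is the splitting field of the
  product of the minimal polynomials: `IsSplittingField`, `Normal.of_isSplittingField`), or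
  `F = IntermediateField.normalClosure k (IntermediateField.adjoin k S) ℂ`.  `F` is a number field (`NumberField.of_module_finite k F`),
  `jF` the inclusion.
* `res_gal`: `F / k` is normal: with `letI := (jF.comp (algebraMap k F)).toAlgebra`, `letI := jF.toAlgebra`, `t` is a `k`-algebra
  equivalence of `ℂ`; `AlgEquiv.restrictNormal` (or `AlgHom.restrictNormal`) for the `k`-algebra map `jF`.
* `factor`: `jF y = jE x` defines `y` uniquely (`jF` injective); use `RingHom.liftOfSurjective`-like constructions or: the map
  `x ↦ choose` is a ring homomorphism because `jF` is injective.  The hypothesis is needed only on a set of generators, but state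
  and prove it for all `x`.
* `gen_fin`: a finite set of algebraic numbers such that every field containing it contains `j(E)`: the images of a basis
  (`Module.finBasis ℚ E`) or of a primitive element.
-/

set_option autoImplicit false

namespace CMS

open NumberField MPd9f52e

theorem exists_bigE {k : Type} [Field k] [NumberField k] (e : k →+* ℂ) (S : Finset ℂ)
    (hS : ∀ x ∈ S, IsAlgebraic ℚ x) :
    ∃ (F : Type) (_ : Field F) (_ : NumberField F) (_ : Algebra k F) (_ : IsGalois k F) (jF : F →+* ℂ),
      (∀ x : k, jF (algebraMap k F x) = e x) ∧ ∀ x ∈ S, ∃ y, jF y = x := by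
  classical
  let : Algebra k ℂ := e.toAlgebra
  have : IsScalarTower ℚ k ℂ := IsScalarTower.of_algebraMap_eq fun x => by
    rw [eq_ratCast, eq_ratCast, map_ratCast]
  have hint : ∀ x ∈ S, IsIntegral k x := fun x hx => ((hS x hx).isIntegral).tower_top
  let p : Polynomial k := ∏ x ∈ S, minpoly k x
  have hp0 : p ≠ 0 := Finset.prod_ne_zero_iff.2 fun x hx => minpoly.ne_zero (hint x hx)
  have hsp : (p.map (algebraMap k ℂ)).Splits := IsAlgClosed.splits _
  have hsplit : p.IsSplittingField k (IntermediateField.adjoin k (p.rootSet ℂ)) :=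
    IntermediateField.adjoin_rootSet_isSplittingField hsp
  have hfd : FiniteDimensional k (IntermediateField.adjoin k (p.rootSet ℂ)) :=
    Polynomial.IsSplittingField.finiteDimensional _ p
  have hnormal : Normal k (IntermediateField.adjoin k (p.rootSet ℂ)) :=
    Normal.of_isSplittingField p
  have hnf : NumberField (IntermediateField.adjoin k (p.rootSet ℂ)) :=
    NumberField.of_module_finite k _
  have hgal : IsGalois k (IntermediateField.adjoin k (p.rootSet ℂ)) := ⟨⟩
  refine ⟨IntermediateField.adjoin k (p.rootSet ℂ), inferInstance, hnf, inferInstance, hgal,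
    algebraMap _ ℂ, fun x => rfl, fun x hx => ?_⟩
  have h1 : x ∈ p.rootSet ℂ := by
    rw [Polynomial.mem_rootSet]
    refine ⟨hp0, ?_⟩
    rw [map_prod]
    exact Finset.prod_eq_zero hx (minpoly.aeval k x)
  exact ⟨⟨x, IntermediateField.subset_adjoin k _ h1⟩, rfl⟩

/-- automorphisms of `ℂ` fixing `k` restrict to a Galois extension `F` of `k` -/
theorem res_gal {k F : Type} [Field k] [Field F] [NumberField F] [Algebra k F] [IsGalois k F] (jF : F →+* ℂ)
    (t : ℂ ≃+* ℂ) (ht : ∀ x : k, t (jF (algebraMap k F x)) = jF (algebraMap k F x)) :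
    ∃ g : F ≃ₐ[k] F, ∀ x, t (jF x) = jF (g x) := by
  let : Algebra k ℂ := (jF.comp (algebraMap k F)).toAlgebra
  let : Algebra F ℂ := jF.toAlgebra
  have : IsScalarTower k F ℂ := IsScalarTower.of_algebraMap_eq fun x => rfl
  let t' : ℂ ≃ₐ[k] ℂ := AlgEquiv.ofRingEquiv (f := t) ht
  refine ⟨t'.restrictNormal F, fun x => ?_⟩
  exact (AlgEquiv.restrictNormal_commutes t' F x).symm

/-- an embedding whose image is contained in the image of `jF` factors through `jF` -/
theorem factor {E F : Type} [Field E] [Field F] (jE : E →+* ℂ) (jF : F →+* ℂ) (h : ∀ x, ∃ y, jF y = jE x) :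
    ∃ ψ : E →+* F, ∀ x, jF (ψ x) = jE x := by
  choose f hf using h
  have h1 : f 1 = 1 := jF.injective (by rw [hf, map_one, map_one])
  have h2 : ∀ x y, f (x * y) = f x * f y := fun x y =>
    jF.injective (by rw [hf, map_mul, map_mul, hf, hf])
  have h3 : f 0 = 0 := jF.injective (by rw [hf, map_zero, map_zero])
  have h4 : ∀ x y, f (x + y) = f x + f y := fun x y =>
    jF.injective (by rw [hf, map_add, map_add, hf, hf])
  exact ⟨⟨⟨⟨f, h1⟩, h2⟩, h3, h4⟩, hf⟩

/-- finitely many algebraic numbers generate the image of a number field -/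
theorem gen_fin {E : Type} [Field E] [NumberField E] (jE : E →+* ℂ) : ∃ S : Finset ℂ, (∀ x ∈ S, IsAlgebraic ℚ x) ∧
    ∀ (F : Type) [Field F] (jF : F →+* ℂ), (∀ x ∈ S, ∃ y, jF y = x) → ∀ x, ∃ y, jF y = jE x := by
  classical
  let b := Module.finBasis ℚ E
  refine ⟨Finset.univ.image fun i => jE (b i), ?_, ?_⟩
  · intro x hx
    obtain ⟨i, -, rfl⟩ := Finset.mem_image.1 hx
    exact ((IsIntegral.of_finite ℚ (b i)).map jE.toRatAlgHom).isAlgebraic
  · intro F _ jF h x
    have h1 : jE x ∈ jF.fieldRange := by
      rw [← b.sum_repr x, map_sum]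
      refine sum_mem fun i _ => ?_
      rw [Algebra.smul_def, map_mul, eq_ratCast, map_ratCast]
      refine mul_mem ?_ ?_
      · exact RingHom.mem_fieldRange.2 ⟨(b.repr x i : F), map_ratCast jF _⟩
      · exact RingHom.mem_fieldRange.2 (h _ (Finset.mem_image_of_mem _ (Finset.mem_univ i)))
    exact RingHom.mem_fieldRange.1 h1

end CMS
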