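import Pool.Agent.Lib.CMS.Ifc
import Pool.Agent.Lib.CMS.EBig

/-!
# EBeta: the homomorphism `Gal(F / k) → ℤ/3` given by a ray character  (about 130 lines)

`S` = the set of `act_fix`.  `F / k` Galois, `jF : F → ℂ` with `S` in its image, `e = jF ∘ (k → F)`.
For `g ∈ Gal(F / k)` choose `t_g` with `t_g (jF x) = jF (g x)` (`exists_aut jF (jF.comp g)`); it fixes `e(k)`; `act_exists`: `Act e t_g f γ u_g`; `β g := φ (u_g)`.
* If `t (jF x) = jF (g x)` and `Act e t f γ u` then `φ u = β g`: `r = t_g⁻¹ t` (`t.trans t_g.symm`) fixes `jF(F)`, so it fixes `S`; let `Act e r f _ v` (`act_exists`), `Req f v ⊤` (`act_fix`);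
  `t = r.trans t_g`, `act_mul`: `Act e t f _ (v * u_g)`, `act_unique`: `Req f u (v * u_g)`, and `Req f (v * u_g) (⊤ * u_g)` (`req_mul`), `⊤ * u_g = u_g`; `ray_req`.
* `β (g * h) = β g + β h`: `t_h.trans t_g` extends `g * h` (`(g * h) x = g (h x)`), `act_mul` gives `u_h * u_g`, `RayChar.mul` (`Act.cop`), and the first point.
-/

set_option autoImplicit false

namespace CMS

open Complex NumberField MPd9f52e

theorem beta_exists {k F : Type} [Field k] [NumberField k] [Field F] [NumberField F] [Algebra k F] [IsGalois k F]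
    (hk : IQ k) {f : ℕ} (hf : 3 ≤ f) (jF : F →+* ℂ) {φ : Ideal (𝓞 k) → ZMod 3} (hφ : RayChar f φ) {S : Finset ℂ}
    (hS : ∀ t : ℂ ≃+* ℂ, (∀ x : k, t (jF (algebraMap k F x)) = jF (algebraMap k F x)) → (∀ x ∈ S, t x = x) →
      ∀ γ u, Act (jk (k := k) jF) t f γ u → Req f u ⊤)
    (hSF : ∀ x ∈ S, ∃ y, jF y = x) :
    ∃ β : (F ≃ₐ[k] F) → ZMod 3, (∀ g h, β (g * h) = β g + β h) ∧
      ∀ (t : ℂ ≃+* ℂ) (g : F ≃ₐ[k] F), (∀ x, t (jF x) = jF (g x)) →
        ∀ γ u, Act (jk (k := k) jF) t f γ u → φ u = β g := by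
  classical
  have hcoe : ∀ g : F ≃ₐ[k] F, ∃ t : ℂ ≃+* ℂ, ∀ x, t (jF x) = jF (g x) := fun g =>
    exists_aut jF (jF.comp (g : F →+* F))
  choose tg htg using hcoe
  have hfixk : ∀ (t : ℂ ≃+* ℂ) (g : F ≃ₐ[k] F), (∀ x, t (jF x) = jF (g x)) →
      ∀ x : k, t (jk (k := k) jF x) = jk (k := k) jF x := by
    intro t g h x
    show t (jF (algebraMap k F x)) = jF (algebraMap k F x)
    rw [h, g.commutes]
  have hex : ∀ g, ∃ γ u, Act (jk (k := k) jF) (tg g) f γ u := fun g =>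
    act_exists hk (hfixk _ g (htg g)) hf
  choose γg ug hug using hex
  have hmain : ∀ (t : ℂ ≃+* ℂ) (g : F ≃ₐ[k] F), (∀ x, t (jF x) = jF (g x)) →
      ∀ γ u, Act (jk (k := k) jF) t f γ u → φ u = φ (ug g) := by
    intro t g h γ u hu
    set r : ℂ ≃+* ℂ := t.trans (tg g).symm with hr
    have hrF : ∀ x, r (jF x) = jF x := by
      intro x
      show (tg g).symm (t (jF x)) = jF x
      rw [h, ← htg, RingEquiv.symm_apply_apply]
    have hre : ∀ x : k, r (jk (k := k) jF x) = jk (k := k) jF x := fun x => hrF _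
    obtain ⟨γr, v, hv⟩ := act_exists hk hre hf
    have hvt : Req f v ⊤ := hS r hre (fun x hx => by
      obtain ⟨y, rfl⟩ := hSF x hx
      exact hrF y) γr v hv
    have htr : r.trans (tg g) = t := by
      ext z
      show tg g ((tg g).symm (t z)) = t z
      rw [RingEquiv.apply_symm_apply]
    obtain ⟨γ'', h2⟩ := act_mul hv (hug g)
    rw [htr] at h2
    have h3 : Req f u (v * ug g) := act_unique hk (hfixk t g h) hf hu h2
    have h4 : Req f (v * ug g) (⊤ * ug g) := req_mul hvt (req_refl f _)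
    rw [Ideal.top_mul] at h4
    exact ray_req hφ hu.cop (req_trans h3 h4)
  refine ⟨fun g => φ (ug g), fun g h => ?_, fun t g h γ u hu => hmain t g h γ u hu⟩
  obtain ⟨γ'', h2⟩ := act_mul (hug h) (hug g)
  have h3 : ∀ x, ((tg h).trans (tg g)) (jF x) = jF ((g * h) x) := by
    intro x
    show tg g (tg h (jF x)) = _
    rw [htg, htg]
    rfl
  have h4 := hmain _ (g * h) h3 _ _ h2
  show φ (ug (g * h)) = φ (ug g) + φ (ug h)
  rw [← h4, hφ.mul _ _ (hug h).cop (hug g).cop, add_comm]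

end CMS
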