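import Pool.Agent.Lib.CMS.EFrob
import Pool.Agent.Lib.MP_ea3785_nt.WeakCheb

/-!
# ECub: every prime number is a cubic non-residue modulo arbitrarily large primes  (about 200 lines)

`k0` = a number field generated by a primitive cube root of unity `w` (`CyclotomicField 3 ℚ`), `δ` in `AlgebraicClosure k0` with `δ ^ 3 = p`, `F0 = k0(δ)`
(`IntermediateField.adjoin k0 {δ}`; or `AdjoinRoot (X ^ 3 - C p)`).  `X ^ 3 - p` is irreducible over `k0` (`X_pow_sub_C_irreducible_of_prime`: `p` is not a cube in `k0`, because `[k0 : ℚ] = 2` and `ℚ(p^{1/3})` has degree `3`; see `no_root` in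
`MP_d9f52e_nt/AIrr.lean`: `no_root` with `m = 3`, `d = p`), so there is an automorphism `g0` of `F0 / k0` with `g0 δ = w δ ≠ δ`, and `F0 / k0` is Galois.
`WeakCheb.exists_no_extension k0 F0 g0 _ (max N0 (3 * p))`: a prime `n` and `φ : 𝓞 k0 →+* ZMod n` without an extension to `𝓞 F0`.  `n ≡ 1 mod 3`: `φ(w)` is a primitive cube root of unity in `ZMod n`
(`n ∤ 3`), so `3 ∣ n - 1`.  Suppose `p = x ^ 3` in `ZMod n`.  Let `Q` be a prime of `𝓞 F0` above `ker φ`, `g` the Frobenius element (`exists_frob_at`; norm of `ker φ` is `n`): `g δ - δ ^ n ∈ Q`, `δ ^ n = δ (δ ^ 3) ^ ((n-1)/3) = δ p ^ ((n-1)/3)`, and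
`p ^ ((n-1)/3) = x ^ (n-1) = 1 mod n`, so `g δ - δ ∈ Q`; `g δ = w ^ i δ`, `(w ^ i - 1) δ ∈ Q`, `δ ∉ Q` (`δ ^ 3 = p ∉ Q`), so `w ^ i = 1` (otherwise `3 ∈ Q`).  So `g = 1`, `x ^ n = x` modulo `Q`,
`𝓞 F0 ⧸ Q ≃ ZMod n` and `φ` has an extension (as in `uniq_extend`, `equiv_of_frob` of `MP_d9f52e_nt/AUniq.lean`): contradiction.
So `p` is not a cube modulo `n`, `n ≡ 1 mod 3`.  `ψ`: `(ZMod n)ˣ` is cyclic of order `n - 1`, `ζ` an element of order `3`; `a ^ ((n-1)/3) = ζ ^ ψ(a)` defines `ψ : (ZMod n)ˣ → ZMod 3` additive, `ψ a = 0` iff `a ^ ((n-1)/3) = 1` iff `a` is a cube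
(cyclic group).  E.g. with a generator `c`: `a = c ^ l`, `ψ a = l mod 3` (well defined as `3 ∣ n - 1`; `zmultiplicesHom`/`ZMod.lift`, `IsCyclic`).
-/

set_option autoImplicit false

namespace CMS

open NumberField MPd9f52e

/-- the cubic residue symbol -/
private theorem ecub_psi {n : ℕ} (hn : n.Prime) (h3 : 3 ∣ n - 1) :
    ∃ ψ : (ZMod n)ˣ → ZMod 3, (∀ a b, ψ (a * b) = ψ a + ψ b) ∧
      ∀ a : (ZMod n)ˣ, ψ a = 0 → ∃ b : (ZMod n)ˣ, b ^ 3 = a := by
  have : Fact n.Prime := ⟨hn⟩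
  have hcyc : IsCyclic (ZMod n)ˣ := inferInstance
  have hcard : Nat.card (ZMod n)ˣ = n - 1 := by
    rw [Nat.card_eq_fintype_card, ZMod.card_units_eq_totient, Nat.totient_prime hn]
  have h3' : 3 ∣ Nat.card (ZMod n)ˣ := by rw [hcard]; exact h3
  have hne : NeZero (Nat.card (ZMod n)ˣ) := ⟨by
    rw [hcard]
    have := hn.two_le
    omega⟩
  let e := zmodCyclicMulEquiv hcyc
  refine ⟨fun a => ZMod.castHom h3' (ZMod 3) (Multiplicative.toAdd (e.symm a)), ?_, ?_⟩
  · intro a b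
    show ZMod.castHom h3' (ZMod 3) (Multiplicative.toAdd (e.symm (a * b))) = _
    rw [map_mul, toAdd_mul, map_add]
  · intro a ha
    set t : ZMod (Nat.card (ZMod n)ˣ) := Multiplicative.toAdd (e.symm a) with ht
    have ha' : ZMod.castHom h3' (ZMod 3) t = 0 := ha
    have h4 : ((t.val : ℕ) : ZMod 3) = 0 := by
      rw [ZMod.castHom_apply] at ha'
      rw [ZMod.natCast_val]
      exact ha'
    rw [ZMod.natCast_eq_zero_iff] at h4
    obtain ⟨s, hs⟩ := h4
    have ht2 : t = (3 : ℕ) • ((s : ℕ) : ZMod (Nat.card (ZMod n)ˣ)) := by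
      rw [nsmul_eq_mul, ← Nat.cast_mul, ← hs, ZMod.natCast_zmod_val]
    refine ⟨e (Multiplicative.ofAdd (s : ZMod (Nat.card (ZMod n)ˣ))), ?_⟩
    rw [← map_pow, ← ofAdd_nsmul, ← ht2, ht]
    exact e.apply_symm_apply a

section core

variable {k F : Type} [Field k] [NumberField k] [Field F] [NumberField F] [Algebra k F]

omit [NumberField k] in
/-- `3` divides `n - 1` -/
private theorem ecub_three {w : k} (hw : IsPrimitiveRoot w 3) {n : ℕ} (hn : n.Prime) (hn3 : 3 < n)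
    (φ : 𝓞 k →+* ZMod n) : 3 ∣ n - 1 := by
  have : Fact n.Prime := ⟨hn⟩
  have hw2 : w ^ 2 + w + 1 = 0 := by
    have h1 : (w - 1) * (w ^ 2 + w + 1) = 0 := by
      have := hw.pow_eq_one
      linear_combination this
    rcases mul_eq_zero.1 h1 with h | h
    · exact absurd (sub_eq_zero.1 h) (hw.ne_one (by norm_num))
    · exact h
  let W : 𝓞 k := ⟨w, hw.isIntegral (by norm_num)⟩
  have hW : W ^ 2 + W + 1 = 0 := by
    apply RingOfIntegers.ext
    show w ^ 2 + w + 1 = 0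
    exact hw2
  have h2 : φ W ^ 2 + φ W + 1 = 0 := by
    have := congrArg φ hW
    simpa using this
  have h3 : (3 : ZMod n) ≠ 0 := by
    intro h
    have h5 : ((3 : ℕ) : ZMod n) = 0 := by exact_mod_cast h
    rw [ZMod.natCast_eq_zero_iff] at h5
    exact absurd (Nat.le_of_dvd (by norm_num) h5) (by omega)
  have hne1 : φ W ≠ 1 := by
    intro h
    rw [h] at h2
    apply h3
    linear_combination h2
  have hc : φ W ^ 3 = 1 := by linear_combination (φ W - 1) * h2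
  have h0 : φ W ≠ 0 := by
    intro h
    rw [h] at hc
    norm_num at hc
  have ho : orderOf (φ W) = 3 := orderOf_eq_prime hc hne1
  rw [← ho]
  exact orderOf_dvd_of_pow_eq_one (ZMod.pow_card_sub_one_eq_one h0)

private theorem ecub_core [IsGalois k F] {w : k} (hw : IsPrimitiveRoot w 3) {δ : F} {p : ℕ}
    (hδ : δ ^ 3 = p) (hgen : ∀ g : F ≃ₐ[k] F, g δ = δ → g = 1) {n : ℕ} (hn : n.Prime)
    (hp : 0 < p) (hnp : 3 * p < n) (φ : 𝓞 k →+* ZMod n) {x : ZMod n} (hx : x ^ 3 = p) :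
    ∃ ψ : 𝓞 F →+* ZMod n, ψ.comp (algebraMap (𝓞 k) (𝓞 F)) = φ := by
  have hfact : Fact n.Prime := ⟨hn⟩
  have h31 : 3 ∣ n - 1 := ecub_three hw hn (by omega) φ
  have hsurj : Function.Surjective φ := ZMod.ringHom_surjective φ
  have hP : (RingHom.ker φ).IsPrime := RingHom.ker_isPrime φ
  have hcardP : Nat.card (𝓞 k ⧸ RingHom.ker φ) = n := by
    rw [Nat.card_congr (RingHom.quotientKerEquivOfSurjective hsurj).toEquiv, Nat.card_zmod]
  have hNP : Ideal.absNorm (RingHom.ker φ) = n := by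
    rw [Ideal.absNorm_apply, Submodule.cardQuot_apply]
    exact hcardP
  have hP0 : RingHom.ker φ ≠ ⊥ := by
    intro h
    rw [h, Ideal.absNorm_bot] at hNP
    exact hn.ne_zero hNP.symm
  obtain ⟨Q, hQ, hQP, g, hg⟩ := exists_frob (F := F) hP hP0
  rw [hNP] at hg
  have hnQ : ∀ m : ℕ, (m : 𝓞 F) ∈ Q ↔ n ∣ m := by
    intro m
    have h1 : (m : 𝓞 F) = algebraMap (𝓞 k) (𝓞 F) (m : 𝓞 k) := by rw [map_natCast]
    rw [h1, ← Ideal.mem_comap, hQP, RingHom.mem_ker, map_natCast, ZMod.natCast_eq_zero_iff]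
  have hQ0 : Q ≠ ⊥ := by
    intro h
    have h1 := (hnQ n).2 dvd_rfl
    rw [h, Ideal.mem_bot, Nat.cast_eq_zero] at h1
    exact hn.ne_zero h1
  have hδi : IsIntegral ℤ δ := by
    refine IsIntegral.of_pow (n := 3) (by norm_num) ?_
    rw [hδ]
    have h := isIntegral_algebraMap (R := ℤ) (A := F) (x := (p : ℤ))
    rwa [map_natCast] at h
  let d : 𝓞 F := ⟨δ, hδi⟩
  have hd3 : d ^ 3 = (p : 𝓞 F) := by
    apply RingOfIntegers.ext
    show δ ^ 3 = ((p : 𝓞 F) : F)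
    rw [hδ]
    simp
  have hpn : ¬ n ∣ p := fun h => absurd (Nat.le_of_dvd hp h) (by omega)
  have hdQ : d ∉ Q := by
    intro h
    have h1 : d ^ 3 ∈ Q := Ideal.pow_mem_of_mem Q h 3 (by norm_num)
    rw [hd3, hnQ] at h1
    exact hpn h1
  have hδ0 : δ ≠ 0 := by
    intro h
    rw [h] at hδ
    have h1 : (p : F) = 0 := by rw [← hδ]; norm_num
    rw [Nat.cast_eq_zero] at h1
    omega
  -- the image of `δ`
  have hgd : ∃ i < 3, g δ = (algebraMap k F w) ^ i * δ := by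
    have h1 : (g δ / δ) ^ 3 = 1 := by
      rw [div_pow, ← map_pow, hδ, map_natCast, div_self]
      rw [← hδ]
      exact pow_ne_zero 3 hδ0
    have h2 : IsPrimitiveRoot (algebraMap k F w) 3 := hw.map_of_injective (algebraMap k F).injective
    obtain ⟨i, hi, hi2⟩ := h2.eq_pow_of_pow_eq_one h1
    refine ⟨i, hi, ?_⟩
    rw [hi2, div_mul_cancel₀ _ hδ0]
  obtain ⟨i, hi3, hi⟩ := hgd
  let W : 𝓞 k := ⟨w, hw.isIntegral (by norm_num)⟩
  let V : 𝓞 F := algebraMap (𝓞 k) (𝓞 F) W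
  have hV : (V : F) = algebraMap k F w := rfl
  have hVi : ((V ^ i * d : 𝓞 F) : F) = g (d : F) := by
    show (V : F) ^ i * δ = g δ
    rw [hi, hV]
  have h1 := hg d (V ^ i * d) hVi
  have hpow : (((p ^ ((n - 1) / 3) : ℕ)) : ZMod n) = 1 := by
    rw [Nat.cast_pow, ← hx, ← pow_mul, Nat.mul_div_cancel' h31]
    refine ZMod.pow_card_sub_one_eq_one ?_
    intro h
    rw [h] at hx
    have h2 : ((p : ℕ) : ZMod n) = 0 := by rw [← hx]; norm_num
    rw [ZMod.natCast_eq_zero_iff] at h2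
    exact hpn h2
  have hpowQ : (p : 𝓞 F) ^ ((n - 1) / 3) - 1 ∈ Q := by
    have h2 : (p : 𝓞 F) ^ ((n - 1) / 3) - 1 =
        algebraMap (𝓞 k) (𝓞 F) ((p : 𝓞 k) ^ ((n - 1) / 3) - 1) := by
      rw [map_sub, map_pow, map_natCast, map_one]
    rw [h2, ← Ideal.mem_comap, hQP, RingHom.mem_ker, map_sub, map_pow, map_natCast, map_one,
      ← Nat.cast_pow, hpow, sub_self]
  have hdn : d ^ n = d * (p : 𝓞 F) ^ ((n - 1) / 3) := by
    rw [← hd3, ← pow_mul, Nat.mul_div_cancel' h31, ← pow_succ']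
    congr 1
    have := hn.two_le
    omega
  have h2 : (V ^ i - 1) * d ∈ Q := by
    have h3 : (V ^ i - 1) * d = (V ^ i * d - d ^ n) + d * ((p : 𝓞 F) ^ ((n - 1) / 3) - 1) := by
      rw [hdn]; ring
    rw [h3]
    exact Q.add_mem h1 (Q.mul_mem_left d hpowQ)
  have h3 : V ^ i - 1 ∈ Q := (hQ.mem_or_mem h2).resolve_right hdQ
  have hV2 : V ^ 2 + V + 1 = 0 := by
    have hw2 : w ^ 2 + w + 1 = 0 := by
      have h1 : (w - 1) * (w ^ 2 + w + 1) = 0 := by
        have := hw.pow_eq_one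
        linear_combination this
      rcases mul_eq_zero.1 h1 with h | h
      · exact absurd (sub_eq_zero.1 h) (hw.ne_one (by norm_num))
      · exact h
    have hW : W ^ 2 + W + 1 = 0 := by
      apply RingOfIntegers.ext
      show w ^ 2 + w + 1 = 0
      exact hw2
    have := congrArg (algebraMap (𝓞 k) (𝓞 F)) hW
    simpa using this
  have h3Q : ¬ (3 : 𝓞 F) ∈ Q := by
    intro h
    have h4 : ((3 : ℕ) : 𝓞 F) ∈ Q := by exact_mod_cast h
    rw [hnQ] at h4
    exact absurd (Nat.le_of_dvd (by norm_num) h4) (by omega)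
  have hi0 : i = 0 := by
    by_contra hne
    apply h3Q
    have h5 : i = 1 ∨ i = 2 := by omega
    rcases h5 with rfl | rfl
    · have h6 : (3 : 𝓞 F) = (V ^ 1 - 1) * (-(V + 2)) := by
        linear_combination hV2
      rw [h6]
      exact Q.mul_mem_right _ h3
    · have h6 : (3 : 𝓞 F) = (V ^ 2 - 1) * (V - 1) := by
        linear_combination (2 - V) * hV2
      rw [h6]
      exact Q.mul_mem_right _ h3
  have hg1 : g = 1 := by
    refine hgen g ?_
    rw [hi, hi0, pow_zero, one_mul]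
  -- the residue field
  have hfrob : ∀ y : 𝓞 F, y - y ^ n ∈ Q := by
    intro y
    refine hg y y ?_
    rw [hg1]
    rfl
  have hNQ : Ideal.absNorm Q ≤ n := norm_le_of_pow hQ hQ0 hn.one_lt hfrob
  have hfinQ : Finite (𝓞 F ⧸ Q) := by
    rw [← Ideal.absNorm_ne_zero_iff]
    intro h
    rw [Ideal.absNorm_eq_zero_iff] at h
    exact hQ0 h
  let f : 𝓞 k →+* 𝓞 F ⧸ Q := (Ideal.Quotient.mk Q).comp (algebraMap (𝓞 k) (𝓞 F))
  have hkerf : RingHom.ker f = RingHom.ker φ := by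
    rw [← hQP]
    ext y
    rw [RingHom.mem_ker, Ideal.mem_comap]
    exact Ideal.Quotient.eq_zero_iff_mem
  have hfs : Function.Surjective f := by
    have hinj : Function.Injective (RingHom.kerLift f) := RingHom.kerLift_injective f
    have hc : Nat.card (𝓞 F ⧸ Q) ≤ Nat.card (𝓞 k ⧸ RingHom.ker f) := by
      rw [hkerf, hcardP]
      have h7 : Nat.card (𝓞 F ⧸ Q) = Ideal.absNorm Q := by
        rw [Ideal.absNorm_apply, Submodule.cardQuot_apply]
      rw [h7]
      exact hNQ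
    have hb := hinj.bijective_of_nat_card_le hc
    intro y
    obtain ⟨z, hz⟩ := hb.2 y
    obtain ⟨u, rfl⟩ := Ideal.Quotient.mk_surjective z
    exact ⟨u, hz⟩
  refine ⟨((RingHom.liftOfSurjective f hfs) ⟨φ, hkerf.le⟩).comp (Ideal.Quotient.mk Q), ?_⟩
  rw [RingHom.comp_assoc]
  exact RingHom.liftOfSurjective_comp f hfs ⟨φ, hkerf.le⟩

end core

/-- a prime number is not a cube in the field of cube roots of unity -/
private theorem ecub_no_root {p : ℕ} (hp : p.Prime) {k : Type} [Field k] [NumberField k]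
    (hfr : Module.finrank ℚ k = 2) (ρ : k) : ρ ^ 3 ≠ (p : k) := by
  intro h
  have h1 : Algebra.norm ℚ ρ ^ 3 = (p : ℚ) ^ 2 := by
    rw [← map_pow, h]
    have h2 : ((p : ℕ) : k) = algebraMap ℚ k (p : ℚ) := by
      rw [map_natCast]
    rw [h2, Algebra.norm_algebraMap, hfr]
  have : Fact p.Prime := ⟨hp⟩
  have h3 := congrArg (padicValRat p) h1
  rw [padicValRat.pow, padicValRat.pow, padicValRat.self hp.one_lt] at h3
  omega

private theorem ecub_main {k F : Type} [Field k] [NumberField k] [Field F] [NumberField F]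
    [Algebra k F] [IsGalois k F] {w : k} (hw : IsPrimitiveRoot w 3)
    (hfr : Module.finrank ℚ k = 2) {p : ℕ} (hp : p.Prime) {δ : F} (hδ : δ ^ 3 = p)
    (hgen : ∀ g : F ≃ₐ[k] F, g δ = δ → g = 1) (N0 : ℕ) :
    ∃ n : ℕ, n.Prime ∧ N0 < n ∧ ∃ ψ : (ZMod n)ˣ → ZMod 3,
      (∀ a b, ψ (a * b) = ψ a + ψ b) ∧ ∀ a : (ZMod n)ˣ, (a : ZMod n) = p → ψ a ≠ 0 := by
  obtain ⟨g0, hg0⟩ : ∃ g : F ≃ₐ[k] F, g ≠ 1 := by
    by_contra hall
    push Not at hall
    have h1 : δ ∈ (⊥ : IntermediateField k F) := by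
      rw [IsGalois.mem_bot_iff_fixed]
      intro g
      rw [hall g]
      rfl
    obtain ⟨ρ, hρ⟩ := IntermediateField.mem_bot.1 h1
    refine ecub_no_root hp hfr ρ ?_
    apply (algebraMap k F).injective
    rw [map_pow, hρ, hδ, map_natCast]
  obtain ⟨n, hn, hlt, φ, hφ⟩ := Pool.Agent.Lib.WeakCheb.exists_no_extension k F g0 hg0 (max N0 (3 * p))
  have hN : N0 < n := (le_max_left _ _).trans_lt hlt
  have hnp : 3 * p < n := (le_max_right _ _).trans_lt hlt
  have hp2 := hp.two_le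
  have h31 : 3 ∣ n - 1 := ecub_three hw hn (by omega) φ
  obtain ⟨ψ, hψ, hψ0⟩ := ecub_psi hn h31
  refine ⟨n, hn, hN, ψ, hψ, ?_⟩
  intro a ha h0
  obtain ⟨b, hb⟩ := hψ0 a h0
  have hx : (b : ZMod n) ^ 3 = p := by
    rw [← ha, ← hb, Units.val_pow_eq_pow_val]
  obtain ⟨θ, hθ⟩ := ecub_core hw hδ hgen hn hp.pos hnp φ hx
  exact hφ θ hθ

theorem exists_cubic {p : ℕ} (hp : p.Prime) (N0 : ℕ) : ∃ n : ℕ, n.Prime ∧ N0 < n ∧ ∃ ψ : (ZMod n)ˣ → ZMod 3,
    (∀ a b, ψ (a * b) = ψ a + ψ b) ∧ ∀ a : (ZMod n)ˣ, (a : ZMod n) = p → ψ a ≠ 0 := by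
  have hne : NeZero ((3 : ℕ) : ℚ) := ⟨by norm_num⟩
  have hcyc : IsCyclotomicExtension {3} ℚ (CyclotomicField 3 ℚ) :=
    CyclotomicField.isCyclotomicExtension 3 ℚ
  have hw : IsPrimitiveRoot (IsCyclotomicExtension.zeta 3 ℚ (CyclotomicField 3 ℚ)) 3 :=
    IsCyclotomicExtension.zeta_spec 3 ℚ (CyclotomicField 3 ℚ)
  have hfr : Module.finrank ℚ (CyclotomicField 3 ℚ) = 2 := by
    rw [IsCyclotomicExtension.finrank (n := 3) (K := ℚ) (CyclotomicField 3 ℚ)
      (Polynomial.cyclotomic.irreducible_rat (by norm_num))]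
    decide
  let f : Polynomial (CyclotomicField 3 ℚ) :=
    Polynomial.X ^ 3 - Polynomial.C (p : CyclotomicField 3 ℚ)
  have hfdeg : f.degree = 3 := Polynomial.degree_X_pow_sub_C (by norm_num) _
  have hf0 : f ≠ 0 := Polynomial.X_pow_sub_C_ne_zero (by norm_num) _
  have hnf : NumberField f.SplittingField := NumberField.of_module_finite (CyclotomicField 3 ℚ) _
  have hgal : IsGalois (CyclotomicField 3 ℚ) f.SplittingField := IsGalois.mk
  obtain ⟨δ, hδ⟩ := (Polynomial.SplittingField.splits f).exists_eval_eq_zero (by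
    rw [Polynomial.degree_map, hfdeg]; norm_num)
  have hδ3 : δ ^ 3 = (p : f.SplittingField) := by
    rw [Polynomial.eval_map_algebraMap] at hδ
    simp only [f, map_sub, map_pow, Polynomial.aeval_X, map_natCast] at hδ
    exact sub_eq_zero.1 hδ
  refine ecub_main hw hfr hp hδ3 ?_ N0
  intro g hg
  have h1 : (g : f.SplittingField →ₐ[CyclotomicField 3 ℚ] f.SplittingField) =
      AlgHom.id (CyclotomicField 3 ℚ) f.SplittingField := by
    refine AlgHom.ext_of_adjoin_eq_top (Polynomial.SplittingField.adjoin_rootSet f) ?_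
    intro y hy
    have hy3 : y ^ 3 = (p : f.SplittingField) := by
      have h2 := (Polynomial.mem_rootSet.1 hy).2
      simp only [f, map_sub, map_pow, Polynomial.aeval_X, map_natCast] at h2
      exact sub_eq_zero.1 h2
    have hδ0 : δ ≠ 0 := by
      intro h
      rw [h] at hδ3
      have h2 : (p : f.SplittingField) = 0 := by rw [← hδ3]; norm_num
      exact hp.ne_zero (Nat.cast_eq_zero.1 h2)
    have h3 : (y / δ) ^ 3 = 1 := by
      rw [div_pow, hy3, ← hδ3, div_self (pow_ne_zero 3 hδ0)]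
    have h4 : IsPrimitiveRoot (algebraMap (CyclotomicField 3 ℚ) f.SplittingField
        (IsCyclotomicExtension.zeta 3 ℚ (CyclotomicField 3 ℚ))) 3 :=
      hw.map_of_injective (algebraMap (CyclotomicField 3 ℚ) f.SplittingField).injective
    obtain ⟨i, _, hi⟩ := h4.eq_pow_of_pow_eq_one h3
    have h5 : y = (algebraMap (CyclotomicField 3 ℚ) f.SplittingField
        (IsCyclotomicExtension.zeta 3 ℚ (CyclotomicField 3 ℚ))) ^ i * δ := by
      rw [hi, div_mul_cancel₀ _ hδ0]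
    show g y = y
    rw [h5, map_mul, map_pow, AlgEquiv.commutes, hg]
  ext y
  exact DFunLike.congr_fun h1 y

end CMS
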