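import Pool.Agent.Lib.CMS.EBig

/-!
# EDihA: the Galois closure of a complex cubic field  (about 250 lines)

Let `σ0 : K → ℂ` be the real embedding (the degree is odd: `InfinitePlace.nrRealPlaces_pos_of_odd_finrank`), `σ1 = σ`, `σ2 = conj ∘ σ`; these are all three embeddings (`NumberField.Embeddings.card`), they are different.
`τ : ZMod 3 → (K →+* ℂ)`, `τ 0 = σ0`, `τ 1 = σ1`, `τ 2 = σ2`, a bijection; `conj ∘ τ i = τ (-i)`.  A ring automorphism `t` of `ℂ` permutes the `τ i`: `t ∘ τ i = τ (π i)`.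
`E` : the subfield generated by the images: `E = IntermediateField.normalClosure ℚ K ℂ` (finite dimensional and normal over `ℚ`, instances), or `⨆ i, (τ i).fieldRange`; `j` = inclusion, `s i : K → E` the
codomain restriction of `τ i`.  `E` is generated by the images of the `s i` (definition of the normal closure: `AlgHom.fieldRange_le_normalClosure`, `normalClosure` is the supremum of the ranges), so `faith` holds (an automorphism of `E` that fixes all `s i x` is the identity: the fixed
field of the automorphism contains all ranges).  `perm`: `g ∘ s i` is an embedding of `K` in `E`, `j ∘ g ∘ s i` is one of the `τ`, so `g ∘ s i = s (π i)`; `π` is injective as `g` is.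
`ofperm`: the set of the `π` that occur is closed under composition; it contains the transposition `i ↦ -i` (complex conjugation restricts to `E`: `res_gal` with `k = ℚ`) and an element with `π 0 = 1` (`exists_aut (τ 0) (τ 1)` and restriction to `E`), so it is everything (`decide`: a set of permutations of `ZMod 3` closed under
composition that contains `i ↦ -i` and some `π` with `π 0 = 1` is everything; or by hand: the powers and products).
-/

set_option autoImplicit false

namespace CMS

open Complex NumberField MPd9f52e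

/-- the Galois closure without the quadratic field -/
structure Dih0 (K E : Type) [Field K] [NumberField K] [Field E] [NumberField E]
    (s : ZMod 3 → K →+* E) (j : E →+* ℂ) : Prop where
  three : Module.finrank ℚ K = 3
  gal : IsGalois ℚ E
  inj : Function.Injective s
  perm : ∀ g : E ≃+* E, ∃ π : Equiv.Perm (ZMod 3), ∀ i x, g (s i x) = s (π i) x
  ofperm : ∀ π : Equiv.Perm (ZMod 3), ∃ g : E ≃+* E, ∀ i x, g (s i x) = s (π i) x
  faith : ∀ g : E ≃+* E, (∀ i x, g (s i x) = s i x) → ∀ y, g y = y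
  conj : ∀ i x, (starRingEnd ℂ) (j (s i x)) = j (s (-i) x)

private theorem dA_perm : ∀ π ρ : Equiv.Perm (ZMod 3), π 0 = 1 →
    ρ = 1 ∨ ρ = Equiv.swap 1 2 ∨ ρ = π ∨ ρ = Equiv.swap 1 2 * π ∨ ρ = π * Equiv.swap 1 2 ∨
      ρ = Equiv.swap 1 2 * π * Equiv.swap 1 2 := by
  decide

private theorem dA_swap : ∀ i : ZMod 3, (Equiv.swap 1 2 : Equiv.Perm (ZMod 3)) i = -i := by
  decide

private theorem dA_real {K : Type} [Field K] [NumberField K] (hK : Module.finrank ℚ K = 3) :
    ∃ σ0 : K →+* ℂ, ComplexEmbedding.conjugate σ0 = σ0 := by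
  have hodd : Odd (Module.finrank ℚ K) := by
    rw [hK]
    exact ⟨1, rfl⟩
  have h1 := InfinitePlace.nrRealPlaces_pos_of_odd_finrank hodd
  obtain ⟨v⟩ : Nonempty {w : InfinitePlace K // w.IsReal} := by
    classical
    rw [← Fintype.card_pos_iff]
    convert h1
  exact ⟨v.1.embedding, ComplexEmbedding.isReal_iff.1 (InfinitePlace.isReal_iff.1 v.2)⟩

/-- the three embeddings -/
private theorem dA_tau {K : Type} [Field K] [NumberField K] (hK : Module.finrank ℚ K = 3)
    (σ : K →+* ℂ) (hσ : ¬ ∀ x, (starRingEnd ℂ) (σ x) = σ x) :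
    ∃ τ : ZMod 3 → (K →+* ℂ), Function.Bijective τ ∧ τ 1 = σ ∧
      ∀ i x, (starRingEnd ℂ) (τ i x) = τ (-i) x := by
  classical
  obtain ⟨σ0, hσ0⟩ := dA_real hK
  have hc0 : ∀ x, (starRingEnd ℂ) (σ0 x) = σ0 x := fun x => RingHom.congr_fun hσ0 x
  let σ2 : K →+* ℂ := ComplexEmbedding.conjugate σ
  have hσ2 : ∀ x, σ2 x = (starRingEnd ℂ) (σ x) := fun x => rfl
  have h01 : σ0 ≠ σ := by
    rintro rfl
    exact hσ hc0
  have h12 : σ ≠ σ2 := by
    intro h
    exact hσ fun x => (RingHom.congr_fun h x).symm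
  have h02 : σ0 ≠ σ2 := by
    intro h
    apply hσ
    intro x
    have h1 : σ0 x = (starRingEnd ℂ) (σ x) := RingHom.congr_fun h x
    have h2 := hc0 x
    rw [h1, Complex.conj_conj] at h2
    exact h2.symm
  let τ : ZMod 3 → (K →+* ℂ) := fun i => if i = 0 then σ0 else if i = 1 then σ else σ2
  have t0 : τ 0 = σ0 := by simp [τ]
  have t1 : τ 1 = σ := by
    have h : (1 : ZMod 3) ≠ 0 := by decide
    simp [τ, h]
  have t2 : τ 2 = σ2 := by
    have h : (2 : ZMod 3) ≠ 0 := by decide
    have h' : (2 : ZMod 3) ≠ 1 := by decide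
    simp [τ, h, h']
  have hz : ∀ i : ZMod 3, i = 0 ∨ i = 1 ∨ i = 2 := by decide
  have n1 : (-1 : ZMod 3) = 2 := by decide
  have n2 : (-2 : ZMod 3) = 1 := by decide
  have hinj : Function.Injective τ := by
    intro a b hab
    rcases hz a with rfl | rfl | rfl <;> rcases hz b with rfl | rfl | rfl <;>
      first
        | rfl
        | (exfalso; simp only [t0, t1, t2] at hab; first
            | exact h01 hab | exact h12 hab | exact h02 hab | exact h01 hab.symm
            | exact h12 hab.symm | exact h02 hab.symm)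
  refine ⟨τ, ?_, t1, ?_⟩
  · rw [Fintype.bijective_iff_injective_and_card]
    refine ⟨hinj, ?_⟩
    rw [NumberField.Embeddings.card, hK, ZMod.card]
  · intro i x
    rcases hz i with rfl | rfl | rfl
    · rw [neg_zero, t0]
      exact hc0 x
    · rw [n1, t1, t2, hσ2]
    · rw [n2, t1, t2, hσ2, Complex.conj_conj]

theorem exists_dih0 {K : Type} [Field K] [NumberField K] (hK : Module.finrank ℚ K = 3) (σ : K →+* ℂ)
    (hσ : ¬ ∀ x, (starRingEnd ℂ) (σ x) = σ x) :
    ∃ (E : Type) (_ : Field E) (_ : NumberField E) (s : ZMod 3 → K →+* E) (j : E →+* ℂ),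
      Dih0 K E s j ∧ ∀ x, j (s 1 x) = σ x := by
  classical
  obtain ⟨τ, hτ, hτ1, hconj⟩ := dA_tau hK σ hσ
  let E : IntermediateField ℚ ℂ := IntermediateField.normalClosure ℚ K ℂ
  have hnc : IsNormalClosure ℚ K E :=
    Algebra.IsAlgebraic.isNormalClosure_normalClosure fun x => IsAlgClosed.splits _
  have hnorm : Normal ℚ E := hnc.normal
  have hfin : FiniteDimensional ℚ E := by
    show FiniteDimensional ℚ (IntermediateField.normalClosure ℚ K ℂ)
    infer_instance
  have hgal : IsGalois ℚ E := { }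
  have hnf : NumberField E := { to_charZero := inferInstance, to_finiteDimensional := hfin }
  have hmem : ∀ i x, τ i x ∈ E := by
    intro i x
    have h1 := AlgHom.fieldRange_le_normalClosure (RingHom.toRatAlgHom (τ i))
    exact h1 ⟨x, rfl⟩
  let s : ZMod 3 → K →+* E := fun i => (τ i).codRestrict E (hmem i)
  let j : E →+* ℂ := E.val.toRingHom
  have hj : Function.Injective j := j.injective
  have hjs : ∀ i x, j (s i x) = τ i x := fun i x => rfl
  have hsinj : Function.Injective s := by
    intro a b hab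
    apply hτ.1
    ext x
    rw [← hjs, ← hjs, hab]
  have hperm : ∀ g : E ≃+* E, ∃ π : Equiv.Perm (ZMod 3), ∀ i x, g (s i x) = s (π i) x := by
    intro g
    have h1 : ∀ i, ∃ i', ∀ x, j (g (s i x)) = τ i' x := by
      intro i
      obtain ⟨i', hi'⟩ := hτ.2 ((j.comp (g : E →+* E)).comp (s i))
      exact ⟨i', fun x => (RingHom.congr_fun hi' x).symm⟩
    choose π' hπ' using h1
    have h2 : ∀ i x, g (s i x) = s (π' i) x := fun i x => hj (by rw [hπ', hjs])
    have hinj : Function.Injective π' := by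
      intro a b hab
      apply hsinj
      ext x
      have h3 : g (s a x) = g (s b x) := by rw [h2, h2, hab]
      exact congrArg _ (g.injective h3)
    exact ⟨Equiv.ofBijective π' (Finite.injective_iff_bijective.1 hinj), h2⟩
  have hres : ∀ t : ℂ ≃+* ℂ, ∃ g : E ≃+* E, ∀ x, t (j x) = j (g x) := by
    intro t
    obtain ⟨g, hg⟩ := res_gal (k := ℚ) (F := E) j t fun x => by
      rw [eq_ratCast, map_ratCast, map_ratCast]
    exact ⟨g.toRingEquiv, hg⟩
  have hcmp : ∀ π π' : Equiv.Perm (ZMod 3),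
      (∃ g : E ≃+* E, ∀ i x, g (s i x) = s (π i) x) →
      (∃ g : E ≃+* E, ∀ i x, g (s i x) = s (π' i) x) →
      ∃ g : E ≃+* E, ∀ i x, g (s i x) = s ((π * π') i) x := by
    rintro π π' ⟨g, hg⟩ ⟨g', hg'⟩
    refine ⟨g'.trans g, fun i x => ?_⟩
    show g (g' (s i x)) = s (π (π' i)) x
    rw [hg', hg]
  have hneg : ∃ g : E ≃+* E, ∀ i x, g (s i x) = s ((Equiv.swap 1 2 : Equiv.Perm (ZMod 3)) i) x := by
    obtain ⟨g, hg⟩ := hres (starRingAut : ℂ ≃+* ℂ)
    refine ⟨g, fun i x => hj ?_⟩
    rw [← hg, dA_swap, hjs, hjs]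
    exact hconj i x
  obtain ⟨π₁, hπ₁, hP₁⟩ : ∃ π : Equiv.Perm (ZMod 3), π 0 = 1 ∧
      ∃ g : E ≃+* E, ∀ i x, g (s i x) = s (π i) x := by
    obtain ⟨t, ht⟩ := exists_aut (τ 0) (τ 1)
    obtain ⟨g, hg⟩ := hres t
    obtain ⟨π, hπ⟩ := hperm g
    refine ⟨π, hsinj ?_, g, hπ⟩
    ext x
    rw [← hπ]
    apply congrArg
    apply hj
    rw [← hg, hjs, ht, hjs]
  refine ⟨E, inferInstance, hnf, s, j, ⟨hK, hgal, hsinj, hperm, ?_, ?_, ?_⟩, fun x => ?_⟩
  · intro ρ
    rcases dA_perm π₁ ρ hπ₁ with rfl | rfl | rfl | rfl | rfl | rfl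
    · exact ⟨RingEquiv.refl _, fun i x => rfl⟩
    · exact hneg
    · exact hP₁
    · exact hcmp _ _ hneg hP₁
    · exact hcmp _ _ hP₁ hneg
    · exact hcmp _ _ (hcmp _ _ hneg hP₁) hneg
  · intro g hg y
    let S : Subfield ℂ := (RingHom.eqLocusField (RingHom.id E) (g : E →+* E)).map j
    let N : IntermediateField ℚ ℂ := S.toIntermediateField fun x => by
      rw [eq_ratCast]
      exact SubfieldClass.ratCast_mem S x
    have hle : E ≤ N := by
      show IntermediateField.normalClosure ℚ K ℂ ≤ N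
      rw [normalClosure_le_iff]
      rintro f _ ⟨x, rfl⟩
      obtain ⟨i, hi⟩ := hτ.2 (f : K →+* ℂ)
      refine ⟨s i x, ?_, ?_⟩
      · show (RingHom.id E) (s i x) = g (s i x)
        rw [hg]
        rfl
      · rw [hjs, hi]
        rfl
    obtain ⟨z, hz, hzy⟩ := hle y.2
    have h1 : z = y := hj hzy
    have h2 : (RingHom.id E) z = g z := hz
    rw [h1] at h2
    exact h2.symm
  · intro i x
    rw [hjs, hjs]
    exact hconj i x
  · rw [hjs, hτ1]

end CMS
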