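import Pool.Agent.Lib.CMS.EDih
import Pool.Agent.Lib.CMS.EDihA

/-!
# EDihX: existence of the Galois closure with its quadratic field  (about 200 lines)

`exists_dih0`.  `k = IntermediateField.fixedField A` (over `ℚ`, in `E`), `A` = the subgroup of the `g : E ≃ₐ[ℚ] E` whose permutation is a shift `i ↦ i + c`.  `|Gal(E/ℚ)| = 6` (bijection with `Perm (ZMod 3)`: `perm`, `ofperm`, `faith`, `inj`), `|A| = 3`, `[E : k] = 3`
(`IntermediateField.finrank_fixedField_eq_card`), `[k : ℚ] = 2`, `E / k` Galois, `k` a number field.  `fix`: `g` fixes `k` iff `g ∈ A` (`IntermediateField.fixingSubgroup_fixedField`; a ring equivalence of `E` is a `ℚ`-algebra equivalence); the permutation of `g` is unique by `inj`.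
`iq.cpx`: a place `v` of `k`: if it were real, let `θ : k → ℂ` be its embedding (real), extend `θ` to `E → ℂ` (`ComplexEmbedding.lift E θ`): it is `j ∘ g` for a `g : E ≃ E` (`exists_aut j (lift)` and `res_gal` with `k = ℚ`); `conj ∘ j ∘ g = j ∘ c ∘ g`
with `c` the restriction of conjugation, and it agrees with `j ∘ g` on `k`: so `g⁻¹ c g` fixes `k`, `g⁻¹ c g ∈ A`, but its permutation is conjugate to `i ↦ -i`, not a shift (`decide`).
-/

set_option autoImplicit false

namespace CMS

open Complex NumberField MPd9f52e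

/-- the shifts -/
private def edA {K E : Type} [Field K] [NumberField K] [Field E] [NumberField E]
    (s : ZMod 3 → K →+* E) : Subgroup (E ≃ₐ[ℚ] E) where
  carrier := {g | ∃ c : ZMod 3, ∀ i x, g (s i x) = s (i + c) x}
  one_mem' := ⟨0, fun i x => by rw [add_zero]; rfl⟩
  mul_mem' := by
    rintro g g' ⟨c, hc⟩ ⟨c', hc'⟩
    refine ⟨c' + c, fun i x => ?_⟩
    rw [AlgEquiv.mul_apply, hc', hc, add_assoc]
  inv_mem' := by
    rintro g ⟨c, hc⟩
    refine ⟨-c, fun i x => ?_⟩
    have h : s i x = g (s (i + -c) x) := by rw [hc, neg_add_cancel_right]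
    rw [h]
    exact g.symm_apply_apply _

variable {K E : Type} [Field K] [NumberField K] [Field E] [NumberField E]
  {s : ZMod 3 → K →+* E} {j : E →+* ℂ}

private theorem ed_mem (g : E ≃ₐ[ℚ] E) : g ∈ edA s ↔ ∃ c : ZMod 3, ∀ i x, g (s i x) = s (i + c) x :=
  Iff.rfl

/-- the automorphism with a given permutation -/
private theorem ed_of (h : Dih0 K E s j) (π : Equiv.Perm (ZMod 3)) :
    ∃ g : E ≃ₐ[ℚ] E, ∀ i x, g (s i x) = s (π i) x := by
  obtain ⟨g, hg⟩ := h.ofperm π
  exact ⟨AlgEquiv.ofRingEquiv (f := g) fun q => by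
    rw [eq_ratCast (algebraMap ℚ E) q, map_ratCast], hg⟩

private theorem ed_perm (h : Dih0 K E s j) (g : E ≃ₐ[ℚ] E) :
    ∃ π : Equiv.Perm (ZMod 3), ∀ i x, g (s i x) = s (π i) x := h.perm g.toRingEquiv

private theorem ed_faith (h : Dih0 K E s j) {g g' : E ≃ₐ[ℚ] E}
    (hg : ∀ i x, g (s i x) = g' (s i x)) : g = g' := by
  have h1 := h.faith (g.trans g'.symm).toRingEquiv (fun i x => by
    change g'.symm (g (s i x)) = s i x
    rw [hg, g'.symm_apply_apply])
  refine AlgEquiv.ext fun y => ?_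
  have h2 : g'.symm (g y) = y := h1 y
  rw [← h2]
  rw [h2]
  have h3 := congrArg g' h2
  rwa [g'.apply_symm_apply] at h3

private theorem ed_inj (h : Dih0 K E s j) {i i' : ZMod 3} (hi : ∀ x, s i x = s i' x) : i = i' :=
  h.inj (RingHom.ext hi)

private theorem ed_card (h : Dih0 K E s j) : Module.finrank ℚ E = 6 := by
  have := h.gal
  rw [← IsGalois.card_aut_eq_finrank]
  choose f hf using ed_perm h
  have hb : Function.Bijective f := by
    constructor
    · intro g g' hgg
      refine ed_faith h fun i x => ?_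
      rw [hf, hf, hgg]
    · intro π
      obtain ⟨g, hg⟩ := ed_of h π
      refine ⟨g, Equiv.ext fun i => ed_inj h fun x => ?_⟩
      rw [← hf, hg]
  rw [Nat.card_congr (Equiv.ofBijective f hb), Nat.card_eq_fintype_card, Fintype.card_perm,
    ZMod.card]
  rfl

private theorem ed_cardA (h : Dih0 K E s j) : Nat.card (edA s) = 3 := by
  have h1 : ∀ g : edA s, ∃ c : ZMod 3, ∀ i x, g.1 (s i x) = s (i + c) x := fun g => g.2
  choose f hf using h1
  have hb : Function.Bijective f := by
    constructor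
    · intro g g' hgg
      refine Subtype.ext (ed_faith h fun i x => ?_)
      rw [hf, hf, hgg]
    · intro c
      obtain ⟨g, hg⟩ := ed_of h (Equiv.addRight c)
      have hg' : ∀ i x, g (s i x) = s (i + c) x := hg
      refine ⟨⟨g, c, hg'⟩, ?_⟩
      have h2 : (0 : ZMod 3) + f ⟨g, c, hg'⟩ = 0 + c := ed_inj h fun x => by
        rw [← hf ⟨g, c, hg'⟩, ← hg']
      simpa using h2
  rw [Nat.card_congr (Equiv.ofBijective f hb), Nat.card_eq_fintype_card, ZMod.card]

private theorem ed_neg (π : Equiv.Perm (ZMod 3)) (c : ZMod 3) (h : ∀ i, -π i = π (i + c)) :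
    False := by
  have h1 : ∀ i, π i = -π i := by
    intro i
    have h2 : i + c + c + c = i := by
      have h3 : ∀ c : ZMod 3, c + c + c = 0 := by decide
      rw [add_assoc, add_assoc, ← add_assoc c c c, h3 c, add_zero]
    have h4 := h (i + c + c)
    rw [h2, ← h (i + c), ← h i, neg_neg] at h4
    exact h4.symm
  have h5 := h1 (π.symm 1)
  rw [Equiv.apply_symm_apply] at h5
  revert h5
  decide

private theorem ed_fix (h : Dih0 K E s j) (g : E ≃+* E) (π : Equiv.Perm (ZMod 3))
    (hg : ∀ i x, g (s i x) = s (π i) x) :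
    (∀ x : IntermediateField.fixedField (edA s), g (algebraMap _ E x) = algebraMap _ E x) ↔
      ∃ c, ∀ i, π i = i + c := by
  let g' : E ≃ₐ[ℚ] E := AlgEquiv.ofRingEquiv (f := g) fun q => by
    rw [eq_ratCast (algebraMap ℚ E) q, map_ratCast]
  have h1 : (∀ x : IntermediateField.fixedField (edA s), g (algebraMap _ E x) = algebraMap _ E x) ↔
      g' ∈ edA s := by
    conv_rhs => rw [← IntermediateField.fixingSubgroup_fixedField (edA s)]
    rw [IntermediateField.mem_fixingSubgroup_iff]
    exact ⟨fun h2 x hx => h2 ⟨x, hx⟩, fun h2 x => h2 x.1 x.2⟩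
  rw [h1, ed_mem]
  constructor
  · rintro ⟨c, hc⟩
    refine ⟨c, fun i => ed_inj h fun x => ?_⟩
    rw [← hg, ← hc]
    rfl
  · rintro ⟨c, hc⟩
    refine ⟨c, fun i x => ?_⟩
    rw [← hc i]
    exact hg i x

private theorem ed_res (h : Dih0 K E s j) (t : ℂ ≃+* ℂ) : ∃ g : E ≃+* E, ∀ x, t (j x) = j (g x) := by
  have := h.gal
  obtain ⟨g, hg⟩ := res_gal (k := ℚ) j t (fun q => by
    rw [eq_ratCast (algebraMap ℚ E) q, map_ratCast, map_ratCast])
  exact ⟨g.toRingEquiv, hg⟩

private theorem ed_cpx (h : Dih0 K E s j)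
    (v : InfinitePlace (IntermediateField.fixedField (edA s))) : v.IsComplex := by
  by_contra hv
  rw [InfinitePlace.not_isComplex_iff_isReal, InfinitePlace.isReal_iff] at hv
  let Θ : E →+* ℂ := ComplexEmbedding.lift E v.embedding
  have hΘ : ∀ x : IntermediateField.fixedField (edA s), Θ (algebraMap _ E x) = v.embedding x :=
    fun x => ComplexEmbedding.lift_algebraMap_apply E v.embedding x
  have hr : ∀ x : IntermediateField.fixedField (edA s),
      (starRingEnd ℂ) (Θ (algebraMap _ E x)) = Θ (algebraMap _ E x) := by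
    intro x
    rw [hΘ]
    exact RingHom.congr_fun hv x
  obtain ⟨t, ht⟩ := exists_aut j Θ
  obtain ⟨g, hg⟩ := ed_res h t
  obtain ⟨c, hc⟩ := ed_res h (starRingAut : ℂ ≃+* ℂ)
  have hc' : ∀ x, (starRingEnd ℂ) (j x) = j (c x) := hc
  obtain ⟨π, hπ⟩ := h.perm g
  have hcn : ∀ i x, c (s i x) = s (-i) x := by
    intro i x
    apply j.injective
    rw [← hc', h.conj]
  -- `g⁻¹ c g` fixes `k`
  have hfix : ∀ x : IntermediateField.fixedField (edA s),
      (g.trans (c.trans g.symm)) (algebraMap _ E x) = algebraMap _ E x := by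
    intro x
    change g.symm (c (g (algebraMap _ E x))) = algebraMap _ E x
    rw [g.symm_apply_eq]
    apply j.injective
    rw [← hc', ← hg, ht, hr]
  have hperm : ∀ i x, (g.trans (c.trans g.symm)) (s i x) = s ((π.trans ((Equiv.neg _).trans π.symm)) i) x := by
    intro i x
    change g.symm (c (g (s i x))) = s (π.symm (-π i)) x
    rw [hπ, hcn, g.symm_apply_eq, hπ, Equiv.apply_symm_apply]
  obtain ⟨c', hc''⟩ := (ed_fix h _ _ hperm).1 hfix
  refine ed_neg π c' fun i => ?_
  have h2 : π.symm (-π i) = i + c' := hc'' i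
  rw [← h2, Equiv.apply_symm_apply]

theorem exists_dih {K : Type} [Field K] [NumberField K] (hK : Module.finrank ℚ K = 3) (σ : K →+* ℂ)
    (hσ : ¬ ∀ x, (starRingEnd ℂ) (σ x) = σ x) :
    ∃ (k E : Type) (_ : Field k) (_ : NumberField k) (_ : Field E) (_ : NumberField E) (_ : Algebra k E)
      (s : ZMod 3 → K →+* E) (j : E →+* ℂ), Dih K k E s j ∧ ∀ x, j (s 1 x) = σ x := by
  obtain ⟨E, hE1, hE2, s, j, h, hσ1⟩ := exists_dih0 hK σ hσ
  have hG := h.gal
  have h3 : Module.finrank (IntermediateField.fixedField (edA s)) E = 3 := by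
    rw [IntermediateField.finrank_fixedField_eq_card, ed_cardA h]
  have h2 : Module.finrank ℚ (IntermediateField.fixedField (edA s)) = 2 := by
    have h4 := Module.finrank_mul_finrank ℚ (IntermediateField.fixedField (edA s)) E
    rw [h3, ed_card h] at h4
    omega
  exact ⟨IntermediateField.fixedField (edA s), E, inferInstance, inferInstance, hE1, hE2,
    inferInstance, s, j, ⟨h.three, ⟨h2, ed_cpx h⟩, ⟨inferInstance, h3⟩, h.gal, h.inj, h.perm,
      h.ofperm, h.faith, fun g π hg => ed_fix h g π hg, h.conj⟩, hσ1⟩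

end CMS
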