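import Pool.Agent.Lib.CMS.EExact
import Pool.Agent.Lib.CMS.EDihX

/-!
# EData: the ray character of a complex cubic field  (about 180 lines)

`exists_dih hK σ hσ`: `k, E, s, j`.  `cft_exists h.iq h.cyc`: `f0, φ0`.  `R` = a nonzero natural number whose prime divisors are exactly the `p` with a ramified prime of `k` above `p` (`ram_finite`), `f = m * f0 * R`; `3 ≤ f`.
`φ0` is a `RayChar f` (`ray_dvd`), nonzero on some `Cop f` ideal: `φ0 a ≠ 0`, `Cop f0 a`, `exists_deg_one` at level `f0` with `N0 = f`: `Req f0 a l.prod`, the members of `l` are primes of norm `> f`, so `Cop f l.prod` (`cop_mul`, `cop_prime`), `φ0 l.prod = φ0 a ≠ 0`.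
`hsp` at level `f` from `CFT.split` (`cop_dvd`).  `hram` : `Cop f P` implies `¬ RamIn E P` (`p ∣ R` otherwise, `cop_prime`).
`ident` (`Z = E`, `jZ = j`, `lam` from `shift_lam`): `φ0 u = ε * lam g`.  `φ := fun a => -(ε * φ0 a)`: `RayChar f φ`, nonzero, `φ P = 0 ↔ φ0 P = 0`; `law`: `Sh s j t c` gives `lam g = c` for the restriction `g` of `t` (`res_gal`, `sh_unique`), `φ u = -(ε * (ε * c)) = -c` as `ε * ε = 1` (`decide`).
`cj`: `dih_char`.  `ex`: `exact_char` and `hsp`.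
`lev`: `p ∣ f` iff `p ∣ m` or `p ∣ f0` or `p ∣ R`; `p ∣ f0` gives a ramified prime (`CFT.ram`).
* `ram_finite`: the set of the prime numbers `p` with a `P ∋ p`, `RamIn E P` is finite: for `g ≠ 1` in `Gal(E/k)` choose `x : 𝓞 E`, `g x ≠ x`, `a = g x - x`.  If `P 𝓞_E = Q ^ 3` then `Q` is the only prime above `P`, `N Q = N P` (norms: `(N P)^3 = (N Q)^3`; `Ideal.absNorm` of the extended ideal
  is `(N P)^3`: `Ideal.absNorm_map_algebraMap`-type lemma or `relNorm`), so `𝓞 k → 𝓞 E ⧸ Q` is onto and `g` acts trivially on `𝓞 E ⧸ Q`: `a ∈ Q`, `p ∣ N(a)`.  Or use `CF3.Gen3.ram` and the different (finitely many prime divisors): see `CF3/Ram.lean`.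
-/

set_option autoImplicit false

namespace CMS

open Complex NumberField MPd9f52e

/-- the data attached to a complex cubic field `K` and to `m` -/
structure RData (K k E : Type) [Field K] [NumberField K] [Field k] [NumberField k] [Field E] [NumberField E] [Algebra k E]
    (s : ZMod 3 → K →+* E) (j : E →+* ℂ) (m f : ℕ) (φ : Ideal (𝓞 k) → ZMod 3) : Prop where
  dih : Dih K k E s j
  three_le : 3 ≤ f
  dvd : m ∣ f
  ray : RayChar f φ
  nonzero : ∃ a, Cop f a ∧ φ a ≠ 0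
  cj : ∀ a, Cop f a → φ (cjI dih.iq a) = - φ a
  ex : ∀ P : Ideal (𝓞 k), P.IsPrime → Cop f P → (φ P = 0 ↔ SplitsIn E P)
  lev : ∀ p : ℕ, p.Prime → (p ∣ f ↔ (p ∣ m ∨ ∃ P : Ideal (𝓞 k), P.IsPrime ∧ (p : 𝓞 k) ∈ P ∧ RamIn E P))
  law : ∀ (t : ℂ ≃+* ℂ) (c : ZMod 3), Sh s j t c → ∀ γ u, Act (jk (k := k) j) t f γ u → φ u = -c

theorem ram_finite {k E : Type} [Field k] [NumberField k] [Field E] [NumberField E] [Algebra k E] (hE : CycCubic k E) :
    ∃ R : ℕ, R ≠ 0 ∧ ∀ p : ℕ, p.Prime → (p ∣ R ↔ ∃ P : Ideal (𝓞 k), P.IsPrime ∧ (p : 𝓞 k) ∈ P ∧ RamIn E P) := by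
  have hgal := hE.gal
  obtain ⟨σ, hσ⟩ : ∃ σ : E ≃ₐ[k] E, σ ≠ 1 := by
    have hcard : Nat.card (E ≃ₐ[k] E) = 3 := by
      rw [IsGalois.card_aut_eq_finrank, hE.three]
    have : Nontrivial (E ≃ₐ[k] E) := Finite.one_lt_card_iff_nontrivial.1 (by omega)
    exact exists_ne 1
  have h : CF3.Gen3 k E σ := ⟨hE.gal, hE.three, hσ⟩
  obtain ⟨R, hR, h1, h2⟩ := CF3.exists_level k E
  refine ⟨R, hR.ne', fun p hp => ⟨fun hd => ?_, ?_⟩⟩
  · obtain ⟨Q, hQ, hpQ, hQd⟩ := h2 p hp hd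
    refine ⟨Q.comap (algebraMap (𝓞 k) (𝓞 E)), hQ.comap _, ?_, Q, hQ, h.ram Q hQ hQd⟩
    rw [Ideal.mem_comap, map_natCast]
    exact hpQ
  · rintro ⟨P, hP, hpP, Q, hQ, hr⟩
    have hP0 : P ≠ ⊥ := by
      rintro rfl
      rw [Ideal.mem_bot] at hpP
      exact hp.ne_zero (by exact_mod_cast hpP)
    have hPm : P.IsMaximal := hP.isMaximal hP0
    have hpQ : (p : 𝓞 E) ∈ Q := by
      have h3 : algebraMap (𝓞 k) (𝓞 E) (p : 𝓞 k) ∈ P.map (algebraMap (𝓞 k) (𝓞 E)) :=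
        Ideal.mem_map_of_mem _ hpP
      rw [map_natCast, hr] at h3
      exact Ideal.pow_le_self (by norm_num) h3
    have hQd : Q ∣ differentIdeal (𝓞 k) (𝓞 E) := by
      have h4 : Q ^ 2 ∣ differentIdeal (𝓞 k) (𝓞 E) := by
        have := pow_sub_one_dvd_differentIdeal (𝓞 k) Q 3 hP0 (by rw [hr])
        exact this
      exact (dvd_pow_self Q two_ne_zero).trans h4
    have hRQ := h1 Q hQ hQd
    by_contra hnd
    apply hQ.ne_top
    rw [Ideal.eq_top_iff_one]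
    have hcop : IsCoprime (p : ℤ) (R : ℤ) :=
      Nat.isCoprime_iff_coprime.2 ((Nat.Prime.coprime_iff_not_dvd hp).2 hnd)
    obtain ⟨a, b, hab⟩ := hcop
    have h5 := congrArg (fun z : ℤ => (z : 𝓞 E)) hab
    push_cast at h5
    rw [← h5]
    exact add_mem (Q.mul_mem_left _ hpQ) (Q.mul_mem_left _ hRQ)

private theorem ed_prod {k : Type} [Field k] [NumberField k] {f : ℕ} (hf : f ≠ 0)
    (l : Multiset (Ideal (𝓞 k))) (hl : ∀ P ∈ l, P.IsPrime ∧ (Ideal.absNorm P).Prime ∧ f < Ideal.absNorm P) :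
    Cop f l.prod := by
  induction l using Multiset.induction_on with
  | empty =>
    rw [Multiset.prod_zero, Ideal.one_eq_top]
    exact cop_top f
  | cons P l ih =>
    rw [Multiset.prod_cons, cop_mul]
    refine ⟨?_, ih fun Q hQ => hl Q (Multiset.mem_cons_of_mem hQ)⟩
    obtain ⟨h1, h2, h3⟩ := hl P (Multiset.mem_cons_self P l)
    have hP0 : P ≠ ⊥ := by
      rintro rfl
      rw [Ideal.absNorm_bot] at h3
      omega
    rw [cop_prime h2 h1 (Ideal.absNorm_mem P) hP0]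
    intro h4
    exact absurd (Nat.le_of_dvd (Nat.pos_of_ne_zero hf) h4) (not_le.2 h3)

theorem rdata_exists {K : Type} [Field K] [NumberField K] (hK : Module.finrank ℚ K = 3) (σ : K →+* ℂ)
    (hσ : ¬ ∀ x, (starRingEnd ℂ) (σ x) = σ x) {m : ℕ} (hm : 3 ≤ m) :
    ∃ (k E : Type) (_ : Field k) (_ : NumberField k) (_ : Field E) (_ : NumberField E) (_ : Algebra k E)
      (s : ZMod 3 → K →+* E) (j : E →+* ℂ) (f : ℕ) (φ : Ideal (𝓞 k) → ZMod 3),
      RData K k E s j m f φ ∧ ∀ x, j (s 1 x) = σ x := by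
  obtain ⟨k, E, i1, i2, i3, i4, i5, s, j, h, hj⟩ := exists_dih hK σ hσ
  obtain ⟨f0, φ0, hc⟩ := cft_exists h.iq h.cyc
  obtain ⟨R, hR0, hR⟩ := ram_finite h.cyc
  have hgal := h.cyc.gal
  set f := m * f0 * R with hfdef
  have hf0 : f0 ∣ f := ⟨m * R, by rw [hfdef]; ring⟩
  have hmf : m ∣ f := ⟨f0 * R, by rw [hfdef]; ring⟩
  have hf3 : 3 ≤ f := by
    have h1 : 1 ≤ f0 := Nat.pos_of_ne_zero hc.pos
    have h2 : 1 ≤ R := Nat.pos_of_ne_zero hR0
    calc 3 ≤ m := hm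
      _ = m * 1 * 1 := by ring
      _ ≤ m * f0 * R := Nat.mul_le_mul (Nat.mul_le_mul_left m h1) h2
  have hfne : f ≠ 0 := by omega
  have hray : RayChar f φ0 := ray_dvd hf0 hc.ray
  have hne : ∃ a, Cop f a ∧ φ0 a ≠ 0 := by
    obtain ⟨a, ha, ha0⟩ := hc.nonzero
    obtain ⟨l, hl, hreq⟩ := exists_deg_one h.iq hc.pos f ha
    refine ⟨l.prod, ed_prod hfne l fun P hP => ⟨(hl P hP).1, (hl P hP).2.1, (hl P hP).2.2.1⟩, ?_⟩
    rw [← ray_req hc.ray ha hreq]
    exact ha0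
  have hsp : ∀ P : Ideal (𝓞 k), P.IsPrime → Cop f P → SplitsIn E P → φ0 P = 0 :=
    fun P hP hPf hPs => hc.split P hP (cop_dvd hf0 hPf) hPs
  have hram : ∀ P : Ideal (𝓞 k), P.IsPrime → Cop f P → ¬ RamIn E P := by
    intro P hP hPf hPr
    obtain ⟨p, hp, hpP, -, -⟩ := exists_prime_mem hP hPf.1
    have h1 : p ∣ R := (hR p hp).2 ⟨P, hP, hpP, hPr⟩
    exact (cop_prime hp hP hpP hPf.1).1 hPf (h1.trans ⟨m * f0, by rw [hfdef]; ring⟩)
  obtain ⟨lam, hl, hi, hs, -⟩ := shift_lam h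
  obtain ⟨ε, hε, hid⟩ := ident h.iq h.cyc hf3 j hray hne hsp lam hl hi
  have hz : ∀ x : ZMod 3, -(ε * x) = 0 ↔ x = 0 := by
    revert hε
    clear * -
    revert ε
    decide
  have hee : ε * ε = 1 := by
    revert hε
    clear * -
    revert ε
    decide
  refine ⟨k, E, i1, i2, i3, i4, i5, s, j, f, fun a => -(ε * φ0 a), ⟨h, hf3, hmf, ⟨?_, ?_⟩, ?_, ?_, ?_, ?_, ?_⟩, hj⟩
  · intro a b ha hb
    show -(ε * φ0 (a * b)) = -(ε * φ0 a) + -(ε * φ0 b)
    rw [hray.mul a b ha hb]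
    ring
  · intro x hx hfx
    show -(ε * φ0 _) = 0
    rw [hray.prin x hx hfx, mul_zero, neg_zero]
  · obtain ⟨a, ha, ha0⟩ := hne
    exact ⟨a, ha, fun h0 => ha0 ((hz _).1 h0)⟩
  · intro a ha
    show -(ε * φ0 (cjI h.iq a)) = -(-(ε * φ0 a))
    rw [dih_char h hf3 hray hne hsp ha]
    ring
  · intro P hP hPf
    constructor
    · intro h0
      exact exact_char h hf3 hray hne hsp hram hP hPf ((hz _).1 h0)
    · intro hs'
      exact (hz _).2 (hsp P hP hPf hs')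
  · intro p hp
    constructor
    · intro hpf
      rw [hfdef] at hpf
      rcases (hp.dvd_mul).1 hpf with h1 | h1
      · rcases (hp.dvd_mul).1 h1 with h2 | h2
        · exact Or.inl h2
        · exact Or.inr (hc.ram p hp h2)
      · exact Or.inr ((hR p hp).1 h1)
    · rintro (h1 | h1)
      · exact h1.trans hmf
      · exact ((hR p hp).2 h1).trans ⟨m * f0, by rw [hfdef]; ring⟩
  · intro t c ht γ u hu
    obtain ⟨g, hg⟩ := res_gal (k := k) j t (fun x => sh_fix h ht x)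
    have h1 : Sh s j t (lam g) := by
      intro i x
      rw [hg, hs]
    have h2 : lam g = c := sh_unique h h1 ht
    show -(ε * φ0 u) = -c
    rw [hid t g hg γ u hu, h2, ← mul_assoc, hee, one_mul]

end CMS
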