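import Pool.Agent.Lib.CMS.EBig

/-!
# EDih: facts on the Galois closure of a complex cubic field  (about 150 lines)

* `perm_or`: `decide` (six permutations of `ZMod 3`).
* `shift_lam`: for `g : E ≃ₐ[k] E` let `π` be from `Dih.perm` (for `g.toRingEquiv`); by `Dih.fix` `π i = i + c`; `c` is unique (`Dih.inj`: `s (0 + c) = s (0 + c')`); `lam g = c`.  `lam g = 0` gives `g = 1` by `Dih.faith`.
  Every `c` occurs: `Dih.ofperm (Equiv.addRight c)` and `Dih.fix` (the ring equivalence fixes `k`, so it is an `AlgEquiv`).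
* `aut_perm`: `E / ℚ` is normal, so `t` restricts to a ring equivalence `g` of `E` (`res_gal` with `k = ℚ`; `t` fixes `ℚ`: `map_ratCast`), then `Dih.perm`.
* `aut_fix`: `Dih.fix` for the restriction.
* `exists_sh`: `Dih.ofperm` and `exists_aut j (j.comp g)`.
* `sh_conj`, `refl_conj`: `Dih.conj`.
-/

set_option autoImplicit false

namespace CMS

open Complex NumberField MPd9f52e

theorem perm_or (π : Equiv.Perm (ZMod 3)) : (∃ c, ∀ i, π i = i + c) ∨ ∃ c, ∀ i, π i = c - i := by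
  revert π
  decide

theorem not_both (c c' : ZMod 3) (h : ∀ i : ZMod 3, i + c = c' - i) : False := by
  revert c c'
  decide

variable {K k E : Type} [Field K] [NumberField K] [Field k] [NumberField k] [Field E] [NumberField E] [Algebra k E]
  {s : ZMod 3 → K →+* E} {j : E →+* ℂ}

theorem shift_lam (h : Dih K k E s j) : ∃ lam : (E ≃ₐ[k] E) → ZMod 3, (∀ g g', lam (g * g') = lam g + lam g') ∧
    (∀ g, lam g = 0 → g = 1) ∧ (∀ g i x, g (s i x) = s (i + lam g) x) ∧ ∀ c, ∃ g, lam g = c := by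
  have key : ∀ g : E ≃ₐ[k] E, ∃ c : ZMod 3, ∀ i x, g (s i x) = s (i + c) x := by
    intro g
    obtain ⟨π, hπ⟩ := h.perm g.toRingEquiv
    obtain ⟨c, hc⟩ := (h.fix g.toRingEquiv π hπ).1 fun x => g.commutes x
    refine ⟨c, fun i x => ?_⟩
    rw [← hc i]
    exact hπ i x
  have huniq : ∀ c c' : ZMod 3, (∀ x, s c x = s c' x) → c = c' := fun c c' hcc =>
    h.inj (RingHom.ext hcc)
  choose lam hlam using key
  refine ⟨lam, ?_, ?_, hlam, ?_⟩
  · intro g g'
    have h1 : ∀ x, s (0 + lam (g * g')) x = s (0 + lam g' + lam g) x := by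
      intro x
      rw [← hlam, ← hlam, ← hlam]
      rfl
    have h2 := huniq _ _ h1
    rw [zero_add, zero_add] at h2
    rw [h2, add_comm]
  · intro g hg
    apply AlgEquiv.ext
    intro y
    exact h.faith g.toRingEquiv (fun i x => by
      have h1 := hlam g i x
      rw [hg, add_zero] at h1
      exact h1) y
  · intro c
    obtain ⟨g, hg⟩ := h.ofperm (Equiv.addRight c)
    have hfix := (h.fix g _ hg).2 ⟨c, fun i => rfl⟩
    refine ⟨AlgEquiv.ofRingEquiv (f := g) hfix, ?_⟩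
    apply huniq
    intro x
    have h1 := hlam (AlgEquiv.ofRingEquiv (f := g) hfix) 0 x
    have h2 := hg 0 x
    rw [zero_add] at h1
    rw [← h1]
    have h3 : (Equiv.addRight c) (0 : ZMod 3) = c := by simp
    rw [h3] at h2
    exact h2

private theorem dih_res (h : Dih K k E s j) (t : ℂ ≃+* ℂ) : ∃ g : E ≃+* E, ∀ x, t (j x) = j (g x) := by
  have := h.gal
  obtain ⟨g, hg⟩ := res_gal (k := ℚ) j t (fun x => by
    rw [eq_ratCast, map_ratCast, map_ratCast])
  exact ⟨g.toRingEquiv, hg⟩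

theorem aut_perm (h : Dih K k E s j) (t : ℂ ≃+* ℂ) : ∃ π : Equiv.Perm (ZMod 3), ∀ i x, t (j (s i x)) = j (s (π i) x) := by
  obtain ⟨g, hg⟩ := dih_res h t
  obtain ⟨π, hπ⟩ := h.perm g
  exact ⟨π, fun i x => by rw [hg, hπ]⟩

theorem aut_fix (h : Dih K k E s j) (t : ℂ ≃+* ℂ) {π : Equiv.Perm (ZMod 3)}
    (hπ : ∀ i x, t (j (s i x)) = j (s (π i) x)) :
    (∀ x : k, t (j (algebraMap k E x)) = j (algebraMap k E x)) ↔ ∃ c, ∀ i, π i = i + c := by
  obtain ⟨g, hg⟩ := dih_res h t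
  have h1 : ∀ i x, g (s i x) = s (π i) x := by
    intro i x
    apply j.injective
    rw [← hg, hπ]
  rw [← h.fix g π h1]
  refine forall_congr' fun x => ?_
  rw [hg]
  exact j.injective.eq_iff

/-- an automorphism that fixes `k` shifts the conjugates of `K` -/
theorem sh_of_fix (h : Dih K k E s j) (t : ℂ ≃+* ℂ)
    (ht : ∀ x : k, t (j (algebraMap k E x)) = j (algebraMap k E x)) : ∃ c, Sh s j t c := by
  obtain ⟨π, hπ⟩ := aut_perm h t
  obtain ⟨c, hc⟩ := (aut_fix h t hπ).1 ht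
  exact ⟨c, fun i x => by rw [hπ, hc]⟩

/-- an automorphism that does not fix `k` is a reflection -/
theorem refl_of_not_fix (h : Dih K k E s j) (t : ℂ ≃+* ℂ)
    (ht : ¬ ∀ x : k, t (j (algebraMap k E x)) = j (algebraMap k E x)) :
    ∃ c, ∀ i x, t (j (s i x)) = j (s (c - i) x) := by
  obtain ⟨π, hπ⟩ := aut_perm h t
  rcases perm_or π with ⟨c, hc⟩ | ⟨c, hc⟩
  · exact absurd ((aut_fix h t hπ).2 ⟨c, hc⟩) ht
  · exact ⟨c, fun i x => by rw [hπ, hc]⟩

theorem sh_fix (h : Dih K k E s j) {t : ℂ ≃+* ℂ} {c : ZMod 3} (ht : Sh s j t c) (x : k) :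
    t (j (algebraMap k E x)) = j (algebraMap k E x) := by
  have h1 : ∀ i x, t (j (s i x)) = j (s ((Equiv.addRight c) i) x) := ht
  exact (aut_fix h t h1).2 ⟨c, fun i => rfl⟩ x

theorem sh_unique (h : Dih K k E s j) {t : ℂ ≃+* ℂ} {c c' : ZMod 3} (ht : Sh s j t c) (ht' : Sh s j t c') : c = c' := by
  apply h.inj
  apply RingHom.ext
  intro x
  apply j.injective
  have h1 := ht 0 x
  have h2 := ht' 0 x
  rw [zero_add] at h1 h2
  rw [← h1, ← h2]

theorem sh_zero (h : Dih K k E s j) {t : ℂ ≃+* ℂ} (ht : Sh s j t 0) (x : E) : t (j x) = j x := by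
  obtain ⟨g, hg⟩ := dih_res h t
  rw [hg]
  congr 1
  apply h.faith g
  intro i x
  apply j.injective
  rw [← hg, ht i x, add_zero]

theorem exists_sh (h : Dih K k E s j) (c : ZMod 3) : ∃ t, Sh s j t c := by
  obtain ⟨g, hg⟩ := h.ofperm (Equiv.addRight c)
  obtain ⟨t, ht⟩ := exists_aut j (j.comp (g : E →+* E))
  refine ⟨t, fun i x => ?_⟩
  rw [ht]
  exact congrArg j (hg i x)

theorem sh_trans {t t' : ℂ ≃+* ℂ} {c c' : ZMod 3} (ht : Sh s j t c) (ht' : Sh s j t' c') :
    Sh s j (t.trans t') (c + c') := by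
  intro i x
  rw [RingEquiv.trans_apply, ht i x, ht' (i + c) x, add_assoc]

theorem sh_symm {t : ℂ ≃+* ℂ} {c : ZMod 3} (ht : Sh s j t c) : Sh s j t.symm (-c) := by
  intro i x
  rw [RingEquiv.symm_apply_eq, ht (i + -c) x, neg_add_cancel_right]

theorem sh_conj (h : Dih K k E s j) {t : ℂ ≃+* ℂ} {c : ZMod 3} (ht : Sh s j t c) :
    Sh s j ((cj.trans t).trans cj) (-c) := by
  intro i x
  rw [RingEquiv.trans_apply, RingEquiv.trans_apply]
  have h1 : ∀ i x, cj (j (s i x)) = j (s (-i) x) := h.conj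
  rw [h1, ht (-i) x, h1]
  congr 2
  ring_nf

theorem refl_conj (h : Dih K k E s j) {t : ℂ ≃+* ℂ} {c : ZMod 3} (ht : ∀ i x, t (j (s i x)) = j (s (c - i) x)) :
    Sh s j (t.trans cj) (-c) := by
  intro i x
  rw [RingEquiv.trans_apply]
  have h1 : ∀ i x, cj (j (s i x)) = j (s (-i) x) := h.conj
  rw [ht, h1]
  congr 2
  ring_nf

end CMS
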