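import Pool.Agent.Lib.CMS.ADef

/-!
# EFrob: Frobenius elements

* `exists_frob`, `exists_frob_at`: Mathlib's `IsArithFrobAt.exists_of_isInvariant`.
* `norm_comap`: Lagrange for the injection of residue rings.
* `frob_one`, `norm_le_of_pow`, `exists_prime_mem`: the residue field is finite.
* `frob_zeta`: the proof of Mathlib's `AlgHom.IsArithFrobAt.apply_of_pow_eq_one` for an arbitrary exponent.
-/

set_option autoImplicit false

namespace CMS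

open NumberField MPd9f52e

variable {k F : Type} [Field k] [NumberField k] [Field F] [NumberField F] [Algebra k F]

private theorem smulComm' : SMulCommClass (F ≃ₐ[k] F) (𝓞 k) (𝓞 F) := by
  constructor
  intro σ a x
  rw [Algebra.smul_def, Algebra.smul_def, smul_mul']
  congr 1
  apply RingOfIntegers.ext
  show σ (algebraMap k F (a : k)) = algebraMap k F (a : k)
  exact σ.commutes _

/-- the same for a given prime `Q` -/
theorem exists_frob_at [IsGalois k F] {Q : Ideal (𝓞 F)} (hQ : Q.IsPrime) (hQ0 : Q ≠ ⊥) :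
    ∃ g : F ≃ₐ[k] F, ∀ x y : 𝓞 F, (y : F) = g x →
      y - x ^ Ideal.absNorm (Q.comap (algebraMap (𝓞 k) (𝓞 F))) ∈ Q := by
  have : SMulCommClass (F ≃ₐ[k] F) (𝓞 k) (𝓞 F) := smulComm'
  have : Finite (𝓞 F ⧸ Q) := Ideal.finiteQuotientOfFreeOfNeBot Q hQ0
  obtain ⟨σ, hσ⟩ := IsArithFrobAt.exists_of_isInvariant (𝓞 k) (F ≃ₐ[k] F) Q
  refine ⟨σ, fun x y hxy => ?_⟩
  have hcard : Nat.card (𝓞 k ⧸ Q.under (𝓞 k)) = Ideal.absNorm (Q.comap (algebraMap (𝓞 k) (𝓞 F))) := by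
    rw [Ideal.absNorm_apply]
    rfl
  have h4 := hσ x
  rw [hcard] at h4
  have h5 : y = σ • x := by
    apply RingOfIntegers.ext
    rw [hxy]
    rfl
  rw [h5]
  exact h4

/-- existence of Frobenius elements -/
theorem exists_frob [IsGalois k F] {P : Ideal (𝓞 k)} (hP : P.IsPrime) (hP0 : P ≠ ⊥) :
    ∃ Q : Ideal (𝓞 F), Q.IsPrime ∧ Q.comap (algebraMap (𝓞 k) (𝓞 F)) = P ∧
      ∃ g : F ≃ₐ[k] F, ∀ x y : 𝓞 F, (y : F) = g x → y - x ^ Ideal.absNorm P ∈ Q := by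
  obtain ⟨Q, -, hQ, hQP⟩ := Ideal.exists_ideal_over_prime_of_isIntegral (S := 𝓞 F) P ⊥ (by
    rw [Ideal.comap_bot_of_injective _ (FaithfulSMul.algebraMap_injective (𝓞 k) (𝓞 F))]
    exact bot_le)
  have hQ0 : Q ≠ ⊥ := by
    rintro rfl
    apply hP0
    rw [← hQP]
    exact Ideal.comap_bot_of_injective _ (FaithfulSMul.algebraMap_injective (𝓞 k) (𝓞 F))
  obtain ⟨g, hg⟩ := exists_frob_at (k := k) hQ hQ0
  rw [hQP] at hg
  exact ⟨Q, hQ, hQP, g, hg⟩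

/-- the prime below a prime of degree one has the same norm -/
theorem norm_comap {Q : Ideal (𝓞 F)} (hQ : Q.IsPrime) {q : ℕ} (hq : q.Prime) (h : Ideal.absNorm Q = q) :
    Ideal.absNorm (Q.comap (algebraMap (𝓞 k) (𝓞 F))) = q := by
  have h1 : Ideal.absNorm (Q.comap (algebraMap (𝓞 k) (𝓞 F))) ∣ Ideal.absNorm Q := by
    rw [Ideal.absNorm_apply, Ideal.absNorm_apply]
    exact AddSubgroup.card_dvd_of_injective
      (Ideal.quotientMap Q (algebraMap (𝓞 k) (𝓞 F)) le_rfl).toAddMonoidHom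
      (Ideal.quotientMap_injective (I := Q) (f := algebraMap (𝓞 k) (𝓞 F)))
  rw [h] at h1
  rcases (Nat.dvd_prime hq).1 h1 with h2 | h2
  · exfalso
    rw [Ideal.absNorm_eq_one_iff] at h2
    exact (hQ.comap (algebraMap (𝓞 k) (𝓞 F))).ne_top h2
  · exact h2

/-- Fermat's little theorem modulo a prime ideal -/
theorem frob_one {P : Ideal (𝓞 k)} (hP : P.IsPrime) (hP0 : P ≠ ⊥) (x : 𝓞 k) : x - x ^ Ideal.absNorm P ∈ P := by
  have hmax : P.IsMaximal := hP.isMaximal hP0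
  letI : Field (𝓞 k ⧸ P) := Ideal.Quotient.field P
  have : Finite (𝓞 k ⧸ P) := Ideal.finiteQuotientOfFreeOfNeBot P hP0
  letI : Fintype (𝓞 k ⧸ P) := Fintype.ofFinite _
  have h1 := FiniteField.pow_card (Ideal.Quotient.mk P x)
  have h2 : Fintype.card (𝓞 k ⧸ P) = Ideal.absNorm P := by
    rw [Ideal.absNorm_apply, ← Nat.card_eq_fintype_card]
    rfl
  rw [h2, ← map_pow] at h1
  exact Ideal.Quotient.eq.1 h1.symm

/-- a prime modulo which `x ^ q = x` has norm at most `q` -/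
theorem norm_le_of_pow {Q : Ideal (𝓞 F)} (hQ : Q.IsPrime) (hQ0 : Q ≠ ⊥) {q : ℕ} (hq : 1 < q)
    (h : ∀ x : 𝓞 F, x - x ^ q ∈ Q) : Ideal.absNorm Q ≤ q := by
  have hmax : Q.IsMaximal := hQ.isMaximal hQ0
  letI : Field (𝓞 F ⧸ Q) := Ideal.Quotient.field Q
  have : Finite (𝓞 F ⧸ Q) := Ideal.finiteQuotientOfFreeOfNeBot Q hQ0
  letI : Fintype (𝓞 F ⧸ Q) := Fintype.ofFinite _
  have h2 : Fintype.card (𝓞 F ⧸ Q) = Ideal.absNorm Q := by
    rw [Ideal.absNorm_apply, ← Nat.card_eq_fintype_card]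
    rfl
  rw [← h2]
  have hne : (Polynomial.X ^ q - Polynomial.X : Polynomial (𝓞 F ⧸ Q)) ≠ 0 :=
    FiniteField.X_pow_card_sub_X_ne_zero _ hq
  have h3 : (Finset.univ : Finset (𝓞 F ⧸ Q)).val ⊆
      (Polynomial.X ^ q - Polynomial.X : Polynomial (𝓞 F ⧸ Q)).roots := by
    intro y _
    rw [Polynomial.mem_roots hne]
    obtain ⟨x, rfl⟩ := Ideal.Quotient.mk_surjective y
    have h4 := Ideal.Quotient.eq.2 (h x)
    rw [map_pow] at h4
    simp [Polynomial.IsRoot, ← h4]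
  have h4 := Polynomial.card_le_degree_of_subset_roots h3
  rw [FiniteField.X_pow_card_sub_X_natDegree_eq _ hq] at h4
  exact h4

/-- a nonzero prime ideal contains exactly one prime number -/
theorem exists_prime_mem {P : Ideal (𝓞 k)} (hP : P.IsPrime) (hP0 : P ≠ ⊥) :
    ∃ p : ℕ, p.Prime ∧ (p : 𝓞 k) ∈ P ∧ (∃ d : ℕ, 1 ≤ d ∧ Ideal.absNorm P = p ^ d) ∧
      ∀ n : ℕ, (n : 𝓞 k) ∈ P ↔ p ∣ n := by
  have hmax : P.IsMaximal := hP.isMaximal hP0
  letI : Field (𝓞 k ⧸ P) := Ideal.Quotient.field P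
  have : Finite (𝓞 k ⧸ P) := Ideal.finiteQuotientOfFreeOfNeBot P hP0
  letI : Fintype (𝓞 k ⧸ P) := Fintype.ofFinite _
  obtain ⟨p, hchar⟩ := CharP.exists (𝓞 k ⧸ P)
  obtain ⟨d, hp, hd⟩ := FiniteField.card (𝓞 k ⧸ P) p
  have h2 : Fintype.card (𝓞 k ⧸ P) = Ideal.absNorm P := by
    rw [Ideal.absNorm_apply, ← Nat.card_eq_fintype_card]
    rfl
  have hn : ∀ n : ℕ, (n : 𝓞 k) ∈ P ↔ p ∣ n := by
    intro n
    rw [← Ideal.Quotient.eq_zero_iff_mem, map_natCast]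
    exact CharP.cast_eq_zero_iff (𝓞 k ⧸ P) p n
  exact ⟨p, hp, (hn p).2 dvd_rfl, ⟨d, d.2, by rw [← h2, hd]⟩, hn⟩

/-- the action of a Frobenius element on roots of unity -/
theorem frob_zeta {Q : Ideal (𝓞 F)} (hQ : Q.IsPrime) {n q : ℕ} (hn : 0 < n) (hnQ : (n : 𝓞 F) ∉ Q) {ζ : F}
    (hζ : ζ ^ n = 1) (g : F ≃+* F) (hg : ∀ x y : 𝓞 F, (y : F) = g x → y - x ^ q ∈ Q) : g ζ = ζ ^ q := by
  let φ : 𝓞 F →+* 𝓞 F := NumberField.RingOfIntegers.mapRingHom (g : F →+* F)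
  have hφ : ∀ x : 𝓞 F, ((φ x : 𝓞 F) : F) = g x := fun x => rfl
  have H : ∀ x, φ x - x ^ q ∈ Q := fun x => hg x (φ x) (hφ x)
  obtain ⟨z, hz, hzn⟩ : ∃ z : 𝓞 F, (z : F) = ζ ∧ z ^ n = 1 := by
    refine ⟨⟨ζ, ?_⟩, rfl, ?_⟩
    · refine ⟨Polynomial.X ^ n - 1, Polynomial.monic_X_pow_sub_C 1 hn.ne', ?_⟩
      simp [hζ]
    · apply RingOfIntegers.ext
      show ζ ^ n = 1
      exact hζ
  have key : φ z = z ^ q := by
    obtain ⟨k', hk, hζ'⟩ := IsPrimitiveRoot.exists_pos hzn hn.ne'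
    have hk' : (k' : 𝓞 F) ∉ Q := fun h => hnQ (Q.mem_of_dvd (Nat.cast_dvd_cast (hζ'.2 n hzn)) h)
    have : NeZero k' := ⟨hk.ne'⟩
    obtain ⟨i, hi, e⟩ := hζ'.eq_pow_of_pow_eq_one (ξ := φ z) (by rw [← map_pow, hζ'.1, map_one])
    have h1 : ∀ j : ℕ, 1 - z ^ ((q + k' - i) * j) ∈ Q := by
      intro j
      rw [← Ideal.mul_unit_mem_iff_mem _ ((hζ'.isUnit NeZero.out).pow (i * j)),
        sub_mul, one_mul, ← pow_add, ← add_mul, tsub_add_cancel_of_le (by omega), add_mul,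
          pow_add, pow_mul _ k', hζ'.1, one_pow, mul_one, pow_mul, e, ← map_pow, mul_comm, pow_mul]
      exact H _
    have h₁ := sum_mem (t := Finset.range k') fun j _ => h1 j
    have h₂ := geom_sum_mul (z ^ (q + k' - i)) k'
    rw [pow_right_comm, hζ'.1, one_pow, sub_self, mul_eq_zero, sub_eq_zero] at h₂
    rcases h₂ with h₂ | h₂
    · simp [h₂, pow_mul, hk'] at h₁
    replace h₂ := congrArg (fun t => t * z ^ i) h₂
    beta_reduce at h₂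
    rw [one_mul, ← pow_add, tsub_add_cancel_of_le (by omega), pow_add, hζ'.1, mul_one] at h₂
    rw [h₂, e]
  have h3 := congrArg (fun t : 𝓞 F => (t : F)) key
  have h4 : g (z : F) = (z : F) ^ q := h3
  rw [hz] at h4
  exact h4

end CMS
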