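import Pool.Agent.Lib.CMS.Ifc
import Pool.Agent.Lib.CMS.EFrob

/-!
# ESurj: every ray class is the class of an automorphism  (about 80 lines)

`frob_lift` for `F = k` (`IsGalois k k`), `jF = e`, `g = 1`, `Q = P` (`Ideal.comap` of `algebraMap (𝓞 k) (𝓞 k) = id`), Frobenius condition `frob_one`: for `q = N P` prime, large, there are `t` fixing `e(k)` and
`Act e t f γ u`, `Req f u P` (`e.comp (algebraMap k k) = e`).  `exists_deg_one hk _ N0 ha`: `Req f a l.prod`; induction over the multiset `l` (`act_refl` for the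
empty one: `Multiset.prod 0 = 1 = ⊤`; `act_mul`, `req_mul` for `P ::ₘ l`).
-/

set_option autoImplicit false

namespace CMS

open Complex NumberField MPd9f52e

theorem act_surj {k : Type} [Field k] [NumberField k] (hk : IQ k) (e : k →+* ℂ) {f : ℕ} (hf : 3 ≤ f)
    {a : Ideal (𝓞 k)} (ha : Cop f a) :
    ∃ (t : ℂ ≃+* ℂ) (γ : ℂ) (u : Ideal (𝓞 k)), (∀ x, t (e x) = e x) ∧ Act e t f γ u ∧ Req f u a := by
  classical
  obtain ⟨N0, hN0⟩ := frob_lift hk hf k e
  have hec : e.comp (algebraMap k k) = e := by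
    ext x
    rfl
  rw [hec] at hN0
  have key : ∀ l : Multiset (Ideal (𝓞 k)), (∀ P ∈ l, P.IsPrime ∧ (Ideal.absNorm P).Prime ∧
      N0 < Ideal.absNorm P ∧ Cop f P) → ∃ (t : ℂ ≃+* ℂ) (γ : ℂ) (u : Ideal (𝓞 k)),
        (∀ x, t (e x) = e x) ∧ Act e t f γ u ∧ Req f u l.prod := by
    intro l
    induction l using Multiset.induction_on with
    | empty =>
      intro _
      refine ⟨RingEquiv.refl ℂ, 1, ⊤, fun x => rfl, act_refl (by omega), ?_⟩
      rw [Multiset.prod_zero, Ideal.one_eq_top]
      exact req_refl f _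
    | cons P l ih =>
      intro hl
      obtain ⟨t', γ', u', ht', hA', hR'⟩ := ih fun Q hQ => hl Q (Multiset.mem_cons_of_mem hQ)
      obtain ⟨hP, hq, hq0, -⟩ := hl P (Multiset.mem_cons_self P l)
      have hP0 : P ≠ ⊥ := by
        rintro rfl
        rw [Ideal.absNorm_bot] at hq
        exact Nat.not_prime_zero hq
      have hcomap : P.comap (algebraMap (𝓞 k) (𝓞 k)) = P := by
        ext x
        rw [Ideal.mem_comap]
        exact Iff.rfl
      obtain ⟨t, ht, γ, u, hA, hR⟩ := hN0 _ hq hq0 P hP rfl P hP hcomap 1 (by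
        intro x y hxy
        have h1 : y = x := by
          apply RingOfIntegers.ext
          exact hxy
        rw [h1]
        exact frob_one hP hP0 x)
      obtain ⟨γ'', hA''⟩ := act_mul hA hA'
      refine ⟨t.trans t', γ'', u * u', fun x => ?_, hA'', ?_⟩
      · have h2 : t (e x) = e x := ht x
        rw [RingEquiv.trans_apply, h2, ht']
      · rw [Multiset.prod_cons]
        exact req_mul hR hR'
  obtain ⟨l, hl, hal⟩ := exists_deg_one hk (by omega : f ≠ 0) N0 ha
  obtain ⟨t, γ, u, ht, hA, hR⟩ := key l hl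
  exact ⟨t, γ, u, ht, hA, req_trans hR (req_symm hal)⟩

end CMS
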