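import Pool.Agent.Lib.CMS.EId0
import Pool.Agent.Lib.CMS.ESurj

/-!
# EId: the law for a cyclic cubic extension `Z / k`  (about 150 lines)

Paper 4.5, second half.  `e = jk jZ`.
* For `g : Z ≃ₐ[k] Z` choose `t_g` with `t_g (jZ x) = jZ (g x)` (`exists_aut`), `Act e t_g f γ_g u_g` (`act_exists`; `t_g` fixes `e(k)`), `β g := φ u_g`.
* If `t (jZ x) = jZ (g x)` and `Act e t f γ u` then `φ u = β g`: `r = t.trans t_g.symm` fixes `jZ(Z)`, `Act e r f _ v`, `φ v = 0` (`ident_zero`), `t = r.trans t_g`, `act_mul`, `act_unique`, `ray_req`, `RayChar.mul`.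
* `β` is additive (as in `beta_exists`).
* `lam` is injective and `Gal(Z / k)` has three elements, so `lam` is bijective; let `lam g1 = 1`, `ε = β g1`.  Every `g` is a power of `g1`: `β g = ε * lam g` (`g = g1 ^ n`, `lam g = n`, `β g = n β g1`).
* `ε ≠ 0`: otherwise `φ u = 0` for all `t` fixing `e(k)` with `Act e t f γ u` (`res_gal jZ t`), and by `act_surj` and `ray_req` `φ a = 0` for all `a` with `Cop f a`: contradiction to `hne`.
-/

set_option autoImplicit false

namespace CMS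

open Complex NumberField MPd9f52e

theorem ident {k Z : Type} [Field k] [NumberField k] [Field Z] [NumberField Z] [Algebra k Z] (hk : IQ k)
    (hZ : CycCubic k Z) {f : ℕ} (hf : 3 ≤ f) (jZ : Z →+* ℂ) {φ : Ideal (𝓞 k) → ZMod 3} (hφ : RayChar f φ)
    (hne : ∃ a, Cop f a ∧ φ a ≠ 0)
    (hsp : ∀ P : Ideal (𝓞 k), P.IsPrime → Cop f P → SplitsIn Z P → φ P = 0)
    (lam : (Z ≃ₐ[k] Z) → ZMod 3) (hl : ∀ g g', lam (g * g') = lam g + lam g') (hi : ∀ g, lam g = 0 → g = 1) :
    ∃ ε : ZMod 3, ε ≠ 0 ∧ ∀ (t : ℂ ≃+* ℂ) (g : Z ≃ₐ[k] Z), (∀ x, t (jZ x) = jZ (g x)) →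
      ∀ γ u, Act (jk (k := k) jZ) t f γ u → φ u = ε * lam g := by
  have := hZ.gal
  have hfin : FiniteDimensional k Z := Module.finite_of_finrank_pos (by rw [hZ.three]; norm_num)
  have hex : ∀ g : Z ≃ₐ[k] Z, ∃ (t : ℂ ≃+* ℂ) (γ : ℂ) (u : Ideal (𝓞 k)), (∀ x, t (jZ x) = jZ (g x)) ∧
      Act (jk (k := k) jZ) t f γ u := by
    intro g
    obtain ⟨t, ht⟩ := exists_aut jZ (jZ.comp (g : Z →+* Z))
    have h1 : ∀ x : k, t (jk (k := k) jZ x) = jk (k := k) jZ x := by
      intro x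
      have h2 := ht (algebraMap k Z x)
      have h3 : (jZ.comp (g : Z →+* Z)) (algebraMap k Z x) = jZ (algebraMap k Z x) :=
        congrArg jZ (g.commutes x)
      rw [h3] at h2
      exact h2
    obtain ⟨γ, u, hu⟩ := act_exists hk h1 hf
    exact ⟨t, γ, u, ht, hu⟩
  choose tg γg ug htg hug using hex
  have hkfix : ∀ (t : ℂ ≃+* ℂ) (g : Z ≃ₐ[k] Z), (∀ x, t (jZ x) = jZ (g x)) →
      ∀ x : k, t (jk (k := k) jZ x) = jk (k := k) jZ x := by
    intro t g ht x
    have h2 := ht (algebraMap k Z x)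
    rw [g.commutes] at h2
    exact h2
  have hkey : ∀ (t : ℂ ≃+* ℂ) (g : Z ≃ₐ[k] Z), (∀ x, t (jZ x) = jZ (g x)) →
      ∀ γ u, Act (jk (k := k) jZ) t f γ u → φ u = φ (ug g) := by
    intro t g ht γ u hu
    have hr : ∀ x, (t.trans (tg g).symm) (jZ x) = jZ x := by
      intro x
      rw [RingEquiv.trans_apply, RingEquiv.symm_apply_eq, ht, htg]
    have hr' : ∀ x : k, (t.trans (tg g).symm) (jk (k := k) jZ x) = jk (k := k) jZ x :=
      fun x => hr _
    obtain ⟨γr, v, hv⟩ := act_exists hk hr' hf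
    have hv0 := ident_zero hk hZ hf jZ hφ hsp _ hr γr v hv
    obtain ⟨γ'', h3⟩ := act_mul hv (hug g)
    have h4 : (t.trans (tg g).symm).trans (tg g) = t := by
      apply RingEquiv.ext
      intro x
      rw [RingEquiv.trans_apply, RingEquiv.trans_apply, RingEquiv.apply_symm_apply]
    rw [h4] at h3
    have h5 := act_unique hk (hkfix t g ht) hf hu h3
    rw [ray_req hφ hu.cop h5, hφ.mul _ _ hv.cop (hug g).cop, hv0, zero_add]
  have hadd : ∀ g g', φ (ug (g * g')) = φ (ug g) + φ (ug g') := by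
    intro g g'
    obtain ⟨γ'', h3⟩ := act_mul (hug g') (hug g)
    have h4 : ∀ x, ((tg g').trans (tg g)) (jZ x) = jZ ((g * g') x) := by
      intro x
      rw [RingEquiv.trans_apply, htg, htg]
      rfl
    rw [← hkey _ _ h4 _ _ h3, hφ.mul _ _ (hug g').cop (hug g).cop, add_comm]
  have hl1 : lam 1 = 0 := by
    have h1 := hl 1 1
    rw [mul_one] at h1
    exact left_eq_add.1 h1
  have hb1 : φ (ug 1) = 0 := by
    have h1 := hadd 1 1
    rw [mul_one] at h1
    exact left_eq_add.1 h1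
  have hinj : Function.Injective lam := by
    intro g g' hgg
    have h1 := hl (g * g'⁻¹) g'
    rw [inv_mul_cancel_right, hgg] at h1
    have h2 : lam (g * g'⁻¹) = 0 := right_eq_add.1 h1
    exact mul_inv_eq_one.1 (hi _ h2)
  have hbij : Function.Bijective lam := by
    rw [Nat.bijective_iff_injective_and_card]
    refine ⟨hinj, ?_⟩
    rw [IsGalois.card_aut_eq_finrank, hZ.three, Nat.card_zmod]
  obtain ⟨g1, hg1⟩ := hbij.2 1
  have hpow : ∀ n : ℕ, lam (g1 ^ n) = n ∧ φ (ug (g1 ^ n)) = φ (ug g1) * n := by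
    intro n
    induction n with
    | zero =>
      rw [pow_zero, Nat.cast_zero, mul_zero]
      exact ⟨hl1, hb1⟩
    | succ n ih =>
      rw [pow_succ, hl, hadd, ih.1, ih.2, hg1, Nat.cast_succ]
      exact ⟨rfl, by ring⟩
  have hall : ∀ g, φ (ug g) = φ (ug g1) * lam g := by
    intro g
    have h1 : g = g1 ^ (lam g).val := by
      apply hinj
      rw [(hpow _).1, ZMod.natCast_zmod_val]
    conv_lhs => rw [h1]
    rw [(hpow _).2, ZMod.natCast_zmod_val]
  refine ⟨φ (ug g1), ?_, fun t g ht γ u hu => ?_⟩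
  · intro h0
    obtain ⟨a, ha, ha'⟩ := hne
    obtain ⟨t, γ, u, ht, hu, hreq⟩ := act_surj hk (jk (k := k) jZ) hf ha
    obtain ⟨g, hg⟩ := res_gal (k := k) jZ t ht
    apply ha'
    rw [← ray_req hφ hu.cop hreq, hkey t g hg γ u hu, hall, h0, zero_mul]
  · rw [hkey t g ht γ u hu, hall]

end CMS
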