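import Pool.Agent.Lib.CMS.EDih
import Pool.Agent.Lib.CMS.EId

/-!
# EDihed: `φ (conjugate ideal) = - φ`  (about 110 lines)

Paper 4.6.  `lam` from `shift_lam`, `ident` (with `Z = E`, `jZ = j`): `φ u = ε * lam g`.  Let `Cop f a`.  `act_surj hk e hf ha` with `e = jk j`: `t` fixing `e(k)`, `Act e t f γ u`, `Req f u a`.  `res_gal j t`: `g` with `t (j x) = j (g x)`; `t` shifts by
`lam g`.  `t' = (cj.trans t).trans cj` fixes `e(k)` (`e (cjk hk x) = conj (e x)`) and shifts by `-lam g` (`sh_conj`), its restriction `g'` has `lam g' = -lam g` (`sh_unique`).  `act_conj`: `Act e t' f γ' (cjI hk u)`, so `φ (cjI hk u) = ε * lam g' = - φ u`,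
and `Req f (cjI hk u) (cjI hk a)` (`req_cj`), `ray_req`, `cop_cj`.
-/

set_option autoImplicit false

namespace CMS

open Complex NumberField MPd9f52e

theorem dih_char {K k E : Type} [Field K] [NumberField K] [Field k] [NumberField k] [Field E] [NumberField E] [Algebra k E]
    {s : ZMod 3 → K →+* E} {j : E →+* ℂ} (h : Dih K k E s j) {f : ℕ} (hf : 3 ≤ f) {φ : Ideal (𝓞 k) → ZMod 3}
    (hφ : RayChar f φ) (hne : ∃ a, Cop f a ∧ φ a ≠ 0)
    (hsp : ∀ P : Ideal (𝓞 k), P.IsPrime → Cop f P → SplitsIn E P → φ P = 0) {a : Ideal (𝓞 k)} (ha : Cop f a) :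
    φ (cjI h.iq a) = - φ a := by
  have hgal : IsGalois k E := h.cyc.gal
  obtain ⟨lam, hl, hi, hsh, -⟩ := shift_lam h
  obtain ⟨ε, -, hid⟩ := ident h.iq h.cyc hf j hφ hne hsp lam hl hi
  obtain ⟨t, γ, u, ht, hA, hR⟩ := act_surj h.iq (jk (k := k) j) hf ha
  obtain ⟨g, hg⟩ := res_gal (k := k) j t (fun x => ht x)
  have h1 : φ u = ε * lam g := hid t g hg γ u hA
  have hS : Sh s j t (lam g) := fun i x => by rw [hg, hsh]
  have hS' : Sh s j ((cj.trans t).trans cj) (-lam g) := sh_conj h hS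
  obtain ⟨g', hg'⟩ := res_gal (k := k) j ((cj.trans t).trans cj) (fun x => sh_fix h hS' x)
  have hSg : Sh s j ((cj.trans t).trans cj) (lam g') := fun i x => by rw [hg', hsh]
  have hlam : lam g' = - lam g := sh_unique h hSg hS'
  obtain ⟨γ', hA'⟩ := act_conj h.iq hA
  have h2 : φ (cjI h.iq u) = ε * lam g' := hid _ g' hg' γ' _ hA'
  have h3 : φ a = φ u := ray_req hφ ha (req_symm hR)
  have h4 : φ (cjI h.iq a) = φ (cjI h.iq u) := ray_req hφ (cop_cj.2 ha) (req_cj (req_symm hR))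
  rw [h4, h2, hlam, h3, h1, mul_neg]

end CMS
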