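import Pool.Agent.Lib.CMS.ADef

/-!
# EFix: the cyclic cubic field of a character of a Galois group  (about 120 lines)

`B` = the kernel of `χ` (a normal subgroup of `F ≃ₐ[k] F` of index `3`: `χ` is onto as its image is a nonzero subgroup of `ZMod 3`), `Z = ↥(IntermediateField.fixedField B)`, `ψ` = inclusion.
`[Z : k] = index = 3` (`IntermediateField.finrank_fixedField_eq_card`, `Subgroup.card_mul_index`), `Z / k` Galois (`IsGalois.of_fixedField_normal_subgroup` or `normalAutEquivQuotient`).
`lam g' := χ g` for any `g` that extends `g'` (`AlgEquiv.restrictNormalHom_surjective`); well defined: two extensions differ by an element of `Gal(F/Z) = B`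
(`IntermediateField.fixingSubgroup_fixedField`).  `lam g' = 0`: the extension `g` is in `B`, so it fixes `Z`, `g' = 1`.
-/

set_option autoImplicit false

namespace CMS

open NumberField MPd9f52e

theorem exists_fixed {k F : Type} [Field k] [NumberField k] [Field F] [NumberField F] [Algebra k F] [IsGalois k F]
    (χ : (F ≃ₐ[k] F) → ZMod 3) (hχ : ∀ g g', χ (g * g') = χ g + χ g') (h0 : ∃ g, χ g ≠ 0) :
    ∃ (Z : Type) (_ : Field Z) (_ : NumberField Z) (_ : Algebra k Z) (ψ : Z →ₐ[k] F) (lam : (Z ≃ₐ[k] Z) → ZMod 3),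
      CycCubic k Z ∧ (∀ g g', lam (g * g') = lam g + lam g') ∧ (∀ g, lam g = 0 → g = 1) ∧
      (∀ (g : F ≃ₐ[k] F) (g' : Z ≃ₐ[k] Z), (∀ z, g (ψ z) = ψ (g' z)) → lam g' = χ g) ∧
      ∀ g : F ≃ₐ[k] F, χ g = 0 → ∀ z, g (ψ z) = ψ z := by
  classical
  have hfd : FiniteDimensional k F := inferInstance
  obtain ⟨c, hc⟩ : ∃ c : (F ≃ₐ[k] F) →* Multiplicative (ZMod 3), ∀ g, c g = Multiplicative.ofAdd (χ g) :=
    ⟨MonoidHom.mk' (fun g => Multiplicative.ofAdd (χ g)) (fun g g' => by rw [hχ]; rfl), fun _ => rfl⟩
  have h1 : χ 1 = 0 := by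
    have h := hχ 1 1
    rw [mul_one] at h
    exact left_eq_add.mp h
  obtain ⟨B, hBdef⟩ : ∃ B : Subgroup (F ≃ₐ[k] F), B = c.ker := ⟨_, rfl⟩
  have hB : ∀ g, g ∈ B ↔ χ g = 0 := by
    intro g
    rw [hBdef, MonoidHom.mem_ker, hc]
    exact ofAdd_eq_one
  have hBn : B.Normal := by rw [hBdef]; exact c.normal_ker
  have hZn : NumberField (IntermediateField.fixedField B) := NumberField.of_intermediateField _
  have hZg : IsGalois k (IntermediateField.fixedField B) := IsGalois.of_fixedField_normal_subgroup B
  have hfix : (IntermediateField.fixedField B).fixingSubgroup = B :=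
    IntermediateField.fixingSubgroup_fixedField B
  have hfr : Module.finrank k (IntermediateField.fixedField B) = 3 := by
    rw [IntermediateField.finrank_eq_fixingSubgroup_index, hfix, hBdef, Subgroup.index_ker]
    have hcard : Nat.card (Multiplicative (ZMod 3)) = 3 := by
      rw [Nat.card_congr Multiplicative.toAdd, Nat.card_eq_fintype_card, ZMod.card]
    have hp : Fact (Nat.card (Multiplicative (ZMod 3))).Prime := ⟨by rw [hcard]; exact Nat.prime_three⟩
    rcases Subgroup.eq_bot_or_eq_top_of_prime_card c.range with h | h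
    · exfalso
      obtain ⟨g, hg⟩ := h0
      have h2 : c g ∈ c.range := ⟨g, rfl⟩
      rw [h, Subgroup.mem_bot, hc] at h2
      exact hg (ofAdd_eq_one.mp h2)
    · rw [h, Subgroup.card_top, hcard]
  have hsurj : ∀ g' : (IntermediateField.fixedField B) ≃ₐ[k] (IntermediateField.fixedField B),
      ∃ g : F ≃ₐ[k] F, ∀ z : IntermediateField.fixedField B, g (z : F) = ((g' z : IntermediateField.fixedField B) : F) := by
    intro g'
    obtain ⟨g, hg⟩ := AlgEquiv.restrictNormalHom_surjective (F := k)
      (K₁ := IntermediateField.fixedField B) F g'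
    refine ⟨g, fun z => ?_⟩
    rw [← hg]
    exact (AlgEquiv.restrictNormal_commutes g (IntermediateField.fixedField B) z).symm
  choose L hL using hsurj
  have hkey : ∀ g g₁ : F ≃ₐ[k] F, (∀ z : IntermediateField.fixedField B, g (z : F) = g₁ (z : F)) → χ g = χ g₁ := by
    intro g g₁ h
    have h2 : g₁⁻¹ * g ∈ (IntermediateField.fixedField B).fixingSubgroup := by
      rw [IntermediateField.mem_fixingSubgroup_iff]
      intro z hz
      have h3 := h ⟨z, hz⟩
      show g₁⁻¹ (g z) = z
      rw [h3]
      exact g₁.symm_apply_apply z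
    rw [hfix, hB] at h2
    have h4 : g = g₁ * (g₁⁻¹ * g) := by group
    rw [h4, hχ, h2, add_zero]
  refine ⟨IntermediateField.fixedField B, inferInstance, hZn, inferInstance,
    (IntermediateField.fixedField B).val, fun g' => χ (L g'), ⟨hZg, hfr⟩, ?_, ?_, ?_, ?_⟩
  · intro g g'
    show χ (L (g * g')) = χ (L g) + χ (L g')
    rw [← hχ]
    refine hkey _ _ fun z => ?_
    rw [hL]
    show ((g (g' z) : IntermediateField.fixedField B) : F) = L g (L g' (z : F))
    rw [hL, hL]
  · intro g hg
    have h2 : L g ∈ (IntermediateField.fixedField B).fixingSubgroup := by rw [hfix, hB]; exact hg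
    rw [IntermediateField.mem_fixingSubgroup_iff] at h2
    ext z
    rw [← hL]
    exact h2 z z.2
  · intro g g' h
    exact (hkey g (L g') fun z => by rw [hL]; exact h z).symm
  · intro g hg z
    have h2 : g ∈ (IntermediateField.fixedField B).fixingSubgroup := by rw [hfix, hB]; exact hg
    rw [IntermediateField.mem_fixingSubgroup_iff] at h2
    exact h2 z z.2

end CMS
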