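import Pool.Agent.Lib.CMS.EFrob
import Pool.Agent.Lib.CF3.Ram

/-!
# ENram: small inertia implies unramified  (about 150 lines)

`F / k` Galois, `Q` a prime ideal of `𝓞 F`, `P = Q ∩ 𝓞 k`, `Z / k` cyclic cubic, `ψ : Z → F` over `k`, `QZ = {x : ψ x ∈ Q}`.  Suppose `P 𝓞_Z = Q' ^ 3`; then `Q' = QZ` (the only prime above `P`), `ramificationIdx` of `QZ` over `P` is `3`.
Mathlib: `Ideal.card_inertia_eq_ramificationIdxIn` for `Gal(F/k)` and for `Gal(F/Z)` (`letI := ψ.toRingHom.toAlgebra`; `IsGaloisGroup` instances for rings of integers, `PerfectField` of the residue field: it is finite): the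
inertia group of `Q` in `Gal(F/k)` is contained in `Gal(F/Z)` by hypothesis, so both have the same order, `e(Q/P) = e(Q/QZ)` (`Ideal.ramificationIdxIn_eq_ramificationIdx`), and `Ideal.ramificationIdx_tower` gives `e(QZ/P) = 1`: contradiction.
The condition in `hI` on `g` says that `g` is in `Ideal.inertia` (`∀ x, g • x - x ∈ Q`, `((g • x : 𝓞 F) : F) = g x`).
-/

set_option autoImplicit false

namespace CMS

open NumberField MPd9f52e

variable {k F Z : Type} [Field k] [NumberField k] [Field F] [NumberField F] [Algebra k F] [IsGalois k F]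
  [Field Z] [NumberField Z] [Algebra k Z]

theorem not_ram (hZ : CycCubic k Z) (ψ : Z →ₐ[k] F) {Q : Ideal (𝓞 F)} (hQ : Q.IsPrime) (hQ0 : Q ≠ ⊥)
    (hI : ∀ g : F ≃ₐ[k] F, (∀ x y : 𝓞 F, (y : F) = g x → y - x ∈ Q) → ∀ z, g (ψ z) = ψ z) :
    ¬ RamIn Z (Q.comap (algebraMap (𝓞 k) (𝓞 F))) := by
  classical
  rintro ⟨Q', hQ', hr⟩
  let : Algebra Z F := ψ.toRingHom.toAlgebra
  have hst : IsScalarTower k Z F := IsScalarTower.of_algebraMap_eq' (ψ.comp_algebraMap.symm)
  have : IsGalois Z F := IsGalois.tower_top_of_isGalois k Z F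
  have := hZ.gal
  set QZ : Ideal (𝓞 Z) := Q.comap (algebraMap (𝓞 Z) (𝓞 F)) with hQZ
  set P : Ideal (𝓞 k) := Q.comap (algebraMap (𝓞 k) (𝓞 F)) with hPdef
  have hst2 : IsScalarTower (𝓞 k) (𝓞 Z) (𝓞 F) := inferInstance
  have hPZ : QZ.comap (algebraMap (𝓞 k) (𝓞 Z)) = P := by
    rw [hQZ, Ideal.comap_comap, ← IsScalarTower.algebraMap_eq]
  have : QZ.IsPrime := hQ.comap _
  have : P.IsPrime := hQ.comap _
  have l1 : Q.LiesOver QZ := ⟨rfl⟩
  have l2 : Q.LiesOver P := ⟨rfl⟩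
  have l3 : QZ.LiesOver P := ⟨hPZ.symm⟩
  have hP0 : P ≠ ⊥ := mt Ideal.eq_bot_of_comap_eq_bot hQ0
  have hQZ0 : QZ ≠ ⊥ := mt Ideal.eq_bot_of_comap_eq_bot hQ0
  have hM0 : P.map (algebraMap (𝓞 k) (𝓞 Z)) ≠ ⊥ := by
    rwa [Ne, Ideal.map_eq_bot_iff_of_injective (FaithfulSMul.algebraMap_injective _ _)]
  have hQ'0 : Q' ≠ ⊥ := by
    rintro rfl
    apply hM0
    rw [hr]
    simp
  have e1 : Q' = QZ := by
    have h1 : P.map (algebraMap (𝓞 k) (𝓞 Z)) ≤ QZ := by
      rw [Ideal.map_le_iff_le_comap, hPZ]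
    rw [hr] at h1
    have h2 : Q' ≤ QZ := (Ideal.IsPrime.pow_le_iff (by norm_num)).1 h1
    exact (hQ'.isMaximal hQ'0).eq_of_le (Ideal.IsPrime.ne_top inferInstance) h2
  have hfP : Finite (𝓞 k ⧸ P) := Ideal.finiteQuotientOfFreeOfNeBot P hP0
  have hfQ : Finite (𝓞 Z ⧸ QZ) := Ideal.finiteQuotientOfFreeOfNeBot QZ hQZ0
  have : P.IsMaximal := Ideal.IsPrime.isMaximal inferInstance hP0
  have : QZ.IsMaximal := Ideal.IsPrime.isMaximal inferInstance hQZ0
  -- ramification indices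
  have he3 : P.ramificationIdxIn (𝓞 Z) = 3 := by
    rw [Ideal.ramificationIdxIn_eq_ramificationIdx P QZ (Z ≃ₐ[k] Z),
      Ideal.IsDedekindDomain.ramificationIdx_eq_normalizedFactors_count P QZ hM0, hr, e1,
      UniqueFactorizationMonoid.normalizedFactors_pow, Multiset.count_nsmul,
      UniqueFactorizationMonoid.normalizedFactors_irreducible
        (Ideal.prime_of_isPrime hQZ0 inferInstance).irreducible]
    simp
  have ht := Ideal.ramificationIdxIn_mul_ramificationIdxIn (p := P) QZ (Z ≃ₐ[k] Z) (𝓞 F) (F ≃ₐ[k] F) (F ≃ₐ[Z] F)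
  have c1 : Nat.card (Q.inertia (F ≃ₐ[k] F)) = P.ramificationIdxIn (𝓞 F) :=
    Ideal.card_inertia_eq_ramificationIdxIn P Q
  have c2 : Nat.card (Q.inertia (F ≃ₐ[Z] F)) = QZ.ramificationIdxIn (𝓞 F) :=
    Ideal.card_inertia_eq_ramificationIdxIn QZ Q
  have c3 : Nat.card (Q.inertia (F ≃ₐ[k] F)) = Nat.card (Q.inertia (F ≃ₐ[Z] F)) := by
    refine (Nat.card_eq_of_bijective
      (fun g : Q.inertia (F ≃ₐ[Z] F) => (⟨(g : F ≃ₐ[Z] F).restrictScalars k, ?_⟩ : Q.inertia (F ≃ₐ[k] F))) ⟨?_, ?_⟩).symm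
    · intro x
      exact g.2 x
    · intro g g' h
      apply Subtype.ext
      ext x
      have := congrArg (fun t : Q.inertia (F ≃ₐ[k] F) => (t : F ≃ₐ[k] F) x) h
      exact this
    · rintro ⟨g, hg⟩
      have hfix : ∀ z, g (ψ z) = ψ z := by
        refine hI g fun x y hy => ?_
        have h1 := hg x
        have h2 : g • x = y := by
          apply RingOfIntegers.ext
          rw [hy]
          rfl
        rw [h2] at h1
        exact h1
      refine ⟨⟨AlgEquiv.ofRingEquiv (f := g.toRingEquiv) (fun z => hfix z), fun x => ?_⟩, ?_⟩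
      · exact hg x
      · apply Subtype.ext
        ext x
        rfl
  rw [he3, ← c1, ← c2, c3] at ht
  have hpos : 0 < Nat.card (Q.inertia (F ≃ₐ[Z] F)) := Nat.card_pos
  omega

end CMS
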