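import Pool.Agent.Lib.CMS.KEf
import Pool.Agent.Lib.CMS.Defs
import Pool.Agent.Lib.CF3.Ram

/-!
# KTow: primes above `p` in a tower, and in a cyclic cubic extension
-/

set_option autoImplicit false
set_option linter.unusedSectionVars false

open ArithmeticFunction NumberField MPd9f52e

namespace CMS

section tower

variable {F E : Type} [Field F] [NumberField F] [Field E] [NumberField E] [Algebra F E]

theorem kd_mem_comap {p : ℕ} (hp : p.Prime) {Q : Ideal (𝓞 E)} (hQ : Q ∈ primesAt E p) :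
    Q.comap (algebraMap (𝓞 F) (𝓞 E)) ∈ primesAt F p := by
  obtain ⟨h1, h2⟩ := (mem_primesAt E hp Q).1 hQ
  refine (mem_primesAt F hp _).2 ⟨h1.comap _, ?_⟩
  rw [Ideal.mem_comap, map_natCast]
  exact h2

theorem kd_mem_of_comap {p : ℕ} (hp : p.Prime) {Q : Ideal (𝓞 E)} (hQ : Q.IsPrime)
    (h : Q.comap (algebraMap (𝓞 F) (𝓞 E)) ∈ primesAt F p) : Q ∈ primesAt E p := by
  refine (mem_primesAt E hp _).2 ⟨hQ, ?_⟩
  have h2 := ((mem_primesAt F hp _).1 h).2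
  rw [Ideal.mem_comap, map_natCast] at h2
  exact h2

theorem kd_exists_over {p : ℕ} (hp : p.Prime) {P : Ideal (𝓞 F)} (hP : P ∈ primesAt F p) :
    ∃ Q ∈ primesAt E p, Q.comap (algebraMap (𝓞 F) (𝓞 E)) = P := by
  obtain ⟨h1, h2⟩ := (mem_primesAt F hp P).1 hP
  have hm := h1.isMaximal (kef_mem hp hP).2.2
  obtain ⟨Q, hQ, hover⟩ := Ideal.exists_maximal_ideal_liesOver_of_isIntegral (S := 𝓞 E) P
  have h3 : Q.comap (algebraMap (𝓞 F) (𝓞 E)) = P := hover.over.symm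
  refine ⟨Q, ?_, h3⟩
  refine kd_mem_of_comap (F := F) hp hQ.isPrime ?_
  rw [h3]
  exact hP

theorem kd_e_tower (Q : Ideal (𝓞 E)) : Q.ramificationIdx ℤ =
    (Q.comap (algebraMap (𝓞 F) (𝓞 E))).ramificationIdx ℤ * Q.ramificationIdx (𝓞 F) := by
  have : Q.LiesOver (Q.comap (algebraMap (𝓞 F) (𝓞 E))) := ⟨rfl⟩
  exact Ideal.ramificationIdx_tower _ _

theorem kd_f_tower (Q : Ideal (𝓞 E)) : Q.inertiaDeg ℤ =
    (Q.comap (algebraMap (𝓞 F) (𝓞 E))).inertiaDeg ℤ * Q.inertiaDeg (𝓞 F) := by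
  have : Q.LiesOver (Q.comap (algebraMap (𝓞 F) (𝓞 E))) := ⟨rfl⟩
  exact Ideal.inertiaDeg_tower _ _

theorem kd_rank : Module.finrank (𝓞 F) (𝓞 E) = Module.finrank F E :=
  (IsFractionRing.finrank_eq (𝓞 F) F (𝓞 E) E).symm

theorem kd_rel_le (Q : Ideal (𝓞 E)) (hQ : Q.IsPrime) :
    Q.ramificationIdx (𝓞 F) * Q.inertiaDeg (𝓞 F) ≤ Module.finrank F E := by
  classical
  set P := Q.comap (algebraMap (𝓞 F) (𝓞 E)) with hP
  have hPp : P.IsPrime := hQ.comap _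
  have : Fintype (P.primesOver (𝓞 E)) :=
    (Algebra.QuasiFinite.finite_primesOver P).fintype
  have h1 := Ideal.sum_ramification_inertia_eq_finrank (p := P) (S := 𝓞 E)
  rw [kd_rank] at h1
  rw [← h1]
  have hmem : Q ∈ P.primesOver (𝓞 E) := ⟨hQ, ⟨rfl⟩⟩
  exact Finset.single_le_sum (f := fun q : P.primesOver (𝓞 E) =>
    q.1.ramificationIdx (𝓞 F) * q.1.inertiaDeg (𝓞 F)) (fun _ _ => Nat.zero_le _)
    (Finset.mem_univ (⟨Q, hmem⟩ : P.primesOver (𝓞 E)))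

theorem kd_rel_pos {p : ℕ} (hp : p.Prime) {Q : Ideal (𝓞 E)} (hQ : Q ∈ primesAt E p) :
    1 ≤ Q.ramificationIdx (𝓞 F) ∧ 1 ≤ Q.inertiaDeg (𝓞 F) := by
  have h := kef_pos hp hQ
  rw [kd_e_tower (F := F) Q, kd_f_tower (F := F) Q] at h
  exact ⟨Nat.pos_of_mul_pos_left h.1, Nat.pos_of_mul_pos_left h.2⟩

end tower

section cyc

variable {k E : Type} [Field k] [NumberField k] [Field E] [NumberField E] [Algebra k E]

theorem kd_gen (hE : CycCubic k E) : ∃ σ : E ≃ₐ[k] E, CF3.Gen3 k E σ := by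
  have hgal := hE.gal
  obtain ⟨σ, hσ⟩ : ∃ σ : E ≃ₐ[k] E, σ ≠ 1 := by
    have hcard : Nat.card (E ≃ₐ[k] E) = 3 := by
      rw [IsGalois.card_aut_eq_finrank, hE.three]
    have hfin : Finite (E ≃ₐ[k] E) := inferInstance
    have : Nontrivial (E ≃ₐ[k] E) := Finite.one_lt_card_iff_nontrivial.1 (by omega)
    exact exists_ne 1
  exact ⟨σ, hE.gal, hE.three, hσ⟩

/-- the fundamental identity -/
theorem kd_gal (hE : CycCubic k E) (Q : Ideal (𝓞 E)) (hQ : Q.IsPrime) :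
    ((Q.comap (algebraMap (𝓞 k) (𝓞 E))).primesOver (𝓞 E)).ncard *
      (Q.ramificationIdx (𝓞 k) * Q.inertiaDeg (𝓞 k)) = 3 := by
  have hgal := hE.gal
  have hPp : (Q.comap (algebraMap (𝓞 k) (𝓞 E))).IsPrime := hQ.comap _
  have hl : Q.LiesOver (Q.comap (algebraMap (𝓞 k) (𝓞 E))) := ⟨rfl⟩
  have h1 := Ideal.ncard_primesOver_mul_ramificationIdxIn_mul_inertiaDegIn
    (Q.comap (algebraMap (𝓞 k) (𝓞 E))) (𝓞 E) (E ≃ₐ[k] E)
  rw [Ideal.ramificationIdxIn_eq_ramificationIdx _ Q (E ≃ₐ[k] E),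
    Ideal.inertiaDegIn_eq_inertiaDeg _ Q (E ≃ₐ[k] E), IsGalois.card_aut_eq_finrank, hE.three] at h1
  exact h1

theorem kd_fin (P : Ideal (𝓞 k)) (hP : P.IsPrime) : (P.primesOver (𝓞 E)).Finite :=
  Algebra.QuasiFinite.finite_primesOver P

theorem kd_split (hE : CycCubic k E) (Q : Ideal (𝓞 E)) (hQ : Q.IsPrime)
    (hs : SplitsIn E (Q.comap (algebraMap (𝓞 k) (𝓞 E)))) :
    ((Q.comap (algebraMap (𝓞 k) (𝓞 E))).primesOver (𝓞 E)).ncard = 3 ∧
    Q.ramificationIdx (𝓞 k) = 1 ∧ Q.inertiaDeg (𝓞 k) = 1 := by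
  have h1 := kd_gal hE Q hQ
  have h2 : 2 ≤ ((Q.comap (algebraMap (𝓞 k) (𝓞 E))).primesOver (𝓞 E)).ncard := by
    obtain ⟨Q1, Q2, p1, p2, hne, e1, e2⟩ := hs
    have hfin := kd_fin (E := E) (Q.comap (algebraMap (𝓞 k) (𝓞 E))) (hQ.comap _)
    have : 1 < ((Q.comap (algebraMap (𝓞 k) (𝓞 E))).primesOver (𝓞 E)).ncard := by
      rw [Set.one_lt_ncard hfin]
      exact ⟨Q1, ⟨p1, ⟨e1.symm⟩⟩, Q2, ⟨p2, ⟨e2.symm⟩⟩, hne⟩
    exact this
  have h3 : ((Q.comap (algebraMap (𝓞 k) (𝓞 E))).primesOver (𝓞 E)).ncard ∣ 3 := ⟨_, h1.symm⟩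
  have h4 : ((Q.comap (algebraMap (𝓞 k) (𝓞 E))).primesOver (𝓞 E)).ncard = 3 := by
    rcases (Nat.dvd_prime Nat.prime_three).1 h3 with h | h
    · omega
    · exact h
  rw [h4] at h1
  have h5 : Q.ramificationIdx (𝓞 k) * Q.inertiaDeg (𝓞 k) = 1 := by omega
  exact ⟨h4, Nat.eq_one_of_mul_eq_one_right h5, Nat.eq_one_of_mul_eq_one_left h5⟩

theorem kd_nsplit (hE : CycCubic k E) (Q : Ideal (𝓞 E)) (hQ : Q.IsPrime)
    (hs : ¬ SplitsIn E (Q.comap (algebraMap (𝓞 k) (𝓞 E)))) :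
    Q.ramificationIdx (𝓞 k) * Q.inertiaDeg (𝓞 k) = 3 := by
  have h1 := kd_gal hE Q hQ
  have h2 : ((Q.comap (algebraMap (𝓞 k) (𝓞 E))).primesOver (𝓞 E)).ncard = 1 := by
    rw [Set.ncard_eq_one]
    refine ⟨Q, ?_⟩
    rw [Set.eq_singleton_iff_unique_mem]
    refine ⟨⟨hQ, ⟨rfl⟩⟩, ?_⟩
    rintro Q' ⟨p1, p2⟩
    by_contra hne
    exact hs ⟨Q', Q, p1, hQ, hne, p2.over.symm, rfl⟩
  rw [h2, one_mul] at h1
  exact h1

theorem kd_ram (Q : Ideal (𝓞 E)) (hQ : Q.IsPrime) (hQ0 : Q ≠ ⊥)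
    (hr : RamIn E (Q.comap (algebraMap (𝓞 k) (𝓞 E)))) : Q.ramificationIdx (𝓞 k) = 3 := by
  classical
  obtain ⟨Q', hQ', he⟩ := hr
  set P := Q.comap (algebraMap (𝓞 k) (𝓞 E)) with hP
  have hl : Q.LiesOver P := ⟨rfl⟩
  have hmax : Q.IsMaximal := hQ.isMaximal hQ0
  have hPp : P.IsPrime := hQ.comap _
  have hle : Q' ^ 3 ≤ Q := by
    rw [← he]
    exact Ideal.map_comap_le
  have hle' : Q' ≤ Q := hQ.le_of_pow_le hle
  have hne0 : Q' ≠ ⊥ := by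
    rintro rfl
    have h1 : P.map (algebraMap (𝓞 k) (𝓞 E)) = ⊥ := by
      rw [he]; exact zero_pow (by norm_num)
    have h2 : P = ⊥ := (Ideal.map_eq_bot_iff_of_injective
      (FaithfulSMul.algebraMap_injective (𝓞 k) (𝓞 E))).1 h1
    exact hQ0 (Ideal.eq_bot_of_comap_eq_bot (R := 𝓞 k) h2)
  have heq : Q' = Q := (hQ'.isMaximal hne0).eq_of_le hQ.ne_top hle'
  subst heq
  have hmap : P.map (algebraMap (𝓞 k) (𝓞 E)) ≠ ⊥ := by
    rw [he]
    exact pow_ne_zero 3 hne0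
  rw [Ideal.IsDedekindDomain.ramificationIdx_eq_multiplicity P Q' hmap, he]
  exact multiplicity_pow_self hne0 (fun h => hQ.ne_top (Ideal.isUnit_iff.1 h)) 3

theorem kd_inert (hE : CycCubic k E) (Q : Ideal (𝓞 E)) (hQ : Q.IsPrime) (hQ0 : Q ≠ ⊥)
    (hs : ¬ SplitsIn E (Q.comap (algebraMap (𝓞 k) (𝓞 E))))
    (hr : ¬ RamIn E (Q.comap (algebraMap (𝓞 k) (𝓞 E)))) :
    Q.ramificationIdx (𝓞 k) = 1 ∧ Q.inertiaDeg (𝓞 k) = 3 := by
  classical
  have h1 := kd_nsplit hE Q hQ hs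
  have h2 : Q.ramificationIdx (𝓞 k) ∣ 3 := ⟨_, h1.symm⟩
  rcases (Nat.dvd_prime Nat.prime_three).1 h2 with h | h
  · rw [h, one_mul] at h1
    exact ⟨h, h1⟩
  · exfalso
    apply hr
    refine ⟨Q, hQ, ?_⟩
    set P := Q.comap (algebraMap (𝓞 k) (𝓞 E)) with hP
    have hl : Q.LiesOver P := ⟨rfl⟩
    have hPp : P.IsPrime := hQ.comap _
    have hP0 : P ≠ ⊥ := fun h => hQ0 (Ideal.eq_bot_of_comap_eq_bot (R := 𝓞 k) h)
    have hmap : P.map (algebraMap (𝓞 k) (𝓞 E)) ≠ ⊥ := fun h =>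
      hP0 ((Ideal.map_eq_bot_iff_of_injective
        (FaithfulSMul.algebraMap_injective (𝓞 k) (𝓞 E))).1 h)
    -- all normalized factors are Q
    have hall : ∀ R ∈ UniqueFactorizationMonoid.normalizedFactors
        (P.map (algebraMap (𝓞 k) (𝓞 E))), R = Q := by
      intro R hR
      have hRp := UniqueFactorizationMonoid.prime_of_normalized_factor R hR
      have hRd := UniqueFactorizationMonoid.dvd_of_mem_normalizedFactors hR
      have hRi : R.IsPrime := Ideal.isPrime_of_prime hRp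
      have h3 := (CF3.prime_dvd_map hPp hP0 R hRi).1 hRd
      by_contra hne
      exact hs ⟨R, Q, hRi, hQ, hne, h3, rfl⟩
    have h4 := UniqueFactorizationMonoid.prod_normalizedFactors_eq hmap
    rw [Multiset.eq_replicate_card.2 hall, Multiset.prod_replicate] at h4
    rw [Ideal.IsDedekindDomain.ramificationIdx_eq_normalizedFactors_count P Q hmap,
      Multiset.eq_replicate_card.2 hall, Multiset.count_replicate_self] at h
    rw [h, normalize_eq] at h4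
    exact h4.symm

end cyc

end CMS
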