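import Pool.Agent.Lib.CMS.EFrob
import Pool.Agent.Lib.CF3.Ram
import Pool.Agent.Lib.CMS.KTow

/-!
# EUnr: unramified primes in cyclic cubic extensions  (about 200 lines)

`F / k` Galois, `Q` a prime ideal of `𝓞 F`, `P = Q ∩ 𝓞 k`, `Z / k` cyclic cubic, `ψ : Z → F` over `k`, `QZ = {x : ψ x ∈ Q}`.
Decomposition of `P` in `Z` (`CF3.Gen3.decomp`, `CF3.Gen3.ram`, `CF3.Gen3.trans`, see `CMS/CftExists.lean` for `CF3.Gen3 k Z σ`): if `¬ RamIn Z P` then `P 𝓞_Z = QZ` (then `N QZ = (N P)^3`) or `P 𝓞_Z = QZ σ(QZ) σ²(QZ)` with different factors.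
* `unr_fix`: `g x - x ∈ Q` for all `x`; `g` induces `g' : Z ≃ₐ[k] Z` (`AlgEquiv.restrictNormal`), `g' x - x ∈ QZ`, so `g' QZ = QZ`.  Suppose `g' ≠ 1`; it generates `Gal(Z/k)`.  In the split case `g' QZ ≠ QZ`: contradiction.  In the inert case all elements of `Gal(Z/k)` (powers of `g'`) act trivially on
  `𝓞 Z ⧸ QZ`; a Frobenius element (`exists_frob_at`) gives `x = x ^ (N P)` modulo `QZ`, so `N QZ ≤ N P` (`norm_le_of_pow`), contradiction to `N QZ = (N P)^3`, `N P ≥ 2`.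
* `split_of_frob`: `g` fixes `ψ Z`, `g x = x ^ (N P)` modulo `Q`: for `x ∈ 𝓞 Z`: `x = x ^ (N P)` modulo `QZ`, `N QZ ≤ N P`, so not inert: split.
-/

set_option autoImplicit false

namespace CMS

open NumberField MPd9f52e

variable {k F Z : Type} [Field k] [NumberField k] [Field F] [NumberField F] [Algebra k F] [IsGalois k F]
  [Field Z] [NumberField Z] [Algebra k Z]

/-- `ψ` on the integers -/
private noncomputable def eO (ψ : Z →ₐ[k] F) : 𝓞 Z →+* 𝓞 F := RingOfIntegers.mapRingHom (ψ : Z →+* F)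

private theorem eO_coe (ψ : Z →ₐ[k] F) (x : 𝓞 Z) : ((eO ψ x : 𝓞 F) : F) = ψ (x : Z) := rfl

private theorem eu_comap (ψ : Z →ₐ[k] F) (Q : Ideal (𝓞 F)) :
    (Q.comap (eO ψ)).comap (algebraMap (𝓞 k) (𝓞 Z)) = Q.comap (algebraMap (𝓞 k) (𝓞 F)) := by
  have h : ∀ x : 𝓞 k, eO ψ (algebraMap (𝓞 k) (𝓞 Z) x) = algebraMap (𝓞 k) (𝓞 F) x := by
    intro x
    apply RingOfIntegers.coe_injective
    exact ψ.commutes (x : k)
  ext x
  rw [Ideal.mem_comap, Ideal.mem_comap, Ideal.mem_comap, h]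

private theorem eu_ne (ψ : Z →ₐ[k] F) {Q : Ideal (𝓞 F)} (hQ : Q.IsPrime) (hQ0 : Q ≠ ⊥) : Q.comap (eO ψ) ≠ ⊥ := by
  intro h
  have h1 := eu_comap ψ Q
  rw [h, Ideal.comap_bot_of_injective _ (FaithfulSMul.algebraMap_injective (𝓞 k) (𝓞 Z))] at h1
  exact hQ0 (Ideal.eq_bot_of_comap_eq_bot (R := 𝓞 k) h1.symm)

/-- if all residues satisfy `x = x ^ N` then the prime splits -/
private theorem eu_split (hZ : CycCubic k Z) {R : Ideal (𝓞 Z)} (hR : R.IsPrime) (hR0 : R ≠ ⊥)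
    (hr : ¬ RamIn Z (R.comap (algebraMap (𝓞 k) (𝓞 Z))))
    (h : ∀ x : 𝓞 Z, x - x ^ Ideal.absNorm (R.comap (algebraMap (𝓞 k) (𝓞 Z))) ∈ R) :
    SplitsIn Z (R.comap (algebraMap (𝓞 k) (𝓞 Z))) := by
  by_contra hs
  obtain ⟨-, h3⟩ := kd_inert hZ R hR hR0 hs hr
  set P := R.comap (algebraMap (𝓞 k) (𝓞 Z)) with hP
  have hPp : P.IsPrime := hR.comap _
  have hP0 : P ≠ ⊥ := fun h => hR0 (Ideal.eq_bot_of_comap_eq_bot (R := 𝓞 k) h)
  obtain ⟨p, hp, hpP, -, -⟩ := exists_prime_mem hPp hP0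
  have hPm : P ∈ primesAt k p := (mem_primesAt k hp P).2 ⟨hPp, hpP⟩
  have hRm : R ∈ primesAt Z p := kd_mem_of_comap (F := k) hp hR (hP ▸ hPm)
  have h4 := kef_norm hp hRm
  have h5 := kef_norm hp hPm
  have h6 := kd_f_tower (F := k) R
  rw [← hP, h3] at h6
  have h7 : Ideal.absNorm R = Ideal.absNorm P ^ 3 := by
    rw [h4, h5, h6, pow_mul]
  have h8 : 1 < Ideal.absNorm P := by
    rw [h5]
    exact Nat.one_lt_pow (by have := (kef_pos hp hPm).2; omega) hp.one_lt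
  have h9 := norm_le_of_pow hR hR0 h8 h
  rw [h7] at h9
  have h10 : Ideal.absNorm P ^ 1 < Ideal.absNorm P ^ 3 := Nat.pow_lt_pow_right h8 (by norm_num)
  rw [pow_one] at h10
  omega

theorem unr_fix (hZ : CycCubic k Z) (ψ : Z →ₐ[k] F) {Q : Ideal (𝓞 F)} (hQ : Q.IsPrime) (hQ0 : Q ≠ ⊥)
    (hr : ¬ RamIn Z (Q.comap (algebraMap (𝓞 k) (𝓞 F)))) (g : F ≃ₐ[k] F)
    (hg : ∀ x y : 𝓞 F, (y : F) = g x → y - x ∈ Q) (z : Z) : g (ψ z) = ψ z := by
  have hgal := hZ.gal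
  let iZ : Algebra Z F := (ψ : Z →+* F).toAlgebra
  have hst : IsScalarTower k Z F := IsScalarTower.of_algebraMap_eq (fun x => (ψ.commutes x).symm)
  have hres : ∀ x : Z, ψ (g.restrictNormal Z x) = g (ψ x) := fun x =>
    AlgEquiv.restrictNormal_commutes g Z x
  set g' : Z ≃ₐ[k] Z := g.restrictNormal Z with hg'
  have hQZp : (Q.comap (eO ψ)).IsPrime := hQ.comap _
  have hQZ0 := eu_ne ψ hQ hQ0
  rw [← eu_comap ψ Q] at hr
  have htriv : ∀ x : 𝓞 Z, CF3.sO g' x - x ∈ Q.comap (eO ψ) := by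
    intro x
    rw [Ideal.mem_comap, map_sub]
    apply hg
    show ψ (g' (x : Z)) = g (ψ (x : Z))
    exact hres _
  by_contra hne
  have hg1 : g' ≠ 1 := by
    intro h1
    apply hne
    rw [← hres, h1]
    rfl
  have hgen : CF3.Gen3 k Z g' := ⟨hZ.gal, hZ.three, hg1⟩
  have hle : (Q.comap (eO ψ)).map (CF3.sO g') ≤ Q.comap (eO ψ) := by
    intro x hx
    obtain ⟨y, hy, rfl⟩ := (CF3.mem_map_sO _ _ _).1 hx
    have := (Q.comap (eO ψ)).add_mem (htriv y) hy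
    rwa [sub_add_cancel] at this
  have hmap : (Q.comap (eO ψ)).map (CF3.sO g') = Q.comap (eO ψ) := by
    have hp := CF3.map_prime g' hQZp
    have h0 : (Q.comap (eO ψ)).map (CF3.sO g') ≠ ⊥ := CF3.map_ne_bot g' hQZ0
    exact (hp.isMaximal h0).eq_of_le hQZp.ne_top hle
  have hs : SplitsIn Z ((Q.comap (eO ψ)).comap (algebraMap (𝓞 k) (𝓞 Z))) := by
    apply eu_split hZ hQZp hQZ0 hr
    intro x
    obtain ⟨τ, hτ⟩ := exists_frob_at (k := k) hQZp hQZ0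
    have h1 := hτ x (CF3.sO τ x) rfl
    have h2 : CF3.sO τ x - x ∈ Q.comap (eO ψ) := by
      rcases hgen.all τ with rfl | rfl | rfl
      · have : CF3.sO (1 : Z ≃ₐ[k] Z) x = x := rfl
        rw [this, sub_self]
        exact Ideal.zero_mem _
      · exact htriv x
      · have h3 : CF3.sO (g' * g') x = CF3.sO g' (CF3.sO g' x) := rfl
        have h4 := (Q.comap (eO ψ)).add_mem (htriv (CF3.sO g' x)) (htriv x)
        rw [h3]
        rwa [sub_add_sub_cancel] at h4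
    have h5 := (Q.comap (eO ψ)).sub_mem h1 h2
    rwa [sub_sub_sub_cancel_left] at h5
  obtain ⟨Q1, Q2, p1, p2, hne12, e1, e2⟩ := hs
  have hall : ∀ R : Ideal (𝓞 Z), R.IsPrime → R.comap (algebraMap (𝓞 k) (𝓞 Z)) =
      (Q.comap (eO ψ)).comap (algebraMap (𝓞 k) (𝓞 Z)) → R = Q.comap (eO ψ) := by
    intro R hR hRP
    rcases hgen.trans _ (Q.comap (eO ψ)) R hQZp hR rfl hRP with h | h | h
    · exact h
    · rw [h, hmap]
    · rw [h, hmap, hmap]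
  exact hne12 ((hall Q1 p1 e1).trans (hall Q2 p2 e2).symm)

theorem split_of_frob (hZ : CycCubic k Z) (ψ : Z →ₐ[k] F) {Q : Ideal (𝓞 F)} (hQ : Q.IsPrime) (hQ0 : Q ≠ ⊥)
    (hr : ¬ RamIn Z (Q.comap (algebraMap (𝓞 k) (𝓞 F)))) (g : F ≃ₐ[k] F)
    (hg : ∀ x y : 𝓞 F, (y : F) = g x → y - x ^ Ideal.absNorm (Q.comap (algebraMap (𝓞 k) (𝓞 F))) ∈ Q)
    (hfix : ∀ z, g (ψ z) = ψ z) : SplitsIn Z (Q.comap (algebraMap (𝓞 k) (𝓞 F))) := by
  rw [← eu_comap ψ Q] at hr hg ⊢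
  apply eu_split hZ (hQ.comap _) (eu_ne ψ hQ hQ0) hr
  intro x
  rw [Ideal.mem_comap, map_sub, map_pow]
  apply hg
  show ψ (x : Z) = g (ψ (x : Z))
  rw [hfix]

end CMS
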