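import Pool.Agent.Lib.CMS.EDihed
import Pool.Agent.Lib.CMS.ECub
import Pool.Agent.Lib.CMS.EUnr
import Pool.Agent.Lib.CMS.ENram
import Pool.Agent.Lib.CMS.EFix
import Pool.Agent.Lib.CMS.CftExists
import Pool.Agent.Lib.CMS.CNrm

/-!
# EExact: `φ P = 0` implies that `P` splits in `E`  (paper 4.7, crossing; about 280 lines; the lemmas `lamF`, `cycF` are separate)

Suppose `¬ SplitsIn E P`, `Cop f P`, `φ P = 0`; `p` the prime number in `P`, `q = N P = p ^ d` (`exists_prime_mem`; `d ∈ {1, 2}` because `q ≤ p ^ 2`: `Ideal.absNorm` of `(p)` is `p ^ 2`; needed only: `3 ∤ d`), `p ∤ f` (`cop_prime`).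
1. `ECub`: `n` prime, `n > max p f`, `ψ : (ZMod n)ˣ → ZMod 3` additive with `ψ p ≠ 0`, so `ψ (q mod n) = d ψ p ≠ 0`.  `ζ = exp (2 π i / n)`.
2. `F / k` Galois with `jF` (`exists_bigE (jk j) (S ∪ {ζ})`, `S` from `gen_fin j`), `ψE : E →ₐ[k] F` (`factor`), `z0 : F` with `jF z0 = ζ`, a primitive `n`-th root of unity.
   `a' : Gal(F/k) → ZMod 3`, `g ↦` shift of `g` on the `ψE ∘ s i` (from `lam` of `shift_lam` and `AlgEquiv.restrictNormal`), `c' : Gal(F/k) → (ZMod n)ˣ` with `g z0 = z0 ^ c' g` (`IsPrimitiveRoot.autToPow`), `b' = ψ ∘ c'`; both additive.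
3. `Q` above `P`, `g0` a Frobenius element at `Q` (`exists_frob`).  `a := a' g0 ≠ 0`: otherwise `g0` fixes `ψE E` and `split_of_frob` (`¬ RamIn E P` by `hram`) gives `SplitsIn E P`.  `c' g0 = q` (`frob_zeta`; `n ∉ Q` because `p ∈ Q`, `p ≠ n`), so `b := b' g0 = ψ q ≠ 0`.
   `χ g := b * a' g - a * b' g`: additive, `χ g0 = 0`.
4. `χ ≠ 0`: `exists_sh h 1`: `t` fixing `e(k)` with shift `1`; `t' = (cj.trans t).trans cj` has shift `-1` and the same action on `ζ`.  If `χ = 0` then `b * 1 = a * b'(t) = a * b'(t') = b * (-1)`, so `2 b = 0`, `b = 0`: contradiction.  (`res_gal jF t`.)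
5. `EFix`: `Z`, `ψZ`, `lamZ`, `CycCubic k Z`.  `jZ = jF ∘ ψZ`.  `cft_exists h.iq`: `fZ`, `φZ`, `CFT k Z fZ φZ`.
   `p ∤ fZ`: otherwise (`CFT.ram`) there is a prime `P' ∋ p` of `𝓞 k` with `RamIn Z P'`; let `Q'` be a prime of `𝓞 F` above `P'`; for `g` in the inertia group of `Q'`: `g` fixes `ψE E` (`unr_fix`, `hram P'`; `Cop f P'` as `p ∤ f`), so `a' g = 0`, and `g z0 = z0` (`frob_zeta` with `q = 1`), so
   `b' g = 0`, `χ g = 0`, `g` fixes `ψZ Z`: `not_ram`: contradiction.  The same argument gives `¬ RamIn Z P`, and `split_of_frob` (`g0` fixes `ψZ Z` as `χ g0 = 0`): `SplitsIn Z P`, so `φZ P = 0` (`CFT.split`, `Cop fZ P`).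
6. `f' = f * fZ * n ≥ 3`, `p ∤ f'`.  `φ`, `φZ` are `RayChar f'` (`ray_dvd`), not zero at level `f'` (a class of level `f` with `φ ≠ 0` contains a product of large degree one primes: `exists_deg_one` with `N0 ≥ f'` gives an ideal prime to `f'`; `cop_prime`), `ident` for `(E, φ, lam)` and `(Z, φZ, lamZ)` at
   level `f'`: `ε, εZ ≠ 0`.  For all `t` fixing `e(k)` with `Act e t f' γ u`: `φ u = ε * a'(t)`, `φZ u = εZ * χ(t) = εZ * (b * a'(t) - a * b'(t))` and `b'(t) = ψ (N u mod n)` (`act_zeta` at level `f'`, `ζ = exp(2 π i/f') ^ (f'/n)`).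
7. `act_surj` at level `f'` for the ideal `P`: `t`, `u`, `Req f' u P`: `φ u = φ P = 0`, so `a'(t) = 0`; `φZ u = φZ P = 0`, so `a * b'(t) = 0`, `b'(t) = 0`; but `b'(t) = ψ (N u) = ψ (N P) = b ≠ 0` (`N u = N P mod f'`: `Req`, or `req_norm`): contradiction.
-/

set_option autoImplicit false

namespace CMS

open Complex NumberField MPd9f52e

private theorem ex_restr {k Z F : Type} [Field k] [Field Z] [Field F] [Algebra k Z] [Algebra k F]
    [IsGalois k Z] (ψ : Z →ₐ[k] F) (g : F ≃ₐ[k] F) :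
    ∃ g' : Z ≃ₐ[k] Z, ∀ z, g (ψ z) = ψ (g' z) := by
  let _ : Algebra Z F := ψ.toRingHom.toAlgebra
  have : IsScalarTower k Z F := IsScalarTower.of_algebraMap_eq (fun x => (ψ.commutes x).symm)
  exact ⟨g.restrictNormal Z, fun z => (AlgEquiv.restrictNormal_commutes g Z z).symm⟩

private theorem ex_lift_ne {k : Type} [Field k] [NumberField k] (hk : IQ k) {f f' : ℕ} (hf : f ≠ 0)
    (hf' : f' ≠ 0) {φ : Ideal (𝓞 k) → ZMod 3} (hφ : RayChar f φ) (hne : ∃ a, Cop f a ∧ φ a ≠ 0) :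
    ∃ a, Cop f' a ∧ φ a ≠ 0 := by
  obtain ⟨a, ha, hna⟩ := hne
  obtain ⟨l, hl, hreq⟩ := exists_deg_one hk hf f' ha
  refine ⟨l.prod, ?_, ?_⟩
  · have key : ∀ m : Multiset (Ideal (𝓞 k)), (∀ P ∈ m, Cop f' P) → Cop f' m.prod := by
      intro m
      induction m using Multiset.induction with
      | empty =>
        intro _
        rw [Multiset.prod_zero, Ideal.one_eq_top]
        exact cop_top f'
      | cons P m ih =>
        intro h
        rw [Multiset.prod_cons]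
        exact cop_mul.2 ⟨h P (Multiset.mem_cons_self P m),
          ih fun Q hQ => h Q (Multiset.mem_cons_of_mem hQ)⟩
    refine key l fun P hP => ?_
    obtain ⟨h1, h2, h3, h4⟩ := hl P hP
    refine (cop_prime h2 h1 (Ideal.absNorm_mem P) h4.1).2 fun hd => ?_
    exact absurd (Nat.le_of_dvd (Nat.pos_of_ne_zero hf') hd) (not_le.2 h3)
  · rw [← ray_req hφ ha hreq]
    exact hna

private theorem ex_pow {F : Type} [Field F] {n : ℕ} [NeZero n] {z : F} (hz : IsPrimitiveRoot z n)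
    {a b : ℕ} (h : z ^ a = z ^ b) : (a : ZMod n) = b := by
  rw [ZMod.natCast_eq_natCast_iff]
  have h1 := (hz.isOfFinOrder (NeZero.ne n)).pow_eq_pow_iff_modEq.1 h
  rwa [← hz.eq_orderOf] at h1

private theorem ex_deg {k : Type} [Field k] [NumberField k] (hk : IQ k) {P : Ideal (𝓞 k)} {p d : ℕ}
    (hp : p.Prime) (hpP : (p : 𝓞 k) ∈ P) (hd1 : 1 ≤ d) (hN : Ideal.absNorm P = p ^ d) :
    (d : ZMod 3) ≠ 0 := by
  have h1 : Ideal.absNorm P ∣ Ideal.absNorm (Ideal.span {(p : 𝓞 k)}) :=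
    Ideal.absNorm_dvd_absNorm_of_le ((Ideal.span_singleton_le_iff_mem P).2 hpP)
  have h2 : Ideal.absNorm (Ideal.span {(p : 𝓞 k)}) = p ^ 2 := by
    rw [Ideal.absNorm_span_natCast, RingOfIntegers.rank, hk.two]
  rw [hN, h2] at h1
  have h3 : d ≤ 2 := (Nat.pow_dvd_pow_iff_le_right hp.one_lt).1 h1
  interval_cases d <;> decide

private theorem ex_bot {k F : Type} [Field k] [NumberField k] [Field F] [NumberField F] [Algebra k F]
    {Q : Ideal (𝓞 F)} (h : Q.comap (algebraMap (𝓞 k) (𝓞 F)) ≠ ⊥) : Q ≠ ⊥ := by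
  rintro rfl
  apply h
  have hinj : Function.Injective (algebraMap (𝓞 k) (𝓞 F)) := FaithfulSMul.algebraMap_injective _ _
  exact Ideal.comap_bot_of_injective _ hinj

theorem exact_char {K k E : Type} [Field K] [NumberField K] [Field k] [NumberField k] [Field E] [NumberField E] [Algebra k E]
    {s : ZMod 3 → K →+* E} {j : E →+* ℂ} (h : Dih K k E s j) {f : ℕ} (hf : 3 ≤ f) {φ : Ideal (𝓞 k) → ZMod 3}
    (hφ : RayChar f φ) (hne : ∃ a, Cop f a ∧ φ a ≠ 0)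
    (hsp : ∀ P : Ideal (𝓞 k), P.IsPrime → Cop f P → SplitsIn E P → φ P = 0)
    (hram : ∀ P : Ideal (𝓞 k), P.IsPrime → Cop f P → ¬ RamIn E P)
    {P : Ideal (𝓞 k)} (hP : P.IsPrime) (hPf : Cop f P) (h0 : φ P = 0) : SplitsIn E P := by
  classical
  by_contra hns
  have hk := h.iq
  have hgE : IsGalois k E := h.cyc.gal
  have hP0 : P ≠ ⊥ := hPf.1
  obtain ⟨p, hp, hpP, ⟨d, hd1, hNP⟩, hmem⟩ := exists_prime_mem hP hP0
  have hpf : ¬ p ∣ f := (cop_prime hp hP hpP hP0).1 hPf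
  have hd3 : (d : ZMod 3) ≠ 0 := ex_deg hk hp hpP hd1 hNP
  obtain ⟨n, hn, hnN, ψ, hψ, hψp⟩ := exists_cubic hp (max p f)
  have hnp : p < n := lt_of_le_of_lt (le_max_left _ _) hnN
  have hn0 : NeZero n := ⟨hn.ne_zero⟩
  -- the field `F`
  obtain ⟨ζ, hζd⟩ : ∃ ζ : ℂ, ζ = Complex.exp (2 * Real.pi * I / n) := ⟨_, rfl⟩
  have hζ : IsPrimitiveRoot ζ n := by
    rw [hζd]
    exact Complex.isPrimitiveRoot_exp n hn.ne_zero
  have hζa : IsAlgebraic ℚ ζ := ((hζ.isIntegral hn.pos).tower_top (A := ℚ)).isAlgebraic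
  obtain ⟨S, hSa, hSg⟩ := gen_fin j
  obtain ⟨F, iF, iNF, iAl, iGal, jF, hjF, hFS⟩ := exists_bigE (jk (k := k) j) (insert ζ S) (by
    intro x hx
    rcases Finset.mem_insert.1 hx with rfl | hx
    · exact hζa
    · exact hSa x hx)
  obtain ⟨ψ0, hψ0⟩ := factor j jF (hSg F jF fun x hx => hFS x (Finset.mem_insert_of_mem hx))
  have hjFi : Function.Injective jF := jF.injective
  obtain ⟨ψE, hψE⟩ : ∃ ψE : E →ₐ[k] F, ∀ x, jF (ψE x) = j x := by
    refine ⟨{ ψ0 with commutes' := fun x => hjFi ?_ }, hψ0⟩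
    rw [hjF]
    exact hψ0 _
  obtain ⟨z0, hz0⟩ := hFS ζ (Finset.mem_insert_self _ _)
  have hz0p : IsPrimitiveRoot z0 n := by
    rw [← hz0] at hζ
    exact (IsPrimitiveRoot.map_iff_of_injective hjFi).1 hζ
  -- the characters
  obtain ⟨lam, hl, hi, hs, hsur⟩ := shift_lam h
  have hlam1 : lam 1 = 0 := by
    have h1 := hl 1 1
    rw [mul_one] at h1
    exact left_eq_add.1 h1
  choose ra hra using ex_restr ψE
  have hψi : Function.Injective ψE := ψE.toRingHom.injective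
  have hra_uniq : ∀ (g : F ≃ₐ[k] F) (g' : E ≃ₐ[k] E), (∀ z, g (ψE z) = ψE (g' z)) → ra g = g' := by
    intro g g' hg
    ext z
    exact hψi ((hra g z).symm.trans (hg z))
  have hra_mul : ∀ g g', ra (g * g') = ra g * ra g' := by
    intro g g'
    apply hra_uniq
    intro z
    rw [AlgEquiv.mul_apply, hra, hra, AlgEquiv.mul_apply]
  obtain ⟨a', ha'd⟩ : ∃ a' : (F ≃ₐ[k] F) → ZMod 3, ∀ g, a' g = lam (ra g) := ⟨_, fun _ => rfl⟩
  have ha' : ∀ g g', a' (g * g') = a' g + a' g' := by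
    intro g g'
    rw [ha'd, ha'd, ha'd, hra_mul, hl]
  obtain ⟨c', hc'⟩ : ∃ c' : (F ≃ₐ[k] F) →* (ZMod n)ˣ, ∀ g, z0 ^ ((c' g : (ZMod n)ˣ) : ZMod n).val = g z0 :=
    ⟨hz0p.autToPow k, hz0p.autToPow_spec k⟩
  have hcq : ∀ (g : F ≃ₐ[k] F) (q : ℕ), g z0 = z0 ^ q → ((c' g : (ZMod n)ˣ) : ZMod n) = q := by
    intro g q hg
    have h1 := ex_pow hz0p ((hc' g).trans hg)
    rwa [ZMod.natCast_zmod_val] at h1
  have hψ1 : ψ 1 = 0 := by
    have h1 := hψ 1 1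
    rw [mul_one] at h1
    exact left_eq_add.1 h1
  obtain ⟨b', hb'd⟩ : ∃ b' : (F ≃ₐ[k] F) → ZMod 3, ∀ g, b' g = ψ (c' g) := ⟨_, fun _ => rfl⟩
  have hb' : ∀ g g', b' (g * g') = b' g + b' g' := by
    intro g g'
    rw [hb'd, hb'd, hb'd, map_mul, hψ]
  -- the Frobenius element
  obtain ⟨Q, hQ, hQP, g0, hg0⟩ := exists_frob (F := F) hP hP0
  have hQ0 : Q ≠ ⊥ := ex_bot (k := k) (by rw [hQP]; exact hP0)
  have hg0' : ∀ x y : 𝓞 F, (y : F) = g0 x →
      y - x ^ Ideal.absNorm (Q.comap (algebraMap (𝓞 k) (𝓞 F))) ∈ Q := by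
    rw [hQP]
    exact hg0
  have hnP : (n : 𝓞 k) ∉ P := by
    rw [hmem]
    intro hd
    have h1 := (Nat.prime_dvd_prime_iff_eq hp hn).1 hd
    omega
  have hnQ : (n : 𝓞 F) ∉ Q := by
    intro hc
    apply hnP
    rw [← hQP, Ideal.mem_comap, map_natCast]
    exact hc
  have ha0 : a' g0 ≠ 0 := by
    intro hz
    apply hns
    have h1 : ra g0 = 1 := hi _ (by rw [← ha'd]; exact hz)
    rw [← hQP]
    refine split_of_frob h.cyc ψE hQ hQ0 (by rw [hQP]; exact hram P hP hPf) g0 hg0' ?_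
    intro z
    rw [hra, h1]
    rfl
  have hcg0 : ((c' g0 : (ZMod n)ˣ) : ZMod n) = (Ideal.absNorm P : ℕ) :=
    hcq g0 _ (frob_zeta hQ hn.pos hnQ hz0p.pow_eq_one (g0 : F ≃+* F) hg0)
  have hpu : IsUnit ((p : ℕ) : ZMod n) :=
    (ZMod.isUnit_iff_coprime p n).2 ((Nat.coprime_primes hp hn).2 hnp.ne)
  obtain ⟨pu, hpu⟩ := hpu
  have hψpow : ∀ m : ℕ, ψ (pu ^ m) = m * ψ pu := by
    intro m
    induction m with
    | zero => rw [pow_zero, hψ1, Nat.cast_zero, zero_mul]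
    | succ m ih => rw [pow_succ, hψ, ih, Nat.cast_succ]; ring
  have hcg0' : c' g0 = pu ^ d := by
    apply Units.ext
    rw [hcg0, hNP, Units.val_pow_eq_pow_val, hpu, Nat.cast_pow]
  have hb0 : b' g0 ≠ 0 := by
    rw [hb'd, hcg0', hψpow]
    exact mul_ne_zero hd3 (hψp pu hpu)
  -- the crossed character
  obtain ⟨χ, hχd⟩ : ∃ χ : (F ≃ₐ[k] F) → ZMod 3, ∀ g, χ g = b' g0 * a' g - a' g0 * b' g :=
    ⟨_, fun _ => rfl⟩
  have hχ : ∀ g g', χ (g * g') = χ g + χ g' := by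
    intro g g'
    rw [hχd, hχd, hχd, ha', hb']
    ring
  have hχ0 : χ g0 = 0 := by
    rw [hχd]
    ring
  have hsh : ∀ (t : ℂ ≃+* ℂ) (g : F ≃ₐ[k] F) (c : ZMod 3), (∀ x, t (jF x) = jF (g x)) →
      Sh s j t c → a' g = c := by
    intro t g c htg hsh
    refine sh_unique h (t := t) ?_ hsh
    intro i x
    rw [← hψE (s i x), htg, hra, hψE, hs, ha'd]
  have hfix : ∀ (t : ℂ ≃+* ℂ) (c : ZMod 3), Sh s j t c →
      ∀ x : k, t (jF (algebraMap k F x)) = jF (algebraMap k F x) := by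
    intro t c hsh x
    rw [hjF]
    exact sh_fix h hsh x
  have hχne : ∃ g, χ g ≠ 0 := by
    obtain ⟨t, ht⟩ := exists_sh h 1
    have ht' := sh_conj h ht
    obtain ⟨g1, hg1⟩ := res_gal jF t (hfix t 1 ht)
    obtain ⟨g2, hg2⟩ := res_gal jF _ (hfix _ _ ht')
    have e1 : a' g1 = 1 := hsh t g1 1 hg1 ht
    have e2 : a' g2 = -1 := hsh _ g2 _ hg2 ht'
    have e3 : c' g2 = c' g1 := by
      apply Units.ext
      rw [← ZMod.natCast_zmod_val ((c' g1 : (ZMod n)ˣ) : ZMod n)]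
      apply hcq
      apply hjFi
      rw [← hg2, hz0, map_pow, hz0]
      have h5 : t ζ = ζ ^ ((c' g1 : (ZMod n)ˣ) : ZMod n).val := by
        rw [← hz0, hg1, ← hc' g1, map_pow]
      have h6 : cj ζ = ζ⁻¹ := by
        have h7 : ‖ζ‖ = 1 := hζ.norm'_eq_one hn.ne_zero
        show (starRingEnd ℂ) ζ = ζ⁻¹
        rw [Complex.inv_def, Complex.normSq_eq_norm_sq, h7]
        simp
      show cj (t (cj ζ)) = _
      rw [h6, map_inv₀, h5, map_inv₀, map_pow, h6, inv_pow, inv_inv]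
    have e4 : b' g2 = b' g1 := by rw [hb'd, hb'd, e3]
    by_contra hcon
    push Not at hcon
    have h1 := hcon g1
    have h2 := hcon g2
    rw [hχd, e1] at h1
    rw [hχd, e2, e4] at h2
    have h3 : 2 * b' g0 = 0 := by linear_combination h1 - h2
    have h4 : (2 : ZMod 3) ≠ 0 := by decide
    exact hb0 ((mul_eq_zero.1 h3).resolve_left h4)
  -- the field `Z`
  obtain ⟨Z, iZ, iNZ, iAZ, ψZ, lamZ, hZ, hlZ, hiZ, hlamZ, hfixZ⟩ := exists_fixed χ hχ hχne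
  have hgZ : IsGalois k Z := hZ.gal
  obtain ⟨fZ, φZ, hCFT⟩ := cft_exists hk hZ
  have hin : ∀ P' : Ideal (𝓞 k), P'.IsPrime → P' ≠ ⊥ → Cop f P' → (n : 𝓞 k) ∉ P' →
      ¬ RamIn Z P' := by
    intro P' hP' hP'0 hc hn'
    obtain ⟨Q', hQ', hQP', -, -⟩ := exists_frob (F := F) hP' hP'0
    have hQ'0 : Q' ≠ ⊥ := ex_bot (k := k) (by rw [hQP']; exact hP'0)
    rw [← hQP']
    refine not_ram hZ ψZ hQ' hQ'0 ?_
    intro g hg
    have h1 : ∀ z, g (ψE z) = ψE z :=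
      unr_fix h.cyc ψE hQ' hQ'0 (by rw [hQP']; exact hram P' hP' hc) g hg
    have h2 : ra g = 1 := hra_uniq g 1 h1
    have h3 : a' g = 0 := by rw [ha'd, h2, hlam1]
    have hnQ' : (n : 𝓞 F) ∉ Q' := by
      intro hc
      apply hn'
      rw [← hQP', Ideal.mem_comap, map_natCast]
      exact hc
    have h4 : g z0 = z0 ^ 1 := frob_zeta hQ' hn.pos hnQ' hz0p.pow_eq_one (g : F ≃+* F)
      (by intro x y hxy; rw [pow_one]; exact hg x y hxy)
    have h5 : c' g = 1 := Units.ext (by rw [hcq g 1 h4]; simp)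
    have h6 : b' g = 0 := by rw [hb'd, h5, hψ1]
    exact hfixZ g (by rw [hχd, h3, h6]; ring)
  have hpfZ : ¬ p ∣ fZ := by
    intro hd
    obtain ⟨P', hP', hpP', hr'⟩ := hCFT.ram p hp hd
    have hP'0 : P' ≠ ⊥ := by
      rintro rfl
      rw [Ideal.mem_bot] at hpP'
      exact hp.ne_zero (by exact_mod_cast hpP')
    refine hin P' hP' hP'0 ((cop_prime hp hP' hpP' hP'0).2 hpf) ?_ hr'
    intro hn'
    obtain ⟨p', hp', -, -, hm'⟩ := exists_prime_mem hP' hP'0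
    have h1 := (hm' p).1 hpP'
    have h2 := (hm' n).1 hn'
    rw [Nat.prime_dvd_prime_iff_eq hp' hp] at h1
    rw [Nat.prime_dvd_prime_iff_eq hp' hn] at h2
    omega
  have hsZ : SplitsIn Z P := by
    rw [← hQP]
    exact split_of_frob hZ ψZ hQ hQ0 (by rw [hQP]; exact hin P hP hP0 hPf hnP) g0 hg0'
      (hfixZ g0 hχ0)
  have hφZP : φZ P = 0 := hCFT.split P hP ((cop_prime hp hP hpP hP0).2 hpfZ) hsZ
  -- the common level
  have hfZ0 := hCFT.pos
  have hf0 : f ≠ 0 := by omega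
  obtain ⟨f', hf'⟩ : ∃ f' : ℕ, f' = f * fZ * n := ⟨_, rfl⟩
  have hf'0 : f' ≠ 0 := by
    rw [hf']
    exact mul_ne_zero (mul_ne_zero hf0 hfZ0) hn.ne_zero
  have hff' : f ∣ f' := ⟨fZ * n, by rw [hf']; ring⟩
  have hfZf' : fZ ∣ f' := ⟨f * n, by rw [hf']; ring⟩
  have hnf' : n ∣ f' := ⟨f * fZ, by rw [hf']; ring⟩
  have hf'3 : 3 ≤ f' := hf.trans (Nat.le_of_dvd (Nat.pos_of_ne_zero hf'0) hff')
  have hpf' : ¬ p ∣ f' := by
    rw [hf']
    intro hd
    rcases hp.dvd_mul.1 hd with h1 | h1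
    · rcases hp.dvd_mul.1 h1 with h2 | h2
      · exact hpf h2
      · exact hpfZ h2
    · rw [Nat.prime_dvd_prime_iff_eq hp hn] at h1
      omega
  have hPf' : Cop f' P := (cop_prime hp hP hpP hP0).2 hpf'
  have hφ' : RayChar f' φ := ray_dvd hff' hφ
  have hφZ' : RayChar f' φZ := ray_dvd hfZf' hCFT.ray
  obtain ⟨ε, hε, hide⟩ := ident hk h.cyc hf'3 j hφ' (ex_lift_ne hk hf0 hf'0 hφ hne)
    (fun P hP hc hs => hsp P hP (cop_dvd hff' hc) hs) lam hl hi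
  obtain ⟨jZ, hjZ⟩ : ∃ jZ : Z →+* ℂ, ∀ z, jZ z = jF (ψZ z) :=
    ⟨jF.comp (ψZ : Z →+* F), fun _ => rfl⟩
  have hjk : (jk (k := k) jZ) = jk (k := k) j := by
    refine RingHom.ext fun x => ?_
    show jZ (algebraMap k Z x) = _
    rw [hjZ, ψZ.commutes, hjF]
  obtain ⟨εZ, hεZ, hidZ⟩ := ident hk hZ hf'3 jZ hφZ' (ex_lift_ne hk hfZ0 hf'0 hCFT.ray hCFT.nonzero)
    (fun P hP hc hs => hCFT.split P hP (cop_dvd hfZf' hc) hs) lamZ hlZ hiZ
  -- the automorphism with class `P`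
  obtain ⟨t', γ, u, ht'f, hact, hreq⟩ := act_surj hk (jk (k := k) j) hf'3 hPf'
  have hcu : Cop f' u := hact.cop
  have h1 : φ u = 0 := by
    rw [ray_req hφ' hcu hreq]
    exact h0
  have h2 : φZ u = 0 := by
    rw [ray_req hφZ' hcu hreq]
    exact hφZP
  obtain ⟨g, hg⟩ := res_gal jF t' (fun x => by rw [hjF]; exact ht'f x)
  have h3 : a' g = 0 := by
    have h4 := hide t' (ra g) (fun x => by rw [← hψE, hg, hra, hψE]) γ u hact
    rw [h1, ← ha'd] at h4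
    exact (mul_eq_zero.1 h4.symm).resolve_left hε
  obtain ⟨gz, hgz⟩ := ex_restr ψZ g
  have h5 : χ g = 0 := by
    have h6 := hidZ t' gz (fun x => by rw [hjZ, hjZ, hg, hgz]) γ u (by rw [hjk]; exact hact)
    rw [h2, hlamZ g gz hgz] at h6
    exact (mul_eq_zero.1 h6.symm).resolve_left hεZ
  have h7 : b' g = 0 := by
    rw [hχd, h3, mul_zero, zero_sub, neg_eq_zero] at h5
    exact (mul_eq_zero.1 h5).resolve_left ha0
  have h9 : t' ζ = ζ ^ Ideal.absNorm u := by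
    have h10 := act_zeta hk ht'f hf'3 hact
    have h11 : ζ = Complex.exp (2 * Real.pi * I / f') ^ (f * fZ) := by
      rw [hζd, ← Complex.exp_nat_mul]
      congr 1
      have e1 : (f : ℂ) ≠ 0 := Nat.cast_ne_zero.2 hf0
      have e2 : (fZ : ℂ) ≠ 0 := Nat.cast_ne_zero.2 hfZ0
      have e3 : (n : ℂ) ≠ 0 := Nat.cast_ne_zero.2 hn.ne_zero
      rw [hf']
      push_cast
      field_simp
    rw [h11, map_pow, h10, ← pow_mul, ← pow_mul, mul_comm (Ideal.absNorm u)]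
  have h12 : ((c' g : (ZMod n)ˣ) : ZMod n) = (Ideal.absNorm u : ℕ) := by
    apply hcq
    apply hjFi
    rw [← hg, hz0, h9, map_pow, hz0]
  have h13 : ((Ideal.absNorm u : ℕ) : ZMod n) = (Ideal.absNorm P : ℕ) := by
    have h14 := req_norm hk hreq
    rw [ZMod.natCast_eq_natCast_iff] at h14 ⊢
    exact h14.of_dvd hnf'
  have h15 : c' g = c' g0 := Units.ext (by rw [h12, h13, hcg0])
  apply hb0
  rw [hb'd, ← h15, ← hb'd]
  exact h7

end CMS
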