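import Pool.Agent.Lib.CMS.Ifc
import Pool.Agent.Lib.MP_d9f52e_nt.TZQ

/-!
# EZZ: the functions `ZZ`  (about 200 lines; adapt `MP_d9f52e_nt/TZZ.lean`)

* `TT_hasSum_nat`: group the ideals of `TT_hasSum` by their norm (`HasSum.sigma` along `Equiv.sigmaFiberEquiv`, see `zeta_ideals` in `MP_d9f52e_nt/AEnd.lean`); there are finitely many ideals of norm `n`
  (`Ideal.finite_setOf_absNorm_eq`), so `tt f φ n` (a `finsum`) is the finite sum; `n = 0`: no `Cop f` ideal has norm `0` (it is not `⊥`), `tt f φ 0 = 0`.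
* `ZZ_diff`: `zQ_diff`, `TT_diff`.  `ZZ_deriv`: product rule, `TT_zero`, `TT_deriv`, `zQ_zero`.  `ZZ_coeff`: as in `TZZ.lean` word for word.
-/

set_option autoImplicit false

namespace CMS

open Complex NumberField MPd9f52e

variable {k : Type} [Field k] [NumberField k] {f m : ℕ} {φ : Ideal (𝓞 k) → ZMod 3}

private theorem ezz_dom_open : IsOpen Dom := by
  have h1 : IsOpen {s : ℂ | -1 / 2 < s.re} := isOpen_lt continuous_const Complex.continuous_re
  have h2 : IsOpen {s : ℂ | s ≠ 1} := isOpen_ne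
  exact h1.inter h2

private theorem ezz_zero_mem : (0 : ℂ) ∈ Dom := by
  constructor
  · simp
    norm_num
  · exact zero_ne_one

theorem TT_hasSum_nat (hk : IQ k) (e : k →+* ℂ) (hf : 3 ≤ f) (hmf : m ∣ f) (hφ : RayChar f φ) (g : ZMod m) {s : ℂ}
    (hs : 1 < s.re) :
    HasSum (fun n : ℕ => if (n : ZMod m) = g then tt f φ n * (n : ℂ) ^ (-s) else 0) (TT e f m φ g s) := by
  have h0 := TT_hasSum hk e hf hmf hφ g hs
  have h1 := (Equiv.sigmaFiberEquiv (fun b : {b : Ideal (𝓞 k) // Cop f b ∧ (Ideal.absNorm b : ZMod m) = g} =>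
    Ideal.absNorm b.1)).hasSum_iff.mpr h0
  apply h1.sigma
  intro n
  have hfin : {a : Ideal (𝓞 k) | Cop f a ∧ Ideal.absNorm a = n}.Finite :=
    (Ideal.finite_setOfPred_absNorm_eq (S := 𝓞 k) n).subset (fun a h => h.2)
  by_cases hn : ((n : ℕ) : ZMod m) = g
  · rw [if_pos hn]
    have h2 : HasSum ((fun a : Ideal (𝓞 k) => wj (φ a) * (n : ℂ) ^ (-s)) ∘
        ((↑) : {p // p ∈ hfin.toFinset} → Ideal (𝓞 k)))
        (∑ a ∈ hfin.toFinset, wj (φ a) * (n : ℂ) ^ (-s)) :=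
      Finset.hasSum hfin.toFinset _
    have e1 : tt f φ n * (n : ℂ) ^ (-s) = ∑ a ∈ hfin.toFinset, wj (φ a) * (n : ℂ) ^ (-s) := by
      unfold tt
      rw [finsum_mem_eq_finite_toFinset_sum _ hfin, Finset.sum_mul]
    rw [e1]
    let E : {b : {b : Ideal (𝓞 k) // Cop f b ∧ (Ideal.absNorm b : ZMod m) = g} // Ideal.absNorm b.1 = n} ≃
        {p // p ∈ hfin.toFinset} :=
      ⟨fun b => ⟨b.1.1, by rw [Set.Finite.mem_toFinset]; exact ⟨b.1.2.1, b.2⟩⟩,
       fun p => ⟨⟨p.1, by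
          have := p.2
          rw [Set.Finite.mem_toFinset] at this
          exact ⟨this.1, by rw [this.2]; exact hn⟩⟩, by
          have := p.2
          rw [Set.Finite.mem_toFinset] at this
          exact this.2⟩,
       fun b => rfl, fun p => rfl⟩
    have h3 := E.hasSum_iff.mpr h2
    refine h3.congr_fun ?_
    intro b
    have hb : Ideal.absNorm b.1.1 = n := b.2
    simp only [Function.comp_apply, Equiv.sigmaFiberEquiv_apply]
    rw [hb]
    rfl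
  · rw [if_neg hn]
    have : IsEmpty {b : {b : Ideal (𝓞 k) // Cop f b ∧ (Ideal.absNorm b : ZMod m) = g} // Ideal.absNorm b.1 = n} := by
      refine ⟨fun b => hn ?_⟩
      rw [← b.2]
      exact b.1.2.2
    exact hasSum_empty

theorem ZZ_diff [NeZero m] (hk : IQ k) (e : k →+* ℂ) (hf : 3 ≤ f) (g : ZMod m) :
    DifferentiableOn ℂ (ZZ e f m φ g) Dom := by
  have hm : 1 ≤ m := Nat.one_le_iff_ne_zero.mpr (NeZero.ne m)
  unfold ZZ
  apply DifferentiableOn.fun_sum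
  intro b _ s hs
  exact (zQ_diff hm _ hs.2).differentiableWithinAt.mul (TT_diff hk e hf _ s hs)

theorem ZZ_deriv [NeZero m] (hk : IQ k) (e : k →+* ℂ) (hf : 3 ≤ f) (hm : 2 ≤ m) (hmf : m ∣ f) (hφ : RayChar f φ)
    (hcj : ∀ a, Cop f a → φ (cjI hk a) = - φ a) (g : (ZMod m)ˣ) :
    deriv (ZZ e f m φ (g : ZMod m)) 0 = ((∑ b : (ZMod m)ˣ, (1 / 2 - ((b : ZMod m).val : ℝ) / m) *
      (-2 * (Real.log (Phi e f m φ 0 ((g * b⁻¹ : (ZMod m)ˣ) : ZMod m)) -
        Real.log (Phi e f m φ 1 ((g * b⁻¹ : (ZMod m)ˣ) : ZMod m)))) : ℝ) : ℂ) := by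
  have hm1 : 1 ≤ m := by omega
  have hT : ∀ h : ZMod m, DifferentiableAt ℂ (TT e f m φ h) 0 := fun h =>
    (TT_diff hk e hf h).differentiableAt (ezz_dom_open.mem_nhds ezz_zero_mem)
  have hz : ∀ b : ZMod m, DifferentiableAt ℂ (zQ m b) 0 := fun b => zQ_diff hm1 b zero_ne_one
  have h1 : HasDerivAt (ZZ e f m φ (g : ZMod m)) (∑ b : (ZMod m)ˣ,
      (deriv (zQ m (b : ZMod m)) 0 * TT e f m φ (g * ((b⁻¹ : (ZMod m)ˣ) : ZMod m)) 0 +
        zQ m (b : ZMod m) 0 * deriv (TT e f m φ (g * ((b⁻¹ : (ZMod m)ˣ) : ZMod m))) 0)) 0 := by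
    unfold ZZ
    apply HasDerivAt.fun_sum
    intro b _
    exact (hz b).hasDerivAt.mul (hT _).hasDerivAt
  rw [h1.deriv]
  push_cast
  apply Finset.sum_congr rfl
  intro b _
  rw [TT_zero hk e hf, mul_zero, zero_add, zQ_zero hm, TT_deriv hk e hf hmf hφ hcj]
  push_cast
  rfl

private theorem ezz_prod {f g : ℕ → ℂ} {a b : ℂ} (hf : HasSum f a) (hg : HasSum g b) :
    HasSum (fun p : ℕ × ℕ => f p.1 * g p.2) (a * b) :=
  hf.mul hg (summable_mul_of_summable_norm hf.summable.norm hg.summable.norm)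

/-- the summand of the double series -/
private noncomputable def EHH (f m : ℕ) (φ : Ideal (𝓞 k) → ZMod 3) (g : ZMod m) (s : ℂ) (p : ℕ × ℕ) : ℂ :=
  if ((p.1 * p.2 : ℕ) : ZMod m) = g then (p.1 : ℂ) ^ (-s) * (tt f φ p.2 * (p.2 : ℂ) ^ (-s)) else 0

private theorem EHH_hasSum [NeZero m] (hk : IQ k) (e : k →+* ℂ) (hf : 3 ≤ f) (hm : 2 ≤ m) (hmf : m ∣ f)
    (hφ : RayChar f φ) (g : (ZMod m)ˣ) {s : ℂ} (hs : 1 < s.re) :
    HasSum (EHH f m φ (g : ZMod m) s) (ZZ e f m φ (g : ZMod m) s) := by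
  have h1 : ∀ b : (ZMod m)ˣ, HasSum (fun p : ℕ × ℕ =>
      (if ((p.1 : ℕ) : ZMod m) = b then (p.1 : ℂ) ^ (-s) else 0) *
      (if ((p.2 : ℕ) : ZMod m) = (g : ZMod m) * ((b⁻¹ : (ZMod m)ˣ) : ZMod m) then
        tt f φ p.2 * (p.2 : ℂ) ^ (-s) else 0))
      (zQ m (b : ZMod m) s * TT e f m φ (g * ((b⁻¹ : (ZMod m)ˣ) : ZMod m)) s) := by
    intro b
    have hA := zQ_hasSum hm b hs
    have hB := TT_hasSum_nat hk e hf hmf hφ ((g : ZMod m) * ((b⁻¹ : (ZMod m)ˣ) : ZMod m)) hs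
    have hD := ezz_prod hA hB
    exact hD
  have h2 := hasSum_sum (s := (Finset.univ : Finset (ZMod m)ˣ)) (fun b _ => h1 b)
  have h3 : ZZ e f m φ (g : ZMod m) s = ∑ b : (ZMod m)ˣ,
      zQ m (b : ZMod m) s * TT e f m φ (g * ((b⁻¹ : (ZMod m)ˣ) : ZMod m)) s := rfl
  rw [h3]
  refine h2.congr_fun ?_
  rintro ⟨x, y⟩
  unfold EHH
  simp only
  by_cases hx : IsUnit ((x : ℕ) : ZMod m)
  · obtain ⟨u, hu⟩ := hx
    rw [Finset.sum_eq_single u]
    · rw [if_pos hu.symm]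
      have e1 : (((x * y : ℕ) : ZMod m) = g) ↔
          (((y : ℕ) : ZMod m) = (g : ZMod m) * ((u⁻¹ : (ZMod m)ˣ) : ZMod m)) := by
        rw [Units.eq_mul_inv_iff_mul_eq, hu, Nat.cast_mul, mul_comm]
      by_cases h : ((x * y : ℕ) : ZMod m) = g
      · rw [if_pos h, if_pos (e1.mp h)]
      · rw [if_neg h, if_neg (fun h' => h (e1.mpr h')), mul_zero]
    · intro b _ hb
      rw [if_neg, zero_mul]
      intro h
      exact hb (Units.ext (by rw [← h, hu]))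
    · intro h
      exact absurd (Finset.mem_univ _) h
  · rw [if_neg, Finset.sum_eq_zero]
    · intro b _
      rw [if_neg, zero_mul]
      intro h
      exact hx (h ▸ b.isUnit)
    · intro h
      apply hx
      rw [Nat.cast_mul] at h
      exact isUnit_of_mul_isUnit_left (h ▸ g.isUnit)

theorem ZZ_coeff [NeZero m] (hk : IQ k) (e : k →+* ℂ) (hf : 3 ≤ f) (hm : 2 ≤ m) (hmf : m ∣ f) (hφ : RayChar f φ)
    (g : (ZMod m)ˣ) {s : ℂ} (hs : 1 < s.re) :
    HasSum (fun n : ℕ => if (n : ZMod m) = g then (∑ d ∈ n.divisors, tt f φ d) * (n : ℂ) ^ (-s) else 0)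
      (ZZ e f m φ (g : ZMod m) s) := by
  have : Fact (1 < m) := ⟨by omega⟩
  have h0 := EHH_hasSum hk e hf hm hmf hφ g hs
  have h1 : HasSum (EHH f m φ (g : ZMod m) s ∘ (Equiv.sigmaFiberEquiv (fun p : ℕ × ℕ => p.1 * p.2)))
      (ZZ e f m φ (g : ZMod m) s) := (Equiv.sigmaFiberEquiv _).hasSum_iff.mpr h0
  apply h1.sigma
  intro n
  by_cases hn : ((n : ℕ) : ZMod m) = g
  · rw [if_pos hn]
    have hn0 : n ≠ 0 := by
      rintro rfl
      rw [Nat.cast_zero] at hn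
      exact g.ne_zero hn.symm
    have h2 : HasSum (EHH f m φ (g : ZMod m) s ∘ ((↑) : {p // p ∈ n.divisorsAntidiagonal} → ℕ × ℕ))
        (∑ p ∈ n.divisorsAntidiagonal, EHH f m φ (g : ZMod m) s p) :=
      Finset.hasSum n.divisorsAntidiagonal _
    have h3 := (Equiv.subtypeEquivRight (fun p : ℕ × ℕ => show p.1 * p.2 = n ↔
      p ∈ n.divisorsAntidiagonal by rw [Nat.mem_divisorsAntidiagonal]; tauto)).hasSum_iff.mpr h2
    have e1 : ∑ p ∈ n.divisorsAntidiagonal, EHH f m φ (g : ZMod m) s p =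
        (∑ d ∈ n.divisors, tt f φ d) * (n : ℂ) ^ (-s) := by
      have e2 : ∀ p ∈ n.divisorsAntidiagonal, EHH f m φ (g : ZMod m) s p =
          tt f φ p.2 * (n : ℂ) ^ (-s) := by
        rintro ⟨x, y⟩ hp
        rw [Nat.mem_divisorsAntidiagonal] at hp
        unfold EHH
        simp only at hp ⊢
        rw [hp.1, if_pos hn, ← hp.1, Nat.cast_mul, Complex.natCast_mul_natCast_cpow]
        ring
      rw [Finset.sum_congr rfl e2,
        Nat.sum_divisorsAntidiagonal' (fun _ y => tt f φ y * (n : ℂ) ^ (-s)), Finset.sum_mul]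
    rw [← e1]
    exact h3
  · rw [if_neg hn]
    have h2 : ∀ x : {p : ℕ × ℕ // p.1 * p.2 = n}, (EHH f m φ (g : ZMod m) s ∘
        (Equiv.sigmaFiberEquiv (fun p : ℕ × ℕ => p.1 * p.2))) ⟨n, x⟩ = 0 := by
      rintro ⟨⟨x, y⟩, hxy⟩
      show EHH f m φ (g : ZMod m) s (x, y) = 0
      unfold EHH
      simp only at hxy ⊢
      rw [hxy, if_neg hn]
    exact hasSum_zero.congr_fun h2

end CMS
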