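import Pool.Agent.Lib.CMS.KDec

/-!
# KCount: the number of ideals of norm `n` of a complex cubic field
-/

set_option autoImplicit false
set_option linter.unusedSectionVars false

open ArithmeticFunction NumberField MPd9f52e

namespace CMS

theorem kc_wj_pair {c : ZMod 3} (hc : c ≠ 0) : wj c + wj (-c) = -1 ∧ wj c * wj (-c) = 1 := by
  have h1 : wj 1 = w := by
    unfold wj
    have : (1 : ZMod 3).val = 1 := rfl
    rw [this, pow_one]
  have h2 : wj 2 = -1 - w := by
    unfold wj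
    have : (2 : ZMod 3).val = 2 := rfl
    rw [this, w_sq]
  have h4 : wj c * wj (-c) = 1 := by
    rw [← kt_wj_add, add_neg_cancel, kt_wj_zero]
  refine ⟨?_, h4⟩
  have key : ∀ c : ZMod 3, c ≠ 0 → c = 1 ∨ c = 2 := by decide
  have h3 : c = 1 ∨ c = 2 := key c hc
  rcases h3 with rfl | rfl
  · have : (-1 : ZMod 3) = 2 := by decide
    rw [this, h1, h2]
    ring
  · have : (-2 : ZMod 3) = 1 := by decide
    rw [this, h1, h2]
    ring

variable {K k E : Type} [Field K] [NumberField K] [Field k] [NumberField k] [Field E]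
  [NumberField E] [Algebra k E] {s : ZMod 3 → K →+* E} {j : E →+* ℂ}

theorem kc_loc (h : Dih K k E s j) {f : ℕ} {φ : Ideal (𝓞 k) → ZMod 3}
    (hcj : ∀ a, Cop f a → φ (cjI h.iq a) = -φ a)
    (hex : ∀ P : Ideal (𝓞 k), P.IsPrime → Cop f P → (φ P = 0 ↔ SplitsIn E P))
    {p : ℕ} (hp : p.Prime) (hpf : ¬ p ∣ f) (hr : ∀ P ∈ primesAt k p, ¬ RamIn E P) :
    locD K p = (1 - dl p) * ∏ P ∈ primesAt k p, (1 - wj (φ P) • dl (Ideal.absNorm P)) := by
  classical
  letI : Algebra K E := (s 0).toAlgebra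
  have h2 : Module.finrank K E = 2 := kd_finrank h 0
  rcases kq_cases h.iq hp with ⟨P, hne, htwo, e1, f1, e2, f2⟩ | ⟨P, hcjP, hone, hef⟩
  · have hP : P ∈ primesAt k p := by rw [htwo]; exact Finset.mem_insert_self _ _
    have hP' : cjI h.iq P ∈ primesAt k p := kq_cjI_mem h.iq hp hP
    have hc := kt_cop_of_mem hp hpf hP
    have hc' := kt_cop_of_mem hp hpf hP'
    have hPp := (kef_mem hp hP).1
    have hPp' := (kef_mem hp hP').1
    have n1 : Ideal.absNorm P = p := by rw [kef_norm hp hP, f1, pow_one]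
    have n2 : Ideal.absNorm (cjI h.iq P) = p := by rw [kef_norm hp hP', f2, pow_one]
    rw [htwo, Finset.prod_pair hne, n1, n2, hcj P hc]
    by_cases h0 : φ P = 0
    · rw [h0, neg_zero, kt_wj_zero, one_smul]
      rw [kl_A (E := E) (k := k) h.three h2 h.cyc hp]
      · ring
      · intro Q hQ
        rw [htwo, Finset.mem_insert, Finset.mem_singleton] at hQ
        rcases hQ with rfl | rfl
        · exact ⟨e1, f1, (hex _ hPp hc).1 h0⟩
        · refine ⟨e2, f2, (hex _ hPp' hc').1 ?_⟩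
          rw [hcj P hc, h0, neg_zero]
    · rw [kl_B (E := E) (k := k) h.three h2 h.cyc hp hP
        (fun hs => h0 ((hex _ hPp hc).2 hs)) (hr P hP)]
      obtain ⟨w1, w2⟩ := kc_wj_pair h0
      have d1 : dl p * dl p = dl (p ^ 2) := by rw [dl_mul_dl hp.pos hp.pos, pow_two]
      have d2 : dl p * dl (p ^ 2) = dl (p ^ 3) := by
        rw [dl_mul_dl hp.pos (pow_pos hp.pos 2)]
        congr 1
        ring
      have e3 : (1 - wj (φ P) • dl p) * (1 - wj (-φ P) • dl p) =
          1 - (wj (φ P) + wj (-φ P)) • dl p + (wj (φ P) * wj (-φ P)) • (dl p * dl p) := by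
        rw [sub_mul, mul_sub, mul_sub, one_mul, one_mul, mul_one, smul_mul_smul_comm, add_smul]
        abel
      rw [e3, w1, w2, one_smul, d1]
      have e4 : (1 - dl p) * (1 - (-1 : ℂ) • dl p + dl (p ^ 2)) =
          1 + dl p + dl (p ^ 2) - dl p - dl p * dl p - dl p * dl (p ^ 2) := by
        rw [neg_smul, one_smul]
        ring
      rw [e4, d1, d2]
      ring
  · have hP : P ∈ primesAt k p := by rw [hone]; exact Finset.mem_singleton_self _
    have hc := kt_cop_of_mem hp hpf hP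
    have hPp := (kef_mem hp hP).1
    have h0 : φ P = 0 := by
      have h3 := hcj P hc
      rw [hcjP] at h3
      have : ∀ c : ZMod 3, c = -c → c = 0 := by decide
      exact this _ h3
    have hs : SplitsIn E P := (hex _ hPp hc).1 h0
    have hne3 := kd_ne3 h hp hone hs
    rw [hone, Finset.prod_singleton, h0, kt_wj_zero, one_smul]
    rcases hef with ⟨e1, f1⟩ | ⟨e1, f1⟩
    · rw [kef_norm hp hP, f1, kl_C (E := E) (k := k) h.three h2 h.cyc hp hone e1 f1 hs hne3]
    · rw [kef_norm hp hP, f1, pow_one, kl_D (E := E) (k := k) h.three h2 h.cyc hp hone e1 f1 hs hne3]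

theorem kc_eq (h : Dih K k E s j) {m f : ℕ} {φ : Ideal (𝓞 k) → ZMod 3} (hφ : RayChar f φ)
    (hcj : ∀ a, Cop f a → φ (cjI h.iq a) = -φ a)
    (hex : ∀ P : Ideal (𝓞 k), P.IsPrime → Cop f P → (φ P = 0 ↔ SplitsIn E P))
    (hlev : ∀ p : ℕ, p.Prime → (p ∣ f ↔ (p ∣ m ∨ ∃ P : Ideal (𝓞 k), P.IsPrime ∧
      (p : 𝓞 k) ∈ P ∧ RamIn E P))) :
    JJ K m = ZI m * TSS f φ ∅ := by
  classical
  refine eq_of_loc (JJ_one K m) ?_ ?_
  · rw [ArithmeticFunction.mul_apply]
    simp only [Nat.divisorsAntidiagonal_one, Finset.sum_singleton]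
    rw [kt_one hφ, mul_one]
    simp [ZI]
  · intro p hp
    by_cases hpm : p ∣ m
    · refine ⟨1, Loc.one p, ?_, ?_⟩
      · rw [one_mul]
        intro n hn
        simp only [JJ, ArithmeticFunction.coe_mk]
        rw [if_neg]
        rintro ⟨-, hc⟩
        exact hp.one_lt.ne' (Nat.dvd_one.1 (hc ▸ Nat.dvd_gcd hn hpm))
      · rw [one_mul]
        exact Off.mul hp (off_Z' hp hpm) (kt_off' φ hp ((hlev p hp).2 (Or.inl hpm)))
    · obtain ⟨D', h1, h2⟩ : ∃ D' : ArithmeticFunction ℂ, locD K p = (1 - dl p) * D' ∧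
          Off p (D' * TSS f φ ∅) := by
        by_cases hpf : p ∣ f
        · refine ⟨1, ?_, ?_⟩
          · rw [mul_one]
            rcases (hlev p hp).1 hpf with h3 | ⟨P, hP, hpP, hr⟩
            · exact absurd h3 hpm
            · letI : Algebra K E := (s 0).toAlgebra
              exact kl_R (E := E) (k := k) h.three (kd_finrank h 0) hp
                ((mem_primesAt k hp P).2 ⟨hP, hpP⟩) hr
          · rw [one_mul]
            exact kt_off' φ hp hpf
        · refine ⟨_, kc_loc h hcj hex hp hpf ?_, kt_off hφ hp hpf⟩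
          intro P hP hr
          have := (mem_primesAt k hp P).1 hP
          exact hpf ((hlev p hp).2 (Or.inr ⟨P, this.1, this.2, hr⟩))
      refine ⟨locD K p, loc_J K hp, off_J K m hp hpm, ?_⟩
      have : locD K p * (ZI m * TSS f φ ∅) = ((1 - dl p) * ZI m) * (D' * TSS f φ ∅) := by
        rw [h1]; ring
      rw [this]
      exact Off.mul hp (off_Z hp hpm) h2

/-- the number of ideals of `K` of norm `n` prime to `m` -/
theorem card_ideals {K k E : Type} [Field K] [NumberField K] [Field k] [NumberField k] [Field E]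
    [NumberField E] [Algebra k E] {s : ZMod 3 → K →+* E} {j : E →+* ℂ} (h : Dih K k E s j)
    {m f : ℕ} (hf : f ≠ 0) {φ : Ideal (𝓞 k) → ZMod 3} (hφ : RayChar f φ)
    (hcj : ∀ a, Cop f a → φ (cjI h.iq a) = -φ a)
    (hex : ∀ P : Ideal (𝓞 k), P.IsPrime → Cop f P → (φ P = 0 ↔ SplitsIn E P))
    (hlev : ∀ p : ℕ, p.Prime → (p ∣ f ↔ (p ∣ m ∨ ∃ P : Ideal (𝓞 k), P.IsPrime ∧
      (p : 𝓞 k) ∈ P ∧ RamIn E P))) {n : ℕ} (hn : n ≠ 0) (hnm : Nat.Coprime n m) :
    (Nat.card {I : Ideal (𝓞 K) // Ideal.absNorm I = n} : ℂ) = ∑ e ∈ n.divisors, tt f φ e := by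
  have _ := hf
  have h1 : JJ K m n = (ZI m * TSS f φ ∅) n := by rw [kc_eq h hφ hcj hex hlev]
  rw [ArithmeticFunction.mul_apply] at h1
  have h0 : JJ K m n = (Nat.card {I : Ideal (𝓞 K) // Ideal.absNorm I = n} : ℂ) := by
    simp only [JJ, ArithmeticFunction.coe_mk]
    rw [if_pos ⟨hn, hnm⟩]
  rw [← h0, h1, Nat.sum_divisorsAntidiagonal' (f := fun a b => ZI m a * TSS f φ ∅ b)]
  refine Finset.sum_congr rfl fun e he => ?_
  have hed : e ∣ n := Nat.dvd_of_mem_divisors he
  have he0 : e ≠ 0 := fun h0 => hn (Nat.eq_zero_of_zero_dvd (h0 ▸ hed))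
  have h2 : ZI m (n / e) = 1 := by
    simp only [ZI, ArithmeticFunction.coe_mk]
    rw [if_pos]
    exact ⟨(Nat.div_pos (Nat.le_of_dvd (Nat.pos_of_ne_zero hn) hed)
      (Nat.pos_of_ne_zero he0)).ne', Nat.Coprime.coprime_dvd_left (Nat.div_dvd_of_dvd hed) hnm⟩
  rw [h2, one_mul, TSS_empty]

end CMS
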