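import Pool.Agent.Lib.CMS.EZ
import Pool.Agent.Lib.CMS.EZZ
import Pool.Agent.Lib.CMS.KCount
import Pool.Agent.Lib.CMS.AMain

/-!
# EFin: Stark's conjecture for the subextensions of `K(ζ_m) / K`, `K` a complex cubic field

* `zeta_ideals`: by `ZZ_coeff` and `card_ideals` the series over `n ≡ g` of the number of ideals of norm `n` times `n ^ (-s)` has
  sum `ZZ e f m φ g s`; the ideals of given norm are finite in number. Group the ideals by their norm.
* `stark_cub`: `S` from `cyc_equiv`, `ι` from `exists_iota`, `iota_nonreal`; the data of `rdata_exists` for `ι` on `K`; `z` from `exists_z`;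
  `ZZ_diff`, `ZZ_deriv`; `stark_of_data`.
-/

set_option autoImplicit false

open NumberField MPd9f52e

namespace CMS

variable {m : ℕ} [NeZero m] {K L M : Type} [Field K] [NumberField K] [Field L] [NumberField L]
  [Field M] [NumberField M] [Algebra K M] [Algebra K L] [Algebra L M] [IsScalarTower K L M] {ζ : M}

theorem zeta_ideals {k E : Type} [Field k] [NumberField k] [Field E] [NumberField E] [Algebra k E]
    {s : ZMod 3 → K →+* E} {j : E →+* ℂ} {f : ℕ} {φ : Ideal (𝓞 k) → ZMod 3} (h : RData K k E s j m f φ) (hm : 2 ≤ m)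
    (g : (ZMod m)ˣ) {t : ℂ} (ht : 1 < t.re) :
    HasSum
      (fun a : {a : Ideal (𝓞 K) // a ≠ ⊥ ∧ (g : ZMod m) = (Ideal.absNorm a : ZMod m)} =>
        (Ideal.absNorm a.1 : ℂ) ^ (-t)) (ZZ (jk (k := k) j) f m φ (g : ZMod m) t) := by
  have hm1 : 1 ≤ m := by omega
  -- the number of ideals of norm `n`
  set c : ℕ → ℂ := fun n => (Nat.card {I : Ideal (𝓞 K) // Ideal.absNorm I = n} : ℂ) with hc
  have hcop : ∀ n : ℕ, (n : ZMod m) = g → Nat.Coprime n m := by
    intro n hn
    rw [← ZMod.isUnit_iff_coprime, hn]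
    exact g.isUnit
  have hn0 : ∀ n : ℕ, (n : ZMod m) = g → n ≠ 0 := by
    rintro n hn rfl
    have := hcop 0 hn
    rw [Nat.coprime_zero_left] at this
    omega
  have hsum : ∀ t : ℂ, 1 < t.re → HasSum (fun n : ℕ => if (n : ZMod m) = g then
      c n * (n : ℂ) ^ (-t) else 0) (ZZ (jk (k := k) j) f m φ (g : ZMod m) t) := by
    intro t ht
    have := ZZ_coeff h.dih.iq (jk (k := k) j) h.three_le hm h.dvd h.ray g ht
    convert this using 2 with n
    by_cases hn : (n : ZMod m) = g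
    · rw [if_pos hn, if_pos hn, hc, ← card_ideals h.dih (by have := h.three_le; omega) h.ray h.cj h.ex h.lev
        (hn0 n hn) (hcop n hn)]
    · rw [if_neg hn, if_neg hn]
  set A := {a : Ideal (𝓞 K) // a ≠ ⊥ ∧ (g : ZMod m) = (Ideal.absNorm a : ZMod m)} with hA
  let e : (Σ n : ℕ, {a : A // Ideal.absNorm a.1 = n}) ≃ A :=
    Equiv.sigmaFiberEquiv (fun a : A => Ideal.absNorm a.1)
  -- the fibre
  have hfib : ∀ n : ℕ, (n : ZMod m) = g →
      Nonempty ({a : A // Ideal.absNorm a.1 = n} ≃ {I : Ideal (𝓞 K) // Ideal.absNorm I = n}) := by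
    intro n hn
    refine ⟨⟨fun a => ⟨a.1.1, a.2⟩, fun I => ⟨⟨I.1, ?_, ?_⟩, I.2⟩, fun a => rfl, fun I => rfl⟩⟩
    · intro h0
      have := I.2
      rw [h0, Ideal.absNorm_bot] at this
      exact hn0 n hn this.symm
    · rw [I.2, hn]
  have hfib' : ∀ n : ℕ, (n : ZMod m) ≠ g → IsEmpty {a : A // Ideal.absNorm a.1 = n} := by
    intro n hn
    refine ⟨fun a => hn ?_⟩
    rw [a.1.2.2, a.2]
  have hfin : ∀ n : ℕ, Finite {a : A // Ideal.absNorm a.1 = n} := by
    intro n
    by_cases hn : (n : ZMod m) = g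
    · have : Finite {I : Ideal (𝓞 K) // Ideal.absNorm I = n} :=
        (Ideal.finite_setOfPred_absNorm_eq (S := 𝓞 K) n).to_subtype
      exact Finite.of_equiv _ (hfib n hn).some.symm
    · have := hfib' n hn
      infer_instance
  have hfibsum : ∀ (n : ℕ) (z : ℂ), HasSum (fun _ : {a : A // Ideal.absNorm a.1 = n} => z)
      (if (n : ZMod m) = g then c n * z else 0) := by
    intro n z
    have := hfin n
    have := Fintype.ofFinite {a : A // Ideal.absNorm a.1 = n}
    by_cases hn : (n : ZMod m) = g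
    · rw [if_pos hn]
      have h1 := hasSum_fintype (fun _ : {a : A // Ideal.absNorm a.1 = n} => z)
      rw [Finset.sum_const, Finset.card_univ, nsmul_eq_mul] at h1
      convert h1 using 2
      rw [hc]
      simp only
      rw [← Nat.card_congr (hfib n hn).some, Nat.card_eq_fintype_card]
    · rw [if_neg hn]
      have := hfib' n hn
      exact hasSum_empty
  have key : ∀ t : ℂ, HasSum (fun n : ℕ => if (n : ZMod m) = g then
      c n * (n : ℂ) ^ (-t) else 0) (ZZ (jk (k := k) j) f m φ (g : ZMod m) t) →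
      Summable (fun a : A => (Ideal.absNorm a.1 : ℂ) ^ (-t)) →
      HasSum (fun a : A => (Ideal.absNorm a.1 : ℂ) ^ (-t)) (ZZ (jk (k := k) j) f m φ (g : ZMod m) t) := by
    intro t ht hs
    rw [← e.hasSum_iff]
    refine HasSum.sigma_of_hasSum ht ?_ (e.summable_iff.2 hs)
    intro n
    have h1 := hfibsum n ((n : ℂ) ^ (-t))
    convert h1 using 2 with a
    have : Ideal.absNorm (e ⟨n, a⟩).1 = n := a.2
    simp only [Function.comp_apply, this]
  refine key t (hsum t ht) ?_
  rw [← summable_norm_iff, ← e.summable_iff]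
  have hnn : ∀ x : (Σ n : ℕ, {a : A // Ideal.absNorm a.1 = n}),
      0 ≤ ((fun a : A => ‖(Ideal.absNorm a.1 : ℂ) ^ (-t)‖) ∘ e) x := fun x => norm_nonneg _
  rw [summable_sigma_of_nonneg hnn]
  constructor
  · intro n
    have := hfin n
    have := Fintype.ofFinite {a : A // Ideal.absNorm a.1 = n}
    exact (hasSum_fintype _).summable
  · have h1 := (hsum t ht).summable.norm
    convert h1 using 2 with n
    have h2 : ∀ a : {a : A // Ideal.absNorm a.1 = n},
        ((fun a : A => ‖(Ideal.absNorm a.1 : ℂ) ^ (-t)‖) ∘ e) ⟨n, a⟩ = ‖(n : ℂ) ^ (-t)‖ := by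
      intro a
      have : Ideal.absNorm (e ⟨n, a⟩).1 = n := a.2
      simp only [Function.comp_apply, this]
    simp_rw [h2]
    have h3 := (hfibsum n ((‖(n : ℂ) ^ (-t)‖ : ℝ) : ℂ)).tsum_eq
    rw [← Complex.ofReal_tsum] at h3
    have h4 : ‖((∑' _ : {a : A // Ideal.absNorm a.1 = n}, ‖(n : ℂ) ^ (-t)‖ : ℝ) : ℂ)‖ =
        ∑' _ : {a : A // Ideal.absNorm a.1 = n}, ‖(n : ℂ) ^ (-t)‖ := by
      rw [Complex.norm_real, Real.norm_of_nonneg]
      exact tsum_nonneg fun _ => norm_nonneg _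
    rw [← h4, h3]
    by_cases hn : (n : ZMod m) = g
    · rw [if_pos hn, if_pos hn, norm_mul, norm_mul, Complex.norm_real, norm_norm]
    · rw [if_neg hn, if_neg hn]

theorem stark_cub (h : CycG m K M ζ) {f : Ideal (𝓞 K)}
    (hf : ∀ P : Ideal (𝓞 K), P.IsPrime → (f ≤ P ↔ (m : 𝓞 K) ∈ P)) (v : InfinitePlace L)
    (hv : (v.comap (algebraMap K L)).IsComplex) : Stark K L f v := by
  obtain ⟨S, hS⟩ := cyc_equiv h
  obtain ⟨ι, hι⟩ := exists_iota (M := M) v
  have hnr := iota_nonreal hv hι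
  have hm1 : 1 ≤ m := by have := h.three_le; omega
  have hm2 : 2 ≤ m := by have := h.three_le; omega
  obtain ⟨k, E, _, _, _, _, _, s, j, F, φ, hR, hs⟩ :=
    rdata_exists h.finrank (ι.comp (algebraMap K M)) hnr h.three_le
  obtain ⟨z, hz, hz1, hz2, hz3⟩ := exists_z hR h ι (fun x => (hs x).symm)
  have hz4 : ∀ g : (ZMod m)ˣ, ‖ι (S g z)‖ =
      Phi (jk (k := k) j) F m φ 0 (g : ZMod m) / Phi (jk (k := k) j) F m φ 1 (g : ZMod m) := by
    intro g
    have := hz3 (S g) ((g : ZMod m).val) (hS g)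
    rwa [ZMod.natCast_zmod_val] at this
  refine stark_of_data h hS hf v hι hz hz1 hz2 (fun g => ZZ (jk (k := k) j) F m φ (g : ZMod m)) ?_ ?_ ?_
  · intro g
    exact ZZ_diff hR.dih.iq _ hR.three_le _
  · intro g s hs
    exact zeta_ideals hR hm2 g hs
  · intro g
    rw [ZZ_deriv hR.dih.iq _ hR.three_le hm2 hR.dvd hR.ray hR.cj g]
    congr 1
    rw [Finset.mul_sum]
    refine Finset.sum_congr rfl fun b _ => ?_
    rw [hz4, Real.log_div (Phi_pos hR.dih.iq _ hR.three_le _ _).ne' (Phi_pos hR.dih.iq _ hR.three_le _ _).ne']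
    simp only [bet]
    push_cast
    ring

end CMS
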