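import Pool.Agent.Lib.CMS.EFrob

/-!
# ESpl: primes of degree one of a cyclic cubic extension lie over split primes, with finitely many exceptions (about 100 lines)

`g ≠ 1` in `Gal(Z / k)` (three elements), `x ∈ 𝓞 Z` with `g x ≠ x` (a denominator can be cleared), `a = g x - x ≠ 0` in `𝓞 Z`, `N1 = |N a|`
(`Ideal.absNorm (span {a}) ≠ 0`).  Let `P` be a prime ideal of `𝓞 Z` of norm `q > N1`, `q` prime.  If `g P = P` then `g` induces an automorphism of the field
`𝓞 Z ⧸ P` with `q` elements (prime field), the identity (or: `x = n mod P` for a natural number `n`, apply `g`), so `a ∈ P` and `q = N P` divides `N a`: contradiction.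
So `P` and `g P` (image of `P` under the automorphism of `𝓞 Z` given by `g`, e.g. `P.comap` of the inverse: `RingOfIntegers.mapRingEquiv`) are different, and they have
the same intersection with `𝓞 k`.
-/

set_option autoImplicit false

namespace CMS

open NumberField MPd9f52e

private theorem exists_int_sub {R : Type} [CommRing R] {P : Ideal R} {q : ℕ} (hq : q.Prime)
    (h : Nat.card (R ⧸ P) = q) (x : R) : ∃ n : ℤ, x - n ∈ P := by
  have hf : Fact q.Prime := ⟨hq⟩
  have h1 : (1 : R ⧸ P) ≠ 0 := by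
    intro h0
    have hs : Subsingleton (R ⧸ P) := subsingleton_of_zero_eq_one h0.symm
    have h2 : Nat.card (R ⧸ P) = 1 := Nat.card_of_subsingleton 0
    rw [h] at h2
    exact hq.one_lt.ne' h2
  have h3 : Ideal.Quotient.mk P x ∈ AddSubgroup.zmultiples (1 : R ⧸ P) :=
    mem_zmultiples_of_prime_card h h1
  obtain ⟨n, hn⟩ := AddSubgroup.mem_zmultiples_iff.1 h3
  refine ⟨n, ?_⟩
  rw [← Ideal.Quotient.eq, ← hn, map_intCast, zsmul_one]

theorem splits_of_deg_one {k Z : Type} [Field k] [NumberField k] [Field Z] [NumberField Z] [Algebra k Z]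
    (hZ : CycCubic k Z) : ∃ N1 : ℕ, ∀ q : ℕ, q.Prime → N1 < q → ∀ P : Ideal (𝓞 Z), P.IsPrime → Ideal.absNorm P = q →
      SplitsIn Z (P.comap (algebraMap (𝓞 k) (𝓞 Z))) := by
  have iG : IsGalois k Z := hZ.gal
  have hcard : Nat.card (Z ≃ₐ[k] Z) = 3 := by
    rw [IsGalois.card_aut_eq_finrank, hZ.three]
  have hnt : Nontrivial (Z ≃ₐ[k] Z) := by
    by_contra hn
    rw [not_nontrivial_iff_subsingleton] at hn
    have h2 : Nat.card (Z ≃ₐ[k] Z) = 1 := Nat.card_of_subsingleton 1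
    omega
  obtain ⟨g, hg⟩ := exists_ne (1 : Z ≃ₐ[k] Z)
  let σ : 𝓞 Z ≃+* 𝓞 Z := RingOfIntegers.mapRingEquiv (g : Z ≃+* Z)
  have hσ : ∀ x : 𝓞 Z, ((σ x : 𝓞 Z) : Z) = g x := fun x => rfl
  obtain ⟨x, hx⟩ : ∃ x : 𝓞 Z, σ x ≠ x := by
    by_contra hcon
    push Not at hcon
    apply hg
    ext z
    obtain ⟨x, y, hxy⟩ := IsFractionRing.div_surjective (A := 𝓞 Z) z
    have h1 : ∀ y : 𝓞 Z, g (algebraMap (𝓞 Z) Z y) = algebraMap (𝓞 Z) Z y := fun y =>
      (hσ y).symm.trans (congrArg (fun t : 𝓞 Z => (t : Z)) (hcon y))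
    rw [← hxy.2, map_div₀, h1, h1]
    rfl
  have ha : σ x - x ≠ 0 := sub_ne_zero.2 hx
  refine ⟨Ideal.absNorm (Ideal.span {σ x - x}), fun q hq hN P hP hPq => ?_⟩
  refine ⟨P, P.comap (σ : 𝓞 Z →+* 𝓞 Z), hP, hP.comap _, ?_, rfl, ?_⟩
  · intro heq
    have hcq : Nat.card (𝓞 Z ⧸ P) = q := by
      rw [Ideal.absNorm_apply] at hPq
      exact hPq
    obtain ⟨n, hn⟩ := exists_int_sub hq hcq x
    have h2 : σ x - n ∈ P := by
      have h3 : x - n ∈ P.comap (σ : 𝓞 Z →+* 𝓞 Z) := heq ▸ hn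
      rw [Ideal.mem_comap, map_sub, map_intCast] at h3
      exact h3
    have h4 : σ x - x ∈ P := by
      have h5 := P.sub_mem h2 hn
      rwa [sub_sub_sub_cancel_right] at h5
    have h6 : Ideal.absNorm P ∣ Ideal.absNorm (Ideal.span {σ x - x}) :=
      Ideal.absNorm_dvd_absNorm_of_le ((Ideal.span_singleton_le_iff_mem P).2 h4)
    rw [hPq] at h6
    have h7 : Ideal.absNorm (Ideal.span {σ x - x}) ≠ 0 := by
      rw [Ne, Ideal.absNorm_eq_zero_iff, Ideal.span_singleton_eq_bot]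
      exact ha
    exact absurd (Nat.le_of_dvd (Nat.pos_of_ne_zero h7) h6) (not_le.2 hN)
  · ext y
    rw [Ideal.mem_comap, Ideal.mem_comap, Ideal.mem_comap]
    have h8 : (σ : 𝓞 Z →+* 𝓞 Z) (algebraMap (𝓞 k) (𝓞 Z) y) = algebraMap (𝓞 k) (𝓞 Z) y := by
      apply RingOfIntegers.ext
      show g (algebraMap k Z (y : k)) = algebraMap k Z (y : k)
      exact g.commutes _
    rw [h8]

end CMS
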