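import Pool.Agent.Lib.CMS.ADef
import Pool.Agent.Lib.MP_ea3785_nt.WeakCheb

/-!
# EWC: weak Chebotarev theorem, group version  (about 150 lines)

`F / E` Galois, `B` a normal proper subgroup of `Gal(F / E)`.  `F' = IntermediateField.fixedField B` (over `E`), Galois over `E` as `B` is
normal (`IsGalois.of_fixedField_normal_subgroup` or similar), `F' ≠ E` as `B ≠ ⊤`, so there is `g0 ≠ 1` in `F' ≃ₐ[E] F'`.
`Pool.Agent.Lib.WeakCheb.exists_no_extension E F' g0 hg0 N0`: a prime `q > N0` and `φ : 𝓞 E →+* ZMod q` without an extension to `𝓞 F'`.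
Let `Q` be a prime ideal of `𝓞 F` above `ker φ` (`Ideal.exists_ideal_over_prime_of_isIntegral`), `absNorm (ker φ) = q` (quotient `≅ ZMod q`, see
`uniq_frob` in `MP_d9f52e_nt/AUniq.lean`), `g` a Frobenius element at `Q` for `F / E`: `IsArithFrobAt.exists_of_isInvariant (𝓞 E) (F ≃ₐ[E] F) Q` (see
`uniq_extend` in `MP_d9f52e_nt/AUniq.lean` for the exact pattern: `SMulCommClass` instance, finiteness of `𝓞 F ⧸ Q`, the meaning of the action:
`((g • x : 𝓞 F) : F) = g x`).  So `g x = x ^ q mod Q`.  If `g ∈ B` then `g` fixes `F'`, so `x ^ q = x` modulo `Q' = Q ∩ 𝓞 F'` for `x ∈ 𝓞 F'`, hence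
`𝓞 F' ⧸ Q' ≃+* ZMod q` (`equiv_of_frob` in AUniq.lean: a finite domain of characteristic `q` with `x ^ q = x`; copy it) and the
composition `𝓞 F' → 𝓞 F' ⧸ Q' ≃ ZMod q` restricted to `𝓞 E` has kernel `ker φ`, so equals `φ` (`ZMod.ringHom_eq_of_ker_eq`): contradiction.
-/

set_option autoImplicit false

namespace CMS

open NumberField MPd9f52e

private theorem equiv_of_frob {k : Type} [CommRing k] [IsDomain k] [Finite k] {p : ℕ} (hp : p.Prime)
    (hchar : CharP k p) (hfrob : ∀ x : k, x ^ p = x) : Nonempty (k ≃+* ZMod p) := by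
  classical
  have : Fact p.Prime := ⟨hp⟩
  have hk : IsField k := Finite.isField_of_domain k
  let j : ZMod p →+* k := ZMod.castHom (dvd_refl p) k
  have hj : Function.Injective j := RingHom.injective j
  have := Fintype.ofFinite k
  have hcardle : Fintype.card k ≤ p := by
    have hFdeg : (Polynomial.X ^ p - Polynomial.X : Polynomial k).natDegree = p := by
      have h1 : (Polynomial.X : Polynomial k).natDegree < (Polynomial.X ^ p : Polynomial k).natDegree := by
        rw [Polynomial.natDegree_X, Polynomial.natDegree_X_pow]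
        exact hp.one_lt
      rw [Polynomial.natDegree_sub_eq_left_of_natDegree_lt h1, Polynomial.natDegree_X_pow]
    have hF0 : (Polynomial.X ^ p - Polynomial.X : Polynomial k) ≠ 0 := by
      intro h0
      rw [h0, Polynomial.natDegree_zero] at hFdeg
      exact hp.ne_zero hFdeg.symm
    have h5 : (Finset.univ : Finset k) ⊆
        (Polynomial.X ^ p - Polynomial.X : Polynomial k).roots.toFinset := by
      intro x _
      rw [Multiset.mem_toFinset, Polynomial.mem_roots hF0, Polynomial.IsRoot.def,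
        Polynomial.eval_sub, Polynomial.eval_pow, Polynomial.eval_X, hfrob x, sub_self]
    have h6 := Finset.card_le_card h5
    rw [Finset.card_univ] at h6
    refine h6.trans ((Multiset.toFinset_card_le _).trans ?_)
    have h7 := Polynomial.card_roots' (Polynomial.X ^ p - Polynomial.X : Polynomial k)
    rw [hFdeg] at h7
    exact h7
  have hbij : Function.Bijective j := by
    refine hj.bijective_of_nat_card_le ?_
    rw [Nat.card_zmod, Nat.card_eq_fintype_card]
    exact hcardle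
  exact ⟨(RingEquiv.ofBijective j hbij).symm⟩

theorem wc_group {E F : Type} [Field E] [NumberField E] [Field F] [NumberField F] [Algebra E F] [IsGalois E F]
    (B : Subgroup (F ≃ₐ[E] F)) (hn : B.Normal) (hB : B ≠ ⊤) (N0 : ℕ) :
    ∃ q : ℕ, q.Prime ∧ N0 < q ∧ ∃ Q : Ideal (𝓞 F), Q.IsPrime ∧
      Ideal.absNorm (Q.comap (algebraMap (𝓞 E) (𝓞 F))) = q ∧
      ∃ g : F ≃ₐ[E] F, g ∉ B ∧ ∀ x y : 𝓞 F, (y : F) = g x → y - x ^ q ∈ Q := by
  classical
  have := hn
  let F' : IntermediateField E F := IntermediateField.fixedField B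
  have hgal : IsGalois E F' := IsGalois.of_fixedField_normal_subgroup B
  obtain ⟨g0, hg0⟩ : ∃ g : F' ≃ₐ[E] F', g ≠ 1 := by
    by_contra hall
    push Not at hall
    have h2 : Nat.card (F' ≃ₐ[E] F') = 1 := by
      rw [Nat.card_eq_one_iff_unique]
      exact ⟨⟨fun a b => by rw [hall a, hall b]⟩, ⟨1⟩⟩
    rw [IsGalois.card_aut_eq_finrank] at h2
    have h3 : IntermediateField.fixedField B = ⊥ := IntermediateField.finrank_eq_one_iff.1 h2
    apply hB
    rw [← IntermediateField.fixingSubgroup_fixedField B, h3, IntermediateField.fixingSubgroup_bot]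
  obtain ⟨q, hq, hN, φ, hφ⟩ := Pool.Agent.Lib.WeakCheb.exists_no_extension E F' g0 hg0 N0
  have : Fact q.Prime := ⟨hq⟩
  set P := RingHom.ker φ with hP
  have hPp : P.IsPrime := RingHom.ker_isPrime φ
  have hpP : (q : 𝓞 E) ∈ P := by rw [hP, RingHom.mem_ker, map_natCast, CharP.cast_eq_zero]
  obtain ⟨Q, -, hQ, hQP⟩ := Ideal.exists_ideal_over_prime_of_isIntegral (S := 𝓞 F) P ⊥ (by
    rw [Ideal.comap_bot_of_injective _ (FaithfulSMul.algebraMap_injective (𝓞 E) (𝓞 F))]
    exact bot_le)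
  have hpQ : (q : 𝓞 F) ∈ Q := by
    have : (q : 𝓞 E) ∈ Q.comap (algebraMap (𝓞 E) (𝓞 F)) := by rw [hQP]; exact hpP
    rw [Ideal.mem_comap, map_natCast] at this
    exact this
  have hQ0 : Q ≠ ⊥ := by
    rintro rfl
    rw [Ideal.mem_bot] at hpQ
    exact hq.ne_zero (by exact_mod_cast hpQ)
  have hfin : Finite (𝓞 F ⧸ Q) := Ideal.finiteQuotientOfFreeOfNeBot Q hQ0
  have : SMulCommClass (F ≃ₐ[E] F) (𝓞 E) (𝓞 F) := by
    constructor
    intro σ a x
    rw [Algebra.smul_def, Algebra.smul_def, smul_mul']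
    congr 1
    apply RingOfIntegers.ext
    show σ (algebraMap E F (a : E)) = algebraMap E F (a : E)
    exact σ.commutes _
  obtain ⟨g, hg⟩ := IsArithFrobAt.exists_of_isInvariant (𝓞 E) (F ≃ₐ[E] F) Q
  have hcard : Nat.card (𝓞 E ⧸ Q.under (𝓞 E)) = q := by
    have h2 : Q.under (𝓞 E) = P := hQP
    rw [h2]
    have e := RingHom.quotientKerEquivOfSurjective (ZMod.ringHom_surjective φ)
    rw [Nat.card_congr e.toEquiv, Nat.card_zmod]
  have hg' : ∀ x y : 𝓞 F, (y : F) = g x → y - x ^ q ∈ Q := by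
    intro x y hxy
    have h1 := hg x
    rw [hcard] at h1
    have h2 : y = g • x := RingOfIntegers.ext hxy
    rw [h2]
    exact h1
  refine ⟨q, hq, hN, Q, hQ, ?_, g, ?_, hg'⟩
  · rw [Ideal.absNorm_apply, Submodule.cardQuot_apply]
    exact hcard
  · intro hgB
    set Q' : Ideal (𝓞 F') := Q.comap (algebraMap (𝓞 F') (𝓞 F)) with hQ'
    have hQ'p : Q'.IsPrime := Ideal.comap_isPrime _ _
    have hpQ' : (q : 𝓞 F') ∈ Q' := by
      rw [hQ', Ideal.mem_comap, map_natCast]
      exact hpQ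
    have hQ'0 : Q' ≠ ⊥ := by
      intro h0
      rw [h0, Ideal.mem_bot] at hpQ'
      exact hq.ne_zero (by exact_mod_cast hpQ')
    have : Finite (𝓞 F' ⧸ Q') := Ideal.finiteQuotientOfFreeOfNeBot Q' hQ'0
    have hfrob : ∀ x : 𝓞 F' ⧸ Q', x ^ q = x := by
      intro x
      obtain ⟨x, rfl⟩ := Ideal.Quotient.mk_surjective x
      rw [← map_pow]
      refine (Ideal.Quotient.eq.2 ?_).symm
      rw [hQ', Ideal.mem_comap, map_sub, map_pow]
      refine hg' _ _ ?_
      have h1 : ((algebraMap (𝓞 F') (𝓞 F) x : 𝓞 F) : F) = ((x : F') : F) := rfl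
      rw [h1]
      exact (((x : F').2 ⟨g, hgB⟩)).symm
    have hdom : IsDomain (𝓞 F' ⧸ Q') := Ideal.Quotient.isDomain Q'
    have hchar : CharP (𝓞 F' ⧸ Q') q := by
      refine (CharP.charP_iff_prime_eq_zero hq).2 ?_
      rw [← map_natCast (Ideal.Quotient.mk Q')]
      exact Ideal.Quotient.eq_zero_iff_mem.2 hpQ'
    obtain ⟨e⟩ := equiv_of_frob hq hchar hfrob
    refine hφ ((e : (𝓞 F' ⧸ Q') →+* ZMod q).comp (Ideal.Quotient.mk Q')) ?_
    apply ZMod.ringHom_eq_of_ker_eq
    ext x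
    rw [RingHom.mem_ker, RingHom.comp_apply, RingHom.comp_apply]
    have h7 : (e : (𝓞 F' ⧸ Q') →+* ZMod q) (Ideal.Quotient.mk Q' (algebraMap (𝓞 E) (𝓞 F') x)) = 0 ↔
        Ideal.Quotient.mk Q' (algebraMap (𝓞 E) (𝓞 F') x) = 0 :=
      map_eq_zero_iff e e.injective
    rw [h7, Ideal.Quotient.eq_zero_iff_mem, ← hP, ← hQP, hQ', Ideal.mem_comap, Ideal.mem_comap]
    have h8 : algebraMap (𝓞 F') (𝓞 F) (algebraMap (𝓞 E) (𝓞 F') x) = algebraMap (𝓞 E) (𝓞 F) x :=
      RingOfIntegers.ext rfl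
    rw [h8]

end CMS
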