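import Pool.Agent.Lib.CMS.EBeta
import Pool.Agent.Lib.CMS.EWC
import Pool.Agent.Lib.CMS.ESpl

/-!
# EId0: automorphisms trivial on `Z` have `φ u = 0`  (about 170 lines)

Paper 4.5, first half.  `e = jk jZ`.  `S1` from `act_fix hk e hf`, `S2` from `gen_fin jZ`; `F`, `jF` from `exists_bigE e (S1 ∪ S2)`; `ψ : Z →+* F` from `factor` with
`jF (ψ x) = jZ x`.  `letI : Algebra Z F := ψ.toAlgebra`; `IsScalarTower k Z F` (`jF` is injective: `jF (ψ (algebraMap k Z x)) = jZ (algebraMap k Z x) = jF (algebraMap k F x)`);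
`IsGalois Z F` (`IsGalois.tower_top_of_isGalois k Z F`).  Note `jk jF = jk jZ` as ring homomorphisms.
`β` from `beta_exists`.  `B` = the subgroup of the `g : F ≃ₐ[Z] F` with `β (g.restrictScalars k) = 0`: a subgroup (`β 1 = 0`, `β g⁻¹ = -β g` from additivity; `restrictScalars` is
multiplicative), normal (`β (h g h⁻¹) = β g`).
The given `t` fixes `jZ(Z)`; `res_gal jF t`: `g0 : F ≃ₐ[k] F` with `t (jF x) = jF (g0 x)`, `g0 (ψ z) = ψ z`; let `g1 : F ≃ₐ[Z] F` be `g0`.  Suppose `φ u ≠ 0`: `β g0 = φ u ≠ 0`, so `B ≠ ⊤`.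
`N0` from `frob_lift hk hf F jF`, `N1` from `splits_of_deg_one hZ`.  `wc_group B _ _ (max (max N0 N1) f)`: `q`, `Q`, `g ∉ B`.  `PZ = Q.comap (𝓞 Z → 𝓞 F)` has norm `q`, `P = PZ.comap (𝓞 k → 𝓞 Z) = Q.comap (𝓞 k → 𝓞 F)` has norm `q`
(`norm_comap`), is prime, `Cop f P` (`cop_prime`, `q ∤ f` as `q > f ≥ 3`; `(q : 𝓞 k) ∈ P` by `Ideal.absNorm_mem`).  `frob_lift` for `g.restrictScalars k`: `t'`, `Act _ t' f γ' u'`, `Req f u' P`: `φ P = φ u' = β g ≠ 0` (`ray_req`).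
But `SplitsIn Z P` (`splits_of_deg_one`), so `φ P = 0` by `hsp`: contradiction.
-/

set_option autoImplicit false

namespace CMS

open Complex NumberField MPd9f52e

theorem ident_zero {k Z : Type} [Field k] [NumberField k] [Field Z] [NumberField Z] [Algebra k Z] (hk : IQ k)
    (hZ : CycCubic k Z) {f : ℕ} (hf : 3 ≤ f) (jZ : Z →+* ℂ) {φ : Ideal (𝓞 k) → ZMod 3} (hφ : RayChar f φ)
    (hsp : ∀ P : Ideal (𝓞 k), P.IsPrime → Cop f P → SplitsIn Z P → φ P = 0)
    (t : ℂ ≃+* ℂ) (ht : ∀ x, t (jZ x) = jZ x) (γ : ℂ) (u : Ideal (𝓞 k)) (h : Act (jk (k := k) jZ) t f γ u) : φ u = 0 := by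
  classical
  by_contra hne
  obtain ⟨S1, hS1a, hS1⟩ := act_fix hk (jk (k := k) jZ) hf
  obtain ⟨S2, hS2a, hS2⟩ := gen_fin jZ
  obtain ⟨F, iF1, iF2, iF3, iF4, jF, hjF, hSF⟩ := exists_bigE (jk (k := k) jZ) (S1 ∪ S2) (by
    intro x hx
    rcases Finset.mem_union.1 hx with h | h
    · exact hS1a x h
    · exact hS2a x h)
  obtain ⟨ψ, hψ⟩ := factor jZ jF (hS2 F jF fun x hx => hSF x (Finset.mem_union_right _ hx))
  let : Algebra Z F := ψ.toAlgebra
  have hψa : ∀ z, algebraMap Z F z = ψ z := fun z => rfl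
  have htow : IsScalarTower k Z F := IsScalarTower.of_algebraMap_eq fun x => by
    apply jF.injective
    rw [hψa, hψ, hjF]
    rfl
  have hgal : IsGalois Z F := IsGalois.tower_top_of_isGalois k Z F
  have hjk : jk (k := k) jF = jk (k := k) jZ := RingHom.ext hjF
  obtain ⟨β, hβm, hβ⟩ := beta_exists (k := k) hk hf jF hφ (S := S1) (by
    intro t ht1 ht2 γ u hu
    rw [hjk] at hu
    exact hS1 t (fun x => by
      have h1 := ht1 x
      rw [hjF] at h1
      exact h1) ht2 γ u hu)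
    (fun x hx => hSF x (Finset.mem_union_left _ hx))
  let β' : (F ≃ₐ[Z] F) →* Multiplicative (ZMod 3) :=
    MonoidHom.mk' (fun g => Multiplicative.ofAdd (β (g.restrictScalars k))) (fun g h => by
      have h1 : (g * h).restrictScalars k = g.restrictScalars k * h.restrictScalars k := rfl
      rw [h1, hβm]
      rfl)
  have hmem : ∀ g, g ∈ β'.ker ↔ β (g.restrictScalars k) = 0 := fun g => Iff.rfl
  obtain ⟨g0, hg0⟩ := res_gal (k := k) jF t (fun x => by
    rw [hjF]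
    exact ht _)
  have hg0ψ : ∀ z : Z, g0 (algebraMap Z F z) = algebraMap Z F z := by
    intro z
    apply jF.injective
    rw [← hg0, hψa, hψ, ht]
  have hB : β'.ker ≠ ⊤ := by
    intro htop
    let g1 : F ≃ₐ[Z] F := AlgEquiv.ofRingEquiv (f := g0.toRingEquiv) hg0ψ
    have h1 : g1 ∈ β'.ker := by
      rw [htop]
      exact Subgroup.mem_top _
    have h2 : g1.restrictScalars k = g0 := AlgEquiv.ext fun x => rfl
    rw [hmem, h2] at h1
    apply hne
    rw [hβ t g0 hg0 γ u (by rw [hjk]; exact h), h1]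
  obtain ⟨N0, hN0⟩ := frob_lift (k := k) hk hf F jF
  obtain ⟨N1, hN1⟩ := splits_of_deg_one hZ
  obtain ⟨q, hq, hqN, Q, hQ, hQn, g, hgB, hg⟩ :=
    wc_group β'.ker inferInstance hB (max (max N0 N1) f)
  have hqN0 : N0 < q := lt_of_le_of_lt ((le_max_left _ _).trans (le_max_left _ _)) hqN
  have hqN1 : N1 < q := lt_of_le_of_lt ((le_max_right _ _).trans (le_max_left _ _)) hqN
  have hqf : f < q := lt_of_le_of_lt (le_max_right _ _) hqN
  have hPZ : (Q.comap (algebraMap (𝓞 Z) (𝓞 F))).IsPrime := hQ.comap _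
  have hP : (Q.comap (algebraMap (𝓞 k) (𝓞 F))).IsPrime := hQ.comap _
  have hPP : (Q.comap (algebraMap (𝓞 Z) (𝓞 F))).comap (algebraMap (𝓞 k) (𝓞 Z)) =
      Q.comap (algebraMap (𝓞 k) (𝓞 F)) := by
    rw [Ideal.comap_comap]
    congr 1
    apply RingHom.ext
    intro x
    apply RingOfIntegers.ext
    show algebraMap Z F (algebraMap k Z (x : k)) = algebraMap k F (x : k)
    exact (IsScalarTower.algebraMap_apply k Z F (x : k)).symm
  have hPn : Ideal.absNorm (Q.comap (algebraMap (𝓞 k) (𝓞 F))) = q := by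
    rw [← hPP]
    exact norm_comap hPZ hq hQn
  have hqP : (q : 𝓞 k) ∈ Q.comap (algebraMap (𝓞 k) (𝓞 F)) := by
    have h1 := Ideal.absNorm_mem (Q.comap (algebraMap (𝓞 k) (𝓞 F)))
    rw [hPn] at h1
    exact h1
  have hP0 : Q.comap (algebraMap (𝓞 k) (𝓞 F)) ≠ ⊥ := by
    intro h0
    rw [h0, Ideal.absNorm_bot] at hPn
    exact hq.ne_zero hPn.symm
  have hcop : Cop f (Q.comap (algebraMap (𝓞 k) (𝓞 F))) := by
    rw [cop_prime hq hP hqP hP0]
    intro hdvd
    have h1 := Nat.le_of_dvd (by omega) hdvd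
    omega
  obtain ⟨t', ht', γ', u', hact, hreq⟩ := hN0 q hq hqN0 _ hP hPn Q hQ rfl (g.restrictScalars k) hg
  have h1 : φ u' = φ (Q.comap (algebraMap (𝓞 k) (𝓞 F))) := ray_req hφ hact.cop hreq
  have h2 : φ u' = β (g.restrictScalars k) := hβ t' _ ht' γ' u' hact
  have h3 : φ (Q.comap (algebraMap (𝓞 k) (𝓞 F))) = 0 := by
    apply hsp _ hP hcop
    rw [← hPP]
    exact hN1 q hq hqN1 _ hPZ hQn
  apply hgB
  rw [hmem, ← h2, h1, h3]

end CMS
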