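import Pool.Agent.Lib.CMS.EFin
import Pool.Agent.Lib.CMS.EWC
import Pool.Agent.Lib.MP_d9f52e_nt.AUniq

/-!
# Narrow ray class fields of complex cubic fields contained in `K(ζ_m)`

`RayEquiv`, `IsRayField`, `Q1`, `NormDet` are the definitions of `Pool.Agent.Lib.MP_d9f52e_nt.RDef`.
-/

set_option autoImplicit false

open NumberField MPd9f52e

namespace CMS

/-! ## The relation -/

section relation

variable {K : Type} [Field K] [NumberField K] {f : Ideal (𝓞 K)}

theorem er_symm {a b : Ideal (𝓞 K)} (h : RayEquiv K f a b) : RayEquiv K f b a := by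
  obtain ⟨α, β, h1, h2, h3, h4, h5, h6⟩ := h
  exact ⟨β, α, h2, h1, h4, h3, fun φ => ⟨(h5 φ).2, (h5 φ).1⟩, h6.symm⟩

theorem er_refl (a : Ideal (𝓞 K)) : RayEquiv K f a a :=
  ⟨1, 1, one_ne_zero, one_ne_zero, by simp, by simp, fun φ => by simp, rfl⟩

omit [NumberField K] in
private theorem one_mod {x y : 𝓞 K} (hx : x - 1 ∈ f) (hy : y - 1 ∈ f) : x * y - 1 ∈ f := by
  have : x * y - 1 = (x - 1) * y + (y - 1) := by ring
  rw [this]
  exact f.add_mem (f.mul_mem_right _ hx) hy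

theorem er_trans {a b c : Ideal (𝓞 K)} (h : RayEquiv K f a b) (h' : RayEquiv K f b c) :
    RayEquiv K f a c := by
  obtain ⟨α, β, h1, h2, h3, h4, h5, h6⟩ := h
  obtain ⟨α', β', h1', h2', h3', h4', h5', h6'⟩ := h'
  refine ⟨α * α', β * β', mul_ne_zero h1 h1', mul_ne_zero h2 h2', one_mod h3 h3', one_mod h4 h4',
    fun φ => ⟨?_, ?_⟩, ?_⟩
  · have := mul_pos (h5 φ).1 (h5' φ).1
    simpa using this
  · have := mul_pos (h5 φ).2 (h5' φ).2
    simpa using this
  · rw [← Ideal.span_singleton_mul_span_singleton, ← Ideal.span_singleton_mul_span_singleton]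
    calc Ideal.span {α} * Ideal.span {α'} * a = Ideal.span {α'} * (Ideal.span {α} * a) := by ring
      _ = Ideal.span {β} * (Ideal.span {α'} * b) := by rw [h6]; ring
      _ = Ideal.span {β} * Ideal.span {β'} * c := by rw [h6']; ring

theorem er_mul {a b : Ideal (𝓞 K)} (h : RayEquiv K f a b) (c : Ideal (𝓞 K)) :
    RayEquiv K f (a * c) (b * c) := by
  obtain ⟨α, β, h1, h2, h3, h4, h5, h6⟩ := h
  refine ⟨α, β, h1, h2, h3, h4, h5, ?_⟩
  rw [← mul_assoc, h6, mul_assoc]

/-- the norm of an ideal of the principal class is the norm of a number -/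
theorem er_mul' {a b : Ideal (𝓞 K)} (h : RayEquiv K f a b) (c : Ideal (𝓞 K)) :
    RayEquiv K f (c * a) (c * b) := by
  rw [mul_comm c a, mul_comm c b]
  exact er_mul h c

end relation

/-! ## Norms of ideals -/

section surj

variable {m : ℕ} {K M : Type} [Field K] [NumberField K] [Field M] [NumberField M] [Algebra K M]
  {ζ : M}

private theorem pow_cast (h : CycG m K M ζ) {g : (ZMod m)ˣ} {q : ℕ}
    (hg : (g : ZMod m) = (q : ZMod m)) : ζ ^ (g : ZMod m).val = ζ ^ q := by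
  have : NeZero m := ⟨(lt_of_lt_of_le (by norm_num) h.three_le).ne'⟩
  rw [hg, ZMod.val_natCast]
  exact (pow_mod_orderOf ζ q ▸ by rw [← h.prim.eq_orderOf])

/-- the ideals prime to `m` have all norms prime to `m` modulo `m` -/
theorem er_norm_surj (h : CycG m K M ζ) (g : (ZMod m)ˣ) :
    ∃ a : Ideal (𝓞 K), a ≠ ⊥ ∧ (g : ZMod m) = (Ideal.absNorm a : ZMod m) := by
  have hm0 : 0 < m := lt_of_lt_of_le (by norm_num) h.three_le
  have : NeZero m := ⟨hm0.ne'⟩
  have hgal := cyc_galois h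
  obtain ⟨S, hS⟩ := cyc_equiv h
  have hone : (1 : Ideal (𝓞 K)) ≠ ⊥ := by
    rw [Ideal.one_eq_top]; exact top_ne_bot
  -- the subgroup of the classes of norms
  let V : Subgroup (ZMod m)ˣ :=
    { carrier := {g | ∃ a : Ideal (𝓞 K), a ≠ ⊥ ∧ (g : ZMod m) = (Ideal.absNorm a : ZMod m)}
      mul_mem' := by
        rintro x y ⟨a, ha, hx⟩ ⟨b, hb, hy⟩
        exact ⟨a * b, mul_ne_zero ha hb, by rw [Units.val_mul, hx, hy, map_mul, Nat.cast_mul]⟩
      one_mem' := ⟨1, hone, by simp⟩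
      inv_mem' := by
        rintro x ⟨a, ha, hx⟩
        refine ⟨a ^ (Nat.card (ZMod m)ˣ - 1), pow_ne_zero _ ha, ?_⟩
        have h1 : x⁻¹ = x ^ (Nat.card (ZMod m)ˣ - 1) := by
          rw [inv_eq_iff_mul_eq_one, ← pow_succ', Nat.sub_add_cancel Nat.card_pos]
          exact pow_card_eq_one'
        rw [h1, Units.val_pow_eq_pow_val, hx, map_pow, Nat.cast_pow] }
  by_contra hg
  have hV : V ≠ ⊤ := by
    intro h1
    apply hg
    have : g ∈ V := by rw [h1]; exact Subgroup.mem_top _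
    exact this
  have hB : V.map S.toMonoidHom ≠ ⊤ := by
    intro h1
    apply hV
    rw [eq_top_iff]
    intro x _
    have h2 : S x ∈ V.map S.toMonoidHom := by rw [h1]; exact Subgroup.mem_top _
    obtain ⟨y, hy, hyx⟩ := h2
    have h3 : y = x := S.injective hyx
    rw [← h3]
    exact hy
  have hn : (V.map S.toMonoidHom).Normal := by
    constructor
    intro x hx y
    rw [(cyc_sub h M).2 y x, mul_assoc, mul_inv_cancel, mul_one]
    exact hx
  obtain ⟨q, hq, hmq, Q, hQ, hN, s, hs, hfr⟩ := wc_group (V.map S.toMonoidHom) hn hB m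
  apply hs
  set P := Q.comap (algebraMap (𝓞 K) (𝓞 M)) with hP
  have hqm : Nat.Coprime q m := (Nat.Prime.coprime_iff_not_dvd hq).2
    (fun hd => absurd (Nat.le_of_dvd hm0 hd) (by omega))
  have hP0 : P ≠ ⊥ := by
    intro h0
    rw [h0, Ideal.absNorm_bot] at hN
    exact hq.ne_zero hN.symm
  refine ⟨ZMod.unitOfCoprime q hqm, ⟨P, hP0, by rw [ZMod.coe_unitOfCoprime, hN]⟩, ?_⟩
  -- `s = S q`
  have hPp : P.IsPrime := Ideal.comap_isPrime _ _
  have hmP : (m : 𝓞 K) ∉ P := by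
    intro h3
    have h2 : ((Ideal.absNorm P : ℕ) : 𝓞 K) ∈ P := Ideal.absNorm_mem P
    rw [hN] at h2
    obtain ⟨u, v, huv⟩ := Nat.isCoprime_iff_coprime.2 hqm
    apply hPp.ne_top
    rw [Ideal.eq_top_iff_one]
    have h5 : (1 : 𝓞 K) = (u : 𝓞 K) * ((q : ℕ) : 𝓞 K) + (v : 𝓞 K) * (m : 𝓞 K) := by
      have := congrArg (fun t : ℤ => (t : 𝓞 K)) huv
      push_cast at this
      exact this.symm
    rw [h5]
    exact P.add_mem (P.mul_mem_left _ h2) (P.mul_mem_left _ h3)
  have hmQ : (m : 𝓞 M) ∉ Q := by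
    intro h1
    apply hmP
    rw [hP, Ideal.mem_comap, map_natCast]
    exact h1
  show S (ZMod.unitOfCoprime q hqm) = s
  -- values at ζ
  obtain ⟨z, hz, hzm⟩ : ∃ z : 𝓞 M, (z : M) = ζ ∧ z ^ m = 1 := by
    refine ⟨⟨ζ, h.prim.isIntegral hm0⟩, rfl, ?_⟩
    apply RingOfIntegers.ext
    show ζ ^ m = 1
    exact h.prim.pow_eq_one
  -- `s` is an arithmetic Frobenius at `Q`
  have hsm : SMulCommClass (M ≃ₐ[K] M) (𝓞 K) (𝓞 M) := by
    constructor
    intro σ a x
    rw [Algebra.smul_def, Algebra.smul_def, smul_mul']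
    congr 1
    apply RingOfIntegers.ext
    show σ (algebraMap K M (a : K)) = algebraMap K M (a : K)
    exact σ.commutes _
  have hcard : Nat.card (𝓞 K ⧸ Q.under (𝓞 K)) = q := by
    have h1 : Q.under (𝓞 K) = P := rfl
    rw [h1, ← hN, Ideal.absNorm_apply]
    rfl
  have hfrob : IsArithFrobAt (𝓞 K) s Q := by
    intro x
    rw [hcard]
    exact hfr x (s • x) rfl
  have h1 := hfrob.apply_of_pow_eq_one hzm hmQ
  rw [hcard] at h1
  have h2 : s ζ = ζ ^ q := by
    have h3 := congrArg (fun t : 𝓞 M => (t : M)) h1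
    have h4 : ((s • z : 𝓞 M) : M) = ((z ^ q : 𝓞 M) : M) := h3
    rw [← hz]
    exact h4
  have h3 : S (ZMod.unitOfCoprime q hqm) ζ = s ζ := by
    rw [hS, h2, pow_cast h (ZMod.coe_unitOfCoprime q hqm)]
  ext x
  have hx : x ∈ IntermediateField.adjoin K {ζ} := by rw [h.gen]; exact IntermediateField.mem_top
  induction hx using IntermediateField.adjoin_induction with
  | mem x hx => rcases hx with rfl; exact h3
  | algebraMap q => rw [AlgEquiv.commutes, AlgEquiv.commutes]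
  | add x y _ _ hx hy => rw [map_add, map_add, hx, hy]
  | inv x _ hx => rw [map_inv₀, map_inv₀, hx]
  | mul x y _ _ hx hy => rw [map_mul, map_mul, hx, hy]

end surj

/-! ## Existence -/

section exist

variable {m : ℕ} {K M : Type} [Field K] [NumberField K] [Field M] [NumberField M] [Algebra K M]
  {ζ : M}

private theorem er_pow {f a : Ideal (𝓞 K)} (h : RayEquiv K f a 1) (n : ℕ) :
    RayEquiv K f (a ^ n) 1 := by
  induction n with
  | zero => rw [pow_zero]; exact er_refl 1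
  | succ n ih =>
    rw [pow_succ]
    have := er_mul ih a
    rw [one_mul] at this
    exact er_trans this h

/-- If the classes modulo `P(f)_+` are determined by the norms modulo `m`, some subfield of
`K(ζ_m)` is the narrow ray class field of `K` modulo `f`. -/
theorem er_exists (h : CycG m K M ζ) {f : Ideal (𝓞 K)}
    (hf : ∀ P : Ideal (𝓞 K), P.IsPrime → (f ≤ P ↔ (m : 𝓞 K) ∈ P)) (H : NormDet K f m) :
    ∃ L : IntermediateField K M, IsRayField K L f := by
  have hm0 : 0 < m := lt_of_lt_of_le (by norm_num) h.three_le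
  have : NeZero m := ⟨hm0.ne'⟩
  have hgal := cyc_galois h
  obtain ⟨S, hS⟩ := cyc_equiv h
  have hone : (1 : Ideal (𝓞 K)) ≠ ⊥ := by
    rw [Ideal.one_eq_top]; exact top_ne_bot
  have hcop : ∀ a : Ideal (𝓞 K), a ≠ ⊥ → (IsCoprime a f ↔ Nat.Coprime (Ideal.absNorm a) m) :=
    fun a ha => absNorm_coprime hf ha
  have hcop' : ∀ (a : Ideal (𝓞 K)) (g : (ZMod m)ˣ), a ≠ ⊥ →
      (g : ZMod m) = (Ideal.absNorm a : ZMod m) → IsCoprime a f := by
    intro a g ha hg
    rw [hcop a ha, ← ZMod.isUnit_iff_coprime, ← hg]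
    exact g.isUnit
  have hunit : ∀ a : Ideal (𝓞 K), a ≠ ⊥ → IsCoprime a f →
      ∃ g : (ZMod m)ˣ, (g : ZMod m) = (Ideal.absNorm a : ZMod m) := by
    intro a ha haf
    obtain ⟨g, hg⟩ := (ZMod.isUnit_iff_coprime _ _).2 ((hcop a ha).1 haf)
    exact ⟨g, hg⟩
  have hinv : ∀ g : (ZMod m)ˣ, g⁻¹ = g ^ (Nat.card (ZMod m)ˣ - 1) := by
    intro g
    rw [inv_eq_iff_mul_eq_one, ← pow_succ', Nat.sub_add_cancel Nat.card_pos]
    exact pow_card_eq_one'
  let W : Subgroup (ZMod m)ˣ :=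
    { carrier := {g | ∃ a : Ideal (𝓞 K), a ≠ ⊥ ∧ (g : ZMod m) = (Ideal.absNorm a : ZMod m) ∧
        RayEquiv K f a 1}
      mul_mem' := by
        rintro x y ⟨a, ha, hx, ha'⟩ ⟨b, hb, hy, hb'⟩
        refine ⟨a * b, mul_ne_zero ha hb, by rw [Units.val_mul, hx, hy, map_mul, Nat.cast_mul], ?_⟩
        have := er_mul ha' b
        rw [one_mul] at this
        exact er_trans this hb'
      one_mem' := ⟨1, hone, by simp, er_refl 1⟩
      inv_mem' := by
        rintro x ⟨a, ha, hx, ha'⟩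
        refine ⟨a ^ (Nat.card (ZMod m)ˣ - 1), pow_ne_zero _ ha, ?_, er_pow ha' _⟩
        rw [hinv, Units.val_pow_eq_pow_val, hx, map_pow, Nat.cast_pow] }
  -- classes and `W`
  have hW : ∀ (a b : Ideal (𝓞 K)) (g g' : (ZMod m)ˣ), a ≠ ⊥ → b ≠ ⊥ →
      (g : ZMod m) = (Ideal.absNorm a : ZMod m) → (g' : ZMod m) = (Ideal.absNorm b : ZMod m) →
      (g * g'⁻¹ ∈ W ↔ RayEquiv K f a b) := by
    intro a b g g' ha hb hg hg'
    constructor
    · rintro ⟨c, hc, hgc, hc1⟩
      have h1 : (Ideal.absNorm a : ZMod m) = (Ideal.absNorm (c * b) : ZMod m) := by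
        rw [map_mul, Nat.cast_mul, ← hgc, ← hg', ← hg, ← Units.val_mul, inv_mul_cancel_right]
      have hcb : c * b ≠ ⊥ := mul_ne_zero hc hb
      have h2 := H a (c * b) ha hcb (hcop' a g ha hg) (hcop' (c * b) g hcb (hg.trans h1)) h1
      have h3 := er_mul hc1 b
      rw [one_mul] at h3
      exact er_trans h2 h3
    · intro hab
      have hbn : b ^ (Nat.card (ZMod m)ˣ - 1) ≠ ⊥ := pow_ne_zero _ hb
      refine ⟨a * b ^ (Nat.card (ZMod m)ˣ - 1), mul_ne_zero ha hbn, ?_, ?_⟩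
      · rw [Units.val_mul, hinv g', Units.val_pow_eq_pow_val, hg, hg', map_mul, map_pow,
          Nat.cast_mul, Nat.cast_pow]
      · refine er_trans (er_mul hab _) ?_
        rw [← pow_succ', Nat.sub_add_cancel Nat.card_pos]
        have hbn' : b ^ Nat.card (ZMod m)ˣ ≠ ⊥ := pow_ne_zero _ hb
        have h1 : ((1 : (ZMod m)ˣ) : ZMod m) =
            (Ideal.absNorm (b ^ Nat.card (ZMod m)ˣ) : ZMod m) := by
          rw [map_pow, Nat.cast_pow, ← hg', ← Units.val_pow_eq_pow_val, pow_card_eq_one']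
        refine H _ 1 hbn' hone (hcop' _ 1 hbn' h1) isCoprime_one_left ?_
        rw [← h1]
        simp
  set B : Subgroup (M ≃ₐ[K] M) := W.map S.toMonoidHom with hB
  set L : IntermediateField K M := IntermediateField.fixedField B with hL
  have hLgal : IsGalois K L := (cyc_sub h L).1
  have hrs : ∀ g g' : (ZMod m)ˣ, rs L S g = rs L S g' ↔ g * g'⁻¹ ∈ W := by
    intro g g'
    have h1 : rs L S g = rs L S g' ↔ rs L S (g * g'⁻¹) = 1 := by
      rw [map_mul, map_inv, mul_inv_eq_one]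
    rw [h1]
    have h2 : rs L S (g * g'⁻¹) = 1 ↔ S (g * g'⁻¹) ∈ L.fixingSubgroup := by
      rw [← IntermediateField.restrictNormalHom_ker (E := L), MonoidHom.mem_ker]
      rfl
    rw [h2, hL, IntermediateField.fixingSubgroup_fixedField, hB]
    constructor
    · rintro ⟨x, hx, hxy⟩
      have : x = g * g'⁻¹ := S.injective hxy
      rw [← this]
      exact hx
    · intro hx
      exact ⟨_, hx, rfl⟩
  refine ⟨L, hLgal, (cyc_sub h L).2, ?_, ?_, ?_⟩
  · intro a ha haf
    obtain ⟨g, hg⟩ := hunit a ha haf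
    exact ⟨rs L S g, (artin_iff h hS ha hg _).2 rfl⟩
  · intro a b ha hb haf hbf σ τ hσ hτ
    obtain ⟨g, hg⟩ := hunit a ha haf
    obtain ⟨g', hg'⟩ := hunit b hb hbf
    rw [← (artin_iff h hS ha hg σ).1 hσ, ← (artin_iff h hS hb hg' τ).1 hτ, hrs, hW a b g g' ha hb hg hg']
  · intro σ
    obtain ⟨s, hs⟩ := AlgEquiv.restrictNormalHom_surjective (K₁ := L) M σ
    obtain ⟨g, hg⟩ := S.surjective s
    obtain ⟨a, ha, hga⟩ := er_norm_surj h g
    refine ⟨a, ha, hcop' a g ha hga, (artin_iff h hS ha hga _).2 ?_⟩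
    show AlgEquiv.restrictNormalHom L (S g) = σ
    rw [hg, hs]

end exist

/-! ## Uniqueness -/

/-- a field generated over `L` by a root of unity is Galois over `K` if `L` is -/
theorem er_comp_galois {K L N : Type} [Field K] [NumberField K] [Field L] [NumberField L] [Field N]
    [NumberField N] [Algebra K L] [Algebra K N] [Algebra L N] [IsScalarTower K L N] {m : ℕ}
    (hm : m ≠ 0) {ξ : N} (hξ : IsPrimitiveRoot ξ m) (hgen : IntermediateField.adjoin L {ξ} = ⊤)
    (hL : IsGalois K L) : IsGalois K N := by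
  have : NeZero m := ⟨hm⟩
  set A : IntermediateField K N := IntermediateField.adjoin K {ξ} with hA
  set B : IntermediateField K N := (IsScalarTower.toAlgHom K L N).fieldRange with hB
  have hAcyc : IsCyclotomicExtension {m} K A :=
    IsPrimitiveRoot.intermediateField_adjoin_isCyclotomicExtension K hξ
  have hAg : IsGalois K A := IsCyclotomicExtension.isGalois {m} K A
  have hBg : IsGalois K B :=
    IsGalois.of_algEquiv (AlgEquiv.ofInjectiveField (IsScalarTower.toAlgHom K L N))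
  have htop : A ⊔ B = ⊤ := by
    rw [eq_top_iff]
    intro x _
    have hx : x ∈ IntermediateField.adjoin L {ξ} := by rw [hgen]; exact IntermediateField.mem_top
    induction hx using IntermediateField.adjoin_induction with
    | mem x hx =>
      rcases hx with rfl
      exact (le_sup_left : A ≤ A ⊔ B) (IntermediateField.mem_adjoin_simple_self K _)
    | algebraMap q => exact (le_sup_right : B ≤ A ⊔ B) ⟨q, rfl⟩
    | add x y _ _ hx hy => exact add_mem (hx trivial) (hy trivial)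
    | inv x _ hx => exact inv_mem (hx trivial)
    | mul x y _ _ hx hy => exact mul_mem (hx trivial) (hy trivial)
  have h1 : IsGalois K ↑(A ⊔ B) := inferInstance
  rw [htop] at h1
  exact isGalois_iff_isGalois_top.1 h1

theorem er_absNorm_tower {K F : Type} [Field K] [NumberField K] [Field F] [NumberField F] [Algebra K F]
    {P : Ideal (𝓞 F)} {q : ℕ} (hq : q.Prime) (hP : Ideal.absNorm P = q) :
    Ideal.absNorm (P.comap (algebraMap (𝓞 K) (𝓞 F))) = q := by
  have : Fact q.Prime := ⟨hq⟩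
  have hcard : Nat.card (𝓞 F ⧸ P) = q := by
    rw [← hP, Ideal.absNorm_apply]; rfl
  have hfin : Finite (𝓞 F ⧸ P) := Nat.finite_of_card_ne_zero (by rw [hcard]; exact hq.ne_zero)
  have := Fintype.ofFinite (𝓞 F ⧸ P)
  let e : ZMod q ≃+* (𝓞 F ⧸ P) :=
    ZMod.ringEquivOfPrime (𝓞 F ⧸ P) hq (by rw [← Nat.card_eq_fintype_card, hcard])
  let φ : 𝓞 F →+* ZMod q := (e.symm : (𝓞 F ⧸ P) →+* ZMod q).comp (Ideal.Quotient.mk P)
  have hφ : ∀ x, φ x = 0 ↔ x ∈ P := by
    intro x
    have h1 : φ x = e.symm (Ideal.Quotient.mk P x) := rfl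
    rw [h1, map_eq_zero_iff e.symm e.symm.injective, Ideal.Quotient.eq_zero_iff_mem]
  have h1 : P.comap (algebraMap (𝓞 K) (𝓞 F)) =
      RingHom.ker (φ.comp (algebraMap (𝓞 K) (𝓞 F))) := by
    ext x
    rw [Ideal.mem_comap, RingHom.mem_ker, RingHom.comp_apply, hφ]
  rw [h1, Ideal.absNorm_apply, Submodule.cardQuot_apply]
  have e := RingHom.quotientKerEquivOfSurjective
    (ZMod.ringHom_surjective (φ.comp (algebraMap (𝓞 K) (𝓞 F))))
  have h2 := Nat.card_congr e.toEquiv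
  rw [Nat.card_zmod] at h2
  exact h2

private theorem smulComm' {A B : Type} [Field A] [NumberField A] [Field B] [NumberField B]
    [Algebra A B] : SMulCommClass (B ≃ₐ[A] B) (𝓞 A) (𝓞 B) := by
  constructor
  intro σ a x
  rw [Algebra.smul_def, Algebra.smul_def, smul_mul']
  congr 1
  apply RingOfIntegers.ext
  show σ (algebraMap A B (a : A)) = algebraMap A B (a : A)
  exact σ.commutes _

/-- If `L` is the narrow ray class field of `K` modulo `f` and the classes modulo `P(f)_+` are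
determined by the norms modulo `m`, then `L ⊆ K(ζ_m)`. -/
theorem er_top {K L N : Type} [Field K] [NumberField K] [Field L] [NumberField L] [Field N]
    [NumberField N] [Algebra K L] [Algebra K N] [Algebra L N] [IsScalarTower K L N] {m : ℕ}
    (hm3 : 3 ≤ m) {f : Ideal (𝓞 K)}
    (hf : ∀ P : Ideal (𝓞 K), P.IsPrime → (f ≤ P ↔ (m : 𝓞 K) ∈ P)) (H : NormDet K f m)
    (hL : IsRayField K L f) {ξ : N} (hξ : IsPrimitiveRoot ξ m)
    (hgen : IntermediateField.adjoin L {ξ} = ⊤) : IntermediateField.adjoin K {ξ} = ⊤ := by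
  by_contra hne
  have hm0 : 0 < m := by omega
  have : NeZero m := ⟨hm0.ne'⟩
  have hLg := hL.galois
  have hNg : IsGalois K N := er_comp_galois hm0.ne' hξ hgen hLg
  set F : IntermediateField K N := IntermediateField.adjoin K {ξ} with hF
  have hFg : IsGalois F N := IsGalois.tower_top_of_isGalois K F N
  have hbot : (⊥ : Subgroup (N ≃ₐ[F] N)) ≠ ⊤ := by
    intro h0
    apply hne
    have h1 : Nat.card (N ≃ₐ[F] N) = 1 := by
      rw [← Subgroup.card_top, ← h0, Subgroup.card_bot]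
    rw [IsGalois.card_aut_eq_finrank] at h1
    exact IntermediateField.finrank_eq_one_iff_eq_top.1 h1
  obtain ⟨q, hq, hmq, Q, hQ, hN, g, hg, hfr⟩ := wc_group (⊥ : Subgroup (N ≃ₐ[F] N))
    inferInstance hbot m
  apply hg
  rw [Subgroup.mem_bot]
  have : Fact q.Prime := ⟨hq⟩
  have hqm : Nat.Coprime q m := (Nat.Prime.coprime_iff_not_dvd hq).2
    (fun hd => absurd (Nat.le_of_dvd hm0 hd) (by omega))
  -- the prime of `K`
  set P := Q.comap (algebraMap (𝓞 K) (𝓞 N)) with hP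
  have hPF : P = (Q.comap (algebraMap (𝓞 F) (𝓞 N))).comap (algebraMap (𝓞 K) (𝓞 F)) := by
    rw [Ideal.comap_comap, ← IsScalarTower.algebraMap_eq]
  have hPL : P = (Q.comap (algebraMap (𝓞 L) (𝓞 N))).comap (algebraMap (𝓞 K) (𝓞 L)) := by
    rw [Ideal.comap_comap, ← IsScalarTower.algebraMap_eq]
  have hNP : Ideal.absNorm P = q := by
    rw [hPF]
    exact er_absNorm_tower hq hN
  have hPp : P.IsPrime := Ideal.comap_isPrime _ _
  have hP0 : P ≠ ⊥ := by
    intro h0
    rw [h0, Ideal.absNorm_bot] at hNP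
    exact hq.ne_zero hNP.symm
  have hcop : IsCoprime P f := by
    rw [absNorm_coprime hf hP0, hNP]
    exact hqm
  -- `g ξ = ξ` and `q = 1` modulo `m`
  have hgF : ∀ x : F, g (x : N) = x := fun x => g.commutes x
  have hgξ : g ξ = ξ := hgF ⟨ξ, IntermediateField.mem_adjoin_simple_self K ξ⟩
  have hsm : SMulCommClass (N ≃ₐ[F] N) (𝓞 F) (𝓞 N) := smulComm'
  have hfrob : IsArithFrobAt (𝓞 F) g Q := by
    intro x
    have hcard : Nat.card (𝓞 F ⧸ Q.under (𝓞 F)) = q := by
      have h1 : Q.under (𝓞 F) = Q.comap (algebraMap (𝓞 F) (𝓞 N)) := rfl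
      rw [h1, ← hN, Ideal.absNorm_apply]
      rfl
    rw [hcard]
    exact hfr x (g • x) rfl
  have hmQ : (m : 𝓞 N) ∉ Q := by
    intro hmQ
    have h1 : ((q : ℕ) : 𝓞 N) ∈ Q := by
      have h2 : ((Ideal.absNorm P : ℕ) : 𝓞 K) ∈ P := Ideal.absNorm_mem P
      rw [hNP, hP, Ideal.mem_comap, map_natCast] at h2
      exact h2
    obtain ⟨u, v, huv⟩ := Nat.isCoprime_iff_coprime.2 hqm
    apply hQ.ne_top
    rw [Ideal.eq_top_iff_one]
    have h5 : (1 : 𝓞 N) = (u : 𝓞 N) * ((q : ℕ) : 𝓞 N) + (v : 𝓞 N) * (m : 𝓞 N) := by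
      have := congrArg (fun t : ℤ => (t : 𝓞 N)) huv
      push_cast at this
      exact this.symm
    rw [h5]
    exact Q.add_mem (Q.mul_mem_left _ h1) (Q.mul_mem_left _ hmQ)
  obtain ⟨z, hz, hzm⟩ : ∃ z : 𝓞 N, (z : N) = ξ ∧ z ^ m = 1 := by
    refine ⟨⟨ξ, hξ.isIntegral hm0⟩, rfl, ?_⟩
    apply RingOfIntegers.ext
    show ξ ^ m = 1
    exact hξ.pow_eq_one
  have hq1 : (q : ZMod m) = 1 := by
    have h1 := hfrob.apply_of_pow_eq_one hzm hmQ
    have hcard : Nat.card (𝓞 F ⧸ Q.under (𝓞 F)) = q := by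
      have h1 : Q.under (𝓞 F) = Q.comap (algebraMap (𝓞 F) (𝓞 N)) := rfl
      rw [h1, ← hN, Ideal.absNorm_apply]
      rfl
    rw [hcard] at h1
    have h2 : g ξ = ξ ^ q := by
      have h3 := congrArg (fun t : 𝓞 N => (t : N)) h1
      have h4 : ((g • z : 𝓞 N) : N) = ((z ^ q : 𝓞 N) : N) := h3
      rw [← hz]
      exact h4
    rw [hgξ] at h2
    have h3 : ξ ^ (q - 1) = 1 := by
      have h4 : ξ ^ (q - 1) * ξ = 1 * ξ := by
        rw [← pow_succ, Nat.sub_add_cancel hq.pos, one_mul, ← h2]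
      exact mul_right_cancel₀ (hξ.ne_zero hm0.ne') h4
    have h5 : m ∣ q - 1 := hξ.dvd_of_pow_eq_one _ h3
    have h6 : ((q - 1 : ℕ) : ZMod m) = 0 := (ZMod.natCast_eq_zero_iff _ _).2 h5
    rw [Nat.cast_sub hq.pos, Nat.cast_one, sub_eq_zero] at h6
    exact h6
  -- the restriction to `L`
  set σ : L ≃ₐ[K] L := AlgEquiv.restrictNormalHom L (g.restrictScalars K) with hσ
  have hσL : ∀ x : L, g (algebraMap L N x) = algebraMap L N (σ x) := by
    intro x
    exact (AlgEquiv.restrictNormal_commutes (g.restrictScalars K) L x).symm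
  have hFrob : IsFrob K L P σ := by
    intro Q' hQ' hQP' x y hxy
    have hsmL : SMulCommClass (L ≃ₐ[K] L) (𝓞 K) (𝓞 L) := smulComm'
    have hQL : (Q.comap (algebraMap (𝓞 L) (𝓞 N))).IsPrime := Ideal.comap_isPrime _ _
    obtain ⟨t, ht⟩ := Algebra.IsInvariant.exists_smul_of_under_eq (𝓞 K) (𝓞 L) (L ≃ₐ[K] L)
      (Q.comap (algebraMap (𝓞 L) (𝓞 N))) Q' (by
        show (Q.comap (algebraMap (𝓞 L) (𝓞 N))).comap (algebraMap (𝓞 K) (𝓞 L)) =
          Q'.comap (algebraMap (𝓞 K) (𝓞 L))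
        rw [← hPL, hQP'])
    have hy : y = σ • x := by
      apply RingOfIntegers.ext
      rw [hxy]
      rfl
    rw [hNP, ht, Ideal.mem_pointwise_smul_iff_inv_smul_mem, smul_sub, smul_pow', hy, ← mul_smul,
      hL.comm t⁻¹ σ, mul_smul, Ideal.mem_comap, map_sub, map_pow]
    refine hfr _ _ ?_
    show algebraMap L N (σ ((t⁻¹ • x : 𝓞 L) : L)) = g (algebraMap L N ((t⁻¹ • x : 𝓞 L) : L))
    rw [hσL]
  have hone : (1 : Ideal (𝓞 K)) ≠ ⊥ := by
    rw [Ideal.one_eq_top]; exact top_ne_bot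
  have hA : IsArtin K L P σ := by
    have := IsArtin.mul P 1 σ 1 hPp hP0 hFrob IsArtin.one
    simpa using this
  have hray : RayEquiv K f P 1 := H P 1 hP0 hone hcop isCoprime_one_left (by
    rw [hNP, hq1]; simp)
  have hσ1 : σ = 1 := (hL.kernel P 1 hP0 hone hcop isCoprime_one_left σ 1 hA IsArtin.one).2 hray
  ext x
  have hx : x ∈ IntermediateField.adjoin L {ξ} := by rw [hgen]; exact IntermediateField.mem_top
  show g x = x
  induction hx using IntermediateField.adjoin_induction with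
  | mem x hx => rcases hx with rfl; exact hgξ
  | algebraMap y => rw [hσL, hσ1]; rfl
  | add x y _ _ hx hy => rw [map_add, hx, hy]
  | inv x _ hx => rw [map_inv₀, hx]
  | mul x y _ _ hx hy => rw [map_mul, hx, hy]

/-! ## Question Q1 -/

section q1

variable {K : Type} [Field K] [NumberField K] {m : ℕ} {f : Ideal (𝓞 K)}

/-- Question Q1 for `K` and `f` if the classes modulo `P(f)_+` are determined by the norms modulo
`m`. -/
theorem er_q1 (hK : Module.finrank ℚ K = 3) (hc : ∃ v : InfinitePlace K, v.IsComplex)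
    (hm3 : 3 ≤ m) (hf : ∀ P : Ideal (𝓞 K), P.IsPrime → (f ≤ P ↔ (m : 𝓞 K) ∈ P))
    (H : NormDet K f m) : Q1 K f := by
  intro L _ _ _ hL v hv
  have : NeZero m := ⟨by omega⟩
  have hξ := IsCyclotomicExtension.zeta_spec m L (CyclotomicField m L)
  set ξ := IsCyclotomicExtension.zeta m L (CyclotomicField m L) with hξd
  have hgen : IntermediateField.adjoin L {ξ} = ⊤ := by
    have h2 := IsCyclotomicExtension.adjoin_primitive_root_eq_top (A := L)
      (B := CyclotomicField m L) hξ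
    exact IntermediateField.adjoin_eq_top_of_algebra L {ξ} h2
  have htop := er_top (K := K) (L := L) (N := CyclotomicField m L) hm3 hf H hL hξ hgen
  have hC : CycG m K (CyclotomicField m L) ξ := ⟨hm3, hK, hc, hξ, htop⟩
  exact stark_cub (L := L) (M := CyclotomicField m L) hC hf v hv

end q1

/-! ## The real embedding of a complex cubic field -/

section real

variable {K : Type} [Field K] [NumberField K]

private noncomputable def toC (φ : K →+* ℝ) : K →+* ℂ := Complex.ofRealHom.comp φ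

omit [NumberField K] in
private theorem toC_apply (φ : K →+* ℝ) (x : K) : toC φ x = ((φ x : ℝ) : ℂ) := rfl

private theorem toC_real (φ : K →+* ℝ) : (InfinitePlace.mk (toC φ)).IsReal := by
  refine ⟨toC φ, ?_, rfl⟩
  rw [ComplexEmbedding.isReal_iff]
  ext x
  rw [ComplexEmbedding.conjugate_coe_eq, toC_apply, Complex.conj_ofReal]

/-- a complex cubic field has only one real embedding -/
theorem er_real_unique (hK : Module.finrank ℚ K = 3) (hc : ∃ v : InfinitePlace K, v.IsComplex)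
    (φ ψ : K →+* ℝ) : φ = ψ := by
  classical
  have h1 := InfinitePlace.card_add_two_mul_card_eq_rank K
  rw [hK] at h1
  have h2 : 0 < InfinitePlace.nrComplexPlaces K := by
    obtain ⟨v, hv⟩ := hc
    exact Fintype.card_pos_iff.2 ⟨⟨v, hv⟩⟩
  have h3 : InfinitePlace.nrRealPlaces K ≤ 1 := by omega
  have h4 : (⟨InfinitePlace.mk (toC φ), toC_real φ⟩ : {w : InfinitePlace K // w.IsReal}) =
      ⟨InfinitePlace.mk (toC ψ), toC_real ψ⟩ := Fintype.card_le_one_iff.1 h3 _ _
  have h5 : InfinitePlace.mk (toC φ) = InfinitePlace.mk (toC ψ) := congrArg Subtype.val h4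
  have h6 : toC φ = toC ψ := by
    rcases InfinitePlace.mk_eq_iff.1 h5 with h | h
    · exact h
    · rw [← h]
      ext x
      rw [ComplexEmbedding.conjugate_coe_eq, toC_apply, Complex.conj_ofReal]
  ext x
  have := RingHom.congr_fun h6 x
  rw [toC_apply, toC_apply] at this
  exact_mod_cast this

/-- up to sign every element is positive at all real embeddings -/
theorem er_sign (hK : Module.finrank ℚ K = 3) (hc : ∃ v : InfinitePlace K, v.IsComplex) {x : K}
    (hx : x ≠ 0) : (∀ φ : K →+* ℝ, 0 < φ x) ∨ (∀ φ : K →+* ℝ, 0 < φ (-x)) := by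
  by_cases h : ∃ φ : K →+* ℝ, 0 < φ (-x)
  · obtain ⟨φ, hφ⟩ := h
    right
    intro ψ
    rw [er_real_unique hK hc ψ φ]
    exact hφ
  · left
    push Not at h
    intro φ
    have h1 := h φ
    rw [map_neg] at h1
    have h2 : φ x ≠ 0 := (map_ne_zero φ).2 hx
    have h3 : 0 ≤ φ x := by linarith
    exact lt_of_le_of_ne h3 h2.symm

end real

/-! ## Principal ideal domains -/

section pid

variable {K : Type} [Field K] [NumberField K] {m : ℕ} {f : Ideal (𝓞 K)}

/-- If the ring of integers of the complex cubic field `K` is a principal ideal domain, the classes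
modulo `P(f)_+` are determined by the norms modulo `m` if every number prime to `f` with positive
real conjugate and norm `1` modulo `m` is congruent to a unit with positive real conjugate. -/
theorem er_pid (hK : Module.finrank ℚ K = 3) (hc : ∃ v : InfinitePlace K, v.IsComplex)
    (hm3 : 3 ≤ m) (hf : ∀ P : Ideal (𝓞 K), P.IsPrime → (f ≤ P ↔ (m : 𝓞 K) ∈ P)) (hf0 : f ≠ ⊥)
    (hcl : IsPrincipalIdealRing (𝓞 K))
    (H : ∀ x : 𝓞 K, x ≠ 0 → (∀ φ : K →+* ℝ, 0 < φ (x : K)) →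
      ((Algebra.norm ℤ x : ℤ) : ZMod m) = 1 → ∃ ε : (𝓞 K)ˣ,
        (∀ φ : K →+* ℝ, 0 < φ ((ε : 𝓞 K) : K)) ∧ x - (ε : 𝓞 K) ∈ f) :
    NormDet K f m := by
  have : NeZero m := ⟨by omega⟩
  intro a b ha hb haf hbf hab
  have hgen : ∀ c : Ideal (𝓞 K), c ≠ ⊥ → ∃ x : 𝓞 K, x ≠ 0 ∧ Ideal.span {x} = c ∧
      ∀ φ : K →+* ℝ, 0 < φ (x : K) := by
    intro c hc'
    obtain ⟨x, hx⟩ := (hcl.principal c).principal
    have hx' : Ideal.span {x} = c := hx.symm
    have hx0 : x ≠ 0 := by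
      rintro rfl
      apply hc'
      rw [← hx', Ideal.span_singleton_eq_bot]
    rcases er_sign hK hc (x := (x : K)) (by simpa using hx0) with h | h
    · exact ⟨x, hx0, hx', h⟩
    · exact ⟨-x, neg_ne_zero.2 hx0, by rw [Ideal.span_singleton_neg, hx'], by simpa using h⟩
  obtain ⟨x, hx0, hxa, hxp⟩ := hgen a ha
  obtain ⟨y, hy0, hyb, hyp⟩ := hgen b hb
  have hNx := ray_absNorm_pos hx0 hxp
  have hNy := ray_absNorm_pos hy0 hyp
  rw [hxa] at hNx
  rw [hyb] at hNy
  -- a power of `y` is `1` modulo `f` and has norm `1` modulo `m`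
  have hfin : Finite (𝓞 K ⧸ f) := Ideal.finiteQuotientOfFreeOfNeBot f hf0
  have hyu : IsUnit (Ideal.Quotient.mk f y) := by
    rw [← hyb, Ideal.isCoprime_iff_exists] at hbf
    obtain ⟨s, hs, t, ht, hst⟩ := hbf
    obtain ⟨r, rfl⟩ := Ideal.mem_span_singleton'.1 hs
    have h1 : Ideal.Quotient.mk f (r * y + t) = 1 := by rw [hst, map_one]
    rw [map_add, Ideal.Quotient.eq_zero_iff_mem.2 ht, add_zero, map_mul] at h1
    exact IsUnit.of_mul_eq_one_right _ h1
  have hNu : IsUnit ((Ideal.absNorm b : ℕ) : ZMod m) :=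
    (ZMod.isUnit_iff_coprime _ _).2 ((absNorm_coprime hf hb).1 hbf)
  obtain ⟨u, hu⟩ := hyu
  obtain ⟨w, hw⟩ := hNu
  have : Finite (𝓞 K ⧸ f)ˣ := inferInstance
  set n : ℕ := Nat.card (𝓞 K ⧸ f)ˣ * Nat.card (ZMod m)ˣ with hn
  have hn0 : 0 < n := Nat.mul_pos Nat.card_pos Nat.card_pos
  have hyn : y ^ n - 1 ∈ f := by
    rw [← Ideal.Quotient.eq_zero_iff_mem, map_sub, map_pow, map_one, ← hu, ← Units.val_pow_eq_pow_val,
      hn, pow_mul, pow_card_eq_one', one_pow, Units.val_one, sub_self]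
  have hwn : ((Ideal.absNorm b : ℕ) : ZMod m) ^ n = 1 := by
    rw [← hw, ← Units.val_pow_eq_pow_val, hn, mul_comm, pow_mul, pow_card_eq_one', one_pow,
      Units.val_one]
  -- the number `x * y ^ (n - 1)`
  set z : 𝓞 K := x * y ^ (n - 1) with hz
  have hz0 : z ≠ 0 := mul_ne_zero hx0 (pow_ne_zero _ hy0)
  have hzp : ∀ φ : K →+* ℝ, 0 < φ (z : K) := by
    intro φ
    have := mul_pos (hxp φ) (pow_pos (hyp φ) (n - 1))
    rw [hz]
    simpa using this
  have hzN : ((Algebra.norm ℤ z : ℤ) : ZMod m) = 1 := by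
    rw [hz, map_mul, map_pow, ← hNx, ← hNy]
    push_cast
    rw [hab, ← pow_succ', Nat.sub_add_cancel hn0, hwn]
  obtain ⟨ε, hεp, hε⟩ := H z hz0 hzp hzN
  -- `ε⁻¹ z = 1` modulo `f`
  have hεinv : ∀ φ : K →+* ℝ, 0 < φ (((ε⁻¹ : (𝓞 K)ˣ) : 𝓞 K) : K) := by
    intro φ
    have h1 : φ ((ε : 𝓞 K) : K) * φ (((ε⁻¹ : (𝓞 K)ˣ) : 𝓞 K) : K) = 1 := by
      rw [← map_mul]
      have : ((ε : 𝓞 K) : K) * (((ε⁻¹ : (𝓞 K)ˣ) : 𝓞 K) : K) = 1 := by
        have h2 := congrArg (fun t : 𝓞 K => (t : K)) ε.mul_inv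
        simpa using h2
      rw [this, map_one]
    have h2 := hεp φ
    by_contra h3
    push Not at h3
    nlinarith
  refine ⟨y ^ n, ((ε⁻¹ : (𝓞 K)ˣ) : 𝓞 K) * z, pow_ne_zero _ hy0,
    mul_ne_zero (Units.ne_zero _) hz0, hyn, ?_, fun φ => ⟨?_, ?_⟩, ?_⟩
  · have h1 : ((ε⁻¹ : (𝓞 K)ˣ) : 𝓞 K) * z - 1 = ((ε⁻¹ : (𝓞 K)ˣ) : 𝓞 K) * (z - ε) := by
      rw [mul_sub, Units.inv_mul]
    rw [h1]
    exact f.mul_mem_left _ hε
  · have := pow_pos (hyp φ) n
    simpa using this
  · have := mul_pos (hεinv φ) (hzp φ)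
    simpa using this
  · rw [← hxa, ← hyb, Ideal.span_singleton_mul_span_singleton,
      Ideal.span_singleton_mul_span_singleton, hz]
    have h1 : ((ε⁻¹ : (𝓞 K)ˣ) : 𝓞 K) * (x * y ^ (n - 1)) * y = ((ε⁻¹ : (𝓞 K)ˣ) : 𝓞 K) * (y ^ n * x) := by
      have : y ^ n = y ^ (n - 1) * y := by rw [← pow_succ, Nat.sub_add_cancel hn0]
      rw [this]
      ring
    rw [h1]
    exact (Ideal.span_singleton_mul_left_unit (Units.isUnit _) _).symm

/-- the condition of `er_pid` if `f` is the product of totally ramified primes -/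
theorem er_ram (hK : Module.finrank ℚ K = 3) (hc : ∃ v : InfinitePlace K, v.IsComplex)
    (hm3 : 3 ≤ m) (hsq : Squarefree m) (h1 : ∀ p : ℕ, p.Prime → p ∣ m → p % 3 ≠ 1)
    (hf : f ^ 3 = Ideal.span {(m : 𝓞 K)}) (hcl : IsPrincipalIdealRing (𝓞 K)) :
    NormDet K f m := by
  have hm : m ≠ 0 := by omega
  have : NeZero m := ⟨hm⟩
  have hf0 : f ≠ ⊥ := by
    rintro rfl
    have h2 : (⊥ : Ideal (𝓞 K)) ^ 3 = ⊥ := by
      rw [← Ideal.zero_eq_bot, zero_pow (by norm_num)]
    rw [h2] at hf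
    have h3 := (Ideal.span_singleton_eq_bot).1 hf.symm
    exact hm (by exact_mod_cast h3)
  refine er_pid hK hc hm3 (ray_f_mem_iff hf) hf0 hcl ?_
  intro x hx0 hxp hN
  refine ⟨1, fun φ => by simp, ?_⟩
  obtain ⟨r, hr⟩ := ray_exists_int hm hsq hK hf x
  have hr3 := ray_norm_mod hsq hK hf hr
  rw [hN] at hr3
  have hru : IsUnit (r : ZMod m) := by
    have : IsUnit ((r : ZMod m) ^ 3) := by rw [← hr3]; exact isUnit_one
    exact (isUnit_pow_iff (by norm_num)).1 this
  obtain ⟨u, hu⟩ := hru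
  have hu1 : u = 1 := by
    apply (ray_cube hm hsq h1).1
    show u ^ 3 = 1 ^ 3
    ext
    rw [one_pow, Units.val_pow_eq_pow_val, hu, ← hr3, Units.val_one]
  have hr1 : (r : ZMod m) = 1 := by rw [← hu, hu1, Units.val_one]
  have h2 : (m : ℤ) ∣ r - 1 := by
    rw [← ZMod.intCast_zmod_eq_zero_iff_dvd]
    push_cast
    rw [hr1, sub_self]
  obtain ⟨k, hk⟩ := h2
  have h3 : x - ((1 : (𝓞 K)ˣ) : 𝓞 K) = (x - r) + (m : 𝓞 K) * (k : 𝓞 K) := by
    have h4 := congrArg (fun z : ℤ => (z : 𝓞 K)) hk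
    push_cast at h4
    rw [← h4, Units.val_one]
    ring
  rw [h3]
  exact f.add_mem hr (f.mul_mem_right _ (ray_m_mem hf))

end pid

end CMS
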