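import Pool.Agent.Lib.CMS.EData
import Pool.Agent.Lib.CMS.AIrr

/-!
# EZ: the unit `z` of `M = K(ζ)`  (paper 6.4; about 300 lines; adapt `MP_d9f52e_nt/XZ.lean`)

`e = jk j`, `F0 = ι(M)`, `ι (algebraMap K M x) = j (s 1 x)`.  `xi` from `xi_exists`.  `ι ζ` is a primitive `m`-th root of unity; a power of it is `exp(2 π i/m) = exp(2 π i/f) ^ (f/m)`; if `Act e t f γ u` then `t (ι ζ) = (ι ζ) ^ N u` (`act_zeta`), so if
`t (ι ζ) = (ι ζ) ^ g` then `N u = g` in `ZMod m`.
(*) `t` fixes `e(k)` and `j (s 1 x)` for all `x`: `Sh s j t 0` (`sh_of_fix`, `s` injective), `φ u = 0` (`law`), so if `t (ι ζ) = (ι ζ) ^ g`: `‖t xi‖ = Phi 0 g / Phi 2 g = Phi 0 g / Phi 1 g` (`Phi_neg`: `2 = -1`), and `t xi = xi` if moreover `g = 1` in `ZMod m`.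
(**) `t` does not fix `e(k)`, fixes the `j (s 1 x)`, `t (ι ζ) = (ι ζ) ^ g`: `refl_of_not_fix`: `t (j (s i x)) = j (s (c - i) x)` with `c - 1 = 1`, `c = 2`; `t.trans cj` fixes `e(k)` (`sh_fix`) and has shift `-2 = 1` (`refl_conj`): `φ u = -1 = 2` for `Act e (t.trans cj) f γ u`,
  `(t.trans cj) (ι ζ) = (ι ζ) ^ (-g)`; `‖t xi‖ = ‖cj (t xi)‖ = Phi 2 (-g) / Phi (2 + 2) (-g) = 1` (`Phi_neg`, `Phi_pos`).
Case A: `e(k) ⊆ ι(M)`.  `descent ι xi`: if `t` fixes `ι(M)` then `t xi = xi` by (*); `xi = ι z`.  `ρ : M ≃ₐ[K] M`, `ρ ζ = ζ ^ g`; `t` with `t ∘ ι = ι ∘ ρ` (`exists_aut`).  If `t` fixes `e(k)`: (*).  Otherwise `‖t xi‖ = 1` by (**), and `Phi i g = 1` for all `i`, because no ideal `a` with `Cop f a` has norm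
  `g` modulo `m` (`Phi_empty`: `Sys` filtered is empty, `Finset.prod_empty`; members of `Sys` are `Cop f`: `sys_cop`): suppose `N a = g`; `act_surj`: `t'` fixing `e(k)`, `Act e t' f γ u`, `Req f u a`, `t' (ι ζ) = (ι ζ) ^ N a = t (ι ζ)` (`req_norm`).  `κ : k → M` with `ι (κ x) = e x` (`factor`).
  `κ(k) ⊆ ℚ(ζ)`: `[M : ℚ] = 3 φ(m)` (`cyc_finrank`), `[ℚ(ζ) : ℚ] = φ(m)`, so `[M : ℚ(ζ)] = 3`, and `[ℚ(ζ)(κ x) : ℚ(ζ)]` is at most `2` (`κ x` has degree at most `2` over `ℚ`) and divides `3`, so it is `1`.  `t` and `t'` agree on `ι(ℚ(ζ))`, which contains `e(k)`; `t'` fixes `e(k)`: contradiction.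
Case B: some `e x0` is not in `ι(M)`.  There is `τ` with `τ ∘ ι = ι` not fixing `e(k)` (`descent ι (e x0)`).  `y = xi * τ xi`.  As in `XZ.lean`, with (fixes `w`) replaced by (fixes `e(k)`): if `t` fixes `ι(M)` then `t y = y` (the product of two automorphisms not fixing `e(k)` fixes it: `aut_fix`, `perm_or`; or: `k` is
  quadratic, `t (e x) ∈ {e x, conj (e x)}`: `t (e x) = e (cjk hk x)` for all `x`).  `y = ι z`; for `ρ` choose `t` with `t ∘ ι = ι ∘ ρ` fixing `e(k)`: `‖ι (ρ z)‖ = ‖t xi‖ ‖t (τ xi)‖ = (Phi 0 g / Phi 1 g) * 1`.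
`z`, `z⁻¹` are integral.
-/

set_option autoImplicit false

namespace CMS

open Complex NumberField MPd9f52e

/-- the members of `Sys` are prime to `f` -/
theorem sys_cop' {k : Type} [Field k] [NumberField k] {f : ℕ} {a : Ideal (𝓞 k)} (ha : a ∈ Sys k f) : Cop f a := by
  unfold Sys at ha
  split_ifs at ha with h
  · exact h.choose_spec.1 a ha
  · exact absurd ha (Finset.notMem_empty a)

/-- an automorphism of `ℂ` acts on `e(k)` trivially or by conjugation -/
private theorem ez_aut {k : Type} [Field k] [NumberField k] (hk : IQ k) (e : k →+* ℂ) (t : ℂ ≃+* ℂ) :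
    (∀ x, t (e x) = e x) ∨ ∀ x, t (e x) = e (cjk hk x) := by
  classical
  have h2 : Fintype.card (k →+* ℂ) = 2 := by
    rw [NumberField.Embeddings.card, hk.two]
  have hce : e.comp (cjk hk : k →+* k) ≠ e := by
    intro h
    have h3 := hk.cpx (InfinitePlace.mk e)
    rw [InfinitePlace.isComplex_mk_iff] at h3
    apply h3
    ext x
    show (starRingEnd ℂ) (e x) = e x
    rw [← cjk_spec hk e x]
    exact RingHom.congr_fun h x
  by_contra hcon
  push Not at hcon
  obtain ⟨⟨x1, hx1⟩, ⟨x2, hx2⟩⟩ := hcon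
  have h3 : ({e, e.comp (cjk hk : k →+* k), (t : ℂ →+* ℂ).comp e} : Finset (k →+* ℂ)).card = 3 := by
    rw [Finset.card_eq_three]
    refine ⟨_, _, _, hce.symm, ?_, ?_, rfl⟩
    · intro h
      exact hx1 (RingHom.congr_fun h x1).symm
    · intro h
      exact hx2 (RingHom.congr_fun h x2).symm
  have h4 := Finset.card_le_univ ({e, e.comp (cjk hk : k →+* k), (t : ℂ →+* ℂ).comp e} : Finset (k →+* ℂ))
  rw [h3, h2] at h4
  omega

private theorem ez_cc {k : Type} [Field k] [NumberField k] (hk : IQ k) (e : k →+* ℂ) (x : k) :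
    cjk hk (cjk hk x) = x := by
  apply e.injective
  rw [cjk_spec, cjk_spec, Complex.conj_conj]

private theorem ez_modEq {x : ℂ} {m a b : ℕ} (h : IsPrimitiveRoot x m) (hm : 0 < m) (hab : x ^ a = x ^ b) :
    (a : ZMod m) = b := by
  have h1 : x ^ (a % m) = x ^ (b % m) := by
    rw [← pow_eq_pow_mod a h.pow_eq_one, ← pow_eq_pow_mod b h.pow_eq_one, hab]
  rw [ZMod.natCast_eq_natCast_iff]
  exact h.pow_inj (Nat.mod_lt _ hm) (Nat.mod_lt _ hm) h1

private theorem ez_cj {x : ℂ} {m : ℕ} (h : IsPrimitiveRoot x m) (hm : 0 < m) : cj x = x ^ (m - 1) := by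
  have h1 : x ^ m = 1 := h.pow_eq_one
  have h2 : x * x ^ (m - 1) = 1 := by
    rw [← pow_succ', Nat.sub_add_cancel (by omega)]; exact h1
  have hn : ‖x‖ = 1 := h.norm'_eq_one (by omega)
  have h3 : x * cj x = 1 := by
    have : x * (starRingEnd ℂ) x = ((‖x‖ ^ 2 : ℝ) : ℂ) := by
      rw [Complex.mul_conj, Complex.normSq_eq_norm_sq]
    rw [hn] at this
    show x * (starRingEnd ℂ) x = 1
    rw [this]; simp
  have h0 : x ≠ 0 := h.ne_zero (by omega)
  exact mul_left_cancel₀ h0 (h3.trans h2.symm)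

private theorem ez_zeta {k : Type} [Field k] [NumberField k] (hk : IQ k) {e : k →+* ℂ} {t : ℂ ≃+* ℂ} {f m : ℕ} {γ : ℂ}
    {u : Ideal (𝓞 k)} (ht : ∀ x, t (e x) = e x) (hf : 3 ≤ f) (hmf : m ∣ f) (h : Act e t f γ u) {x : ℂ}
    (hx : x ^ m = 1) : t x = x ^ Ideal.absNorm u := by
  have hxf : x ^ f = 1 := by
    obtain ⟨c, rfl⟩ := hmf
    rw [pow_mul, hx, one_pow]
  have : NeZero f := ⟨by omega⟩
  obtain ⟨l, -, hl⟩ := (Complex.isPrimitiveRoot_exp f (by omega)).eq_pow_of_pow_eq_one hxf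
  rw [← hl, map_pow, act_zeta hk ht hf h, ← pow_mul, ← pow_mul, mul_comm (Ideal.absNorm u) l]

section
variable {K k E : Type} [Field K] [NumberField K] [Field k] [NumberField k] [Field E] [NumberField E]
    [Algebra k E] {s : ZMod 3 → K →+* E} {j : E →+* ℂ} {m f : ℕ}
    {φ : Ideal (𝓞 k) → ZMod 3}

private theorem key0 (h : RData K k E s j m f φ) {t : ℂ ≃+* ℂ} (ht : ∀ x, t (jk (k := k) j x) = jk (k := k) j x)
    (h1 : ∀ x, t (j (s 1 x)) = j (s 1 x)) : Sh s j t 0 := by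
  obtain ⟨c, hc⟩ := sh_of_fix h.dih t ht
  have h2 : s (1 + c) = s 1 := by
    ext x
    apply j.injective
    rw [← hc, h1]
  have h3 : c = 0 := by
    have := h.dih.inj h2
    simpa using this
  rwa [h3] at hc

private theorem key1 (h : RData K k E s j m f φ) {xi : ℂ}
    (hxi : ∀ t : ℂ ≃+* ℂ, (∀ x, t (jk (k := k) j x) = jk (k := k) j x) → ∀ γ u, Act (jk (k := k) j) t f γ u →
        ‖t xi‖ = Phi (jk (k := k) j) f m φ (φ u) (Ideal.absNorm u : ZMod m) /
          Phi (jk (k := k) j) f m φ (φ u + 2) (Ideal.absNorm u : ZMod m) ∧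
        (φ u = 0 → (Ideal.absNorm u : ZMod m) = 1 → t xi = xi)) {t : ℂ ≃+* ℂ}
    (ht : ∀ x, t (jk (k := k) j x) = jk (k := k) j x) (h1 : ∀ x, t (j (s 1 x)) = j (s 1 x)) {z : ℂ}
    (hz : IsPrimitiveRoot z m) (hm : 0 < m) {g : ℕ} (hg : t z = z ^ g) :
    ‖t xi‖ = Phi (jk (k := k) j) f m φ 0 (g : ZMod m) / Phi (jk (k := k) j) f m φ 1 (g : ZMod m) ∧
      ((g : ZMod m) = 1 → t xi = xi) := by
  have hsh := key0 h ht h1
  obtain ⟨γ, u, hA⟩ := act_exists h.dih.iq ht h.three_le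
  have h2 : φ u = 0 := by rw [h.law t 0 hsh γ u hA, neg_zero]
  have h3 : ((Ideal.absNorm u : ℕ) : ZMod m) = g := by
    apply ez_modEq hz hm
    rw [← hg, ez_zeta h.dih.iq ht h.three_le h.dvd hA hz.pow_eq_one]
  obtain ⟨h4, h5⟩ := hxi t ht γ u hA
  rw [h2, h3, zero_add] at h4
  rw [h3] at h5
  refine ⟨?_, h5 h2⟩
  rw [h4]
  have h6 := Phi_neg h.dih.iq (jk (k := k) j) h.three_le h.dvd h.ray h.cj 1 (g : ZMod m)
  rw [show (-1 : ZMod 3) = 2 from rfl] at h6
  rw [h6]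

private theorem key3 (h : RData K k E s j m f φ) {xi : ℂ}
    (hxi : ∀ t : ℂ ≃+* ℂ, (∀ x, t (jk (k := k) j x) = jk (k := k) j x) → ∀ γ u, Act (jk (k := k) j) t f γ u →
        ‖t xi‖ = Phi (jk (k := k) j) f m φ (φ u) (Ideal.absNorm u : ZMod m) /
          Phi (jk (k := k) j) f m φ (φ u + 2) (Ideal.absNorm u : ZMod m) ∧
        (φ u = 0 → (Ideal.absNorm u : ZMod m) = 1 → t xi = xi)) {t : ℂ ≃+* ℂ}
    (ht : ¬ ∀ x, t (jk (k := k) j x) = jk (k := k) j x) (h1 : ∀ x, t (j (s 1 x)) = j (s 1 x)) : ‖t xi‖ = 1 := by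
  obtain ⟨c, hc⟩ := refl_of_not_fix h.dih t ht
  have h2 : s (c - 1) = s 1 := by
    ext x
    apply j.injective
    rw [← hc, h1]
  have h3 : c = 2 := by
    have h4 := h.dih.inj h2
    rw [sub_eq_iff_eq_add] at h4
    rw [h4]; rfl
  have hsh := refl_conj h.dih hc
  rw [h3] at hsh
  have ht' : ∀ x, (t.trans cj) (jk (k := k) j x) = jk (k := k) j x := fun x => sh_fix h.dih hsh x
  obtain ⟨γ, u, hA⟩ := act_exists h.dih.iq ht' h.three_le
  have h5 : φ u = 2 := by rw [h.law _ _ hsh γ u hA, neg_neg]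
  obtain ⟨h6, -⟩ := hxi _ ht' γ u hA
  rw [h5] at h6
  have h7 := Phi_neg h.dih.iq (jk (k := k) j) h.three_le h.dvd h.ray h.cj 1 ((Ideal.absNorm u : ℕ) : ZMod m)
  rw [show (-1 : ZMod 3) = 2 from rfl] at h7
  rw [show (2 + 2 : ZMod 3) = 1 from rfl, h7, div_self (Phi_pos h.dih.iq _ h.three_le _ _).ne'] at h6
  rw [← h6]
  exact (Complex.norm_conj _).symm

end

/-- a quadratic field inside `K(ζ)` is inside `ℚ(ζ)` -/
private theorem ez_quad {k K M : Type} [Field k] [NumberField k] [Field K] [NumberField K] [Field M] [NumberField M]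
    [Algebra K M] {m : ℕ} {ζ : M} (hk : IQ k) (hM : CycG m K M ζ) (κ : k →+* M) (x : k) :
    κ x ∈ IntermediateField.adjoin ℚ {ζ} := by
  have hm : 0 < m := lt_of_lt_of_le (by norm_num) hM.three_le
  have hdF : Module.finrank ℚ (IntermediateField.adjoin ℚ {ζ}) = Nat.totient m := by
    rw [IntermediateField.adjoin.finrank (IsIntegral.of_finite ℚ ζ),
      ← Polynomial.cyclotomic_eq_minpoly_rat hM.prim hm, Polynomial.natDegree_cyclotomic]
  have h1 := Module.finrank_mul_finrank ℚ (IntermediateField.adjoin ℚ {ζ}) M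
  rw [hdF, cyc_finrank hM, mul_comm 3] at h1
  have h3 : Module.finrank (IntermediateField.adjoin ℚ {ζ}) M = 3 :=
    Nat.eq_of_mul_eq_mul_left (Nat.totient_pos.2 hm) h1
  have hint : IsIntegral (IntermediateField.adjoin ℚ {ζ}) (κ x) := IsIntegral.of_finite _ _
  have h4 : (minpoly (IntermediateField.adjoin ℚ {ζ}) (κ x)).natDegree ∣ 3 := by
    rw [← h3]
    exact minpoly.degree_dvd hint
  have hintx : IsIntegral ℚ x := IsIntegral.of_finite _ _
  have h5 : (minpoly (IntermediateField.adjoin ℚ {ζ}) (κ x)).natDegree ≤ 2 := by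
    have h6 : minpoly (IntermediateField.adjoin ℚ {ζ}) (κ x) ∣
        (minpoly ℚ x).map (algebraMap ℚ (IntermediateField.adjoin ℚ {ζ})) := by
      apply minpoly.dvd
      rw [Polynomial.aeval_map_algebraMap]
      have : Polynomial.aeval (κ.toRatAlgHom x) (minpoly ℚ x) = 0 := by
        rw [Polynomial.aeval_algHom_apply, minpoly.aeval, map_zero]
      exact this
    have h7 := Polynomial.natDegree_le_of_dvd h6 (((minpoly.monic hintx).map _).ne_zero)
    rw [Polynomial.natDegree_map] at h7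
    have h8 : (minpoly ℚ x).natDegree ≤ Module.finrank ℚ k := minpoly.natDegree_le x
    rw [hk.two] at h8
    omega
  have h9 : (minpoly (IntermediateField.adjoin ℚ {ζ}) (κ x)).natDegree = 1 := by
    rcases (Nat.dvd_prime Nat.prime_three).1 h4 with h | h
    · exact h
    · omega
  obtain ⟨y, hy⟩ := (minpoly.natDegree_eq_one_iff (A := IntermediateField.adjoin ℚ {ζ}) (B := M)).1 h9
  rw [← hy]
  exact y.2

theorem exists_z {K k E M : Type} [Field K] [NumberField K] [Field k] [NumberField k] [Field E] [NumberField E]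
    [Algebra k E] [Field M] [NumberField M] [Algebra K M] {s : ZMod 3 → K →+* E} {j : E →+* ℂ} {m f : ℕ}
    {φ : Ideal (𝓞 k) → ZMod 3} (h : RData K k E s j m f φ) {ζ : M} (hM : CycG m K M ζ) (ι : M →+* ℂ)
    (hι : ∀ x, ι (algebraMap K M x) = j (s 1 x)) :
    ∃ z : M, z ≠ 0 ∧ IsIntegral ℤ z ∧ IsIntegral ℤ z⁻¹ ∧ ∀ (ρ : M ≃ₐ[K] M) (g : ℕ), ρ ζ = ζ ^ g →
      ‖ι (ρ z)‖ = Phi (jk (k := k) j) f m φ 0 (g : ZMod m) / Phi (jk (k := k) j) f m φ 1 (g : ZMod m) := by
  have hm : 0 < m := lt_of_lt_of_le (by norm_num) hM.three_le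
  set e : k →+* ℂ := jk (k := k) j with he
  obtain ⟨xi, hu3, hu1, hu2, hxi⟩ := xi_exists h.dih.iq e h.three_le h.dvd hm h.ray h.nonzero h.cj
  have hinj : Function.Injective ι := ι.injective
  have hp : IsPrimitiveRoot (ι ζ) m := hM.prim.map_of_injective hinj
  have fin : ∀ z : M, ∀ y : ℂ, ι z = y → y ≠ 0 → IsIntegral ℤ y → IsIntegral ℤ y⁻¹ →
      z ≠ 0 ∧ IsIntegral ℤ z ∧ IsIntegral ℤ z⁻¹ := by
    intro z y hz hy0 hy1 hy2
    refine ⟨fun h => hy0 (by rw [← hz, h, map_zero]), ?_, ?_⟩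
    · rw [← hz] at hy1
      exact (isIntegral_algHom_iff ι.toIntAlgHom hinj).1 hy1
    · rw [← hz, ← map_inv₀] at hy2
      exact (isIntegral_algHom_iff ι.toIntAlgHom hinj).1 hy2
  have halg : ∀ y : ℂ, IsIntegral ℤ y → IsAlgebraic ℚ y := fun y hy =>
    (IsIntegral.tower_top (R := ℤ) (A := ℚ) hy).isAlgebraic
  have hs1 : ∀ t : ℂ ≃+* ℂ, (∀ x, t (ι x) = ι x) → ∀ x, t (j (s 1 x)) = j (s 1 x) := by
    intro t ht x
    rw [← hι, ht]
  have fix1 : ∀ t : ℂ ≃+* ℂ, (∀ x, t (ι x) = ι x) → (∀ x, t (e x) = e x) → t xi = xi := by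
    intro t ht h1
    exact (key1 h hxi h1 (hs1 t ht) hp hm (g := 1) (by rw [pow_one, ht])).2 (by simp)
  have key : ∀ t : ℂ ≃+* ℂ, ∀ ρ : M ≃ₐ[K] M, (∀ x, t (ι x) = ι (ρ x)) → ∀ g : ℕ, ρ ζ = ζ ^ g →
      (∀ x, t (j (s 1 x)) = j (s 1 x)) ∧ t (ι ζ) = ι ζ ^ g := by
    intro t ρ ht g hg
    constructor
    · intro x
      rw [← hι, ht, ρ.commutes]
    · rw [ht, hg, map_pow]
  by_cases hcase : ∀ x : k, ∃ y : M, ι y = e x
  · obtain ⟨z, hz⟩ := descent ι xi (halg _ hu1) (fun t ht => fix1 t ht (fun x => by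
      obtain ⟨y, hy⟩ := hcase x
      rw [← hy, ht]))
    obtain ⟨f1, f2, f3⟩ := fin z xi hz hu3 hu1 hu2
    refine ⟨z, f1, f2, f3, ?_⟩
    intro ρ g hg
    obtain ⟨t, ht⟩ := exists_aut ι (ι.comp (ρ : M →+* M))
    have ht' : ∀ x, t (ι x) = ι (ρ x) := ht
    obtain ⟨k1, k2⟩ := key t ρ ht' g hg
    rw [← ht', hz]
    by_cases hfx : ∀ x, t (e x) = e x
    · exact (key1 h hxi hfx k1 hp hm k2).1
    · rw [key3 h hxi hfx k1]
      have hemp : ∀ i : ZMod 3, Phi e f m φ i (g : ZMod m) = 1 := by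
        intro i
        unfold Phi
        apply Finset.prod_eq_one
        intro c hc
        exfalso
        rw [Finset.mem_filter] at hc
        obtain ⟨hc1, -, hc2⟩ := hc
        obtain ⟨t', γ, u, ht2, hA, hR⟩ := act_surj h.dih.iq e h.three_le (sys_cop' hc1)
        have hn : ((Ideal.absNorm u : ℕ) : ZMod m) = g := by
          rw [← hc2]
          have h1 := req_norm h.dih.iq hR
          rw [ZMod.natCast_eq_natCast_iff] at h1 ⊢
          exact h1.of_dvd h.dvd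
        have hz2 : t' (ι ζ) = t (ι ζ) := by
          rw [ez_zeta h.dih.iq ht2 h.three_le h.dvd hA hp.pow_eq_one, k2]
          rw [ZMod.natCast_eq_natCast_iff] at hn
          rw [pow_eq_pow_mod _ hp.pow_eq_one, pow_eq_pow_mod g hp.pow_eq_one, hn]
        obtain ⟨κ, hκ⟩ := factor e ι hcase
        apply hfx
        intro x
        have hmem := ez_quad h.dih.iq hM κ x
        have hagree : ∀ y ∈ IntermediateField.adjoin ℚ {ζ}, t' (ι y) = t (ι y) := by
          intro y hy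
          induction hy using IntermediateField.adjoin_induction with
          | mem y hy => rw [Set.mem_singleton_iff.1 hy]; exact hz2
          | algebraMap q =>
            rw [eq_ratCast, map_ratCast, map_ratCast, map_ratCast]
          | add y z _ _ h1 h2 => simp only [map_add, h1, h2]
          | inv y _ h1 => simp only [map_inv₀, h1]
          | mul y z _ _ h1 h2 => simp only [map_mul, h1, h2]
        rw [← hκ, ← hagree _ hmem, hκ, ht2]
      rw [hemp, hemp, div_one]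
  · push Not at hcase
    obtain ⟨x0, hx0⟩ := hcase
    have hτ : ∃ τ : ℂ ≃+* ℂ, (∀ x, τ (ι x) = ι x) ∧ ¬ ∀ x, τ (e x) = e x := by
      by_contra hcon
      push Not at hcon
      obtain ⟨y, hy⟩ := descent ι (e x0) ((IsIntegral.of_finite ℚ x0).map e.toRatAlgHom).isAlgebraic
        (fun t ht => hcon t ht x0)
      exact hx0 y hy
    obtain ⟨τ, hτ1, hτ2⟩ := hτ
    have hτ3 : ∀ x, τ (e x) = e (cjk h.dih.iq x) := (ez_aut h.dih.iq e τ).resolve_left hτ2
    have hcc : ∀ x, cjk h.dih.iq (cjk h.dih.iq x) = x := ez_cc h.dih.iq e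
    have hτsymm : ∀ x, τ.symm (ι x) = ι x := fun x => by
      rw [RingEquiv.symm_apply_eq]; exact (hτ1 x).symm
    have hτs : ∀ x, τ.symm (e (cjk h.dih.iq x)) = e x := fun x => by
      rw [RingEquiv.symm_apply_eq]; exact (hτ3 x).symm
    have hfix : ∀ t : ℂ ≃+* ℂ, (∀ x, t (ι x) = ι x) → t (xi * τ xi) = xi * τ xi := by
      intro t ht
      rcases ez_aut h.dih.iq e t with h1 | h1
      · have e1 := fix1 t ht h1
        have e2 : t (τ xi) = τ xi := by
          have := fix1 ((τ.trans t).trans τ.symm) (fun x => by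
            show τ.symm (t (τ (ι x))) = ι x
            rw [hτ1, ht, hτsymm]) (fun x => by
            show τ.symm (t (τ (e x))) = e x
            rw [hτ3, h1, hτs])
          have h5 : τ.symm (t (τ xi)) = xi := this
          rwa [RingEquiv.symm_apply_eq] at h5
        rw [map_mul, e1, e2]
      · have e1 : t xi = τ xi := by
          have := fix1 (t.trans τ.symm) (fun x => by
            show τ.symm (t (ι x)) = ι x
            rw [ht, hτsymm]) (fun x => by
            show τ.symm (t (e x)) = e x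
            rw [h1, hτs])
          have h5 : τ.symm (t xi) = xi := this
          rwa [RingEquiv.symm_apply_eq] at h5
        have e2 : t (τ xi) = xi := by
          exact fix1 (τ.trans t) (fun x => by
            show t (τ (ι x)) = ι x
            rw [hτ1, ht]) (fun x => by
            show t (τ (e x)) = e x
            rw [hτ3, h1, hcc])
        rw [map_mul, e1, e2, mul_comm]
    have hy0 : xi * τ xi ≠ 0 := mul_ne_zero hu3 (by simpa using hu3)
    have hy1 : IsIntegral ℤ (xi * τ xi) := hu1.mul (map_isIntegral_int τ hu1)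
    have hy2 : IsIntegral ℤ (xi * τ xi)⁻¹ := by
      rw [mul_inv, ← map_inv₀]
      exact hu2.mul (map_isIntegral_int τ hu2)
    obtain ⟨z, hz⟩ := descent ι (xi * τ xi) (halg _ hy1) hfix
    obtain ⟨f1, f2, f3⟩ := fin z _ hz hy0 hy1 hy2
    refine ⟨z, f1, f2, f3, ?_⟩
    intro ρ g hg
    have hex : ∃ t : ℂ ≃+* ℂ, (∀ x, t (ι x) = ι (ρ x)) ∧ ∀ x, t (e x) = e x := by
      obtain ⟨t, ht⟩ := exists_aut ι (ι.comp (ρ : M →+* M))
      have ht' : ∀ x, t (ι x) = ι (ρ x) := ht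
      rcases ez_aut h.dih.iq e t with h1 | h1
      · exact ⟨t, ht', h1⟩
      · refine ⟨τ.trans t, fun x => ?_, fun x => ?_⟩
        · show t (τ (ι x)) = _
          rw [hτ1, ht']
        · show t (τ (e x)) = e x
          rw [hτ3, h1, hcc]
    obtain ⟨t, ht', hte⟩ := hex
    obtain ⟨k1, k2⟩ := key t ρ ht' g hg
    rw [← ht', hz, map_mul, norm_mul]
    have n1 := (key1 h hxi hte k1 hp hm k2).1
    have n2 : ‖t (τ xi)‖ = 1 := by
      have := key3 h hxi (t := τ.trans t) (fun hcon => hτ2 (fun x => by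
        have h2 : t (τ (e x)) = e x := hcon x
        rw [hτ3, hte, ← hτ3] at h2
        exact h2)) (fun x => by
        show t (τ (j (s 1 x))) = _
        rw [hs1 τ hτ1, k1])
      exact this
    rw [n1, n2, mul_one]

end CMS
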