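import Mathlib
import Pool.Agent.Lib.CMS.Defs

/-!
# FBig: a Galois extension of k containing given algebraic numbers  (about 200 lines)

PROOF. Make `ℂ` a `k`-algebra by `jF ∘ algebraMap k F`.  `S` = `jF` of a finite generating set of `F` over `k` together with `T`; all elements of `S` are algebraic over `k`.  `F'` := the normal closure in `ℂ` of `IntermediateField.adjoin k S` (`IntermediateField.adjoin` of a finite set of algebraic elements is finite dimensional; `normalClosure k _ ℂ` is finite
dimensional and normal; characteristic 0, so Galois).  `F'` is a number field (finite over `k`).  `Algebra F F'` by corestricting `jF`; `j'` = the inclusion.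
(Use a structure-free statement as below; `letI`/`haveI` for the instances in the proof; the type `F'` may be `↥(normalClosure ..)`.)
-/

set_option autoImplicit false

namespace CMS

open Complex NumberField MPd9f52e

variable {k : Type} [Field k] [NumberField k]

theorem exists_big {F : Type} [Field F] [NumberField F] [Algebra k F] (jF : F →+* ℂ) (T : Finset ℂ)
    (hT : ∀ x ∈ T, IsAlgebraic ℚ x) : ∃ (F' : Type) (_ : Field F') (_ : NumberField F') (_ : Algebra k F')
      (_ : Algebra F F') (_ : IsScalarTower k F F') (_ : IsGalois k F') (j' : F' →+* ℂ),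
      (∀ x : F, j' (algebraMap F F' x) = jF x) ∧ ∀ x ∈ T, ∃ y, j' y = x := by
  classical
  let ik : Algebra k ℂ := (jF.comp (algebraMap k F)).toAlgebra
  have hk : ∀ c : k, algebraMap k ℂ c = jF (algebraMap k F c) := fun c => rfl
  have : FiniteDimensional k F := FiniteDimensional.right ℚ k F
  let φ : F →ₐ[k] ℂ := { jF with commutes' := fun c => (hk c).symm }
  have hφ : ∀ x, φ x = jF x := fun x => rfl
  obtain ⟨α, hα⟩ := Field.exists_primitive_element k F
  have : IsScalarTower ℚ k ℂ := inferInstance
  have hint : ∀ x ∈ insert (φ α) T, IsIntegral k x := by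
    intro x hx
    rcases Finset.mem_insert.1 hx with rfl | hx
    · exact (Algebra.IsIntegral.isIntegral (R := k) α).map φ
    · exact ((hT x hx).tower_top k).isIntegral
  set f : Polynomial k := ∏ x ∈ insert (φ α) T, minpoly k x with hf
  have hf0 : f ≠ 0 := Finset.prod_ne_zero_iff.2 fun x hx => minpoly.ne_zero (hint x hx)
  set N : IntermediateField k ℂ := IntermediateField.adjoin k (f.rootSet ℂ) with hN
  have hmem : ∀ x ∈ insert (φ α) T, x ∈ N := by
    intro x hx
    apply IntermediateField.subset_adjoin
    rw [Polynomial.mem_rootSet_of_ne hf0, hf, map_prod]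
    exact Finset.prod_eq_zero hx (minpoly.aeval k x)
  have hsf : f.IsSplittingField k N :=
    IntermediateField.adjoin_rootSet_isSplittingField (IsAlgClosed.splits _)
  have hnorm : Normal k N := Normal.of_isSplittingField f
  have hfd : FiniteDimensional k N := Polynomial.IsSplittingField.finiteDimensional N f
  have hcz : CharZero N := charZero_of_injective_algebraMap (algebraMap k N).injective
  have htw : IsScalarTower ℚ k N := inferInstance
  have hfdQ : FiniteDimensional ℚ N := FiniteDimensional.trans ℚ k N
  have hnf : NumberField N := { to_charZero := hcz, to_finiteDimensional := hfdQ }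
  have hgal : IsGalois k N := { to_isSeparable := inferInstance, to_normal := hnorm }
  have hrange : ∀ x : F, φ x ∈ N := by
    intro x
    have h1 : (⊤ : IntermediateField k F).map φ ≤ N := by
      rw [← hα, IntermediateField.adjoin_map, IntermediateField.adjoin_le_iff]
      rintro _ ⟨y, hy, rfl⟩
      rw [Set.mem_singleton_iff] at hy
      rw [hy]
      exact hmem _ (Finset.mem_insert_self _ _)
    exact h1 ⟨x, IntermediateField.mem_top, rfl⟩
  let ψ : F →ₐ[k] N := φ.codRestrict N.toSubalgebra hrange
  let iF : Algebra F N := ψ.toRingHom.toAlgebra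
  have hst : IsScalarTower k F N := IsScalarTower.of_algebraMap_eq fun c => (ψ.commutes c).symm
  refine ⟨N, inferInstance, hnf, inferInstance, iF, hst, hgal, N.val.toRingHom, fun x => rfl, ?_⟩
  intro x hx
  exact ⟨⟨x, hmem x (Finset.mem_insert_of_mem hx)⟩, rfl⟩

end CMS
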