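import Mathlib
import Pool.Agent.Lib.CMS.Defs

/-!
# FDist: algebraic numbers are units at almost all valuations

`x` is a root of a polynomial `∑ a_i X^i` with integer coefficients, `a_0 ≠ 0`, leading coefficient `a_d ≠ 0`;
`n = |a_0 a_d|`.  `val_coprime`: `1 = x q + y n`.
-/

set_option autoImplicit false

namespace CMS

open Complex NumberField MPd9f52e

private theorem fd_nat {Γ : Type*} [LinearOrderedCommGroupWithZero Γ] (v : Valuation ℂ Γ) (n : ℕ) :
    v (n : ℂ) ≤ 1 := by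
  induction n with
  | zero => rw [Nat.cast_zero, map_zero]; exact zero_le_one
  | succ n ih =>
    rw [Nat.cast_succ]
    exact v.map_add_le ih (by rw [map_one])

private theorem fd_int {Γ : Type*} [LinearOrderedCommGroupWithZero Γ] (v : Valuation ℂ Γ) (n : ℤ) :
    v (n : ℂ) ≤ 1 := by
  rcases Int.natAbs_eq n with h | h
  · rw [h, Int.cast_natCast]
    exact fd_nat v _
  · rw [h, Int.cast_neg, Int.cast_natCast, Valuation.map_neg]
    exact fd_nat v _

private theorem fd_mul {Γ : Type*} [LinearOrderedCommGroupWithZero Γ] {a b : Γ} (ha : a ≤ 1) (hb : b ≤ 1)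
    (h : 1 ≤ a * b) : a = 1 := by
  refine le_antisymm ha ?_
  calc (1 : Γ) ≤ a * b := h
    _ ≤ a * 1 := mul_le_mul_right hb a
    _ = a := mul_one a

theorem alg_val {x : ℂ} (hx : IsAlgebraic ℚ x) (h0 : x ≠ 0) : ∃ n : ℕ, n ≠ 0 ∧
    ∀ (Γ : Type) [LinearOrderedCommGroupWithZero Γ] (v : Valuation ℂ Γ), v (n : ℂ) = 1 → v x = 1 := by
  have hx' : IsAlgebraic ℤ x := (IsFractionRing.isAlgebraic_iff ℤ ℚ ℂ).2 hx
  obtain ⟨f, hf0, hf⟩ := hx'.exists_nonzero_coeff_and_aeval_eq_zero (mem_nonZeroDivisors_of_ne_zero h0)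
  have hfne : f ≠ 0 := by
    rintro rfl
    exact hf0 (Polynomial.coeff_zero 0)
  have hlc : f.coeff f.natDegree ≠ 0 := Polynomial.leadingCoeff_ne_zero.2 hfne
  refine ⟨(f.coeff 0 * f.coeff f.natDegree).natAbs, Int.natAbs_ne_zero.2 (mul_ne_zero hf0 hlc), ?_⟩
  intro Γ _ v hv
  have hv' : v ((f.coeff 0 : ℤ) : ℂ) * v ((f.coeff f.natDegree : ℤ) : ℂ) = 1 := by
    rw [← map_mul, ← Int.cast_mul]
    rcases Int.natAbs_eq (f.coeff 0 * f.coeff f.natDegree) with h | h
    · rw [h, Int.cast_natCast]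
      exact hv
    · rw [h, Int.cast_neg, Int.cast_natCast, Valuation.map_neg]
      exact hv
  have hv0 : v ((f.coeff 0 : ℤ) : ℂ) = 1 := fd_mul (fd_int v _) (fd_int v _) hv'.ge
  have hvd : v ((f.coeff f.natDegree : ℤ) : ℂ) = 1 :=
    fd_mul (fd_int v _) (fd_int v _) (by rw [mul_comm]; exact hv'.ge)
  have hsum : ∑ i ∈ Finset.range (f.natDegree + 1), ((f.coeff i : ℤ) : ℂ) * x ^ i = 0 := by
    rw [Polynomial.aeval_eq_sum_range] at hf
    rw [← hf]
    exact Finset.sum_congr rfl fun i _ => by rw [zsmul_eq_mul]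
  have hterm : ∀ i, v (((f.coeff i : ℤ) : ℂ) * x ^ i) ≤ v x ^ i := by
    intro i
    rw [map_mul, map_pow]
    calc v ((f.coeff i : ℤ) : ℂ) * v x ^ i ≤ 1 * v x ^ i := mul_le_mul_left (fd_int v _) _
      _ = v x ^ i := one_mul _
  refine le_antisymm ?_ ?_
  · by_contra hcon
    rw [not_le] at hcon
    have h1 : v (∑ i ∈ Finset.range f.natDegree, ((f.coeff i : ℤ) : ℂ) * x ^ i) < v x ^ f.natDegree := by
      refine v.map_sum_lt (pow_ne_zero _ (ne_of_gt (lt_trans zero_lt_one hcon))) fun i hi => ?_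
      exact (hterm i).trans_lt (pow_lt_pow_right₀ hcon (Finset.mem_range.1 hi))
    rw [Finset.sum_range_succ] at hsum
    have h2 : ((f.coeff f.natDegree : ℤ) : ℂ) * x ^ f.natDegree =
        -∑ i ∈ Finset.range f.natDegree, ((f.coeff i : ℤ) : ℂ) * x ^ i := by
      linear_combination hsum
    have h3 := congrArg v h2
    rw [Valuation.map_neg, map_mul, map_pow, hvd, one_mul] at h3
    rw [← h3] at h1
    exact lt_irrefl _ h1
  · by_contra hcon
    rw [not_le] at hcon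
    rw [Finset.sum_range_succ'] at hsum
    have h1 : v (∑ i ∈ Finset.range f.natDegree, ((f.coeff (i + 1) : ℤ) : ℂ) * x ^ (i + 1)) < 1 := by
      refine v.map_sum_lt one_ne_zero fun i _ => ?_
      exact (hterm (i + 1)).trans_lt (pow_lt_one₀ zero_le hcon (Nat.succ_ne_zero i))
    have h2 : ((f.coeff 0 : ℤ) : ℂ) =
        -∑ i ∈ Finset.range f.natDegree, ((f.coeff (i + 1) : ℤ) : ℂ) * x ^ (i + 1) := by
      rw [pow_zero, mul_one] at hsum
      linear_combination hsum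
    have h3 := congrArg v h2
    rw [Valuation.map_neg, hv0] at h3
    rw [← h3] at h1
    exact lt_irrefl _ h1

theorem val_coprime {Γ : Type*} [LinearOrderedCommGroupWithZero Γ] {v : Valuation ℂ Γ} {q n : ℕ} (h : q.Coprime n)
    (hv : v (q : ℂ) < 1) : v (n : ℂ) = 1 := by
  obtain ⟨a, b, hab⟩ := Nat.isCoprime_iff_coprime.2 h
  have h1 : (a : ℂ) * (q : ℂ) + (b : ℂ) * (n : ℂ) = 1 := by exact_mod_cast congrArg (fun z : ℤ => (z : ℂ)) hab
  have h2 : v ((a : ℂ) * (q : ℂ)) < 1 := by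
    rw [map_mul]
    calc v (a : ℂ) * v (q : ℂ) ≤ 1 * v (q : ℂ) := mul_le_mul_left (fd_int v a) _
      _ = v (q : ℂ) := one_mul _
      _ < 1 := hv
  have h3 : 1 ≤ v (n : ℂ) * v (b : ℂ) := by
    by_contra hcon
    rw [not_le] at hcon
    have h4 : v ((b : ℂ) * (n : ℂ)) < 1 := by rwa [map_mul, mul_comm]
    have h5 := v.map_add_lt h2 h4
    rw [h1, map_one] at h5
    exact lt_irrefl _ h5
  exact fd_mul (fd_nat v n) (fd_int v b) h3

end CMS
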