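import Mathlib
import Pool.Agent.Lib.CMS.Defs

/-!
# FVal: valuations of C over a prime ideal of a number field  (about 140 lines)

PROOF. The subring `A = j(𝓞 F)` of `ℂ`, with its prime ideal `j(Q)`: `LocalSubring.ofPrime A (j Q)` and `LocalSubring.exists_le_valuationSubring` (Mathlib.RingTheory.Valuation.LocalSubring): a valuation subring `V` dominating the localization: the elements of `j(Q)` are not units in the localization, so not units of `V`: `V.valuation x < 1`
(`ValuationSubring.valuation_lt_one_iff`).  See the proof around line 149 of that Mathlib file.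
-/

set_option autoImplicit false

namespace CMS

open Complex NumberField MPd9f52e

theorem exists_val {F : Type} [Field F] [NumberField F] (j : F →+* ℂ) (Q : Ideal (𝓞 F)) (hQ : Q.IsPrime) :
    ∃ V : ValuationSubring ℂ, ∀ x ∈ Q, V.valuation (j (x : F)) < 1 := by
  have hsurj := RingHom.rangeRestrict_surjective (j.comp (algebraMap (𝓞 F) F))
  have hinj : Function.Injective (j.comp (algebraMap (𝓞 F) F)) := by
    rw [RingHom.coe_comp]
    exact j.injective.comp RingOfIntegers.coe_injective
  have hne : Q.map (j.comp (algebraMap (𝓞 F) F)).rangeRestrict ≠ ⊤ := by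
    intro h
    have h1 : (1 : (j.comp (algebraMap (𝓞 F) F)).range) ∈ Q.map (j.comp (algebraMap (𝓞 F) F)).rangeRestrict := by
      rw [h]; trivial
    obtain ⟨x, hx, hx1⟩ := (Ideal.mem_map_iff_of_surjective _ hsurj).1 h1
    have h2 : (j.comp (algebraMap (𝓞 F) F)) x = (j.comp (algebraMap (𝓞 F) F)) 1 := by
      have h3 := (Subtype.ext_iff.1 hx1 : ((j.comp (algebraMap (𝓞 F) F)).rangeRestrict x : ℂ) = _)
      rw [map_one]
      exact h3
    have h4 := hinj h2
    rw [h4] at hx
    exact hQ.ne_top ((Ideal.eq_top_iff_one _).2 hx)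
  obtain ⟨V, hV, hV'⟩ := Ideal.image_subset_nonunits_valuationSubring _ hne
  refine ⟨V, fun x hx => ?_⟩
  have h1 : j (x : F) ∈ V.nonunits :=
    hV' ⟨(j.comp (algebraMap (𝓞 F) F)).rangeRestrict x, Ideal.mem_map_of_mem _ hx, rfl⟩
  exact h1

end CMS
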