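import Mathlib
import Pool.Agent.Lib.CMS.Defs
import Pool.Agent.Lib.CMS.FVal
import Pool.Agent.Lib.CMS.FDist
import Pool.Agent.Lib.MP_d9f52e_nt.GExt

/-!
# FExt: Frobenius automorphisms of C and valuations  (about 260 lines)

PROOF. For `y` with `j y ∈ T` there is a natural number `D ≠ 0` with `D y` integral; let `N0` be larger than all these `D` (one `y` for every element of `T` in the range of `j`; `T` finite).
Let `q > N0`, `P, Q` be given.  `G = F ≃ₐ[k] F` acts on `𝓞 F` with invariants `𝓞 k` (`Algebra.IsInvariant`, see how Lib/MP_d9f52e_nt/AFrob.lean and Lib/MP_ea3785_nt/WeakChebFrob.lean use it); `IsArithFrobAt.exists_of_isInvariant` (Mathlib.RingTheory.Frobenius; `𝓞 F ⧸ Q` is finite, `Q ≠ ⊥`) gives `g ∈ G` with `g x - x^q ∈ Q` for `x ∈ 𝓞 F`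
(the residue field of `P = Q.under` has `q = absNorm P` elements).  This is (a).
(b) `V` from `exists_val j Q`; `t` from `GExt.exists_aut` with the embeddings `j` and `j ∘ g`: `t (j x) = j (g x)`.  `V.valuation (t (j x) - (j x)^q) < 1` for `x ∈ 𝓞 F`; `V q < 1`.  For `y` with `j y ∈ T`, `V (j y) ≤ 1`: `D y` integral, `V D = 1` (`val_coprime`, `q` prime to `D` as `0 < D < q`);
`t(j(D y)) ≡ (j (D y))^q`, i.e. `D t(j y) ≡ D^q (j y)^q ≡ D (j y)^q` modulo the maximal ideal (`D^q ≡ D mod q`, Fermat, `V (j y) ≤ 1`), divide by `D`.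
-/

set_option autoImplicit false

namespace CMS

open Complex NumberField MPd9f52e

variable {k : Type} [Field k] [NumberField k]

omit [NumberField k] in
private theorem fext_smul {F : Type} [Field F] [NumberField F] [Algebra k F] (σ : F ≃ₐ[k] F) (a : 𝓞 k) :
    σ • (algebraMap (𝓞 k) (𝓞 F) a) = algebraMap (𝓞 k) (𝓞 F) a := by
  apply RingOfIntegers.ext
  show σ (algebraMap k F (a : k)) = algebraMap k F (a : k)
  exact σ.commutes _

omit [NumberField k] in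
private theorem fext_comm {F : Type} [Field F] [NumberField F] [Algebra k F] :
    SMulCommClass (F ≃ₐ[k] F) (𝓞 k) (𝓞 F) := by
  constructor
  intro σ a x
  rw [Algebra.smul_def, Algebra.smul_def, smul_mul', fext_smul]

/-- existence of Frobenius elements -/
theorem frob_elt {F : Type} [Field F] [NumberField F] [Algebra k F] [IsGalois k F] {q : ℕ} (hq : q.Prime)
    {P : Ideal (𝓞 k)} (hP : P.IsPrime) (hN : Ideal.absNorm P = q) {Q : Ideal (𝓞 F)} (hQ : Q.IsPrime)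
    (hQP : Q.comap (algebraMap (𝓞 k) (𝓞 F)) = P) :
    ∃ g : F ≃ₐ[k] F, ∀ x y : 𝓞 F, (y : F) = g x → y - x ^ q ∈ Q := by
  have hP0 : P ≠ ⊥ := by
    rintro rfl
    rw [Ideal.absNorm_bot] at hN
    exact hq.ne_zero hN.symm
  have hQ0 : Q ≠ ⊥ := by
    rintro rfl
    apply hP0
    rw [← hQP]
    exact Ideal.comap_bot_of_injective _ (FaithfulSMul.algebraMap_injective (𝓞 k) (𝓞 F))
  have : SMulCommClass (F ≃ₐ[k] F) (𝓞 k) (𝓞 F) := fext_comm
  have : Finite (𝓞 F ⧸ Q) := Ideal.finiteQuotientOfFreeOfNeBot Q hQ0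
  obtain ⟨σ, hσ⟩ := IsArithFrobAt.exists_of_isInvariant (𝓞 k) (F ≃ₐ[k] F) Q
  have hcard : Nat.card (𝓞 k ⧸ Q.under (𝓞 k)) = q := by
    have h1 : Q.under (𝓞 k) = P := hQP
    rw [h1, ← hN, Ideal.absNorm_apply]
    rfl
  refine ⟨σ, fun x y hxy => ?_⟩
  have h4 := hσ x
  rw [hcard] at h4
  have h5 : y = σ • x := by
    apply RingOfIntegers.ext
    rw [hxy]
    rfl
  rw [h5]
  exact h4

/-- integral multiples -/
private theorem fext_mult {F : Type} [Field F] [NumberField F] (y : F) :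
    ∃ D : ℕ, D ≠ 0 ∧ ∃ z : 𝓞 F, (z : F) = (D : F) * y := by
  have h1 : IsAlgebraic ℤ y :=
    (IsFractionRing.isAlgebraic_iff ℤ ℚ F).2 (Algebra.IsAlgebraic.isAlgebraic y)
  obtain ⟨a, ha, hint⟩ := h1.exists_integral_multiple
  rcases Int.natAbs_eq a with h | h
  · refine ⟨a.natAbs, Int.natAbs_ne_zero.2 ha, ⟨a • y, hint⟩, ?_⟩
    show a • y = (a.natAbs : F) * y
    have h2 : (a.natAbs : F) = (a : F) := by
      rw [← Int.cast_natCast, ← h]
    rw [zsmul_eq_mul, h2]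
  · refine ⟨a.natAbs, Int.natAbs_ne_zero.2 ha, ⟨-(a • y), hint.neg⟩, ?_⟩
    show -(a • y) = (a.natAbs : F) * y
    have h2 : -(a.natAbs : F) = (a : F) := by
      rw [← Int.cast_natCast, ← Int.cast_neg, ← h]
    rw [zsmul_eq_mul, ← h2, neg_mul, neg_neg]

/-- for large `q`, a Frobenius element `g` at `Q` extends to an automorphism `t` of `ℂ` that is a Frobenius for a valuation,
also on a given finite set of elements of `F` -/
theorem frob_ext {F : Type} [Field F] [NumberField F] [Algebra k F] (j : F →+* ℂ) (T : Finset ℂ)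
    (hT : ∀ x ∈ T, ∃ y, j y = x) : ∃ N0 : ℕ, ∀ q : ℕ, q.Prime → N0 < q → ∀ Q : Ideal (𝓞 F), Q.IsPrime →
      (q : 𝓞 F) ∈ Q → ∀ g : F ≃ₐ[k] F, (∀ x y : 𝓞 F, (y : F) = g x → y - x ^ q ∈ Q) →
      ∃ V : ValuationSubring ℂ, (∀ x ∈ Q, V.valuation (j (x : F)) < 1) ∧
        ∀ t : ℂ ≃+* ℂ, (∀ x, t (j x) = j (g x)) → ∀ x ∈ T, V.valuation x ≤ 1 → V.valuation (t x - x ^ q) < 1 := by
  classical
  have hch : ∀ x : ℂ, ∃ D : ℕ, D ≠ 0 ∧ (x ∈ T → ∃ y : F, j y = x ∧ ∃ z : 𝓞 F, (z : F) = (D : F) * y) := by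
    intro x
    by_cases hx : x ∈ T
    · obtain ⟨y, hy⟩ := hT x hx
      obtain ⟨D, hD, z, hz⟩ := fext_mult y
      exact ⟨D, hD, fun _ => ⟨y, hy, z, hz⟩⟩
    · exact ⟨1, one_ne_zero, fun h => absurd h hx⟩
  choose D hD0 hD using hch
  refine ⟨T.sup D, fun q hq hNq Q hQ hqQ g hg => ?_⟩
  obtain ⟨V, hV⟩ := exists_val j Q hQ
  refine ⟨V, hV, fun t ht x hx hvx => ?_⟩
  obtain ⟨y, hy, z, hz⟩ := hD x hx
  have hDq : D x < q := lt_of_le_of_lt (Finset.le_sup hx) hNq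
  have hcop : q.Coprime (D x) := by
    rw [Nat.Prime.coprime_iff_not_dvd hq]
    intro h
    exact absurd (Nat.le_of_dvd (Nat.pos_of_ne_zero (hD0 x)) h) (not_le.2 hDq)
  obtain ⟨J, hJ⟩ : ∃ J : 𝓞 F →+* ℂ, ∀ x : 𝓞 F, J x = j (x : F) := ⟨j.comp (algebraMap (𝓞 F) F), fun _ => rfl⟩
  have hvq : V.valuation (q : ℂ) < 1 := by
    have h1 := hV _ hqQ
    rw [← hJ, map_natCast] at h1
    exact h1
  have hvD : V.valuation (D x : ℂ) = 1 := val_coprime hcop hvq
  -- the image of `z` under `g`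
  obtain ⟨w, hw⟩ : ∃ w : 𝓞 F, (w : F) = g z := ⟨(RingOfIntegers.mapAlgEquiv g) z, rfl⟩
  have h1 := hV _ (hg z w hw)
  have h2 : J (w - z ^ q) = (D x : ℂ) * t x - (D x : ℂ) ^ q * x ^ q := by
    rw [map_sub, map_pow, hJ, hJ, hw, hz, map_mul, map_natCast, map_mul, map_natCast, map_mul,
      map_natCast, ← ht, hy, mul_pow]
  rw [← hJ, h2] at h1
  -- Fermat
  obtain ⟨m, hm⟩ : ∃ m : ℤ, ((D x : ℤ) ^ q - (D x : ℤ)) = (q : ℤ) * m := by
    have : Fact q.Prime := ⟨hq⟩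
    have h3 : (q : ℤ) ∣ ((D x : ℤ) ^ q - (D x : ℤ)) := by
      rw [← ZMod.intCast_zmod_eq_zero_iff_dvd]
      push_cast
      rw [ZMod.pow_card, sub_self]
    exact h3
  have h4 : ((D x : ℂ) ^ q - (D x : ℂ)) = (q : ℂ) * (m : ℂ) := by exact_mod_cast congrArg (fun n : ℤ => (n : ℂ)) hm
  have hvm : V.valuation (m : ℂ) ≤ 1 := (V.valuation_le_one_iff _).2 (intCast_mem V m)
  have h5 : V.valuation (((D x : ℂ) ^ q - (D x : ℂ)) * x ^ q) < 1 := by
    rw [h4, map_mul, map_mul, map_pow]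
    calc V.valuation (q : ℂ) * V.valuation (m : ℂ) * V.valuation x ^ q
        ≤ V.valuation (q : ℂ) * 1 * 1 := by
          gcongr
          exact pow_le_one₀ zero_le hvx
      _ < 1 := by simpa using hvq
  have h6 : V.valuation ((D x : ℂ) * (t x - x ^ q)) < 1 := by
    have e : (D x : ℂ) * (t x - x ^ q) = ((D x : ℂ) * t x - (D x : ℂ) ^ q * x ^ q) +
        ((D x : ℂ) ^ q - (D x : ℂ)) * x ^ q := by ring
    rw [e]
    exact V.valuation.map_add_lt h1 h5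
  rwa [map_mul, hvD, one_mul] at h6

end CMS
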