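import Mathlib
import Pool.Agent.Lib.CMS.Defs
import Pool.Agent.Lib.CMS.FBig
import Pool.Agent.Lib.CMS.FExt
import Pool.Agent.Lib.MP_d9f52e_nt.GExt
import Pool.Agent.Lib.MP_ea3785_nt.WeakCheb
import Pool.Agent.Lib.MP_ea3785_nt.WeakChebFrob

/-!
# FCheb: homomorphisms of Aut(C/k) that are trivial on Frobenius elements are trivial (paper 4.2)  (about 300 lines)

PROOF. `F', j'` from `exists_big` (with `F = k`, `jF = e`): `F'/k` Galois, `T ⊆ range j'`.  For `g ∈ G = F' ≃ₐ[k] F'` choose `t_g` with `t_g ∘ j' = j' ∘ g` (`exists_aut`; `t_g` fixes `e(k)`).  If `t, t'` fix `e(k)` and agree on `j'(F')` then `Θ t = Θ t'` (`t'⁻¹ t` fixes `T`: `htriv`, `hmul`; first `Θ (refl) = 1`).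
So `B := {g : Θ (t_g) = 1}` is a normal subgroup of `G` (`g ↦ Θ(t_g)` or its inverse is a homomorphism to a commutative group; the order of composition does not matter).  Suppose `B ≠ ⊤`.  `E := fixedField B`, `E/k` is Galois (`B` normal), `E ≠ k`, so there is `1 ≠ s ∈ E ≃ₐ[k] E`.
`exists_no_extension k E s` with `N = max(N0, bound of frob_ext for F', j', T)`: a prime `q > N` and `φ : 𝓞 k →+* ZMod q` without extension to `𝓞 E`.  `P = ker φ`, `absNorm P = q` (`φ` is surjective).  `Q'` a prime of `𝓞 F'` above `P`; `g` a Frobenius element (`frob_elt`); `V` from `frob_ext`; `t = t_g`.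
By `hfr`, `Θ (t_g) = 1`, `g ∈ B`.  So `g` is the identity on `E`: for `x ∈ 𝓞 E`: `x - x^q ∈ Q'`, i.e. `x^q - x ∈ Q'' := Q' ∩ 𝓞 E`; `exists_hom_of_pow` (WeakChebFrob): `ψ : 𝓞 E →+* ZMod q` with kernel `Q''`, and `ψ ∘ algebraMap` has kernel `P = ker φ`; two homomorphisms `𝓞 k → ZMod q` with the same kernel are equal. Contradiction.
So `B = ⊤`.  For any `t` fixing `e(k)`: `t` maps `j'(F')` to itself (`F'/k` normal), so agrees with some `t_g` on `j'(F')`, `Θ t = Θ t_g = 1`.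
-/

set_option autoImplicit false

namespace CMS

open Complex NumberField MPd9f52e

variable {k : Type} [Field k] [NumberField k]

/-- a proper normal subgroup misses the Frobenius elements of some large prime of degree one -/
private theorem fcheb_sub {F : Type} [Field F] [NumberField F] [Algebra k F] [IsGalois k F]
    (B : Subgroup (F ≃ₐ[k] F)) [B.Normal] (hB : B ≠ ⊤) (N : ℕ) : ∃ q : ℕ, q.Prime ∧ N < q ∧
      ∃ P : Ideal (𝓞 k), P.IsPrime ∧ Ideal.absNorm P = q ∧ ∀ Q : Ideal (𝓞 F), Q.IsPrime →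
        Q.comap (algebraMap (𝓞 k) (𝓞 F)) = P → ∀ g ∈ B,
        ¬ ∀ x y : 𝓞 F, (y : F) = g x → y - x ^ q ∈ Q := by
  classical
  set E := IntermediateField.fixedField B with hE
  have hgal : IsGalois k E := IsGalois.of_fixedField_normal_subgroup B
  have hEbot : E ≠ ⊥ := by
    intro h
    apply hB
    rw [← IntermediateField.fixingSubgroup_fixedField B, ← hE, h]
    exact IntermediateField.fixingSubgroup_bot
  have hrank : Module.finrank k E ≠ 1 := fun h => hEbot (IntermediateField.finrank_eq_one_iff.1 h)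
  obtain ⟨s, hs⟩ : ∃ s : E ≃ₐ[k] E, s ≠ 1 := by
    have hcard : Nat.card (E ≃ₐ[k] E) = Module.finrank k E := IsGalois.card_aut_eq_finrank k E
    have hpos : 0 < Module.finrank k E := Module.finrank_pos
    have : Nontrivial (E ≃ₐ[k] E) := Finite.one_lt_card_iff_nontrivial.1 (by omega)
    exact exists_ne 1
  obtain ⟨q, hq, hN, φ, hφ⟩ := Pool.Agent.Lib.WeakCheb.exists_no_extension k E s hs N
  have hqf : Fact q.Prime := ⟨hq⟩
  refine ⟨q, hq, hN, RingHom.ker φ, RingHom.ker_isPrime φ, ?_, ?_⟩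
  · have h1 : Ideal.absNorm (RingHom.ker φ) = Nat.card (𝓞 k ⧸ RingHom.ker φ) := rfl
    rw [h1, Nat.card_congr (RingHom.quotientKerEquivOfSurjective
      (ZMod.ringHom_surjective φ)).toEquiv, Nat.card_zmod]
  · intro Q hQ hQP g hg hfrob
    have hqQ : (q : 𝓞 F) ∈ Q := by
      have h1 : (q : 𝓞 k) ∈ RingHom.ker φ := by
        rw [RingHom.mem_ker, map_natCast]
        exact ZMod.natCast_self q
      rw [← hQP, Ideal.mem_comap, map_natCast] at h1
      exact h1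
    set Q2 := Q.comap (algebraMap (𝓞 E) (𝓞 F)) with hQ2
    have hqQ2 : (q : 𝓞 E) ∈ Q2 := by
      rw [hQ2, Ideal.mem_comap, map_natCast]
      exact hqQ
    have hQ2p : Q2.IsPrime := hQ.comap _
    have hQ20 : Q2 ≠ ⊥ := by
      intro h0
      rw [h0, Ideal.mem_bot] at hqQ2
      exact hq.ne_zero (by exact_mod_cast hqQ2)
    have hQ2m : Q2.IsMaximal := hQ2p.isMaximal hQ20
    obtain ⟨ψ, hψ⟩ := Pool.Agent.Lib.WeakCheb.exists_hom_of_pow E hq Q2 hqQ2 (by
      intro x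
      have h1 : algebraMap (𝓞 E) (𝓞 F) x - algebraMap (𝓞 E) (𝓞 F) x ^ q ∈ Q := by
        apply hfrob
        have hx : ((algebraMap (𝓞 E) (𝓞 F) x : 𝓞 F) : F) = ((x : E) : F) := rfl
        rw [hx]
        exact ((IntermediateField.mem_fixedField_iff B ((x : E) : F)).1 (x : E).2 g hg).symm
      rw [hQ2, Ideal.mem_comap, map_sub, map_pow, ← neg_sub]
      exact Q.neg_mem h1)
    apply hφ ψ
    have htow : ∀ x : 𝓞 k, algebraMap (𝓞 E) (𝓞 F) (algebraMap (𝓞 k) (𝓞 E) x) =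
        algebraMap (𝓞 k) (𝓞 F) x := by
      intro x
      apply RingOfIntegers.coe_injective
      rfl
    have hker : ∀ x : 𝓞 k, φ x = 0 → ψ (algebraMap (𝓞 k) (𝓞 E) x) = 0 := by
      intro x hx
      rw [← RingHom.mem_ker, hψ, hQ2, Ideal.mem_comap, htow, ← Ideal.mem_comap, hQP]
      exact hx
    ext x
    rw [RingHom.comp_apply]
    have h1 : φ (x - ((φ x).val : 𝓞 k)) = 0 := by
      rw [map_sub, map_natCast, ZMod.natCast_zmod_val, sub_self]
    have h2 := hker _ h1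
    rw [map_sub, map_sub, map_natCast, map_natCast, ZMod.natCast_zmod_val, sub_eq_zero] at h2
    exact h2

private theorem fcheb_core {F : Type} [Field F] [NumberField F] [Algebra k F] [IsGalois k F]
    (e : k →+* ℂ) (j : F →+* ℂ) (hj : ∀ x, j (algebraMap k F x) = e x) {A : Type} [CommGroup A]
    (Θ : (ℂ ≃+* ℂ) → A)
    (hmul : ∀ t t' : ℂ ≃+* ℂ, (∀ x, t (e x) = e x) → (∀ x, t' (e x) = e x) → Θ (t.trans t') = Θ t * Θ t')
    (T : Finset ℂ) (hT : ∀ x ∈ T, ∃ y, j y = x)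
    (htriv : ∀ t : ℂ ≃+* ℂ, (∀ x, t (e x) = e x) → (∀ x ∈ T, t x = x) → Θ t = 1) (N0 : ℕ)
    (hfr : ∀ q : ℕ, q.Prime → N0 < q → ∀ P : Ideal (𝓞 k), P.IsPrime → Ideal.absNorm P = q →
      ∀ V : ValuationSubring ℂ, (∀ x ∈ P, V.valuation (e (x : k)) < 1) → ∀ t : ℂ ≃+* ℂ, (∀ x, t (e x) = e x) →
      (∀ x ∈ T, V.valuation x ≤ 1 → V.valuation (t x - x ^ q) < 1) → Θ t = 1)
    (t : ℂ ≃+* ℂ) (ht : ∀ x, t (e x) = e x) : Θ t = 1 := by
  classical
  have hag : ∀ t t' : ℂ ≃+* ℂ, (∀ x, t (e x) = e x) → (∀ x, t' (e x) = e x) →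
      (∀ x, t (j x) = t' (j x)) → Θ t = Θ t' := by
    intro t t' h1 h2 h3
    have h4 : ∀ x, (t.trans t'.symm) (e x) = e x := by
      intro x
      rw [RingEquiv.trans_apply, h1, RingEquiv.symm_apply_eq, h2]
    have h5 : Θ (t.trans t'.symm) = 1 := by
      apply htriv _ h4
      intro x hx
      obtain ⟨y, rfl⟩ := hT x hx
      rw [RingEquiv.trans_apply, RingEquiv.symm_apply_eq, h3]
    have h6 : (t.trans t'.symm).trans t' = t := by
      ext x
      rw [RingEquiv.trans_apply, RingEquiv.trans_apply, RingEquiv.apply_symm_apply]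
    rw [← h6, hmul _ _ h4 h2, h5, one_mul]
  choose tg htg using fun g : F ≃ₐ[k] F => MPd9f52e.exists_aut j (j.comp ((g : F ≃+* F) : F →+* F))
  have htg' : ∀ (g : F ≃ₐ[k] F) x, tg g (j x) = j (g x) := htg
  have htge : ∀ (g : F ≃ₐ[k] F) x, tg g (e x) = e x := by
    intro g x
    rw [← hj, htg', g.commutes]
  set ψ : (F ≃ₐ[k] F) →* A := MonoidHom.mk' (fun g => Θ (tg g)) (by
    intro g h
    show Θ (tg (g * h)) = Θ (tg g) * Θ (tg h)
    rw [mul_comm, ← hmul _ _ (htge h) (htge g)]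
    apply hag _ _ (htge _)
    · intro x
      rw [RingEquiv.trans_apply, htge, htge]
    · intro x
      rw [RingEquiv.trans_apply, htg', htg', htg']
      rfl) with hψ
  have hψa : ∀ g, ψ g = Θ (tg g) := fun g => rfl
  have htop : ψ.ker = ⊤ := by
    by_contra hne
    obtain ⟨N1, hN1⟩ := frob_ext (k := k) j T hT
    obtain ⟨q, hq, hN, P, hP, hPN, hPQ⟩ := fcheb_sub ψ.ker hne (N0 + N1)
    have hqP : (q : 𝓞 k) ∈ P := by
      rw [← hPN]; exact Ideal.absNorm_mem P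
    have hP0 : P ≠ ⊥ := by
      rintro rfl
      rw [Ideal.mem_bot] at hqP
      exact hq.ne_zero (by exact_mod_cast hqP)
    have hPm : P.IsMaximal := hP.isMaximal hP0
    obtain ⟨Q, hQm, hover⟩ := Ideal.exists_maximal_ideal_liesOver_of_isIntegral (S := 𝓞 F) P
    have hQP : Q.comap (algebraMap (𝓞 k) (𝓞 F)) = P := hover.over.symm
    have hqQ : (q : 𝓞 F) ∈ Q := by
      rw [← hQP, Ideal.mem_comap, map_natCast] at hqP
      exact hqP
    obtain ⟨g, hg⟩ := frob_elt hq hP hPN hQm.isPrime hQP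
    apply hPQ Q hQm.isPrime hQP g _ hg
    rw [MonoidHom.mem_ker, hψa]
    obtain ⟨V, hV1, hV2⟩ := hN1 q hq (by omega) Q hQm.isPrime hqQ g hg
    apply hfr q hq (by omega) P hP hPN V _ (tg g) (htge g) (hV2 (tg g) (htg' g))
    intro x hx
    rw [← hQP, Ideal.mem_comap] at hx
    have h4 := hV1 _ hx
    have h5 : j ((algebraMap (𝓞 k) (𝓞 F) x : 𝓞 F) : F) = e (x : k) := by
      rw [← hj]
      rfl
    rwa [h5] at h4
  -- restriction of `t` to `j(F)`
  let iC : Algebra k ℂ := e.toAlgebra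
  let iF : Algebra F ℂ := j.toAlgebra
  have hst : IsScalarTower k F ℂ := IsScalarTower.of_algebraMap_eq (fun x => (hj x).symm)
  let tC : ℂ ≃ₐ[k] ℂ := AlgEquiv.ofRingEquiv (f := t) ht
  have hres : ∀ x : F, t (j x) = j (tC.restrictNormal F x) := fun x =>
    (AlgEquiv.restrictNormal_commutes tC F x).symm
  have h1 : Θ t = Θ (tg (tC.restrictNormal F)) := by
    apply hag _ _ ht (htge _)
    intro x
    rw [hres, htg']
  have h2 : tC.restrictNormal F ∈ ψ.ker := by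
    rw [htop]
    exact Subgroup.mem_top _
  rw [h1, ← hψa]
  exact h2

theorem cheb_hom (e : k →+* ℂ) {A : Type} [CommGroup A] (Θ : (ℂ ≃+* ℂ) → A)
    (hmul : ∀ t t' : ℂ ≃+* ℂ, (∀ x, t (e x) = e x) → (∀ x, t' (e x) = e x) → Θ (t.trans t') = Θ t * Θ t')
    (T : Finset ℂ) (hT : ∀ x ∈ T, IsAlgebraic ℚ x)
    (htriv : ∀ t : ℂ ≃+* ℂ, (∀ x, t (e x) = e x) → (∀ x ∈ T, t x = x) → Θ t = 1) (N0 : ℕ)
    (hfr : ∀ q : ℕ, q.Prime → N0 < q → ∀ P : Ideal (𝓞 k), P.IsPrime → Ideal.absNorm P = q →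
      ∀ V : ValuationSubring ℂ, (∀ x ∈ P, V.valuation (e (x : k)) < 1) → ∀ t : ℂ ≃+* ℂ, (∀ x, t (e x) = e x) →
      (∀ x ∈ T, V.valuation x ≤ 1 → V.valuation (t x - x ^ q) < 1) → Θ t = 1)
    (t : ℂ ≃+* ℂ) (ht : ∀ x, t (e x) = e x) : Θ t = 1 := by
  obtain ⟨F', iF1, iF2, iF3, iF4, iF5, iF6, j', hj', hTj⟩ := exists_big (k := k) e T hT
  refine @fcheb_core k _ _ F' iF1 iF2 iF3 iF6 e j' ?_ A _ Θ hmul T hTj htriv N0 hfr t ht
  intro x
  rw [← hj' x]
  exact congrArg j' (@IsScalarTower.algebraMap_apply k k F' _ _ _ _ iF4 iF3 iF5 x)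

end CMS
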