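import Mathlib
import Pool.Agent.Lib.CMS.Defs
import Pool.Agent.Lib.CMS.LBas
import Pool.Agent.Lib.CMS.OLc1

/-!
# OCard: the index of c^{-1} in (ac)^{-1} is the norm of a  (about 190 lines)

PROOF. Choose `0 ≠ n ∈ 𝓞 k` in `a c` (e.g. `n = absNorm (a c)`), ideals `I, J` with `c I = (n)`, `a c J = (n)` (`Ideal.dvd_iff_le`), so `I = a J` (cancel `c`).  Multiplication by `e(n)` maps `Lc e c` onto `e(I)` and `Lc e (a c)` onto `e(J)`
(`z ∈ Lc e c` iff `e(n) z = e(y)` with `y c ⊆ n 𝓞 k` iff `y ∈ I`: by `Ideal` division, `y c ⊆ (n) = c I` iff `(y) ⊆ I`).  So `S.card = [J : I]`.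
`[𝓞 k : I] = [𝓞 k : J] [J : I]` and `absNorm I = absNorm a · absNorm J`: `[J : I] = absNorm a`.  (Index of additive subgroups: `AddSubgroup.relIndex_mul_index`, `Submodule.cardQuot_apply`, `Ideal.absNorm_apply`; `S` is in bijection with
`J/I`: the map `J → S` sending `y` to the representative of `e(y)/e(n)` is constant exactly on the cosets of `I`.)
-/

set_option autoImplicit false

namespace CMS

open Complex NumberField MPd9f52e

variable {k : Type} [Field k] [NumberField k]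

omit [NumberField k] in
private theorem ocard_ne {e : k →+* ℂ} {x : 𝓞 k} (h : x ≠ 0) : e (x : k) ≠ 0 := by
  rw [map_ne_zero]
  exact RingOfIntegers.coe_ne_zero_iff.2 h

omit [NumberField k] in
private theorem ocard_mul {e : k →+* ℂ} (x y : 𝓞 k) :
    e ((x * y : 𝓞 k) : k) = e (x : k) * e (y : k) := by
  simp

private theorem ocard_index (I : Ideal (𝓞 k)) :
    (Submodule.toAddSubgroup I).index = Ideal.absNorm I := by
  rw [Ideal.absNorm_apply, Submodule.cardQuot]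

/-- the elements of the lattice of `c` -/
private theorem ocard_mem {e : k →+* ℂ} {c I : Ideal (𝓞 k)} (hc : c ≠ ⊥) {n : 𝓞 k} (hn : n ≠ 0)
    (h : Ideal.span {n} = c * I) (y : 𝓞 k) : e (y : k) / e (n : k) ∈ Lc e c ↔ y ∈ I := by
  have hn' : e (n : k) ≠ 0 := ocard_ne hn
  have h1 : y ∈ I ↔ ∀ x ∈ c, n ∣ y * x := by
    have h2 : y ∈ I ↔ c * Ideal.span {y} ≤ c * I := by
      rw [← Ideal.dvd_iff_le, mul_dvd_mul_iff_left (by rwa [Ideal.zero_eq_bot]),
        Ideal.dvd_iff_le, Ideal.span_singleton_le_iff_mem]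
    rw [h2, ← h]
    constructor
    · intro h3 x hx
      have h4 := h3 (Ideal.mul_mem_mul hx (Ideal.mem_span_singleton_self y))
      rw [mul_comm]
      exact Ideal.mem_span_singleton.1 h4
    · intro h3
      rw [Ideal.mul_le]
      intro x hx z hz
      obtain ⟨w, rfl⟩ := Ideal.mem_span_singleton.1 hz
      rw [Ideal.mem_span_singleton]
      obtain ⟨t, ht⟩ := h3 x hx
      exact ⟨t * w, by rw [← mul_assoc, ← mul_assoc, mul_comm x y, ht]⟩
  rw [h1]
  constructor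
  · intro h3 x hx
    obtain ⟨w, hw⟩ := h3 x hx
    refine ⟨w, ?_⟩
    apply RingOfIntegers.ext
    apply e.injective
    rw [div_mul_eq_mul_div, div_eq_iff hn'] at hw
    rw [ocard_mul, ocard_mul, hw, mul_comm]
  · intro h3 x hx
    obtain ⟨w, hw⟩ := h3 x hx
    refine ⟨w, ?_⟩
    rw [div_mul_eq_mul_div, div_eq_iff hn']
    have h4 := congrArg (fun x : 𝓞 k => e (x : k)) hw
    rw [ocard_mul, ocard_mul] at h4
    rw [h4, mul_comm]

omit [NumberField k] in
/-- the quotient as a set of representatives -/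
private theorem ocard_bij {H K : AddSubgroup (𝓞 k)} {S : Finset ℂ} (y : S → 𝓞 k)
    (hyK : ∀ s, y s ∈ K) (hinj : ∀ s t : S, y t - y s ∈ H → s = t)
    (hsurj : ∀ x ∈ K, ∃ s : S, x - y s ∈ H) : S.card = H.relIndex K := by
  classical
  have h1 : Nat.card S = Nat.card (K ⧸ H.addSubgroupOf K) := by
    apply Nat.card_eq_of_bijective
      (fun s : S => (QuotientAddGroup.mk (⟨y s, hyK s⟩ : K) : K ⧸ H.addSubgroupOf K))
    constructor
    · intro s t hst
      have h2 : -(⟨y s, hyK s⟩ : K) + (⟨y t, hyK t⟩ : K) ∈ H.addSubgroupOf K :=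
        QuotientAddGroup.eq.1 hst
      rw [AddSubgroup.mem_addSubgroupOf] at h2
      apply hinj
      have h4 : (y t - y s : 𝓞 k) = -y s + y t := by ring
      rw [h4]
      exact h2
    · intro q
      obtain ⟨x, rfl⟩ := QuotientAddGroup.mk_surjective q
      obtain ⟨s, hs⟩ := hsurj x x.2
      refine ⟨s, ?_⟩
      change (QuotientAddGroup.mk (⟨y s, hyK s⟩ : K) : K ⧸ H.addSubgroupOf K) =
        QuotientAddGroup.mk x
      rw [QuotientAddGroup.eq, AddSubgroup.mem_addSubgroupOf]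
      have h2 : ((-(⟨y s, hyK s⟩ : K) + x : K) : 𝓞 k) = (x : 𝓞 k) - y s := by
        change -y s + (x : 𝓞 k) = _
        ring
      rw [h2]
      exact hs
  rw [Nat.card_eq_fintype_card, Fintype.card_coe] at h1
  rw [h1]
  rfl

theorem Lc_card (hk : IQ k) (e : k →+* ℂ) {a c : Ideal (𝓞 k)} (ha : a ≠ ⊥) (hc : c ≠ ⊥) {S : Finset ℂ}
    (hS : IsReps (Lc e c) (Lc e (a * c)) S) : S.card = Ideal.absNorm a := by
  have hac : a * c ≠ ⊥ := by
    rw [← Ideal.zero_eq_bot] at ha hc ⊢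
    exact mul_ne_zero ha hc
  obtain ⟨n, hn, hn0⟩ := Submodule.exists_mem_ne_zero_of_ne_bot hac
  have hn' : e (n : k) ≠ 0 := ocard_ne hn0
  obtain ⟨J, hJ⟩ : a * c ∣ Ideal.span {n} :=
    Ideal.dvd_iff_le.2 ((Ideal.span_singleton_le_iff_mem _).2 hn)
  have hI : Ideal.span {n} = c * (a * J) := by
    rw [hJ]
    ring
  have hnc : Ideal.span {n} ≠ (⊥ : Ideal (𝓞 k)) := by
    rw [Ne, Ideal.span_singleton_eq_bot]
    exact hn0
  have hJ0 : J ≠ ⊥ := by
    rintro rfl
    apply hnc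
    rw [hJ, Ideal.mul_bot]
  -- elements of the two lattices
  have hmI : ∀ y : 𝓞 k, e (y : k) / e (n : k) ∈ Lc e c ↔ y ∈ a * J := ocard_mem hc hn0 hI
  have hmJ : ∀ y : 𝓞 k, e (y : k) / e (n : k) ∈ Lc e (a * c) ↔ y ∈ J := ocard_mem hac hn0 hJ
  have hex : ∀ s : S, ∃ y : 𝓞 k, y ∈ J ∧ (s : ℂ) = e (y : k) / e (n : k) := by
    intro s
    obtain ⟨y, hy⟩ := Lc_mul_mem hn (hS.2.1 s s.2)
    have h1 : (s : ℂ) = e (y : k) / e (n : k) := by
      rw [eq_div_iff hn', ← hy, mul_comm]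
    exact ⟨y, (hmJ y).1 (by rw [← h1]; exact hS.2.1 s s.2), h1⟩
  choose y hyJ hy using hex
  have hsub : ∀ y₁ y₂ : 𝓞 k, e (y₁ : k) / e (n : k) - e (y₂ : k) / e (n : k) =
      e ((y₁ - y₂ : 𝓞 k) : k) / e (n : k) := by
    intro y₁ y₂
    rw [← sub_div]
    simp
  have hcard : S.card = (Submodule.toAddSubgroup (a * J)).relIndex (Submodule.toAddSubgroup J) := by
    apply ocard_bij y hyJ
    · intro s t h3
      have h5 : (t : ℂ) - (s : ℂ) ∈ Lc e c := by
        rw [hy t, hy s, hsub]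
        exact (hmI _).2 h3
      obtain ⟨r, -, hr⟩ := hS.2.2 t (hS.2.1 t t.2)
      have h6 := hr t ⟨t.2, by rw [sub_self]; exact Submodule.zero_mem _⟩
      have h7 := hr s ⟨s.2, h5⟩
      exact Subtype.ext (h7.trans h6.symm)
    · intro x hx
      obtain ⟨s, ⟨hs, hxs⟩, -⟩ := hS.2.2 (e (x : k) / e (n : k)) ((hmJ _).2 hx)
      refine ⟨⟨s, hs⟩, ?_⟩
      change x - y ⟨s, hs⟩ ∈ a * J
      rw [← hmI, ← hsub, ← hy ⟨s, hs⟩]
      exact hxs
  have hle : Submodule.toAddSubgroup (a * J) ≤ Submodule.toAddSubgroup J :=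
    Submodule.toAddSubgroup_mono Ideal.mul_le_right
  have hidx := AddSubgroup.relIndex_mul_index hle
  rw [← hcard, ocard_index, ocard_index, map_mul] at hidx
  have h3 : Ideal.absNorm J ≠ 0 := fun h => hJ0 (Ideal.absNorm_eq_zero_iff.1 h)
  exact Nat.eq_of_mul_eq_mul_right (Nat.pos_of_ne_zero h3) hidx

end CMS
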