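import Mathlib
import Pool.Agent.Lib.CMS.LWp

/-!
# LLiou: Liouville for functions periodic under a lattice, with removable singularities  (about 110 lines)

`A` closed, consisting of isolated points, `H` differentiable off `A`, bounded near every point of `A`, and periodic under `L`.  For `a ∈ A` let `H~ a` be the limit of `H z` as `z → a`, `z ≠ a` (it exists: `Complex.tendsto_limUnder_of_differentiable_on_punctured_nhds_of_bounded_under` / `Complex.differentiableOn_update_limUnder_of_bddAbove`), `H~ = H` off `A`.  `H~` is differentiable at every point: near `a ∈ A` it agrees with `Function.update H a (limit)`.  `H~` is periodic under `L` (limits), continuous, so bounded: every `z` is congruent to a point of the compact ball of radius `B` (`exists_bound`).  `Differentiable.apply_eq_apply_of_bounded`.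
Compare `swp_liouville` in `MP_d9f52e_nt/SWp.lean`.
-/

set_option autoImplicit false

namespace CMS

open Complex NumberField MPd9f52e

open Filter Topology in
theorem liouville_lat {L : Submodule ℤ ℂ} (hL : IsLat L) {A : Set ℂ} (hA : IsClosed A)
    (hdisc : ∀ a ∈ A, ∀ᶠ z in nhdsWithin a {a}ᶜ, z ∉ A) {H : ℂ → ℂ} (hd : DifferentiableOn ℂ H Aᶜ)
    (hb : ∀ a ∈ A, ∃ C : ℝ, ∀ᶠ z in nhdsWithin a {a}ᶜ, ‖H z‖ ≤ C)
    (hper : ∀ l ∈ L, ∀ z, z ∉ A → z + l ∉ A ∧ H (z + l) = H z) : ∃ c : ℂ, ∀ z, z ∉ A → H z = c := by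
  classical
  have hdisc' : ∀ a : ℂ, ∀ᶠ z in nhdsWithin a {a}ᶜ, z ∉ A := by
    intro a
    by_cases ha : a ∈ A
    · exact hdisc a ha
    · exact eventually_nhdsWithin_of_eventually_nhds (hA.isOpen_compl.mem_nhds ha)
  obtain ⟨J, hJ1, hJ2⟩ : ∃ J : ℂ → ℂ, (∀ z, z ∉ A → J z = H z) ∧ ∀ z, z ∈ A →
      J z = limUnder (nhdsWithin z {z}ᶜ) H :=
    ⟨fun z => if z ∈ A then limUnder (nhdsWithin z {z}ᶜ) H else H z,
      fun z hz => if_neg hz, fun z hz => if_pos hz⟩
  have hJd : Differentiable ℂ J := by
    intro a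
    by_cases ha : a ∈ A
    · obtain ⟨C, hC⟩ := hb a ha
      have hs : {z | z ∉ A} ∈ nhdsWithin a {a}ᶜ := hdisc a ha
      have h1 : DifferentiableOn ℂ H {z | z ∉ A} := hd
      have h2 : (fun z => H z - H a) =o[nhdsWithin a {a}ᶜ] fun z => (z - a)⁻¹ := by
        apply IsBoundedUnder.isLittleO_sub_self_inv
        refine ⟨C + ‖H a‖, eventually_map.2 ?_⟩
        filter_upwards [hC] with z hz
        exact (norm_sub_le _ _).trans (add_le_add hz le_rfl)
      have h3 := Complex.differentiableOn_update_limUnder_insert_of_isLittleO hs h1 h2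
      have h4 : insert a {z | z ∉ A} ∈ 𝓝 a := insert_mem_nhds_iff.2 hs
      refine (h3.differentiableAt h4).congr_of_eventuallyEq ?_
      filter_upwards [h4] with z hz
      rcases hz with rfl | hz
      · rw [hJ2 z ha, Function.update_self]
      · have hza : z ≠ a := by
          rintro rfl
          exact hz ha
        rw [hJ1 z hz, Function.update_of_ne hza]
    · have h1 : Aᶜ ∈ 𝓝 a := hA.isOpen_compl.mem_nhds ha
      refine (hd.differentiableAt h1).congr_of_eventuallyEq ?_
      filter_upwards [h1] with z hz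
      exact hJ1 z hz
  have hJper : ∀ l ∈ L, ∀ z, J (z + l) = J z := by
    intro l hl z
    have hc1 : Continuous fun w => J (w + l) := hJd.continuous.comp (continuous_id.add continuous_const)
    have h1 : Tendsto (fun w => J (w + l)) (nhdsWithin z {z}ᶜ) (𝓝 (J (z + l))) :=
      (hc1.tendsto z).mono_left nhdsWithin_le_nhds
    have h2 : Tendsto J (nhdsWithin z {z}ᶜ) (𝓝 (J z)) :=
      (hJd.continuous.tendsto z).mono_left nhdsWithin_le_nhds
    refine tendsto_nhds_unique h1 (h2.congr' ?_)
    filter_upwards [hdisc' z] with w hw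
    obtain ⟨h3, h4⟩ := hper l hl w hw
    rw [hJ1 w hw, hJ1 _ h3, h4]
  obtain ⟨B, hB⟩ := exists_bound hL
  have hbd : Bornology.IsBounded (Set.range J) := by
    have h1 : (J '' Metric.closedBall (0 : ℂ) B) = Set.range J := by
      apply Set.Subset.antisymm (Set.image_subset_range _ _)
      rintro _ ⟨x, rfl⟩
      obtain ⟨l, hl, hb⟩ := hB x
      exact ⟨x + l, by simpa using hb, hJper l hl x⟩
    rw [← h1]
    exact ((isCompact_closedBall (0 : ℂ) B).image hJd.continuous).isBounded
  refine ⟨J 0, fun z hz => ?_⟩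
  rw [← hJ1 z hz]
  exact hJd.apply_eq_apply_of_bounded hbd z 0

end CMS
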