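import Mathlib
import Pool.Agent.Lib.CMS.LWp

/-!
# LSub: wp of a larger lattice  (about 150 lines)

`wp_super` : `T z = wp L z + ∑_{s ≠ 0 in S} (wp L (z+s) - wp L s)`.  Direct proof by sums: `wp L' z = ∑_{l' in L'} (1/(z-l')² - 1/l'²)` (absolutely convergent: `PeriodPair.hasSum_weierstrassP`), reindex by `reps_equiv` with `l' = -s + l` (replace `S` by `-S`, or reindex `l' ↦ -l'` first): for fixed `s ≠ 0`: `∑_l (1/(z+s-l)² - 1/(l-s)²) = wp L (z+s) - wp L s` (difference of the two convergent sums for `wp L (z+s)` and `wp L s`; `wp L s = ∑ (1/(s-l)² - 1/l²)`), for `s = 0` it is `wp L z`.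
`wq_super` : the same with `wq` (`hasSum_derivWeierstrassP`).
-/

set_option autoImplicit false

namespace CMS

open Complex NumberField MPd9f52e

variable {L L' : Submodule ℤ ℂ}

private theorem hs_wp (hL : IsLat L) (z : ℂ) :
    HasSum (fun l : L => 1 / (z - l) ^ 2 - 1 / (l : ℂ) ^ 2) (wp L z) := by
  obtain ⟨P, rfl⟩ := hL
  exact P.hasSum_weierstrassP z

private theorem hs_wq (hL : IsLat L) (z : ℂ) :
    HasSum (fun l : L => -2 / (z - l) ^ 3) (wq L z) := by
  obtain ⟨P, rfl⟩ := hL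
  exact P.hasSum_derivWeierstrassP z

private theorem exists_equiv (h : L ≤ L') {S : Finset ℂ} (hS : IsReps L L' S) :
    ∃ ψ : (S × L) ≃ L', ∀ p : S × L, ((ψ p : L') : ℂ) = -(p.1 : ℂ) + (p.2 : ℂ) := by
  obtain ⟨φ, hφ⟩ := reps_equiv h hS
  refine ⟨((Equiv.refl S).prodCongr (Equiv.neg L)).trans (φ.trans (Equiv.neg L')), ?_⟩
  rintro ⟨s, l⟩
  have h1 := hφ (s, -l)
  change ((-(φ (s, -l)) : L') : ℂ) = _
  rw [Submodule.coe_neg, h1]
  push_cast
  ring

theorem wp_super (hL : IsLat L) (hL' : IsLat L') (h : L ≤ L') {S : Finset ℂ} (hS : IsReps L L' S) {z : ℂ} (hz : z ∉ L') :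
    wp L' z = wp L z + ∑ s ∈ S.erase 0, (wp L (z + s) - wp L s) := by
  obtain ⟨ψ, hψ⟩ := exists_equiv h hS
  have h1 := (Equiv.hasSum_iff ψ).2 (hs_wp hL' z)
  have h2 : ∀ s : S, HasSum (fun l : L => ((fun l' : L' => 1 / (z - l') ^ 2 - 1 / (l' : ℂ) ^ 2) ∘ ψ) (s, l))
      (wp L (z + s) - wp L s) := by
    intro s
    refine ((hs_wp hL (z + s)).sub (hs_wp hL s)).congr_fun fun l => ?_
    simp only [Function.comp_apply, hψ]
    have e1 : z - (-(s : ℂ) + (l : ℂ)) = z + s - l := by ring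
    have e2 : (-(s : ℂ) + (l : ℂ)) ^ 2 = (s - l) ^ 2 := by ring
    rw [e1, e2]
    ring
  have h3 := h1.prod_fiberwise h2
  have h4 := h3.unique (hasSum_fintype _)
  have h0 : wp L 0 = 0 := by
    refine (hs_wp hL 0).unique ?_
    simp
  rw [h4, Finset.sum_coe_sort S (fun s => wp L (z + s) - wp L s), ← Finset.add_sum_erase S _ hS.1,
    add_zero, h0, sub_zero]

theorem wq_super (hL : IsLat L) (hL' : IsLat L') (h : L ≤ L') {S : Finset ℂ} (hS : IsReps L L' S) {z : ℂ} (hz : z ∉ L') :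
    wq L' z = ∑ s ∈ S, wq L (z + s) := by
  obtain ⟨ψ, hψ⟩ := exists_equiv h hS
  have h1 := (Equiv.hasSum_iff ψ).2 (hs_wq hL' z)
  have h2 : ∀ s : S, HasSum (fun l : L => ((fun l' : L' => -2 / (z - l') ^ 3) ∘ ψ) (s, l))
      (wq L (z + s)) := by
    intro s
    refine (hs_wq hL (z + s)).congr_fun fun l => ?_
    simp only [Function.comp_apply, hψ]
    have e1 : z - (-(s : ℂ) + (l : ℂ)) = z + s - l := by ring
    rw [e1]
  have h3 := h1.prod_fiberwise h2
  have h4 := h3.unique (hasSum_fintype _)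
  rw [h4, Finset.sum_coe_sort S (fun s => wq L (z + s))]

end CMS
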