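import Mathlib
import Pool.Agent.Lib.CMS.LSub
import Pool.Agent.Lib.CMS.LLiou

/-!
# LDif: the difference formula  (about 230 lines)

`wp_diff` : first let `2u ∉ L'`.  `F(z) = (wp L' z - wp L' u) ∏_{s ≠ 0}(wp L z - wp L s)`, `G(z) = ∏_{s in S}(wp L z - wp L (u+s))`, `K = (F - G)/G`.  Apply `liouville_lat` for `L` and `A = L' ∪ (u + L') ∪ (-u + L')` (closed, isolated points; `L'` is a lattice).  Off `A`: `K` is differentiable (`wp_deriv`; `G z ≠ 0` because `wp L z = wp L (u+s)` implies `z ≡ ±(u+s)`, `wp_eq_iff`).  Boundedness of `K` near the points `a` of `A`: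
 * `a ∈ L`: by periodicity `a = 0`; `z² wp L z → 1`, `z² wp L' z → 1` (`wp_lim`), so `z^{2N} F → 1`, `z^{2N} G → 1`, `K → 0`.
 * `a ∈ L'` not in `L`: `G(a) ≠ 0` (`u ∉ L'`), `G` continuous at `a`.  `F` is bounded: `(z-a)² wp L' z → 1` (`wp_lim`, periodicity), and `∏_{s≠0}(wp L z - wp L s) = O((z-a)²)`: if `2a ∉ L` there are two different `s, s'` in `S` with `s ≡ a`, `s' ≡ -a` and both factors are `O(z-a)` (differentiable, zero at `a`); if `2a ∈ L` the factor with `s ≡ a` has value and derivative `0` at `a` (`wq_eq_zero_iff`) and is analytic, so `O((z-a)²)`.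
 * `a = u + l'` (the case `-u + l'` is similar): `F` is differentiable at `a` and `F(a) = 0`, `G(a) = 0`; `G` has a simple zero at `a`: exactly one `s` with `a ≡ u + s` and none with `a ≡ -(u+s)` (as `2u ∉ L'`), and the derivative `wq L a ≠ 0` (`2a ∉ L`); so `K = (F - G)/G` is bounded near `a`.
So `K` is constant, and `K → 0` at `0`: `F = G` off `A`, and at the points of `A` off `L'` by continuity.
For `2u ∈ L'`: both sides are continuous functions of `u` (off `L'`) for fixed `z ∉ L'`, and the `u` with `2u ∉ L'` are dense.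
`wp_diff_mul` : `wp_diff` for `L ≤ sc a⁻¹ L`, `wp (sc a⁻¹ L) z = a² wp L (a z)` (`wp_sc` with `c = a⁻¹`).
-/

set_option autoImplicit false

namespace CMS

open Complex NumberField MPd9f52e

variable {L L' : Submodule ℤ ℂ}

private theorem reps_zero (h : L ≤ L') {S : Finset ℂ} (hS : IsReps L L' S) {s : ℂ} (hs : s ∈ S)
    (hsL : s ∈ L) : s = 0 := by
  obtain ⟨t, -, ht⟩ := hS.2.2 s (h hsL)
  rw [ht s ⟨hs, by rw [sub_self]; exact L.zero_mem⟩,
    ht 0 ⟨hS.1, by rw [sub_zero]; exact hsL⟩]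

private theorem reps_map {S : Finset ℂ} (hS : IsReps L L' S) :
    ∃ ρ : ℂ → ℂ, (∀ x ∈ L', ρ x ∈ S ∧ x - ρ x ∈ L) ∧
      ∀ x ∈ L', ∀ s ∈ S, x - s ∈ L → ρ x = s := by
  classical
  have key : ∀ x : ℂ, ∃ t : ℂ, x ∈ L' → (t ∈ S ∧ x - t ∈ L) ∧ ∀ s ∈ S, x - s ∈ L → t = s := by
    intro x
    by_cases hx : x ∈ L'
    · obtain ⟨t, ht1, ht2⟩ := hS.2.2 x hx
      exact ⟨t, fun _ => ⟨ht1, fun s hs hs' => (ht2 s ⟨hs, hs'⟩).symm⟩⟩
    · exact ⟨0, fun h => absurd h hx⟩
  choose ρ hρ using key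
  exact ⟨ρ, fun x hx => (hρ x hx).1, fun x hx => (hρ x hx).2⟩

private theorem reps_prod_shift (h : L ≤ L') {S : Finset ℂ} (hS : IsReps L L' S) {f : ℂ → ℂ}
    (hf : ∀ l ∈ L, ∀ w, f (w + l) = f w) {l : ℂ} (hl : l ∈ L') :
    ∏ s ∈ S, f (s + l) = ∏ s ∈ S, f s := by
  obtain ⟨ρ, h1, h2⟩ := reps_map hS
  refine Finset.prod_bij' (fun s _ => ρ (s + l)) (fun s _ => ρ (s - l)) ?_ ?_ ?_ ?_ ?_
  · intro s hs
    exact (h1 _ (L'.add_mem (hS.2.1 s hs) hl)).1
  · intro s hs
    exact (h1 _ (L'.sub_mem (hS.2.1 s hs) hl)).1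
  · intro s hs
    have h3 := (h1 _ (L'.add_mem (hS.2.1 s hs) hl))
    refine h2 _ (L'.sub_mem (hS.2.1 _ h3.1) hl) s hs ?_
    have h4 := L.neg_mem h3.2
    have e : -(s + l - ρ (s + l)) = ρ (s + l) - l - s := by ring
    rwa [e] at h4
  · intro s hs
    have h3 := (h1 _ (L'.sub_mem (hS.2.1 s hs) hl))
    refine h2 _ (L'.add_mem (hS.2.1 _ h3.1) hl) s hs ?_
    have h4 := L.neg_mem h3.2
    have e : -(s - l - ρ (s - l)) = ρ (s - l) + l - s := by ring
    rwa [e] at h4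
  · intro s hs
    have h3 := (h1 _ (L'.add_mem (hS.2.1 s hs) hl)).2
    have e : s + l = ρ (s + l) + (s + l - ρ (s + l)) := by ring
    conv_lhs => rw [e]
    exact hf _ h3 _

private theorem reps_prod_neg (h : L ≤ L') {S : Finset ℂ} (hS : IsReps L L' S) {f : ℂ → ℂ}
    (hf : ∀ l ∈ L, ∀ w, f (w + l) = f w) :
    ∏ s ∈ S.erase 0, f (-s) = ∏ s ∈ S.erase 0, f s := by
  obtain ⟨ρ, h1, h2⟩ := reps_map hS
  have hmem : ∀ s ∈ S.erase 0, ρ (-s) ∈ S.erase 0 := by
    intro s hs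
    rw [Finset.mem_erase] at hs
    have h3 := h1 _ (L'.neg_mem (hS.2.1 s hs.2))
    rw [Finset.mem_erase]
    refine ⟨fun h0 => hs.1 ?_, h3.1⟩
    apply reps_zero h hS hs.2
    have h4 := L.neg_mem h3.2
    rw [h0] at h4
    have e : -(-s - 0) = s := by ring
    rwa [e] at h4
  have hinv : ∀ s ∈ S.erase 0, ρ (-ρ (-s)) = s := by
    intro s hs
    have hs' := (Finset.mem_erase.1 hs).2
    have h3 := h1 _ (L'.neg_mem (hS.2.1 s hs'))
    refine h2 _ (L'.neg_mem (hS.2.1 _ h3.1)) s hs' ?_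
    have e : -ρ (-s) - s = -s - ρ (-s) := by ring
    rw [e]
    exact h3.2
  refine Finset.prod_bij' (fun s _ => ρ (-s)) (fun s _ => ρ (-s)) hmem hmem hinv hinv ?_
  intro s hs
  have hs' := (Finset.mem_erase.1 hs).2
  have h3 := (h1 _ (L'.neg_mem (hS.2.1 s hs'))).2
  have e : -s = ρ (-s) + (-s - ρ (-s)) := by ring
  conv_lhs => rw [e]
  exact hf _ h3 _

open Filter Topology in
private theorem disc_lat (hL : IsLat L) (a : ℂ) : ∀ᶠ z in nhdsWithin a {a}ᶜ, z ∉ L := by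
  obtain ⟨P, rfl⟩ := hL
  have h2 := P.compl_lattice_sdiff_singleton_mem_nhds a
  filter_upwards [mem_nhdsWithin_of_mem_nhds h2, self_mem_nhdsWithin] with x hx hx0
  exact fun h => hx ⟨h, hx0⟩

open Filter Topology in
private theorem even_bound {R : ℂ → ℂ} {U : Set ℂ} (hU : U ∈ 𝓝 (0 : ℂ)) (hR : DifferentiableOn ℂ R U)
    (heven : ∀ u, R (-u) = R u) :
    ∃ k : ℂ, Tendsto (fun u => (R u - R 0) / u ^ 2) (nhdsWithin 0 {0}ᶜ) (𝓝 k) := by
  have h1 : deriv R 0 = 0 := by
    have h2 : (fun u => R (-u)) = R := funext heven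
    have h3 : deriv (fun u => R (-u)) 0 = -deriv R (-0) := deriv_comp_neg R 0
    rw [h2, neg_zero] at h3
    exact self_eq_neg.1 h3
  have hD : DifferentiableOn ℂ (dslope R 0) U := (Complex.differentiableOn_dslope hU).2 hR
  have hD0 : DifferentiableAt ℂ (dslope R 0) 0 := hD.differentiableAt hU
  refine ⟨deriv (dslope R 0) 0, ?_⟩
  have h4 := hasDerivAt_iff_tendsto_slope.1 hD0.hasDerivAt
  refine h4.congr' ?_
  filter_upwards [self_mem_nhdsWithin] with u hu
  have hu0 : u ≠ 0 := hu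
  rw [slope_def_field, dslope_same, h1, dslope_of_ne _ hu0, slope_def_field, sub_zero, sub_zero,
    div_div, pow_two]

open Filter Topology in
theorem wp_diff (hL : IsLat L) (hL' : IsLat L') (h : L ≤ L') {S : Finset ℂ} (hS : IsReps L L' S) {z u : ℂ}
    (hz : z ∉ L') (hu : u ∉ L') :
    (wp L' z - wp L' u) * ∏ s ∈ S.erase 0, (wp L z - wp L s) = ∏ s ∈ S, (wp L z - wp L (u + s)) := by
  classical
  set x := wp L z with hx
  set P := ∏ s ∈ S.erase 0, (x - wp L s) with hP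
  obtain ⟨R, hR⟩ : ∃ R : ℂ → ℂ, ∀ w, R w = ∏ s ∈ S.erase 0, (x - wp L (w + s)) := ⟨_, fun _ => rfl⟩
  have hR0 : R 0 = P := by
    rw [hR, hP]
    refine Finset.prod_congr rfl fun s _ => ?_
    rw [zero_add]
  obtain ⟨K, hK⟩ : ∃ K : ℂ → ℂ, ∀ w, K w = ∏ s ∈ S, (x - wp L (w + s)) + P * wp L' w :=
    ⟨_, fun _ => rfl⟩
  have hGR : ∀ w, ∏ s ∈ S, (x - wp L (w + s)) = (x - wp L w) * R w := by
    intro w
    rw [hR, ← Finset.mul_prod_erase S _ hS.1, add_zero]
  -- periodicity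
  have hper : ∀ l ∈ L', ∀ w, K (w + l) = K w := by
    intro l hl w
    rw [hK, hK, wp_add_mem hL' hl]
    congr 1
    have h1 := reps_prod_shift h hS (f := fun t => x - wp L (w + t)) (by
      intro l' hl' t
      rw [← add_assoc, wp_add_mem hL hl']) hl
    rw [← h1]
    refine Finset.prod_congr rfl fun s _ => ?_
    rw [add_assoc w l s, add_comm l s]
  -- evenness
  have heven : ∀ w, R (-w) = R w := by
    intro w
    rw [hR, hR]
    have h1 := reps_prod_neg h hS (f := fun t => x - wp L (w + t)) (by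
      intro l' hl' t
      rw [← add_assoc, wp_add_mem hL hl'])
    rw [← h1]
    refine Finset.prod_congr rfl fun s _ => ?_
    rw [← wp_neg hL, neg_add, neg_neg]
  -- differentiability
  have hsL : ∀ s ∈ S, ∀ w, w ∉ L' → w + s ∉ L := by
    intro s hs w hw hc
    have h1 := L'.sub_mem (h hc) (hS.2.1 s hs)
    rw [add_sub_cancel_right] at h1
    exact hw h1
  have hdw : ∀ s w : ℂ, w + s ∉ L → DifferentiableAt ℂ (fun t => x - wp L (t + s)) w := by
    intro s w hw
    have h1 : DifferentiableAt ℂ (wp L) (w + s) := (wp_deriv hL hw).differentiableAt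
    have h2 : DifferentiableAt ℂ (fun t => wp L (t + s)) w :=
      h1.comp w (differentiableAt_id.add_const s)
    exact (differentiableAt_const x).sub h2
  have hKd : DifferentiableOn ℂ K (L' : Set ℂ)ᶜ := by
    intro w hw
    have hw' : w ∉ L' := hw
    have e : K = fun w => ∏ s ∈ S, (x - wp L (w + s)) + P * wp L' w := funext hK
    rw [e]
    have h1 : DifferentiableAt ℂ (fun w => ∏ s ∈ S, (x - wp L (w + s))) w :=
      DifferentiableAt.fun_finsetProd fun s hs => hdw s w (hsL s hs w hw')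
    have h2 : DifferentiableAt ℂ (fun w => P * wp L' w) w :=
      (differentiableAt_const P).mul (wp_deriv hL' hw').differentiableAt
    exact (h1.add h2).differentiableWithinAt
  -- the neighbourhood of zero
  let U : Set ℂ := {w | ∀ s ∈ S.erase 0, w + s ∉ L}
  have hU : U ∈ 𝓝 (0 : ℂ) := by
    have h1 : ∀ s ∈ S.erase 0, ∀ᶠ w in 𝓝 (0 : ℂ), w + s ∉ L := by
      intro s hs
      rw [Finset.mem_erase] at hs
      have h2 : s ∉ L := fun hc => hs.1 (reps_zero h hS hs.2 hc)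
      have h3 : (L : Set ℂ)ᶜ ∈ 𝓝 s := (isClosed_lat hL).isOpen_compl.mem_nhds h2
      have h4 : Tendsto (fun w : ℂ => w + s) (𝓝 0) (𝓝 s) := by
        have h5 : Continuous fun w : ℂ => w + s := continuous_id.add continuous_const
        have h6 := h5.tendsto 0
        rwa [zero_add] at h6
      exact h4.eventually h3
    exact (Finset.eventually_all (S.erase 0)).2 h1
  have hRd : DifferentiableOn ℂ R U := by
    intro w hw
    have e : R = fun w => ∏ s ∈ S.erase 0, (x - wp L (w + s)) := funext hR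
    rw [e]
    have h1 : DifferentiableAt ℂ (fun w => ∏ s ∈ S.erase 0, (x - wp L (w + s))) w :=
      DifferentiableAt.fun_finsetProd fun s hs => hdw s w (hw s hs)
    exact h1.differentiableWithinAt
  have hRc : Tendsto R (nhdsWithin 0 {0}ᶜ) (𝓝 (R 0)) :=
    ((hRd.differentiableAt hU).continuousAt.tendsto).mono_left nhdsWithin_le_nhds
  obtain ⟨k, hk⟩ := even_bound hU hRd heven
  -- the limit at zero
  have hsum : Tendsto (fun w => ∑ s ∈ S.erase 0, (wp L (w + s) - wp L s)) (nhdsWithin 0 {0}ᶜ)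
      (𝓝 (∑ s ∈ S.erase 0, (wp L s - wp L s))) := by
    refine tendsto_finsetSum _ fun s hs => ?_
    have hs' := Finset.mem_erase.1 hs
    have h2 : s ∉ L := fun hc => hs'.1 (reps_zero h hS hs'.2 hc)
    have h3 : ContinuousAt (wp L) s := (wp_deriv hL h2).continuousAt
    have h4 : Tendsto (fun w : ℂ => w + s) (𝓝 0) (𝓝 s) := by
      have h5 : Continuous fun w : ℂ => w + s := continuous_id.add continuous_const
      have h6 := h5.tendsto 0
      rwa [zero_add] at h6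
    exact ((h3.tendsto.comp h4).mono_left nhdsWithin_le_nhds).sub tendsto_const_nhds
  have hlim : Tendsto K (nhdsWithin 0 {0}ᶜ)
      (𝓝 (x * R 0 - k * 1 + P * ∑ s ∈ S.erase 0, (wp L s - wp L s))) := by
    have h1 := ((hRc.const_mul x).sub (hk.mul (wp_lim hL))).add (hsum.const_mul P)
    refine h1.congr' ?_
    filter_upwards [self_mem_nhdsWithin, disc_lat hL' 0] with w hw0 hw
    have hw0' : w ≠ 0 := hw0
    rw [hK, hGR, wp_super hL hL' h hS hw, hR0]
    field_simp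
    ring
  have hbd0 : ∃ C : ℝ, ∀ᶠ w in nhdsWithin (0 : ℂ) {0}ᶜ, ‖K w‖ ≤ C := by
    refine ⟨_, (hlim.norm.eventually_lt_const (lt_add_one _)).mono fun w hw => hw.le⟩
  obtain ⟨C, hC⟩ := hbd0
  have hbd : ∀ a ∈ (L' : Set ℂ), ∃ C : ℝ, ∀ᶠ w in nhdsWithin a {a}ᶜ, ‖K w‖ ≤ C := by
    intro a ha
    refine ⟨C, ?_⟩
    have h1 : Tendsto (fun w : ℂ => w - a) (nhdsWithin a {a}ᶜ) (nhdsWithin 0 {0}ᶜ) := by
      refine tendsto_nhdsWithin_iff.2 ⟨?_, ?_⟩
      · have h5 : Continuous fun w : ℂ => w - a := continuous_id.sub continuous_const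
        have h6 := h5.tendsto a
        rw [sub_self] at h6
        exact h6.mono_left nhdsWithin_le_nhds
      · filter_upwards [self_mem_nhdsWithin] with w hw
        exact sub_ne_zero.2 hw
    filter_upwards [h1.eventually hC] with w hw
    have h2 := hper a ha (w - a)
    rw [sub_add_cancel] at h2
    rw [h2]
    exact hw
  obtain ⟨c, hc⟩ := liouville_lat hL' (isClosed_lat hL') (fun a _ => disc_lat hL' a) hKd hbd
    (fun l hl w hw => ⟨fun hc => hw (by
      have h1 := L'.sub_mem hc hl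
      rwa [add_sub_cancel_right] at h1), hper l hl w⟩)
  have h1 := hc z hz
  have h2 := hc u hu
  rw [hK] at h1 h2
  have h3 : ∏ s ∈ S, (x - wp L (z + s)) = 0 := by
    rw [hGR, hx, sub_self, zero_mul]
  rw [h3] at h1
  linear_combination h1 - h2

theorem wp_diff_mul (hL : IsLat L) {a : ℂ} (ha : a ≠ 0) (h : ∀ l ∈ L, a * l ∈ L) {S : Finset ℂ}
    (hS : IsReps L (sc a⁻¹ L) S) {z u : ℂ} (hz : a * z ∉ L) (hu : a * u ∉ L) :
    a ^ 2 * (wp L (a * z) - wp L (a * u)) * ∏ s ∈ S.erase 0, (wp L z - wp L s) =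
      ∏ s ∈ S, (wp L z - wp L (u + s)) := by
  have hmem : ∀ w : ℂ, a * w ∉ L → w ∉ sc a⁻¹ L := by
    intro w hw hc
    obtain ⟨l, hl, rfl⟩ := mem_sc.1 hc
    apply hw
    rw [← mul_assoc, mul_inv_cancel₀ ha, one_mul]
    exact hl
  have hle : L ≤ sc a⁻¹ L := by
    intro l hl
    exact mem_sc.2 ⟨a * l, h l hl, by rw [← mul_assoc, inv_mul_cancel₀ ha, one_mul]⟩
  have hwp : ∀ w : ℂ, wp (sc a⁻¹ L) w = a ^ 2 * wp L (a * w) := by
    intro w
    have h1 := wp_sc (inv_ne_zero ha) L (a * w)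
    rw [← mul_assoc, inv_mul_cancel₀ ha, one_mul] at h1
    rw [h1, inv_pow, div_inv_eq_mul, mul_comm]
  have h1 := wp_diff hL (isLat_sc hL (inv_ne_zero ha)) hle hS (hmem z hz) (hmem u hu)
  rw [hwp, hwp, ← mul_sub] at h1
  exact h1

end CMS
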