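import Mathlib
import Pool.Agent.Lib.CMS.Defs

/-!
# VE1: the kernel of reduction is a group (adaptation of MP_d9f52e_nt/UVal.lean)  (about 460 lines)

This is the file `MP_d9f52e_nt/UVal.lean` (483 lines, finished) with the lattice `LO.lattice` replaced by an arbitrary `L : Submodule ℤ ℂ` and `Coord` replaced by `Crd` (the field `good_red` is not used there).  Copy it, replace, and export: `mult` (there private) = `wx_mult` here; `pair` gives `e1_add`.
`wx_mult` : `v(W(nP) - n² W(P)) < v(W P)` for `P ∉ L`, `v(X P) > 1`, `W = WX`.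
`e1_add` : one of the points in `L`: periodicity.  `P + Q ∈ L` trivial.  `Q ≡ P`: duplication (`dbl`).  Otherwise `pair`.
`e1_nsmul` by induction (`e1_add`).  `e1_mul_val` : from `wx_mult`: `v(W(nP)) = v(n² W P) = v(W P) ≠ 0`.
`good_not_e1` : the proof of `good_le` in UVal.  `tp_good` : if `v(n) = 1`, `n P ∈ L`, `P ∉ L` take `n := 1`, `b := n` in `Good`.
`e1_dbl_sub` : `v(W(2P) - 4 W(P)) < v(W P)`, `v 4 = 1`, so `v(W(2P)) = v(W P)`, `v(W(2P) - W(P)) = v(3 W P + small) = v(W P)`, and `X P - X(2P) = (W(2P) - W P)/(W P W(2P))`.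
-/

set_option autoImplicit false

namespace CMS

open Complex NumberField

variable {Γ : Type*} [LinearOrderedCommGroupWithZero Γ] {v : Valuation ℂ Γ} {L : Submodule ℤ ℂ} {X : ℂ → ℂ} {b2 b4 b6 b8 : ℂ}

open Classical in
/-- the local parameter `1/X`, `0` on `L` -/
noncomputable def WX (L : Submodule ℤ ℂ) (X : ℂ → ℂ) (P : ℂ) : ℂ := if P ∈ L then 0 else (X P)⁻¹

private theorem v_nat (v : Valuation ℂ Γ) (n : ℕ) : v (n : ℂ) ≤ 1 := by
  induction n with
  | zero => rw [Nat.cast_zero, map_zero]; exact zero_le_one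
  | succ n ih => rw [Nat.cast_succ]; exact v.map_add_le ih (map_one v).le

private theorem v_two (v : Valuation ℂ Γ) : v (2 : ℂ) ≤ 1 := by
  have := v_nat v 2
  rwa [Nat.cast_ofNat] at this

/-- `D = 1 - eD` -/
private def eD (b4 b6 b8 x y : ℂ) : ℂ := b4 * (x * y) + b6 * (x * y * (x + y)) + b8 * (x * y) ^ 2

/-- the higher terms of the numerator -/
private def eN (b2 b4 b6 x y : ℂ) : ℂ := b2 * (x * y) + b4 * (x * y * (x + y)) + b6 * (x * y) ^ 2

section
variable {v : Valuation ℂ Γ} {c : Γ} {x y : ℂ}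

private theorem v_xy (hx : v x ≤ c) (hy : v y ≤ c) : v (x * y) ≤ c * c := by
  rw [map_mul]
  exact mul_le_mul' hx hy

private theorem cc_le (hc : c ≤ 1) : c * c ≤ 1 := mul_le_one' hc hc

private theorem v_xyz (hc : c ≤ 1) (hx : v x ≤ c) (hy : v y ≤ c) : v (x * y * (x + y)) ≤ c * c := by
  rw [map_mul]
  calc v (x * y) * v (x + y) ≤ c * c * 1 :=
        mul_le_mul' (v_xy hx hy) ((v.map_add_le hx hy).trans hc)
    _ = c * c := mul_one _

private theorem v_xy2 (hc : c ≤ 1) (hx : v x ≤ c) (hy : v y ≤ c) : v ((x * y) ^ 2) ≤ c * c := by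
  rw [pow_two, map_mul]
  calc v (x * y) * v (x * y) ≤ c * c * 1 :=
        mul_le_mul' (v_xy hx hy) ((v_xy hx hy).trans (cc_le hc))
    _ = c * c := mul_one _

private theorem v_mul_le {b z : ℂ} {g : Γ} (hb : v b ≤ 1) (hz : v z ≤ g) : v (b * z) ≤ g := by
  rw [map_mul]
  calc v b * v z ≤ 1 * g := mul_le_mul' hb hz
    _ = g := one_mul g

private theorem v_eD {b4 b6 b8 : ℂ} (h4 : v b4 ≤ 1) (h6 : v b6 ≤ 1) (h8 : v b8 ≤ 1)
    (hc : c ≤ 1) (hx : v x ≤ c) (hy : v y ≤ c) : v (eD b4 b6 b8 x y) ≤ c * c :=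
  v.map_add_le (v.map_add_le (v_mul_le h4 (v_xy hx hy)) (v_mul_le h6 (v_xyz hc hx hy)))
    (v_mul_le h8 (v_xy2 hc hx hy))

private theorem v_eN {b2 b4 b6 : ℂ} (h2 : v b2 ≤ 1) (h4 : v b4 ≤ 1) (h6 : v b6 ≤ 1)
    (hc : c ≤ 1) (hx : v x ≤ c) (hy : v y ≤ c) : v (eN b2 b4 b6 x y) ≤ c * c :=
  v.map_add_le (v.map_add_le (v_mul_le h2 (v_xy hx hy)) (v_mul_le h4 (v_xyz hc hx hy)))
    (v_mul_le h6 (v_xy2 hc hx hy))

private theorem cc_le_c (hc : c ≤ 1) : c * c ≤ c := by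
  calc c * c ≤ c * 1 := mul_le_mul' le_rfl hc
    _ = c := mul_one c

private theorem v_num {b2 b4 b6 : ℂ} (h2 : v b2 ≤ 1) (h4 : v b4 ≤ 1) (h6 : v b6 ≤ 1)
    (hc : c ≤ 1) (hx : v x ≤ c) (hy : v y ≤ c) :
    v (2 * (x + y) + eN b2 b4 b6 x y) ≤ c :=
  v.map_add_le (v_mul_le (v_two v) (v.map_add_le hx hy))
    ((v_eN h2 h4 h6 hc hx hy).trans (cc_le_c hc))

private theorem v_den {b4 b6 b8 : ℂ} (h4 : v b4 ≤ 1) (h6 : v b6 ≤ 1) (h8 : v b8 ≤ 1)
    (hc : c < 1) (hx : v x ≤ c) (hy : v y ≤ c) : v (1 - eD b4 b6 b8 x y) = 1 :=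
  v.map_one_sub_of_lt (((v_eD h4 h6 h8 hc.le hx hy).trans (cc_le_c hc.le)).trans_lt hc)

/-- the value of one of the two points -/
private theorem one_side {α β δ : ℂ} (hc0 : 0 < c) (h1 : v (α * β * δ) = 1)
    (hδ : v δ ≤ c * c) (hs : v ((α + β) * δ) ≤ c) : 1 ≤ v α * c := by
  by_contra hcon
  push Not at hcon
  rw [map_mul, map_mul] at h1
  have hα0 : v α ≠ 0 := by
    intro h
    rw [h, zero_mul, zero_mul] at h1
    exact zero_ne_one h1
  have hα0' : 0 < v α := zero_lt_iff.mpr hα0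
  -- `c < v β * v δ`
  have h2 : c < v β * v δ := by
    have h3 : v α * c < v α * (v β * v δ) := by
      rw [← mul_assoc, h1]
      exact hcon
    exact lt_of_mul_lt_mul_left h3 hα0'.le
  have h4 : v β * v δ ≤ v β * c * c := by
    rw [mul_assoc]
    exact mul_le_mul' le_rfl hδ
  have h5 : 1 < v β * c := by
    have h6 : 1 * c < v β * c * c := by
      rw [one_mul]
      exact h2.trans_le h4
    exact lt_of_mul_lt_mul_right h6 hc0.le
  have h7 : v α < v β := lt_of_mul_lt_mul_right (hcon.trans h5) hc0.le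
  have h8 : v (α + β) = v β := v.map_add_eq_of_lt_right h7
  rw [map_mul, h8] at hs
  exact absurd (h2.trans_le hs) (lt_irrefl _)

end


private theorem mem_congr {P Q : ℂ} (h : P - Q ∈ L) :
    P ∈ L ↔ Q ∈ L := by
  constructor
  · intro hP
    have := sub_mem hP h
    rwa [sub_sub_cancel] at this
  · intro hQ
    have := add_mem hQ h
    rwa [add_sub_cancel] at this

private theorem X_congr (hX : Crd v L X b2 b4 b6 b8) {P Q : ℂ} (h : P - Q ∈ L) :
    X P = X Q := by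
  have := hX.per Q (P - Q) h
  rwa [add_sub_cancel] at this

private theorem WX_congr (hX : Crd v L X b2 b4 b6 b8) {P Q : ℂ} (h : P - Q ∈ L) :
    WX L X P = WX L X Q := by
  unfold WX
  by_cases hP : P ∈ L
  · rw [if_pos hP, if_pos ((mem_congr h).mp hP)]
  · rw [if_neg hP, if_neg fun hQ => hP ((mem_congr h).mpr hQ), X_congr hX h]

private theorem WX_neg (hX : Crd v L X b2 b4 b6 b8) (P : ℂ) : WX L X (-P) = WX L X P := by
  unfold WX
  by_cases hP : P ∈ L
  · rw [if_pos hP, if_pos (neg_mem hP)]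
  · rw [if_neg hP, if_neg fun hQ => hP (neg_mem_iff.mp hQ), hX.even]

private theorem E1_congr (hX : Crd v L X b2 b4 b6 b8) {P Q : ℂ} (h : P - Q ∈ L)
    (hP : E1 v L X P) : E1 v L X Q := by
  rcases hP with hP | hP
  · exact Or.inl ((mem_congr h).mp hP)
  · right
    rwa [← X_congr hX h]

private theorem WX_mem {P : ℂ} (h : P ∈ L) : WX L X P = 0 := if_pos h

private theorem WX_not_mem {P : ℂ} (h : P ∉ L) : WX L X P = (X P)⁻¹ := if_neg h

/-- a large value of `X` gives a small parameter -/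
private theorem small_of_large {c : Γ} (hc : c < 1) {P : ℂ} (hP : P ∉ L)
    (h : 1 ≤ v (X P) * c) : E1 v L X P ∧ v (WX L X P) ≤ c := by
  have h0 : 0 < v (X P) := by
    rw [zero_lt_iff]
    intro h0
    rw [h0, zero_mul] at h
    exact absurd zero_lt_one (not_lt_of_ge h)
  constructor
  · right
    by_contra hcon
    push Not at hcon
    have h1 : v (X P) * c ≤ 1 * c := mul_le_mul' hcon le_rfl
    rw [one_mul] at h1
    exact absurd (h.trans h1) (not_le_of_gt hc)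
  · rw [WX_not_mem hP, map_inv₀]
    have h2 : v (X P) * (v (X P))⁻¹ ≤ v (X P) * c := by
      rw [mul_inv_cancel₀ h0.ne']
      exact h
    exact le_of_mul_le_mul_left h2 h0

/-- doubling -/
private theorem dbl (hX : Crd v L X b2 b4 b6 b8) {P : ℂ} {c : Γ} (hc : c < 1)
    (hPL : P ∉ L) (hP : 1 < v (X P)) (h1 : v (WX L X P) ≤ c) :
    E1 v L X (P + P) ∧ v (WX L X (P + P)) ≤ c ∧
      WX L X (P + P) * (1 - eD b4 b6 b8 (WX L X P) (WX L X P)) =
        2 * (WX L X P + WX L X P) + eN b2 b4 b6 (WX L X P) (WX L X P) := by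
  have hX0 : X P ≠ 0 := by
    intro h
    rw [h, map_zero] at hP
    exact absurd hP (not_lt_of_ge zero_le_one)
  have hW : WX L X P = (X P)⁻¹ := WX_not_mem hPL
  have hnum : 2 * (WX L X P + WX L X P) + eN b2 b4 b6 (WX L X P) (WX L X P) =
      (4 * X P ^ 3 + b2 * X P ^ 2 + 2 * b4 * X P + b6) * (WX L X P) ^ 4 := by
    unfold eN
    rw [hW]
    field_simp
    ring
  have hden : 1 - eD b4 b6 b8 (WX L X P) (WX L X P) =
      (X P ^ 4 - b4 * X P ^ 2 - 2 * b6 * X P - b8) * (WX L X P) ^ 4 := by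
    unfold eD
    rw [hW]
    field_simp
    ring
  by_cases h2 : P + P ∈ L
  · refine ⟨Or.inl h2, ?_, ?_⟩
    · rw [WX_mem h2, map_zero]
      exact zero_le
    · rw [WX_mem h2, zero_mul, hnum, hX.dup0 P hPL h2, zero_mul]
  · have hd := hX.dup P hPL h2
    have hmul : X (P + P) * (2 * (WX L X P + WX L X P) + eN b2 b4 b6 (WX L X P) (WX L X P)) =
        1 - eD b4 b6 b8 (WX L X P) (WX L X P) := by
      rw [hnum, hden, ← hd]
      ring
    have hv : v (X (P + P)) * v (2 * (WX L X P + WX L X P) + eN b2 b4 b6 (WX L X P) (WX L X P)) = 1 := by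
      rw [← map_mul, hmul]
      exact v_den hX.hb4 hX.hb6 hX.hb8 hc h1 h1
    have hn := v_num (x := WX L X P) (y := WX L X P) hX.hb2 hX.hb4 hX.hb6 hc.le h1 h1
    have hlarge : 1 ≤ v (X (P + P)) * c := by
      rw [← hv]
      exact mul_le_mul' le_rfl hn
    obtain ⟨h3, h4⟩ := small_of_large hc h2 hlarge
    refine ⟨h3, h4, ?_⟩
    have hX20 : X (P + P) ≠ 0 := by
      intro h
      rw [h, map_zero, zero_mul] at hv
      exact zero_ne_one hv
    rw [← hmul, WX_not_mem h2, inv_mul_cancel_left₀ hX20]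

/-- the sum relation in the kernel of reduction -/
private theorem pair (hX : Crd v L X b2 b4 b6 b8) {P Q : ℂ} {c : Γ} (hc : c < 1)
    (hP : E1 v L X P) (hQ : E1 v L X Q) (h1 : v (WX L X P) ≤ c) (h2 : v (WX L X Q) ≤ c) :
    E1 v L X (P + Q) ∧ v (WX L X (P + Q)) ≤ c ∧ v (WX L X (P - Q)) ≤ c ∧
      (WX L X (P + Q) + WX L X (P - Q)) * (1 - eD b4 b6 b8 (WX L X P) (WX L X Q)) =
        2 * (WX L X P + WX L X Q) + eN b2 b4 b6 (WX L X P) (WX L X Q) := by
  by_cases hPL : P ∈ L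
  · have e1 : WX L X (P + Q) = WX L X Q := WX_congr hX (by rwa [add_sub_cancel_right])
    have e2 : WX L X (P - Q) = WX L X Q := by
      rw [← WX_neg hX Q]
      exact WX_congr hX (by rwa [sub_neg_eq_add, sub_add_cancel])
    refine ⟨E1_congr hX (P := Q) ?_ hQ, ?_, ?_, ?_⟩
    · rw [show Q - (P + Q) = -P by ring]
      exact neg_mem hPL
    · rw [e1]; exact h2
    · rw [e2]; exact h2
    · rw [e1, e2, WX_mem hPL]
      unfold eD eN
      ring
  by_cases hQL : Q ∈ L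
  · have e1 : WX L X (P + Q) = WX L X P := WX_congr hX (by rwa [add_sub_cancel_left])
    have e2 : WX L X (P - Q) = WX L X P := WX_congr hX (by
      rw [show P - Q - P = -Q by ring]
      exact neg_mem hQL)
    refine ⟨E1_congr hX (P := P) ?_ hP, ?_, ?_, ?_⟩
    · rw [show P - (P + Q) = -Q by ring]
      exact neg_mem hQL
    · rw [e1]; exact h1
    · rw [e2]; exact h1
    · rw [e1, e2, WX_mem hQL]
      unfold eD eN
      ring
  have hP' : 1 < v (X P) := hP.resolve_left hPL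
  have hQ' : 1 < v (X Q) := hQ.resolve_left hQL
  by_cases hA : P + Q ∈ L
  · have e1 : WX L X Q = WX L X P := by
      rw [← WX_neg hX Q]
      exact (WX_congr hX (by rwa [sub_neg_eq_add])).symm
    have e2 : WX L X (P - Q) = WX L X (P + P) := WX_congr hX (by
      rw [show P - Q - (P + P) = -(P + Q) by ring]
      exact neg_mem hA)
    obtain ⟨-, h4, h5⟩ := dbl hX hc hPL hP' h1
    refine ⟨Or.inl hA, ?_, ?_, ?_⟩
    · rw [WX_mem hA, map_zero]
      exact zero_le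
    · rw [e2]; exact h4
    · rw [WX_mem hA, e2, e1, zero_add]
      exact h5
  by_cases hB : P - Q ∈ L
  · have e1 : WX L X Q = WX L X P := (WX_congr hX hB).symm
    have hPQ : (P + P) - (P + Q) ∈ L := by
      rw [show P + P - (P + Q) = P - Q by ring]
      exact hB
    have e2 : WX L X (P + Q) = WX L X (P + P) := (WX_congr hX hPQ).symm
    obtain ⟨h3, h4, h5⟩ := dbl hX hc hPL hP' h1
    refine ⟨E1_congr hX hPQ h3, ?_, ?_, ?_⟩
    · rw [e2]; exact h4
    · rw [WX_mem hB, map_zero]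
      exact zero_le
    · rw [WX_mem hB, e2, e1, add_zero]
      exact h5
  -- the generic case
  have hXP0 : X P ≠ 0 := by
    intro h
    rw [h, map_zero] at hP'
    exact absurd hP' (not_lt_of_ge zero_le_one)
  have hXQ0 : X Q ≠ 0 := by
    intro h
    rw [h, map_zero] at hQ'
    exact absurd hQ' (not_lt_of_ge zero_le_one)
  have hWP : WX L X P = (X P)⁻¹ := WX_not_mem hPL
  have hWQ : WX L X Q = (X Q)⁻¹ := WX_not_mem hQL
  have hc0 : 0 < c := by
    refine lt_of_lt_of_le ?_ h1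
    rw [hWP, map_inv₀]
    exact inv_pos.mpr (zero_lt_one.trans hP')
  have hdiff : (WX L X P - WX L X Q) ^ 2 = (X P - X Q) ^ 2 * (WX L X P * WX L X Q) ^ 2 := by
    rw [hWP, hWQ]
    field_simp
    ring
  have hsum : (X (P + Q) + X (P - Q)) * (WX L X P - WX L X Q) ^ 2 =
      2 * (WX L X P + WX L X Q) + eN b2 b4 b6 (WX L X P) (WX L X Q) := by
    rw [hdiff, ← mul_assoc, hX.sum P Q hPL hQL hA hB]
    unfold eN
    rw [hWP, hWQ]
    field_simp
    ring
  have hprod : X (P + Q) * X (P - Q) * (WX L X P - WX L X Q) ^ 2 =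
      1 - eD b4 b6 b8 (WX L X P) (WX L X Q) := by
    rw [hdiff, ← mul_assoc, hX.prod P Q hPL hQL hA hB]
    unfold eD
    rw [hWP, hWQ]
    field_simp
    ring
  have hvD : v (X (P + Q) * X (P - Q) * (WX L X P - WX L X Q) ^ 2) = 1 := by
    rw [hprod]
    exact v_den hX.hb4 hX.hb6 hX.hb8 hc h1 h2
  have hvN : v ((X (P + Q) + X (P - Q)) * (WX L X P - WX L X Q) ^ 2) ≤ c := by
    rw [hsum]
    exact v_num hX.hb2 hX.hb4 hX.hb6 hc.le h1 h2
  have hδ : v ((WX L X P - WX L X Q) ^ 2) ≤ c * c := by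
    rw [pow_two, map_mul]
    exact mul_le_mul' (v.map_sub_le h1 h2) (v.map_sub_le h1 h2)
  obtain ⟨hEA, hWA⟩ := small_of_large hc hA (one_side hc0 hvD hδ hvN)
  obtain ⟨-, hWB⟩ := small_of_large hc hB (one_side (α := X (P - Q)) (β := X (P + Q)) hc0
    (by rwa [mul_comm (X (P - Q))]) hδ (by rwa [add_comm (X (P - Q))]))
  refine ⟨hEA, hWA, hWB, ?_⟩
  have hAB : X (P + Q) ≠ 0 ∧ X (P - Q) ≠ 0 := by
    constructor
    · intro h
      rw [h, zero_mul, zero_mul, map_zero] at hvD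
      exact zero_ne_one hvD
    · intro h
      rw [h, mul_zero, zero_mul, map_zero] at hvD
      exact zero_ne_one hvD
  rw [← hsum, ← hprod, WX_not_mem hA, WX_not_mem hB]
  have h3 := hAB.1
  have h4 := hAB.2
  field_simp
  ring

/-- multiples of a point in the kernel of reduction -/
private theorem mult (hX : Crd v L X b2 b4 b6 b8) {P : ℂ} (hPL : P ∉ L)
    (hP : 1 < v (X P)) (n : ℕ) :
    (E1 v L X (n * P) ∧ v (WX L X (n * P)) ≤ v (WX L X P) ∧
      v (WX L X (n * P) - (n : ℂ) ^ 2 * WX L X P) < v (WX L X P)) ∧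
    (E1 v L X ((n + 1 : ℕ) * P) ∧ v (WX L X ((n + 1 : ℕ) * P)) ≤ v (WX L X P) ∧
      v (WX L X ((n + 1 : ℕ) * P) - ((n + 1 : ℕ) : ℂ) ^ 2 * WX L X P) < v (WX L X P)) := by
  have hWP : WX L X P = (X P)⁻¹ := WX_not_mem hPL
  have hc1 : v (WX L X P) < 1 := by
    rw [hWP, map_inv₀]
    exact inv_lt_one_of_one_lt₀ hP
  have hc0 : 0 < v (WX L X P) := by
    rw [hWP, map_inv₀]
    exact inv_pos.mpr (zero_lt_one.trans hP)
  have hcc : v (WX L X P) * v (WX L X P) < v (WX L X P) := by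
    have := mul_lt_mul_of_pos_left hc1 hc0
    rwa [mul_one] at this
  induction n with
  | zero =>
    refine ⟨⟨?_, ?_, ?_⟩, ?_, ?_, ?_⟩
    · left
      rw [Nat.cast_zero, zero_mul]
      exact zero_mem _
    · rw [Nat.cast_zero, zero_mul, WX_mem (zero_mem _), map_zero]
      exact zero_le
    · rw [Nat.cast_zero, zero_mul, WX_mem (zero_mem _)]
      simpa using hc0
    · right
      rw [zero_add, Nat.cast_one, one_mul]
      exact hP
    · rw [zero_add, Nat.cast_one, one_mul]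
    · rw [zero_add, Nat.cast_one, one_mul, one_pow, one_mul, sub_self, map_zero]
      exact hc0
  | succ n ih =>
    obtain ⟨⟨h1, h2, h3⟩, h4, h5, h6⟩ := ih
    refine ⟨⟨h4, h5, h6⟩, ?_⟩
    obtain ⟨h7, h8, h9, h10⟩ := pair hX hc1 h4 (Or.inr hP) h5 le_rfl
    have e1 : ((n + 1 : ℕ) : ℂ) * P + P = ((n + 1 + 1 : ℕ) : ℂ) * P := by
      push_cast
      ring
    have e2 : ((n + 1 : ℕ) : ℂ) * P - P = (n : ℂ) * P := by
      push_cast
      ring
    rw [e1] at h7 h8 h10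
    rw [e2] at h9 h10
    refine ⟨h7, h8, ?_⟩
    set A := WX L X (((n + 1 + 1 : ℕ) : ℂ) * P) with hA
    set B := WX L X ((n : ℂ) * P) with hB
    set Z := WX L X (((n + 1 : ℕ) : ℂ) * P) with hZ
    set W := WX L X P with hW
    set D' := eD b4 b6 b8 Z W with hD'
    set N' := eN b2 b4 b6 Z W with hN'
    have k1 : v D' ≤ v W * v W := v_eD hX.hb4 hX.hb6 hX.hb8 hc1.le h5 le_rfl
    have k2 : v N' ≤ v W * v W := v_eN hX.hb2 hX.hb4 hX.hb6 hc1.le h5 le_rfl
    have k3 : A - ((n + 1 + 1 : ℕ) : ℂ) ^ 2 * W =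
        2 * (Z - ((n + 1 : ℕ) : ℂ) ^ 2 * W) - (B - (n : ℂ) ^ 2 * W) + (N' + (A + B) * D') := by
      push_cast
      linear_combination h10
    rw [k3]
    have k4 : v ((A + B) * D') < v W := by
      rw [map_mul]
      calc v (A + B) * v D' ≤ 1 * (v W * v W) :=
            mul_le_mul' ((v.map_add_le h8 h9).trans hc1.le) k1
        _ = v W * v W := one_mul _
        _ < v W := hcc
    have k5 : v (2 * (Z - ((n + 1 : ℕ) : ℂ) ^ 2 * W)) < v W := by
      rw [map_mul]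
      calc v 2 * v (Z - ((n + 1 : ℕ) : ℂ) ^ 2 * W) ≤ 1 * v (Z - ((n + 1 : ℕ) : ℂ) ^ 2 * W) :=
            mul_le_mul' (v_two v) le_rfl
        _ = v (Z - ((n + 1 : ℕ) : ℂ) ^ 2 * W) := one_mul _
        _ < v W := h6
    refine v.map_add_lt ?_ (v.map_add_lt (k2.trans_lt hcc) k4)
    rw [sub_eq_add_neg]
    refine v.map_add_lt k5 ?_
    rw [Valuation.map_neg]
    exact h3



theorem wx_mult (hX : Crd v L X b2 b4 b6 b8) {P : ℂ} (hPL : P ∉ L) (hP : 1 < v (X P)) (n : ℕ) :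
    v (WX L X ((n : ℂ) * P) - (n : ℂ) ^ 2 * WX L X P) < v (WX L X P) :=
  (mult hX hPL hP n).1.2.2

private theorem e1_wx {P : ℂ} (hP : E1 v L X P) : v (WX L X P) < 1 := by
  rcases hP with hP | hP
  · rw [WX_mem hP, map_zero]
    exact zero_lt_one
  · by_cases hPL : P ∈ L
    · rw [WX_mem hPL, map_zero]
      exact zero_lt_one
    · rw [WX_not_mem hPL, map_inv₀]
      exact inv_lt_one_of_one_lt₀ hP

theorem e1_add (hX : Crd v L X b2 b4 b6 b8) {P Q : ℂ} (hP : E1 v L X P) (hQ : E1 v L X Q) : E1 v L X (P + Q) :=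
  (pair hX (c := max (v (WX L X P)) (v (WX L X Q))) (max_lt (e1_wx hP) (e1_wx hQ)) hP hQ
    (le_max_left _ _) (le_max_right _ _)).1

theorem e1_neg (hX : Crd v L X b2 b4 b6 b8) {P : ℂ} (hP : E1 v L X P) : E1 v L X (-P) := by
  rcases hP with hP | hP
  · exact Or.inl (neg_mem hP)
  · right
    rw [hX.even]
    exact hP

theorem e1_nsmul (hX : Crd v L X b2 b4 b6 b8) {P : ℂ} (hP : E1 v L X P) (n : ℕ) : E1 v L X ((n : ℂ) * P) := by
  by_cases hPL : P ∈ L
  · left
    have := nsmul_mem hPL n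
    rwa [nsmul_eq_mul] at this
  · exact (mult hX hPL (hP.resolve_left hPL) n).1.1

theorem e1_mul_val (hX : Crd v L X b2 b4 b6 b8) {P : ℂ} (hPL : P ∉ L) (hP : 1 < v (X P)) {n : ℕ} (hn : v (n : ℂ) = 1) :
    (n : ℂ) * P ∉ L ∧ v (X ((n : ℂ) * P)) = v (X P) := by
  have h1 := wx_mult hX hPL hP n
  have h2 : v ((n : ℂ) ^ 2 * WX L X P) = v (WX L X P) := by
    rw [map_mul, map_pow, hn, one_pow, one_mul]
  have h3 : v (WX L X ((n : ℂ) * P)) = v (WX L X P) := by
    have h4 : WX L X ((n : ℂ) * P) =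
        (n : ℂ) ^ 2 * WX L X P + (WX L X ((n : ℂ) * P) - (n : ℂ) ^ 2 * WX L X P) := by ring
    rw [h4, v.map_add_eq_of_lt_left (by rw [h2]; exact h1), h2]
  have h0 : 0 < v (WX L X P) := by
    rw [WX_not_mem hPL, map_inv₀]
    exact inv_pos.mpr (zero_lt_one.trans hP)
  have h5 : (n : ℂ) * P ∉ L := by
    intro h
    rw [WX_mem h, map_zero] at h3
    exact absurd h3 h0.ne
  refine ⟨h5, ?_⟩
  rw [WX_not_mem h5, WX_not_mem hPL, map_inv₀, map_inv₀] at h3
  exact inv_inj.1 h3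

theorem e1_dbl_sub (hX : Crd v L X b2 b4 b6 b8) {P : ℂ} (hPL : P ∉ L) (hP : 1 < v (X P)) (h2 : v 2 = 1) (h3 : v 3 = 1) :
    v (X P - X (P + P)) = v (X P) := by
  have hn : v ((2 : ℕ) : ℂ) = 1 := by rwa [Nat.cast_ofNat]
  have e : ((2 : ℕ) : ℂ) * P = P + P := by push_cast; ring
  obtain ⟨h4, h5⟩ := e1_mul_val hX hPL hP hn
  have h6 := wx_mult hX hPL hP 2
  rw [e] at h4 h5 h6
  have h7 : v (WX L X (P + P) - WX L X P) = v (WX L X P) := by
    have h8 : WX L X (P + P) - WX L X P =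
        3 * WX L X P + (WX L X (P + P) - ((2 : ℕ) : ℂ) ^ 2 * WX L X P) := by push_cast; ring
    have h9 : v (3 * WX L X P) = v (WX L X P) := by rw [map_mul, h3, one_mul]
    rw [h8, v.map_add_eq_of_lt_left (by rw [h9]; exact h6), h9]
  have hX0 : X P ≠ 0 := by
    intro h
    rw [h, map_zero] at hP
    exact absurd hP (not_lt_of_ge zero_le_one)
  have hX20 : X (P + P) ≠ 0 := by
    intro h
    rw [h, map_zero] at h5
    exact hX0 ((map_eq_zero v).1 h5.symm)
  have h10 : X P - X (P + P) = (WX L X (P + P) - WX L X P) * (X P * X (P + P)) := by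
    have key : ∀ x y : ℂ, x ≠ 0 → y ≠ 0 → x - y = (y⁻¹ - x⁻¹) * (x * y) := by
      intro x y hx hy
      field_simp
    rw [WX_not_mem hPL, WX_not_mem h4]
    exact key _ _ hX0 hX20
  rw [h10, map_mul, h7, map_mul, h5, WX_not_mem hPL, map_inv₀]
  have h11 : v (X P) ≠ 0 := (Valuation.ne_zero_iff v).2 hX0
  rw [← mul_assoc, inv_mul_cancel₀ h11, one_mul]

theorem good_le (hX : Crd v L X b2 b4 b6 b8) {P : ℂ} (hP : Good v L P) : v (X P) ≤ 1 := by
  by_contra hcon
  push Not at hcon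
  obtain ⟨n, b, hb, hn, hbn⟩ := hP
  have hPL : P ∉ L := by
    intro h
    apply hn
    have := nsmul_mem h n
    rwa [nsmul_eq_mul] at this
  have h1 := (mult hX hPL hcon n).1.1
  have h2 : 1 < v (X ((n : ℂ) * P)) := h1.resolve_left hn
  have h3 := (mult hX hn h2 b).1.2.2
  rw [WX_mem hbn, zero_sub, Valuation.map_neg, map_mul, map_pow, hb, one_pow, one_mul] at h3
  exact absurd h3 (lt_irrefl _)

theorem good_not_e1 (hX : Crd v L X b2 b4 b6 b8) {P : ℂ} (hP : Good v L P) : ¬ E1 v L X P := by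
  rintro (h | h)
  · obtain ⟨n, b, hb, hn, hbn⟩ := hP
    apply hn
    have := nsmul_mem h n
    rwa [nsmul_eq_mul] at this
  · exact absurd h (not_lt_of_ge (good_le hX hP))

theorem tp_good {P : ℂ} (h : TP v L P) (hP : P ∉ L) : Good v L P := by
  obtain ⟨n, hn, hnP⟩ := h
  refine ⟨1, n, hn, ?_, ?_⟩
  · rwa [Nat.cast_one, one_mul]
  · rwa [Nat.cast_one, one_mul]

theorem tp_add {P Q : ℂ} (hP : TP v L P) (hQ : TP v L Q) : TP v L (P + Q) := by
  obtain ⟨n, hn, hnP⟩ := hP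
  obtain ⟨m, hm, hmQ⟩ := hQ
  refine ⟨n * m, ?_, ?_⟩
  · rw [Nat.cast_mul, map_mul, hn, hm, one_mul]
  · have h1 := nsmul_mem hnP m
    have h2 := nsmul_mem hmQ n
    rw [nsmul_eq_mul] at h1 h2
    have h3 := add_mem h1 h2
    have e : ((n * m : ℕ) : ℂ) * (P + Q) = (m : ℂ) * ((n : ℂ) * P) + (n : ℂ) * ((m : ℂ) * Q) := by
      push_cast
      ring
    rw [e]
    exact h3

theorem tp_neg {P : ℂ} (hP : TP v L P) : TP v L (-P) := by
  obtain ⟨n, hn, hnP⟩ := hP
  refine ⟨n, hn, ?_⟩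
  rw [mul_neg]
  exact neg_mem hnP

end CMS
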