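import Mathlib
import Pool.Agent.Lib.CMS.VE1

/-!
# VRed: reduction of points  (about 170 lines)

`red_sub` : the proof of `good_sub` in `MP_d9f52e_nt/UVb.lean` (only `v (X ·) ≤ 1` of the four points is used), for `L` and `Crd`, `GR`.
`red_add` : `P ∉ E1`, `e ∈ E1`, `e ∉ L`, so `P ± e ∉ E1` (`e1_add`, `e1_neg`): `A = X(P+e)`, `B = X(P-e)` have `v ≤ 1`.  `W = 1/X(e)`, `v W < 1`, `x = X P`.  The relations for `(P, e)` divided by `X(e)²`: `(A + B)(x W - 1)² = 2x(xW + 1) + b2 x W + b4 (x W² + W) + b6 W²`, `A B (xW-1)² = x² - b4 x W - b6 (x W² + W) - b8 W²`; so modulo the maximal ideal `A + B = 2x`, `A B = x²`; `(A - x)² = (A-x)((A - x) + (B - x)) - (A-x)(B-x)`, `(A-x)(B-x) = AB - x(A+B) + x² = 0` modulo the maximal ideal; so `v((A-x)²) < 1`.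
`red_far` : `v(X P) ≤ 1 < v(X e)`.
-/

set_option autoImplicit false

namespace CMS

open Complex NumberField

variable {Γ : Type*} [LinearOrderedCommGroupWithZero Γ] {v : Valuation ℂ Γ} {L : Submodule ℤ ℂ} {X : ℂ → ℂ} {b2 b4 b6 b8 : ℂ}

private theorem vlt_mul' {a b : ℂ} (ha : v a < 1) (hb : v b ≤ 1) : v (a * b) < 1 := by
  rw [map_mul]
  exact (mul_le_of_le_one_right' hb).trans_lt ha

private theorem not_e1 {P : ℂ} (h : ¬ E1 v L X P) : P ∉ L ∧ v (X P) ≤ 1 :=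
  ⟨fun h' => h (Or.inl h'), not_lt.1 fun h' => h (Or.inr h')⟩

theorem red_sub (hX : Crd v L X b2 b4 b6 b8) (hG : GR v b2 b4 b6 b8) {P Q : ℂ} (hP : ¬ E1 v L X P) (hQ : ¬ E1 v L X Q)
    (h1 : ¬ E1 v L X (P + Q)) (h2 : ¬ E1 v L X (P - Q)) : v (X P - X Q) = 1 := by
  obtain ⟨hPL, hP1⟩ := not_e1 hP
  obtain ⟨hQL, hcQ⟩ := not_e1 hQ
  obtain ⟨hSL, hcS⟩ := not_e1 h1
  obtain ⟨hTL, hcT⟩ := not_e1 h2
  have hle : v (X P - X Q) ≤ 1 := (v.map_sub _ _).trans (max_le hP1 hcQ)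
  refine le_antisymm hle (not_lt.1 fun hlt => ?_)
  have hs := hX.sum P Q hPL hQL hSL hTL
  have hp := hX.prod P Q hPL hQL hSL hTL
  obtain ⟨δ, hδ⟩ : ∃ δ, δ = X P - X Q := ⟨_, rfl⟩
  have hXQ : X Q = X P - δ := by rw [hδ]; ring
  rw [← hδ] at hlt hle hs hp
  rw [hXQ] at hs hp
  have hc : X P ∈ v.integer := hP1
  have hd : δ ∈ v.integer := hle
  have m2 : b2 ∈ v.integer := hX.hb2
  have m4 : b4 ∈ v.integer := hX.hb4
  have m6 : b6 ∈ v.integer := hX.hb6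
  have mS : X (P + Q) ∈ v.integer := hcS
  have mT : X (P - Q) ∈ v.integer := hcT
  have n2 : (2 : ℂ) ∈ v.integer := by exact_mod_cast natCast_mem v.integer 2
  have n6 : (6 : ℂ) ∈ v.integer := by exact_mod_cast natCast_mem v.integer 6
  refine hG (X P) hP1 ?_ ?_
  · have e : 4 * X P ^ 3 + b2 * X P ^ 2 + 2 * b4 * X P + b6 =
        δ * ((X (P + Q) + X (P - Q)) * δ + (6 * X P ^ 2 - 2 * X P * δ + b2 * X P + b4)) := by
      linear_combination -hs
    rw [e]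
    refine vlt_mul' hlt ?_
    exact add_mem (mul_mem (add_mem mS mT) hd) (add_mem (add_mem (sub_mem (mul_mem n6 (pow_mem hc 2))
      (mul_mem (mul_mem n2 hc) hd)) (mul_mem m2 hc)) m4)
  · have e : X P ^ 4 - b4 * X P ^ 2 - 2 * b6 * X P - b8 =
        δ * (X (P + Q) * X (P - Q) * δ + (2 * X P ^ 3 - X P ^ 2 * δ - b4 * X P - b6)) := by
      linear_combination -hp
    rw [e]
    refine vlt_mul' hlt ?_
    exact add_mem (mul_mem (mul_mem mS mT) hd) (sub_mem (sub_mem (sub_mem (mul_mem n2 (pow_mem hc 3))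
      (mul_mem (pow_mem hc 2) hd)) (mul_mem m4 hc)) m6)

theorem red_add (hX : Crd v L X b2 b4 b6 b8) {P e : ℂ} (hP : ¬ E1 v L X P) (he : E1 v L X e) (heL : e ∉ L) :
    v (X (P + e) - X P) < 1 := by
  have hXe : 1 < v (X e) := he.resolve_left heL
  have h1 : ¬ E1 v L X (P + e) := fun h => hP (by
    have := e1_add hX h (e1_neg hX he)
    rwa [add_neg_cancel_right] at this)
  have h2 : ¬ E1 v L X (P - e) := fun h => hP (by
    have := e1_add hX h he
    rwa [sub_add_cancel] at this)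
  obtain ⟨hPL, hx⟩ := not_e1 hP
  obtain ⟨hAL, hA⟩ := not_e1 h1
  obtain ⟨hBL, hB⟩ := not_e1 h2
  have hs := hX.sum P e hPL heL hAL hBL
  have hp := hX.prod P e hPL heL hAL hBL
  have hE0 : X e ≠ 0 := by
    intro h
    rw [h, map_zero] at hXe
    exact not_lt_of_ge zero_le_one hXe
  obtain ⟨W, hW⟩ : ∃ W, W = (X e)⁻¹ := ⟨_, rfl⟩
  have hWE : W * X e = 1 := by rw [hW, inv_mul_cancel₀ hE0]
  have hWlt : v W < 1 := by
    rw [hW, map_inv₀]
    exact inv_lt_one_of_one_lt₀ hXe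
  obtain ⟨A, hAe⟩ : ∃ A, A = X (P + e) := ⟨_, rfl⟩
  obtain ⟨B, hBe⟩ : ∃ B, B = X (P - e) := ⟨_, rfl⟩
  obtain ⟨x, hxe⟩ : ∃ x, x = X P := ⟨_, rfl⟩
  obtain ⟨E, hEe⟩ : ∃ E, E = X e := ⟨_, rfl⟩
  rw [← hAe, ← hBe, ← hxe, ← hEe] at hs hp
  rw [← hAe] at hA
  rw [← hBe] at hB
  rw [← hxe] at hx
  rw [← hEe] at hWE
  rw [← hAe, ← hxe]
  have mA : A ∈ v.integer := hA
  have mB : B ∈ v.integer := hB
  have mx : x ∈ v.integer := hx
  have mW : W ∈ v.integer := hWlt.le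
  have m2 : b2 ∈ v.integer := hX.hb2
  have m4 : b4 ∈ v.integer := hX.hb4
  have m6 : b6 ∈ v.integer := hX.hb6
  have m8 : b8 ∈ v.integer := hX.hb8
  have n2 : (2 : ℂ) ∈ v.integer := by exact_mod_cast natCast_mem v.integer 2
  have n1 : (1 : ℂ) ∈ v.integer := one_mem _
  have hs' : (A + B) * (x * W - 1) ^ 2 =
      2 * x * (x * W + 1) + b2 * x * W + b4 * (x * W ^ 2 + W) + b6 * W ^ 2 := by
    linear_combination W ^ 2 * hs + ((A + B) * (x * W - 1 + (x * W - W * E)) +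
      (2 * x * (x * W + W * E) + 2 * x + b2 * x * W + b4 * W)) * hWE
  have hp' : A * B * (x * W - 1) ^ 2 =
      x ^ 2 - b4 * x * W - b6 * (x * W ^ 2 + W) - b8 * W ^ 2 := by
    linear_combination W ^ 2 * hp + (A * B * (x * W - 1 + (x * W - W * E)) +
      (x ^ 2 * (W * E + 1) - b4 * x * W - b6 * W)) * hWE
  have hmem : x ^ 2 * W - 2 * x ∈ v.integer :=
    sub_mem (mul_mem (pow_mem mx 2) mW) (mul_mem n2 mx)
  have hst : v (A + B - 2 * x) < 1 := by
    have e : A + B - 2 * x = W * (2 * x ^ 2 + b2 * x + b4 * (x * W + 1) + b6 * W -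
        (A + B) * (x ^ 2 * W - 2 * x)) := by
      linear_combination hs'
    rw [e]
    refine vlt_mul' hWlt ?_
    exact sub_mem (add_mem (add_mem (add_mem (mul_mem n2 (pow_mem mx 2)) (mul_mem m2 mx))
      (mul_mem m4 (add_mem (mul_mem mx mW) n1))) (mul_mem m6 mW)) (mul_mem (add_mem mA mB) hmem)
  have hut : v (A * B - x ^ 2) < 1 := by
    have e : A * B - x ^ 2 = W * (-(b4 * x) - b6 * (x * W + 1) - b8 * W -
        A * B * (x ^ 2 * W - 2 * x)) := by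
      linear_combination hp'
    rw [e]
    refine vlt_mul' hWlt ?_
    exact sub_mem (sub_mem (sub_mem (neg_mem (mul_mem m4 mx))
      (mul_mem m6 (add_mem (mul_mem mx mW) n1))) (mul_mem m8 mW)) (mul_mem (mul_mem mA mB) hmem)
  have hsq : v ((A - x) ^ 2) < 1 := by
    have e : (A - x) ^ 2 = (A + B - 2 * x) * (A - x) -
        ((A * B - x ^ 2) - (A + B - 2 * x) * x) := by ring
    rw [e]
    refine (v.map_sub _ _).trans_lt (max_lt (vlt_mul' hst (sub_mem mA mx)) ?_)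
    exact (v.map_sub _ _).trans_lt (max_lt hut (vlt_mul' hst hx))
  rw [map_pow] at hsq
  exact (pow_lt_one_iff (by norm_num)).1 hsq

theorem red_far {P e : ℂ} (hP : v (X P) ≤ 1) (he : 1 < v (X e)) : v (X P - X e) = v (X e) :=
  Valuation.map_sub_eq_of_lt_right v (hP.trans_lt he)

/-- two points of order prime to the residue characteristic, not opposite or equal, have different reductions -/
theorem red_tp (hX : Crd v L X b2 b4 b6 b8) (hG : GR v b2 b4 b6 b8) {P Q : ℂ} (hP : TP v L P) (hQ : TP v L Q)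
    (hPL : P ∉ L) (hQL : Q ∉ L) (h1 : P + Q ∉ L) (h2 : P - Q ∉ L) : v (X P - X Q) = 1 := by
  have h3 : TP v L (P - Q) := by
    rw [sub_eq_add_neg]
    exact tp_add hP (tp_neg hQ)
  exact red_sub hX hG (good_not_e1 hX (tp_good hP hPL)) (good_not_e1 hX (tp_good hQ hQL))
    (good_not_e1 hX (tp_good (tp_add hP hQ) h1)) (good_not_e1 hX (tp_good h3 h2))

end CMS
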