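import Mathlib
import Pool.Agent.Lib.CMS.VRed
import Pool.Agent.Lib.CMS.LBas

/-!
# VInf: torsion points with prescribed reduction behaviour  (about 110 lines)

`B` finite, `n₀`.  At most one prime has `v < 1`; choose a prime `l > n₀`, `l > 2 B.card + 2`, odd, with `v l = 1`.  `L = ℤω₁ + ℤω₂`.  The points `z_i = (i ω₁ + ω₂)/l`, `0 ≤ i < l`, are off `L`, `l z_i ∈ L`, and `z_i ± z_j ∉ L` for `i ≠ j` (`z_i + z_j` has second coordinate `2/l`).  By `red_tp`, `v(X z_i - X z_j) = 1` for `i ≠ j`.  For each `b ∈ B` with `v b ≤ 1` at most one `i` has `v(X z_i - b) < 1`; `v(X z_i - b) ≤ 1` always (`good_le`).  As `l > B.card` some `i` works for all `b`.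
-/

set_option autoImplicit false

namespace CMS

open Complex NumberField

variable {Γ : Type*} [LinearOrderedCommGroupWithZero Γ] {v : Valuation ℂ Γ} {L : Submodule ℤ ℂ} {X : ℂ → ℂ} {b2 b4 b6 b8 : ℂ}

private theorem vi_int (n : ℤ) : v (n : ℂ) ≤ 1 :=
  (Valuation.mem_integer_iff v _).1 (intCast_mem v.integer n)

private theorem vi_prime (N : ℕ) : ∃ l : ℕ, l.Prime ∧ N < l ∧ v (l : ℂ) = 1 := by
  obtain ⟨p, hp, hpp⟩ := Nat.exists_infinite_primes (N + 1)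
  obtain ⟨q, hq, hqp⟩ := Nat.exists_infinite_primes (p + 1)
  by_contra hcon
  push Not at hcon
  have h1 : v (p : ℂ) < 1 := lt_of_le_of_ne (by exact_mod_cast vi_int (v := v) (p : ℤ))
    (hcon p hpp (by omega))
  have h2 : v (q : ℂ) < 1 := lt_of_le_of_ne (by exact_mod_cast vi_int (v := v) (q : ℤ))
    (hcon q hqp (by omega))
  have h3 : Nat.Coprime p q := (Nat.coprime_primes hpp hqp).2 (by omega)
  obtain ⟨a, b, hab⟩ := Nat.isCoprime_iff_coprime.2 h3
  have h4 : (1 : ℂ) = (p : ℂ) * (a : ℂ) + (q : ℂ) * (b : ℂ) := by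
    have h5 := congrArg (fun x : ℤ => (x : ℂ)) hab
    push_cast at h5
    rw [← h5]
    ring
  have h6 : v (1 : ℂ) < 1 := by
    rw [h4]
    refine v.map_add_lt ?_ ?_
    · rw [map_mul]
      exact mul_lt_one_of_lt_of_le h1 (vi_int a)
    · rw [map_mul]
      exact mul_lt_one_of_lt_of_le h2 (vi_int b)
  rw [map_one] at h6
  exact lt_irrefl _ h6

theorem exists_tp_avoid (hL : IsLat L) (hX : Crd v L X b2 b4 b6 b8) (hG : GR v b2 b4 b6 b8) (B : Finset ℂ) (n₀ : ℕ) :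
    ∃ (l : ℕ) (z : ℂ), l.Prime ∧ n₀ < l ∧ v (l : ℂ) = 1 ∧ z ∉ L ∧ (l : ℂ) * z ∈ L ∧
      ∀ b ∈ B, v b ≤ 1 → v (X z - b) = 1 := by
  classical
  obtain ⟨l, hl, hlN, hvl⟩ := vi_prime (v := v) (n₀ + B.card + 2)
  obtain ⟨P, rfl⟩ := hL
  have hl0 : (l : ℂ) ≠ 0 := Nat.cast_ne_zero.2 hl.ne_zero
  have hlr : (l : ℝ) ≠ 0 := Nat.cast_ne_zero.2 hl.ne_zero
  have hind : ∀ s t : ℝ, (s : ℂ) * P.ω₁ + (t : ℂ) * P.ω₂ = 0 → s = 0 ∧ t = 0 := by
    intro s t hst
    exact LinearIndependent.pair_iff.1 P.indep s t (by simpa using hst)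
  -- points of the form `(a ω₁ + b ω₂) / l`
  have hmem : ∀ a b : ℤ, ((a : ℂ) * P.ω₁ + (b : ℂ) * P.ω₂) / (l : ℂ) ∈ P.lattice →
      (l : ℤ) ∣ a ∧ (l : ℤ) ∣ b := by
    intro a b h
    obtain ⟨m, n, hmn⟩ := PeriodPair.mem_lattice.1 h
    rw [eq_div_iff hl0] at hmn
    have h1 := hind ((m : ℝ) * l - a) ((n : ℝ) * l - b) (by
      push_cast
      linear_combination hmn)
    constructor
    · refine ⟨m, ?_⟩
      have h2 : (a : ℝ) = (l : ℝ) * (m : ℝ) := by linarith [h1.1]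
      exact_mod_cast h2
    · refine ⟨n, ?_⟩
      have h2 : (b : ℝ) = (l : ℝ) * (n : ℝ) := by linarith [h1.2]
      exact_mod_cast h2
  let z : ℕ → ℂ := fun i => (((i : ℤ) : ℂ) * P.ω₁ + ((1 : ℤ) : ℂ) * P.ω₂) / (l : ℂ)
  have hlz : ∀ i, (l : ℂ) * z i ∈ P.lattice := by
    intro i
    have h1 : (l : ℂ) * z i = ((i : ℤ) : ℂ) * P.ω₁ + ((1 : ℤ) : ℂ) * P.ω₂ := by
      change (l : ℂ) * ((((i : ℤ) : ℂ) * P.ω₁ + ((1 : ℤ) : ℂ) * P.ω₂) / (l : ℂ)) = _
      rw [mul_div_cancel₀ _ hl0]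
    rw [h1]
    exact PeriodPair.mem_lattice.2 ⟨_, _, rfl⟩
  have hz : ∀ i, z i ∉ P.lattice := by
    intro i h
    have h1 := (hmem _ _ h).2
    have h2 := Int.le_of_dvd (by norm_num) h1
    omega
  have hTP : ∀ i, TP v P.lattice (z i) := fun i => ⟨l, hvl, hlz i⟩
  have hplus : ∀ i j, z i + z j ∉ P.lattice := by
    intro i j h
    have h1 : z i + z j = (((i + j : ℤ) : ℂ) * P.ω₁ + ((2 : ℤ) : ℂ) * P.ω₂) / (l : ℂ) := by
      change (((i : ℤ) : ℂ) * P.ω₁ + ((1 : ℤ) : ℂ) * P.ω₂) / (l : ℂ) +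
        (((j : ℤ) : ℂ) * P.ω₁ + ((1 : ℤ) : ℂ) * P.ω₂) / (l : ℂ) = _
      rw [← add_div]
      congr 1
      push_cast
      ring
    rw [h1] at h
    have h2 := Int.le_of_dvd (by norm_num) (hmem _ _ h).2
    omega
  have hminus : ∀ i j, i < l → j < l → i ≠ j → z i - z j ∉ P.lattice := by
    intro i j hi hj hij h
    have h1 : z i - z j = (((i - j : ℤ) : ℂ) * P.ω₁ + ((0 : ℤ) : ℂ) * P.ω₂) / (l : ℂ) := by
      change (((i : ℤ) : ℂ) * P.ω₁ + ((1 : ℤ) : ℂ) * P.ω₂) / (l : ℂ) -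
        (((j : ℤ) : ℂ) * P.ω₁ + ((1 : ℤ) : ℂ) * P.ω₂) / (l : ℂ) = _
      rw [← sub_div]
      congr 1
      push_cast
      ring
    rw [h1] at h
    obtain ⟨c, hc⟩ := (hmem _ _ h).1
    have h3 : c = 0 := by
      by_contra hc0
      have h4 : 1 ≤ |c| := Int.one_le_abs hc0
      have h5 : |(i : ℤ) - j| = (l : ℤ) * |c| := by
        rw [hc, abs_mul]
        simp
      have h6 : |(i : ℤ) - j| < l := by
        rw [abs_lt]
        constructor <;> omega
      have h7 : (l : ℤ) * 1 ≤ (l : ℤ) * |c| := mul_le_mul_of_nonneg_left h4 (by positivity)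
      omega
    rw [h3, mul_zero] at hc
    omega
  have hle : ∀ i, v (X (z i)) ≤ 1 := fun i => good_le hX (tp_good (hTP i) (hz i))
  have hsep : ∀ i j, i < l → j < l → i ≠ j → v (X (z i) - X (z j)) = 1 := fun i j hi hj hij =>
    red_tp hX hG (hTP i) (hTP j) (hz i) (hz j) (hplus i j) (hminus i j hi hj hij)
  -- the bad indices
  by_contra hcon
  push Not at hcon
  have hbad : ∀ i ∈ Finset.range l, ∃ b ∈ B, v b ≤ 1 ∧ v (X (z i) - b) ≠ 1 := fun i _ =>
    hcon l (z i) hl (by omega) hvl (hz i) (hlz i)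
  have hcard : (Finset.range l).card ≤ B.card := by
    have hex : ∀ i, ∃ b, i ∈ Finset.range l → b ∈ B ∧ v b ≤ 1 ∧ v (X (z i) - b) ≠ 1 := by
      intro i
      by_cases hi : i ∈ Finset.range l
      · obtain ⟨b, h1, h2, h3⟩ := hbad i hi
        exact ⟨b, fun _ => ⟨h1, h2, h3⟩⟩
      · exact ⟨0, fun h => absurd h hi⟩
    choose f hf using hex
    refine Finset.card_le_card_of_injOn f (fun i hi => (hf i hi).1) ?_
    intro i hi j hj hij
    by_contra hne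
    have h1 := hf i hi
    have h2 := hf j hj
    rw [← hij] at h2
    have h3 : v (X (z i) - f i) < 1 :=
      lt_of_le_of_ne ((v.map_sub _ _).trans (max_le (hle i) h1.2.1)) h1.2.2
    have h4 : v (X (z j) - f i) < 1 :=
      lt_of_le_of_ne ((v.map_sub _ _).trans (max_le (hle j) h1.2.1)) h2.2.2
    have h5 := hsep i j (Finset.mem_range.1 hi) (Finset.mem_range.1 hj) hne
    have h6 : v (X (z i) - X (z j)) < 1 := by
      have h7 : X (z i) - X (z j) = (X (z i) - f i) + -(X (z j) - f i) := by ring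
      rw [h7]
      refine v.map_add_lt h3 ?_
      rw [Valuation.map_neg]
      exact h4
    rw [h5] at h6
    exact lt_irrefl _ h6
  rw [Finset.card_range] at hcard
  omega

end CMS
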