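import Mathlib
import Pool.Agent.Lib.CMS.VInf
import Pool.Agent.Lib.CMS.LDif

/-!
# V34: multiplication by a non-unit has a kernel in the kernel of reduction  (about 170 lines)

`X z = r² wp z - b2/12`; `a a' = N`, `a L ≤ L`, `a' L ≤ L`, `v a < 1`.  Suppose no `u ∉ L` with `a u ∈ L` is in `E1`.  `S` representatives of `sc a⁻¹ L` modulo `L`.  First choose `w`: `exists_tp_avoid` with `B = ∅`, `n₀ = N`: `l w ∈ L`, `w ∉ L`, `l > N` prime; `a w ∉ L` (else `N w ∈ L`).  Then `z`: `exists_tp_avoid` with `B = {X s : s ∈ S, s ≠ 0} ∪ {X(w+s) : s ∈ S}`, `n₀ = max N l`: `l' z ∈ L`, `l' ≠ l`.  `a z ∉ L`.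
`wp_diff_mul` times `r^{2 card}`: `a² (X(az) - X(aw)) ∏_{s≠0}(X z - X s) = ∏_s (X z - X(w+s))`.  Left side: `v(a²) < 1`, `v(X(az) - X(aw)) ≤ 1` (`az, aw` are off `L`, of order prime to the residue characteristic: good), `v(X z - X s) = 1` (`s ∉ E1`, choice of `z`): `v < 1`.  Right side: `w + s ∉ L` (else `aw ∈ L`); if `v(X(w+s)) ≤ 1` then `v(X z - X(w+s)) = 1`, otherwise `v = v(X(w+s)) > 1` (`red_far`): `v ≥ 1`.  Contradiction.
-/

set_option autoImplicit false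

namespace CMS

open Complex NumberField

variable {Γ : Type*} [LinearOrderedCommGroupWithZero Γ] {v : Valuation ℂ Γ} {L : Submodule ℤ ℂ} {b2 b4 b6 b8 : ℂ}

theorem exists_e1_tor (hL : IsLat L) {r : ℂ} (hr : r ≠ 0)
    (hX : Crd v L (fun z => r ^ 2 * wp L z - b2 / 12) b2 b4 b6 b8) (hG : GR v b2 b4 b6 b8) {a a' : ℂ} {N : ℕ}
    (hN : N ≠ 0) (ha : ∀ l ∈ L, a * l ∈ L) (ha' : ∀ l ∈ L, a' * l ∈ L) (haN : a * a' = N) (hva : v a < 1) :
    ∃ u : ℂ, u ∉ L ∧ a * u ∈ L ∧ E1 v L (fun z => r ^ 2 * wp L z - b2 / 12) u := by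
  classical
  by_contra hno
  push Not at hno
  have hN' : (N : ℂ) ≠ 0 := Nat.cast_ne_zero.2 hN
  have ha0 : a ≠ 0 := by
    rintro rfl
    rw [zero_mul] at haN
    exact hN' haN.symm
  obtain ⟨X, hXd⟩ : ∃ X : ℂ → ℂ, X = fun z => r ^ 2 * wp L z - b2 / 12 := ⟨_, rfl⟩
  rw [← hXd] at hX hno
  have hle : L ≤ sc a⁻¹ L := by
    intro l hl
    exact mem_sc.2 ⟨a * l, ha l hl, by rw [← mul_assoc, inv_mul_cancel₀ ha0, one_mul]⟩
  obtain ⟨S, hS⟩ := exists_reps hL (isLat_sc hL (inv_ne_zero ha0)) hle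
  have hSa : ∀ s ∈ S, a * s ∈ L := by
    intro s hs
    obtain ⟨l, hl, rfl⟩ := mem_sc.1 (hS.2.1 s hs)
    rw [← mul_assoc, mul_inv_cancel₀ ha0, one_mul]
    exact hl
  have hSL : ∀ s ∈ S.erase 0, s ∉ L := by
    intro s hs hsL
    have hs' := Finset.mem_erase.1 hs
    obtain ⟨t, -, ht⟩ := hS.2.2 s (hS.2.1 s hs'.2)
    apply hs'.1
    rw [ht s ⟨hs'.2, by rw [sub_self]; exact L.zero_mem⟩, ht 0 ⟨hS.1, by rw [sub_zero]; exact hsL⟩]
  have hSv : ∀ s ∈ S.erase 0, v (X s) ≤ 1 := by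
    intro s hs
    by_contra hc
    exact hno s (hSL s hs) (hSa s (Finset.mem_erase.1 hs).2) (Or.inr (not_le.1 hc))
  -- a point off the lattice of large prime order is not killed by a
  have hoff : ∀ (l : ℕ) (w : ℂ), l.Prime → N < l → w ∉ L → (l : ℂ) * w ∈ L → a * w ∉ L := by
    intro l w hl hNl hw hlw haw
    have h1 : (N : ℂ) * w ∈ L := by
      have h2 := ha' _ haw
      have e : a' * (a * w) = (N : ℂ) * w := by rw [← haN]; ring
      rwa [e] at h2
    have hcop : Nat.Coprime N l := by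
      rw [Nat.coprime_comm, Nat.Prime.coprime_iff_not_dvd hl]
      intro hd
      exact absurd (Nat.le_of_dvd (Nat.pos_of_ne_zero hN) hd) (not_le.2 hNl)
    have h3 : (1 : ℤ) = (N : ℤ) * Nat.gcdA N l + (l : ℤ) * Nat.gcdB N l := by
      have h4 := Nat.gcd_eq_gcd_ab N l
      rw [Nat.Coprime.gcd_eq_one hcop] at h4
      exact_mod_cast h4
    have h5 : w = (Nat.gcdA N l) • ((N : ℂ) * w) + (Nat.gcdB N l) • ((l : ℂ) * w) := by
      rw [zsmul_eq_mul, zsmul_eq_mul]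
      have h6 : (1 : ℂ) = (N : ℂ) * (Nat.gcdA N l : ℂ) + (l : ℂ) * (Nat.gcdB N l : ℂ) := by
        exact_mod_cast congrArg (Int.cast : ℤ → ℂ) h3
      linear_combination w * h6
    apply hw
    rw [h5]
    exact L.add_mem (L.smul_mem _ h1) (L.smul_mem _ hlw)
  obtain ⟨l, w, hl, hNl, hvl, hw, hlw, -⟩ := exists_tp_avoid hL hX hG ∅ N
  obtain ⟨l', z, hl', hNl', hvl', hz, hlz, hB⟩ := exists_tp_avoid hL hX hG
    ((S.erase 0).image X ∪ S.image (fun s => X (w + s))) N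
  have haw := hoff l w hl hNl hw hlw
  have haz := hoff l' z hl' hNl' hz hlz
  have hXz : v (X z) ≤ 1 := good_le hX (tp_good ⟨l', hvl', hlz⟩ hz)
  have hXaw : v (X (a * w)) ≤ 1 := good_le hX (tp_good ⟨l, hvl, by
    have e : (l : ℂ) * (a * w) = a * ((l : ℂ) * w) := by ring
    rw [e]
    exact ha _ hlw⟩ haw)
  have hXaz : v (X (a * z)) ≤ 1 := good_le hX (tp_good ⟨l', hvl', by
    have e : (l' : ℂ) * (a * z) = a * ((l' : ℂ) * z) := by ring
    rw [e]
    exact ha _ hlz⟩ haz)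
  have hwd := wp_diff_mul hL ha0 ha hS haz haw
  have e1 : ∀ p q : ℂ, X p - X q = r ^ 2 * (wp L p - wp L q) := by
    intro p q
    rw [hXd]
    ring
  have hcard : (S.erase 0).card + 1 = S.card := Finset.card_erase_add_one hS.1
  have hkey : a ^ 2 * (X (a * z) - X (a * w)) * ∏ s ∈ S.erase 0, (X z - X s) =
      ∏ s ∈ S, (X z - X (w + s)) := by
    have h1 : ∏ s ∈ S.erase 0, (X z - X s) =
        (r ^ 2) ^ (S.erase 0).card * ∏ s ∈ S.erase 0, (wp L z - wp L s) := by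
      rw [← Finset.prod_const, ← Finset.prod_mul_distrib]
      exact Finset.prod_congr rfl fun s _ => e1 z s
    have h2 : ∏ s ∈ S, (X z - X (w + s)) =
        (r ^ 2) ^ S.card * ∏ s ∈ S, (wp L z - wp L (w + s)) := by
      rw [← Finset.prod_const, ← Finset.prod_mul_distrib]
      exact Finset.prod_congr rfl fun s _ => e1 z (w + s)
    rw [h1, h2, e1, ← hwd, ← hcard, pow_succ]
    ring
  have hleft : v (a ^ 2 * (X (a * z) - X (a * w)) * ∏ s ∈ S.erase 0, (X z - X s)) < 1 := by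
    have h1 : v (∏ s ∈ S.erase 0, (X z - X s)) = 1 := by
      rw [map_prod]
      refine Finset.prod_eq_one fun s hs => ?_
      exact hB _ (Finset.mem_union_left _ (Finset.mem_image_of_mem _ hs)) (hSv s hs)
    have h2 : v (X (a * z) - X (a * w)) ≤ 1 := v.map_sub_le hXaz hXaw
    rw [map_mul, map_mul, h1, mul_one, map_pow]
    have h3 : v a ^ 2 < 1 := pow_lt_one' hva two_ne_zero
    calc v a ^ 2 * v (X (a * z) - X (a * w)) ≤ v a ^ 2 * 1 := mul_le_mul_right h2 _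
      _ = v a ^ 2 := mul_one _
      _ < 1 := h3
  have hright : 1 ≤ v (∏ s ∈ S, (X z - X (w + s))) := by
    rw [map_prod]
    refine Finset.one_le_prod' fun s hs => ?_
    by_cases hc : v (X (w + s)) ≤ 1
    · exact (hB _ (Finset.mem_union_right _ (Finset.mem_image_of_mem (fun s => X (w + s)) hs)) hc).ge
    · rw [red_far hXz (not_le.1 hc)]
      exact (not_le.1 hc).le
  rw [hkey] at hleft
  exact absurd hright (not_le.2 hleft)

end CMS
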