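import Mathlib
import Pool.Agent.Lib.CMS.VRed

/-!
# V3b: multiplicative reduction: first facts  (about 150 lines)

`b2 = 1`, `b4 = -72ε`, `b6 = -4ε`, `b8 = -ε-1296ε²` are in the maximal ideal except `b2`.  All four points `P, Q, P+Q, P-Q` off `L` with `v (X ·) ≤ 1`.  Then modulo the maximal ideal: `(X(P+Q) + X(P-Q))(XP-XQ)² = 2 XP XQ (XP+XQ) + XP XQ`, `X(P+Q) X(P-Q) (XP-XQ)² = (XP XQ)²`.
`m_sub` : if `v(XQ) < 1` clear.  If `v(XQ) = 1`: `X(P+Q)X(P-Q)(XP-XQ)²` is a unit, all factors have `v ≤ 1`.  `m_add` : the same relation.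
`m_mix` : `v(XP) < 1 = v(Xe)`, so `v(XP - Xe) = 1`; with `A = X(P+e)`, `B = X(P-e)`: `A + B` and `A B` are in the maximal ideal, `A² = A(A+B) - AB`.
`MCrd` is the structure used in the modules V3*.
-/

set_option autoImplicit false

namespace CMS

open Complex NumberField

variable {Γ : Type*} [LinearOrderedCommGroupWithZero Γ] {v : Valuation ℂ Γ} {L : Submodule ℤ ℂ} {X : ℂ → ℂ} {ε : ℂ}

/-- a coordinate of a model with multiplicative reduction -/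
structure MCrd (v : Valuation ℂ Γ) (L : Submodule ℤ ℂ) (X : ℂ → ℂ) (ε : ℂ) : Prop where
  crd : Crd v L X 1 (-72 * ε) (-4 * ε) (-ε - 1296 * ε ^ 2)
  eps : v ε < 1

private theorem v3_nat (n : ℕ) : v (n : ℂ) ≤ 1 :=
  (Valuation.mem_integer_iff v _).1 (natCast_mem v.integer n)

private theorem v3_add {a b : ℂ} (ha : v a ≤ 1) (hb : v b ≤ 1) : v (a + b) ≤ 1 :=
  (v.map_add a b).trans (max_le ha hb)

private theorem v3_mul {a b : ℂ} (ha : v a ≤ 1) (hb : v b ≤ 1) : v (a * b) ≤ 1 := by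
  rw [map_mul]
  exact mul_le_one' ha hb

private theorem v3_lt {a b : ℂ} (ha : v a < 1) (hb : v b ≤ 1) : v (a * b) < 1 := by
  rw [map_mul]
  exact mul_lt_one_of_lt_of_le ha hb

private theorem v3_prod (hX : MCrd v L X ε) {P Q : ℂ} (hP : P ∉ L) (hQ : Q ∉ L) (h1 : P + Q ∉ L)
    (h2 : P - Q ∉ L) (vP : v (X P) ≤ 1) (vQ : v (X Q) ≤ 1) :
    v (X (P + Q) * X (P - Q) * (X P - X Q) ^ 2 - (X P * X Q) ^ 2) < 1 := by
  have h3 : X (P + Q) * X (P - Q) * (X P - X Q) ^ 2 - (X P * X Q) ^ 2 =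
      ε * (((72 : ℕ) : ℂ) * (X P * X Q) + ((4 : ℕ) : ℂ) * (X P + X Q) + ((1 : ℕ) : ℂ) +
        ((1296 : ℕ) : ℂ) * ε) := by
    rw [hX.crd.prod P Q hP hQ h1 h2]
    push_cast
    ring
  rw [h3]
  exact v3_lt hX.eps (v3_add (v3_add (v3_add (v3_mul (v3_nat _) (v3_mul vP vQ))
    (v3_mul (v3_nat _) (v3_add vP vQ))) (v3_nat _)) (v3_mul (v3_nat _) hX.eps.le))

private theorem v3_sum (hX : MCrd v L X ε) {P Q : ℂ} (hP : P ∉ L) (hQ : Q ∉ L) (h1 : P + Q ∉ L)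
    (h2 : P - Q ∉ L) (vP : v (X P) ≤ 1) (vQ : v (X Q) ≤ 1) :
    v ((X (P + Q) + X (P - Q)) * (X P - X Q) ^ 2 -
      (X P * X Q * (((2 : ℕ) : ℂ) * (X P + X Q) + ((1 : ℕ) : ℂ)))) < 1 := by
  have h3 : (X (P + Q) + X (P - Q)) * (X P - X Q) ^ 2 -
      (X P * X Q * (((2 : ℕ) : ℂ) * (X P + X Q) + ((1 : ℕ) : ℂ))) =
      -(ε * (((72 : ℕ) : ℂ) * (X P + X Q) + ((4 : ℕ) : ℂ))) := by
    rw [hX.crd.sum P Q hP hQ h1 h2]
    push_cast
    ring
  rw [h3, Valuation.map_neg]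
  exact v3_lt hX.eps (v3_add (v3_mul (v3_nat _) (v3_add vP vQ)) (v3_nat _))

/-- an element close to a unit is a unit -/
private theorem v3_close {a b : ℂ} (h : v (a - b) < 1) (hb : v b = 1) : v a = 1 := by
  have h1 : a = b + (a - b) := by ring
  rw [h1, Valuation.map_add_eq_of_lt_left v (by rw [hb]; exact h), hb]

private theorem v3_close0 {a b : ℂ} (h : v (a - b) < 1) (hb : v b < 1) : v a < 1 := by
  have h1 : a = b + (a - b) := by ring
  rw [h1]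
  exact v.map_add_lt hb h

private theorem v3_unit {a b : ℂ} (ha : v a ≤ 1) (hb : v b ≤ 1) (h : v (a * b) = 1) :
    v a = 1 ∧ v b = 1 := by
  rw [map_mul] at h
  constructor
  · refine le_antisymm ha (not_lt.1 fun hlt => ?_)
    have := mul_lt_one_of_lt_of_le hlt hb
    rw [h] at this
    exact lt_irrefl _ this
  · refine le_antisymm hb (not_lt.1 fun hlt => ?_)
    have := mul_lt_one_of_lt_of_le hlt ha
    rw [mul_comm, h] at this
    exact lt_irrefl _ this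

private theorem v3_sub_le {a b : ℂ} (ha : v a ≤ 1) (hb : v b ≤ 1) : v (a - b) ≤ 1 :=
  (v.map_sub a b).trans (max_le ha hb)

private theorem v3_all (hX : MCrd v L X ε) {P Q : ℂ} (hP : P ∉ L) (hQ : Q ∉ L) (h1 : P + Q ∉ L)
    (h2 : P - Q ∉ L) (vP : v (X P) = 1) (vQ : v (X Q) = 1) (v1 : v (X (P + Q)) ≤ 1)
    (v2 : v (X (P - Q)) ≤ 1) :
    (v (X (P + Q)) = 1 ∧ v (X (P - Q)) = 1) ∧ v (X P - X Q) = 1 := by
  have h3 := v3_prod hX hP hQ h1 h2 vP.le vQ.le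
  have h4 : v ((X P * X Q) ^ 2) = 1 := by rw [map_pow, map_mul, vP, vQ, one_mul, one_pow]
  have h5 := v3_close h3 h4
  have h6 : v (X P - X Q) ≤ 1 := v3_sub_le vP.le vQ.le
  obtain ⟨h7, h8⟩ := v3_unit (v3_mul v1 v2) (by rw [pow_two]; exact v3_mul h6 h6) h5
  refine ⟨v3_unit v1 v2 h7, ?_⟩
  rw [pow_two] at h8
  exact (v3_unit h6 h6 h8).1

theorem m_sub (hX : MCrd v L X ε) {P Q : ℂ} (hP : P ∉ L) (hQ : Q ∉ L) (h1 : P + Q ∉ L) (h2 : P - Q ∉ L)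
    (vP : v (X P) = 1) (vQ : v (X Q) ≤ 1) (v1 : v (X (P + Q)) ≤ 1) (v2 : v (X (P - Q)) ≤ 1) : v (X P - X Q) = 1 := by
  rcases vQ.lt_or_eq with h | h
  · refine v3_close (b := X P) ?_ vP
    have h3 : X P - X Q - X P = -X Q := by ring
    rw [h3, Valuation.map_neg]
    exact h
  · exact (v3_all hX hP hQ h1 h2 vP h v1 v2).2

theorem m_add (hX : MCrd v L X ε) {P Q : ℂ} (hP : P ∉ L) (hQ : Q ∉ L) (h1 : P + Q ∉ L) (h2 : P - Q ∉ L)
    (vP : v (X P) = 1) (vQ : v (X Q) = 1) (v1 : v (X (P + Q)) ≤ 1) (v2 : v (X (P - Q)) ≤ 1) :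
    v (X (P + Q)) = 1 ∧ v (X (P - Q)) = 1 :=
  (v3_all hX hP hQ h1 h2 vP vQ v1 v2).1

theorem m_mix (hX : MCrd v L X ε) {P e : ℂ} (hP : P ∉ L) (he : e ∉ L) (h1 : P + e ∉ L) (h2 : P - e ∉ L)
    (vP : v (X P) < 1) (ve : v (X e) = 1) (v1 : v (X (P + e)) ≤ 1) (v2 : v (X (P - e)) ≤ 1) :
    v (X (P + e)) < 1 := by
  have h3 : v (X P - X e) = 1 := by
    refine v3_close (b := -X e) ?_ (by rw [Valuation.map_neg]; exact ve)
    have h4 : X P - X e - -X e = X P := by ring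
    rw [h4]
    exact vP
  have h5 : v ((X P - X e) ^ 2) = 1 := by rw [map_pow, h3, one_pow]
  have h6 : v (X (P + e) * X (P - e)) < 1 := by
    have h7 := v3_close0 (v3_prod hX hP he h1 h2 vP.le ve.le) (by
      rw [map_pow, map_mul, ve, mul_one]
      exact pow_lt_one₀ zero_le vP two_ne_zero)
    rw [map_mul, h5, mul_one] at h7
    exact h7
  have h8 : v (X (P + e) + X (P - e)) < 1 := by
    have h7 := v3_close0 (v3_sum hX hP he h1 h2 vP.le ve.le) (v3_lt (by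
      rw [map_mul, ve, mul_one]
      exact vP) (v3_add (v3_mul (v3_nat _) (v3_add vP.le ve.le)) (v3_nat _)))
    rw [map_mul, h5, mul_one] at h7
    exact h7
  have h9 : v (X (P + e) ^ 2) < 1 := by
    have h10 : X (P + e) ^ 2 = (X (P + e) + X (P - e)) * X (P + e) +
      -(X (P + e) * X (P - e)) := by ring
    rw [h10]
    refine v.map_add_lt (v3_lt h8 v1) ?_
    rw [Valuation.map_neg]
    exact h6
  rw [map_pow] at h9
  by_contra hcon
  have h11 : v (X (P + e)) = 1 := le_antisymm v1 (not_lt.1 hcon)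
  rw [h11, one_pow] at h9
  exact lt_irrefl _ h9

/-- the product relation modulo the maximal ideal -/
theorem m_prod (hX : MCrd v L X ε) {P Q : ℂ} (hP : P ∉ L) (hQ : Q ∉ L) (h1 : P + Q ∉ L) (h2 : P - Q ∉ L)
    (vP : v (X P) ≤ 1) (vQ : v (X Q) ≤ 1) : v (X (P + Q) * X (P - Q) * (X P - X Q) ^ 2 - (X P * X Q) ^ 2) < 1 :=
  v3_prod hX hP hQ h1 h2 vP vQ

/-- the duplication relation modulo the maximal ideal -/
theorem m_dup (hX : MCrd v L X ε) {P : ℂ} (hP : P ∉ L) (h2 : P + P ∉ L) (vP : v (X P) ≤ 1) (v2 : v (X (P + P)) ≤ 1) :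
    v (X (P + P) * (X P ^ 2 * (4 * X P + 1)) - X P ^ 4) < 1 := by
  have h3 := hX.crd.dup P hP h2
  have h4 : X (P + P) * (X P ^ 2 * (4 * X P + 1)) - X P ^ 4 =
      ε * (X (P + P) * (((144 : ℕ) : ℂ) * X P + ((4 : ℕ) : ℂ)) + ((72 : ℕ) : ℂ) * (X P * X P) +
        ((8 : ℕ) : ℂ) * X P + ((1 : ℕ) : ℂ) + ((1296 : ℕ) : ℂ) * ε) := by
    push_cast
    linear_combination h3
  rw [h4]
  exact v3_lt hX.eps (v3_add (v3_add (v3_add (v3_add (v3_mul v2 (v3_add (v3_mul (v3_nat _) vP)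
    (v3_nat _))) (v3_mul (v3_nat _) (v3_mul vP vP))) (v3_mul (v3_nat _) vP)) (v3_nat _))
    (v3_mul (v3_nat _) hX.eps.le))

end CMS
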