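import Mathlib
import Pool.Agent.Lib.CMS.V3b

/-!
# V3c: multiplicative reduction: chains  (about 230 lines)

`FF s = s/(1-s)²`.  Identities: `FF(s) - FF(t) = (s-t)(1-st)/((1-s)²(1-t)²)`, `FF(st) FF(s/t) (FF s - FF t)² = (FF s FF t)²`, `4 FF(s) + 1 = (1+s)²/(1-s)²`, `FF(s)²/(4FF(s)+1) = FF(s²)`.
`chain` by (strong) induction on `j`.  `j = 1`: hypothesis.  `j = 2`: if `2P ∈ L`: `dup0`: `X²(4X+1)` is in the maximal ideal, `X ≡ FF σ` is a unit, so `4 FF(σ) + 1` is in it; but `v(1-σ²) = 1` (`n ≥ 2`) gives `v(1+σ) = 1`.  So `2P ∉ L`, and from the relation `dup` : `X(2P) (X²(4X+1) + small) = X⁴ + small` with `X²(4X+1)` a unit: `X(2P) ≡ FF(σ²)`.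
`j → j+1`, `j ≥ 2`: points `jP, P`.  `(j-1)P ∉ L` (induction).  `(j+1)P ∉ L`: otherwise `X(jP) = X(-P) = X(P)`, but `FF(σ^j) - FF(σ) = σ(σ^{j-1}-1)(1-σ^{j+1})/(..)` is a unit (`v(1-σ^{j-1}) = v(1-σ^{j+1}) = 1`).  `prod` relation: `X((j+1)P) · X((j-1)P)(X(jP)-X(P))² = (X(jP)X(P))² + small`; the factor is a unit; so `X((j+1)P) ≡ (FF(σ^j)FF(σ))²/(FF(σ^{j-1})(FF(σ^j)-FF(σ))²) = FF(σ^{j+1})`.
`exists_sigma` : `v x = 1`: choose `σ` with `x(1-σ)² = σ` (quadratic equation with roots `σ, σ⁻¹`); `σ + σ⁻¹ = 2 + 1/x` is integral, so `σ, σ⁻¹` are integral (`v σ > 1` impossible), `v σ = 1`, and `v(1-σ)² = v σ/v x = 1`.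
`tor_sigma` : `u` a point off `L`, `l u ∈ L`, `l` an odd prime with `v l = 1`, `v(X u) = 1`, `X u = FF σ`.  Then `v(1-σ^l) < 1` and `v(1-σ^j) = 1` for `1 ≤ j < l`.  Let `n+1` be the smallest exponent with `v(1-σ^{n+1}) < 1` (it exists and is `≤ l`, otherwise `chain` for `n = l` gives `l u ∉ L`).  Suppose `n + 1 < l`.  All `j u`, `1 ≤ j < l`, are off `L` and good, `v(X(ju)) ≤ 1`.  `n ≥ 2`: `chain` for `j ≤ n`, `FF(σ^n) - FF(σ)` is in the maximal ideal (factor `1 - σ^{n+1}`), so `m_prod` for `(nu, u)`: the left product is in it, but `(X(nu)X(u))²` is a unit: contradiction.  `n = 1`: `m_dup`: `4X+1 ≡ (1+σ)²/(1-σ)²`, `1 - σ²` and so `1 + σ` in the maximal ideal, but `X⁴` is a unit.  So `n + 1 = l`.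
-/

set_option autoImplicit false

namespace CMS

open Complex NumberField

variable {Γ : Type*} [LinearOrderedCommGroupWithZero Γ] {v : Valuation ℂ Γ} {L : Submodule ℤ ℂ} {X : ℂ → ℂ} {ε : ℂ}

/-- the coordinate `s/(1-s)²` of the multiplicative group -/
noncomputable def FF (s : ℂ) : ℂ := s / (1 - s) ^ 2

private theorem c_mul_lt {a b : Γ} (ha : a ≤ 1) (hb : b < 1) : a * b < 1 :=
  (mul_le_of_le_one_left' ha).trans_lt hb

/-- the maximal ideal of the ring of integers of `v` -/
private def c_m (v : Valuation ℂ Γ) : Ideal v.integer where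
  carrier := {x | v (x : ℂ) < 1}
  add_mem' := by
    intro a b ha hb
    exact Valuation.map_add_lt v ha hb
  zero_mem' := by
    show v ((0 : v.integer) : ℂ) < 1
    simp
  smul_mem' := by
    intro c x hx
    show v ((c : ℂ) * (x : ℂ)) < 1
    rw [map_mul]
    exact c_mul_lt c.2 hx

private theorem c_dom (v : Valuation ℂ Γ) :
    ∃ (κ : Type) (_ : CommRing κ) (_ : IsDomain κ) (red : v.integer →+* κ),
      ∀ x, red x = 0 ↔ v (x : ℂ) < 1 := by
  have hp : (c_m v).IsPrime := by
    constructor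
    · intro h
      have h1 : (1 : v.integer) ∈ c_m v := by rw [h]; trivial
      have h2 : v ((1 : v.integer) : ℂ) < 1 := h1
      simp at h2
    · intro x y hxy
      by_contra hcon
      push Not at hcon
      have h1 : v (x : ℂ) = 1 := le_antisymm x.2 (not_lt.1 fun h => hcon.1 h)
      have h2 : v (y : ℂ) = 1 := le_antisymm y.2 (not_lt.1 fun h => hcon.2 h)
      have h3 : v ((x : ℂ) * (y : ℂ)) < 1 := hxy
      rw [map_mul, h1, h2, mul_one] at h3
      exact lt_irrefl _ h3
  refine ⟨v.integer ⧸ c_m v, inferInstance, Ideal.Quotient.isDomain _, Ideal.Quotient.mk _, ?_⟩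
  intro x
  rw [Ideal.Quotient.eq_zero_iff_mem]
  rfl

private theorem c_ne {v : Valuation ℂ Γ} {x : ℂ} (h : v x = 1) : x ≠ 0 := by
  rintro rfl
  rw [map_zero] at h
  exact zero_ne_one h

private theorem c_nat (v : Valuation ℂ Γ) (n : ℕ) : v (n : ℂ) ≤ 1 := by
  induction n with
  | zero => simp
  | succ n ih =>
    push_cast
    exact (v.map_add _ _).trans (max_le ih (by simp))

private theorem c_FF {σ : ℂ} (hσ : v σ = 1) (h1 : v (1 - σ) = 1) : v (FF σ) = 1 := by
  unfold FF
  rw [map_div₀, map_pow, h1, hσ]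
  simp

private theorem c_near {x y : ℂ} (h : v (x - y) < 1) (hy : v y = 1) : v x = 1 := by
  have : x = (x - y) + y := by ring
  rw [this, Valuation.map_add_eq_of_lt_right v (by rw [hy]; exact h), hy]

private theorem c_pow {σ : ℂ} (hσ : v σ = 1) (j : ℕ) : v (σ ^ j) = 1 := by
  rw [map_pow, hσ, one_pow]

private theorem c_le {σ : ℂ} (hσ : v σ = 1) (j : ℕ) : v (1 - σ ^ j) ≤ 1 := by
  refine (v.map_sub _ _).trans (max_le (by simp) ?_)
  rw [c_pow hσ]

/-- difference formula -/
private theorem c_diff {s t : ℂ} (hs : 1 - s ≠ 0) (ht : 1 - t ≠ 0) :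
    FF s - FF t = (s - t) * (1 - s * t) / ((1 - s) ^ 2 * (1 - t) ^ 2) := by
  unfold FF
  field_simp
  ring

private theorem c_prodF {a σ : ℂ} (h0 : 1 - σ ≠ 0) (h1 : 1 - a ≠ 0) (h2 : 1 - a * σ ≠ 0)
    (h3 : 1 - a * σ * σ ≠ 0) :
    FF (a * σ * σ) * FF a * (FF (a * σ) - FF σ) ^ 2 = (FF (a * σ) * FF σ) ^ 2 := by
  rw [c_diff h2 h0]
  unfold FF
  have h4 : a * σ - σ = - (σ * (1 - a)) := by ring
  have h5 : 1 - a * σ ^ 2 ≠ 0 := by
    have : 1 - a * σ ^ 2 = 1 - a * σ * σ := by ring
    rw [this]; exact h3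
  rw [h4]
  field_simp
  try ring

private theorem c_four {σ : ℂ} (h0 : 1 - σ ≠ 0) : 4 * FF σ + 1 = (1 + σ) ^ 2 / (1 - σ) ^ 2 := by
  unfold FF
  field_simp
  ring

private theorem c_dupF {σ : ℂ} (h0 : 1 - σ ≠ 0) (h1 : 1 - σ ^ 2 ≠ 0) :
    FF (σ ^ 2) * (FF σ ^ 2 * (4 * FF σ + 1)) = FF σ ^ 4 := by
  rw [c_four h0]
  unfold FF
  have h2 : 1 + σ ≠ 0 := by
    intro h
    apply h1
    have : 1 - σ ^ 2 = (1 - σ) * (1 + σ) := by ring
    rw [this, h, mul_zero]
  have h3 : 1 - σ ^ 2 = (1 - σ) * (1 + σ) := by ring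
  rw [h3]
  field_simp

private theorem c_one_add {σ : ℂ} (h1 : v (1 - σ) = 1) : v (1 + σ) = v (1 - σ ^ 2) := by
  have : 1 - σ ^ 2 = (1 - σ) * (1 + σ) := by ring
  rw [this, map_mul, h1, one_mul]

theorem chain (hX : MCrd v L X ε) {P σ : ℂ} (hσ : v σ = 1) (hP : P ∉ L) (h1 : v (X P - FF σ) < 1) {n : ℕ}
    (hn : ∀ j : ℕ, 1 ≤ j → j ≤ n → v (1 - σ ^ j) = 1) {j : ℕ} (hj : 1 ≤ j) (hjn : j ≤ n) :
    (j : ℂ) * P ∉ L ∧ v (X ((j : ℂ) * P) - FF (σ ^ j)) < 1 := by
  obtain ⟨κ, _, _, red, hred⟩ := c_dom v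
  have hs1 : v (1 - σ) = 1 := by
    have := hn 1 le_rfl (hj.trans hjn)
    rwa [pow_one] at this
  have hFs : v (FF σ) = 1 := c_FF hσ hs1
  have hXP : v (X P) = 1 := c_near h1 hFs
  have hs0 : 1 - σ ≠ 0 := c_ne hs1
  induction j using Nat.strong_induction_on with
  | _ j ih =>
    rcases Nat.lt_or_ge j 2 with hj2 | hj2
    · have : j = 1 := by omega
      subst this
      simpa using ⟨hP, h1⟩
    rcases Nat.lt_or_ge j 3 with hj3 | hj3
    · have : j = 2 := by omega
      subst this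
      have h2 : v (1 - σ ^ 2) = 1 := hn 2 (by omega) hjn
      have hs3 : v (1 + σ) = 1 := by rw [c_one_add hs1, h2]
      have h4F : v (4 * FF σ + 1) = 1 := by
        rw [c_four hs0, map_div₀, map_pow, map_pow, hs3, hs1]; simp
      have h4X : v (4 * X P + 1) = 1 := by
        refine c_near (y := 4 * FF σ + 1) ?_ h4F
        have : 4 * X P + 1 - (4 * FF σ + 1) = ((4 : ℕ) : ℂ) * (X P - FF σ) := by push_cast; ring
        rw [this, map_mul]
        exact c_mul_lt (c_nat v 4) h1
      have hsmall : v (144 * ε * X P + 4 * ε) < 1 := by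
        have e1 : v (144 * ε * X P) < 1 := by
          rw [map_mul, map_mul, hXP, mul_one]
          have := c_nat v 144
          push_cast at this
          exact c_mul_lt this hX.eps
        have e2 : v (4 * ε) < 1 := by
          rw [map_mul]
          have := c_nat v 4
          push_cast at this
          exact c_mul_lt this hX.eps
        exact Valuation.map_add_lt v e1 e2
      have hunit : v (X P ^ 2 * (4 * X P + 1)) = 1 := by
        rw [map_mul, map_pow, hXP, h4X]; simp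
      have hden : v (4 * X P ^ 3 + 1 * X P ^ 2 + 2 * (-72 * ε) * X P + (-4 * ε)) = 1 := by
        refine c_near (y := X P ^ 2 * (4 * X P + 1)) ?_ hunit
        have : 4 * X P ^ 3 + 1 * X P ^ 2 + 2 * (-72 * ε) * X P + (-4 * ε) - X P ^ 2 * (4 * X P + 1)
            = -(144 * ε * X P + 4 * ε) := by ring
        rw [this, Valuation.map_neg]
        exact hsmall
      have h2L : P + P ∉ L := by
        intro h
        have := hX.crd.dup0 P hP h
        rw [this, map_zero] at hden
        exact zero_ne_one hden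
      have e2P : ((2 : ℕ) : ℂ) * P = P + P := by push_cast; ring
      rw [e2P]
      refine ⟨h2L, ?_⟩
      have hv2 : v (X (P + P)) ≤ 1 := by
        have h3 := hX.crd.dup P hP h2L
        have h4 := congrArg v h3
        rw [map_mul, hden, mul_one] at h4
        rw [h4]
        have o1 : v (X P ^ 4) ≤ 1 := by rw [map_pow, hXP, one_pow]
        have o2 : v (-72 * ε * X P ^ 2) ≤ 1 := by
          rw [map_mul]; exact mul_le_one' hX.crd.hb4 (by rw [map_pow, hXP, one_pow])
        have o3 : v (2 * (-4 * ε) * X P) ≤ 1 := by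
          rw [map_mul, map_mul, hXP, mul_one]
          have := c_nat v 2
          push_cast at this
          exact mul_le_one' this hX.crd.hb6
        exact (v.map_sub _ _).trans (max_le ((v.map_sub _ _).trans
          (max_le ((v.map_sub _ _).trans (max_le o1 o2)) o3)) hX.crd.hb8)
      have hm := m_dup hX hP h2L hXP.le hv2
      -- reduce
      have hF2 : v (FF (σ ^ 2)) = 1 := c_FF (c_pow hσ 2) h2
      have hid := c_dupF hs0 (c_ne h2)
      let x : v.integer := ⟨X P, hXP.le⟩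
      let y : v.integer := ⟨X (P + P), hv2⟩
      let f : v.integer := ⟨FF σ, hFs.le⟩
      let g : v.integer := ⟨FF (σ ^ 2), hF2.le⟩
      have h44 : ((4 : v.integer) : ℂ) = 4 := rfl
      have r1 : red (y * (x ^ 2 * (4 * x + 1)) - x ^ 4) = 0 := (hred _).2 (by
        simpa [x, y, h44] using hm)
      have r2 : red (x - f) = 0 := (hred _).2 h1
      have r3 : g * (f ^ 2 * (4 * f + 1)) = f ^ 4 := by
        apply Subtype.ext
        simpa [g, f, h44] using hid
      have r4 : red (x ^ 2 * (4 * x + 1)) ≠ 0 := by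
        rw [Ne, hred]
        have : v (X P ^ 2 * (4 * X P + 1)) = 1 := hunit
        have h5 : v (((x ^ 2 * (4 * x + 1) : v.integer)) : ℂ) = 1 := by simpa [x, h44] using hunit
        rw [h5]
        exact lt_irrefl _
      have r3' := congrArg red r3
      have r5 : red x = red f := by rwa [map_sub, sub_eq_zero] at r2
      simp only [map_sub, map_mul, map_pow, map_add, map_one, map_ofNat] at r1 r3' r4
      rw [← r5] at r3'
      have r6 : red y = red g := by
        refine mul_right_cancel₀ r4 ?_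
        rw [sub_eq_zero] at r1
        rw [r1, r3']
      have r7 : red (y - g) = 0 := by rw [map_sub, r6, sub_self]
      exact (hred _).1 r7
    · -- `j ≥ 3`: points `(j-1) P` and `P`
      obtain ⟨i, rfl⟩ : ∃ i, j = i + 2 := ⟨j - 2, by omega⟩
      have hi1 : 1 ≤ i := by omega
      obtain ⟨hA, hA'⟩ := ih (i + 1) (by omega) (by omega) (by omega)
      obtain ⟨hD, hD'⟩ := ih i (by omega) (by omega) (by omega)
      have va : v (1 - σ ^ i) = 1 := hn i (by omega) (by omega)
      have vb : v (1 - σ ^ (i + 1)) = 1 := hn (i + 1) (by omega) (by omega)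
      have vc : v (1 - σ ^ (i + 2)) = 1 := hn (i + 2) (by omega) (by omega)
      have eb : σ ^ (i + 1) = σ ^ i * σ := pow_succ _ _
      have ec : σ ^ (i + 2) = σ ^ i * σ * σ := by rw [pow_succ, pow_succ]
      have fa : v (FF (σ ^ i)) = 1 := c_FF (c_pow hσ _) va
      have fb : v (FF (σ ^ (i + 1))) = 1 := c_FF (c_pow hσ _) vb
      have fc : v (FF (σ ^ (i + 2))) = 1 := c_FF (c_pow hσ _) vc
      have hXA : v (X (((i + 1 : ℕ) : ℂ) * P)) = 1 := c_near hA' fb
      have hXD : v (X ((i : ℂ) * P)) = 1 := c_near hD' fa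
      have hdF : v (FF (σ ^ (i + 1)) - FF σ) = 1 := by
        rw [c_diff (c_ne vb) hs0, map_div₀, map_mul, map_mul, map_pow, map_pow, vb, hs1]
        have e1 : σ ^ (i + 1) - σ = -(σ * (1 - σ ^ i)) := by rw [eb]; ring
        have e2 : 1 - σ ^ (i + 1) * σ = 1 - σ ^ (i + 2) := by rw [eb, ec]
        rw [e1, e2, Valuation.map_neg, map_mul, hσ, va, vc]
        simp
      have hdX : v (X (((i + 1 : ℕ) : ℂ) * P) - X P) = 1 := by
        refine c_near (y := FF (σ ^ (i + 1)) - FF σ) ?_ hdF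
        have : X (((i + 1 : ℕ) : ℂ) * P) - X P - (FF (σ ^ (i + 1)) - FF σ) =
          (X (((i + 1 : ℕ) : ℂ) * P) - FF (σ ^ (i + 1))) - (X P - FF σ) := by ring
        rw [this]
        exact lt_of_le_of_lt (v.map_sub _ _) (max_lt hA' h1)
      have eplus : ((i + 1 : ℕ) : ℂ) * P + P = ((i + 2 : ℕ) : ℂ) * P := by push_cast; ring
      have eminus : ((i + 1 : ℕ) : ℂ) * P - P = (i : ℂ) * P := by push_cast; ring
      have hCL : ((i + 2 : ℕ) : ℂ) * P ∉ L := by
        intro h
        have h5 : X (-P + ((i + 2 : ℕ) : ℂ) * P) = X (-P) := hX.crd.per _ _ h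
        have h6 : -P + ((i + 2 : ℕ) : ℂ) * P = ((i + 1 : ℕ) : ℂ) * P := by push_cast; ring
        rw [h6, hX.crd.even] at h5
        rw [h5, sub_self, map_zero] at hdX
        exact zero_ne_one hdX
      refine ⟨hCL, ?_⟩
      have hm := m_prod hX hA hP (by rw [eplus]; exact hCL) (by rw [eminus]; exact hD) hXA.le hXP.le
      rw [eplus, eminus] at hm
      have hAB : v ((X (((i + 1 : ℕ) : ℂ) * P) * X P) ^ 2) = 1 := by
        rw [map_pow, map_mul, hXA, hXP]; simp
      have hC1 : v (X (((i + 2 : ℕ) : ℂ) * P)) = 1 := by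
        have h7 := c_near hm hAB
        rw [map_mul, map_mul, map_pow, hXD, hdX] at h7
        simpa using h7
      have hid := c_prodF (a := σ ^ i) hs0 (c_ne va) (by rw [← eb]; exact c_ne vb)
        (by rw [← ec]; exact c_ne vc)
      rw [← ec, ← eb] at hid
      let a : v.integer := ⟨X (((i + 1 : ℕ) : ℂ) * P), hXA.le⟩
      let b : v.integer := ⟨X P, hXP.le⟩
      let c : v.integer := ⟨X (((i + 2 : ℕ) : ℂ) * P), hC1.le⟩
      let d : v.integer := ⟨X ((i : ℂ) * P), hXD.le⟩
      let a' : v.integer := ⟨FF (σ ^ (i + 1)), fb.le⟩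
      let b' : v.integer := ⟨FF σ, hFs.le⟩
      let c' : v.integer := ⟨FF (σ ^ (i + 2)), fc.le⟩
      let d' : v.integer := ⟨FF (σ ^ i), fa.le⟩
      have r1 : red (c * d * (a - b) ^ 2 - (a * b) ^ 2) = 0 := (hred _).2 hm
      have ra : red (a - a') = 0 := (hred _).2 hA'
      have rb : red (b - b') = 0 := (hred _).2 h1
      have rd : red (d - d') = 0 := (hred _).2 hD'
      have r3 : c' * d' * (a' - b') ^ 2 = (a' * b') ^ 2 := Subtype.ext hid
      have r4 : red (d * (a - b) ^ 2) ≠ 0 := by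
        rw [Ne, hred]
        have h5 : v (((d * (a - b) ^ 2 : v.integer)) : ℂ) = 1 := by
          show v (X ((i : ℂ) * P) * (X (((i + 1 : ℕ) : ℂ) * P) - X P) ^ 2) = 1
          rw [map_mul, map_pow, hXD, hdX]; simp
        rw [h5]
        exact lt_irrefl _
      have r3' := congrArg red r3
      rw [map_sub, sub_eq_zero] at ra rb rd
      simp only [map_sub, map_mul, map_pow] at r1 r3' r4
      rw [← ra, ← rb, ← rd] at r3'
      have r6 : red c = red c' := by
        refine mul_right_cancel₀ r4 ?_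
        rw [sub_eq_zero] at r1
        rw [← mul_assoc, r1, ← r3', mul_assoc]
      have r7 : red (c - c') = 0 := by rw [map_sub, r6, sub_self]
      exact (hred _).1 r7

theorem exists_sigma (v : Valuation ℂ Γ) {x : ℂ} (hx : v x = 1) : ∃ σ : ℂ, v σ = 1 ∧ v (1 - σ) = 1 ∧ FF σ = x := by
  have hx0 : x ≠ 0 := c_ne hx
  obtain ⟨w, hw⟩ := IsAlgClosed.exists_pow_nat_eq (4 * x + 1) (n := 2) (by norm_num)
  have hσ : ∃ σ : ℂ, x * (1 - σ) ^ 2 = σ := by
    refine ⟨((2 * x + 1) + w) / (2 * x), ?_⟩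
    have h1 : 1 - ((2 * x + 1) + w) / (2 * x) = -(1 + w) / (2 * x) := by
      field_simp
      ring
    rw [h1]
    have h2 : (1 + w) ^ 2 = 2 * (2 * x + 1 + w) := by
      have : (1 + w) ^ 2 = 1 + 2 * w + w ^ 2 := by ring
      rw [this, hw]; ring
    rw [div_pow, neg_sq, h2]
    field_simp
  obtain ⟨σ, hσ⟩ := hσ
  have h2x : v (2 * x + 1) ≤ 1 := by
    refine (v.map_add _ _).trans (max_le ?_ (by simp))
    rw [map_mul, hx, mul_one]
    have := c_nat v 2
    push_cast at this
    exact this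
  have hv : v σ = 1 := by
    refine le_antisymm (not_lt.1 fun h => ?_) (not_lt.1 fun h => ?_)
    · have e : x * σ ^ 2 = (2 * x + 1) * σ - x := by
        have : x * (1 - σ) ^ 2 = x - 2 * x * σ + x * σ ^ 2 := by ring
        rw [this] at hσ
        linear_combination hσ
      have h3 := congrArg v e
      rw [map_mul, map_pow, hx, one_mul] at h3
      have h4 : v ((2 * x + 1) * σ - x) ≤ v σ := by
        refine (v.map_sub _ _).trans (max_le ?_ ?_)
        · rw [map_mul]
          exact mul_le_of_le_one_left' h2x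
        · rw [hx]; exact h.le
      rw [← h3, sq] at h4
      have h5 : v σ < v σ * v σ := by
        have h0 : (0 : Γ) < v σ := lt_trans zero_lt_one h
        calc v σ = v σ * 1 := (mul_one _).symm
          _ < v σ * v σ := mul_lt_mul_of_pos_left h h0
      exact absurd h4 (not_le.2 h5)
    · have e : x = (2 * x + 1) * σ - x * σ ^ 2 := by
        have : x * (1 - σ) ^ 2 = x - 2 * x * σ + x * σ ^ 2 := by ring
        rw [this] at hσ
        linear_combination hσ
      have h4 : v ((2 * x + 1) * σ - x * σ ^ 2) < 1 := by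
        refine lt_of_le_of_lt (v.map_sub _ _) (max_lt ?_ ?_)
        · rw [map_mul]
          exact c_mul_lt h2x h
        · rw [map_mul, hx, one_mul, map_pow, sq]
          exact c_mul_lt h.le h
      rw [← e, hx] at h4
      exact lt_irrefl _ h4
  have h1 : v (1 - σ) = 1 := by
    have h3 := congrArg v hσ
    rw [map_mul, hx, one_mul, hv, map_pow] at h3
    have h6 : v (1 - σ) ≤ 1 := by
      have := c_le hv 1
      rwa [pow_one] at this
    refine le_antisymm h6 (not_lt.1 fun h7 => ?_)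
    have h8 : v (1 - σ) ^ 2 < 1 := by
      rw [sq]
      exact c_mul_lt h6 h7
    rw [h3] at h8
    exact lt_irrefl _ h8
  refine ⟨σ, hv, h1, ?_⟩
  have h0 : 1 - σ ≠ 0 := c_ne h1
  unfold FF
  rw [div_eq_iff (pow_ne_zero 2 h0)]
  exact hσ.symm

theorem tor_sigma (hX : MCrd v L X ε) {u σ : ℂ} {l : ℕ} (hl : l.Prime) (hl2 : l ≠ 2) (hvl : v (l : ℂ) = 1) (hu : u ∉ L)
    (hlu : (l : ℂ) * u ∈ L) (hσ : v σ = 1) (hσ1 : v (1 - σ) = 1) (h : X u = FF σ) :
    v (1 - σ ^ l) < 1 ∧ ∀ j : ℕ, 1 ≤ j → j < l → v (1 - σ ^ j) = 1 := by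
  classical
  have hl3 : 3 ≤ l := by
    have := hl.two_le
    omega
  have hoff : ∀ j : ℕ, 1 ≤ j → j < l → (j : ℂ) * u ∉ L := by
    intro j hj hjl hcon
    have hcop : IsCoprime (j : ℤ) (l : ℤ) := by
      rw [Nat.isCoprime_iff_coprime]
      exact (Nat.coprime_of_lt_prime (by omega) hjl hl).symm
    obtain ⟨a, b, hab⟩ := hcop
    apply hu
    have e : u = a • ((j : ℂ) * u) + b • ((l : ℂ) * u) := by
      have h1 : ((a : ℂ) * j + b * l) = 1 := by exact_mod_cast congrArg (Int.cast : ℤ → ℂ) hab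
      rw [zsmul_eq_mul, zsmul_eq_mul]
      calc u = ((a : ℂ) * j + b * l) * u := by rw [h1, one_mul]
        _ = _ := by ring
    rw [e]
    exact add_mem (Submodule.smul_mem _ _ hcon) (Submodule.smul_mem _ _ hlu)
  have hle : ∀ j : ℕ, 1 ≤ j → j < l → v (X ((j : ℂ) * u)) ≤ 1 := by
    intro j hj hjl
    refine good_le hX.crd (tp_good ⟨l, hvl, ?_⟩ (hoff j hj hjl))
    have e : (l : ℂ) * ((j : ℂ) * u) = (j : ℤ) • ((l : ℂ) * u) := by
      rw [zsmul_eq_mul]; push_cast; ring
    rw [e]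
    exact Submodule.smul_mem _ _ hlu
  have hFs : v (FF σ) = 1 := c_FF hσ hσ1
  have hXu : v (X u) = 1 := by rw [h, hFs]
  have hzero : v (X u - FF σ) < 1 := by rw [h, sub_self, map_zero]; exact zero_lt_one
  have hex : ∃ e : ℕ, 1 ≤ e ∧ v (1 - σ ^ e) < 1 := by
    by_contra hcon
    push Not at hcon
    have h1 := (chain hX hσ hu hzero (n := l) (fun j hj _ => le_antisymm (c_le hσ j) (hcon j hj))
      (j := l) (by omega) le_rfl).1
    exact h1 hlu
  obtain ⟨he1, he⟩ := Nat.find_spec hex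
  have hmin : ∀ m : ℕ, 1 ≤ m → m < Nat.find hex → v (1 - σ ^ m) = 1 := by
    intro m hm hml
    have := Nat.find_min hex hml
    push Not at this
    exact le_antisymm (c_le hσ m) (this hm)
  have hel : Nat.find hex ≤ l := by
    by_contra hcon
    have h1 := (chain hX hσ hu hzero (n := l) (fun j hj hjl => hmin j hj (by omega))
      (j := l) (by omega) le_rfl).1
    exact h1 hlu
  have hlast : ¬ Nat.find hex < l := by
    intro hlt
    have he2 : 2 ≤ Nat.find hex := by
      by_contra hcon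
      have h1 : Nat.find hex = 1 := by omega
      rw [h1, pow_one, hσ1] at he
      exact lt_irrefl _ he
    obtain ⟨n, hn⟩ : ∃ n, Nat.find hex = n + 1 := ⟨Nat.find hex - 1, by omega⟩
    rw [hn] at he he2 hlt hmin
    rcases Nat.lt_or_ge n 2 with hn2 | hn2
    · have : n = 1 := by omega
      subst this
      have e2 : ((2 : ℕ) : ℂ) * u = u + u := by push_cast; ring
      have h2L : u + u ∉ L := by rw [← e2]; exact hoff 2 (by omega) (by omega)
      have hv2 : v (X (u + u)) ≤ 1 := by rw [← e2]; exact hle 2 (by omega) (by omega)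
      have hm := m_dup hX hu h2L hXu.le hv2
      have h4 : v (4 * X u + 1) < 1 := by
        rw [h, c_four (c_ne hσ1), map_div₀, map_pow, map_pow, hσ1, c_one_add hσ1]
        have h5 : v (1 - σ ^ 2) < 1 := he
        rw [one_pow, div_one, sq]
        exact c_mul_lt h5.le h5
      have h6 : v (X (u + u) * (X u ^ 2 * (4 * X u + 1))) < 1 := by
        rw [map_mul, map_mul, map_pow, hXu, one_pow, one_mul]
        exact c_mul_lt hv2 h4
      have h7 : v (X u ^ 4) < 1 := by
        have e : X u ^ 4 = X (u + u) * (X u ^ 2 * (4 * X u + 1)) -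
          (X (u + u) * (X u ^ 2 * (4 * X u + 1)) - X u ^ 4) := by ring
        rw [e]
        exact lt_of_le_of_lt (v.map_sub _ _) (max_lt h6 hm)
      rw [map_pow, hXu, one_pow] at h7
      exact lt_irrefl _ h7
    · obtain ⟨hn0, hn1⟩ := chain hX hσ hu hzero (n := n) (fun j hj hjn => hmin j hj (by omega))
        (j := n) (by omega) le_rfl
      have vn : v (1 - σ ^ n) = 1 := hmin n (by omega) (by omega)
      have fn : v (FF (σ ^ n)) = 1 := c_FF (c_pow hσ n) vn
      have hXn : v (X ((n : ℂ) * u)) = 1 := c_near hn1 fn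
      have eplus : (n : ℂ) * u + u = ((n + 1 : ℕ) : ℂ) * u := by push_cast; ring
      have eminus : (n : ℂ) * u - u = ((n - 1 : ℕ) : ℂ) * u := by
        rw [Nat.cast_sub (by omega)]; push_cast; ring
      have hm := m_prod hX hn0 hu (by rw [eplus]; exact hoff _ (by omega) hlt)
        (by rw [eminus]; exact hoff _ (by omega) (by omega)) hXn.le hXu.le
      have hdF : v (FF (σ ^ n) - FF σ) < 1 := by
        rw [c_diff (c_ne vn) (c_ne hσ1), map_div₀, map_mul, map_mul, map_pow, map_pow, vn, hσ1]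
        have e2 : 1 - σ ^ n * σ = 1 - σ ^ (n + 1) := by rw [pow_succ]
        have e3 : v (σ ^ n - σ) ≤ 1 :=
          (v.map_sub _ _).trans (max_le (c_pow hσ n).le hσ.le)
        rw [e2]
        simp only [one_pow, mul_one, div_one]
        exact c_mul_lt e3 he
      have hdX : v (X ((n : ℂ) * u) - X u) < 1 := by
        have : X ((n : ℂ) * u) - X u = (X ((n : ℂ) * u) - FF (σ ^ n)) + (FF (σ ^ n) - FF σ) := by
          rw [h]; ring
        rw [this]
        exact Valuation.map_add_lt v hn1 hdF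
      have h6 : v (X ((n : ℂ) * u + u) * X ((n : ℂ) * u - u) * (X ((n : ℂ) * u) - X u) ^ 2) < 1 := by
        rw [map_mul, map_mul, map_pow, sq, eplus, eminus]
        refine c_mul_lt (mul_le_one' (hle _ (by omega) hlt)
          (hle _ (by omega) (by omega))) ?_
        exact c_mul_lt hdX.le hdX
      have h7 : v ((X ((n : ℂ) * u) * X u) ^ 2) < 1 := by
        have e : (X ((n : ℂ) * u) * X u) ^ 2 =
          X ((n : ℂ) * u + u) * X ((n : ℂ) * u - u) * (X ((n : ℂ) * u) - X u) ^ 2 -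
          (X ((n : ℂ) * u + u) * X ((n : ℂ) * u - u) * (X ((n : ℂ) * u) - X u) ^ 2 -
            (X ((n : ℂ) * u) * X u) ^ 2) := by ring
        rw [e]
        exact lt_of_le_of_lt (v.map_sub _ _) (max_lt h6 hm)
      rw [map_pow, map_mul, hXn, hXu, mul_one, one_pow] at h7
      exact lt_irrefl _ h7
  have heq : Nat.find hex = l := by omega
  rw [heq] at he hmin
  exact ⟨he, hmin⟩

end CMS
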