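import Mathlib
import Pool.Agent.Lib.CMS.V3c
import Pool.Agent.Lib.CMS.LDif

/-!
# V3d: multiplicative reduction: the points of prime order  (about 200 lines)

`X z = r² wp z - 1/12`.  `ζ` a primitive `l`-th root of unity in `ℂ`, `v l = 1`: `v ζ = 1`, `v(1-ζ^j) = 1` for `1 ≤ j < l` (`∏_{j} (1-ζ^j) = l`, all factors have `v ≤ 1`).
`exists_mu` : `z₀ ∉ L` with `X(z₀) = FF ζ` (`wpq_surj`).  `chain` with `n = l-1`: `j z₀ ∉ L`, `X(j z₀) ≡ FF(ζ^j)`.  If `l z₀ ∈ L` take `u = z₀`.  Otherwise `v(X(l z₀)) > 1`: relation `prod` for `((l-1)z₀, z₀)` (difference `(l-2) z₀ ∉ L`, `l ≥ 3`): `v(X(l z₀)) v(X((l-2)z₀)) v(X((l-1)z₀) - X(z₀))² = v(unit) = 1`, where `X((l-1)z₀) ≡ FF(ζ^{l-1}) = FF(ζ⁻¹) = FF(ζ) ≡ X(z₀)`.  Choose `l₀ ∈ L` with `l₀/l ∉ L` and `w = l₀/l²`; `S` representatives of `sc l⁻¹ L` modulo `L` (`exists_reps`).  `wp_diff_mul` with `a = l`, multiplied by `r^{2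 S.card}`: `l² (X(l z₀) - X(l w)) ∏_{s≠0}(X z₀ - X s) = ∏_s (X z₀ - X(w+s))`.  All `w + s` are off `L` with `l²(w+s) ∈ L`, so good: `v(X(w+s)) ≤ 1` and `v(X(lw)) ≤ 1`; so `v(RHS) ≤ 1`, and `v(X(l z₀) - X(lw)) > 1`: some `s ≠ 0` has `v(X z₀ - X s) < 1`.  Take `u = s`.
`mu_cyclic` : `u₀` as in `exists_mu`, `u ∉ L` with `l u ∈ L`, `v(X u) = 1`.  `exists_sigma`, `tor_sigma`: `v(1-σ^l) < 1`, so `∏_i v(σ - ζ^i) = v(σ^l - 1) < 1`: `v(σ - ζ^i) < 1` for some `0 < i < l` (`i ≠ 0` as `v(1-σ) = 1`); `FF σ ≡ FF(ζ^i) ≡ X(i u₀)` (`chain`).  So `v(X u - X(i u₀)) < 1`; by `m_sub` (all points are good or in `L`) `u + i u₀ ∈ L` or `u - i u₀ ∈ L`.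
-/

set_option autoImplicit false

namespace CMS

open Complex NumberField

variable {Γ : Type*} [LinearOrderedCommGroupWithZero Γ] {v : Valuation ℂ Γ} {L : Submodule ℤ ℂ} {X : ℂ → ℂ} {ε : ℂ}

private theorem vz1 {v : Valuation ℂ Γ} {a b : ℂ} (ha : v a < 1) (hb : v b ≤ 1) : v (a * b) < 1 := by
  rw [map_mul]
  calc v a * v b ≤ v a * 1 := mul_le_mul_right hb _
    _ = v a := mul_one _
    _ < 1 := ha

private theorem v_root {v : Valuation ℂ Γ} {l : ℕ} (hl : l ≠ 0) {μ : ℂ} (h : μ ^ l = 1) : v μ = 1 := by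
  have h1 : v μ ^ l = 1 := by rw [← map_pow, h, map_one]
  exact (pow_eq_one_iff.1 h1).resolve_right hl

private theorem v_sub_le {v : Valuation ℂ Γ} {a b : ℂ} (ha : v a ≤ 1) (hb : v b ≤ 1) : v (a - b) ≤ 1 :=
  (v.map_sub a b).trans (max_le ha hb)

private theorem v_sub_lt {v : Valuation ℂ Γ} {a b : ℂ} (ha : v a < 1) (hb : v b < 1) : v (a - b) < 1 :=
  (v.map_sub a b).trans_lt (max_lt ha hb)

theorem val_one_sub_zeta {v : Valuation ℂ Γ} {l : ℕ} (hl : l.Prime) (hvl : v (l : ℂ) = 1) {ζ : ℂ} (hζ : IsPrimitiveRoot ζ l)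
    {j : ℕ} (h1 : 1 ≤ j) (h2 : j < l) : v (1 - ζ ^ j) = 1 := by
  have hfact : Fact l.Prime := ⟨hl⟩
  have hp : ∏ μ ∈ primitiveRoots l ℂ, (1 - μ) = (l : ℂ) := by
    have h3 := Polynomial.cyclotomic_eq_prod_X_sub_primitiveRoots hζ
    have h4 := congrArg (Polynomial.eval 1) h3
    rw [Polynomial.eval_one_cyclotomic_prime, Polynomial.eval_prod] at h4
    rw [h4]
    exact Finset.prod_congr rfl fun μ _ => by simp
  have hle : ∀ μ ∈ primitiveRoots l ℂ, v (1 - μ) ≤ 1 := by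
    intro μ hμ
    have h5 : μ ^ l = 1 := ((mem_primitiveRoots hl.pos).1 hμ).pow_eq_one
    exact v_sub_le (map_one v).le (v_root hl.ne_zero h5).le
  have h6 : ∏ μ ∈ primitiveRoots l ℂ, v (1 - μ) = 1 := by
    rw [← map_prod, hp, hvl]
  have h7 := (Finset.prod_eq_one_iff_of_le_one' hle).1 h6
  refine h7 (ζ ^ j) ((mem_primitiveRoots hl.pos).2 ?_)
  exact hζ.pow_of_coprime j ((Nat.coprime_of_lt_prime (by omega) h2 hl).symm)

private theorem FF_sub {s t : ℂ} (hs : 1 - s ≠ 0) (ht : 1 - t ≠ 0) :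
    (FF s - FF t) * ((1 - s) ^ 2 * (1 - t) ^ 2) = (s - t) * (1 - s * t) := by
  unfold FF
  field_simp
  ring

private theorem ne_of_v {v : Valuation ℂ Γ} {a : ℂ} (h : v a = 1) : a ≠ 0 := by
  rintro rfl
  rw [map_zero] at h
  exact zero_ne_one h

private theorem v_FF {v : Valuation ℂ Γ} {s : ℂ} (hs : v s = 1) (hs1 : v (1 - s) = 1) : v (FF s) = 1 := by
  unfold FF
  rw [map_div₀, map_pow, hs, hs1, one_pow, div_one]

private theorem v_FF_sub {v : Valuation ℂ Γ} {s t : ℂ} (hs : v s = 1) (ht : v t = 1) (hs1 : v (1 - s) = 1)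
    (ht1 : v (1 - t) = 1) (h : v (s - t) < 1) : v (FF s - FF t) < 1 := by
  have h1 := congrArg v (FF_sub (ne_of_v hs1) (ne_of_v ht1))
  rw [map_mul, map_mul, map_pow, map_pow, hs1, ht1, one_pow, mul_one, mul_one] at h1
  rw [h1]
  refine vz1 h (v_sub_le (map_one v).le ?_)
  rw [map_mul, hs, ht, one_mul]

private theorem FF_inv {s : ℂ} (hs : s ≠ 0) (hs1 : 1 - s ≠ 0) : FF s⁻¹ = FF s := by
  unfold FF
  have h1 : s⁻¹ / (1 - s⁻¹) ^ 2 = s / (s - 1) ^ 2 := by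
    have h2 : s - 1 ≠ 0 := fun h => hs1 (by linear_combination -h)
    field_simp
  rw [h1]
  congr 1
  ring

private theorem v_tor (hX : MCrd v L X ε) {n : ℕ} (hn : v (n : ℂ) = 1) {z : ℂ} (hz : z ∉ L)
    (hnz : (n : ℂ) * z ∈ L) : v (X z) ≤ 1 :=
  good_le hX.crd (tp_good ⟨n, hn, hnz⟩ hz)

private theorem exists_not_div (hL : IsLat L) {l : ℕ} (hl : 1 < l) : ∃ l₀ ∈ L, l₀ / (l : ℂ) ∉ L := by
  obtain ⟨P, rfl⟩ := hL
  refine ⟨P.ω₁, P.ω₁_mem_lattice, fun h => ?_⟩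
  obtain ⟨m, n, hmn⟩ := PeriodPair.mem_lattice.1 h
  have hl0 : (l : ℂ) ≠ 0 := Nat.cast_ne_zero.2 (by omega)
  have h1 : ((l * m - 1 : ℤ) : ℝ) • P.ω₁ + ((l * n : ℤ) : ℝ) • P.ω₂ = 0 := by
    rw [Complex.real_smul, Complex.real_smul]
    rw [eq_div_iff hl0] at hmn
    push_cast
    linear_combination hmn
  have h2 := LinearIndependent.pair_iff.1 P.indep _ _ h1
  have h3 : (l * m - 1 : ℤ) = 0 := by exact_mod_cast h2.1
  have h4 : (l : ℤ) ∣ 1 := ⟨m, by linarith⟩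
  have h5 := Int.le_of_dvd one_pos h4
  omega

private theorem v_X_of {v : Valuation ℂ Γ} {a b : ℂ} (h : v (a - b) < 1) (hb : v b = 1) : v a = 1 := by
  have h1 : a = (a - b) + b := by ring
  rw [h1, Valuation.map_add_eq_of_lt_right v (by rw [hb]; exact h), hb]

theorem exists_mu (hL : IsLat L) {r : ℂ} (hr : r ≠ 0) (hX : MCrd v L (fun z => r ^ 2 * wp L z - 1 / 12) ε) {l : ℕ}
    (hl : l.Prime) (hl2 : l ≠ 2) (hvl : v (l : ℂ) = 1) {ζ : ℂ} (hζ : IsPrimitiveRoot ζ l) :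
    ∃ u : ℂ, u ∉ L ∧ (l : ℂ) * u ∈ L ∧ v ((r ^ 2 * wp L u - 1 / 12) - FF ζ) < 1 := by
  classical
  obtain ⟨X, hXdef⟩ : ∃ X : ℂ → ℂ, X = fun z => r ^ 2 * wp L z - 1 / 12 := ⟨_, rfl⟩
  rw [← hXdef] at hX
  have hXz : ∀ z, r ^ 2 * wp L z - 1 / 12 = X z := fun z => by rw [hXdef]
  simp only [hXz]
  have hl3 : 3 ≤ l := by
    have := hl.two_le
    omega
  have hl0 : (l : ℂ) ≠ 0 := Nat.cast_ne_zero.2 (by omega)
  have hvζ : v ζ = 1 := v_root hl.ne_zero hζ.pow_eq_one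
  have hvζj : ∀ j : ℕ, v (ζ ^ j) = 1 := fun j => by rw [map_pow, hvζ, one_pow]
  have hv1 : ∀ j : ℕ, 1 ≤ j → j ≤ l - 1 → v (1 - ζ ^ j) = 1 := fun j h1 h2 =>
    val_one_sub_zeta hl hvl hζ h1 (by omega)
  have hv11 : v (1 - ζ) = 1 := by simpa using hv1 1 le_rfl (by omega)
  -- the point `z₀`
  obtain ⟨z₀, hz₀, hXz₀⟩ : ∃ z₀, z₀ ∉ L ∧ X z₀ = FF ζ := by
    obtain ⟨y, hy⟩ : ∃ y : ℂ, y ^ 2 = 4 * ((FF ζ + 1 / 12) / r ^ 2) ^ 3 -
        g2 L * ((FF ζ + 1 / 12) / r ^ 2) - g3 L := IsAlgClosed.exists_pow_nat_eq _ (by norm_num)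
    obtain ⟨z, hz, h1, -⟩ := wpq_surj hL hy
    refine ⟨z, hz, ?_⟩
    rw [← hXz, h1]
    field_simp
    ring
  have h00 : v (X z₀ - FF ζ) < 1 := by
    rw [hXz₀, sub_self, map_zero]
    exact zero_lt_one
  have hch : ∀ j : ℕ, 1 ≤ j → j ≤ l - 1 → (j : ℂ) * z₀ ∉ L ∧ v (X ((j : ℂ) * z₀) - FF (ζ ^ j)) < 1 :=
    fun j h1 h2 => chain hX hvζ hz₀ h00 hv1 h1 h2
  by_cases hlz : (l : ℂ) * z₀ ∈ L
  · exact ⟨z₀, hz₀, hlz, h00⟩
  -- `v (X (l z₀)) > 1`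
  have hbig : 1 < v (X ((l : ℂ) * z₀)) := by
    obtain ⟨hP, hXP⟩ := hch (l - 1) (by omega) le_rfl
    obtain ⟨hD, hXD⟩ := hch (l - 2) (by omega) (by omega)
    have e1 : ((l - 1 : ℕ) : ℂ) * z₀ + z₀ = (l : ℂ) * z₀ := by
      rw [Nat.cast_sub (by omega)]
      push_cast
      ring
    have e2 : ((l - 1 : ℕ) : ℂ) * z₀ - z₀ = ((l - 2 : ℕ) : ℂ) * z₀ := by
      rw [Nat.cast_sub (by omega), Nat.cast_sub (by omega)]
      push_cast
      ring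
    have hvP : v (X (((l - 1 : ℕ) : ℂ) * z₀)) = 1 :=
      v_X_of hXP (v_FF (hvζj _) (hv1 _ (by omega) le_rfl))
    have hvD : v (X (((l - 2 : ℕ) : ℂ) * z₀)) = 1 :=
      v_X_of hXD (v_FF (hvζj _) (hv1 _ (by omega) (by omega)))
    have hvQ : v (X z₀) = 1 := by rw [hXz₀]; exact v_FF hvζ hv11
    have hinv : FF (ζ ^ (l - 1)) = FF ζ := by
      have h3 : ζ ^ (l - 1) = ζ⁻¹ := by
        refine eq_inv_of_mul_eq_one_left ?_
        rw [← pow_succ, Nat.sub_add_cancel (by omega), hζ.pow_eq_one]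
      rw [h3, FF_inv (ne_of_v hvζ) (ne_of_v hv11)]
    have hdiff : v (X (((l - 1 : ℕ) : ℂ) * z₀) - X z₀) < 1 := by
      rw [hXz₀, ← hinv]
      exact hXP
    have hprod := m_prod hX hP hz₀ (by rw [e1]; exact hlz) (by rw [e2]; exact hD) hvP.le hvQ.le
    have hr1 : v ((X (((l - 1 : ℕ) : ℂ) * z₀) * X z₀) ^ 2) = 1 := by
      rw [map_pow, map_mul, hvP, hvQ, one_mul, one_pow]
    have h4 := v_X_of hprod hr1
    rw [map_mul, map_mul, map_pow, e1, e2, hvD, mul_one] at h4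
    by_contra hle
    rw [not_lt] at hle
    have h5 : v (X (((l - 1 : ℕ) : ℂ) * z₀) - X z₀) ^ 2 < 1 := pow_lt_one₀ zero_le hdiff two_ne_zero
    have h6 : v (X ((l : ℂ) * z₀)) * v (X (((l - 1 : ℕ) : ℂ) * z₀) - X z₀) ^ 2 < 1 := by
      calc v (X ((l : ℂ) * z₀)) * v (X (((l - 1 : ℕ) : ℂ) * z₀) - X z₀) ^ 2
          ≤ 1 * v (X (((l - 1 : ℕ) : ℂ) * z₀) - X z₀) ^ 2 := mul_le_mul_left hle _
        _ < 1 := by rw [one_mul]; exact h5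
    exact h6.ne h4
  -- the representatives
  obtain ⟨l₀, hl₀, hl₀'⟩ := exists_not_div hL (l := l) (by omega)
  have hli : ((l : ℂ))⁻¹ ≠ 0 := inv_ne_zero hl0
  have hmul : ∀ x ∈ L, (l : ℂ) * x ∈ L := fun x hx => by
    have := L.smul_mem (l : ℤ) hx
    rw [zsmul_eq_mul] at this
    simpa using this
  have hmem : ∀ z : ℂ, z ∈ sc (l : ℂ)⁻¹ L ↔ (l : ℂ) * z ∈ L := by
    intro z
    rw [← mem_sc_iff hli (z := (l : ℂ) * z), inv_mul_cancel_left₀ hl0]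
  obtain ⟨S, hS⟩ := exists_reps hL (isLat_sc hL hli) (fun x hx => (hmem x).2 (hmul x hx))
  obtain ⟨w, hw⟩ : ∃ w : ℂ, w = l₀ / (l : ℂ) ^ 2 := ⟨_, rfl⟩
  have hlw : (l : ℂ) * w = l₀ / l := by
    rw [hw]
    field_simp
  have hllw : (l : ℂ) * ((l : ℂ) * w) = l₀ := by
    rw [hlw]
    field_simp
  have hlwL : (l : ℂ) * w ∉ L := by rw [hlw]; exact hl₀'
  have hkey := wp_diff_mul hL hl0 hmul hS hlz hlwL
  have hvl2 : v ((l * l : ℕ) : ℂ) = 1 := by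
    rw [Nat.cast_mul, map_mul, hvl, one_mul]
  have hvws : ∀ s ∈ S, v (X (w + s)) ≤ 1 := by
    intro s hs
    have hs' := (hmem s).1 (hS.2.1 s hs)
    refine v_tor hX hvl2 (fun h => hlwL ?_) ?_
    · have h1 := L.sub_mem (hmul _ h) hs'
      have h2 : (l : ℂ) * (w + s) - l * s = l * w := by ring
      rwa [h2] at h1
    · have h1 : ((l * l : ℕ) : ℂ) * (w + s) = l₀ + l * (l * s) := by
        rw [← hllw]
        push_cast
        ring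
      rw [h1]
      exact L.add_mem hl₀ (hmul _ hs')
  have hvlw : v (X ((l : ℂ) * w)) ≤ 1 := v_tor hX hvl hlwL (by rw [hllw]; exact hl₀)
  have hXd : ∀ a b : ℂ, X a - X b = r ^ 2 * (wp L a - wp L b) := by
    intro a b
    rw [← hXz, ← hXz]
    ring
  have h0S : (0 : ℂ) ∈ S := hS.1
  have hkeyX : (l : ℂ) ^ 2 * (X (l * z₀) - X (l * w)) * ∏ s ∈ S.erase 0, (X z₀ - X s) =
      ∏ s ∈ S, (X z₀ - X (w + s)) := by
    simp only [hXd]
    rw [Finset.prod_mul_distrib, Finset.prod_mul_distrib, Finset.prod_const, Finset.prod_const,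
      ← hkey, ← Finset.card_erase_add_one h0S, pow_succ]
    ring
  have hrhs : v (∏ s ∈ S, (X z₀ - X (w + s))) ≤ 1 := by
    rw [map_prod]
    refine Finset.prod_le_one' fun s hs => ?_
    exact v_sub_le (by rw [hXz₀]; exact (v_FF hvζ hv11).le) (hvws s hs)
  have hbig2 : 1 < v (X (l * z₀) - X (l * w)) := by
    have h1 : v (X (l * w)) < v (X (l * z₀)) := hvlw.trans_lt hbig
    rw [Valuation.map_sub_eq_of_lt_left v h1]
    exact hbig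
  have hex : ∃ s ∈ S.erase 0, v (X z₀ - X s) < 1 := by
    by_contra hno
    push Not at hno
    have h1 : 1 ≤ v (∏ s ∈ S.erase 0, (X z₀ - X s)) := by
      rw [map_prod]
      exact Finset.one_le_prod' hno
    have h2 : 1 < v ((l : ℂ) ^ 2 * (X (l * z₀) - X (l * w)) * ∏ s ∈ S.erase 0, (X z₀ - X s)) := by
      rw [map_mul, map_mul, map_pow, hvl, one_pow, one_mul]
      calc (1 : Γ) < v (X (l * z₀) - X (l * w)) := hbig2
        _ = v (X (l * z₀) - X (l * w)) * 1 := (mul_one _).symm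
        _ ≤ _ := mul_le_mul_right h1 _
    rw [hkeyX] at h2
    exact absurd hrhs (not_le.2 h2)
  obtain ⟨s, hs, hvs⟩ := hex
  have hsS := Finset.mem_of_mem_erase hs
  have hs0 := Finset.ne_of_mem_erase hs
  refine ⟨s, fun hsL => hs0 ?_, (hmem s).1 (hS.2.1 s hsS), ?_⟩
  · obtain ⟨t, -, ht⟩ := hS.2.2 s (hS.2.1 s hsS)
    rw [ht s ⟨hsS, by rw [sub_self]; exact L.zero_mem⟩, ht 0 ⟨h0S, by rw [sub_zero]; exact hsL⟩]
  · rw [← hXz₀, ← Valuation.map_neg v, neg_sub]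
    exact hvs

theorem mu_cyclic (hL : IsLat L) {r : ℂ} (hr : r ≠ 0) (hX : MCrd v L (fun z => r ^ 2 * wp L z - 1 / 12) ε) {l : ℕ}
    (hl : l.Prime) (hl2 : l ≠ 2) (hvl : v (l : ℂ) = 1) {ζ : ℂ} (hζ : IsPrimitiveRoot ζ l) {u₀ : ℂ} (hu₀ : u₀ ∉ L)
    (hlu₀ : (l : ℂ) * u₀ ∈ L) (h₀ : v ((r ^ 2 * wp L u₀ - 1 / 12) - FF ζ) < 1) {u : ℂ} (hu : u ∉ L)
    (hlu : (l : ℂ) * u ∈ L) (h : v (r ^ 2 * wp L u - 1 / 12) = 1) :
    ∃ i : ℕ, 1 ≤ i ∧ i < l ∧ (u - (i : ℂ) * u₀ ∈ L ∨ u + (i : ℂ) * u₀ ∈ L) := by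
  obtain ⟨X, hXdef⟩ : ∃ X : ℂ → ℂ, X = fun z => r ^ 2 * wp L z - 1 / 12 := ⟨_, rfl⟩
  rw [← hXdef] at hX
  have hXz : ∀ z, r ^ 2 * wp L z - 1 / 12 = X z := fun z => by rw [hXdef]
  rw [hXz] at h₀ h
  have hl3 : 3 ≤ l := by
    have := hl.two_le
    omega
  have hvζ : v ζ = 1 := v_root hl.ne_zero hζ.pow_eq_one
  have hvζj : ∀ j : ℕ, v (ζ ^ j) = 1 := fun j => by rw [map_pow, hvζ, one_pow]
  have hv1 : ∀ j : ℕ, 1 ≤ j → j ≤ l - 1 → v (1 - ζ ^ j) = 1 := fun j h1 h2 =>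
    val_one_sub_zeta hl hvl hζ h1 (by omega)
  obtain ⟨σ, hσ, hσ1, hσX⟩ := exists_sigma v h
  obtain ⟨h3, h4⟩ := tor_sigma hX hl hl2 hvl hu hlu hσ hσ1 hσX.symm
  -- a root of unity near `σ`
  obtain ⟨i, hil, hvi⟩ : ∃ i < l, v (σ - ζ ^ i) < 1 := by
    have h5 := hζ.pow_sub_pow_eq_prod_sub_mul σ 1 hl.pos
    by_contra hno
    push Not at hno
    have h6 : 1 ≤ v (∏ μ ∈ Polynomial.nthRootsFinset l (1 : ℂ), (σ - μ * 1)) := by
      rw [map_prod]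
      refine Finset.one_le_prod' fun μ hμ => ?_
      have : NeZero l := ⟨hl.ne_zero⟩
      obtain ⟨i, hi, rfl⟩ := hζ.eq_pow_of_pow_eq_one
        ((Polynomial.mem_nthRootsFinset hl.pos (1 : ℂ)).1 hμ)
      rw [mul_one]
      exact hno i hi
    rw [← h5, one_pow, ← Valuation.map_neg v, neg_sub] at h6
    exact absurd h3 (not_lt.2 h6)
  have hi0 : 1 ≤ i := by
    rcases Nat.eq_zero_or_pos i with h5 | h5
    · rw [h5, pow_zero, ← Valuation.map_neg v, neg_sub, hσ1] at hvi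
      exact absurd hvi (lt_irrefl _)
    · exact h5
  have hi1 : v (1 - ζ ^ i) = 1 := hv1 i hi0 (by omega)
  obtain ⟨hQ, hXQ⟩ := chain hX hvζ hu₀ h₀ hv1 hi0 (show i ≤ l - 1 by omega)
  have hdiff : v (X u - X ((i : ℂ) * u₀)) < 1 := by
    have h5 := v_FF_sub hσ (hvζj i) hσ1 hi1 hvi
    have h6 : X u - X ((i : ℂ) * u₀) = (FF σ - FF (ζ ^ i)) - (X ((i : ℂ) * u₀) - FF (ζ ^ i)) := by
      rw [hσX]
      ring
    rw [h6]
    exact v_sub_lt h5 hXQ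
  have hmul : ∀ x ∈ L, (i : ℂ) * x ∈ L := fun x hx => by
    have := L.smul_mem (i : ℤ) hx
    rw [zsmul_eq_mul] at this
    simpa using this
  refine ⟨i, hi0, hil, ?_⟩
  by_contra hno
  push Not at hno
  obtain ⟨hm, hp⟩ := hno
  have hlQ : (l : ℂ) * ((i : ℂ) * u₀) ∈ L := by
    have h5 := hmul _ hlu₀
    have h6 : (i : ℂ) * ((l : ℂ) * u₀) = (l : ℂ) * ((i : ℂ) * u₀) := by ring
    rwa [h6] at h5
  have h7 := m_sub hX hu hQ hp hm h (v_tor hX hvl hQ hlQ)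
    (v_tor hX hvl hp (by rw [mul_add]; exact L.add_mem hlu hlQ))
    (v_tor hX hvl hm (by rw [mul_sub]; exact L.sub_mem hlu hlQ))
  exact absurd h7 hdiff.ne

end CMS
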