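import Mathlib
import Pool.Agent.Lib.CMS.V3d

/-!
# V3e: multiplicative reduction: stability under multiplication  (about 190 lines)

`X z = r² wp z - 1/12`, `T` = points with `TP v L`.  For `P ∈ T` off `L`: `v(X P) ≤ 1` (`tp_good`, `good_le`).
`e0_char` (only `←` needs work): `v(X P) = 1` iff `v(X P - X Q) = 1` for all `Q ∈ T` off `L` with `P ± Q ∉ L`.  `→` : `m_sub`.  `←` : suppose `v(X P) < 1`; `n` with `v n = 1`, `n P ∈ L`.  Choose a prime `l > 2 n`, `v l = 1` (at most one prime has `v < 1`; there are infinitely many primes), `u` from `exists_mu`: `v(X u) = v(FF ζ) = 1`.  `Q = P + u`: `P + u ∉ L` and `P - u ∉ L` (else `v(X P) = v(X u) = 1`); `P - Q = -u ∉ L`; `P + Q = 2P + u ∉ L` (else `n u ∈ L` and `l u ∈ L`, so `u ∈ L`).  `m_mix`: `v(X Q) < 1`, so `v(X P - X Q) < 1`.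
`e0_mul` : `a` a complex number with `a L ≤ L`, `a' ` another one with `a' L ≤ L`, `a a' = N` a natural number, `v N = 1`, `v a = 1`.  `P ∈ T` off `L`, `v(X P) = 1`, `a P ∉ L`.  Then `v(X(aP)) = 1`.  By `e0_char` (`aP ∈ T`) let `Q ∈ T` off `L` with `aP ± Q ∉ L`; put `w = Q/a`; `w ∈ T` (`n Q ∈ L` gives `N n w = a' n Q ∈ L`).  `wp_diff_mul` for `a` times `r^{2 card}`: `a² (X(aP) - X(aw)) ∏_{s≠0}(X P - X s) = ∏_s (X P - X(w+s))` with `a s ∈ L`, so `N s ∈ L`, `s ∈ T`.  Each `X P - X s`, `s ≠ 0`: `P ± s ∉ L` (else `aP ∈ L`), `m_sub`: `v = 1`.  Each `X P - X(w+s)`: `w + s ∉ L` (else `Q = aw ∈ L`), `P ± (w+s) ∉ L` (else `aP ± Q ∈ L`): `v = 1`.  So `v(X(aP) - X Q) = 1`.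
-/

set_option autoImplicit false

namespace CMS

open Complex NumberField

variable {Γ : Type*} [LinearOrderedCommGroupWithZero Γ] {v : Valuation ℂ Γ} {L : Submodule ℤ ℂ} {X : ℂ → ℂ} {ε : ℂ}

private theorem ve_nat_le (v : Valuation ℂ Γ) (n : ℕ) : v (n : ℂ) ≤ 1 := by
  induction n with
  | zero => simp
  | succ n ih =>
    rw [Nat.cast_succ]
    exact (v.map_add _ _).trans (max_le ih (by rw [map_one]))

private theorem ve_int_le (v : Valuation ℂ Γ) (n : ℤ) : v (n : ℂ) ≤ 1 := by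
  obtain ⟨m, rfl | rfl⟩ := n.eq_nat_or_neg
  · simpa using ve_nat_le v m
  · rw [Int.cast_neg, Valuation.map_neg]
    simpa using ve_nat_le v m

private theorem ve_prime (v : Valuation ℂ Γ) (m : ℕ) : ∃ l : ℕ, l.Prime ∧ m < l ∧ v (l : ℂ) = 1 := by
  obtain ⟨l1, hl1, hp1⟩ := Nat.exists_infinite_primes (m + 1)
  obtain ⟨l2, hl2, hp2⟩ := Nat.exists_infinite_primes (l1 + 1)
  by_cases h1 : v (l1 : ℂ) = 1
  · exact ⟨l1, hp1, by omega, h1⟩
  · refine ⟨l2, hp2, by omega, ?_⟩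
    by_contra h2
    have h1' := lt_of_le_of_ne (ve_nat_le v l1) h1
    have h2' := lt_of_le_of_ne (ve_nat_le v l2) h2
    have hco : IsCoprime (l1 : ℤ) (l2 : ℤ) := by
      rw [Nat.isCoprime_iff_coprime]
      exact (Nat.coprime_primes hp1 hp2).2 (by omega)
    obtain ⟨a, b, hab⟩ := hco
    have h3 : v (1 : ℂ) < 1 := by
      have e : (1 : ℂ) = (a : ℂ) * (l1 : ℂ) + (b : ℂ) * (l2 : ℂ) := by exact_mod_cast hab.symm
      rw [e]
      refine v.map_add_lt ?_ ?_
      · rw [map_mul]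
        exact lt_of_le_of_lt (mul_le_of_le_one_left' (ve_int_le v a)) h1'
      · rw [map_mul]
        exact lt_of_le_of_lt (mul_le_of_le_one_left' (ve_int_le v b)) h2'
    rw [map_one] at h3
    exact lt_irrefl _ h3

private theorem ve_int_mem {L : Submodule ℤ ℂ} {x : ℂ} (h : x ∈ L) (n : ℤ) : (n : ℂ) * x ∈ L := by
  have h1 := L.smul_mem n h
  rwa [zsmul_eq_mul] at h1

private theorem ve_nat_mem {L : Submodule ℤ ℂ} {x : ℂ} (h : x ∈ L) (n : ℕ) : (n : ℂ) * x ∈ L := by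
  have h1 := ve_int_mem h (n : ℤ)
  simpa using h1

private theorem ve_coprime {L : Submodule ℤ ℂ} {u : ℂ} {n l : ℕ} (hco : Nat.Coprime n l)
    (h1 : (n : ℂ) * u ∈ L) (h2 : (l : ℂ) * u ∈ L) : u ∈ L := by
  obtain ⟨a, b, hab⟩ := (Nat.isCoprime_iff_coprime.2 hco)
  have e : u = (a : ℂ) * ((n : ℂ) * u) + (b : ℂ) * ((l : ℂ) * u) := by
    have e1 : (a : ℂ) * (n : ℂ) + (b : ℂ) * (l : ℂ) = 1 := by exact_mod_cast hab
    linear_combination -u * e1
  rw [e]
  exact L.add_mem (ve_int_mem h1 a) (ve_int_mem h2 b)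

private theorem ve_fwd (hX : MCrd v L X ε) {P : ℂ} (hP : TP v L P) (hPL : P ∉ L) (h : v (X P) = 1) :
    ∀ Q : ℂ, TP v L Q → Q ∉ L → P + Q ∉ L → P - Q ∉ L → v (X P - X Q) = 1 := by
  intro Q hQ hQL h1 h2
  refine m_sub hX hPL hQL h1 h2 h (good_le hX.crd (tp_good hQ hQL))
    (good_le hX.crd (tp_good (tp_add hP hQ) h1)) (good_le hX.crd (tp_good ?_ h2))
  rw [sub_eq_add_neg]
  exact tp_add hP (tp_neg hQ)

theorem e0_char (hL : IsLat L) {r : ℂ} (hr : r ≠ 0) (hX : MCrd v L (fun z => r ^ 2 * wp L z - 1 / 12) ε) {P : ℂ}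
    (hP : TP v L P) (hPL : P ∉ L) :
    v (r ^ 2 * wp L P - 1 / 12) = 1 ↔ ∀ Q : ℂ, TP v L Q → Q ∉ L → P + Q ∉ L → P - Q ∉ L →
      v ((r ^ 2 * wp L P - 1 / 12) - (r ^ 2 * wp L Q - 1 / 12)) = 1 := by
  constructor
  · exact ve_fwd hX hP hPL
  · intro hall
    by_contra hne
    have hlt : v (r ^ 2 * wp L P - 1 / 12) < 1 :=
      lt_of_le_of_ne (good_le hX.crd (tp_good hP hPL)) hne
    obtain ⟨n, hvn, hnP⟩ := hP
    have hn0 : n ≠ 0 := by
      rintro rfl
      rw [Nat.cast_zero, map_zero] at hvn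
      exact zero_ne_one hvn
    obtain ⟨l, hl, hnl, hvl⟩ := ve_prime v (2 * n)
    have hl2 : l ≠ 2 := by omega
    have hζ := Complex.isPrimitiveRoot_exp l hl.ne_zero
    set ζ : ℂ := Complex.exp (2 * Real.pi * Complex.I / l) with hζdef
    obtain ⟨u, hu, hlu, hvu⟩ := exists_mu hL hr hX hl hl2 hvl hζ
    have hvζ : v ζ = 1 := by
      have h1 : v ζ ^ l = 1 := by rw [← map_pow, hζ.pow_eq_one, map_one]
      exact (pow_eq_one_iff.1 h1).resolve_right hl.ne_zero
    have hv1 : v (1 - ζ) = 1 := by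
      have h1 := val_one_sub_zeta hl hvl hζ (j := 1) le_rfl hl.one_lt
      rwa [pow_one] at h1
    have hFF : v (FF ζ) = 1 := by
      unfold FF
      rw [map_div₀, map_pow, hvζ, hv1, one_pow, div_one]
    have hXu : v (r ^ 2 * wp L u - 1 / 12) = 1 := by
      have h1 := v.map_add_eq_of_lt_left (x := FF ζ)
        (y := (r ^ 2 * wp L u - 1 / 12) - FF ζ) (by rw [hFF]; exact hvu)
      rw [hFF, add_sub_cancel] at h1
      exact h1
    have hTu : TP v L u := ⟨l, hvl, hlu⟩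
    have hTP : TP v L P := ⟨n, hvn, hnP⟩
    have h1 : P + u ∉ L := by
      intro h
      apply hne
      have h2 := hX.crd.per (-u) (P + u) h
      have h3 : r ^ 2 * wp L (-u) - 1 / 12 = r ^ 2 * wp L u - 1 / 12 := hX.crd.even u
      have h4 : -u + (P + u) = P := by ring
      simp only [h4] at h2
      rw [h2, h3]
      exact hXu
    have h2 : P - u ∉ L := by
      intro h
      apply hne
      have h2 := hX.crd.per u (P - u) h
      have h4 : u + (P - u) = P := by ring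
      simp only [h4] at h2
      rw [h2]
      exact hXu
    have h3 : P + (P + u) ∉ L := by
      intro h
      have h4 : (n : ℂ) * u ∈ L := by
        have e : (n : ℂ) * u = (n : ℂ) * (P + (P + u)) - ((2 : ℕ) : ℂ) * ((n : ℂ) * P) := by
          push_cast
          ring
        rw [e]
        exact L.sub_mem (ve_nat_mem h n) (ve_nat_mem hnP 2)
      refine hu (ve_coprime (Nat.Coprime.symm ?_) h4 hlu)
      refine (Nat.Prime.coprime_iff_not_dvd hl).2 fun hd => ?_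
      have := Nat.le_of_dvd (Nat.pos_of_ne_zero hn0) hd
      omega
    have h4 : P - (P + u) ∉ L := by
      intro h
      have h5 := L.neg_mem h
      have e : -(P - (P + u)) = u := by ring
      rw [e] at h5
      exact hu h5
    have hT2 : TP v L (P - u) := by
      rw [sub_eq_add_neg]
      exact tp_add hTP (tp_neg hTu)
    have h5 := m_mix hX hPL hu h1 h2 hlt hXu
      (good_le hX.crd (tp_good (tp_add hTP hTu) h1)) (good_le hX.crd (tp_good hT2 h2))
    have h6 := hall (P + u) (tp_add hTP hTu) h1 h3 h4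
    have h7 := v.map_sub_lt hlt h5
    rw [h6] at h7
    exact lt_irrefl _ h7

theorem e0_mul (hL : IsLat L) {r : ℂ} (hr : r ≠ 0) (hX : MCrd v L (fun z => r ^ 2 * wp L z - 1 / 12) ε) {a a' : ℂ}
    {N : ℕ} (ha : ∀ l ∈ L, a * l ∈ L) (ha' : ∀ l ∈ L, a' * l ∈ L) (haN : a * a' = N) (hN : v (N : ℂ) = 1) (hva : v a = 1)
    {P : ℂ} (hP : TP v L P) (hPL : P ∉ L) (h : v (r ^ 2 * wp L P - 1 / 12) = 1) (haP : a * P ∉ L) :
    v (r ^ 2 * wp L (a * P) - 1 / 12) = 1 := by
  classical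
  have hN0 : (N : ℂ) ≠ 0 := by
    intro h0
    rw [h0, map_zero] at hN
    exact zero_ne_one hN
  have ha0 : a ≠ 0 := by
    rintro rfl
    rw [zero_mul] at haN
    exact hN0 haN.symm
  have hTmul : ∀ x : ℂ, TP v L (a * x) → TP v L x := by
    rintro x ⟨n, hvn, hn⟩
    refine ⟨N * n, ?_, ?_⟩
    · rw [Nat.cast_mul, map_mul, hN, hvn, one_mul]
    · have h1 := ha' _ hn
      have e : a' * ((n : ℂ) * (a * x)) = ((N * n : ℕ) : ℂ) * x := by
        push_cast
        rw [← haN]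
        ring
      rwa [e] at h1
  have hTa : ∀ x : ℂ, TP v L x → TP v L (a * x) := by
    rintro x ⟨n, hvn, hn⟩
    refine ⟨n, hvn, ?_⟩
    have h1 := ha _ hn
    have e : a * ((n : ℂ) * x) = (n : ℂ) * (a * x) := by ring
    rwa [e] at h1
  have hTL : ∀ x ∈ L, TP v L x := fun x hx => ⟨1, by simp, by simpa using hx⟩
  rw [e0_char hL hr hX (hTa P hP) haP]
  intro Q hQ hQL h1 h2
  obtain ⟨w, rfl⟩ : ∃ w, a * w = Q := ⟨Q / a, by field_simp⟩
  have hw := hTmul w hQ
  have hle : L ≤ sc a⁻¹ L := by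
    intro l hl
    exact mem_sc.2 ⟨a * l, ha l hl, by rw [← mul_assoc, inv_mul_cancel₀ ha0, one_mul]⟩
  obtain ⟨S, hS⟩ := exists_reps hL (isLat_sc hL (inv_ne_zero ha0)) hle
  have hSa : ∀ s ∈ S, a * s ∈ L := by
    intro s hs
    obtain ⟨l, hl, rfl⟩ := mem_sc.1 (hS.2.1 s hs)
    rw [← mul_assoc, mul_inv_cancel₀ ha0, one_mul]
    exact hl
  have hST : ∀ s ∈ S, TP v L s := fun s hs => hTmul s (hTL _ (hSa s hs))
  have hS0 : ∀ s ∈ S.erase 0, s ∉ L := by
    intro s hs hsL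
    rw [Finset.mem_erase] at hs
    obtain ⟨t, -, ht⟩ := hS.2.2 s (hle hsL)
    apply hs.1
    rw [ht s ⟨hs.2, by rw [sub_self]; exact L.zero_mem⟩,
      ht 0 ⟨hS.1, by rw [sub_zero]; exact hsL⟩]
  have key := wp_diff_mul hL ha0 ha hS haP hQL
  set Xf : ℂ → ℂ := fun z => r ^ 2 * wp L z - 1 / 12 with hXf
  have hsub : ∀ x y : ℂ, Xf x - Xf y = r ^ 2 * (wp L x - wp L y) := by
    intro x y
    simp only [hXf]
    ring
  have key2 : a ^ 2 * (Xf (a * P) - Xf (a * w)) * ∏ s ∈ S.erase 0, (Xf P - Xf s) =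
      ∏ s ∈ S, (Xf P - Xf (w + s)) := by
    simp only [hsub, Finset.prod_mul_distrib]
    rw [← key, ← Finset.mul_prod_erase S (fun _ => r ^ 2) hS.1]
    ring
  have hfw := ve_fwd hX hP hPL h
  have hL1 : ∏ s ∈ S.erase 0, v (Xf P - Xf s) = 1 := by
    refine Finset.prod_eq_one fun s hs => ?_
    have hs' := (Finset.mem_erase.1 hs).2
    refine hfw s (hST s hs') (hS0 s hs) (fun hc => haP ?_) (fun hc => haP ?_)
    · have h3 := L.sub_mem (ha _ hc) (hSa s hs')
      have e : a * (P + s) - a * s = a * P := by ring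
      rwa [e] at h3
    · have h3 := L.add_mem (ha _ hc) (hSa s hs')
      have e : a * (P - s) + a * s = a * P := by ring
      rwa [e] at h3
  have hR1 : ∏ s ∈ S, v (Xf P - Xf (w + s)) = 1 := by
    refine Finset.prod_eq_one fun s hs => ?_
    refine hfw (w + s) (tp_add hw (hST s hs)) (fun hc => hQL ?_) (fun hc => h1 ?_)
      (fun hc => h2 ?_)
    · have h3 := L.sub_mem (ha _ hc) (hSa s hs)
      have e : a * (w + s) - a * s = a * w := by ring
      rwa [e] at h3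
    · have h3 := L.sub_mem (ha _ hc) (hSa s hs)
      have e : a * (P + (w + s)) - a * s = a * P + a * w := by ring
      rwa [e] at h3
    · have h3 := L.add_mem (ha _ hc) (hSa s hs)
      have e : a * (P - (w + s)) + a * s = a * P - a * w := by ring
      rwa [e] at h3
  have key3 := congrArg v key2
  rw [map_mul, map_mul, map_pow, hva, one_pow, one_mul, map_prod, map_prod, hL1, hR1,
    mul_one] at key3
  exact key3

end CMS
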