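import Mathlib
import Pool.Agent.Lib.CMS.LWp
import Pool.Agent.Lib.MP_5e64e7_nt.OAdd

/-!
# LAdd: addition formulas  (about 230 lines)

For `L = P.lattice`.  `x = wp z, y = wq z, s = wp u, t = wq u`.
`wp_add_eq` : this is `MP5e.wp_add` (`MP_5e64e7_nt/OAdd.lean`).  `wp_sum` : `MP5e.wp_sym`.
`wp_prod` : multiply `wp_add_eq` for `(z,u)` and `(z,-u)`: `16 (P + x + s)(M + x + s)(x-s)⁴ = (y² - t²)²`, `P = wp(z+u)`, `M = wp(z-u)`; use `wq_sq` and `wp_sum` (compare `xx_prod` in `MP_d9f52e_nt/WRel.lean`).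
`wp_dup2` : `MP5e.wp_dup` and `wq_sq`.  `wp_dup_eq` : divide; `4x³ - g₂x - g₃ = wq² ≠ 0` (`wq_eq_zero_iff`).
`wq_add_eq` (collinearity of `(x,y), (s,t), (wp(z+u), -wq(z+u))`).  Proof: differentiate `wp_add_eq` with respect to `z` (`u` fixed): `x' = y`, `y' = 6x² - g₂/2` (`MP5e.wp_second`).  With `A = wp(z+u) + x + s`, `B = x - s`, `C = y - t`: `4 A B² = C²`; derivative: `4 (wq(z+u) + y) B² + 8 A B y = 2 C (6x² - g₂/2)`.  Multiply by `B` and use `4AB² = C²` and `y² - t² = 4(x³-s³) - g₂(x-s)`: solve for `wq(z+u) B³`.  Compare `psi_add` in `MP_d9f52e_nt/WPsi.lean` (the same for the curve `y²+y=x³`).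
`wq_dup` : derivative of `wp_dup2` in `z`: `wp(2z) y² = N(x)`, so `2 wq(2z) y² + 2 wp(2z) y y' = N'(x) y`; divide by `y`.
`wp_dbl` : from `wp_dup2`: `16 (wp(2z) + 2x) y² = 16 N(x) + 32 x (4x³-g₂x-g₃) = (12x²-g₂)²`.
-/

set_option autoImplicit false

namespace CMS

open Complex NumberField MPd9f52e

variable {L : Submodule ℤ ℂ}

open Pool.Agent.Lib

private theorem ladd_open (P : PeriodPair) : IsOpen ((P.lattice : Set ℂ)ᶜ) :=
  P.isClosed_lattice.isOpen_compl

/-- the value of `wp'` at `z + u` -/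
private theorem ladd_add (P : PeriodPair) {z u : ℂ} (hz : z ∉ P.lattice) (hu : u ∉ P.lattice)
    (h : z + u ∉ P.lattice) (hx : P.weierstrassP z ≠ P.weierstrassP u) :
    P.derivWeierstrassP (z + u) * (P.weierstrassP z - P.weierstrassP u) =
      -((P.derivWeierstrassP z - P.derivWeierstrassP u) *
        (P.weierstrassP (z + u) - P.weierstrassP z) +
        P.derivWeierstrassP z * (P.weierstrassP z - P.weierstrassP u)) := by
  have hA := MP5e.wp_add P hz hu h
  have h1 := P.derivWeierstrassP_sq z hz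
  have h2 := P.derivWeierstrassP_sq u hu
  have d1 := MP5e.wp_first P hz
  have d2 := MP5e.wp_second P hz
  have d3 := (MP5e.wp_first P h).comp_add_const z u
  have hF : HasDerivAt (fun p => (P.derivWeierstrassP p - P.derivWeierstrassP u) ^ 2 -
      4 * (P.weierstrassP p + P.weierstrassP u + P.weierstrassP (p + u)) *
        (P.weierstrassP p - P.weierstrassP u) ^ 2) _ z :=
    ((d2.sub_const _).pow 2).sub ((((d1.add_const _).add d3).const_mul 4).mul
      ((d1.sub_const _).pow 2))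
  have hev : (fun p => (P.derivWeierstrassP p - P.derivWeierstrassP u) ^ 2 -
      4 * (P.weierstrassP p + P.weierstrassP u + P.weierstrassP (p + u)) *
        (P.weierstrassP p - P.weierstrassP u) ^ 2) =ᶠ[nhds z] fun _ => (0 : ℂ) := by
    have o1 : ∀ᶠ p in nhds z, p ∉ P.lattice := (ladd_open P).mem_nhds hz
    have o2 : ∀ᶠ p in nhds z, p + u ∉ P.lattice :=
      ((ladd_open P).preimage (continuous_id.add continuous_const)).mem_nhds h
    filter_upwards [o1, o2] with p hp hp'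
    rw [MP5e.wp_add P hp hu hp', sub_self]
  have hD := hF.unique ((hasDerivAt_const z (0 : ℂ)).congr_of_eventuallyEq hev)
  simp only [Nat.cast_ofNat, Nat.add_one_sub_one, pow_one, Pi.add_apply] at hD
  set a := P.weierstrassP z
  set b := P.derivWeierstrassP z
  set c := P.weierstrassP u
  set d := P.derivWeierstrassP u
  set S := P.weierstrassP (z + u)
  set T := P.derivWeierstrassP (z + u)
  have hac : a - c ≠ 0 := sub_ne_zero.2 hx
  obtain ⟨l, hL⟩ : ∃ l, b - d = l * (a - c) := ⟨(b - d) / (a - c), by field_simp⟩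
  have hS : l ^ 2 = 4 * (a + c + S) := by
    have : l ^ 2 * (a - c) ^ 2 = 4 * (a + c + S) * (a - c) ^ 2 := by
      rw [← hA, hL]; ring
    exact mul_right_cancel₀ (pow_ne_zero 2 hac) this
  have hR : l * (b + d) = 4 * (a ^ 2 + a * c + c ^ 2) - P.g₂ := by
    apply mul_right_cancel₀ hac
    linear_combination (b + d) * (-hL) + h1 - h2
  have key : (T - (-l * (S - a) - b)) * (a - c) ^ 2 = 0 := by
    linear_combination (-1 / 4 : ℂ) * hD + (3 * a ^ 2 - P.g₂ / 4 - l ^ 2 * (a - c) / 4) * hL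
      + ((a - c) * b / 2 - l * (a - c) ^ 2 / 4) * hS - (1 / 4 : ℂ) * l * (a - c) * hR
  have h5 := (mul_eq_zero.1 key).resolve_right (pow_ne_zero 2 hac)
  linear_combination (a - c) * h5 + (S - a) * hL

/-- the value of `wp'` at `z + z` -/
private theorem ladd_dbl (P : PeriodPair) {z : ℂ} (hz : z ∉ P.lattice) (h : z + z ∉ P.lattice)
    (hb : P.derivWeierstrassP z ≠ 0) :
    2 * P.derivWeierstrassP z * P.derivWeierstrassP (z + z) =
      -((12 * P.weierstrassP z ^ 2 - P.g₂) * (P.weierstrassP (z + z) - P.weierstrassP z) +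
        2 * P.derivWeierstrassP z ^ 2) := by
  have d1 := MP5e.wp_first P hz
  have d2 := MP5e.wp_second P hz
  have d3 : HasDerivAt (fun p => P.weierstrassP (p + p))
      (P.derivWeierstrassP (z + z) * (1 + 1)) z :=
    HasDerivAt.comp z (h₂ := P.weierstrassP) (h := fun p => p + p) (MP5e.wp_first P h)
      ((hasDerivAt_id z).add (hasDerivAt_id z))
  have hF : HasDerivAt (fun p => 4 * P.derivWeierstrassP p ^ 2 *
      (P.weierstrassP (p + p) + 2 * P.weierstrassP p) -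
        (6 * P.weierstrassP p ^ 2 - P.g₂ / 2) ^ 2) _ z :=
    ((((d2.pow 2).const_mul 4).mul (d3.add (d1.const_mul 2)))).sub
      ((((d1.pow 2).const_mul 6).sub_const _).pow 2)
  have hev : (fun p => 4 * P.derivWeierstrassP p ^ 2 *
      (P.weierstrassP (p + p) + 2 * P.weierstrassP p) -
        (6 * P.weierstrassP p ^ 2 - P.g₂ / 2) ^ 2)
      =ᶠ[nhds z] fun _ => (0 : ℂ) := by
    have o1 : ∀ᶠ p in nhds z, p ∉ P.lattice := (ladd_open P).mem_nhds hz
    have o2 : ∀ᶠ p in nhds z, p + p ∉ P.lattice :=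
      ((ladd_open P).preimage (continuous_id.add continuous_id)).mem_nhds h
    filter_upwards [o1, o2] with p hp hp'
    rw [MP5e.wp_dup P hp hp', sub_self]
  have hD := hF.unique ((hasDerivAt_const z (0 : ℂ)).congr_of_eventuallyEq hev)
  simp only [Nat.cast_ofNat, Nat.add_one_sub_one, pow_one, Pi.add_apply, Pi.pow_apply] at hD
  set a := P.weierstrassP z
  set b := P.derivWeierstrassP z
  set S := P.weierstrassP (z + z)
  set T := P.derivWeierstrassP (z + z)
  have key : (4 * b) * (2 * b * T - (-((12 * a ^ 2 - P.g₂) * (S - a) + 2 * b ^ 2))) = 0 := by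
    linear_combination hD
  have h5 := (mul_eq_zero.1 key).resolve_left (mul_ne_zero (by norm_num) hb)
  linear_combination h5

theorem wp_add_eq (hL : IsLat L) {z u : ℂ} (hz : z ∉ L) (hu : u ∉ L) (h : z + u ∉ L) :
    4 * (wp L (z + u) + wp L z + wp L u) * (wp L z - wp L u) ^ 2 = (wq L z - wq L u) ^ 2 := by
  obtain ⟨P, rfl⟩ := hL
  simp only [wp_lattice, wq_lattice]
  have h1 := MP5e.wp_add P hz hu h
  linear_combination -h1

theorem wq_add_eq (hL : IsLat L) {z u : ℂ} (hz : z ∉ L) (hu : u ∉ L) (h : z + u ∉ L) :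
    wq L (z + u) * (wp L z - wp L u) =
      -((wq L z - wq L u) * (wp L (z + u) - wp L z) + wq L z * (wp L z - wp L u)) := by
  by_cases hx : wp L z = wp L u
  · have h1 : z - u ∈ L := ((wp_eq_iff hL hz hu).1 hx).resolve_right h
    have h2 := wq_add_mem hL h1 u
    rw [add_sub_cancel] at h2
    rw [hx, h2]
    ring
  · obtain ⟨P, rfl⟩ := hL
    exact ladd_add P hz hu h hx

theorem wp_sum (hL : IsLat L) {z u : ℂ} (hz : z ∉ L) (hu : u ∉ L) (h : z + u ∉ L) (h' : z - u ∉ L) :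
    (wp L (z + u) + wp L (z - u)) * (wp L z - wp L u) ^ 2 =
      2 * wp L z * wp L u * (wp L z + wp L u) - g2 L / 2 * (wp L z + wp L u) - g3 L := by
  obtain ⟨P, rfl⟩ := hL
  exact MP5e.wp_sym P hz hu h h'

theorem wp_prod (hL : IsLat L) {z u : ℂ} (hz : z ∉ L) (hu : u ∉ L) (h : z + u ∉ L) (h' : z - u ∉ L) :
    wp L (z + u) * wp L (z - u) * (wp L z - wp L u) ^ 2 =
      (wp L z * wp L u + g2 L / 4) ^ 2 + g3 L * (wp L z + wp L u) := by
  have e1 := wp_add_eq hL hz hu h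
  have hu' : -u ∉ L := fun h => hu (by simpa using neg_mem h)
  have e2 := wp_add_eq hL hz hu' (by rwa [← sub_eq_add_neg])
  rw [wp_neg hL, wq_neg hL, ← sub_eq_add_neg z u] at e2
  have hA := wq_sq hL hz
  have hB := wq_sq hL hu
  have hD : wp L z - wp L u ≠ 0 := by
    intro h0
    rcases (wp_eq_iff hL hz hu).1 (sub_eq_zero.1 h0) with h1 | h1
    · exact h' h1
    · exact h h1
  generalize wq L z = A at *
  generalize wq L u = B at *
  generalize wp L (z + u) = S at *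
  generalize wp L (z - u) = T at *
  generalize wp L z = X at *
  generalize wp L u = Y at *
  generalize g2 L = G at *
  generalize g3 L = K at *
  refine mul_left_cancel₀ (mul_ne_zero (by norm_num : (16 : ℂ) ≠ 0) (pow_ne_zero 2 hD)) ?_
  linear_combination (4 * (T + X + Y) * (X - Y) ^ 2 - 4 * (X + Y) * (X - Y) ^ 2) * e1 +
    ((A - B) ^ 2 - 4 * (X + Y) * (X - Y) ^ 2) * e2 +
    ((A ^ 2 - B ^ 2 + (4 * (X ^ 3 - Y ^ 3) - G * (X - Y))) - 8 * (X + Y) * (X - Y) ^ 2) * hA +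
    (-(A ^ 2 - B ^ 2 + (4 * (X ^ 3 - Y ^ 3) - G * (X - Y))) - 8 * (X + Y) * (X - Y) ^ 2) * hB

theorem wp_dup2 (hL : IsLat L) {z : ℂ} (hz : z ∉ L) (h : z + z ∉ L) :
    wp L (z + z) * (4 * wp L z ^ 3 - g2 L * wp L z - g3 L) = (wp L z ^ 2 + g2 L / 4) ^ 2 + 2 * g3 L * wp L z := by
  have hA := wq_sq hL hz
  obtain ⟨P, rfl⟩ := hL
  have h1 : 4 * wq P.lattice z ^ 2 * (wp P.lattice (z + z) + 2 * wp P.lattice z) =
      (6 * wp P.lattice z ^ 2 - g2 P.lattice / 2) ^ 2 := MP5e.wp_dup P hz h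
  linear_combination (1 / 4 : ℂ) * h1 - (wp P.lattice (z + z) + 2 * wp P.lattice z) * hA

theorem wp_dup_eq (hL : IsLat L) {z : ℂ} (hz : z ∉ L) (h : z + z ∉ L) : wp L (z + z) = dup L (wp L z) := by
  have h0 : 4 * wp L z ^ 3 - g2 L * wp L z - g3 L ≠ 0 := by
    rw [← wq_sq hL hz]
    exact pow_ne_zero 2 fun h1 => h ((wq_eq_zero_iff hL hz).1 h1)
  unfold dup
  rw [eq_div_iff h0]
  exact wp_dup2 hL hz h

theorem wp_dup0 (hL : IsLat L) {z : ℂ} (hz : z ∉ L) (h : z + z ∈ L) : 4 * wp L z ^ 3 - g2 L * wp L z - g3 L = 0 := by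
  rw [← wq_sq hL hz, (wq_eq_zero_iff hL hz).2 h]
  norm_num

theorem wp_dbl (hL : IsLat L) {z : ℂ} (hz : z ∉ L) (h : z + z ∉ L) :
    16 * (wp L (z + z) + 2 * wp L z) * wq L z ^ 2 = (12 * wp L z ^ 2 - g2 L) ^ 2 := by
  obtain ⟨P, rfl⟩ := hL
  have h1 : 4 * wq P.lattice z ^ 2 * (wp P.lattice (z + z) + 2 * wp P.lattice z) =
      (6 * wp P.lattice z ^ 2 - g2 P.lattice / 2) ^ 2 := MP5e.wp_dup P hz h
  linear_combination 4 * h1

theorem wq_dbl (hL : IsLat L) {z : ℂ} (hz : z ∉ L) (h : z + z ∉ L) :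
    2 * wq L z * wq L (z + z) = -((12 * wp L z ^ 2 - g2 L) * (wp L (z + z) - wp L z) + 2 * wq L z ^ 2) := by
  have h0 : wq L z ≠ 0 := fun h1 => h ((wq_eq_zero_iff hL hz).1 h1)
  obtain ⟨P, rfl⟩ := hL
  exact ladd_dbl P hz h h0

end CMS
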