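import Mathlib
import Pool.Agent.Lib.CMS.LWp
import Pool.Agent.Lib.MP_0162a5_an.A5c
import Pool.Agent.Lib.MP_0162a5_an.A4

/-!
# LUni: uniformization  (about 150 lines)

`lat_exists` : `4X³ - aX - b` has three distinct roots `x₁, x₂, x₃` (sum `0`; discriminant `16 ∏ (x_i-x_j)² = a³ - 27 b² ≠ 0`; split the polynomial over `ℂ`).  `lamF` (`MP_0162a5_an/A4.lean`: `lamF τ` is a quotient of differences of `e₁ = ℘ 1, e₂ = ℘ τ, e₃ = ℘(1+τ)` for the lattice `pp τ = 2ℤ + 2τℤ`) takes every value except `0, 1` (`lamF_surj`, `A5c.lean`).  Choose `τ` such that `lamF τ` is the corresponding quotient of the `x_i`; then `x_i = α² e_i` for some `α ≠ 0` (both triples have sum `0`), so `a = α⁴ g₂(pp τ)`, `b = α⁶ g₃(pp τ)` (`half` in A4: `4c³ - g₂c - g₃ = 4 ∏ (c - e_i)`), and `L = sc α⁻¹ (pp τ).lattice` (`g2_sc`, `g3_sc`).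
`lat_scaled` : `Pool.Agent.T05.wp_scaled` with `α = c⁻¹`.  `lat_unique` : `c = 1`.
`lat_of_j` : `jj L' = jj L`.  If `g₂ L = 0` then `jj = 0`, `g₂ L' = 0`, `g₃ ≠ 0` for both (`disc_ne`), choose `c` with `c⁶ = g₃ L / g₃ L'`.  If `g₃ L = 0` the same with `c⁴`.  Otherwise `g₂³/g₃²` are equal (from `jj`); choose `c` with `c² = (g₃ L/g₃ L')(g₂ L'/g₂ L)`; then `c⁴ = g₂/g₂'` and `c⁶ = g₃/g₃'`.
-/

set_option autoImplicit false

namespace CMS

open Complex NumberField MPd9f52e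

private theorem exists_pow {n : ℕ} (hn : 0 < n) {x : ℂ} (hx : x ≠ 0) : ∃ c : ℂ, c ≠ 0 ∧ c ^ n = x := by
  obtain ⟨c, hc⟩ := IsAlgClosed.exists_pow_nat_eq x hn
  refine ⟨c, ?_, hc⟩
  rintro rfl
  rw [zero_pow hn.ne'] at hc
  exact hx hc.symm

private theorem exists_root (a b : ℂ) : ∃ x : ℂ, 4 * x ^ 3 - a * x - b = 0 := by
  have hd : (Polynomial.C (4 : ℂ) * Polynomial.X ^ 3 - Polynomial.C a * Polynomial.X -
      Polynomial.C b).degree = 3 := by
    compute_degree!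
  obtain ⟨x, hx⟩ := IsAlgClosed.exists_root (Polynomial.C (4 : ℂ) * Polynomial.X ^ 3 -
    Polynomial.C a * Polynomial.X - Polynomial.C b) (by rw [hd]; decide)
  refine ⟨x, ?_⟩
  simpa [Polynomial.IsRoot] using hx

theorem lat_exists {a b : ℂ} (h : a ^ 3 - 27 * b ^ 2 ≠ 0) : ∃ L : Submodule ℤ ℂ, IsLat L ∧ g2 L = a ∧ g3 L = b := by
  obtain ⟨x, hx⟩ := exists_root a b
  obtain ⟨w, hw⟩ := IsAlgClosed.exists_pow_nat_eq (a - 3 * x ^ 2) (n := 2) (by norm_num)
  have ha : a = w ^ 2 + 3 * x ^ 2 := by rw [hw]; ring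
  have hb : b = x ^ 3 - w ^ 2 * x := by
    rw [ha] at hx
    linear_combination -hx
  have hdisc : w ^ 2 * (9 * x ^ 2 - w ^ 2) ^ 2 ≠ 0 := by
    intro h0
    apply h
    rw [ha, hb]
    linear_combination h0
  have hw0 : w ≠ 0 := by
    rintro rfl
    simp at hdisc
  have h9 : 9 * x ^ 2 - w ^ 2 ≠ 0 := by
    intro h0
    rw [h0] at hdisc
    simp at hdisc
  have h12 : (-x + w) / 2 - x ≠ 0 := by
    intro h0
    apply h9
    linear_combination (-2 * (3 * x + w)) * h0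
  have h13 : (-x - w) / 2 - x ≠ 0 := by
    intro h0
    apply h9
    linear_combination (2 * (w - 3 * x)) * h0
  have hz : ((-x - w) / 2 - x) / ((-x + w) / 2 - x) ∈ Pool.Agent.T05.C01 := by
    refine ⟨div_ne_zero h13 h12, ?_⟩
    intro h1
    rw [div_eq_one_iff_eq h12] at h1
    apply hw0
    linear_combination -h1
  obtain ⟨τ, hτ, hlam⟩ := Pool.Agent.T05.lamF_surj _ hz
  have hτ' : 0 < τ.im := hτ
  have h21 := Pool.Agent.T05.A4H.sub_ne hτ'
  obtain ⟨s1, s2, s3⟩ := Pool.Agent.T05.A4H.esym hτ'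
  unfold Pool.Agent.T05.lamF at hlam
  obtain ⟨α, hα0, hα⟩ := exists_pow (n := 2) (by norm_num) (div_ne_zero h12 h21)
  set e1 := (Pool.Agent.T05.pp τ).weierstrassP 1 with he1
  set e2 := (Pool.Agent.T05.pp τ).weierstrassP τ with he2
  set e3 := (Pool.Agent.T05.pp τ).weierstrassP (1 + τ) with he3
  have k2 : (-x + w) / 2 - x = α ^ 2 * (e2 - e1) := by
    rw [hα]
    field_simp
  have k3 : (-x - w) / 2 - x = α ^ 2 * (e3 - e1) := by
    rw [div_eq_div_iff h21 h12, k2] at hlam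
    have h5 : (e3 - e1) * (α ^ 2) * (e2 - e1) = ((-x - w) / 2 - x) * (e2 - e1) := by
      rw [← hlam]; ring
    have h6 := mul_right_cancel₀ h21 h5
    rw [← h6]; ring
  have k1 : x = α ^ 2 * e1 := by
    linear_combination (-1/3 : ℂ) * k2 + (-1/3 : ℂ) * k3 - (1/3 : ℂ) * α ^ 2 * s1
  refine ⟨sc α⁻¹ (Pool.Agent.T05.pp τ).lattice, isLat_sc ⟨_, rfl⟩ (inv_ne_zero hα0), ?_, ?_⟩
  · rw [g2_sc (inv_ne_zero hα0), g2_lattice, s2, ha]
    have k4 : w = α ^ 2 * (e2 - e3) := by linear_combination k2 - k3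
    have k5 : e3 = -e1 - e2 := by linear_combination s1
    rw [k4, k1, k5]
    field_simp
    ring
  · rw [g3_sc (inv_ne_zero hα0), g3_lattice, s3, hb]
    have k4 : w = α ^ 2 * (e2 - e3) := by linear_combination k2 - k3
    have k5 : e3 = -e1 - e2 := by linear_combination s1
    rw [k4, k1, k5]
    field_simp
    ring

theorem lat_scaled {L L' : Submodule ℤ ℂ} (hL : IsLat L) (hL' : IsLat L') {c : ℂ} (hc : c ≠ 0)
    (h2 : g2 L' = g2 L / c ^ 4) (h3 : g3 L' = g3 L / c ^ 6) : L' = sc c L := by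
  obtain ⟨P, rfl⟩ := hL
  obtain ⟨P', rfl⟩ := hL'
  have h := Pool.Agent.T05.wp_scaled P P' (inv_ne_zero hc)
    (by rw [← g2_lattice, ← g2_lattice, h2, inv_pow, div_eq_mul_inv, mul_comm])
    (by rw [← g3_lattice, ← g3_lattice, h3, inv_pow, div_eq_mul_inv, mul_comm])
  ext z
  rw [h, mem_sc]
  constructor
  · intro hz
    exact ⟨_, hz, by rw [mul_inv_cancel_left₀ hc]⟩
  · rintro ⟨l, hl, rfl⟩
    rwa [inv_mul_cancel_left₀ hc]

theorem lat_unique {L L' : Submodule ℤ ℂ} (hL : IsLat L) (hL' : IsLat L') (h2 : g2 L' = g2 L) (h3 : g3 L' = g3 L) :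
    L' = L := by
  have h := lat_scaled hL hL' one_ne_zero (by rw [h2]; simp) (by rw [h3]; simp)
  rwa [sc_one] at h

theorem lat_of_j {L L' : Submodule ℤ ℂ} (hL : IsLat L) (hL' : IsLat L') (h : jj L' = jj L) :
    ∃ c : ℂ, c ≠ 0 ∧ L' = sc c L := by
  have hD := disc_ne hL
  have hD' := disc_ne hL'
  unfold jj at h
  rw [div_eq_div_iff hD' hD] at h
  have hk : g2 L' ^ 3 * g3 L ^ 2 = g2 L ^ 3 * g3 L' ^ 2 := by
    linear_combination (-1 / (1728 * 27) : ℂ) * h
  by_cases h2 : g2 L = 0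
  · have h3 : g3 L ≠ 0 := by
      intro h3
      apply hD
      rw [h2, h3]; ring
    have h2' : g2 L' = 0 := by
      rw [h2] at hk
      have h5 : g2 L' ^ 3 * g3 L ^ 2 = 0 := by rw [hk]; ring
      rcases mul_eq_zero.1 h5 with h6 | h6
      · exact pow_eq_zero_iff (by norm_num) |>.1 h6
      · exact absurd (pow_eq_zero_iff (by norm_num) |>.1 h6) h3
    have h3' : g3 L' ≠ 0 := by
      intro h3'
      apply hD'
      rw [h2', h3']; ring
    obtain ⟨c, hc0, hc⟩ := exists_pow (n := 6) (by norm_num) (div_ne_zero h3 h3')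
    refine ⟨c, hc0, lat_scaled hL hL' hc0 ?_ ?_⟩
    · rw [h2, h2']; simp
    · rw [hc]; field_simp
  by_cases h3 : g3 L = 0
  · have h3' : g3 L' = 0 := by
      rw [h3] at hk
      have h5 : g2 L ^ 3 * g3 L' ^ 2 = 0 := by rw [← hk]; ring
      rcases mul_eq_zero.1 h5 with h6 | h6
      · exact absurd (pow_eq_zero_iff (by norm_num) |>.1 h6) h2
      · exact pow_eq_zero_iff (by norm_num) |>.1 h6
    have h2' : g2 L' ≠ 0 := by
      intro h2'
      apply hD'
      rw [h2', h3']; ring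
    obtain ⟨c, hc0, hc⟩ := exists_pow (n := 4) (by norm_num) (div_ne_zero h2 h2')
    refine ⟨c, hc0, lat_scaled hL hL' hc0 ?_ ?_⟩
    · rw [hc]; field_simp
    · rw [h3, h3']; simp
  · have h2' : g2 L' ≠ 0 := by
      intro h2'
      rw [h2'] at hk
      have h5 : g2 L ^ 3 * g3 L' ^ 2 = 0 := by rw [← hk]; ring
      rcases mul_eq_zero.1 h5 with h6 | h6
      · exact absurd (pow_eq_zero_iff (by norm_num) |>.1 h6) h2
      · apply hD'
        rw [h2', h6]; ring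
    have h3' : g3 L' ≠ 0 := by
      intro h3'
      rw [h3'] at hk
      have h5 : g2 L' ^ 3 * g3 L ^ 2 = 0 := by rw [hk]; ring
      rcases mul_eq_zero.1 h5 with h6 | h6
      · exact absurd (pow_eq_zero_iff (by norm_num) |>.1 h6) h2'
      · exact absurd (pow_eq_zero_iff (by norm_num) |>.1 h6) h3
    obtain ⟨c, hc0, hc⟩ := exists_pow (n := 2) (by norm_num)
      (mul_ne_zero (div_ne_zero h3 h3') (div_ne_zero h2' h2))
    refine ⟨c, hc0, lat_scaled hL hL' hc0 ?_ ?_⟩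
    · have e : c ^ 4 = (g3 L / g3 L' * (g2 L' / g2 L)) ^ 2 := by rw [← hc]; ring
      rw [e]
      field_simp
      linear_combination hk
    · have e : c ^ 6 = (g3 L / g3 L' * (g2 L' / g2 L)) ^ 3 := by rw [← hc]; ring
      rw [e]
      field_simp
      linear_combination hk

end CMS
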