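import Mathlib
import Pool.Agent.Lib.CMS.LAdd
import Pool.Agent.Lib.CMS.LUni

/-!
# VMod: Weierstrass models over valuation rings  (about 250 lines)

`crd_of` : `X z = r² wp z - b2/12`.  With `ξ = r² wp`, `β = b2/12`, `G2 = r⁴ g₂ = 12β² - 2b4`, `G3 = r⁶ g₃ = -8β³ + 2β b4 - b6` : `wp_sum`, `wp_prod`, `wp_dup2`, `wp_dup0` multiplied by powers of `r²` are the relations for `ξ`; substituting `ξ = X + β` gives the relations of `Crd` (`linear_combination`; e.g. for the sum: `2(X+β)(X'+β)(X+X'+2β) - (6β²-b4)(X+X'+2β) - G3 - 2β(X-X')² = 2XX'(X+X') + b2 XX' + b4(X+X') + b6`; for the product use `4 b8 = b2 b6 - b4²`).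
`exists_r` : `r⁴ g₂ = A`, `r⁶ g₃ = B`.  If `A = 0`: `g₂ = 0` (as `j = 0`), `B ≠ 0`, `g₃ ≠ 0` (`disc_ne`), take `r⁶ = B/g₃`.  If `B = 0`: then `jj L = 1728`, so `g₃ = 0`, `r⁴ = A/g₂`.  Otherwise `g₂, g₃ ≠ 0` and `g₂³ B² = A³ g₃²` (both sides of `j`): choose `r` with `r² = (B/g₃)(g₂/A)`.
`model_good` : CASE `v 3 = 1`: `α` a root of `α³(α³-24)³ - j(α³-27)` (monic of degree 12 over the valuation ring, so `v α ≤ 1`: if `v α > 1` then `v(α¹²)` would be the strictly largest term); `v(α³-27) = 1` (if `< 1`, then `α³ ≡ 27`, `α³(α³-24)³ ≡ 27·27` is a unit, but it equals `j(α³-27)`); `(b2,b4,b6,b8) = (α², α, 1, 0)`, `A = α⁴/12 - 2α`, `B = -α⁶/216 + α³/6 - 1`, `A³ - 27B² = α³ - 27`, `1728A³ = α³(α³-24)³`.  `GR`: `c(c³-αc-2)` and `4c³+α²c²+2αc+1` in the maximal ideal: `c` not in it, `c³ ≡ αc+2`, so `(αc+3)² ≡ 0`, `αc ≡ -3`, `c³ ≡ -1`, `α³ ≡ 27`: contradiction.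
CASE `v 2 = 1`: `l` a root of `256(l²-l+1)³ - j l²(l-1)²`, `v l ≤ 1` (`v 256 = 1`), `v l = v(l-1) = 1`; `(b2,b4,b6,b8) = (-4(1+l), 2l, 0, -l²)`, `A = (4/3)(l²-l+1)`, `B = (4/27)(2l³-3l²-3l+2)` [`= 64(1+l)³/216 - 8l(1+l)/6`], `A³ - 27B² = 16 l²(l-1)²`.  `GR`: `4c(c-1)(c-l)` and `(c²-l)²`.
One of the cases holds: `v 2 = 1` or `v 3 = 1` since `3 - 2 = 1`.
`model_mult` : `v j > 1`, `ε = 1/(j-1728)`, `v ε < 1`; `(1, -72ε, -4ε, -ε-1296ε²)`, `A = 1/12 + 144ε`, `B = -1/216 - 8ε`, `A³ - 27B² = ε(1+1728ε)²`, `1728A³ = (1+1728ε)³`, `j = (1+1728ε)/ε`.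
-/

set_option autoImplicit false

namespace CMS

open Complex NumberField MPd9f52e

variable {Γ : Type*} [LinearOrderedCommGroupWithZero Γ] {L : Submodule ℤ ℂ}

theorem crd_of (hL : IsLat L) (v : Valuation ℂ Γ) {r b2 b4 b6 b8 : ℂ} (hr : r ≠ 0) (h2 : v b2 ≤ 1) (h4 : v b4 ≤ 1)
    (h6 : v b6 ≤ 1) (h8 : v b8 ≤ 1) (e8 : 4 * b8 = b2 * b6 - b4 ^ 2) (eg2 : r ^ 4 * g2 L = b2 ^ 2 / 12 - 2 * b4)
    (eg3 : r ^ 6 * g3 L = -(b2 ^ 3) / 216 + b2 * b4 / 6 - b6) :
    Crd v L (fun z => r ^ 2 * wp L z - b2 / 12) b2 b4 b6 b8 := by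
  refine ⟨h2, h4, h6, h8, ?_, ?_, ?_, ?_, ?_, ?_⟩
  · intro z l hl
    simp only [wp_add_mem hL hl]
  · intro z
    simp only [wp_neg hL]
  · intro P Q hP hQ hs hd
    have e := wp_sum hL hP hQ hs hd
    linear_combination r ^ 6 * e - (r ^ 2 * (wp L P + wp L Q) / 2) * eg2 - eg3
  · intro P Q hP hQ hs hd
    have e := wp_sum hL hP hQ hs hd
    have e' := wp_prod hL hP hQ hs hd
    linear_combination r ^ 8 * e' - b2 / 12 * r ^ 6 * e +
      ((2 * r ^ 4 * wp L P * wp L Q + (r ^ 4 * g2 L + (b2 ^ 2 / 12 - 2 * b4)) / 4) / 4 +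
        b2 / 12 * (r ^ 2 * (wp L P + wp L Q) / 2)) * eg2 +
      (r ^ 2 * (wp L P + wp L Q) + b2 / 12) * eg3 + (1 / 4 : ℂ) * e8
  · intro P hP hs
    have e := wp_dup2 hL hP hs
    linear_combination r ^ 8 * e +
      (r ^ 2 * wp L (P + P) * (r ^ 2 * wp L P) +
        (2 * r ^ 4 * wp L P ^ 2 + (r ^ 4 * g2 L + (b2 ^ 2 / 12 - 2 * b4)) / 4) / 4) * eg2 +
      (r ^ 2 * wp L (P + P) + 2 * (r ^ 2 * wp L P)) * eg3 + (1 / 4 : ℂ) * e8
  · intro P hP hs
    have e := wp_dup0 hL hP hs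
    linear_combination r ^ 6 * e + r ^ 2 * wp L P * eg2 + eg3

theorem exists_r (hL : IsLat L) {A B : ℂ} (hD : A ^ 3 - 27 * B ^ 2 ≠ 0)
    (hj : jj L * (A ^ 3 - 27 * B ^ 2) = 1728 * A ^ 3) : ∃ r : ℂ, r ≠ 0 ∧ r ^ 4 * g2 L = A ∧ r ^ 6 * g3 L = B := by
  have hd := disc_ne hL
  have hk : g2 L ^ 3 * B ^ 2 = A ^ 3 * g3 L ^ 2 := by
    unfold jj at hj
    rw [div_mul_eq_mul_div, div_eq_iff hd] at hj
    linear_combination (-1 / (27 * 1728) : ℂ) * hj
  by_cases hA : A = 0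
  · subst hA
    have hB : B ≠ 0 := by
      rintro rfl
      exact hD (by norm_num)
    have h2 : g2 L = 0 := by
      have h : g2 L ^ 3 * B ^ 2 = 0 := by
        rw [hk]
        ring
      rcases mul_eq_zero.1 h with h | h
      · exact pow_eq_zero_iff (by norm_num) |>.1 h
      · exact absurd (pow_eq_zero_iff (by norm_num) |>.1 h) hB
    have h3 : g3 L ≠ 0 := by
      intro h3
      exact hd (by rw [h2, h3]; norm_num)
    obtain ⟨r, hr⟩ := IsAlgClosed.exists_pow_nat_eq (B / g3 L) (n := 6) (by norm_num)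
    refine ⟨r, ?_, ?_, ?_⟩
    · rintro rfl
      rw [zero_pow (by norm_num)] at hr
      exact div_ne_zero hB h3 hr.symm
    · rw [h2, mul_zero]
    · rw [hr, div_mul_cancel₀ _ h3]
  · by_cases hB : B = 0
    · subst hB
      have h3 : g3 L = 0 := by
        have h : A ^ 3 * g3 L ^ 2 = 0 := by
          rw [← hk]
          ring
        rcases mul_eq_zero.1 h with h | h
        · exact absurd (pow_eq_zero_iff (by norm_num) |>.1 h) hA
        · exact pow_eq_zero_iff (by norm_num) |>.1 h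
      have h2 : g2 L ≠ 0 := by
        intro h2
        exact hd (by rw [h2, h3]; norm_num)
      obtain ⟨r, hr⟩ := IsAlgClosed.exists_pow_nat_eq (A / g2 L) (n := 4) (by norm_num)
      refine ⟨r, ?_, ?_, ?_⟩
      · rintro rfl
        rw [zero_pow (by norm_num)] at hr
        exact div_ne_zero hA h2 hr.symm
      · rw [hr, div_mul_cancel₀ _ h2]
      · rw [h3, mul_zero]
    · have h2 : g2 L ≠ 0 := by
        intro h2
        have h : A ^ 3 * g3 L ^ 2 = 0 := by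
          rw [← hk, h2]
          ring
        rcases mul_eq_zero.1 h with h | h
        · exact hA (pow_eq_zero_iff (by norm_num) |>.1 h)
        · have h3 : g3 L = 0 := pow_eq_zero_iff (by norm_num) |>.1 h
          exact hd (by rw [h2, h3]; norm_num)
      have h3 : g3 L ≠ 0 := by
        intro h3
        have h : g2 L ^ 3 * B ^ 2 = 0 := by
          rw [hk, h3]
          ring
        rcases mul_eq_zero.1 h with h | h
        · exact h2 (pow_eq_zero_iff (by norm_num) |>.1 h)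
        · exact hB (pow_eq_zero_iff (by norm_num) |>.1 h)
      obtain ⟨r, hr⟩ := IsAlgClosed.exists_pow_nat_eq (B / g3 L * (g2 L / A)) (n := 2) (by norm_num)
      refine ⟨r, ?_, ?_, ?_⟩
      · rintro rfl
        rw [zero_pow (by norm_num)] at hr
        exact mul_ne_zero (div_ne_zero hB h3) (div_ne_zero h2 hA) hr.symm
      · have e : r ^ 4 = (B / g3 L * (g2 L / A)) ^ 2 := by
          rw [← hr]
          ring
        rw [e]
        field_simp
        linear_combination hk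
      · have e : r ^ 6 = (B / g3 L * (g2 L / A)) ^ 3 := by
          rw [← hr]
          ring
        rw [e]
        field_simp
        linear_combination hk

private theorem vm_nat (v : Valuation ℂ Γ) (n : ℕ) : v (n : ℂ) ≤ 1 := by
  induction n with
  | zero => simp
  | succ n ih =>
    rw [Nat.cast_succ]
    exact (v.map_add _ _).trans (max_le ih (le_of_eq v.map_one))

private theorem vm_mul (v : Valuation ℂ Γ) {x y : ℂ} (hx : v x ≤ 1) (hy : v y < 1) : v (x * y) < 1 := by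
  rw [map_mul]
  calc v x * v y ≤ 1 * v y := by gcongr
    _ = v y := one_mul _
    _ < 1 := hy

private theorem vm_mul_le (v : Valuation ℂ Γ) {x y : ℂ} (hx : v x ≤ 1) (hy : v y ≤ 1) : v (x * y) ≤ 1 := by
  rw [map_mul]
  exact mul_le_one' hx hy

private theorem vm_pow_le (v : Valuation ℂ Γ) {x : ℂ} (hx : v x ≤ 1) (n : ℕ) : v (x ^ n) ≤ 1 := by
  rw [map_pow]
  exact pow_le_one' hx n

private theorem vm_add_le (v : Valuation ℂ Γ) {x y : ℂ} (hx : v x ≤ 1) (hy : v y ≤ 1) : v (x + y) ≤ 1 :=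
  (v.map_add _ _).trans (max_le hx hy)

private theorem vm_sub_le (v : Valuation ℂ Γ) {x y : ℂ} (hx : v x ≤ 1) (hy : v y ≤ 1) : v (x - y) ≤ 1 :=
  (v.map_sub _ _).trans (max_le hx hy)

private theorem vm_sub (v : Valuation ℂ Γ) {x y : ℂ} (hx : v x < 1) (hy : v y < 1) : v (x - y) < 1 :=
  (v.map_sub _ _).trans_lt (max_lt hx hy)

private theorem vm_add (v : Valuation ℂ Γ) {x y : ℂ} (hx : v x < 1) (hy : v y < 1) : v (x + y) < 1 :=
  v.map_add_lt hx hy

private theorem vm_of_pow (v : Valuation ℂ Γ) {x : ℂ} {n : ℕ} (hn : n ≠ 0) (h : v (x ^ n) < 1) : v x < 1 := by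
  rw [map_pow] at h
  exact (pow_lt_one_iff hn).1 h

private theorem vm_one (v : Valuation ℂ Γ) (h : v (1 : ℂ) < 1) : False := by
  rw [v.map_one] at h
  exact lt_irrefl _ h

/-- a large element is not changed by adding an integral element -/
private theorem vm_big (v : Valuation ℂ Γ) {x y : ℂ} (hx : 1 < v x) (hy : v y ≤ 1) : v (x - y) = v x :=
  v.map_sub_eq_of_lt_left (hy.trans_lt hx)

private theorem vm_exists3 (j : ℂ) : ∃ α : ℂ, α ^ 3 * (α ^ 3 - 24) ^ 3 = j * (α ^ 3 - 27) := by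
  open Polynomial in
  obtain ⟨b, hb⟩ : ∃ b : ℂ, b * (b - 24) ^ 3 = j * (b - 27) := by
    have hm : ((X : ℂ[X]) * (X - C 24) ^ 3).Monic := monic_X.mul ((monic_X_sub_C _).pow 3)
    have hdeg : ((X : ℂ[X]) * (X - C 24) ^ 3).natDegree = 4 := by
      rw [natDegree_mul X_ne_zero (pow_ne_zero _ (X_sub_C_ne_zero _)), natDegree_pow, natDegree_X,
        natDegree_X_sub_C]
    have hle : (C j * (X - C 27) : ℂ[X]).natDegree ≤ 1 := by
      refine (natDegree_C_mul_le _ _).trans ?_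
      rw [natDegree_X_sub_C]
    have hlt : (C j * (X - C 27) : ℂ[X]).natDegree < ((X : ℂ[X]) * (X - C 24) ^ 3).natDegree := by
      rw [hdeg]
      omega
    have hd : ((X : ℂ[X]) * (X - C 24) ^ 3 - C j * (X - C 27)).natDegree = 4 := by
      rw [natDegree_sub_eq_left_of_natDegree_lt hlt, hdeg]
    obtain ⟨b, hb⟩ := IsAlgClosed.exists_root ((X : ℂ[X]) * (X - C 24) ^ 3 - C j * (X - C 27)) (by
      intro h
      have := natDegree_eq_zero_iff_degree_le_zero.2 h.le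
      rw [hd] at this
      omega)
    refine ⟨b, ?_⟩
    rw [IsRoot.def] at hb
    simp only [eval_sub, eval_mul, eval_X, eval_pow, eval_C] at hb
    linear_combination hb
  obtain ⟨α, hα⟩ := IsAlgClosed.exists_pow_nat_eq b (n := 3) (by norm_num)
  exact ⟨α, by rw [hα]; exact hb⟩

private theorem vm_exists2 (j : ℂ) : ∃ l : ℂ, 256 * (l ^ 2 - l + 1) ^ 3 = j * (l ^ 2 * (l - 1) ^ 2) := by
  open Polynomial in
  have e1 : (256 * (X ^ 2 - X + 1) ^ 3 - C j * (X ^ 2 * (X - 1) ^ 2) : ℂ[X]) =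
      C 256 * X ^ 6 + C (-768) * X ^ 5 + C (1536 - j) * X ^ 4 + C (-1792 + 2 * j) * X ^ 3 +
        C (1536 - j) * X ^ 2 + C (-768) * X + C 256 := by
    simp only [map_sub, map_add, map_mul, map_neg, map_ofNat]
    ring
  open Polynomial in
  have hd : (256 * (X ^ 2 - X + 1) ^ 3 - C j * (X ^ 2 * (X - 1) ^ 2) : ℂ[X]).natDegree = 6 := by
    rw [e1]
    compute_degree!
  open Polynomial in
  obtain ⟨l, hl⟩ := IsAlgClosed.exists_root
    (256 * (X ^ 2 - X + 1) ^ 3 - C j * (X ^ 2 * (X - 1) ^ 2) : ℂ[X]) (by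
      intro h
      have := natDegree_eq_zero_iff_degree_le_zero.2 h.le
      rw [hd] at this
      omega)
  refine ⟨l, ?_⟩
  rw [Polynomial.IsRoot.def] at hl
  simp only [Polynomial.eval_sub, Polynomial.eval_mul, Polynomial.eval_X, Polynomial.eval_pow,
    Polynomial.eval_C, Polynomial.eval_add, Polynomial.eval_one, Polynomial.eval_ofNat] at hl
  linear_combination hl

private theorem model_good3 (hL : IsLat L) (v : Valuation ℂ Γ) (hj : v (jj L) ≤ 1) (h3 : v (3 : ℂ) = 1) :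
    ∃ r b2 b4 b6 b8 : ℂ, r ≠ 0 ∧ Crd v L (fun z => r ^ 2 * wp L z - b2 / 12) b2 b4 b6 b8 ∧ GR v b2 b4 b6 b8 := by
  obtain ⟨α, hα⟩ := vm_exists3 (jj L)
  have n24 : v (24 : ℂ) ≤ 1 := by simpa using vm_nat v 24
  have n27 : v (27 : ℂ) ≤ 1 := by simpa using vm_nat v 27
  have hβ : v (α ^ 3) ≤ 1 := by
    by_contra hc
    push Not at hc
    have h1 : v (α ^ 3 * (α ^ 3 - 24) ^ 3) = v (α ^ 3) * v (α ^ 3) ^ 3 := by
      rw [map_mul, map_pow v (α ^ 3 - 24), vm_big v hc n24]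
    have h2 : v (jj L * (α ^ 3 - 27)) ≤ v (α ^ 3) := by
      rw [map_mul, vm_big v hc n27]
      calc v (jj L) * v (α ^ 3) ≤ 1 * v (α ^ 3) := by gcongr
        _ = v (α ^ 3) := one_mul _
    rw [← hα, h1] at h2
    have h4 : 1 < v (α ^ 3) ^ 3 := one_lt_pow₀ hc (by norm_num)
    have h5 : v (α ^ 3) < v (α ^ 3) * v (α ^ 3) ^ 3 := by
      calc v (α ^ 3) = v (α ^ 3) * 1 := (mul_one _).symm
        _ < v (α ^ 3) * v (α ^ 3) ^ 3 := by
          have : 0 < v (α ^ 3) := zero_lt_one.trans hc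
          gcongr
    exact absurd h2 (not_le.2 h5)
  have hα1 : v α ≤ 1 := by
    by_contra hc
    push Not at hc
    rw [map_pow] at hβ
    exact absurd hβ (not_le.2 (one_lt_pow₀ hc (by norm_num)))
  have h27 : ¬ v (α ^ 3 - 27) < 1 := by
    intro hc
    have e1 : (729 : ℂ) = (α ^ 3 * (α ^ 3 - 24) ^ 3) -
        ((α ^ 3) ^ 3 - 45 * (α ^ 3) ^ 2 + 513 * α ^ 3 + 27) * (α ^ 3 - 27) := by ring
    have n1 : v (45 : ℂ) ≤ 1 := by simpa using vm_nat v 45
    have n2 : v (513 : ℂ) ≤ 1 := by simpa using vm_nat v 513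
    have h1 : v (729 : ℂ) < 1 := by
      rw [e1]
      refine vm_sub v ?_ (vm_mul v ?_ hc)
      · rw [hα]
        exact vm_mul v hj hc
      · exact vm_add_le v (vm_add_le v (vm_sub_le v (vm_pow_le v hβ 3)
          (vm_mul_le v n1 (vm_pow_le v hβ 2))) (vm_mul_le v n2 hβ)) n27
    have h2 : v (729 : ℂ) = 1 := by
      have : (729 : ℂ) = 3 ^ 6 := by norm_num
      rw [this, map_pow, h3, one_pow]
    rw [h2] at h1
    exact lt_irrefl _ h1
  have hne : α ^ 3 - 27 ≠ 0 := by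
    intro h0
    rw [h0, map_zero] at h27
    exact h27 zero_lt_one
  obtain ⟨r, hr, hr4, hr6⟩ := exists_r hL (A := α ^ 4 / 12 - 2 * α) (B := -(α ^ 6) / 216 + α ^ 3 / 6 - 1)
    (by
      intro h0
      apply hne
      linear_combination h0)
    (by linear_combination (-1 : ℂ) * hα)
  refine ⟨r, α ^ 2, α, 1, 0, hr, crd_of hL v hr (vm_pow_le v hα1 2) hα1 (le_of_eq v.map_one)
    (by rw [map_zero]; exact zero_le_one) (by ring) (by rw [hr4]; ring) (by rw [hr6]; ring), ?_⟩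
  intro c hc hF hG
  have n2 : v (2 : ℂ) ≤ 1 := by simpa using vm_nat v 2
  have n4 : v (4 : ℂ) ≤ 1 := by simpa using vm_nat v 4
  have n9 : v (9 : ℂ) ≤ 1 := by simpa using vm_nat v 9
  have hc1 : v c = 1 := by
    rcases lt_or_eq_of_le hc with h | h
    · exfalso
      apply vm_one v
      have e : (1 : ℂ) = (4 * c ^ 3 + α ^ 2 * c ^ 2 + 2 * α * c + 1) - (4 * c ^ 2 + α ^ 2 * c + 2 * α) * c := by
        ring
      rw [e]
      refine vm_sub v hF (vm_mul v ?_ h)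
      exact vm_add_le v (vm_add_le v (vm_mul_le v n4 (vm_pow_le v hc 2))
        (vm_mul_le v (vm_pow_le v hα1 2) hc)) (vm_mul_le v n2 hα1)
    · exact h
  have hH : v (c ^ 3 - α * c - 2) < 1 := by
    have e : c ^ 4 - α * c ^ 2 - 2 * 1 * c - 0 = c * (c ^ 3 - α * c - 2) := by ring
    rw [e, map_mul, hc1, one_mul] at hG
    exact hG
  have hK : v (α * c + 3) < 1 := by
    apply vm_of_pow v (n := 2) (by norm_num)
    have e : (α * c + 3) ^ 2 = (4 * c ^ 3 + α ^ 2 * c ^ 2 + 2 * α * c + 1) - 4 * (c ^ 3 - α * c - 2) := by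
      ring
    rw [e]
    exact vm_sub v hF (vm_mul v n4 hH)
  have hcc : v (c ^ 3 + 1) < 1 := by
    have e : c ^ 3 + 1 = (c ^ 3 - α * c - 2) + (α * c + 3) := by ring
    rw [e]
    exact vm_add v hH hK
  apply h27
  have e : α ^ 3 - 27 = α ^ 3 * (c ^ 3 + 1) - ((α * c + 3) ^ 2 - 9 * (α * c + 3) + 27) * (α * c + 3) := by
    ring
  rw [e]
  exact vm_sub v (vm_mul v hβ hcc) (vm_mul v (vm_add_le v (vm_sub_le v (vm_pow_le v hK.le 2)
    (vm_mul_le v n9 hK.le)) n27) hK)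

private theorem model_good2 (hL : IsLat L) (v : Valuation ℂ Γ) (hj : v (jj L) ≤ 1) (h2 : v (2 : ℂ) = 1) :
    ∃ r b2 b4 b6 b8 : ℂ, r ≠ 0 ∧ Crd v L (fun z => r ^ 2 * wp L z - b2 / 12) b2 b4 b6 b8 ∧ GR v b2 b4 b6 b8 := by
  obtain ⟨l, hl⟩ := vm_exists2 (jj L)
  have n4 : v (4 : ℂ) = 1 := by
    have : (4 : ℂ) = 2 ^ 2 := by norm_num
    rw [this, map_pow, h2, one_pow]
  have n256 : v (256 : ℂ) = 1 := by
    have : (256 : ℂ) = 2 ^ 8 := by norm_num
    rw [this, map_pow, h2, one_pow]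
  have n1 : v (1 : ℂ) ≤ 1 := le_of_eq v.map_one
  have hl1 : v l ≤ 1 := by
    by_contra hc
    push Not at hc
    have a1 : v (l - 1) = v l := vm_big v hc n1
    have a2 : v (l ^ 2 - l + 1) = v l ^ 2 := by
      have e : l ^ 2 - l + 1 = l * (l - 1) - (-1) := by ring
      have a3 : v (l * (l - 1)) = v l ^ 2 := by rw [map_mul, a1, sq]
      rw [e, vm_big v (by rw [a3]; exact one_lt_pow₀ hc (by norm_num)) (by
        rw [Valuation.map_neg]
        exact n1), a3]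
    have h5 : v (256 * (l ^ 2 - l + 1) ^ 3) = v l ^ 6 := by
      rw [map_mul, n256, one_mul, map_pow, a2, ← pow_mul]
    have h6 : v (jj L * (l ^ 2 * (l - 1) ^ 2)) ≤ v l ^ 4 := by
      rw [map_mul, map_mul, map_pow, map_pow, a1, ← pow_add]
      calc v (jj L) * v l ^ 4 ≤ 1 * v l ^ 4 := by gcongr
        _ = v l ^ 4 := one_mul _
    rw [← hl, h5] at h6
    exact absurd h6 (not_le.2 (pow_lt_pow_right₀ hc (by norm_num)))
  have hq : v (l ^ 2 - l + 1) ≤ 1 := vm_add_le v (vm_sub_le v (vm_pow_le v hl1 2) hl1) n1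
  have hlm : v (l - 1) ≤ 1 := vm_sub_le v hl1 n1
  have key : ¬ v (l * (l - 1)) < 1 := by
    intro hc
    apply vm_one v
    have e : (1 : ℂ) = (l ^ 2 - l + 1) - l * (l - 1) := by ring
    rw [e]
    refine vm_sub v (vm_of_pow v (n := 3) (by norm_num) ?_) hc
    have e2 : v ((l ^ 2 - l + 1) ^ 3) = v (256 * (l ^ 2 - l + 1) ^ 3) := by
      rw [map_mul v 256, n256, one_mul]
    rw [e2, hl]
    have e3 : l ^ 2 * (l - 1) ^ 2 = (l * (l - 1)) * (l * (l - 1)) := by ring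
    rw [e3]
    exact vm_mul v hj (vm_mul v hc.le hc)
  have hne : l * (l - 1) ≠ 0 := by
    intro h0
    rw [h0, map_zero] at key
    exact key zero_lt_one
  obtain ⟨r, hr, hr4, hr6⟩ := exists_r hL (A := 4 / 3 * (l ^ 2 - l + 1))
    (B := 64 * (1 + l) ^ 3 / 216 - 8 * l * (1 + l) / 6)
    (by
      intro h0
      apply pow_ne_zero 2 hne
      linear_combination (1 / 16 : ℂ) * h0)
    (by linear_combination (-16 : ℂ) * hl)
  refine ⟨r, -4 * (1 + l), 2 * l, 0, -l ^ 2, hr, crd_of hL v hr ?_ (vm_mul_le v h2.le hl1)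
    (by rw [map_zero]; exact zero_le_one) ?_ (by ring) (by rw [hr4]; ring) (by rw [hr6]; ring), ?_⟩
  · refine vm_mul_le v ?_ (vm_add_le v n1 hl1)
    rw [Valuation.map_neg]
    exact n4.le
  · rw [Valuation.map_neg]
    exact vm_pow_le v hl1 2
  · intro c hc hF hG
    have hs : v (c ^ 2 - l) < 1 := by
      apply vm_of_pow v (n := 2) (by norm_num)
      have e : (c ^ 2 - l) ^ 2 = c ^ 4 - 2 * l * c ^ 2 - 2 * 0 * c - -l ^ 2 := by ring
      rw [e]
      exact hG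
    have e1 : 4 * c ^ 3 + -4 * (1 + l) * c ^ 2 + 2 * (2 * l) * c + 0 = 4 * (c * (c - 1) * (c - l)) := by ring
    rw [e1, map_mul, n4, one_mul] at hF
    have hcm : v (c - 1) ≤ 1 := vm_sub_le v hc n1
    have hcl : v (c - l) ≤ 1 := vm_sub_le v hc hl1
    have hcases : v c < 1 ∨ v (c - 1) < 1 ∨ v (c - l) < 1 := by
      by_contra hcon
      push Not at hcon
      obtain ⟨c1, c2, c3⟩ := hcon
      have : v (c * (c - 1) * (c - l)) = 1 := by
        rw [map_mul, map_mul, le_antisymm hc c1, le_antisymm hcm c2, le_antisymm hcl c3]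
        simp
      rw [this] at hF
      exact lt_irrefl _ hF
    apply key
    rcases hcases with h | h | h
    · have e : l * (l - 1) = (l - 1) * (c * c - (c ^ 2 - l)) := by ring
      rw [e]
      exact vm_mul v hlm (vm_sub v (vm_mul v hc h) hs)
    · have e : l * (l - 1) = l * ((c + 1) * (c - 1) - (c ^ 2 - l)) := by ring
      rw [e]
      exact vm_mul v hl1 (vm_sub v (vm_mul v (vm_add_le v hc n1) h) hs)
    · have e : l * (l - 1) = (c ^ 2 - l) - (c + l) * (c - l) := by ring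
      rw [e]
      exact vm_sub v hs (vm_mul v (vm_add_le v hc hl1) h)

theorem model_good (hL : IsLat L) (v : Valuation ℂ Γ) (hj : v (jj L) ≤ 1) :
    ∃ r b2 b4 b6 b8 : ℂ, r ≠ 0 ∧ Crd v L (fun z => r ^ 2 * wp L z - b2 / 12) b2 b4 b6 b8 ∧ GR v b2 b4 b6 b8 := by
  have n2 : v (2 : ℂ) ≤ 1 := by simpa using vm_nat v 2
  have n3 : v (3 : ℂ) ≤ 1 := by simpa using vm_nat v 3
  rcases lt_or_eq_of_le n3 with h3 | h3
  · rcases lt_or_eq_of_le n2 with h2 | h2
    · exfalso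
      apply vm_one v
      have e : (1 : ℂ) = 3 - 2 := by norm_num
      rw [e]
      exact vm_sub v h3 h2
    · exact model_good2 hL v hj h2
  · exact model_good3 hL v hj h3

theorem model_mult (hL : IsLat L) (v : Valuation ℂ Γ) (hj : 1 < v (jj L)) :
    ∃ r ε : ℂ, r ≠ 0 ∧ v ε < 1 ∧
      Crd v L (fun z => r ^ 2 * wp L z - 1 / 12) 1 (-72 * ε) (-4 * ε) (-ε - 1296 * ε ^ 2) := by
  have n1728 : v (1728 : ℂ) ≤ 1 := by simpa using vm_nat v 1728
  have n72 : v (-72 : ℂ) ≤ 1 := by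
    rw [Valuation.map_neg]
    simpa using vm_nat v 72
  have n4 : v (-4 : ℂ) ≤ 1 := by
    rw [Valuation.map_neg]
    simpa using vm_nat v 4
  have n1296 : v (1296 : ℂ) ≤ 1 := by simpa using vm_nat v 1296
  have hb : v (jj L - 1728) = v (jj L) := vm_big v hj n1728
  have hne : jj L - 1728 ≠ 0 := by
    intro h0
    rw [h0, map_zero] at hb
    rw [← hb] at hj
    exact absurd hj (not_lt.2 zero_le_one)
  have hjne : jj L ≠ 0 := by
    intro h0
    rw [h0, map_zero] at hj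
    exact absurd hj (not_lt.2 zero_le_one)
  obtain ⟨ε, hε⟩ : ∃ ε : ℂ, ε = (jj L - 1728)⁻¹ := ⟨_, rfl⟩
  have hε0 : ε ≠ 0 := by
    rw [hε]
    exact inv_ne_zero hne
  have hεj : jj L * ε = 1 + 1728 * ε := by
    have h1 : (jj L - 1728) * ε = 1 := by
      rw [hε, mul_inv_cancel₀ hne]
    linear_combination h1
  have hv : v ε < 1 := by
    rw [hε, map_inv₀, hb]
    exact inv_lt_one_of_one_lt₀ hj
  obtain ⟨r, hr, hr4, hr6⟩ := exists_r hL (A := 1 / 12 + 144 * ε) (B := -1 / 216 - 8 * ε)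
    (by
      have e : (1 / 12 + 144 * ε) ^ 3 - 27 * (-1 / 216 - 8 * ε) ^ 2 = ε * (jj L * ε) ^ 2 := by
        rw [hεj]
        ring
      rw [e]
      exact mul_ne_zero hε0 (pow_ne_zero 2 (mul_ne_zero hjne hε0)))
    (by
      have e : (1 / 12 + 144 * ε) ^ 3 - 27 * (-1 / 216 - 8 * ε) ^ 2 = ε * (1 + 1728 * ε) ^ 2 := by
        ring
      rw [e]
      linear_combination (1 + 1728 * ε) ^ 2 * hεj)
  refine ⟨r, ε, hr, hv, ?_⟩
  refine crd_of hL v hr (le_of_eq v.map_one) (vm_mul_le v n72 hv.le) (vm_mul_le v n4 hv.le) ?_ (by ring)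
    (by rw [hr4]; ring) (by rw [hr6]; ring)
  refine vm_sub_le v ?_ (vm_mul_le v n1296 (vm_pow_le v hv.le 2))
  rw [Valuation.map_neg]
  exact hv.le

end CMS
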