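import Mathlib
import Pool.Agent.Lib.CMS.V3e
import Pool.Agent.Lib.CMS.VMod
import Pool.Agent.Lib.CMS.Cj
import Pool.Agent.Lib.MP_ea3785_nt.WeakCheb

/-!
# V3f: lattices with complex multiplication have potential good reduction
-/

set_option autoImplicit false

namespace CMS

open Complex NumberField MPd9f52e

variable {Γ : Type*} [LinearOrderedCommGroupWithZero Γ] {k : Type} [Field k] [NumberField k]

private theorem v3f_hom_unique {l : ℕ} (φ ψ : 𝓞 ℚ →+* ZMod l) : φ = ψ := by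
  have h : ∀ f : 𝓞 ℚ →+* ZMod l, f = (f.comp Rat.ringOfIntegersEquiv.symm.toRingHom).comp
      Rat.ringOfIntegersEquiv.toRingHom := by
    intro f
    refine RingHom.ext fun x => ?_
    change f x = f (Rat.ringOfIntegersEquiv.symm (Rat.ringOfIntegersEquiv x))
    rw [RingEquiv.symm_apply_apply]
  rw [h φ, h ψ]
  congr 1
  exact RingHom.ext_int _ _

theorem exists_inert (hk : IQ k) (N : ℕ) : ∃ l : ℕ, l.Prime ∧ N < l ∧ IsEmpty (𝓞 k →+* ZMod l) := by
  classical
  have hq : Algebra.IsQuadraticExtension ℚ k := ⟨hk.two⟩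
  have hgal : IsGalois ℚ k := inferInstance
  have hcard : Nat.card (k ≃ₐ[ℚ] k) = 2 := by
    rw [IsGalois.card_aut_eq_finrank, hk.two]
  obtain ⟨c, hc⟩ : ∃ c : k ≃ₐ[ℚ] k, c ≠ 1 := by
    by_contra hcon
    push Not at hcon
    have : Nat.card (k ≃ₐ[ℚ] k) = 1 := by
      rw [Nat.card_eq_one_iff_unique]
      exact ⟨⟨fun a b => by rw [hcon a, hcon b]⟩, ⟨1⟩⟩
    omega
  obtain ⟨p, hp, hpN, φ, hφ⟩ := Pool.Agent.Lib.WeakCheb.exists_no_extension ℚ k c hc N
  exact ⟨p, hp, hpN, ⟨fun ψ => hφ ψ (v3f_hom_unique _ _)⟩⟩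

omit [NumberField k] in
private theorem v3f_mul (e : k →+* ℂ) (a b : 𝓞 k) : e ((a * b : 𝓞 k) : k) = e (a : k) * e (b : k) := by
  simp

omit [NumberField k] in
private theorem v3f_add (e : k →+* ℂ) (a b : 𝓞 k) : e ((a + b : 𝓞 k) : k) = e (a : k) + e (b : k) := by
  simp

/-- elements with real image are rational -/
private theorem v3f_rat (hk : IQ k) (e : k →+* ℂ) (x : k) (hx : (starRingEnd ℂ) (e x) = e x) :
    ∃ q : ℚ, x = algebraMap ℚ k q := by
  by_contra hcon
  push Not at hcon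
  have hli : LinearIndependent ℚ ![(1 : k), x] := by
    rw [LinearIndependent.pair_iff]
    intro s t hst
    have ht : t = 0 := by
      by_contra ht
      apply hcon (-s / t)
      rw [map_div₀, map_neg]
      have ht' : algebraMap ℚ k t ≠ 0 := by
        rw [map_ne_zero]
        exact ht
      rw [eq_div_iff ht']
      rw [Algebra.smul_def, Algebra.smul_def, mul_one] at hst
      linear_combination hst
    refine ⟨?_, ht⟩
    rw [ht, zero_smul, add_zero, Algebra.smul_def, mul_one] at hst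
    exact (map_eq_zero _).1 hst
  have hcard : Fintype.card (Fin 2) = Module.finrank ℚ k := by rw [hk.two, Fintype.card_fin]
  let b := basisOfLinearIndependentOfCardEqFinrank hli hcard
  have hconj : ComplexEmbedding.conjugate e ≠ e := by
    intro h
    have h3 := hk.cpx (InfinitePlace.mk e)
    rw [InfinitePlace.isComplex_mk_iff] at h3
    exact h3 h
  apply hconj
  ext y
  have hy := b.sum_repr y
  rw [Fin.sum_univ_two] at hy
  have hb0 : b 0 = 1 := by
    rw [coe_basisOfLinearIndependentOfCardEqFinrank]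
    rfl
  have hb1 : b 1 = x := by
    rw [coe_basisOfLinearIndependentOfCardEqFinrank]
    rfl
  rw [hb0, hb1, Algebra.smul_def, Algebra.smul_def, mul_one] at hy
  have hr : ∀ q : ℚ, e (algebraMap ℚ k q) = (q : ℂ) := fun q => by
    rw [eq_ratCast (algebraMap ℚ k), map_ratCast]
  have hr' : ∀ q : ℚ, (starRingEnd ℂ) (q : ℂ) = (q : ℂ) := fun q => map_ratCast _ _
  change (starRingEnd ℂ) (e y) = e y
  rw [← hy, map_add, map_mul, hr, hr, map_add, map_mul, hr', hr', hx]

/-- the complex conjugate of an element of `𝓞 k` and the norm -/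
theorem exists_conj (hk : IQ k) (e : k →+* ℂ) (a : 𝓞 k) : ∃ (a' : 𝓞 k) (N : ℕ),
    e (a' : k) = (starRingEnd ℂ) (e (a : k)) ∧ e (a : k) * e (a' : k) = N := by
  obtain ⟨c, hc⟩ := exists_cjk hk
  let a' : 𝓞 k := RingOfIntegers.mapRingEquiv c a
  have ha' : (a' : k) = c (a : k) := rfl
  have h1 : e (a' : k) = (starRingEnd ℂ) (e (a : k)) := by rw [ha', hc]
  have h2 : (starRingEnd ℂ) (e ((a * a' : 𝓞 k) : k)) = e ((a * a' : 𝓞 k) : k) := by
    rw [v3f_mul, map_mul, h1, Complex.conj_conj, mul_comm]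
  obtain ⟨q, hq⟩ := v3f_rat hk e _ h2
  have h3 : IsIntegral ℤ (algebraMap ℚ k q) := by
    rw [← hq]
    exact RingOfIntegers.isIntegral_coe _
  have h4 : IsIntegral ℤ q := (isIntegral_algebraMap_iff (algebraMap ℚ k).injective).1 h3
  obtain ⟨n, hn⟩ := IsIntegrallyClosed.isIntegral_iff.1 h4
  have h5 : e (a : k) * e (a' : k) = (n : ℂ) := by
    rw [← v3f_mul, hq, ← hn]
    simp
  have h6 : (0 : ℝ) ≤ n := by
    have h7 : ((Complex.normSq (e (a : k)) : ℝ) : ℂ) = ((n : ℝ) : ℂ) := by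
      rw [Complex.normSq_eq_conj_mul_self, ← h1, mul_comm, h5]
      simp
    have h8 := Complex.ofReal_injective h7
    rw [← h8]
    exact Complex.normSq_nonneg _
  obtain ⟨N, rfl⟩ := Int.eq_ofNat_of_zero_le (show 0 ≤ n by exact_mod_cast h6)
  exact ⟨a', N, h1, by rw [h5]; simp⟩

private theorem v3f_int (v : Valuation ℂ Γ) {x : ℂ} (hx : IsIntegral ℤ x) : v x ≤ 1 := by
  have h1 : IsIntegral v.integer x := hx.tower_top
  exact (Valuation.integer.integers v).mem_of_integral h1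

omit [NumberField k] in
private theorem v3f_O (v : Valuation ℂ Γ) (e : k →+* ℂ) (b : 𝓞 k) : v (e (b : k)) ≤ 1 :=
  v3f_int v ((RingOfIntegers.isIntegral_coe b).map (e.toIntAlgHom))

private theorem v3f_nat (v : Valuation ℂ Γ) (n : ℕ) : v (n : ℂ) ≤ 1 := by
  refine v3f_int v ?_
  have := isIntegral_algebraMap (R := ℤ) (A := ℂ) (x := (n : ℤ))
  simpa using this

private theorem v3f_coprime (v : Valuation ℂ Γ) {m q : ℕ} (h : m.Coprime q) (hq : v (q : ℂ) < 1) :
    v (m : ℂ) = 1 := by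
  refine le_antisymm (v3f_nat v m) ?_
  by_contra hlt
  rw [not_le] at hlt
  have h1 : (m : ℤ) * Nat.gcdA m q + (q : ℤ) * Nat.gcdB m q = 1 := by
    have := Nat.gcd_eq_gcd_ab m q
    rw [h] at this
    push_cast at this
    linarith
  have h3 : ((m : ℂ)) * (Nat.gcdA m q : ℂ) + (q : ℂ) * (Nat.gcdB m q : ℂ) = 1 := by
    exact_mod_cast h1
  have hint : ∀ n : ℤ, v (n : ℂ) ≤ 1 := fun n =>
    v3f_int v (by simpa using isIntegral_algebraMap (R := ℤ) (A := ℂ) (x := n))
  have h4 : v (((m : ℂ)) * (Nat.gcdA m q : ℂ) + (q : ℂ) * (Nat.gcdB m q : ℂ)) < 1 := by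
    refine (v.map_add _ _).trans_lt (max_lt ?_ ?_)
    · rw [map_mul]
      exact mul_lt_one_of_lt_of_le hlt (hint _)
    · rw [map_mul]
      exact mul_lt_one_of_lt_of_le hq (hint _)
  rw [h3, map_one] at h4
  exact lt_irrefl _ h4

/-- all large primes are units -/
private theorem v3f_large (v : Valuation ℂ Γ) : ∃ N : ℕ, 2 ≤ N ∧ ∀ l : ℕ, l.Prime → N < l → v (l : ℂ) = 1 := by
  by_cases h : ∃ p : ℕ, p.Prime ∧ v (p : ℂ) < 1
  · obtain ⟨p, hp, hvp⟩ := h
    refine ⟨max 2 p, le_max_left _ _, fun l hl hlt => v3f_coprime v ?_ hvp⟩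
    rw [Nat.coprime_primes hl hp]
    exact ((le_max_right 2 p).trans_lt hlt).ne'
  · push Not at h
    exact ⟨2, le_rfl, fun l hl _ => le_antisymm (v3f_nat v l) (h l hl)⟩

/-- a representative modulo `l` that is a unit -/
private theorem v3f_rep (hk : IQ k) (e : k →+* ℂ) (v : Valuation ℂ Γ) {l : ℕ} (hl : l.Prime) (hvl : v (l : ℂ) = 1)
    (a : 𝓞 k) : a = 0 ∨ ∃ (b a' a'' : 𝓞 k) (N : ℕ), a' = a + l * b ∧ e (a' : k) * e (a'' : k) = N ∧
      v (N : ℂ) = 1 ∧ v (e (a' : k)) = 1 := by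
  by_cases h : ∃ p : ℕ, p.Prime ∧ v (p : ℂ) < 1
  · right
    obtain ⟨p, hp, hvp⟩ := h
    have hlp : l.Coprime p := by
      rw [Nat.coprime_primes hl hp]
      rintro rfl
      exact absurd hvl hvp.ne
    obtain ⟨l', -, hl'⟩ := Nat.exists_mul_mod_eq_one_of_coprime hlp hp.one_lt
    have h1 : l * l' = 1 + p * (l * l' / p) := by
      have := Nat.mod_add_div (l * l') p
      rw [hl'] at this
      exact this.symm
    set t := l * l' / p with ht
    have h2 : ((l : ℕ) : 𝓞 k) * ((l' : ℕ) : 𝓞 k) = 1 + (p : 𝓞 k) * (t : 𝓞 k) := by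
      have := congrArg (Nat.cast : ℕ → 𝓞 k) h1
      rw [Nat.cast_mul, Nat.cast_add, Nat.cast_mul, Nat.cast_one] at this
      exact this
    have hunit : ∀ b : 𝓞 k, v (e ((1 + (p : 𝓞 k) * b : 𝓞 k) : k)) = 1 := by
      intro b
      have h3 : e ((1 + (p : 𝓞 k) * b : 𝓞 k) : k) = 1 + (p : ℂ) * e (b : k) := by
        simp
      rw [h3]
      have h4 : v ((p : ℂ) * e (b : k)) < v 1 := by
        rw [map_mul, map_one]
        exact mul_lt_one_of_lt_of_le hvp (v3f_O v e b)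
      rw [Valuation.map_add_eq_of_lt_left _ h4, map_one]
    obtain ⟨a'', N, hc1, hc2⟩ := exists_conj hk e (1 + (p : 𝓞 k) * ((t : 𝓞 k) * (1 - a)))
    refine ⟨(l' : 𝓞 k) * (1 - a), 1 + (p : 𝓞 k) * ((t : 𝓞 k) * (1 - a)), a'', N, ?_, hc2, ?_, hunit _⟩
    · linear_combination (a - 1) * h2
    · obtain ⟨c, hc⟩ := exists_cjk hk
      have h5 : e (a'' : k) = e ((1 + (p : 𝓞 k) * ((t : 𝓞 k) * (1 - RingOfIntegers.mapRingEquiv c a)) : 𝓞 k) : k) := by
        have h6 : ((RingOfIntegers.mapRingEquiv c a : 𝓞 k) : k) = c (a : k) := rfl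
        rw [hc1]
        simp only [map_add, map_mul, map_sub, map_one, map_natCast, h6, hc]
      rw [← hc2, map_mul, hunit, h5, hunit, mul_one]
  · push Not at h
    by_cases ha : a = 0
    · exact Or.inl ha
    right
    have hnat : ∀ n : ℕ, n ≠ 0 → v (n : ℂ) = 1 := by
      intro n
      induction n using Nat.recOnMul with
      | zero => exact fun h => absurd rfl h
      | one => simp
      | prime p hp => exact fun _ => le_antisymm (v3f_nat v p) (h p hp)
      | mul a b iha ihb =>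
        intro hab
        rw [Nat.cast_mul, map_mul, iha fun h => hab (by rw [h, zero_mul]),
          ihb fun h => hab (by rw [h, mul_zero]), mul_one]
    obtain ⟨a'', N, hc1, hc2⟩ := exists_conj hk e a
    have hN : N ≠ 0 := by
      rintro rfl
      rw [Nat.cast_zero, hc1] at hc2
      have h0 : e (a : k) = 0 := by
        rcases mul_eq_zero.1 hc2 with h | h
        · exact h
        · exact (map_eq_zero (starRingEnd ℂ)).1 h
      exact ha (RingOfIntegers.coe_eq_zero_iff.1 ((map_eq_zero e).1 h0))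
    refine ⟨0, a, a'', N, by simp, hc2, hnat N hN, ?_⟩
    have h1 : v (e (a : k)) * v (e (a'' : k)) = 1 := by
      rw [← map_mul, hc2, hnat N hN]
    refine le_antisymm (v3f_O v e a) ?_
    by_contra hlt
    rw [not_le] at hlt
    have h2 := mul_lt_one_of_lt_of_le hlt (v3f_O v e a'')
    rw [h1] at h2
    exact lt_irrefl _ h2

theorem j_int (hk : IQ k) (e : k →+* ℂ) {L : Submodule ℤ ℂ} (hL : IsLat L) (hO : ∀ a : 𝓞 k, ∀ l ∈ L, e (a : k) * l ∈ L)
    (v : Valuation ℂ Γ) : v (jj L) ≤ 1 := by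
  by_contra hj
  rw [not_le] at hj
  obtain ⟨r, ε, hr, hε, hcrd⟩ := model_mult hL v hj
  have hX : MCrd v L (fun z => r ^ 2 * wp L z - 1 / 12) ε := ⟨hcrd, hε⟩
  obtain ⟨N, hN2, hN⟩ := v3f_large v
  obtain ⟨l, hl, hlN, hempty⟩ := exists_inert hk N
  have hvl := hN l hl hlN
  have hl2 : l ≠ 2 := by omega
  have hζ := Complex.isPrimitiveRoot_exp l hl.ne_zero
  set ζ := Complex.exp (2 * Real.pi * Complex.I / l) with hζdef
  obtain ⟨u₀, hu₀, hlu₀, h₀⟩ := exists_mu hL hr hX hl hl2 hvl hζ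
  have hvζ : v ζ = 1 := by
    have h1 : v ζ ^ l = 1 := by rw [← map_pow, hζ.pow_eq_one, map_one]
    rcases lt_trichotomy (v ζ) 1 with h | h | h
    · exact absurd h1 (pow_lt_one₀ zero_le h hl.ne_zero).ne
    · exact h
    · exact absurd h1 (one_lt_pow₀ h hl.ne_zero).ne'
  have hvF : v (FF ζ) = 1 := by
    have h1 := val_one_sub_zeta hl hvl hζ (j := 1) le_rfl hl.one_lt
    rw [pow_one] at h1
    unfold FF
    rw [map_div₀, map_pow, h1, hvζ]
    simp
  have hvX : v (r ^ 2 * wp L u₀ - 1 / 12) = 1 := by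
    rw [← hvF]
    refine Valuation.map_eq_of_sub_lt v ?_
    rw [hvF, Valuation.map_sub_swap]
    rw [Valuation.map_sub_swap]
    exact h₀
  have hTP : TP v L u₀ := ⟨l, hvl, hlu₀⟩
  -- multiplication by elements of the ring of integers
  have key : ∀ a : 𝓞 k, ∃ m : ℤ, e (a : k) * u₀ - (m : ℂ) * u₀ ∈ L := by
    intro a
    rcases v3f_rep hk e v hl hvl a with rfl | ⟨b, a', a'', M, hab, hM, hvM, hva⟩
    · exact ⟨0, by simp⟩
    have hdiff : e (a : k) * u₀ = e (a' : k) * u₀ - e (b : k) * ((l : ℂ) * u₀) := by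
      rw [hab]
      simp only [map_add, map_mul, map_natCast]
      ring
    have hbl : e (b : k) * ((l : ℂ) * u₀) ∈ L := hO b _ hlu₀
    by_cases hau : e (a' : k) * u₀ ∈ L
    · refine ⟨0, ?_⟩
      rw [hdiff, Int.cast_zero, zero_mul, sub_zero]
      exact L.sub_mem hau hbl
    · have h1 := e0_mul hL hr hX (hO a') (hO a'') hM hvM hva hTP hu₀ hvX hau
      have h2 : (l : ℂ) * (e (a' : k) * u₀) ∈ L := by
        have := hO a' _ hlu₀
        rwa [show e (a' : k) * ((l : ℂ) * u₀) = (l : ℂ) * (e (a' : k) * u₀) by ring] at this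
      obtain ⟨i, hi1, hil, hi⟩ := mu_cyclic hL hr hX hl hl2 hvl hζ hu₀ hlu₀ h₀ hau h2 h1
      rcases hi with hi | hi
      · refine ⟨i, ?_⟩
        rw [hdiff]
        have := L.sub_mem hi hbl
        rwa [show e (a' : k) * u₀ - (i : ℂ) * u₀ - e (b : k) * ((l : ℂ) * u₀) =
          e (a' : k) * u₀ - e (b : k) * ((l : ℂ) * u₀) - ((i : ℤ) : ℂ) * u₀ by push_cast; ring] at this
      · refine ⟨-i, ?_⟩
        rw [hdiff]
        have := L.sub_mem hi hbl
        rwa [show e (a' : k) * u₀ + (i : ℂ) * u₀ - e (b : k) * ((l : ℂ) * u₀) =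
          e (a' : k) * u₀ - e (b : k) * ((l : ℂ) * u₀) - ((-i : ℤ) : ℂ) * u₀ by push_cast; ring] at this
  have hint : ∀ m : ℤ, (m : ℂ) * u₀ ∈ L → (m : ZMod l) = 0 := by
    intro m hm
    by_contra hne
    apply hu₀
    have hnd : ¬ (l : ℤ) ∣ m := fun h => hne ((ZMod.intCast_zmod_eq_zero_iff_dvd m l).2 h)
    have hcop : IsCoprime (l : ℤ) m := (Nat.prime_iff_prime_int.1 hl).coprime_iff_not_dvd.2 hnd
    obtain ⟨s, t, hst⟩ := hcop
    have h1 : s • ((l : ℂ) * u₀) + t • ((m : ℂ) * u₀) = u₀ := by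
      rw [zsmul_eq_mul, zsmul_eq_mul]
      have h2 : (s : ℂ) * (l : ℂ) + (t : ℂ) * (m : ℂ) = 1 := by exact_mod_cast congrArg (Int.cast : ℤ → ℂ) hst
      linear_combination u₀ * h2
    rw [← h1]
    exact L.add_mem (L.smul_mem _ hlu₀) (L.smul_mem _ hm)
  choose m hm using key
  have spec : ∀ (a : 𝓞 k) (n : ℤ), e (a : k) * u₀ - (n : ℂ) * u₀ ∈ L → ((m a : ℤ) : ZMod l) = (n : ZMod l) := by
    intro a n hn
    have h1 := hint (m a - n) (by
      have := L.sub_mem hn (hm a)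
      rwa [show e (a : k) * u₀ - (n : ℂ) * u₀ - (e (a : k) * u₀ - (m a : ℂ) * u₀) =
        ((m a - n : ℤ) : ℂ) * u₀ by push_cast; ring] at this)
    rw [Int.cast_sub, sub_eq_zero] at h1
    exact h1
  refine hempty.false (RingHom.mk' ⟨⟨fun a => ((m a : ℤ) : ZMod l), ?_⟩, ?_⟩ ?_)
  · have := spec 1 1 (by simp)
    simpa using this
  · intro a b
    have := spec (a * b) (m a * m b) (by
      have h1 := hO a _ (hm b)
      have h2 : (m b : ℂ) * (e (a : k) * u₀ - (m a : ℂ) * u₀) ∈ L := by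
        rw [← zsmul_eq_mul]
        exact L.smul_mem _ (hm a)
      have h3 := L.add_mem h1 h2
      rwa [show e (a : k) * (e (b : k) * u₀ - (m b : ℂ) * u₀) + (m b : ℂ) * (e (a : k) * u₀ - (m a : ℂ) * u₀) =
        e ((a * b : 𝓞 k) : k) * u₀ - ((m a * m b : ℤ) : ℂ) * u₀ by
          rw [v3f_mul]; push_cast; ring] at h3)
    simpa using this
  · intro a b
    have := spec (a + b) (m a + m b) (by
      have h3 := L.add_mem (hm a) (hm b)
      rwa [show e (a : k) * u₀ - (m a : ℂ) * u₀ + (e (b : k) * u₀ - (m b : ℂ) * u₀) =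
        e ((a + b : 𝓞 k) : k) * u₀ - ((m a + m b : ℤ) : ℂ) * u₀ by
          rw [v3f_add]; push_cast; ring] at h3)
    simpa using this

end CMS
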