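import Mathlib
import Pool.Agent.Lib.CMS.Defs
import Pool.Agent.Lib.CMS.LBas
import Pool.Agent.Lib.CMS.LWp
import Pool.Agent.Lib.CMS.OLc1
import Pool.Agent.Lib.CMS.OCard
import Pool.Agent.Lib.CMS.VE1
import Pool.Agent.Lib.CMS.V34
import Pool.Agent.Lib.CMS.V3f

/-!
# FE1: the P-torsion lies in the kernel of reduction (paper 3.5)  (about 190 lines)

PROOF. `L = Lc e c`, `L' = Lc e (P * c)`.  Choose `a ∈ P` with `(a) + P (q) = P` (`Ideal.exists_sup_span_eq`), `(a) = P b`: `b` is prime to `q` (`b + (q) = (1)` after cancelling `P`), `a ≠ 0`.  `a'` = the conjugate of `a` (`exists_conj` in V3f), `e(a) e(a') = N`, a natural number, `N ≠ 0`.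
`exists_e1_tor` (V34) with `a, a'` (`v (e a) < 1`): `u₀ ∉ L`, `e(a) u₀ ∈ L`, `E1 v L X u₀`.  Let `n = absNorm b ∈ b`, prime to `q` (`b` prime to `q`); `v (q) < 1` (`q = absNorm P ∈ P`), so `v (n) = 1` (`1 = x n + y q`).
`w₀ = n u₀`: for `x ∈ P`: `x n ∈ P b = (a)`, so `e(x) w₀ ∈ L` (`Lc_smul`): `w₀ ∈ L'` (`mem_Lc_mul`).  `E1 v L X w₀` (`e1_nsmul`).  `w₀ ∉ L`: otherwise `u₀` is a point of order prime to the residue characteristic (`TP v L u₀`, as `v n = 1`), not in `L`, so not in `E1` (`tp_good`, `good_not_e1`).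
`L'/L` has prime order `q` (`exists_reps`, `Lc_card`), so it is generated by `w₀`: for `u ∈ L'` there is `j < q` with `u - j w₀ ∈ L` (the representatives of `j w₀`, `0 ≤ j < q`, are distinct since `w₀` has order `q` modulo `L` (`card_mul_mem`), so they fill `S`).
`E1 v L X (j w₀)` (`e1_nsmul`) and `E1` is `L`-periodic (`e1_add`, elements of `L` are in `E1`).
-/

set_option autoImplicit false

namespace CMS

open Complex NumberField MPd9f52e

variable {k : Type} [Field k] [NumberField k]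

variable {Γ : Type*} [LinearOrderedCommGroupWithZero Γ]

private theorem fe1_mul (e : k →+* ℂ) (x y : 𝓞 k) :
    e ((x * y : 𝓞 k) : k) = e (x : k) * e (y : k) := by
  rw [← map_mul]; rfl

private theorem fe1_int (v : Valuation ℂ Γ) {x : ℂ} (hx : IsIntegral ℤ x) : v x ≤ 1 := by
  have h1 : IsIntegral v.integer x := hx.tower_top
  exact (Valuation.integer.integers v).mem_of_integral h1

private theorem fe1_O (v : Valuation ℂ Γ) (e : k →+* ℂ) (b : 𝓞 k) : v (e (b : k)) ≤ 1 :=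
  fe1_int v ((RingOfIntegers.isIntegral_coe b).map (e.toIntAlgHom))

/-- a prime number `q` and an ideal `b` prime to `q`: a natural number of valuation one in `b` -/
private theorem fe1_nat (hk : IQ k) (e : k →+* ℂ) (v : Valuation ℂ Γ) {q : ℕ} (hq : v (q : ℂ) < 1)
    {b : Ideal (𝓞 k)} (hb : b ⊔ Ideal.span {(q : 𝓞 k)} = ⊤) :
    ∃ n : ℕ, v (n : ℂ) = 1 ∧ (n : 𝓞 k) ∈ b := by
  have h1 : (1 : 𝓞 k) ∈ b ⊔ Ideal.span {(q : 𝓞 k)} := by rw [hb]; trivial
  obtain ⟨β, hβ, γ, hγ, hβγ⟩ := Submodule.mem_sup.1 h1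
  obtain ⟨δ, rfl⟩ := Ideal.mem_span_singleton.1 hγ
  obtain ⟨β', N, hβ', hN⟩ := exists_conj hk e β
  obtain ⟨δ', M, hδ', -⟩ := exists_conj hk e δ
  have e1 : e (β : k) = 1 - (q : ℂ) * e (δ : k) := by
    have h2 : e ((β + (q : 𝓞 k) * δ : 𝓞 k) : k) = e ((1 : 𝓞 k) : k) := by rw [hβγ]
    have h3 : e ((β + (q : 𝓞 k) * δ : 𝓞 k) : k) = e (β : k) + (q : ℂ) * e (δ : k) := by simp
    have h4 : e ((1 : 𝓞 k) : k) = 1 := by simp
    rw [h3, h4] at h2
    linear_combination h2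
  have e2 : e (β' : k) = 1 - (q : ℂ) * e (δ' : k) := by
    rw [hβ', hδ', e1]
    simp
  refine ⟨N, ?_, ?_⟩
  · rw [← hN, e1, e2]
    have h5 : v ((q : ℂ) * (e (δ : k) + e (δ' : k) - (q : ℂ) * (e (δ : k) * e (δ' : k)))) < 1 := by
      rw [map_mul]
      refine mul_lt_one_of_lt_of_le hq ?_
      have h6 : e (δ : k) + e (δ' : k) - (q : ℂ) * (e (δ : k) * e (δ' : k)) =
          e ((δ + δ' - (q : 𝓞 k) * (δ * δ') : 𝓞 k) : k) := by simp
      rw [h6]
      exact fe1_O v e _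
    have h7 : (1 - (q : ℂ) * e (δ : k)) * (1 - (q : ℂ) * e (δ' : k)) =
        1 - (q : ℂ) * (e (δ : k) + e (δ' : k) - (q : ℂ) * (e (δ : k) * e (δ' : k))) := by ring
    rw [h7]
    exact Valuation.map_one_sub_of_lt v h5
  · have h8 : ((N : ℕ) : 𝓞 k) = β * β' := by
      apply RingOfIntegers.coe_injective
      apply e.injective
      change e ((N : 𝓞 k) : k) = e ((β * β' : 𝓞 k) : k)
      rw [fe1_mul, hN]
      simp
    rw [h8]
    exact b.mul_mem_right _ hβ

/-- a subgroup of prime index: every coset contains a multiple of an element off the subgroup -/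
private theorem fe1_gen {L L' : Submodule ℤ ℂ} (hle : L ≤ L') {S : Finset ℂ} (hS : IsReps L L' S)
    {q : ℕ} (hq : q.Prime) (hcard : S.card = q) {w : ℂ} (hw : w ∈ L') (hwL : w ∉ L) {u : ℂ} (hu : u ∈ L') :
    ∃ j : ℕ, u - (j : ℂ) * w ∈ L := by
  classical
  have hmul : ∀ j : ℕ, (j : ℂ) * w ∈ L' := by
    intro j
    rw [← nsmul_eq_mul]
    exact L'.nsmul_mem hw j
  choose! f hf using fun (x : ℂ) (hx : x ∈ L') => (hS.2.2 x hx).exists
  have hqw : (q : ℂ) * w ∈ L := by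
    rw [← hcard]
    exact card_mul_mem hle hS hw
  have hinj : Set.InjOn (fun j : ℕ => f ((j : ℂ) * w)) (Finset.range q : Set ℕ) := by
    have key : ∀ i j : ℕ, i < j → j < q → f ((i : ℂ) * w) = f ((j : ℂ) * w) → False := by
      intro i j hij hjq h
      have h1 := (hf _ (hmul i)).2
      have h2 := (hf _ (hmul j)).2
      rw [h] at h1
      have h3 : ((j - i : ℕ) : ℂ) * w ∈ L := by
        have h4 := L.sub_mem h2 h1
        rw [Nat.cast_sub hij.le]
        have h5 : ((j : ℂ) - (i : ℂ)) * w = (j : ℂ) * w - f ((j : ℂ) * w) - ((i : ℂ) * w - f ((j : ℂ) * w)) := by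
          ring
        rw [h5]
        exact h4
      have hcop : Nat.Coprime (j - i) q := by
        rw [Nat.coprime_comm]
        refine (Nat.Prime.coprime_iff_not_dvd hq).2 fun hd => ?_
        have := Nat.le_of_dvd (by omega) hd
        omega
      have h6 : ((j - i : ℕ) : ℤ) * Nat.gcdA (j - i) q + (q : ℤ) * Nat.gcdB (j - i) q = 1 := by
        have := Nat.gcd_eq_gcd_ab (j - i) q
        rw [hcop] at this
        rw [← this]
        rfl
      have h7 : w = (Nat.gcdA (j - i) q : ℤ) • (((j - i : ℕ) : ℂ) * w) +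
          (Nat.gcdB (j - i) q : ℤ) • ((q : ℂ) * w) := by
        have h8 := congrArg (Int.cast : ℤ → ℂ) h6
        push_cast at h8
        rw [zsmul_eq_mul, zsmul_eq_mul]
        linear_combination (-w) * h8
      apply hwL
      rw [h7]
      exact L.add_mem (L.smul_mem _ h3) (L.smul_mem _ hqw)
    intro i hi j hj h
    rw [Finset.coe_range, Set.mem_Iio] at hi hj
    rcases lt_trichotomy i j with h1 | h1 | h1
    · exact (key i j h1 hj h).elim
    · exact h1
    · exact (key j i h1 hi h.symm).elim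
  have himg : (Finset.range q).image (fun j : ℕ => f ((j : ℂ) * w)) = S := by
    refine Finset.eq_of_subset_of_card_le ?_ ?_
    · intro x hx
      obtain ⟨j, -, rfl⟩ := Finset.mem_image.1 hx
      exact (hf _ (hmul j)).1
    · rw [Finset.card_image_of_injOn hinj, Finset.card_range, hcard]
  have hfu : f u ∈ (Finset.range q).image (fun j : ℕ => f ((j : ℂ) * w)) := by
    rw [himg]
    exact (hf u hu).1
  obtain ⟨j, -, hj⟩ := Finset.mem_image.1 hfu
  refine ⟨j, ?_⟩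
  have h1 := (hf _ (hmul j)).2
  have h2 := (hf u hu).2
  have h3 := L.sub_mem h2 h1
  have h4 : u - (j : ℂ) * w = u - f u - ((j : ℂ) * w - f ((j : ℂ) * w)) := by
    have h5 : f ((j : ℂ) * w) = f u := hj
    rw [h5]
    ring
  rw [h4]
  exact h3

theorem e1_all (hk : IQ k) (e : k →+* ℂ) {v : Valuation ℂ Γ} {q : ℕ} (hq : q.Prime) {P : Ideal (𝓞 k)} (hP : P.IsPrime)
    (hN : Ideal.absNorm P = q) (hv : ∀ x ∈ P, v (e (x : k)) < 1) {c : Ideal (𝓞 k)} (hc : c ≠ ⊥) {r b2 b4 b6 b8 : ℂ}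
    (hr : r ≠ 0) (hX : Crd v (Lc e c) (fun z => r ^ 2 * wp (Lc e c) z - b2 / 12) b2 b4 b6 b8)
    (hG : GR v b2 b4 b6 b8) {u : ℂ} (hu : u ∈ Lc e (P * c)) :
    E1 v (Lc e c) (fun z => r ^ 2 * wp (Lc e c) z - b2 / 12) u := by
  have hqP : (q : 𝓞 k) ∈ P := by
    rw [← hN]
    exact Ideal.absNorm_mem P
  have hvq : v (q : ℂ) < 1 := by
    have h1 := hv _ hqP
    have h2 : e ((q : 𝓞 k) : k) = (q : ℂ) := by simp
    rwa [h2] at h1
  have hP0 : P ≠ ⊥ := by
    rintro rfl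
    rw [Ideal.absNorm_bot] at hN
    exact hq.ne_zero hN.symm
  have hq0 : (q : 𝓞 k) ≠ 0 := by exact_mod_cast hq.ne_zero
  have hs0 : Ideal.span {(q : 𝓞 k)} ≠ ⊥ := by
    rw [Ne, Ideal.span_singleton_eq_bot]
    exact hq0
  obtain ⟨a, ha⟩ := IsDedekindDomain.exists_sup_span_eq (I := P * Ideal.span {(q : 𝓞 k)}) (J := P)
    Ideal.mul_le_left (mul_ne_zero hP0 hs0)
  have haP : a ∈ P := by
    rw [← ha]
    exact Ideal.mem_sup_right (Ideal.mem_span_singleton_self a)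
  have hdvd : P ∣ Ideal.span {a} := Ideal.dvd_iff_le.2 ((Ideal.span_singleton_le_iff_mem P).2 haP)
  obtain ⟨b, hb⟩ := hdvd
  have hbq : b ⊔ Ideal.span {(q : 𝓞 k)} = ⊤ := by
    have h1 : P * (b ⊔ Ideal.span {(q : 𝓞 k)}) = P * ⊤ := by
      rw [Ideal.mul_sup, Ideal.mul_top, sup_comm, ← hb]
      exact ha
    exact mul_left_cancel₀ hP0 h1
  have ha0 : a ≠ 0 := by
    rintro rfl
    have h1 : P * b = ⊥ := by
      rw [← hb, Ideal.span_singleton_eq_bot]
    have h2 : b = ⊥ := by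
      rcases mul_eq_zero.1 h1 with h | h
      · exact absurd h hP0
      · exact h
    rw [h2, bot_sup_eq] at hbq
    have h3 : (1 : 𝓞 k) ∈ Ideal.span {(q : 𝓞 k)} := by rw [hbq]; trivial
    exact hP.ne_top ((Ideal.eq_top_iff_one P).2 ((Ideal.span_singleton_le_iff_mem P).2 hqP h3))
  obtain ⟨n, hvn, hnb⟩ := fe1_nat hk e v hvq hbq
  obtain ⟨a', N, ha', haN⟩ := exists_conj hk e a
  have hea : e (a : k) ≠ 0 := by
    rw [Ne, map_eq_zero]
    exact RingOfIntegers.coe_ne_zero_iff.2 ha0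
  have hN0 : N ≠ 0 := by
    rintro rfl
    rw [ha', Nat.cast_zero] at haN
    rcases mul_eq_zero.1 haN with h | h
    · exact hea h
    · exact hea ((map_eq_zero _).1 h)
  have hL : IsLat (Lc e c) := isLat_Lc hk e hc
  obtain ⟨u₀, hu₀, hau₀, hE₀⟩ := exists_e1_tor hL hr hX hG hN0 (fun l hl => Lc_smul a hl)
    (fun l hl => Lc_smul a' hl) haN (hv a haP)
  have hw : (n : ℂ) * u₀ ∈ Lc e (P * c) := by
    rw [mem_Lc_mul]
    intro x hx
    have h1 : x * (n : 𝓞 k) ∈ Ideal.span {a} := by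
      rw [hb]
      exact Ideal.mul_mem_mul hx hnb
    obtain ⟨y, hy⟩ := Ideal.mem_span_singleton.1 h1
    have h2 : e (x : k) * (n : ℂ) = e (a : k) * e (y : k) := by
      rw [← fe1_mul, ← hy, fe1_mul]
      simp
    have h3 : e (x : k) * ((n : ℂ) * u₀) = e (y : k) * (e (a : k) * u₀) := by
      linear_combination u₀ * h2
    rw [h3]
    exact Lc_smul y hau₀
  have hwE := e1_nsmul hX hE₀ n
  have hwL : (n : ℂ) * u₀ ∉ Lc e c := by
    intro h
    exact good_not_e1 hX (tp_good ⟨n, hvn, h⟩ hu₀) hE₀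
  have hPc : P * c ≠ ⊥ := mul_ne_zero hP0 hc
  obtain ⟨S, hS⟩ := exists_reps hL (isLat_Lc hk e hPc) (Lc_le P c)
  have hcard := Lc_card hk e hP0 hc hS
  rw [hN] at hcard
  obtain ⟨j, hj⟩ := fe1_gen (Lc_le P c) hS hq hcard hw hwL hu
  have h1 := e1_nsmul hX hwE j
  have h2 := e1_add hX h1 (Or.inl hj)
  rwa [add_sub_cancel] at h2

end CMS
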