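import Mathlib
import Pool.Agent.Lib.CMS.Defs
import Pool.Agent.Lib.CMS.LBas
import Pool.Agent.Lib.CMS.OLc1
import Pool.Agent.Lib.CMS.CBas

/-!
# OLc2: the lattices c^{-1}: torsion points  (about 180 lines)

PROOF. `Lc_cop`: `1 = y + f a` with `y ∈ u`, `a ∈ 𝓞 k`; `x = e(y) x + e(a) (f x)`; `e(y) x ∈ Lc e c` by `mem_Lc_mul`, `f x ∈ Lc e c` by assumption (`Lc_smul`).
`div_mem_Lc`: (<=) clear (`emb_mem_Lc`).  (=>) `1 = y + f b`, `y ∈ c`: `e(a)/f = e(y) e(a)/f + e(b) e(a)` and `e(y) (e(a)/f) ∈ e(𝓞 k)` (`Lc_mul_mem`), so `e(a)/f ∈ e(𝓞 k)`, `f ∣ a`.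
`tor_Lc`: `1 = y + f b`, `y ∈ c`; `e(a) := e(y) (f z) ∈ e(𝓞 k)` (`Lc_mul_mem`); `z = e(y) z + f e(b) z`, `z - e(a)/f = e(b) (f z) ∈ Lc e c`.
-/

set_option autoImplicit false

namespace CMS

open Complex NumberField MPd9f52e

variable {k : Type} [Field k] [NumberField k]

variable {e : k →+* ℂ}

private theorem o2_one {f : ℕ} {u : Ideal (𝓞 k)} (hu : Cop f u) :
    ∃ y ∈ u, ∃ a : 𝓞 k, e (y : k) + e (a : k) * f = 1 := by
  obtain ⟨y, hy, b, hb, hyb⟩ := Ideal.isCoprime_iff_exists.mp hu.2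
  obtain ⟨a, rfl⟩ := Ideal.mem_span_singleton.mp hb
  refine ⟨y, hy, a, ?_⟩
  have h := congrArg (fun z : 𝓞 k => e (z : k)) hyb
  simp only [map_add, map_mul, map_natCast, map_one] at h
  rw [← h]
  ring

theorem Lc_cop {f : ℕ} {u c : Ideal (𝓞 k)} (hu : Cop f u) {x : ℂ} (h1 : (f : ℂ) * x ∈ Lc e c)
    (h2 : x ∈ Lc e (u * c)) : x ∈ Lc e c := by
  obtain ⟨y, hy, a, hya⟩ := o2_one (e := e) hu
  have h3 : x = e (y : k) * x + e (a : k) * (f * x) := by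
    rw [← mul_assoc, ← add_mul, hya, one_mul]
  rw [h3]
  exact Submodule.add_mem _ (mem_Lc_mul.mp h2 y hy) (Lc_smul a h1)

theorem div_mem_Lc {f : ℕ} (hf : f ≠ 0) {c : Ideal (𝓞 k)} (hc : Cop f c) (a : 𝓞 k) :
    e (a : k) / f ∈ Lc e c ↔ (f : 𝓞 k) ∣ a := by
  have hf' : (f : ℂ) ≠ 0 := Nat.cast_ne_zero.mpr hf
  constructor
  · intro h
    obtain ⟨y, hy, b, hyb⟩ := o2_one (e := e) hc
    obtain ⟨w, hw⟩ := Lc_mul_mem hy h
    refine ⟨w + b * a, ?_⟩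
    apply RingOfIntegers.coe_injective
    apply e.injective
    simp only [map_add, map_mul, map_natCast]
    have h2 : e (w : k) = e (y : k) * (e (a : k) / f) := hw.symm
    have h3 : e (y : k) = 1 - e (b : k) * f := by rw [← hyb]; ring
    show e (a : k) = f * (e (w : k) + e (b : k) * e (a : k))
    rw [h2, h3]
    field_simp
    ring
  · rintro ⟨w, rfl⟩
    have h : e ((f * w : 𝓞 k) : k) / f = e (w : k) := by
      simp only [map_mul, map_natCast]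
      field_simp
    rw [h]
    exact emb_mem_Lc c w

theorem tor_Lc {f : ℕ} (hf : f ≠ 0) {c : Ideal (𝓞 k)} (hc : Cop f c) {z : ℂ} (hz : (f : ℂ) * z ∈ Lc e c) :
    ∃ a : 𝓞 k, z - e (a : k) / f ∈ Lc e c := by
  have hf' : (f : ℂ) ≠ 0 := Nat.cast_ne_zero.mpr hf
  obtain ⟨y, hy, b, hyb⟩ := o2_one (e := e) hc
  obtain ⟨a, ha⟩ := Lc_mul_mem hy hz
  refine ⟨a, ?_⟩
  have h3 : z - e (a : k) / f = e (b : k) * (f * z) := by
    rw [← ha]
    have h4 : e (y : k) = 1 - e (b : k) * f := by rw [← hyb]; ring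
    rw [h4]
    field_simp
    ring
  rw [h3]
  exact Lc_smul b hz

theorem one_div_notMem {f : ℕ} (hf : 2 ≤ f) {c : Ideal (𝓞 k)} (hc : Cop f c) : (1 / f : ℂ) ∉ Lc e c := by
  intro h
  have h1 : e ((1 : 𝓞 k) : k) / f ∈ Lc e c := by
    have h2 : e ((1 : 𝓞 k) : k) = 1 := by simp
    rw [h2]
    exact h
  have h3 := (div_mem_Lc (by omega) hc 1).mp h1
  obtain ⟨y, hy⟩ := h3
  have hn := congrArg (fun z : 𝓞 k => (Algebra.norm ℤ z).natAbs) hy
  simp only [map_one, map_mul, Int.natAbs_one, Int.natAbs_mul] at hn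
  have h5 : Algebra.norm ℤ ((f : ℕ) : 𝓞 k) = (f : ℤ) ^ Module.finrank ℤ (𝓞 k) := by
    have := Algebra.norm_algebraMap_of_basis (RingOfIntegers.basis k) (f : ℤ)
    rw [← Module.finrank_eq_card_basis (RingOfIntegers.basis k)] at this
    rw [← this]
    simp
  have h6 : 0 < Module.finrank ℤ (𝓞 k) := by
    rw [RingOfIntegers.rank]
    exact Module.finrank_pos
  rw [h5, Int.natAbs_pow, Int.natAbs_natCast] at hn
  have h7 : f ^ Module.finrank ℤ (𝓞 k) ∣ 1 := Dvd.intro _ hn.symm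
  have h8 : f ∣ 1 := (dvd_pow_self f h6.ne').trans h7
  have := Nat.le_of_dvd one_pos h8
  omega

end CMS
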