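import Mathlib
import Pool.Agent.Lib.CMS.Defs
import Pool.Agent.Lib.CMS.LBas
import Pool.Agent.Lib.CMS.LWp
import Pool.Agent.Lib.CMS.LDif
import Pool.Agent.Lib.CMS.OLc1
import Pool.Agent.Lib.CMS.OLc2
import Pool.Agent.Lib.CMS.OCard
import Pool.Agent.Lib.CMS.CBas
import Pool.Agent.Lib.CMS.VE1
import Pool.Agent.Lib.CMS.VRed
import Pool.Agent.Lib.CMS.VMod
import Pool.Agent.Lib.CMS.V3f
import Pool.Agent.Lib.CMS.FE1

/-!
# FKron: the Kronecker congruence for cross ratios (paper 3.7)  (about 260 lines)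

PROOF. `L = Lc e c`, `L' = Lc e (P * c)`, `S` representatives of `L'/L`, `S.card = q` (`Lc_card`).  Good model `r, b_i` of `L` (`j_int`, `model_good`), `X z = r² wp L z - b2/12`.  `v q < 1` (`q ∈ P`), so `v f = 1` (coprime).  `L'` is in `E1` (`e1_all`).
The points `z_i = e(a_i)/f` are not in `L` nor in `L'` (`div_mem_Lc`, `Cop f (P * c)`: `cop_prime`, `cop_mul`), `f z_i ∈ L`, so they are `TP` points (`v f = 1`), not in `E1`, `v (X z_i) ≤ 1`; `v (X z₂ - X z₃) = 1` by `red_tp` (`z₂ ± z₃ ∉ L` by `Adm`).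
For `z, w` among the `z_i`: `wp_diff` (LDif): `(wp L' z - wp L' w) ∏_{s ≠ 0} (wp L z - wp L s) = ∏_{s ∈ S} (wp L z - wp L (w+s))`; multiply by `r^{2q}`:
`r² (wp L' z - wp L' w) · ∏_{s≠0} (X z - X s) = ∏_{s ∈ S} (X z - X(w+s))`.  For `s ∈ S.erase 0`: `v (X s) > 1`, `v (X(w+s) - X w) < 1` (`red_add`).  Let `Π = ∏_{s ≠ 0} (-X s) ≠ 0`.  `∏_{s≠0} (X z - X s) = Π (1 + δ_z)`, `v δ_z < 1` (each factor `X z - X s = -X s (1 - X z/X s)`).
`∏_{s ∈ S} (X z - X(w+s)) = (X z - X w)^q + δ`, `v δ < 1` (all factors `v ≤ 1`, each `≡ X z - X w`).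
So `D(z,w) := r² Π (wp L' z - wp L' w) = ((X z - X w)^q + δ)/(1 + δ_z)`, `v (D(z,w) - (X z - X w)^q) < 1`.  `crr e f (P*c) a = D(z₀,z₁)/D(z₂,z₃)`, `crr e f c a = (X z₀ - X z₁)/(X z₂ - X z₃)`, denominators of value `1`, numerators `≤ 1`.
-/

set_option autoImplicit false

namespace CMS

open Complex NumberField MPd9f52e

variable {k : Type} [Field k] [NumberField k]

variable {Γ : Type*} [LinearOrderedCommGroupWithZero Γ]

private theorem near_prod (v : Valuation ℂ Γ) {ι : Type*} (S : Finset ι) (f g : ι → ℂ)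
    (hg : ∀ i ∈ S, v (g i) ≤ 1) (h : ∀ i ∈ S, v (f i - g i) < 1) :
    v (∏ i ∈ S, f i - ∏ i ∈ S, g i) < 1 ∧ v (∏ i ∈ S, g i) ≤ 1 := by
  classical
  induction S using Finset.induction_on with
  | empty => simp
  | insert a S ha ih =>
    rw [Finset.prod_insert ha, Finset.prod_insert ha]
    obtain ⟨ih1, ih2⟩ := ih (fun i hi => hg i (Finset.mem_insert_of_mem hi))
      (fun i hi => h i (Finset.mem_insert_of_mem hi))
    have hga := hg a (Finset.mem_insert_self _ _)
    have ha' := h a (Finset.mem_insert_self _ _)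
    have hfa : v (f a) ≤ 1 := by
      have e1 : f a = (f a - g a) + g a := by ring
      rw [e1]
      exact (v.map_add _ _).trans (max_le ha'.le hga)
    refine ⟨?_, ?_⟩
    · have e1 : f a * ∏ i ∈ S, f i - g a * ∏ i ∈ S, g i =
          f a * (∏ i ∈ S, f i - ∏ i ∈ S, g i) + (f a - g a) * ∏ i ∈ S, g i := by ring
      rw [e1]
      refine v.map_add_lt ?_ ?_
      · rw [map_mul]
        exact (mul_le_mul' hfa le_rfl).trans_lt (by rwa [one_mul])
      · rw [map_mul]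
        exact (mul_le_mul' le_rfl ih2).trans_lt (by rwa [mul_one])
    · rw [map_mul]
      exact mul_le_one' hga ih2

private theorem v_one_of_near {v : Valuation ℂ Γ} {x y : ℂ} (h : v (x - y) < 1) (hy : v y = 1) : v x = 1 := by
  have e1 : x = y + (x - y) := by ring
  rw [e1, v.map_add_eq_of_lt_left (by rwa [hy]), hy]

theorem kron (hk : IQ k) (e : k →+* ℂ) (v : Valuation ℂ Γ) {f q : ℕ} (hf : 3 ≤ f) (hq : q.Prime) (hqf : q.Coprime f)
    {P : Ideal (𝓞 k)} (hP : P.IsPrime) (hN : Ideal.absNorm P = q) (hv : ∀ x ∈ P, v (e (x : k)) < 1)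
    {c : Ideal (𝓞 k)} (hc : Cop f c) {a : Fin 4 → 𝓞 k} (ha : Adm f a) :
    v (crr e f (P * c) a - crr e f c a ^ q) < 1 ∧ v (crr e f c a) ≤ 1 := by
  have hf0 : f ≠ 0 := by omega
  have hcb : c ≠ ⊥ := hc.1
  have hPb : P ≠ ⊥ := by
    rintro rfl
    rw [Ideal.absNorm_bot] at hN
    exact hq.ne_zero hN.symm
  have hPc : P * c ≠ ⊥ := mul_ne_zero hPb hcb
  have hqP : ((q : ℕ) : 𝓞 k) ∈ P := by
    have h1 := Ideal.absNorm_mem P
    rwa [hN] at h1
  have hvq : v (q : ℂ) < 1 := by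
    have h1 := hv _ hqP
    simpa using h1
  have hnat : ∀ n : ℕ, v (n : ℂ) ≤ 1 := fun n =>
    (Valuation.mem_integer_iff v _).1 (natCast_mem v.integer n)
  have hint : ∀ n : ℤ, v (n : ℂ) ≤ 1 := fun n =>
    (Valuation.mem_integer_iff v _).1 (intCast_mem v.integer n)
  have hvf : v (f : ℂ) = 1 := by
    refine le_antisymm (hnat f) ?_
    by_contra hcon
    push Not at hcon
    have hb : (q.gcd f : ℤ) = q * q.gcdA f + f * q.gcdB f := Nat.gcd_eq_gcd_ab q f
    rw [Nat.Coprime.gcd_eq_one hqf] at hb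
    have hb' : (1 : ℂ) = (q : ℂ) * ((q.gcdA f : ℤ) : ℂ) + (f : ℂ) * ((q.gcdB f : ℤ) : ℂ) := by
      exact_mod_cast congrArg (fun z : ℤ => (z : ℂ)) hb
    have h1 : v ((q : ℂ) * ((q.gcdA f : ℤ) : ℂ) + (f : ℂ) * ((q.gcdB f : ℤ) : ℂ)) < 1 := by
      refine v.map_add_lt ?_ ?_
      · rw [map_mul]
        exact (mul_le_mul' le_rfl (hint _)).trans_lt (by rwa [mul_one])
      · rw [map_mul]
        exact (mul_le_mul' le_rfl (hint _)).trans_lt (by rwa [mul_one])
    rw [← hb', map_one] at h1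
    exact lt_irrefl _ h1
  have hL : IsLat (Lc e c) := isLat_Lc hk e hcb
  have hL' : IsLat (Lc e (P * c)) := isLat_Lc hk e hPc
  have hle : Lc e c ≤ Lc e (P * c) := Lc_le P c
  have hcopP : Cop f P := by
    rw [cop_prime hq hP hqP hPb]
    intro hd
    have h1 : q ∣ q.gcd f := Nat.dvd_gcd dvd_rfl hd
    rw [Nat.Coprime.gcd_eq_one hqf] at h1
    exact hq.one_lt.ne' (Nat.dvd_one.1 h1)
  have hc' : Cop f (P * c) := cop_mul.2 ⟨hcopP, hc⟩
  obtain ⟨S, hS⟩ := exists_reps hL hL' hle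
  have hcard : S.card = q := by
    rw [← hN]
    exact Lc_card hk e hPb hcb hS
  obtain ⟨r, b2, b4, b6, b8, hr, hX, hG⟩ := model_good hL v
    (j_int hk e hL (fun a l hl => Lc_smul a hl) v)
  set X : ℂ → ℂ := fun z => r ^ 2 * wp (Lc e c) z - b2 / 12 with hXdef
  have hXsub : ∀ z w : ℂ, X z - X w = r ^ 2 * (wp (Lc e c) z - wp (Lc e c) w) := by
    intro z w
    simp only [hXdef]
    ring
  -- the representatives
  have hs0 : ∀ s ∈ S.erase 0, s ∉ Lc e c := by
    intro s hs hsL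
    obtain ⟨hs1, hs2⟩ := Finset.mem_erase.1 hs
    obtain ⟨t, -, ht⟩ := hS.2.2 0 (Submodule.zero_mem _)
    have h1 : s = t := ht s ⟨hs2, by rw [zero_sub]; exact Submodule.neg_mem _ hsL⟩
    have h2 : (0 : ℂ) = t := ht 0 ⟨hS.1, by rw [sub_zero]; exact Submodule.zero_mem _⟩
    exact hs1 (h1.trans h2.symm)
  have hsE : ∀ s ∈ S.erase 0, E1 v (Lc e c) X s := fun s hs =>
    e1_all hk e hq hP hN hv hcb hr hX hG (hS.2.1 s (Finset.mem_of_mem_erase hs))
  have hsv : ∀ s ∈ S.erase 0, 1 < v (X s) := fun s hs => (hsE s hs).resolve_left (hs0 s hs)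
  -- the points
  have hzL : ∀ i, e (a i : k) / f ∉ Lc e c := fun i hi => ha.1 i ((div_mem_Lc hf0 hc _).1 hi)
  have hzL' : ∀ i, e (a i : k) / f ∉ Lc e (P * c) := fun i hi => ha.1 i ((div_mem_Lc hf0 hc' _).1 hi)
  have hfC : (f : ℂ) ≠ 0 := Nat.cast_ne_zero.2 hf0
  have hzT : ∀ i, TP v (Lc e c) (e (a i : k) / f) := by
    intro i
    refine ⟨f, hvf, ?_⟩
    rw [mul_div_cancel₀ _ hfC]
    exact emb_mem_Lc c (a i)
  have hzG : ∀ i, Good v (Lc e c) (e (a i : k) / f) := fun i => tp_good (hzT i) (hzL i)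
  have hzv : ∀ i, v (X (e (a i : k) / f)) ≤ 1 := fun i => good_le hX (hzG i)
  have hzE : ∀ i, ¬ E1 v (Lc e c) X (e (a i : k) / f) := fun i => good_not_e1 hX (hzG i)
  -- the main computation
  set Pi : ℂ := ∏ s ∈ S.erase 0, (-X s) with hPi
  have hXs0 : ∀ s ∈ S.erase 0, X s ≠ 0 := by
    intro s hs h0
    have h1 := hsv s hs
    rw [h0, map_zero] at h1
    exact not_lt_of_ge zero_le h1
  have hPi0 : Pi ≠ 0 := Finset.prod_ne_zero_iff.2 fun s hs => neg_ne_zero.2 (hXs0 s hs)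
  have key : ∀ i j, v (r ^ 2 * Pi * (wp (Lc e (P * c)) (e (a i : k) / f) - wp (Lc e (P * c)) (e (a j : k) / f)) -
      (X (e (a i : k) / f) - X (e (a j : k) / f)) ^ q) < 1 := by
    intro i j
    generalize hzdef : e (a i : k) / f = z
    generalize hwdef : e (a j : k) / f = w
    have hz1 : z ∉ Lc e (P * c) := hzdef ▸ hzL' i
    have hw1 : w ∉ Lc e (P * c) := hwdef ▸ hzL' j
    have hz2 : v (X z) ≤ 1 := hzdef ▸ hzv i
    have hw2 : v (X w) ≤ 1 := hwdef ▸ hzv j
    have hw3 : ¬ E1 v (Lc e c) X w := hwdef ▸ hzE j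
    have hd := wp_diff hL hL' hle hS hz1 hw1
    -- unit factor
    set U : ℂ := ∏ s ∈ S.erase 0, (1 - X z / X s) with hU
    have hUnear : v (U - 1) < 1 := by
      have h1 := near_prod v (S.erase 0) (fun s => 1 - X z / X s) (fun _ => (1 : ℂ)) (fun _ _ => by simp)
        (by
          intro s hs
          have e1 : (1 : ℂ) - X z / X s - 1 = -(X z / X s) := by ring
          rw [e1, Valuation.map_neg, map_div₀]
          rw [div_lt_one₀ (lt_of_le_of_lt zero_le (hsv s hs))]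
          exact hz2.trans_lt (hsv s hs))
      simpa using h1.1
    have hUv : v U = 1 := v_one_of_near hUnear (map_one v)
    have hU0 : U ≠ 0 := by
      intro h0
      rw [h0, map_zero] at hUv
      exact zero_ne_one hUv
    have hG1 : v ((X z - X w) ^ q) ≤ 1 := by
      rw [map_pow]
      exact pow_le_one' ((v.map_sub _ _).trans (max_le hz2 hw2)) q
    have hF : v ((∏ s ∈ S, (X z - X (w + s))) - (X z - X w) ^ q) < 1 := by
      have h1 := near_prod v S (fun s => X z - X (w + s)) (fun _ => X z - X w)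
        (fun _ _ => (v.map_sub _ _).trans (max_le hz2 hw2))
        (by
          intro s hs
          have e1 : X z - X (w + s) - (X z - X w) = -(X (w + s) - X w) := by ring
          rw [e1, Valuation.map_neg]
          by_cases h0 : s = 0
          · rw [h0, add_zero, sub_self, map_zero]
            exact zero_lt_one
          · have hs' : s ∈ S.erase 0 := Finset.mem_erase.2 ⟨h0, hs⟩
            exact red_add hX hw3 (hsE s hs') (hs0 s hs'))
      rw [Finset.prod_const, hcard] at h1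
      exact h1.1
    have hPU : ∏ s ∈ S.erase 0, (X z - X s) = Pi * U := by
      rw [hPi, hU, ← Finset.prod_mul_distrib]
      refine Finset.prod_congr rfl fun s hs => ?_
      have := hXs0 s hs
      field_simp
      ring
    have hr2 : (r ^ 2 : ℂ) ≠ 0 := pow_ne_zero 2 hr
    have hcardE : (S.erase 0).card + 1 = S.card := Finset.card_erase_add_one hS.1
    have hmain : r ^ 2 * Pi * (wp (Lc e (P * c)) z - wp (Lc e (P * c)) w) * U = ∏ s ∈ S, (X z - X (w + s)) := by
      have e1 : ∏ s ∈ S, (X z - X (w + s)) = (r ^ 2) ^ S.card * ∏ s ∈ S, (wp (Lc e c) z - wp (Lc e c) (w + s)) := by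
        rw [← Finset.prod_const, ← Finset.prod_mul_distrib]
        exact Finset.prod_congr rfl fun s _ => hXsub _ _
      have e2 : ∏ s ∈ S.erase 0, (X z - X s) =
          (r ^ 2) ^ (S.erase 0).card * ∏ s ∈ S.erase 0, (wp (Lc e c) z - wp (Lc e c) s) := by
        rw [← Finset.prod_const, ← Finset.prod_mul_distrib]
        exact Finset.prod_congr rfl fun s _ => hXsub _ _
      rw [e1, ← hd, ← hcardE]
      calc r ^ 2 * Pi * (wp (Lc e (P * c)) z - wp (Lc e (P * c)) w) * U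
          = r ^ 2 * (wp (Lc e (P * c)) z - wp (Lc e (P * c)) w) * (Pi * U) := by ring
        _ = _ := by rw [← hPU, e2]; ring
    have e3 : r ^ 2 * Pi * (wp (Lc e (P * c)) z - wp (Lc e (P * c)) w) - (X z - X w) ^ q =
        ((∏ s ∈ S, (X z - X (w + s)) - (X z - X w) ^ q) - (X z - X w) ^ q * (U - 1)) / U := by
      rw [← hmain]
      field_simp
      ring
    rw [e3, map_div₀, hUv, div_one]
    refine lt_of_le_of_lt (v.map_sub _ _) (max_lt hF ?_)
    rw [map_mul]
    exact (mul_le_mul' hG1 le_rfl).trans_lt (by rwa [one_mul])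
  -- the denominators
  have hd23 : v (X (e (a 2 : k) / f) - X (e (a 3 : k) / f)) = 1 := by
    refine red_tp hX hG (hzT 2) (hzT 3) (hzL 2) (hzL 3) ?_ ?_
    · intro h
      have e1 : e (a 2 : k) / f + e (a 3 : k) / f = e ((a 2 + a 3 : 𝓞 k) : k) / f := by
        rw [← add_div, ← map_add]
        simp
      rw [e1] at h
      exact ha.2.2 ((div_mem_Lc hf0 hc _).1 h)
    · intro h
      have e1 : e (a 2 : k) / f - e (a 3 : k) / f = e ((a 2 - a 3 : 𝓞 k) : k) / f := by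
        rw [← sub_div, ← map_sub]
        simp
      rw [e1] at h
      exact ha.2.1 ((div_mem_Lc hf0 hc _).1 h)
  have hd01 : v (X (e (a 0 : k) / f) - X (e (a 1 : k) / f)) ≤ 1 :=
    (v.map_sub _ _).trans (max_le (hzv 0) (hzv 1))
  have k01 := key 0 1
  have k23 := key 2 3
  have hr2 : (r ^ 2 : ℂ) ≠ 0 := pow_ne_zero 2 hr
  have hcr : crr e f c a = (X (e (a 0 : k) / f) - X (e (a 1 : k) / f)) / (X (e (a 2 : k) / f) - X (e (a 3 : k) / f)) := by
    rw [hXsub, hXsub, mul_div_mul_left _ _ hr2]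
    rfl
  have hcr' : crr e f (P * c) a =
      (r ^ 2 * Pi * (wp (Lc e (P * c)) (e (a 0 : k) / f) - wp (Lc e (P * c)) (e (a 1 : k) / f))) /
      (r ^ 2 * Pi * (wp (Lc e (P * c)) (e (a 2 : k) / f) - wp (Lc e (P * c)) (e (a 3 : k) / f))) := by
    rw [mul_div_mul_left _ _ (mul_ne_zero hr2 hPi0)]
    rfl
  rw [hcr, hcr']
  generalize r ^ 2 * Pi * (wp (Lc e (P * c)) (e (a 0 : k) / f) - wp (Lc e (P * c)) (e (a 1 : k) / f)) = D1 at *
  generalize r ^ 2 * Pi * (wp (Lc e (P * c)) (e (a 2 : k) / f) - wp (Lc e (P * c)) (e (a 3 : k) / f)) = D2 at *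
  generalize X (e (a 0 : k) / f) - X (e (a 1 : k) / f) = d1 at *
  generalize X (e (a 2 : k) / f) - X (e (a 3 : k) / f) = d2 at *
  have hd2q : v (d2 ^ q) = 1 := by rw [map_pow, hd23, one_pow]
  have hD2 : v D2 = 1 := v_one_of_near k23 hd2q
  have hd20 : d2 ≠ 0 := by
    intro h0
    rw [h0, map_zero] at hd23
    exact zero_ne_one hd23
  have hD20 : D2 ≠ 0 := by
    intro h0
    rw [h0, map_zero] at hD2
    exact zero_ne_one hD2
  refine ⟨?_, ?_⟩
  · have e1 : D1 / D2 - (d1 / d2) ^ q = ((D1 - d1 ^ q) * d2 ^ q - d1 ^ q * (D2 - d2 ^ q)) / (D2 * d2 ^ q) := by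
      have : d2 ^ q ≠ 0 := pow_ne_zero q hd20
      rw [div_pow]
      field_simp
      ring
    rw [e1, map_div₀, map_mul v D2, hD2, hd2q, one_mul, div_one]
    refine lt_of_le_of_lt (v.map_sub _ _) (max_lt ?_ ?_)
    · rw [map_mul, hd2q, mul_one]
      exact k01
    · rw [map_mul, map_pow]
      exact (mul_le_mul' (pow_le_one' hd01 q) le_rfl).trans_lt (by rwa [one_mul])
  · rw [map_div₀, hd23, div_one]
    exact hd01

end CMS
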