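import Mathlib
import Pool.Agent.Lib.CMS.Defs
import Pool.Agent.Lib.CMS.LBas
import Pool.Agent.Lib.CMS.OLc1

/-!
# OLat: lattices stable under O_k are ideals  (about 180 lines)

PROOF. `e(𝓞 k) = Lc e ⊤ ≤ M` (`h1`, `hO`), both are lattices, so there is `n ≠ 0` with `n M ≤ Lc e ⊤` (`exists_mul_mem`); in particular `M ⊆ e(k)`.  `J = {y ∈ k : e y ∈ M}` is an `𝓞 k`-submodule of `k` with `n J ⊆ 𝓞 k`: a fractional ideal, `J ⊇ 𝓞 k`.
Let `u = {x ∈ 𝓞 k : x J ⊆ 𝓞 k}` (`= J⁻¹`, contained in `𝓞 k` as `1 ∈ J`); `n ∈ u`, so `u ≠ ⊥`.  `M ≤ Lc e u` is clear.  Conversely `J⁻¹ J = 1` in the group of fractional ideals: `1 = ∑ x_i y_i`, `x_i ∈ u`, `y_i ∈ J`;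
for `z ∈ Lc e u`: `z = ∑ (z e(x_i)) e(y_i)`, `z e(x_i) ∈ e(𝓞 k)`, so `z ∈ M`.
-/

set_option autoImplicit false

namespace CMS

open Complex NumberField MPd9f52e

variable {k : Type} [Field k] [NumberField k]

private theorem ol_mul (e : k →+* ℂ) (a b : 𝓞 k) :
    e ((a * b : 𝓞 k) : k) = e (a : k) * e (b : k) := by simp

private theorem ol_add (e : k →+* ℂ) (a b : 𝓞 k) :
    e ((a + b : 𝓞 k) : k) = e (a : k) + e (b : k) := by simp

private theorem ol_nat (e : k →+* ℂ) (n : ℕ) : e (((n : 𝓞 k)) : k) = n := by simp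

theorem olat_exists (hk : IQ k) (e : k →+* ℂ) {M : Submodule ℤ ℂ} (hM : IsLat M)
    (hO : ∀ a : 𝓞 k, ∀ z ∈ M, e (a : k) * z ∈ M) (h1 : (1 : ℂ) ∈ M) : ∃ u : Ideal (𝓞 k), u ≠ ⊥ ∧ M = Lc e u := by
  have hL : IsLat (Lc e (⊤ : Ideal (𝓞 k))) := isLat_Lc hk e top_ne_bot
  have hLM : Lc e (⊤ : Ideal (𝓞 k)) ≤ M := by
    intro z hz
    obtain ⟨y, rfl⟩ := mem_Lc_top.1 hz
    have := hO y 1 h1
    rwa [mul_one] at this
  obtain ⟨n, hn, hnM⟩ := exists_mul_mem hL hM hLM
  have hn' : (n : ℂ) ≠ 0 := Nat.cast_ne_zero.2 hn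
  -- the ideal `n J`
  let I : Ideal (𝓞 k) :=
    { carrier := {y | e (y : k) / n ∈ M}
      add_mem' := by
        intro a b ha hb
        have h2 := M.add_mem ha hb
        show e ((a + b : 𝓞 k) : k) / n ∈ M
        have h3 : e ((a + b : 𝓞 k) : k) / n = e (a : k) / n + e (b : k) / n := by
          rw [ol_add, add_div]
        rw [h3]
        exact h2
      zero_mem' := by
        show e ((0 : 𝓞 k) : k) / n ∈ M
        have h3 : e ((0 : 𝓞 k) : k) = 0 := by simp
        rw [h3, zero_div]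
        exact M.zero_mem
      smul_mem' := by
        intro a b hb
        have h2 := hO a _ hb
        show e ((a * b : 𝓞 k) : k) / n ∈ M
        have h3 : e ((a * b : 𝓞 k) : k) / n = e (a : k) * (e (b : k) / n) := by
          rw [ol_mul, mul_div_assoc]
        rw [h3]
        exact h2 }
  have hI : ∀ y : 𝓞 k, y ∈ I ↔ e (y : k) / n ∈ M := fun y => Iff.rfl
  have hnI : (n : 𝓞 k) ∈ I := by
    rw [hI]
    rw [ol_nat, div_self hn']
    exact h1
  obtain ⟨u, hu⟩ := Ideal.dvd_span_singleton.2 hnI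
  have hnk : (n : 𝓞 k) ≠ 0 := Nat.cast_ne_zero.2 hn
  have hu0 : u ≠ ⊥ := by
    rintro rfl
    rw [Ideal.mul_bot, Ideal.span_singleton_eq_bot] at hu
    exact hnk hu
  refine ⟨u, hu0, le_antisymm ?_ ?_⟩
  · intro z hz x hx
    obtain ⟨y, hy⟩ := mem_Lc_top.1 (hnM z hz)
    have hyI : y ∈ I := by
      rw [hI, ← hy, mul_div_cancel_left₀ _ hn']
      exact hz
    have h2 : y * x ∈ Ideal.span {(n : 𝓞 k)} := by
      rw [hu]
      exact Ideal.mul_mem_mul hyI hx
    obtain ⟨w, hw⟩ := Ideal.mem_span_singleton'.1 h2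
    refine ⟨w, ?_⟩
    apply mul_left_cancel₀ hn'
    rw [← mul_assoc, hy]
    have h3 : e ((w * n : 𝓞 k) : k) = e ((y * x : 𝓞 k) : k) := by rw [hw]
    rw [ol_mul, ol_mul, ol_nat] at h3
    rw [← h3, mul_comm]
  · intro z hz
    have key : ∀ t ∈ I * u, e (t : k) / n * z ∈ M := by
      intro t ht
      refine Submodule.mul_induction_on ht ?_ ?_
      · intro y hy x hx
        obtain ⟨w, hw⟩ := hz x hx
        have h2 := hO w _ ((hI y).1 hy)
        rw [← hw] at h2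
        have h3 : e ((y * x : 𝓞 k) : k) / n * z = z * e (x : k) * (e (y : k) / n) := by
          rw [ol_mul]
          ring
        rw [h3]
        exact h2
      · intro a b ha hb
        have h2 := M.add_mem ha hb
        have h3 : e ((a + b : 𝓞 k) : k) / n * z = e (a : k) / n * z + e (b : k) / n * z := by
          rw [ol_add]
          ring
        rw [h3]
        exact h2
    have h2 := key (n : 𝓞 k) (by rw [← hu]; exact Ideal.mem_span_singleton_self _)
    rwa [ol_nat, div_self hn', one_mul] at h2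

end CMS
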