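import Mathlib
import Pool.Agent.Lib.CMS.LUni
import Pool.Agent.Lib.CMS.LAdd

/-!
# TTr: the transform of a lattice and of its points under an automorphism of ℂ  (about 200 lines)

`tw_exists` : `lat_exists` for `t(g₂), t(g₃)`; `t(g₂)³ - 27 t(g₃)² = t(g₂³ - 27g₃²) ≠ 0` (`disc_ne`).  `tw_unique` : `lat_unique`.
`tr_exists` : `z ∉ L`: `t(wq)² = 4 t(wp)³ - t(g₂) t(wp) - t(g₃)` (`wq_sq`), `wpq_surj` for `L'`.  `tr_unique` : `wp_wq_inj`.  `tr_exists'` : the same with `t⁻¹` (`t.symm` applied to the coordinates of `z'`).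
`tr_add` : cases.  One of the points in the lattice: `wp_add_mem`, `wq_add_mem`.  `z, u ∉ L`:
 * `z + u ∈ L`: then `wp L u = wp L z`, `wq L u = -wq L z`, so `wp L' u' = wp L' z'`, `wq L' u' = -wq L' z'`, i.e. `u' ≡ -z'` (`wp_wq_inj` with `-u'`), `z' + u' ∈ L'`.
 * `z + u ∉ L`, `z - u ∉ L`: `wp L z ≠ wp L u` (`wp_eq_iff`), hence the same for `z', u'`, so `z' ± u' ∉ L'`, and `wp_add_eq`, `wq_add_eq` express `wp, wq` at the sum by the same rational functions (divide by `wp z - wp u`).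
 * `z - u ∈ L`: reduce to `u = z`, `u' = z'` (periodicity, `tr_unique`): `2z ∉ L` iff `wq L z ≠ 0` iff `wq L' z' ≠ 0`; use `wp_dbl`, `wq_dbl`.
`tr_neg`, `tr_sub`, `tr_nsmul` from `tr_add` and parity.
-/

set_option autoImplicit false

namespace CMS

open Complex NumberField MPd9f52e

variable {t : ℂ ≃+* ℂ} {L L' : Submodule ℤ ℂ}

theorem tw_exists (hL : IsLat L) (t : ℂ ≃+* ℂ) : ∃ L' : Submodule ℤ ℂ, Tw t L L' := by
  obtain ⟨L', h1, h2, h3⟩ := lat_exists (a := t (g2 L)) (b := t (g3 L)) (by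
    intro h
    apply disc_ne hL
    apply t.injective
    rw [map_zero, ← h]
    simp only [map_sub, map_mul, map_pow, map_ofNat])
  exact ⟨L', h1, h2, h3⟩

theorem tw_unique {L'' : Submodule ℤ ℂ} (h : Tw t L L') (h' : Tw t L L'') : L' = L'' :=
  lat_unique h'.1 h.1 (h.2.1.trans h'.2.1.symm) (h.2.2.trans h'.2.2.symm)

theorem tr_exists (hL : IsLat L) (h : Tw t L L') (z : ℂ) : ∃ z', TR t L L' z z' := by
  by_cases hz : z ∈ L
  · exact ⟨0, Or.inl ⟨hz, L'.zero_mem⟩⟩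
  · have h1 := congrArg t (wq_sq hL hz)
    simp only [map_sub, map_mul, map_pow, map_ofNat] at h1
    obtain ⟨z', hz', hp, hq⟩ := wpq_surj h.1 (x := t (wp L z)) (y := t (wq L z)) (by
      rw [h1, h.2.1, h.2.2])
    exact ⟨z', Or.inr ⟨hz, hz', hp, hq⟩⟩

theorem tr_exists' (hL : IsLat L) (h : Tw t L L') (z' : ℂ) : ∃ z, TR t L L' z z' := by
  by_cases hz : z' ∈ L'
  · exact ⟨0, Or.inl ⟨L.zero_mem, hz⟩⟩
  · have h1 := congrArg t.symm (wq_sq h.1 hz)
    rw [h.2.1, h.2.2] at h1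
    simp only [map_sub, map_mul, map_pow, map_ofNat, RingEquiv.symm_apply_apply] at h1
    obtain ⟨z, hz', hp, hq⟩ := wpq_surj hL (x := t.symm (wp L' z')) (y := t.symm (wq L' z')) (by
      rw [h1])
    exact ⟨z, Or.inr ⟨hz', hz, by rw [hp]; simp, by rw [hq]; simp⟩⟩

theorem tr_mem {z z' : ℂ} (h : TR t L L' z z') : z ∈ L ↔ z' ∈ L' := by
  rcases h with ⟨h1, h2⟩ | ⟨h1, h2, -, -⟩
  · exact ⟨fun _ => h2, fun _ => h1⟩
  · exact ⟨fun h => absurd h h1, fun h => absurd h h2⟩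

theorem tr_unique (h : Tw t L L') {z z' z'' : ℂ} (h1 : TR t L L' z z') (h2 : TR t L L' z z'') : z' - z'' ∈ L' := by
  rcases h1 with ⟨a1, a2⟩ | ⟨a1, a2, a3, a4⟩
  · exact L'.sub_mem a2 ((tr_mem h2).1 a1)
  · rcases h2 with ⟨b1, b2⟩ | ⟨b1, b2, b3, b4⟩
    · exact absurd b1 a1
    · exact wp_wq_inj h.1 a2 b2 (a3.trans b3.symm) (a4.trans b4.symm)

private theorem add_mem_iff' {M : Submodule ℤ ℂ} {z l : ℂ} (hl : l ∈ M) : z + l ∈ M ↔ z ∈ M :=
  ⟨fun h => by simpa using M.sub_mem h hl, fun h => M.add_mem h hl⟩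

theorem tr_left (hL : IsLat L) {z z' l : ℂ} (h1 : TR t L L' z z') (hl : l ∈ L) : TR t L L' (z + l) z' := by
  rcases h1 with ⟨a1, a2⟩ | ⟨a1, a2, a3, a4⟩
  · exact Or.inl ⟨L.add_mem a1 hl, a2⟩
  · refine Or.inr ⟨fun h => a1 ((add_mem_iff' hl).1 h), a2, ?_, ?_⟩
    · rw [wp_add_mem hL hl, a3]
    · rw [wq_add_mem hL hl, a4]

theorem tr_right (h : Tw t L L') {z z' l : ℂ} (h1 : TR t L L' z z') (hl : l ∈ L') : TR t L L' z (z' + l) := by
  rcases h1 with ⟨a1, a2⟩ | ⟨a1, a2, a3, a4⟩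
  · exact Or.inl ⟨a1, L'.add_mem a2 hl⟩
  · refine Or.inr ⟨a1, fun h => a2 ((add_mem_iff' hl).1 h), ?_, ?_⟩
    · rw [wp_add_mem h.1 hl, a3]
    · rw [wq_add_mem h.1 hl, a4]

theorem tr_neg (hL : IsLat L) (h : Tw t L L') {z z' : ℂ} (h1 : TR t L L' z z') : TR t L L' (-z) (-z') := by
  rcases h1 with ⟨a1, a2⟩ | ⟨a1, a2, a3, a4⟩
  · exact Or.inl ⟨L.neg_mem a1, L'.neg_mem a2⟩
  · refine Or.inr ⟨fun h => a1 (by simpa using L.neg_mem h), fun h => a2 (by simpa using L'.neg_mem h),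
      ?_, ?_⟩
    · rw [wp_neg hL, wp_neg h.1, a3]
    · rw [wq_neg hL, wq_neg h.1, a4, map_neg]

private theorem tr_dbl (hL : IsLat L) (h : Tw t L L') {z z' : ℂ} (h1 : TR t L L' z z') (hz : z ∉ L)
    (hzz : z + z ∉ L) : TR t L L' (z + z) (z' + z') := by
  rcases h1 with ⟨a1, a2⟩ | ⟨a1, a2, a3, a4⟩
  · exact absurd a1 hz
  have hq : wq L z ≠ 0 := fun h0 => hzz ((wq_eq_zero_iff hL hz).1 h0)
  have hq' : wq L' z' ≠ 0 := by
    rw [a4]
    exact fun h0 => hq (t.injective (by rw [h0, map_zero]))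
  have hzz' : z' + z' ∉ L' := fun h0 => hq' ((wq_eq_zero_iff h.1 a2).2 h0)
  have e1 := congrArg t (wp_dbl hL hz hzz)
  have e2 := wp_dbl h.1 a2 hzz'
  have e3 := congrArg t (wq_dbl hL hz hzz)
  have e4 := wq_dbl h.1 a2 hzz'
  simp only [map_mul, map_add, map_sub, map_pow, map_neg, map_ofNat] at e1 e3
  rw [← a3, ← a4, ← h.2.1] at e1 e3
  have e5 : wp L' (z' + z') = t (wp L (z + z)) := by
    have e6 : (16 * wq L' z' ^ 2) * wp L' (z' + z') = (16 * wq L' z' ^ 2) * t (wp L (z + z)) := by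
      linear_combination e2 - e1
    exact mul_left_cancel₀ (mul_ne_zero (by norm_num) (pow_ne_zero 2 hq')) e6
  refine Or.inr ⟨hzz, hzz', e5, ?_⟩
  have e6 : (2 * wq L' z') * wq L' (z' + z') = (2 * wq L' z') * t (wq L (z + z)) := by
    rw [e4, e3, e5]
  exact mul_left_cancel₀ (mul_ne_zero (by norm_num) hq') e6

theorem tr_add (hL : IsLat L) (h : Tw t L L') {z z' u u' : ℂ} (h1 : TR t L L' z z') (h2 : TR t L L' u u') :
    TR t L L' (z + u) (z' + u') := by
  by_cases hz : z ∈ L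
  · have h3 := tr_right h (tr_left hL h2 hz) ((tr_mem h1).1 hz)
    rwa [add_comm u z, add_comm u' z'] at h3
  by_cases hu : u ∈ L
  · exact tr_right h (tr_left hL h1 hu) ((tr_mem h2).1 hu)
  have h1' := h1
  have h2' := h2
  rcases h1' with ⟨a1, a2⟩ | ⟨a1, a2, a3, a4⟩
  · exact absurd a1 hz
  rcases h2' with ⟨b1, b2⟩ | ⟨b1, b2, b3, b4⟩
  · exact absurd b1 hu
  by_cases hs : z + u ∈ L
  · left
    refine ⟨hs, ?_⟩
    have c1 : wp L u = wp L z := by
      rw [← wp_neg hL z, ← wp_add_mem hL hs (-z)]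
      congr 1
      ring
    have c2 : wq L u = -wq L z := by
      rw [← wq_neg hL z, ← wq_add_mem hL hs (-z)]
      congr 1
      ring
    have c3 := wp_wq_inj h.1 b2 (u := -z') (fun h0 => a2 (by simpa using L'.neg_mem h0))
      (by rw [b3, wp_neg h.1, a3, c1]) (by rw [b4, wq_neg h.1, a4, c2, map_neg])
    rw [sub_neg_eq_add, add_comm] at c3
    exact c3
  by_cases hd : z - u ∈ L
  · have d1 : TR t L L' u z' := by
      have := tr_left hL h1 (L.neg_mem hd)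
      rwa [show z + -(z - u) = u by ring] at this
    have d2 := tr_unique h d1 h2
    have d3 : u + u ∉ L := fun h0 => hs (by
      have := L.add_mem h0 hd
      rwa [show u + u + (z - u) = z + u by ring] at this)
    have d4 := tr_right h (tr_left hL (tr_dbl hL h h2 hu d3) hd) d2
    rwa [show u + u + (z - u) = z + u by ring, show u' + u' + (z' - u') = z' + u' by ring] at d4
  · have c1 : wp L z ≠ wp L u := fun h0 => by
      rcases (wp_eq_iff hL hz hu).1 h0 with h3 | h3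
      · exact hd h3
      · exact hs h3
    have c2 : wp L' z' ≠ wp L' u' := by
      rw [a3, b3]
      exact fun h0 => c1 (t.injective h0)
    have c3 : z' + u' ∉ L' := fun h0 => c2 ((wp_eq_iff h.1 a2 b2).2 (Or.inr h0))
    have c4 : wp L' z' - wp L' u' ≠ 0 := sub_ne_zero.2 c2
    have e1 := congrArg t (wp_add_eq hL hz hu hs)
    have e2 := wp_add_eq h.1 a2 b2 c3
    have e3 := congrArg t (wq_add_eq hL hz hu hs)
    have e4 := wq_add_eq h.1 a2 b2 c3
    simp only [map_mul, map_add, map_sub, map_pow, map_neg, map_ofNat] at e1 e3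
    rw [← a3, ← a4, ← b3, ← b4] at e1 e3
    have e5 : wp L' (z' + u') = t (wp L (z + u)) := by
      have e6 : (4 * (wp L' z' - wp L' u') ^ 2) * wp L' (z' + u') =
          (4 * (wp L' z' - wp L' u') ^ 2) * t (wp L (z + u)) := by
        linear_combination e2 - e1
      exact mul_left_cancel₀ (mul_ne_zero (by norm_num) (pow_ne_zero 2 c4)) e6
    refine Or.inr ⟨hs, c3, e5, ?_⟩
    have e6 : wq L' (z' + u') * (wp L' z' - wp L' u') = t (wq L (z + u)) * (wp L' z' - wp L' u') := by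
      rw [e4, e3, e5]
    exact mul_right_cancel₀ c4 e6

theorem tr_nsmul (hL : IsLat L) (h : Tw t L L') {z z' : ℂ} (h1 : TR t L L' z z') (n : ℕ) :
    TR t L L' ((n : ℂ) * z) ((n : ℂ) * z') := by
  induction n with
  | zero =>
    refine Or.inl ⟨?_, ?_⟩
    · simp
    · simp
  | succ n ih =>
    have h2 := tr_add hL h ih h1
    rw [show ((n + 1 : ℕ) : ℂ) * z = (n : ℂ) * z + z by push_cast; ring,
      show ((n + 1 : ℕ) : ℂ) * z' = (n : ℂ) * z' + z' by push_cast; ring]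
    exact h2

end CMS
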