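import Mathlib
import Pool.Agent.Lib.CMS.TTr
import Pool.Agent.Lib.CMS.LSub

/-!
# TSub: transforms of sublattices  (about 170 lines)

`L ≤ M`, `S` representatives (`exists_reps`).  `N := {z' : exists z in M, TR t L L' z z'}` is a subgroup of `ℂ` (`tr_add`, `tr_neg`) containing `L'` (`z = 0`); for `z ∈ M`, `n z ∈ L` (`exists_mul_mem`) so `n z' ∈ L'` (`tr_nsmul`, `tr_mem`): `N` is a lattice (`isLat_of_le`).  For each `s ∈ S` choose `s'` with `TR t L L' s s'`, `0' = 0`: the `s'` form a system `S'` of representatives of `N/L'` (injective: `tr_exists'`-uniqueness: `TR z z'`, `TR u z'` imply `z - u ∈ L`, proved with `wp_wq_inj` and injectivity of `t`).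
For `z ∉ M`, `TR t L L' z z'`: `z' ∉ N` and by `wp_super, wq_super` for `L ≤ M` and `L' ≤ N`: `wp N z' = t (wp M z)`, `wq N z' = t (wq M z)` (each term: `TR t L L' (z+s) (z'+s')`).
Apply `t` to `wq_sq` for `M` and compare with `wq_sq` for `N`: `(g2 N - t(g2 M)) x + (g3 N - t(g3 M)) = 0` for all values `x = wp N z'`, `z' ∉ N` (every `z' ∉ N` occurs: `tr_exists'`), at least two different values: `g2 N = t (g2 M)`, `g3 N = t (g3 M)`.  So `Tw t M N`, and `M' = N` by `tw_unique`.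
-/

set_option autoImplicit false

namespace CMS

open Complex NumberField MPd9f52e

private theorem ts_left {t : ℂ ≃+* ℂ} {L L' : Submodule ℤ ℂ} (hL : IsLat L) {z u z' : ℂ}
    (h1 : TR t L L' z z') (h2 : TR t L L' u z') : z - u ∈ L := by
  rcases h1 with ⟨a, b⟩ | ⟨a, b, c, d⟩
  · rcases h2 with ⟨a', b'⟩ | ⟨a', b', c', d'⟩
    · exact L.sub_mem a a'
    · exact absurd b b'
  · rcases h2 with ⟨a', b'⟩ | ⟨a', b', c', d'⟩
    · exact absurd b' b
    · exact wp_wq_inj hL a a' (t.injective (c.symm.trans c')) (t.injective (d.symm.trans d'))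

private theorem ts_val {t : ℂ ≃+* ℂ} {L L' : Submodule ℤ ℂ} {z z' : ℂ}
    (h1 : TR t L L' z z') (hz : z ∉ L) : wp L' z' = t (wp L z) ∧ wq L' z' = t (wq L z) := by
  rcases h1 with ⟨a, b⟩ | ⟨a, b, c, d⟩
  · exact absurd a hz
  · exact ⟨c, d⟩

private theorem ts_sub {t : ℂ ≃+* ℂ} {L L' : Submodule ℤ ℂ} (hL : IsLat L) (h : Tw t L L')
    {z z' u u' : ℂ} (h1 : TR t L L' z z') (h2 : TR t L L' u u') :
    TR t L L' (z - u) (z' - u') := by
  rw [sub_eq_add_neg, sub_eq_add_neg]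
  exact tr_add hL h h1 (tr_neg hL h h2)

theorem tw_le {t : ℂ ≃+* ℂ} {L M L' M' : Submodule ℤ ℂ} (hL : IsLat L) (hM : IsLat M) (h : L ≤ M) (hL' : Tw t L L')
    (hM' : Tw t M M') : L' ≤ M' ∧ ∀ z z' : ℂ, TR t L L' z z' → TR t M M' z z' := by
  classical
  have h00 : TR t L L' 0 0 := Or.inl ⟨L.zero_mem, L'.zero_mem⟩
  obtain ⟨n, hn, hnM⟩ := exists_mul_mem hL hM h
  obtain ⟨S, hS⟩ := exists_reps hL hM h
  -- the lattice `N`
  let N0 : AddSubgroup ℂ :=
    { carrier := {z' | ∃ z ∈ M, TR t L L' z z'}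
      add_mem' := by
        rintro a b ⟨z, hz, h1⟩ ⟨u, hu, h2⟩
        exact ⟨z + u, M.add_mem hz hu, tr_add hL hL' h1 h2⟩
      zero_mem' := ⟨0, M.zero_mem, h00⟩
      neg_mem' := by
        rintro a ⟨z, hz, h1⟩
        exact ⟨-z, M.neg_mem hz, tr_neg hL hL' h1⟩ }
  let N : Submodule ℤ ℂ := AddSubgroup.toIntSubmodule N0
  have hNmem : ∀ z', z' ∈ N ↔ ∃ z ∈ M, TR t L L' z z' := fun z' => Iff.rfl
  have hLN : L' ≤ N := fun z' hz' => (hNmem z').2 ⟨0, M.zero_mem, Or.inl ⟨L.zero_mem, hz'⟩⟩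
  have hnN : ∀ x ∈ N, (n : ℂ) * x ∈ L' := by
    intro x hx
    obtain ⟨z, hz, h1⟩ := (hNmem x).1 hx
    exact (tr_mem (tr_nsmul hL hL' h1 n)).1 (hnM z hz)
  have hN : IsLat N := isLat_of_le hL'.1 hLN hn hnN
  -- representatives
  obtain ⟨σ, hσ, hσ0⟩ : ∃ σ : ℂ → ℂ, (∀ s, TR t L L' s (σ s)) ∧ σ 0 = 0 := by
    choose τ hτ using fun s => tr_exists hL hL' s
    refine ⟨fun s => if s = 0 then 0 else τ s, fun s => ?_, by simp⟩
    by_cases hs : s = 0
    · simp only [hs, if_true]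
      exact h00
    · simp only [hs, if_false]
      exact hτ s
  have hSu : ∀ s ∈ S, ∀ s' ∈ S, s - s' ∈ L → s = s' := by
    intro s hs s' hs' hss
    obtain ⟨r, -, hr⟩ := hS.2.2 s (hS.2.1 s hs)
    rw [hr s ⟨hs, by rw [sub_self]; exact L.zero_mem⟩, hr s' ⟨hs', hss⟩]
  have hσi : Set.InjOn σ (S : Set ℂ) := by
    intro s hs s' hs' hss
    have h1 : TR t L L' s' (σ s) := by
      rw [hss]
      exact hσ s'
    exact hSu s hs s' hs' (ts_left hL (hσ s) h1)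
  have hS0 : ∀ s ∈ S, s ≠ 0 → s ∉ L := by
    intro s hs hs0 hsL
    exact hs0 (hSu s hs 0 hS.1 (by rwa [sub_zero]))
  have hS' : IsReps L' N (S.image σ) := by
    refine ⟨?_, ?_, ?_⟩
    · rw [← hσ0]
      exact Finset.mem_image_of_mem σ hS.1
    · intro s hs
      obtain ⟨u, hu, rfl⟩ := Finset.mem_image.1 hs
      exact (hNmem _).2 ⟨u, hS.2.1 u hu, hσ u⟩
    · intro x hx
      obtain ⟨z, hz, h1⟩ := (hNmem x).1 hx
      obtain ⟨s, ⟨hs, hzs⟩, hsu⟩ := hS.2.2 z hz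
      refine ⟨σ s, ⟨Finset.mem_image_of_mem σ hs, (tr_mem (ts_sub hL hL' h1 (hσ s))).1 hzs⟩, ?_⟩
      rintro y ⟨hy, hxy⟩
      obtain ⟨u, hu, rfl⟩ := Finset.mem_image.1 hy
      rw [hsu u ⟨hu, (tr_mem (ts_sub hL hL' h1 (hσ u))).2 hxy⟩]
  -- values
  have hout : ∀ z z', z ∉ M → TR t L L' z z' → z' ∉ N := by
    intro z z' hz h1 hz'
    obtain ⟨u, hu, h2⟩ := (hNmem z').1 hz'
    apply hz
    have h3 := M.add_mem (h (ts_left hL h1 h2)) hu
    rwa [sub_add_cancel] at h3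
  have hadd : ∀ z s, z ∉ M → s ∈ S → z + s ∉ L := by
    intro z s hz hs h1
    apply hz
    have h3 := M.sub_mem (h h1) (hS.2.1 s hs)
    rwa [add_sub_cancel_right] at h3
  have hwp : ∀ z z', z ∉ M → TR t L L' z z' → wp N z' = t (wp M z) := by
    intro z z' hz h1
    have hz' := hout z z' hz h1
    rw [wp_super hL'.1 hN hLN hS' hz', wp_super hL hM h hS hz, map_add, map_sum,
      (ts_val h1 (fun h2 => hz (h h2))).1]
    congr 1
    symm
    refine Finset.sum_nbij σ ?_ ?_ ?_ ?_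
    · intro s hs
      rw [Finset.mem_erase] at hs
      refine Finset.mem_erase.2 ⟨fun h2 => hs.1 ?_, Finset.mem_image_of_mem σ hs.2⟩
      exact hσi hs.2 hS.1 (h2.trans hσ0.symm)
    · intro s hs s' hs' hss
      exact hσi (Finset.mem_of_mem_erase hs) (Finset.mem_of_mem_erase hs') hss
    · intro y hy
      have hy' := Finset.mem_erase.1 (Finset.mem_coe.1 hy)
      obtain ⟨s, hs, rfl⟩ := Finset.mem_image.1 hy'.2
      refine ⟨s, Finset.mem_coe.2 (Finset.mem_erase.2 ⟨fun h2 => hy'.1 ?_, hs⟩), rfl⟩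
      rw [h2, hσ0]
    · intro s hs
      rw [Finset.mem_erase] at hs
      rw [map_sub, (ts_val (tr_add hL hL' h1 (hσ s)) (hadd z s hz hs.2)).1,
        (ts_val (hσ s) (hS0 s hs.2 hs.1)).1]
  have hwq : ∀ z z', z ∉ M → TR t L L' z z' → wq N z' = t (wq M z) := by
    intro z z' hz h1
    have hz' := hout z z' hz h1
    rw [wq_super hL'.1 hN hLN hS' hz', wq_super hL hM h hS hz, map_sum, Finset.sum_image hσi]
    refine Finset.sum_congr rfl fun s hs => ?_
    rw [(ts_val (tr_add hL hL' h1 (hσ s)) (hadd z s hz hs)).2]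
  -- the invariants
  have hcmp : ∀ z z', z ∉ M → TR t L L' z z' →
      (g2 N - t (g2 M)) * t (wp M z) + (g3 N - t (g3 M)) = 0 := by
    intro z z' hz h1
    have e1 := wq_sq hN (hout z z' hz h1)
    have e2 := congrArg t (wq_sq hM hz)
    rw [hwp z z' hz h1, hwq z z' hz h1] at e1
    simp only [map_pow, map_sub, map_mul, map_ofNat] at e2
    linear_combination e1 - e2
  have hex : ∀ x : ℂ, ∃ z, z ∉ M ∧ wp M z = x := by
    intro x
    obtain ⟨y, hy⟩ := IsAlgClosed.exists_pow_nat_eq (4 * x ^ 3 - g2 M * x - g3 M) (n := 2)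
      (by norm_num)
    obtain ⟨z, hz, hx, -⟩ := wpq_surj hM hy
    exact ⟨z, hz, hx⟩
  have hg3 : g3 N = t (g3 M) := by
    obtain ⟨z, hz, hx⟩ := hex 0
    obtain ⟨z', hz'⟩ := tr_exists hL hL' z
    have h1 := hcmp z z' hz hz'
    rw [hx, map_zero, mul_zero, zero_add] at h1
    exact sub_eq_zero.1 h1
  have hg2 : g2 N = t (g2 M) := by
    obtain ⟨z, hz, hx⟩ := hex 1
    obtain ⟨z', hz'⟩ := tr_exists hL hL' z
    have h1 := hcmp z z' hz hz'
    rw [hx, map_one, mul_one, hg3, sub_self, add_zero] at h1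
    exact sub_eq_zero.1 h1
  have hTw : Tw t M N := ⟨hN, hg2, hg3⟩
  have hNM : M' = N := tw_unique hM' hTw
  rw [hNM]
  refine ⟨hLN, fun z z' h1 => ?_⟩
  by_cases hz : z ∈ M
  · exact Or.inl ⟨hz, (hNmem z').2 ⟨z, hz, h1⟩⟩
  · exact Or.inr ⟨hz, hout z z' hz h1, hwp z z' hz h1, hwq z z' hz h1⟩

end CMS
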