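import Mathlib
import Pool.Agent.Lib.CMS.TSub

/-!
# TMul: transforms and multiplication  (about 90 lines)

`tw_sc` : `isLat_sc`, `g2_sc`, `g3_sc`.  `tr_sc` : `wp_sc`, `wq_sc`, `mem_sc_iff`.
`tw_mul` : `L₁ ≤ sc α⁻¹ L₂`; `Tw t (sc α⁻¹ L₂) (sc α⁻¹ L₂')` (`tw_sc`, `t α = α`); `tw_le` gives `L₁' ≤ sc α⁻¹ L₂'` and `TR t L₁ L₁' z z' → TR t (sc α⁻¹ L₂) (sc α⁻¹ L₂') z z'`, and `tr_sc` with `α` (`sc α (sc α⁻¹ L₂) = L₂`, `sc_sc`, `sc_one`).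
-/

set_option autoImplicit false

namespace CMS

open Complex NumberField MPd9f52e

variable {t : ℂ ≃+* ℂ}

theorem tw_sc {L L' : Submodule ℤ ℂ} {c : ℂ} (hc : c ≠ 0) (h : Tw t L L') : Tw t (sc c L) (sc (t c) L') := by
  have hc' : t c ≠ 0 := (map_ne_zero t).2 hc
  refine ⟨isLat_sc h.1 hc', ?_, ?_⟩
  · rw [g2_sc hc', g2_sc hc, map_div₀, map_pow, h.2.1]
  · rw [g3_sc hc', g3_sc hc, map_div₀, map_pow, h.2.2]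

theorem tr_sc {L L' : Submodule ℤ ℂ} {c : ℂ} (hc : c ≠ 0) {z z' : ℂ} (h : TR t L L' z z') :
    TR t (sc c L) (sc (t c) L') (c * z) (t c * z') := by
  have hc' : t c ≠ 0 := (map_ne_zero t).2 hc
  rcases h with ⟨h1, h2⟩ | ⟨h1, h2, h3, h4⟩
  · exact Or.inl ⟨(mem_sc_iff hc).2 h1, (mem_sc_iff hc').2 h2⟩
  · refine Or.inr ⟨fun h => h1 ((mem_sc_iff hc).1 h), fun h => h2 ((mem_sc_iff hc').1 h), ?_, ?_⟩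
    · rw [wp_sc hc', wp_sc hc, map_div₀, map_pow, h3]
    · rw [wq_sc hc', wq_sc hc, map_div₀, map_pow, h4]

theorem tw_mul {L₁ L₂ L₁' L₂' : Submodule ℤ ℂ} {α : ℂ} (hL₁ : IsLat L₁) (hL₂ : IsLat L₂) (hα : α ≠ 0) (ht : t α = α)
    (h : ∀ l ∈ L₁, α * l ∈ L₂) (h₁ : Tw t L₁ L₁') (h₂ : Tw t L₂ L₂') :
    (∀ l ∈ L₁', α * l ∈ L₂') ∧ ∀ z z' : ℂ, TR t L₁ L₁' z z' → TR t L₂ L₂' (α * z) (α * z') := by
  have hα' : α⁻¹ ≠ 0 := inv_ne_zero hα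
  have ht' : t α⁻¹ = α⁻¹ := by rw [map_inv₀, ht]
  have hmem : ∀ (L : Submodule ℤ ℂ) (z : ℂ), z ∈ sc α⁻¹ L ↔ α * z ∈ L := by
    intro L z
    rw [← mem_sc_iff hα' (z := α * z), inv_mul_cancel_left₀ hα]
  have hle : L₁ ≤ sc α⁻¹ L₂ := fun l hl => (hmem L₂ l).2 (h l hl)
  have hT : Tw t (sc α⁻¹ L₂) (sc α⁻¹ L₂') := by
    have h3 := tw_sc hα' h₂
    rwa [ht'] at h3
  obtain ⟨h3, h4⟩ := tw_le hL₁ (isLat_sc hL₂ hα') hle h₁ hT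
  refine ⟨fun l hl => (hmem L₂' l).1 (h3 hl), fun z z' hz => ?_⟩
  have h5 := tr_sc hα (h4 z z' hz)
  rwa [ht, sc_sc, sc_sc, mul_inv_cancel₀ hα, sc_one, sc_one] at h5

end CMS
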