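import Mathlib
import Pool.Agent.Lib.CMS.Defs
import Pool.Agent.Lib.CMS.LBas
import Pool.Agent.Lib.CMS.LWp
import Pool.Agent.Lib.CMS.TTr
import Pool.Agent.Lib.CMS.TSub
import Pool.Agent.Lib.CMS.TMul
import Pool.Agent.Lib.CMS.OLc1
import Pool.Agent.Lib.CMS.OLc2
import Pool.Agent.Lib.CMS.OLat

/-!
# OAct: existence of the ideal attached to an automorphism (paper 2.6)  (about 280 lines)

PROOF. Let `M` be the transform of `Lc e ⊤` (`tw_exists`), an `𝓞 k`-lattice by `tw_mul` with `α = e(a)`, `L₁ = L₂ = Lc e ⊤`.  `v` with `TR t (Lc e ⊤) M (1/f) v` (`tr_exists`), `γ = f v`: `TR t _ _ (f · (1/f)) (f v)` (`tr_nsmul`), `1 ∈ Lc e ⊤`, so `γ ∈ M` (`tr_mem`).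
`1/f ∉ Lc e ⊤` (`one_div_notMem`), so `v ∉ M`, `γ ≠ 0`.  `olat_exists` for `sc γ⁻¹ M` (contains `1`): `M = sc γ (Lc e u)`, `u ≠ ⊥`.
For `c ≠ ⊥` let `Mc` be the transform of `Lc e c`.  CLAIM `Mc = sc γ (Lc e (u * c))`: for `x ∈ c`, `e(x) Lc e c ⊆ Lc e ⊤`, so `e(x) Mc ⊆ M` (`tw_mul`; `x = 0` trivial); so `γ⁻¹ y e(x) ∈ Lc e u` for `y ∈ Mc`, i.e. `γ⁻¹ y ∈ Lc e (c * u)` (`mem_Lc_mul`, `mul_comm`).
Conversely let `y` satisfy `e(x) y ∈ M` for all `x ∈ c`; by `Lc_dual` `1 = ∑ e(x_i) z_i`, `z_i ∈ Lc e c`; `z_i = e(y_i)` (`Lc_emb`) is fixed by `t`, `z_i Lc e ⊤ ⊆ Lc e c`, so `z_i M ⊆ Mc` (`tw_mul`, `z_i ≠ 0`), `y = ∑ z_i (e(x_i) y) ∈ Mc`.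
POINTS: let `f x ∈ Lc e c`, `x ∉ Lc e c` (so `x ≠ 0`).  `α = f x = e(y)` is fixed by `t`, `α Lc e ⊤ ⊆ Lc e c`; `tw_mul` gives `TR t (Lc e c) Mc (α · (1/f)) (α v)`, i.e. `TR t (Lc e c) Mc x (γ x)`.  With `wp_sc`, `wq_sc`, `g2_sc`, `g3_sc` for `Mc = sc γ (Lc e (u*c))`:
`t (wp x) = wp Mc (γ x) = wp (Lc e (u c)) x / γ²` etc.
`Cop f u`: if not, there is a prime ideal `P` with `u ≤ P`, `f ∈ P`.  There is `a ∈ 𝓞 k` with `f ∤ a` and `a P ⊆ f 𝓞 k` (write `(f) = P Q`, take `a ∈ Q`, `a ∉ (f)`; `Q ≠ (f)`).  `x = e(a)/f ∉ Lc e ⊤` but `x ∈ Lc e u` (`a y ∈ f 𝓞 k` for `y ∈ u ⊆ P`).  Then `γ x ∈ sc γ (Lc e u) = M`,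
but `TR t (Lc e ⊤) M x (γ x)` and `x ∉ Lc e ⊤`: contradiction (`tr_mem`).
-/

set_option autoImplicit false

namespace CMS

open Complex NumberField MPd9f52e

variable {k : Type} [Field k] [NumberField k]

variable {e : k →+* ℂ} {t : ℂ ≃+* ℂ} {f : ℕ}

omit [NumberField k] in
private theorem oact_ne {x : 𝓞 k} (hx : x ≠ 0) : e (x : k) ≠ 0 := by
  rw [map_ne_zero]
  exact fun h => hx (RingOfIntegers.coe_eq_zero_iff.1 h)

omit [NumberField k] in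
private theorem oact_top : Cop f (⊤ : Ideal (𝓞 k)) :=
  ⟨top_ne_bot, by rw [← Ideal.one_eq_top]; exact isCoprime_one_left⟩

/-- a nonzero element of `Lc e c` maps `Lc e ⊤` into `Lc e c` -/
private theorem oact_mul {c : Ideal (𝓞 k)} {z l : ℂ} (hz : z ∈ Lc e c) (hl : l ∈ Lc e (⊤ : Ideal (𝓞 k))) :
    z * l ∈ Lc e c := by
  obtain ⟨y, rfl⟩ := mem_Lc_top.1 hl
  rw [mul_comm]
  exact Lc_smul y hz

private theorem oact_claim (hk : IQ k) (ht : ∀ x, t (e x) = e x) {M : Submodule ℤ ℂ}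
    (hM : Tw t (Lc e ⊤) M) {γ : ℂ} (hγ : γ ≠ 0) {u : Ideal (𝓞 k)}
    (hMu : ∀ z, z ∈ Lc e u ↔ γ * z ∈ M) {c : Ideal (𝓞 k)} (hc : c ≠ ⊥) {Mc : Submodule ℤ ℂ}
    (hMc : Tw t (Lc e c) Mc) : Mc = sc γ (Lc e (u * c)) := by
  have hT0 : IsLat (Lc e (⊤ : Ideal (𝓞 k))) := isLat_Lc hk e top_ne_bot
  have hLc : IsLat (Lc e c) := isLat_Lc hk e hc
  apply le_antisymm
  · intro y hy
    rw [← mul_inv_cancel_left₀ hγ y, mem_sc_iff hγ, mul_comm u c, mem_Lc_mul]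
    intro x hx
    rw [hMu]
    have h1 : γ * (e (x : k) * (γ⁻¹ * y)) = e (x : k) * y := by
      field_simp
    rw [h1]
    by_cases hx0 : x = 0
    · rw [hx0]
      simp
    · refine (tw_mul hLc hT0 (oact_ne hx0) (ht _) ?_ hMc hM).1 y hy
      intro l hl
      obtain ⟨w, hw⟩ := Lc_mul_mem hx hl
      exact mem_Lc_top.2 ⟨w, hw⟩
  · intro z hz
    obtain ⟨w, hw, rfl⟩ := mem_sc.1 hz
    rw [mul_comm u c, mem_Lc_mul] at hw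
    obtain ⟨n, x, ζ, hx, hζ, hsum⟩ := Lc_dual (e := e) hc
    have h1 : γ * w = ∑ i, ζ i * (γ * (e (x i : k) * w)) := by
      calc γ * w = (∑ i, e (x i : k) * ζ i) * (γ * w) := by rw [hsum, one_mul]
        _ = ∑ i, ζ i * (γ * (e (x i : k) * w)) := by
          rw [Finset.sum_mul]
          exact Finset.sum_congr rfl fun i _ => by ring
    rw [h1]
    refine Submodule.sum_mem _ fun i _ => ?_
    have h2 : γ * (e (x i : k) * w) ∈ M := (hMu _).1 (hw (x i) (hx i))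
    by_cases h0 : ζ i = 0
    · rw [h0, zero_mul]
      exact Submodule.zero_mem _
    · obtain ⟨y, hy⟩ := Lc_emb hc (hζ i)
      refine (tw_mul hT0 hLc h0 (by rw [hy, ht]) (fun l hl => oact_mul (hζ i) hl) hM hMc).1 _ h2

private theorem oact_pt (hk : IQ k) (ht : ∀ x, t (e x) = e x) (hf : f ≠ 0) {M : Submodule ℤ ℂ}
    (hM : Tw t (Lc e ⊤) M) {v : ℂ} (hv : TR t (Lc e ⊤) M (1 / f) v) {c : Ideal (𝓞 k)} (hc : c ≠ ⊥)
    {Mc : Submodule ℤ ℂ} (hMc : Tw t (Lc e c) Mc) {x : ℂ} (h1 : (f : ℂ) * x ∈ Lc e c)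
    (h2 : x ∉ Lc e c) : TR t (Lc e c) Mc x ((f : ℂ) * v * x) := by
  have hT0 : IsLat (Lc e (⊤ : Ideal (𝓞 k))) := isLat_Lc hk e top_ne_bot
  have hf' : (f : ℂ) ≠ 0 := Nat.cast_ne_zero.2 hf
  have hx0 : x ≠ 0 := fun h => h2 (h ▸ Submodule.zero_mem _)
  obtain ⟨y, hy⟩ := Lc_emb hc h1
  have h3 := (tw_mul hT0 (isLat_Lc hk e hc) (mul_ne_zero hf' hx0) (by rw [hy, ht])
    (fun l hl => oact_mul h1 hl) hM hMc).2 _ _ hv
  have e1 : (f : ℂ) * x * (1 / f) = x := by field_simp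
  have e2 : (f : ℂ) * x * v = (f : ℂ) * v * x := by ring
  rwa [e1, e2] at h3

private theorem oact_cop (hf : f ≠ 0) {u : Ideal (𝓞 k)} (hu : u ≠ ⊥)
    (h : ∀ x : ℂ, x ∈ Lc e u → (f : ℂ) * x ∈ Lc e (⊤ : Ideal (𝓞 k)) →
      x ∈ Lc e (⊤ : Ideal (𝓞 k))) : Cop f u := by
  refine ⟨hu, ?_⟩
  by_contra hcop
  rw [Ideal.isCoprime_iff_sup_eq] at hcop
  obtain ⟨P, hP, hPle⟩ := Ideal.exists_le_maximal _ hcop
  have huP : u ≤ P := le_sup_left.trans hPle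
  have hfP : Ideal.span {(f : 𝓞 k)} ≤ P := le_sup_right.trans hPle
  have hfO : (f : 𝓞 k) ≠ 0 := Nat.cast_ne_zero.2 hf
  obtain ⟨Q, hQ⟩ := Ideal.dvd_iff_le.2 hfP
  have hQ0 : Q ≠ ⊥ := by
    rintro rfl
    rw [Ideal.mul_bot, Ideal.span_singleton_eq_bot] at hQ
    exact hfO hQ
  obtain ⟨a, haQ, ha⟩ : ∃ a ∈ Q, a ∉ Ideal.span {(f : 𝓞 k)} := by
    by_contra hcon
    push Not at hcon
    have h1 : Q ≤ P * Q := by rw [← hQ]; exact hcon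
    have h2 : P * Q = 1 * Q := by
      rw [one_mul]
      exact le_antisymm Ideal.mul_le_right h1
    have h3 : P = 1 := mul_right_cancel₀ hQ0 h2
    exact hP.ne_top (by rw [h3, Ideal.one_eq_top])
  have hnd : ¬ (f : 𝓞 k) ∣ a := fun h => ha (Ideal.mem_span_singleton.2 h)
  have hf' : (f : ℂ) ≠ 0 := Nat.cast_ne_zero.2 hf
  apply hnd
  rw [← div_mem_Lc (e := e) hf (oact_top (f := f)) a]
  apply h
  · intro y hy
    have h4 : y * a ∈ Ideal.span {(f : 𝓞 k)} := by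
      rw [hQ]
      exact Ideal.mul_mem_mul (huP hy) haQ
    obtain ⟨w, hw⟩ := Ideal.mem_span_singleton.1 h4
    refine ⟨w, ?_⟩
    have h5 := congrArg (fun z : 𝓞 k => e (z : k)) hw
    simp only [map_mul, map_natCast] at h5
    rw [div_mul_eq_mul_div, mul_comm, h5, mul_comm, mul_div_assoc, div_self hf', mul_one]
  · rw [mul_div_cancel₀ _ hf']
    exact mem_Lc_top.2 ⟨a, rfl⟩

theorem act_exists (hk : IQ k) (ht : ∀ x, t (e x) = e x) (hf : 3 ≤ f) : ∃ γ u, Act e t f γ u := by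
  have hf0 : f ≠ 0 := by omega
  have hf' : (f : ℂ) ≠ 0 := Nat.cast_ne_zero.2 hf0
  have hT0 : IsLat (Lc e (⊤ : Ideal (𝓞 k))) := isLat_Lc hk e top_ne_bot
  obtain ⟨M, hM⟩ := tw_exists hT0 t
  have hMO : ∀ a : 𝓞 k, ∀ z ∈ M, e (a : k) * z ∈ M := by
    intro a z hz
    by_cases ha : a = 0
    · rw [ha]
      simp
    · exact (tw_mul hT0 hT0 (oact_ne ha) (ht _) (fun l hl => Lc_smul a hl) hM hM).1 z hz
  obtain ⟨v, hv⟩ := tr_exists hT0 hM (1 / f)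
  have hvM : v ∉ M := fun h => one_div_notMem (e := e) (by omega : 2 ≤ f) (oact_top (f := f))
    ((tr_mem hv).2 h)
  have hv0 : v ≠ 0 := fun h => hvM (h ▸ Submodule.zero_mem _)
  obtain ⟨γ, hγd⟩ : ∃ γ : ℂ, γ = (f : ℂ) * v := ⟨_, rfl⟩
  have hγ : γ ≠ 0 := by rw [hγd]; exact mul_ne_zero hf' hv0
  have hγM : γ ∈ M := by
    have h1 := tr_nsmul hT0 hM hv f
    rw [mul_one_div_cancel hf', ← hγd] at h1
    exact (tr_mem h1).1 (one_mem_Lc _)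
  have hsc : ∀ z, z ∈ sc γ⁻¹ M ↔ γ * z ∈ M := by
    intro z
    rw [← mem_sc_iff (inv_ne_zero hγ) (z := γ * z), inv_mul_cancel_left₀ hγ]
  obtain ⟨u, hu, hMu'⟩ := olat_exists hk e (isLat_sc hM.1 (inv_ne_zero hγ)) (by
    intro a z hz
    rw [hsc] at hz ⊢
    have := hMO a _ hz
    rwa [mul_left_comm] at this) (by rw [hsc, mul_one]; exact hγM)
  have hMu : ∀ z, z ∈ Lc e u ↔ γ * z ∈ M := by
    intro z
    rw [← hMu', hsc]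
  have hpt : ∀ {c : Ideal (𝓞 k)}, c ≠ ⊥ → ∀ {Mc : Submodule ℤ ℂ}, Tw t (Lc e c) Mc → ∀ {x : ℂ},
      (f : ℂ) * x ∈ Lc e c → x ∉ Lc e c → TR t (Lc e c) Mc x (γ * x) := by
    intro c hc Mc hMc x h1 h2
    rw [hγd]
    exact oact_pt hk ht hf0 hM hv hc hMc h1 h2
  refine ⟨γ, u, hγ, ?_, ?_, ?_, ?_, ?_⟩
  · refine oact_cop (e := e) hf0 hu fun x hx hfx => ?_
    by_contra hcon
    exact hcon ((tr_mem (hpt top_ne_bot hM hfx hcon)).2 ((hMu x).1 hx))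
  · intro c hc
    obtain ⟨Mc, hMc⟩ := tw_exists (isLat_Lc hk e hc) t
    rw [← hMc.2.1, oact_claim hk ht hM hγ hMu hc hMc, g2_sc hγ]
  · intro c hc
    obtain ⟨Mc, hMc⟩ := tw_exists (isLat_Lc hk e hc) t
    rw [← hMc.2.2, oact_claim hk ht hM hγ hMu hc hMc, g3_sc hγ]
  · intro c hc x h1 h2
    obtain ⟨Mc, hMc⟩ := tw_exists (isLat_Lc hk e hc) t
    rcases hpt hc hMc h1 h2 with ⟨h3, -⟩ | ⟨-, -, h3, -⟩
    · exact absurd h3 h2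
    · rw [← h3, oact_claim hk ht hM hγ hMu hc hMc, wp_sc hγ]
  · intro c hc x h1 h2
    obtain ⟨Mc, hMc⟩ := tw_exists (isLat_Lc hk e hc) t
    rcases hpt hc hMc h1 h2 with ⟨h3, -⟩ | ⟨-, -, -, h3⟩
    · exact absurd h3 h2
    · rw [← h3, oact_claim hk ht hM hγ hMu hc hMc, wq_sc hγ]

end CMS
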