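import Mathlib
import Pool.Agent.Lib.CMS.Defs
import Pool.Agent.Lib.CMS.LBas
import Pool.Agent.Lib.CMS.LWp

/-!
# HDefs: definitions of the lattice sums (complete, nothing to prove)  (about 40 lines)

Definitions for group H.
-/

set_option autoImplicit false

namespace CMS

open Complex MPd9f52e

/-- `E(s) = ∑_{l ≠ 0} |l|^{-2s}` -/
noncomputable def E0 (L : Submodule ℤ ℂ) (s : ℂ) : ℂ :=
  ∑' l : L, if (l : ℂ) = 0 then (0 : ℂ) else (‖(l : ℂ)‖ : ℂ) ^ (-2 * s)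

/-- `G(s) = ∑_{l ≠ 0} l^{-2} |l|^{-2s}` -/
noncomputable def G0 (L : Submodule ℤ ℂ) (s : ℂ) : ℂ :=
  ∑' l : L, if (l : ℂ) = 0 then (0 : ℂ) else ((l : ℂ) ^ 2)⁻¹ * (‖(l : ℂ)‖ : ℂ) ^ (-2 * s)

/-- `G'(s) = ∑_{l ≠ 0} conj(l)^{-2} |l|^{-2s}` -/
noncomputable def G1 (L : Submodule ℤ ℂ) (s : ℂ) : ℂ :=
  ∑' l : L, if (l : ℂ) = 0 then (0 : ℂ) else ((starRingEnd ℂ) (l : ℂ) ^ 2)⁻¹ * (‖(l : ℂ)‖ : ℂ) ^ (-2 * s)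

/-- `H(z,s) = ∑ |z + l|^{-2s}` -/
noncomputable def H0 (L : Submodule ℤ ℂ) (z s : ℂ) : ℂ := ∑' l : L, (‖z + (l : ℂ)‖ : ℂ) ^ (-2 * s)

/-- `G(z,s) = ∑ (z + l)^{-2} |z + l|^{-2s}` -/
noncomputable def GZ (L : Submodule ℤ ℂ) (z s : ℂ) : ℂ :=
  ∑' l : L, ((z + (l : ℂ)) ^ 2)⁻¹ * (‖z + (l : ℂ)‖ : ℂ) ^ (-2 * s)

/-- remainder of the first order expansion of `(z+l)^{-2}|z+l|^{-2s}` -/
noncomputable def remU (z s l : ℂ) : ℂ :=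
  ((z + l) ^ 2)⁻¹ * (‖z + l‖ : ℂ) ^ (-2 * s) -
    (l ^ 2)⁻¹ * (‖l‖ : ℂ) ^ (-2 * s) * (1 - (2 + s) * (z / l) - s * (starRingEnd ℂ) (z / l))

/-- the sum of the remainders `remU` -/
noncomputable def Rem2 (L : Submodule ℤ ℂ) (z s : ℂ) : ℂ := ∑' l : L, if (l : ℂ) = 0 then 0 else remU z s l

end CMS
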