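import Mathlib
import Pool.Agent.Lib.CMS.HDefs

/-!
# HSum: absolute convergence and elementary properties of the lattice sums  (about 240 lines)

PROOF. `L = P.lattice`, `l = m a + n b`.  `fin_le`: `‖m a + n b‖ ≥ c (|m| + |n|)` with `c > 0` (or: `L` closed and discrete;
`PeriodPair.isClosed_lattice`, `Submodule` discrete topology; or the bounds in the file Lib/MP_0162a5_an).
`sum_norm`: Mathlib has the summability of `‖l‖^{-r}`, `r > 2`, over a `ℤ`-lattice of rank 2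
(`ZLattice.summable_norm_rpow`, Mathlib.Algebra.Module.ZLattice.Summable; look at how Mathlib proves the summability of the terms of
`PeriodPair.weierstrassP`); compare also `summable_lat` in Lib/MP_d9f52e_nt/HEz.lean.
`‖(‖l‖ : ℂ)^(-2 s)‖ = ‖l‖^(-2 Re s)` for `l ≠ 0` (`Complex.norm_cpow_eq_rpow_re_of_pos`).
`sum_H`, `sum_GZ`: for `‖l‖ ≥ 2‖z‖`: `‖l‖/2 ≤ ‖z+l‖ ≤ 2 ‖l‖` (see `summable_shift` in Lib/MP_d9f52e_nt/HSer.lean), all but finitely many `l`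
(`Summable.of_norm_bounded_eventually`).
`E0_diff`: on `Re s > 1 + δ` the terms are bounded by `‖l‖^{-2-2δ}` up to the finitely many `l` with `‖l‖ < 1`: `differentiableOn_tsum_of_summable_norm`
on the open sets `{Re s > 1 + δ, Re s < R}` (bound `C ‖l‖^{-2-2δ}`, with `C` = sup of `‖l‖^{-2(Re s - 1 - δ)}`; there are finitely many `l` with `‖l‖ < 1`, and `Re s < R`);
differentiability is local. The same for `G0`, `G1`.
`E0_conj`: `conj` commutes with the sum (`Complex.conj_tsum` / `tsum_star`), `conj(x^(-2s)) = x^(-2 conj s)` for `x ≥ 0` real.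
`E0_sc` etc.: `sc c L` is in bijection with `L` by `l ↦ c l`; `‖c l‖^(-2s) = ‖c‖^(-2s) ‖l‖^(-2s)` (positive reals: `Complex.mul_cpow_ofReal_nonneg`);
`tsum_mul_left` needs no summability in a division ring.
-/

set_option autoImplicit false

namespace CMS

open Complex MPd9f52e

variable {L : Submodule ℤ ℂ}

private theorem hsum_norm (hL : IsLat L) {p : ℝ} (hp : 2 < p) :
    Summable (fun l : L => if (l : ℂ) = 0 then (0 : ℝ) else ‖(l : ℂ)‖ ^ (-p)) := by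
  obtain ⟨P, rfl⟩ := hL
  have h : Summable fun z : P.lattice => ‖z‖ ^ (-p) := by
    refine ZLattice.summable_norm_rpow P.lattice (-p) ?_
    rw [P.finrank_lattice]
    push_cast
    linarith
  refine h.congr fun l => ?_
  by_cases hl : (l : ℂ) = 0
  · rw [if_pos hl]
    simp only [Submodule.coe_norm, hl, norm_zero]
    exact Real.zero_rpow (by linarith)
  · rw [if_neg hl]
    rfl

/-- finitely many lattice points in a disc -/
theorem fin_le (hL : IsLat L) (R : ℝ) : {l : L | ‖(l : ℂ)‖ ≤ R}.Finite := by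
  have h1 := (hsum_norm hL (p := 3) (by norm_num)).tendsto_cofinite_zero
  have hR : (0 : ℝ) < (max R 1) ^ (-3 : ℝ) :=
    Real.rpow_pos_of_pos (lt_of_lt_of_le one_pos (le_max_right _ _)) _
  have h2 := h1.eventually_lt_const hR
  rw [Filter.eventually_cofinite] at h2
  refine (h2.union (Set.finite_singleton (0 : L))).subset ?_
  intro l hl
  have hl' : ‖(l : ℂ)‖ ≤ R := hl
  by_cases h0 : (l : ℂ) = 0
  · exact Or.inr (Subtype.ext h0)
  · left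
    change ¬ ((if (l : ℂ) = 0 then (0 : ℝ) else ‖(l : ℂ)‖ ^ (-3 : ℝ)) < _)
    rw [if_neg h0, not_lt]
    exact Real.rpow_le_rpow_of_nonpos (norm_pos_iff.2 h0) (hl'.trans (le_max_left _ _))
      (by norm_num)

theorem sum_norm (hL : IsLat L) {p : ℝ} (hp : 2 < p) :
    Summable (fun l : L => if (l : ℂ) = 0 then (0 : ℝ) else ‖(l : ℂ)‖ ^ (-p)) :=
  hsum_norm hL hp

private theorem hsum_cpow {x : ℝ} (hx : 0 < x) (s : ℂ) :
    ‖(x : ℂ) ^ (-2 * s)‖ = x ^ (-(2 * s.re)) := by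
  rw [norm_cpow_eq_rpow_re_of_pos hx]
  congr 1
  simp

private theorem hsum_norm2 {x : ℂ} (hx : x ≠ 0) (s : ℂ) :
    ‖(x ^ 2)⁻¹ * (‖x‖ : ℂ) ^ (-2 * s)‖ = ‖x‖ ^ (-(2 + 2 * s.re)) := by
  have h0 := norm_pos_iff.2 hx
  rw [norm_mul, hsum_cpow h0, norm_inv, norm_pow]
  have h1 : (‖x‖ ^ 2)⁻¹ = ‖x‖ ^ (-2 : ℝ) := by
    rw [Real.rpow_neg h0.le]
    norm_cast
  rw [h1, ← Real.rpow_add h0]
  congr 1
  ring

private theorem hsum_of (hL : IsLat L) {p : ℝ} (hp : 2 < p) (w : ℂ → ℂ)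
    (hw : ∀ x, x ≠ 0 → ‖w x‖ ≤ ‖x‖ ^ (-p)) :
    Summable (fun l : L => if (l : ℂ) = 0 then (0 : ℂ) else w l) := by
  refine Summable.of_norm_bounded (hsum_norm hL hp) fun l => ?_
  by_cases hl : (l : ℂ) = 0
  · rw [if_pos hl, if_pos hl, norm_zero]
  · rw [if_neg hl, if_neg hl]
    exact hw _ hl

private theorem hsum_shift (hL : IsLat L) {p : ℝ} (hp : 2 < p) (w : ℂ → ℂ)
    (hw : ∀ x, x ≠ 0 → ‖w x‖ ≤ ‖x‖ ^ (-p)) (z : ℂ) :
    Summable (fun l : L => w (z + l)) := by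
  have hS := (hsum_norm hL hp).mul_left ((2 : ℝ) ^ p)
  refine Summable.of_norm_bounded_eventually hS ?_
  rw [Filter.eventually_cofinite]
  refine ((fin_le hL (2 * ‖z‖)).union (Set.finite_singleton (0 : L))).subset ?_
  intro l hl
  by_contra hcon
  apply hl
  have h0 : (l : ℂ) ≠ 0 := fun h => hcon (Or.inr (Subtype.ext h))
  have h1 : 2 * ‖z‖ < ‖(l : ℂ)‖ := by
    by_contra h
    exact hcon (Or.inl (not_lt.1 h))
  have hpos : 0 < ‖(l : ℂ)‖ := norm_pos_iff.2 h0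
  have h2 : ‖(l : ℂ)‖ / 2 ≤ ‖z + l‖ := by
    have h3 : ‖(l : ℂ)‖ ≤ ‖z + l‖ + ‖z‖ := by
      calc ‖(l : ℂ)‖ = ‖(z + l) - z‖ := by congr 1; ring
        _ ≤ ‖z + l‖ + ‖z‖ := norm_sub_le _ _
    linarith
  have h3 : z + l ≠ 0 := norm_pos_iff.1 (lt_of_lt_of_le (by positivity) h2)
  rw [if_neg h0]
  refine (hw _ h3).trans ?_
  calc ‖z + l‖ ^ (-p) ≤ (‖(l : ℂ)‖ / 2) ^ (-p) :=
        Real.rpow_le_rpow_of_nonpos (by positivity) h2 (by linarith)
    _ = 2 ^ p * ‖(l : ℂ)‖ ^ (-p) := by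
        rw [Real.div_rpow hpos.le (by norm_num), Real.rpow_neg (by norm_num : (0 : ℝ) ≤ 2),
          div_inv_eq_mul, mul_comm]

theorem sum_E (hL : IsLat L) {s : ℂ} (hs : 1 < s.re) :
    Summable (fun l : L => if (l : ℂ) = 0 then (0 : ℂ) else (‖(l : ℂ)‖ : ℂ) ^ (-2 * s)) :=
  hsum_of hL (p := 2 * s.re) (by linarith) (fun x => (‖x‖ : ℂ) ^ (-2 * s)) fun _ hx =>
    (hsum_cpow (norm_pos_iff.2 hx) s).le

theorem sum_G (hL : IsLat L) {s : ℂ} (hs : 0 < s.re) :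
    Summable (fun l : L => if (l : ℂ) = 0 then (0 : ℂ) else ((l : ℂ) ^ 2)⁻¹ * (‖(l : ℂ)‖ : ℂ) ^ (-2 * s)) :=
  hsum_of hL (p := 2 + 2 * s.re) (by linarith) (fun x => (x ^ 2)⁻¹ * (‖x‖ : ℂ) ^ (-2 * s))
    fun _ hx => (hsum_norm2 hx s).le

theorem sum_G1 (hL : IsLat L) {s : ℂ} (hs : 0 < s.re) :
    Summable (fun l : L => if (l : ℂ) = 0 then (0 : ℂ) else
      ((starRingEnd ℂ) (l : ℂ) ^ 2)⁻¹ * (‖(l : ℂ)‖ : ℂ) ^ (-2 * s)) :=
  hsum_of hL (p := 2 + 2 * s.re) (by linarith)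
    (fun x => ((starRingEnd ℂ) x ^ 2)⁻¹ * (‖x‖ : ℂ) ^ (-2 * s)) fun x hx => by
      rw [← hsum_norm2 hx s]
      simp only [norm_mul, norm_inv, norm_pow, RCLike.norm_conj]
      exact le_rfl

theorem sum_H (hL : IsLat L) (z : ℂ) {s : ℂ} (hs : 1 < s.re) :
    Summable (fun l : L => (‖z + (l : ℂ)‖ : ℂ) ^ (-2 * s)) :=
  hsum_shift hL (p := 2 * s.re) (by linarith) (fun x => (‖x‖ : ℂ) ^ (-2 * s)) (fun _ hx =>
    (hsum_cpow (norm_pos_iff.2 hx) s).le) z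

theorem sum_GZ (hL : IsLat L) (z : ℂ) {s : ℂ} (hs : 0 < s.re) :
    Summable (fun l : L => ((z + (l : ℂ)) ^ 2)⁻¹ * (‖z + (l : ℂ)‖ : ℂ) ^ (-2 * s)) :=
  hsum_shift hL (p := 2 + 2 * s.re) (by linarith) (fun x => (x ^ 2)⁻¹ * (‖x‖ : ℂ) ^ (-2 * s))
    (fun _ hx => (hsum_norm2 hx s).le) z

private theorem hsum_rpow {x a b σ : ℝ} (hx : 0 < x) (h1 : a ≤ σ) (h2 : σ ≤ b) :
    x ^ (-(2 * σ)) ≤ x ^ (-(2 * a)) + x ^ (-(2 * b)) := by
  rcases le_total 1 x with h | h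
  · have h3 : x ^ (-(2 * σ)) ≤ x ^ (-(2 * a)) :=
      Real.rpow_le_rpow_of_exponent_le h (by linarith)
    have h4 : 0 ≤ x ^ (-(2 * b)) := Real.rpow_nonneg hx.le _
    linarith
  · have h3 : x ^ (-(2 * σ)) ≤ x ^ (-(2 * b)) :=
      Real.rpow_le_rpow_of_exponent_ge hx h (by linarith)
    have h4 : 0 ≤ x ^ (-(2 * a)) := Real.rpow_nonneg hx.le _
    linarith

private theorem hsum_diff (hL : IsLat L) (c : ℂ → ℂ) {t σ : ℝ} (ht : 2 ≤ t + 2 * σ)
    (hc : ∀ x, x ≠ 0 → ‖c x‖ ≤ ‖x‖ ^ (-t)) :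
    DifferentiableOn ℂ (fun s => ∑' l : L, if (l : ℂ) = 0 then (0 : ℂ) else
      c l * (‖(l : ℂ)‖ : ℂ) ^ (-2 * s)) (HP σ) := by
  intro s0 hs0
  have hs0' : σ < s0.re := hs0
  obtain ⟨a, ha1, ha2⟩ := exists_between hs0'
  obtain ⟨U, hU⟩ : ∃ U : Set ℂ, U = {s : ℂ | a < s.re ∧ s.re < s0.re + 1} := ⟨_, rfl⟩
  have hUo : IsOpen U := by
    rw [hU]
    exact (isOpen_lt continuous_const continuous_re).inter
      (isOpen_lt continuous_re continuous_const)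
  have hs0U : s0 ∈ U := by
    rw [hU]
    exact ⟨ha2, by linarith⟩
  have h1 := hsum_norm hL (p := t + 2 * a) (by linarith)
  have h2 := hsum_norm hL (p := t + 2 * (s0.re + 1)) (by linarith)
  have h3 := differentiableOn_tsum_of_summable_norm (U := U) (F := fun (l : L) s =>
    if (l : ℂ) = 0 then (0 : ℂ) else c l * (‖(l : ℂ)‖ : ℂ) ^ (-2 * s)) (h1.add h2) ?_ hUo ?_
  · exact ((h3 s0 hs0U).differentiableAt (hUo.mem_nhds hs0U)).differentiableWithinAt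
  · intro l
    by_cases hl : (l : ℂ) = 0
    · simp only [if_pos hl]
      exact differentiableOn_const _
    · simp only [if_neg hl]
      intro s _
      have hne : ((‖(l : ℂ)‖ : ℝ) : ℂ) ≠ 0 := by
        rw [Ne, ofReal_eq_zero]
        exact norm_ne_zero_iff.2 hl
      exact (((differentiableAt_id.const_mul (-2)).const_cpow
        (Or.inl hne)).const_mul _).differentiableWithinAt
  · intro l s hs
    rw [hU] at hs
    by_cases hl : (l : ℂ) = 0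
    · simp only [if_pos hl, norm_zero, add_zero, le_refl]
    · simp only [if_neg hl]
      have h0 := norm_pos_iff.2 hl
      rw [norm_mul, hsum_cpow h0]
      have e : ∀ b : ℝ, ‖(l : ℂ)‖ ^ (-(t + 2 * b)) =
          ‖(l : ℂ)‖ ^ (-t) * ‖(l : ℂ)‖ ^ (-(2 * b)) := by
        intro b
        rw [← Real.rpow_add h0]
        congr 1
        ring
      rw [e, e, ← mul_add]
      exact mul_le_mul (hc _ hl) (hsum_rpow h0 hs.1.le hs.2.le)
        (Real.rpow_nonneg h0.le _) (Real.rpow_nonneg h0.le _)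

theorem E0_diff (hL : IsLat L) : DifferentiableOn ℂ (E0 L) (HP 1) := by
  have h := hsum_diff hL (fun _ => 1) (t := 0) (σ := 1) (by norm_num) fun x _ => by
    rw [norm_one, neg_zero, Real.rpow_zero]
  simp only [one_mul] at h
  exact h

private theorem hsum_sq {x : ℂ} (hx : x ≠ 0) : (‖x‖ ^ 2)⁻¹ = ‖x‖ ^ (-2 : ℝ) := by
  rw [Real.rpow_neg (norm_nonneg x)]
  norm_cast

theorem G0_diff (hL : IsLat L) : DifferentiableOn ℂ (G0 L) (HP 0) :=
  hsum_diff hL (fun x => (x ^ 2)⁻¹) (t := 2) (σ := 0) (by norm_num) fun x hx => by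
    rw [norm_inv, norm_pow, hsum_sq hx]

theorem G1_diff (hL : IsLat L) : DifferentiableOn ℂ (G1 L) (HP 0) :=
  hsum_diff hL (fun x => ((starRingEnd ℂ) x ^ 2)⁻¹) (t := 2) (σ := 0) (by norm_num)
    fun x hx => by
      rw [norm_inv, norm_pow, RCLike.norm_conj, hsum_sq hx]

private theorem hsum_conj {x : ℝ} (hx : 0 ≤ x) (s : ℂ) :
    (x : ℂ) ^ (-2 * (starRingEnd ℂ) s) = (starRingEnd ℂ) ((x : ℂ) ^ (-2 * s)) := by
  have h1 : -2 * (starRingEnd ℂ) s = (starRingEnd ℂ) (-2 * s) := by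
    have h2 : (starRingEnd ℂ) (2 : ℂ) = 2 := conj_ofReal 2
    rw [map_mul, map_neg, h2]
  rw [h1, cpow_conj _ _ (by rw [arg_ofReal_of_nonneg hx]; exact Real.pi_ne_zero.symm), conj_ofReal]

theorem E0_conj (L : Submodule ℤ ℂ) (s : ℂ) : E0 L ((starRingEnd ℂ) s) = (starRingEnd ℂ) (E0 L s) := by
  unfold E0
  rw [conj_tsum]
  refine tsum_congr fun l => ?_
  split_ifs
  · exact (map_zero _).symm
  · exact hsum_conj (norm_nonneg _) s

theorem G1_conj (L : Submodule ℤ ℂ) (s : ℂ) : G1 L s = (starRingEnd ℂ) (G0 L ((starRingEnd ℂ) s)) := by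
  unfold G1 G0
  rw [conj_tsum]
  refine tsum_congr fun l => ?_
  split_ifs
  · exact (map_zero _).symm
  · rw [map_mul, ← hsum_conj (norm_nonneg _), conj_conj, map_inv₀, map_pow]

private noncomputable def hsum_equiv {c : ℂ} (hc : c ≠ 0) (L : Submodule ℤ ℂ) : L ≃ sc c L :=
  Equiv.ofBijective (fun l => ⟨c * l, mem_sc.2 ⟨l, l.2, rfl⟩⟩) (by
    constructor
    · intro a b hab
      have h1 : c * (a : ℂ) = c * (b : ℂ) := congrArg Subtype.val hab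
      exact Subtype.ext (mul_left_cancel₀ hc h1)
    · rintro ⟨z, hz⟩
      obtain ⟨l, hl, rfl⟩ := mem_sc.1 hz
      exact ⟨⟨l, hl⟩, rfl⟩)

private theorem hsum_sc {c : ℂ} (hc : c ≠ 0) (L : Submodule ℤ ℂ) (s : ℂ) (w : ℂ → ℂ) (k : ℂ)
    (hw : ∀ x, w (c * x) = k * w x) :
    (∑' l : sc c L, if (l : ℂ) = 0 then (0 : ℂ) else w l * (‖(l : ℂ)‖ : ℂ) ^ (-2 * s)) =
      k * (‖c‖ : ℂ) ^ (-2 * s) *
        ∑' l : L, if (l : ℂ) = 0 then (0 : ℂ) else w l * (‖(l : ℂ)‖ : ℂ) ^ (-2 * s) := by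
  rw [← tsum_mul_left, ← (hsum_equiv hc L).tsum_eq]
  refine tsum_congr fun l => ?_
  have h1 : ((hsum_equiv hc L l : sc c L) : ℂ) = c * l := rfl
  rw [h1]
  by_cases hl : (l : ℂ) = 0
  · rw [if_pos hl, hl, mul_zero, if_pos rfl, mul_zero]
  · rw [if_neg hl, if_neg (mul_ne_zero hc hl), hw, norm_mul, ofReal_mul,
      mul_cpow_ofReal_nonneg (norm_nonneg _) (norm_nonneg _)]
    ring

theorem E0_sc {c : ℂ} (hc : c ≠ 0) (L : Submodule ℤ ℂ) (s : ℂ) : E0 (sc c L) s = (‖c‖ : ℂ) ^ (-2 * s) * E0 L s := by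
  have h := hsum_sc hc L s (fun _ => 1) 1 (fun _ => (one_mul _).symm)
  simp only [one_mul] at h
  exact h

theorem G0_sc {c : ℂ} (hc : c ≠ 0) (L : Submodule ℤ ℂ) (s : ℂ) :
    G0 (sc c L) s = (c ^ 2)⁻¹ * (‖c‖ : ℂ) ^ (-2 * s) * G0 L s :=
  hsum_sc hc L s (fun x => (x ^ 2)⁻¹) ((c ^ 2)⁻¹) fun x => by rw [mul_pow, mul_inv]

end CMS
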