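import Mathlib
import Pool.Agent.Lib.CMS.HDefs
import Pool.Agent.Lib.CMS.HSum
import Pool.Agent.Lib.CMS.LBas

/-!
# HRep: the lattice sums of a bigger lattice  (about 200 lines)

PROOF. `reps_equiv` (LBas): the map `(t,l) ↦ t + l` is a bijection `S × L → L'`.  The sums are absolutely convergent (`sum_E`, `sum_G`, `sum_H` for `L'`), so
`∑_{L'} = ∑_{t ∈ S} ∑_{l ∈ L}` (`Summable.tsum_prod`, or `HasSum.sigma`, finite sum over `t`; or `tsum_fintype`).
For `E0`, `G0`: the part `t = 0` is `E0 L`, `G0 L`; for `t ≠ 0` in `S`: `t ∉ L` (uniqueness of representatives: `t` and `0` are both congruent to `t`), so `t + l ≠ 0`.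
`reps_card_inv`: `L = P.lattice` with basis `a, b`: the elements `(i a + j b)/N`, `0 ≤ i, j < N`, are a system of representatives of `N⁻¹L/L` with `N²` elements; `reps_card`.
-/

set_option autoImplicit false

namespace CMS

open Complex MPd9f52e

variable {L L' : Submodule ℤ ℂ} {S : Finset ℂ}

private theorem hrep_zero (h : L ≤ L') (hS : IsReps L L' S) {s : ℂ} (hs : s ∈ S) (hsL : s ∈ L) :
    s = 0 := by
  obtain ⟨t, -, ht⟩ := hS.2.2 s (h hsL)
  rw [ht s ⟨hs, by rw [sub_self]; exact L.zero_mem⟩,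
    ht 0 ⟨hS.1, by rw [sub_zero]; exact hsL⟩]

private theorem hrep_tsum (h : L ≤ L') (hS : IsReps L L' S) (F : ℂ → ℂ)
    (hF : Summable fun l : L' => F (l : ℂ)) :
    ∑' l : L', F (l : ℂ) = ∑ t ∈ S, ∑' l : L, F (t + (l : ℂ)) := by
  obtain ⟨φ, hφ⟩ := reps_equiv h hS
  have h1 : Summable fun p : S × L => F ((p.1 : ℂ) + (p.2 : ℂ)) := by
    have h2 := hF.comp_injective φ.injective
    refine h2.congr fun p => ?_
    simp only [Function.comp_apply, hφ]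
  rw [← φ.tsum_eq fun l : L' => F (l : ℂ)]
  simp only [hφ]
  rw [h1.tsum_prod, tsum_fintype, Finset.sum_coe_sort S fun t => ∑' l : L, F (t + (l : ℂ))]

theorem reps_notMem (h : L ≤ L') (hS : IsReps L L' S) {t : ℂ} (ht : t ∈ S.erase 0) : t ∉ L := by
  intro hc
  rw [Finset.mem_erase] at ht
  exact ht.1 (hrep_zero h hS ht.2 hc)

theorem H0_dist (hL : IsLat L) (hL' : IsLat L') (h : L ≤ L') (hS : IsReps L L' S) (z : ℂ) {s : ℂ}
    (hs : 1 < s.re) : H0 L' z s = ∑ t ∈ S, H0 L (z + t) s := by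
  unfold H0
  rw [hrep_tsum h hS (fun w => (‖z + w‖ : ℂ) ^ (-2 * s)) (sum_H hL' z hs)]
  refine Finset.sum_congr rfl fun t _ => tsum_congr fun l => ?_
  rw [add_assoc]

theorem E0_dist (hL : IsLat L) (hL' : IsLat L') (h : L ≤ L') (hS : IsReps L L' S) {s : ℂ}
    (hs : 1 < s.re) : E0 L' s = E0 L s + ∑ t ∈ S.erase 0, H0 L t s := by
  classical
  unfold E0 H0
  rw [hrep_tsum h hS (fun w => if w = 0 then (0 : ℂ) else (‖w‖ : ℂ) ^ (-2 * s)) (sum_E hL' hs),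
    ← Finset.add_sum_erase S _ hS.1]
  simp only [zero_add]
  congr 1
  refine Finset.sum_congr rfl fun t ht => tsum_congr fun l => ?_
  rw [if_neg]
  intro h0
  apply reps_notMem h hS ht
  rw [eq_neg_of_add_eq_zero_left h0]
  exact L.neg_mem l.2

theorem G0_dist (hL : IsLat L) (hL' : IsLat L') (h : L ≤ L') (hS : IsReps L L' S) {s : ℂ}
    (hs : 0 < s.re) : G0 L' s = G0 L s + ∑ t ∈ S.erase 0, GZ L t s := by
  classical
  unfold G0 GZ
  rw [hrep_tsum h hS (fun w => if w = 0 then (0 : ℂ) else (w ^ 2)⁻¹ * (‖w‖ : ℂ) ^ (-2 * s))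
    (sum_G hL' hs), ← Finset.add_sum_erase S _ hS.1]
  simp only [zero_add]
  congr 1
  refine Finset.sum_congr rfl fun t ht => tsum_congr fun l => ?_
  rw [if_neg]
  intro h0
  apply reps_notMem h hS ht
  rw [eq_neg_of_add_eq_zero_left h0]
  exact L.neg_mem l.2

private theorem hrep_le {N : ℕ} (hN : N ≠ 0) (L : Submodule ℤ ℂ) : L ≤ sc ((N : ℂ)⁻¹) L := by
  intro l hl
  have hN' : (N : ℂ) ≠ 0 := Nat.cast_ne_zero.2 hN
  refine mem_sc.2 ⟨(N : ℤ) • l, L.smul_mem _ hl, ?_⟩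
  rw [zsmul_eq_mul, Int.cast_natCast, ← mul_assoc, inv_mul_cancel₀ hN', one_mul]

private theorem hrep_dvd {P : PeriodPair} {N : ℕ} (hN : N ≠ 0) {u v : ℤ}
    (h : (N : ℂ)⁻¹ * ((u : ℂ) * P.ω₁ + (v : ℂ) * P.ω₂) ∈ P.lattice) :
    (N : ℤ) ∣ u ∧ (N : ℤ) ∣ v := by
  have hN' : (N : ℂ) ≠ 0 := Nat.cast_ne_zero.2 hN
  obtain ⟨m, n, e⟩ := PeriodPair.mem_lattice.1 h
  have e' : (N : ℂ) * (m * P.ω₁ + n * P.ω₂) = (u : ℂ) * P.ω₁ + (v : ℂ) * P.ω₂ := by
    rw [e, ← mul_assoc, mul_inv_cancel₀ hN', one_mul]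
  have h1 := LinearIndependent.pair_iff.1 P.indep ((N : ℝ) * m - u) ((N : ℝ) * n - v) (by
    simp only [Complex.real_smul]
    push_cast
    linear_combination e')
  obtain ⟨h2, h3⟩ := h1
  constructor
  · refine ⟨m, ?_⟩
    have : (u : ℝ) = ((N * m : ℤ) : ℝ) := by push_cast; linarith
    exact_mod_cast this
  · refine ⟨n, ?_⟩
    have : (v : ℝ) = ((N * n : ℤ) : ℝ) := by push_cast; linarith
    exact_mod_cast this

private theorem hrep_mod {N i : ℕ} {m : ℤ} (hi : i < N) (h : (N : ℤ) ∣ m - (i : ℤ)) :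
    (i : ℤ) = m % N := by
  have h3 : (i : ℤ) % N = m % N := Int.modEq_iff_dvd.2 h
  rw [← h3, Int.emod_eq_of_lt (Int.natCast_nonneg _) (by exact_mod_cast hi)]

theorem reps_card_inv (hL : IsLat L) {N : ℕ} (hN : N ≠ 0) (hS : IsReps L (sc ((N : ℂ)⁻¹) L) S) : S.card = N ^ 2 := by
  classical
  obtain ⟨P, rfl⟩ := hL
  have hN' : (N : ℂ) ≠ 0 := Nat.cast_ne_zero.2 hN
  have hNp : (0 : ℤ) < N := by exact_mod_cast Nat.pos_of_ne_zero hN
  have hNz : (N : ℤ) ≠ 0 := hNp.ne'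
  obtain ⟨f, hf⟩ : ∃ f : Fin N × Fin N → ℂ, ∀ p, f p =
      (N : ℂ)⁻¹ * ((((p.1 : ℕ) : ℤ) : ℂ) * P.ω₁ + (((p.2 : ℕ) : ℤ) : ℂ) * P.ω₂) := ⟨_, fun _ => rfl⟩
  have hsub : ∀ (m n : ℤ) (p : Fin N × Fin N), (N : ℂ)⁻¹ * ((m : ℂ) * P.ω₁ + (n : ℂ) * P.ω₂) - f p =
      (N : ℂ)⁻¹ * (((m - ((p.1 : ℕ) : ℤ) : ℤ) : ℂ) * P.ω₁ + ((n - ((p.2 : ℕ) : ℤ) : ℤ) : ℂ) * P.ω₂) := by
    intro m n p
    rw [hf]
    push_cast
    ring
  have huniq : ∀ (m n : ℤ) (p : Fin N × Fin N),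
      (N : ℂ)⁻¹ * ((m : ℂ) * P.ω₁ + (n : ℂ) * P.ω₂) - f p ∈ P.lattice →
      ((p.1 : ℕ) : ℤ) = m % N ∧ ((p.2 : ℕ) : ℤ) = n % N := by
    intro m n p hp
    rw [hsub] at hp
    obtain ⟨h1, h2⟩ := hrep_dvd hN hp
    exact ⟨hrep_mod p.1.2 h1, hrep_mod p.2.2 h2⟩
  have hinj : Function.Injective f := by
    intro p p' h
    obtain ⟨h1, h2⟩ := huniq ((p.1 : ℕ) : ℤ) ((p.2 : ℕ) : ℤ) p' (by
      rw [← hf, h, sub_self]
      exact P.lattice.zero_mem)
    rw [Int.emod_eq_of_lt (Int.natCast_nonneg _) (by exact_mod_cast p.1.2)] at h1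
    rw [Int.emod_eq_of_lt (Int.natCast_nonneg _) (by exact_mod_cast p.2.2)] at h2
    refine Prod.ext (Fin.ext ?_) (Fin.ext ?_)
    · exact_mod_cast h1.symm
    · exact_mod_cast h2.symm
  have hT : IsReps P.lattice (sc ((N : ℂ)⁻¹) P.lattice) (Finset.univ.image f) := by
    refine ⟨?_, ?_, ?_⟩
    · have hNpos : 0 < N := Nat.pos_of_ne_zero hN
      refine Finset.mem_image.2 ⟨(⟨0, hNpos⟩, ⟨0, hNpos⟩), Finset.mem_univ _, ?_⟩
      rw [hf]
      simp
    · intro s hs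
      obtain ⟨p, -, rfl⟩ := Finset.mem_image.1 hs
      exact mem_sc.2 ⟨_, PeriodPair.mem_lattice.2 ⟨_, _, rfl⟩, (hf p).symm⟩
    · intro x hx
      obtain ⟨l, hl, rfl⟩ := mem_sc.1 hx
      obtain ⟨m, n, rfl⟩ := PeriodPair.mem_lattice.1 hl
      have e1 : (((m % N).toNat : ℕ) : ℤ) = m % N := Int.toNat_of_nonneg (Int.emod_nonneg _ hNz)
      have e2 : (((n % N).toNat : ℕ) : ℤ) = n % N := Int.toNat_of_nonneg (Int.emod_nonneg _ hNz)
      have l1 : (m % N).toNat < N := by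
        have := Int.emod_lt_of_pos m hNp
        omega
      have l2 : (n % N).toNat < N := by
        have := Int.emod_lt_of_pos n hNp
        omega
      refine ⟨f (⟨_, l1⟩, ⟨_, l2⟩), ⟨Finset.mem_image_of_mem _ (Finset.mem_univ _), ?_⟩, ?_⟩
      · rw [hsub]
        refine PeriodPair.mem_lattice.2 ⟨m / N, n / N, ?_⟩
        have e3 : m - (((m % N).toNat : ℕ) : ℤ) = N * (m / N) := by
          rw [e1]
          have := Int.emod_add_mul_ediv m N
          linarith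
        have e4 : n - (((n % N).toNat : ℕ) : ℤ) = N * (n / N) := by
          rw [e2]
          have := Int.emod_add_mul_ediv n N
          linarith
        rw [e3, e4]
        push_cast
        field_simp
      · rintro s ⟨hs, hs2⟩
        obtain ⟨p, -, rfl⟩ := Finset.mem_image.1 hs
        obtain ⟨h1, h2⟩ := huniq m n p hs2
        congr 1
        refine Prod.ext (Fin.ext ?_) (Fin.ext ?_)
        · have h3 : ((p.1 : ℕ) : ℤ) = (((m % N).toNat : ℕ) : ℤ) := by rw [h1, e1]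
          exact_mod_cast h3
        · have h3 : ((p.2 : ℕ) : ℤ) = (((n % N).toNat : ℕ) : ℤ) := by rw [h2, e2]
          exact_mod_cast h3
  rw [reps_card (hrep_le hN P.lattice) hS hT, Finset.card_image_of_injective _ hinj,
    Finset.card_univ, Fintype.card_prod, Fintype.card_fin, pow_two]

theorem le_sc_inv {N : ℕ} (hN : N ≠ 0) (L : Submodule ℤ ℂ) : L ≤ sc ((N : ℂ)⁻¹) L := by
  exact hrep_le hN L

end CMS
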