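import Mathlib
import Pool.Agent.Lib.CMS.Defs
import Pool.Agent.Lib.CMS.LBas
import Pool.Agent.Lib.CMS.LWp
import Pool.Agent.Lib.CMS.LAdd
import Pool.Agent.Lib.CMS.HRep

/-!
# HHalf: the sum of the three half period values vanishes  (about 100 lines)

PROOF. `S` has 4 elements (`reps_card_inv` with `N = 2`), so `S.erase 0 = {t1, t2, t3}`; `t_i ∉ L`, `2 t_i ∈ L`.  By `wp_dup0` (LAdd) `4 e_i³ - g2 e_i - g3 = 0` for
`e_i = wp L t_i`.  The `e_i` are distinct (`wp_eq_iff`: `e_i = e_j` gives `t_i - t_j ∈ L` or `t_i + t_j ∈ L`; the second also gives `t_i - t_j ∈ L` as `2 t_j ∈ L`; uniqueness in `IsReps`).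
Subtract: `4(e1² + e1 e2 + e2²) = g2 = 4(e1² + e1 e3 + e3²)`, so `(e2 - e3)(e1 + e2 + e3) = 0`.
-/

set_option autoImplicit false

namespace CMS

open Complex MPd9f52e

theorem half_sum {L : Submodule ℤ ℂ} (hL : IsLat L) {S : Finset ℂ} (hS : IsReps L (sc ((2 : ℂ)⁻¹) L) S) :
    ∑ t ∈ S.erase 0, wp L t = 0 := by
  have hS' : IsReps L (sc (((2 : ℕ) : ℂ)⁻¹) L) S := by
    rw [Nat.cast_ofNat]
    exact hS
  have hle : L ≤ sc (((2 : ℕ) : ℂ)⁻¹) L := le_sc_inv two_ne_zero L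
  have hcard : S.card = 4 := by
    rw [reps_card_inv hL two_ne_zero hS']
    norm_num
  have h3 : (S.erase 0).card = 3 := by
    rw [Finset.card_erase_of_mem hS.1, hcard]
  obtain ⟨t1, t2, t3, h12, h13, h23, hE⟩ := Finset.card_eq_three.1 h3
  have m1 : t1 ∈ S.erase 0 := by rw [hE]; simp
  have m2 : t2 ∈ S.erase 0 := by rw [hE]; simp
  have m3 : t3 ∈ S.erase 0 := by rw [hE]; simp
  have hdbl : ∀ t ∈ S.erase 0, t + t ∈ L := by
    intro t ht
    obtain ⟨l, hl, hlt⟩ := mem_sc.1 (hS.2.1 t (Finset.mem_of_mem_erase ht))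
    have : t + t = l := by
      rw [← hlt]
      ring
    rw [this]
    exact hl
  have hinj : ∀ t ∈ S.erase 0, ∀ u ∈ S.erase 0, wp L t = wp L u → t = u := by
    intro t ht u hu h
    have h1 : t - u ∈ L := by
      rcases (wp_eq_iff hL (reps_notMem hle hS' ht) (reps_notMem hle hS' hu)).1 h with h | h
      · exact h
      · have h2 := L.sub_mem h (hdbl u hu)
        have e : t + u - (u + u) = t - u := by ring
        rwa [e] at h2
    have hts := Finset.mem_of_mem_erase ht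
    have hus := Finset.mem_of_mem_erase hu
    refine (hS.2.2 t (hS.2.1 t hts)).unique ⟨hts, by rw [sub_self]; exact L.zero_mem⟩ ⟨hus, h1⟩
  have q1 := wp_dup0 hL (reps_notMem hle hS' m1) (hdbl t1 m1)
  have q2 := wp_dup0 hL (reps_notMem hle hS' m2) (hdbl t2 m2)
  have q3 := wp_dup0 hL (reps_notMem hle hS' m3) (hdbl t3 m3)
  have n12 : wp L t1 - wp L t2 ≠ 0 := fun h => h12 (hinj _ m1 _ m2 (sub_eq_zero.1 h))
  have n13 : wp L t1 - wp L t3 ≠ 0 := fun h => h13 (hinj _ m1 _ m3 (sub_eq_zero.1 h))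
  have n23 : wp L t2 - wp L t3 ≠ 0 := fun h => h23 (hinj _ m2 _ m3 (sub_eq_zero.1 h))
  have r1 : 4 * (wp L t1 ^ 2 + wp L t1 * wp L t2 + wp L t2 ^ 2) - g2 L = 0 := by
    apply mul_left_cancel₀ n12
    linear_combination q1 - q2
  have r2 : 4 * (wp L t1 ^ 2 + wp L t1 * wp L t3 + wp L t3 ^ 2) - g2 L = 0 := by
    apply mul_left_cancel₀ n13
    linear_combination q1 - q3
  have r3 : wp L t1 + (wp L t2 + wp L t3) = 0 := by
    apply mul_left_cancel₀ n23
    linear_combination (1 / 4 : ℂ) * (r1 - r2)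
  rw [hE, Finset.sum_insert (by simp [h12, h13]), Finset.sum_insert (by simp [h23]), Finset.sum_singleton]
  exact r3

end CMS
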