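import Mathlib
import Pool.Agent.Lib.CMS.HDefs
import Pool.Agent.Lib.CMS.HSum
import Pool.Agent.Lib.MP_d9f52e_nt.HTay

/-!
# HRem2: the sum G(z,s): expansion, continuation and value at 0  (about 280 lines)

PROOF. Same method as HRem (see Lib/MP_d9f52e_nt/HTay.lean `tayB`, `remT_bound` and HAna.lean `Rem_diff`), one order lower.
`x = z/l`, `‖x‖ ≤ 1/2`: `(z+l)^{-2}|z+l|^{-2s} = l^{-2}|l|^{-2s} (1+x)^{-2} |1+x|^{-2s}` and
`‖(1+x)^{-2}|1+x|^{-2s} - (1 - (2+s)x - s x')‖ ≤ C ‖x‖²` for `‖s‖ ≤ R` (write `|1+x|^{-2s} = exp(-s (log(1+x) + conj log(1+x)))` and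
`log(1+x) = x + O(|x|²)`, `(1+x)^{-2} = 1 - 2x + O(|x|²)`; or use `tayB` of HTay, which expands `|1+x|^{-2s}` to second order, and multiply by `(1+x)^{-2}`).
So `‖remU z s l‖ ≤ C ‖l‖^{-2 Re s - 4}` for `‖l‖ ≥ 2‖z‖`, `‖s‖ ≤ R`: summable and locally uniform for `Re s > -1`.
`GZ_expand` (Re s > 0): the terms `l^{-2}|l|^{-2s} x`, `l^{-2}|l|^{-2s} x'` are absolutely summable and odd in `l`.
`Rem2_zero`: at `s = 0` the term is `(z+l)^{-2} - l^{-2} + 2 z l^{-3}`; `∑ l^{-3} = 0` (absolutely summable, odd), and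
`wp L z = ∑' l, (1/(z-l)^2 - 1/l^2)` (the term `l = 0` is `1/z^2`), replace `l` by `-l`.
-/

set_option autoImplicit false

namespace CMS

open Complex MPd9f52e

variable {L : Submodule ℤ ℂ}

private theorem r2_tay (R : ℝ) : ∃ C : ℝ, 0 ≤ C ∧ ∀ s : ℂ, ‖s‖ ≤ R → ∀ x : ℂ, ‖x‖ ≤ 1 / 2 →
    ‖((1 + x) ^ 2)⁻¹ * (‖1 + x‖ : ℂ) ^ (-2 * s) - (1 - (2 + s) * x - s * (starRingEnd ℂ) x)‖ ≤
      C * ‖x‖ ^ 2 := by
  obtain ⟨C, hC, h⟩ := tayB R
  set Q : ℝ := |R| with hQ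
  have Q0 : 0 ≤ Q := abs_nonneg R
  refine ⟨4 * (C / 2 + (2 * Q ^ 2 + Q)) + 16 * (1 + Q) + 4 * Q, by positivity, ?_⟩
  intro s hs x hx
  have hsQ : ‖s‖ ≤ Q := hs.trans (le_abs_self R)
  have hx0 : 0 ≤ ‖x‖ := norm_nonneg x
  set x' : ℂ := (starRingEnd ℂ) x with hx'
  have nx' : ‖x'‖ = ‖x‖ := by rw [hx']; exact RCLike.norm_conj x
  have h1x : 1 / 2 ≤ ‖1 + x‖ := by
    have h : ‖(1 : ℂ)‖ - ‖x‖ ≤ ‖1 + x‖ := by
      have := norm_sub_norm_le (1 : ℂ) (-x)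
      rw [norm_neg, sub_neg_eq_add] at this
      exact this
    rw [norm_one] at h
    linarith
  have hne : (1 + x) ≠ 0 := by
    intro h0
    rw [h0, norm_zero] at h1x
    norm_num at h1x
  set A : ℂ := ((1 + x) ^ 2)⁻¹ with hA
  set P : ℂ := (‖1 + x‖ : ℂ) ^ (-2 * s) with hP
  have nA : ‖A‖ ≤ 4 := by
    rw [hA, norm_inv, norm_pow]
    have h2 : (1 / 2 : ℝ) ^ 2 ≤ ‖1 + x‖ ^ 2 := pow_le_pow_left₀ (by norm_num) h1x 2
    calc (‖1 + x‖ ^ 2)⁻¹ ≤ ((1 / 2 : ℝ) ^ 2)⁻¹ := inv_anti₀ (by norm_num) h2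
      _ = 4 := by norm_num
  have nxx : ‖x + x'‖ ≤ 2 * ‖x‖ := by
    refine (norm_add_le _ _).trans ?_
    rw [nx']; linarith
  have x3 : ‖x‖ ^ 3 ≤ 1 / 2 * ‖x‖ ^ 2 := by
    have : ‖x‖ ^ 3 = ‖x‖ * ‖x‖ ^ 2 := by ring
    rw [this]
    exact mul_le_mul_of_nonneg_right hx (by positivity)
  have b1 : ‖P - (1 - s * (x + x'))‖ ≤ (C / 2 + (2 * Q ^ 2 + Q)) * ‖x‖ ^ 2 := by
    have e1 : P - (1 - s * (x + x')) = (P - br s x) +
        (s * (s + 1) / 2 * (x ^ 2 + x' ^ 2) + s ^ 2 * (x * x')) := by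
      unfold br
      rw [← hx']
      ring
    rw [e1]
    refine (norm_add_le _ _).trans ?_
    have h2 : ‖P - br s x‖ ≤ C / 2 * ‖x‖ ^ 2 := by
      refine (h s hs x hx).trans ?_
      have := mul_le_mul_of_nonneg_left x3 hC
      linarith
    have h3 : ‖s * (s + 1) / 2 * (x ^ 2 + x' ^ 2)‖ ≤ (Q ^ 2 + Q) * ‖x‖ ^ 2 := by
      rw [norm_mul, norm_div, norm_mul]
      have e2 : ‖(2 : ℂ)‖ = 2 := by norm_num
      rw [e2]
      have h4 : ‖s + 1‖ ≤ Q + 1 := by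
        refine (norm_add_le _ _).trans ?_
        rw [norm_one]; linarith
      have h5 : ‖x ^ 2 + x' ^ 2‖ ≤ 2 * ‖x‖ ^ 2 := by
        refine (norm_add_le _ _).trans ?_
        rw [norm_pow, norm_pow, nx']; linarith
      have h6 : ‖s‖ * ‖s + 1‖ ≤ Q * (Q + 1) := mul_le_mul hsQ h4 (norm_nonneg _) Q0
      calc ‖s‖ * ‖s + 1‖ / 2 * ‖x ^ 2 + x' ^ 2‖ ≤ Q * (Q + 1) / 2 * (2 * ‖x‖ ^ 2) :=
            mul_le_mul (by linarith) h5 (norm_nonneg _) (by positivity)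
        _ = (Q ^ 2 + Q) * ‖x‖ ^ 2 := by ring
    have h7 : ‖s ^ 2 * (x * x')‖ ≤ Q ^ 2 * ‖x‖ ^ 2 := by
      rw [norm_mul, norm_mul, norm_pow, nx']
      have h8 : ‖s‖ ^ 2 ≤ Q ^ 2 := pow_le_pow_left₀ (norm_nonneg s) hsQ 2
      calc ‖s‖ ^ 2 * (‖x‖ * ‖x‖) ≤ Q ^ 2 * (‖x‖ * ‖x‖) :=
            mul_le_mul_of_nonneg_right h8 (by positivity)
        _ = Q ^ 2 * ‖x‖ ^ 2 := by ring
    have h9 := norm_add_le (s * (s + 1) / 2 * (x ^ 2 + x' ^ 2)) (s ^ 2 * (x * x'))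
    linarith
  have b2 : ‖A - (1 - 2 * x)‖ ≤ 16 * ‖x‖ ^ 2 := by
    have e1 : A - (1 - 2 * x) = A * (x ^ 2 * (3 + 2 * x)) := by
      have e2 : A * (1 + x) ^ 2 = 1 := by
        rw [hA]
        exact inv_mul_cancel₀ (pow_ne_zero 2 hne)
      have e3 : (A - (1 - 2 * x)) * (1 + x) ^ 2 = A * (x ^ 2 * (3 + 2 * x)) * (1 + x) ^ 2 := by
        linear_combination (1 - x ^ 2 * (3 + 2 * x)) * e2
      exact mul_right_cancel₀ (pow_ne_zero 2 hne) e3
    rw [e1, norm_mul, norm_mul, norm_pow]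
    have h2 : ‖3 + 2 * x‖ ≤ 4 := by
      refine (norm_add_le _ _).trans ?_
      rw [norm_mul]
      have e2 : ‖(2 : ℂ)‖ = 2 := by norm_num
      have e3 : ‖(3 : ℂ)‖ = 3 := by norm_num
      rw [e2, e3]
      linarith
    calc ‖A‖ * (‖x‖ ^ 2 * ‖3 + 2 * x‖) ≤ 4 * (‖x‖ ^ 2 * 4) :=
          mul_le_mul nA (mul_le_mul_of_nonneg_left h2 (by positivity)) (by positivity) (by norm_num)
      _ = 16 * ‖x‖ ^ 2 := by ring
  have n1 : ‖s * (x + x')‖ ≤ Q := by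
    rw [norm_mul]
    calc ‖s‖ * ‖x + x'‖ ≤ Q * 1 := mul_le_mul hsQ (by linarith) (norm_nonneg _) Q0
      _ = Q := mul_one Q
  have n2 : ‖1 - s * (x + x')‖ ≤ 1 + Q := by
    refine (norm_sub_le _ _).trans ?_
    rw [norm_one]
    linarith
  have hsplit : A * P - (1 - (2 + s) * x - s * x') = A * (P - (1 - s * (x + x'))) +
      (A - (1 - 2 * x)) * (1 - s * (x + x')) + 2 * x * (s * (x + x')) := by
    ring
  rw [hsplit]
  have c1 : ‖A * (P - (1 - s * (x + x')))‖ ≤ 4 * ((C / 2 + (2 * Q ^ 2 + Q)) * ‖x‖ ^ 2) := by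
    rw [norm_mul]
    exact mul_le_mul nA b1 (norm_nonneg _) (by norm_num)
  have c2 : ‖(A - (1 - 2 * x)) * (1 - s * (x + x'))‖ ≤ 16 * ‖x‖ ^ 2 * (1 + Q) := by
    rw [norm_mul]
    exact mul_le_mul b2 n2 (norm_nonneg _) (by positivity)
  have c3 : ‖2 * x * (s * (x + x'))‖ ≤ 4 * Q * ‖x‖ ^ 2 := by
    rw [norm_mul, norm_mul, norm_mul]
    have e2 : ‖(2 : ℂ)‖ = 2 := by norm_num
    rw [e2]
    have h2 : ‖s‖ * ‖x + x'‖ ≤ Q * (2 * ‖x‖) := mul_le_mul hsQ nxx (norm_nonneg _) Q0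
    calc 2 * ‖x‖ * (‖s‖ * ‖x + x'‖) ≤ 2 * ‖x‖ * (Q * (2 * ‖x‖)) :=
          mul_le_mul_of_nonneg_left h2 (by positivity)
      _ = 4 * Q * ‖x‖ ^ 2 := by ring
  refine (norm_add_le _ _).trans ?_
  refine (add_le_add (norm_add_le _ _) le_rfl).trans ?_
  linarith

private theorem r2_eq {z s l : ℂ} (hl : l ≠ 0) :
    remU z s l = (l ^ 2)⁻¹ * (‖l‖ : ℂ) ^ (-2 * s) *
      (((1 + z / l) ^ 2)⁻¹ * (‖1 + z / l‖ : ℂ) ^ (-2 * s) -
        (1 - (2 + s) * (z / l) - s * (starRingEnd ℂ) (z / l))) := by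
  have h0 : z + l = l * (1 + z / l) := by
    field_simp
    ring
  have h1 : ‖z + l‖ = ‖l‖ * ‖1 + z / l‖ := by
    rw [← norm_mul, ← h0]
  have h2 : ((z + l) ^ 2)⁻¹ = (l ^ 2)⁻¹ * ((1 + z / l) ^ 2)⁻¹ := by
    rw [h0, mul_pow, mul_inv]
  unfold remU
  rw [h1, Complex.ofReal_mul, Complex.mul_cpow_ofReal_nonneg (norm_nonneg _) (norm_nonneg _), h2]
  ring

private theorem r2_bound (z : ℂ) (R : ℝ) : ∃ C : ℝ, 0 ≤ C ∧ ∀ s : ℂ, ‖s‖ ≤ R → ∀ l : ℂ, l ≠ 0 →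
    2 * ‖z‖ ≤ ‖l‖ → ‖remU z s l‖ ≤ C * ‖l‖ ^ (-(2 * s.re + 4)) := by
  obtain ⟨C, hC, h⟩ := r2_tay R
  refine ⟨C * ‖z‖ ^ 2, by positivity, fun s hs l hl hzl => ?_⟩
  have h0 : (0 : ℝ) < ‖l‖ := norm_pos_iff.2 hl
  have hx : ‖z / l‖ ≤ 1 / 2 := by
    rw [norm_div, div_le_iff₀ h0]
    linarith
  have h1 := h s hs (z / l) hx
  rw [r2_eq hl, norm_mul, norm_mul, Complex.norm_cpow_eq_rpow_re_of_pos h0, norm_inv, norm_pow]
  have e1 : (-2 * s).re = -2 * s.re := by simp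
  rw [e1]
  have h2 : 0 ≤ ‖l‖ ^ (-2 * s.re) := Real.rpow_nonneg h0.le _
  have h3 : 0 ≤ (‖l‖ ^ 2)⁻¹ * ‖l‖ ^ (-2 * s.re) := mul_nonneg (by positivity) h2
  refine (mul_le_mul_of_nonneg_left h1 h3).trans (le_of_eq ?_)
  have e2 : ‖l‖ ^ (-(2 * s.re + 4)) = ‖l‖ ^ (-2 * s.re) / ‖l‖ ^ 4 := by
    rw [show -(2 * s.re + 4) = -2 * s.re - (4 : ℕ) by push_cast; ring, Real.rpow_sub h0,
      Real.rpow_natCast]
  rw [e2, norm_div, div_pow]
  field_simp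

private theorem r2_add_ne {z : ℂ} (hz : z ∉ L) (l : L) : z + (l : ℂ) ≠ 0 := by
  intro h
  apply hz
  rw [eq_neg_of_add_eq_zero_left h]
  exact L.neg_mem l.2

private theorem r2_diff {z l : ℂ} (hl : l ≠ 0) (hz : z + l ≠ 0) : Differentiable ℂ (fun s => remU z s l) := by
  have h1 : (‖l‖ : ℂ) ≠ 0 := by
    have := norm_ne_zero_iff.2 hl
    exact_mod_cast this
  have h2 : (‖z + l‖ : ℂ) ≠ 0 := by
    have := norm_ne_zero_iff.2 hz
    exact_mod_cast this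
  intro s
  unfold remU
  have d1 : DifferentiableAt ℂ (fun s : ℂ => -2 * s) s := differentiableAt_id.const_mul (-2)
  have d2 : DifferentiableAt ℂ (fun s : ℂ => (‖z + l‖ : ℂ) ^ (-2 * s)) s :=
    d1.const_cpow (Or.inl h2)
  have d3 : DifferentiableAt ℂ (fun s : ℂ => (‖l‖ : ℂ) ^ (-2 * s)) s :=
    d1.const_cpow (Or.inl h1)
  refine (d2.const_mul _).sub ((d3.const_mul _).mul ?_)
  fun_prop

private theorem r2_large (hL : IsLat L) (R : ℝ) :
    ∀ᶠ l : L in Filter.cofinite, R ≤ ‖(l : ℂ)‖ := by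
  rw [Filter.eventually_cofinite]
  refine (fin_le hL R).subset ?_
  intro l hl
  exact (not_le.1 hl).le

theorem Rem2_summable (hL : IsLat L) {z : ℂ} (hz : z ∉ L) {s : ℂ} (hs : -1 < s.re) :
    Summable (fun l : L => if (l : ℂ) = 0 then (0 : ℂ) else remU z s l) := by
  obtain ⟨C, hC0, hC⟩ := r2_bound z ‖s‖
  have hS := (sum_norm hL (p := 2 * s.re + 4) (by linarith)).mul_left C
  refine Summable.of_norm_bounded_eventually hS ?_
  filter_upwards [r2_large hL (2 * ‖z‖)] with l hl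
  by_cases h0 : (l : ℂ) = 0
  · rw [if_pos h0, if_pos h0, norm_zero, mul_zero]
  · rw [if_neg h0, if_neg h0]
    exact hC s le_rfl l h0 hl

private theorem r2_le_of_ge_one {a : ℝ} (ha : 1 ≤ a) {p q : ℝ} (h : p ≤ q) : a ^ p ≤ a ^ q :=
  Real.rpow_le_rpow_of_exponent_le ha h

theorem Rem2_diff (hL : IsLat L) {z : ℂ} (hz : z ∉ L) : DifferentiableOn ℂ (Rem2 L z) (HP (-1)) := by
  classical
  intro s₀ hs₀
  have hs₀' : -1 < s₀.re := hs₀
  set ε : ℝ := (s₀.re + 1) / 2 with hε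
  have hε0 : 0 < ε := by rw [hε]; linarith
  set R : ℝ := ‖s₀‖ + 1 with hR
  set U : Set ℂ := Metric.ball 0 R ∩ {s : ℂ | -1 + ε < s.re} with hU
  have hUo : IsOpen U := Metric.isOpen_ball.inter (isOpen_lt continuous_const Complex.continuous_re)
  have hsU : s₀ ∈ U := by
    refine ⟨by rw [mem_ball_zero_iff, hR]; linarith, ?_⟩
    show -1 + ε < s₀.re
    rw [hε]
    linarith
  obtain ⟨C, hC0, hC⟩ := r2_bound z R
  set F : Finset L := (fin_le hL (2 * ‖z‖ + 1)).toFinset with hF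
  have hFn : ∀ l : L, l ∉ F → 2 * ‖z‖ + 1 < ‖(l : ℂ)‖ := by
    intro l hl
    by_contra hcon
    apply hl
    rw [hF, Set.Finite.mem_toFinset]
    exact not_lt.1 hcon
  have hM : ∀ l : L, ∃ M : ℝ, 0 ≤ M ∧ ∀ s ∈ U, (l : ℂ) ≠ 0 → ‖remU z s l‖ ≤ M := by
    intro l
    by_cases hl : (l : ℂ) = 0
    · exact ⟨0, le_rfl, fun s _ h => absurd hl h⟩
    obtain ⟨M, hM⟩ := (isCompact_closedBall (0 : ℂ) R).exists_bound_of_continuousOn
      (f := fun s => remU z s l)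
      (r2_diff hl (r2_add_ne hz l)).continuous.continuousOn
    refine ⟨max M 0, le_max_right _ _, fun s hs _ => ?_⟩
    exact (hM s (Metric.ball_subset_closedBall hs.1)).trans (le_max_left _ _)
  choose M hM0 hM using hM
  set v : L → ℝ := fun l => if (l : ℂ) = 0 then 0 else ‖(l : ℂ)‖ ^ (-(2 + 2 * ε)) with hv
  have hvs : Summable v := sum_norm hL (by linarith)
  set u : L → ℝ := fun l => C * v l + (if l ∈ F then M l else 0) with hu
  have hus : Summable u := by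
    refine (hvs.mul_left C).add ?_
    exact summable_of_ne_finset_zero (s := F) fun l hl => by rw [if_neg hl]
  have hv0 : ∀ l, 0 ≤ v l := by
    intro l
    simp only [hv]
    split_ifs
    · exact le_rfl
    · exact Real.rpow_nonneg (norm_nonneg _) _
  have hbound : ∀ (l : L) (s : ℂ), s ∈ U →
      ‖(if (l : ℂ) = 0 then (0 : ℂ) else remU z s l)‖ ≤ u l := by
    intro l s hs
    have h2 : 0 ≤ (if l ∈ F then M l else 0) := by
      split_ifs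
      · exact hM0 l
      · exact le_rfl
    by_cases hl : (l : ℂ) = 0
    · rw [if_pos hl, norm_zero]
      exact add_nonneg (mul_nonneg hC0 (hv0 l)) h2
    rw [if_neg hl]
    by_cases hlF : l ∈ F
    · simp only [hu, if_pos hlF]
      exact (hM l s hs hl).trans (le_add_of_nonneg_left (mul_nonneg hC0 (hv0 l)))
    · simp only [hu, if_neg hlF, add_zero]
      have h3 : ‖s‖ ≤ R := by
        have := hs.1
        rw [mem_ball_zero_iff] at this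
        exact this.le
      have h5 := hFn l hlF
      have h6 := norm_nonneg z
      refine (hC s h3 l hl (by linarith)).trans ?_
      refine mul_le_mul_of_nonneg_left ?_ hC0
      simp only [hv, if_neg hl]
      have h4 : -1 + ε < s.re := hs.2
      exact Real.rpow_le_rpow_of_exponent_le (by linarith) (by linarith)
  have hd : DifferentiableOn ℂ (fun s => ∑' l : L, if (l : ℂ) = 0 then (0 : ℂ) else remU z s l) U := by
    refine differentiableOn_tsum_of_summable_norm hus (fun l => ?_) hUo hbound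
    by_cases hl : (l : ℂ) = 0
    · simp only [if_pos hl]
      exact differentiableOn_const _
    · simp only [if_neg hl]
      exact (r2_diff hl (r2_add_ne hz l)).differentiableOn
  exact ((hd s₀ hsU).differentiableAt (hUo.mem_nhds hsU)).differentiableWithinAt

private theorem r2_odd {F : L → ℂ} (h : ∀ l, F (-l) = -F l) : ∑' l, F l = 0 := by
  have h1 : ∑' l, F l = -∑' l, F l := by
    calc ∑' l, F l = ∑' l, F (-l) := ((Equiv.neg L).tsum_eq F).symm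
      _ = ∑' l, -F l := by simp_rw [h]
      _ = -∑' l, F l := tsum_neg
  have h2 : (2 : ℂ) * ∑' l, F l = 0 := by linear_combination h1
  exact (mul_eq_zero.1 h2).resolve_left two_ne_zero

private theorem r2_sum3 (hL : IsLat L) (z : ℂ) {s : ℂ} (hs : -1 / 2 < s.re) :
    Summable (fun l : L => if (l : ℂ) = 0 then (0 : ℂ) else
      ((l : ℂ) ^ 2)⁻¹ * (‖(l : ℂ)‖ : ℂ) ^ (-2 * s) * ((2 + s) * (z / l) + s * (starRingEnd ℂ) (z / l))) := by
  have hS := (sum_norm hL (p := 2 * s.re + 3) (by linarith)).mul_left ((‖2 + s‖ + ‖s‖) * ‖z‖)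
  refine Summable.of_norm_bounded hS ?_
  intro l
  by_cases h0 : (l : ℂ) = 0
  · rw [if_pos h0, if_pos h0, norm_zero, mul_zero]
  · rw [if_neg h0, if_neg h0]
    have hp : (0 : ℝ) < ‖(l : ℂ)‖ := norm_pos_iff.2 h0
    rw [norm_mul, norm_mul, Complex.norm_cpow_eq_rpow_re_of_pos hp, norm_inv, norm_pow]
    have e1 : (-2 * s).re = -2 * s.re := by simp
    rw [e1]
    have h1 : ‖(2 + s) * (z / l) + s * (starRingEnd ℂ) (z / l)‖ ≤ (‖2 + s‖ + ‖s‖) * ‖z‖ * ‖(l : ℂ)‖⁻¹ := by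
      refine (norm_add_le _ _).trans (le_of_eq ?_)
      rw [norm_mul, norm_mul, Complex.norm_conj, norm_div]
      ring
    have h3 : 0 ≤ (‖(l : ℂ)‖ ^ 2)⁻¹ * ‖(l : ℂ)‖ ^ (-2 * s.re) :=
      mul_nonneg (by positivity) (Real.rpow_nonneg hp.le _)
    refine (mul_le_mul_of_nonneg_left h1 h3).trans (le_of_eq ?_)
    have e2 : ‖(l : ℂ)‖ ^ (-(2 * s.re + 3)) = ‖(l : ℂ)‖ ^ (-2 * s.re) / ‖(l : ℂ)‖ ^ 3 := by
      rw [show -(2 * s.re + 3) = -2 * s.re - (3 : ℕ) by push_cast; ring, Real.rpow_sub hp,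
        Real.rpow_natCast]
    rw [e2]
    field_simp

private theorem r2_zero3 (z s : ℂ) :
    ∑' l : L, (if (l : ℂ) = 0 then (0 : ℂ) else
      ((l : ℂ) ^ 2)⁻¹ * (‖(l : ℂ)‖ : ℂ) ^ (-2 * s) * ((2 + s) * (z / l) + s * (starRingEnd ℂ) (z / l))) = 0 := by
  refine r2_odd fun l => ?_
  by_cases h0 : (l : ℂ) = 0
  · simp [h0]
  · have h1 : ((-l : L) : ℂ) = -(l : ℂ) := rfl
    rw [h1, if_neg h0, if_neg (neg_ne_zero.2 h0), norm_neg, neg_sq, div_neg, map_neg]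
    ring

private theorem r2_single (c : ℂ) : HasSum (fun l : L => if (l : ℂ) = 0 then c else 0) c := by
  have h := hasSum_single (f := fun l : L => if (l : ℂ) = 0 then c else 0) (0 : L) (by
    intro l hl
    rw [if_neg]
    intro h
    exact hl (Subtype.ext h))
  simpa using h

theorem GZ_expand (hL : IsLat L) {z : ℂ} (hz : z ∉ L) {s : ℂ} (hs : 0 < s.re) :
    GZ L z s = (z ^ 2)⁻¹ * (‖z‖ : ℂ) ^ (-2 * s) + G0 L s + Rem2 L z s := by
  have h1 := r2_single (L := L) ((z ^ 2)⁻¹ * (‖z‖ : ℂ) ^ (-2 * s))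
  have h2 := (sum_G hL hs).hasSum
  have h3 := (Rem2_summable hL hz (s := s) (by linarith)).hasSum
  have h4 := (r2_sum3 hL z (s := s) (by linarith)).hasSum
  rw [r2_zero3] at h4
  have h5 := ((h1.add h2).add h3).sub h4
  rw [sub_zero] at h5
  unfold GZ G0 Rem2
  refine Eq.trans (tsum_congr fun l => ?_) h5.tsum_eq
  by_cases h0 : (l : ℂ) = 0
  · simp [h0]
  · simp only [if_neg h0]
    unfold remU
    ring

theorem Rem2_zero (hL : IsLat L) {z : ℂ} (hz : z ∉ L) : (z ^ 2)⁻¹ + Rem2 L z 0 = wp L z := by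
  have h1 := r2_single (L := L) ((z ^ 2)⁻¹)
  have h3 := (Rem2_summable hL hz (s := 0) (by simp)).hasSum
  have h4 := (r2_sum3 hL z (s := 0) (by rw [Complex.zero_re]; norm_num)).hasSum
  rw [r2_zero3] at h4
  have h5 := (h1.add h3).sub h4
  rw [sub_zero] at h5
  unfold wp Rem2
  rw [← (Equiv.neg L).tsum_eq (fun l : L => 1 / (z - l) ^ 2 - 1 / (l : ℂ) ^ 2)]
  refine Eq.trans h5.tsum_eq.symm (tsum_congr fun l => ?_)
  have hn : ((Equiv.neg L l : L) : ℂ) = -(l : ℂ) := rfl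
  rw [hn]
  by_cases h0 : (l : ℂ) = 0
  · simp [h0]
  · simp only [if_neg h0]
    unfold remU
    simp only [mul_zero, Complex.cpow_zero, zero_mul, sub_zero, add_zero]
    rw [sub_neg_eq_add, neg_sq, one_div, one_div]
    ring

end CMS
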