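import Mathlib
import Pool.Agent.Lib.CMS.Defs

/-!
# HTwo: continuation from two functional relations  (about 220 lines)

PROOF. `p2(s) = 4^s - 4`, `p3(s) = 9^s - 9`, entire.  `HP a` is open and convex.  `p3 A₂ = p2 A₃` on `HP a` (identity theorem:
`AnalyticOnNhd.eqOn_of_preconnected_of_eventuallyEq`, both sides equal `p2 p3 E` for `Re s > 1`).
If `p2(s) = 0` then `s = 1 + 2πi n/log 4`, if `p3(s) = 0` then `s = 1 + 2πi m/log 9` (`n, m : ℤ`; `4^s = exp(s log 4)`, `Complex.exp_eq_exp_iff_exists_int`);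
both: `n log 9 = m log 4`, so `9^|n| = 4^|m|`, `n = m = 0`, `s = 1` (`9^n` is odd, `4^m` is even if `m > 0`).
Define `e1(s) = (s-1) A₂(s)/p2(s)` if `p2(s) ≠ 0`; `= (s-1) A₃(s)/p3(s)` if `p2(s) = 0 ≠ p3(s)`; `e1(1) = A₂(1)/(4 log 4)`.
Differentiable at `s₀ ∈ HP a`: if `p2(s₀) ≠ 0`, `e1 = (s-1)A₂/p2` near `s₀`.  If `p2(s₀) = 0`, `s₀ ≠ 1`: `p3 ≠ 0` near `s₀` and `e1 = (s-1)A₃/p3` near `s₀` (by `p3 A₂ = p2 A₃`).
If `s₀ = 1`: `p2(s) = (s-1) q(s)` with `q = dslope p2 1` analytic, `q(1) = p2'(1) = 4 log 4 ≠ 0`, and `e1 = A₂/q` near `1`.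
Last claim: clear if `p2(s) ≠ 0`; if `p2(s) = 0` and `s ≠ 1`, then `p3(s) A₂(s) = 0`, so `A₂(s) = 0`; `s = 1`: both sides are `0`.
-/

set_option autoImplicit false

namespace CMS

open Complex MPd9f52e

private theorem two_three_q (b : ℂ) (hb : b ≠ 0) (hl : Complex.log b ≠ 0) :
    ∃ q : ℂ → ℂ, Differentiable ℂ q ∧ (∀ s, (s - 1) * q s = b ^ s - b) ∧ q 1 ≠ 0 := by
  have hd : ∀ s : ℂ, HasDerivAt (fun s : ℂ => b ^ s - b) (b ^ s * Complex.log b) s := by
    intro s
    have h1 := ((hasDerivAt_id s).const_cpow (c := b) (Or.inl hb)).sub_const b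
    rw [mul_one] at h1
    exact h1
  refine ⟨dslope (fun s : ℂ => b ^ s - b) 1, ?_, fun s => ?_, ?_⟩
  · have h1 : DifferentiableOn ℂ (dslope (fun s : ℂ => b ^ s - b) 1) Set.univ :=
      (Complex.differentiableOn_dslope Filter.univ_mem).2
        fun s _ => (hd s).differentiableAt.differentiableWithinAt
    exact differentiableOn_univ.1 h1
  · have h1 := sub_smul_dslope (fun s : ℂ => b ^ s - b) 1 s
    simp only [smul_eq_mul, Complex.cpow_one, sub_self, sub_zero] at h1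
    exact h1
  · rw [dslope_same, (hd 1).deriv, Complex.cpow_one]
    exact mul_ne_zero hb hl

private theorem two_three_log (x : ℝ) (hx : 0 ≤ x) (z : ℂ) (hz : (x : ℂ) = z) :
    Complex.log z = (Real.log x : ℂ) := by
  rw [← hz, Complex.ofReal_log hx]

private theorem two_three_exp {x : ℝ} (hx : 0 < x) {z : ℂ} (hz : (x : ℂ) = z) {s : ℂ}
    (h : z ^ s = z) : ∃ n : ℤ, (s - 1) * (Real.log x : ℂ) = n * (2 * Real.pi * Complex.I) := by
  have hz0 : z ≠ 0 := by
    rw [← hz]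
    exact Complex.ofReal_ne_zero.2 hx.ne'
  have h1 : Complex.exp (Complex.log z * s) = Complex.exp (Complex.log z) := by
    rw [← Complex.cpow_def_of_ne_zero hz0, h, Complex.exp_log hz0]
  obtain ⟨n, hn⟩ := Complex.exp_eq_exp_iff_exists_int.1 h1
  refine ⟨n, ?_⟩
  rw [two_three_log x hx.le z hz] at hn
  linear_combination hn

private theorem two_three_zero {s : ℂ} (h2 : (4 : ℂ) ^ s = 4) (h3 : (9 : ℂ) ^ s = 9) : s = 1 := by
  obtain ⟨n, hn⟩ := two_three_exp (x := 4) (by norm_num) (by norm_num) h2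
  obtain ⟨m, hm⟩ := two_three_exp (x := 9) (by norm_num) (by norm_num) h3
  by_contra hs
  have hs1 : s - 1 ≠ 0 := sub_ne_zero.2 hs
  have hl4 : 0 < Real.log 4 := Real.log_pos (by norm_num)
  have hl9 : 0 < Real.log 9 := Real.log_pos (by norm_num)
  have h4 : (m : ℂ) * (Real.log 4 : ℂ) = n * (Real.log 9 : ℂ) := by
    apply mul_left_cancel₀ hs1
    linear_combination (m : ℂ) * hn - (n : ℂ) * hm
  have h5 : (m : ℝ) * Real.log 4 = n * Real.log 9 := by exact_mod_cast h4
  have hn0 : n ≠ 0 := by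
    intro h0
    rw [h0, Int.cast_zero, zero_mul] at hn
    rcases mul_eq_zero.1 hn with h6 | h6
    · exact hs1 h6
    · exact hl4.ne' (Complex.ofReal_eq_zero.1 h6)
  have hm0 : m ≠ 0 := by
    intro h0
    rw [h0, Int.cast_zero, zero_mul] at h5
    rcases mul_eq_zero.1 h5.symm with h6 | h6
    · exact hn0 (Int.cast_eq_zero.1 h6)
    · exact hl9.ne' h6
  have h6 : (m.natAbs : ℝ) * Real.log 4 = n.natAbs * Real.log 9 := by
    have h7 := congrArg abs h5
    rw [abs_mul, abs_mul, abs_of_pos hl4, abs_of_pos hl9] at h7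
    rw [Nat.cast_natAbs, Nat.cast_natAbs, Int.cast_abs, Int.cast_abs]
    exact h7
  rw [← Real.log_pow, ← Real.log_pow] at h6
  have h7 : (4 : ℝ) ^ m.natAbs = 9 ^ n.natAbs :=
    Real.log_injOn_pos (Set.mem_Ioi.2 (by positivity)) (Set.mem_Ioi.2 (by positivity)) h6
  have h8 : 4 ^ m.natAbs = 9 ^ n.natAbs := by exact_mod_cast h7
  have h9 : Even (4 ^ m.natAbs) := (by decide : Even 4).pow_of_ne_zero (Int.natAbs_ne_zero.2 hm0)
  have h10 : Odd (9 ^ n.natAbs) := (by decide : Odd 9).pow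
  rw [h8] at h9
  exact (Nat.not_even_iff_odd.2 h10) h9

theorem two_three {a : ℝ} (ha : a < 1) {A₂ A₃ E : ℂ → ℂ} (h2 : DifferentiableOn ℂ A₂ (HP a))
    (h3 : DifferentiableOn ℂ A₃ (HP a)) (e2 : ∀ s : ℂ, 1 < s.re → ((4 : ℂ) ^ s - 4) * E s = A₂ s)
    (e3 : ∀ s : ℂ, 1 < s.re → ((9 : ℂ) ^ s - 9) * E s = A₃ s) :
    ∃ e1 : ℂ → ℂ, DifferentiableOn ℂ e1 (HP a) ∧ (∀ s : ℂ, 1 < s.re → e1 s = (s - 1) * E s) ∧
      ∀ s ∈ HP a, ((4 : ℂ) ^ s - 4) * e1 s = (s - 1) * A₂ s := by
  classical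
  have hl4 : Complex.log 4 ≠ 0 := by
    rw [two_three_log 4 (by norm_num) 4 (by norm_num)]
    exact Complex.ofReal_ne_zero.2 (Real.log_pos (by norm_num)).ne'
  have hl9 : Complex.log 9 ≠ 0 := by
    rw [two_three_log 9 (by norm_num) 9 (by norm_num)]
    exact Complex.ofReal_ne_zero.2 (Real.log_pos (by norm_num)).ne'
  obtain ⟨q2, hq2, hp2, h21⟩ := two_three_q 4 (by norm_num) hl4
  obtain ⟨q3, hq3, hp3, h31⟩ := two_three_q 9 (by norm_num) hl9
  have hopen : IsOpen (HP a) := isOpen_lt continuous_const Complex.continuous_re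
  have hconn : IsPreconnected (HP a) := (convex_halfSpace_re_gt a).isPreconnected
  have hne : ∀ s, q2 s = 0 → q3 s ≠ 0 := by
    intro s h2 h3
    have h4 := hp2 s
    have h5 := hp3 s
    rw [h2, mul_zero] at h4
    rw [h3, mul_zero] at h5
    have h6 := two_three_zero (sub_eq_zero.1 h4.symm) (sub_eq_zero.1 h5.symm)
    rw [h6] at h2
    exact h21 h2
  have hid : ∀ s ∈ HP a, q3 s * A₂ s = q2 s * A₃ s := by
    have hf : AnalyticOnNhd ℂ (fun s => q3 s * A₂ s) (HP a) :=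
      (hq3.differentiableOn.mul h2).analyticOnNhd hopen
    have hg : AnalyticOnNhd ℂ (fun s => q2 s * A₃ s) (HP a) :=
      (hq2.differentiableOn.mul h3).analyticOnNhd hopen
    have h2m : (2 : ℂ) ∈ HP a := by
      show a < (2 : ℂ).re
      rw [Complex.re_ofNat]
      linarith
    refine hf.eqOn_of_preconnected_of_eventuallyEq hg hconn h2m ?_
    have h1 : {s : ℂ | 1 < s.re} ∈ nhds (2 : ℂ) :=
      (isOpen_lt continuous_const Complex.continuous_re).mem_nhds (by
        show (1 : ℝ) < (2 : ℂ).re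
        rw [Complex.re_ofNat]
        norm_num)
    filter_upwards [h1] with s hs
    rw [← e2 s hs, ← e3 s hs, ← hp2, ← hp3]
    ring
  refine ⟨fun s => if q2 s ≠ 0 then A₂ s / q2 s else A₃ s / q3 s, ?_, ?_, ?_⟩
  · intro s₀ hs₀
    have hn := hopen.mem_nhds hs₀
    by_cases h : q2 s₀ = 0
    · have h' := hne s₀ h
      have hev : ∀ᶠ s in nhds s₀, q3 s ≠ 0 := hq3.continuous.continuousAt.eventually_ne h'
      have hd : DifferentiableAt ℂ (fun s => A₃ s / q3 s) s₀ :=
        (h3.differentiableAt hn).div hq3.differentiableAt h'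
      refine (hd.congr_of_eventuallyEq ?_).differentiableWithinAt
      filter_upwards [hev, hn] with s hs hsa
      split_ifs with h5
      · rw [div_eq_div_iff h5 hs]
        linear_combination hid s hsa
      · rfl
    · have hev : ∀ᶠ s in nhds s₀, q2 s ≠ 0 := hq2.continuous.continuousAt.eventually_ne h
      have hd : DifferentiableAt ℂ (fun s => A₂ s / q2 s) s₀ :=
        (h2.differentiableAt hn).div hq2.differentiableAt h
      refine (hd.congr_of_eventuallyEq ?_).differentiableWithinAt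
      filter_upwards [hev] with s hs
      exact if_pos hs
  · intro s hs
    show (if q2 s ≠ 0 then A₂ s / q2 s else A₃ s / q3 s) = _
    split_ifs with h
    · rw [div_eq_iff h, ← e2 s hs, ← hp2]
      ring
    · have h' := hne s (not_not.1 h)
      rw [div_eq_iff h', ← e3 s hs, ← hp3]
      ring
  · intro s hs
    show ((4 : ℂ) ^ s - 4) * (if q2 s ≠ 0 then A₂ s / q2 s else A₃ s / q3 s) = _
    rw [← hp2]
    split_ifs with h
    · field_simp
    · have h0 : q2 s = 0 := not_not.1 h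
      have h' := hne s h0
      have h6 := hid s hs
      rw [h0, zero_mul] at h6
      have h7 : A₂ s = 0 := (mul_eq_zero.1 h6).resolve_left h'
      rw [h0, h7]
      ring

end CMS
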