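import Mathlib
import Pool.Agent.Lib.CMS.HDefs
import Pool.Agent.Lib.CMS.HSum
import Pool.Agent.Lib.CMS.HRem2
import Pool.Agent.Lib.CMS.HRep
import Pool.Agent.Lib.CMS.HHalf
import Pool.Agent.Lib.CMS.HTwo

/-!
# HG: continuation of G(s) to Re s > -1  (about 240 lines)

PROOF. Let `N = 2` or `3`, `L' = N⁻¹L` (lattice: `isLat_sc`; `L ≤ L'`: `le_sc_inv`), `S` representatives (`exists_reps`), `N²` elements (`reps_card_inv`).  For `Re s > 0`, by `G0_sc`, `G0_dist`,
`GZ_expand` (each `t ∈ S.erase 0` is not in `L`):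
`N^{2+2s} G0(s) = G0(N⁻¹L, s) = G0(s) + ∑_{t ≠ 0} GZ(t,s) = N² G0(s) + B_N(s)`, `B_N(s) = ∑_{t ≠ 0} (t^{-2}|t|^{-2s} + Rem2 L t s)`, `B_N` differentiable on `HP (-1)` (`Rem2_diff`).
So `((N²)^σ - N²) E(σ) = B_N(σ - 1)` for `Re σ > 1`, `E(σ) := G0(σ-1)`.  `two_three` with `a = 0`: `e1` on `HP 0` with `e1(σ) = (σ-1) G0(σ-1)` for `Re σ > 1` and
`(4^σ - 4) e1(σ) = (σ-1) B_2(σ-1)`.  Put `g(s) = e1(s+1)` on `HP (-1)`: `g(s) = s G0(s)` for `Re s > 0`, `(4^{s+1} - 4) g(s) = s B_2(s)`.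
`B_2(0) = ∑_{t≠0} (t^{-2} + Rem2 L t 0) = ∑_{t≠0} wp(t) = 0` (`Rem2_zero`, `half_sum`).  Divide by `s` and let `s → 0`: `4 log 4 · g(0) = B_2(0) = 0`, so `g(0) = 0` and
`G := dslope g 0` is differentiable on `HP (-1)` (`DifferentiableOn.dslope`-type lemma: `Complex.differentiableOn_dslope`), `G(s) = g(s)/s = G0(s)` for `Re s > 0`.
`G'(s) := conj (G (conj s))` (differentiable: Mathlib has the lemma that `conj ∘ f ∘ conj` is differentiable, e.g. `DifferentiableAt.conj_conj` / `HasDerivAt.conj_conj`; else prove it from the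
definition of the derivative), `G1_conj` gives `G' = G1` for `Re s > 0`.
-/

set_option autoImplicit false

namespace CMS

open Complex MPd9f52e

private noncomputable def hgB (L : Submodule ℤ ℂ) (S : Finset ℂ) (s : ℂ) : ℂ :=
  ∑ t ∈ S.erase 0, ((t ^ 2)⁻¹ * (‖t‖ : ℂ) ^ (-2 * s) + Rem2 L t s)

private theorem hg_open (a : ℝ) : IsOpen (HP a) := isOpen_lt continuous_const Complex.continuous_re

private theorem hg_rel {L : Submodule ℤ ℂ} (hL : IsLat L) {N : ℕ} (hN : N ≠ 0) {S : Finset ℂ}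
    (hS : IsReps L (sc ((N : ℂ)⁻¹) L) S) {s : ℂ} (hs : 0 < s.re) :
    (((N ^ 2 : ℕ) : ℂ) ^ (s + 1) - ((N ^ 2 : ℕ) : ℂ)) * G0 L s = hgB L S s := by
  have hN' : (N : ℂ) ≠ 0 := Nat.cast_ne_zero.2 hN
  have hLe := le_sc_inv hN L
  have h1 := G0_dist hL (isLat_sc hL (inv_ne_zero hN')) hLe hS hs
  rw [G0_sc (inv_ne_zero hN')] at h1
  have h2 : ∑ t ∈ S.erase 0, GZ L t s = hgB L S s + ((N ^ 2 : ℕ) - 1 : ℂ) * G0 L s := by
    have h3 : ∀ t ∈ S.erase 0, GZ L t s =
        ((t ^ 2)⁻¹ * (‖t‖ : ℂ) ^ (-2 * s) + Rem2 L t s) + G0 L s := by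
      intro t ht
      rw [GZ_expand hL (reps_notMem hLe hS ht) hs]
      ring
    rw [Finset.sum_congr rfl h3, Finset.sum_add_distrib, Finset.sum_const, nsmul_eq_mul,
      Finset.card_erase_of_mem hS.1, reps_card_inv hL hN hS, hgB]
    rw [Nat.cast_sub (Nat.one_le_iff_ne_zero.2 (pow_ne_zero 2 hN)), Nat.cast_one]
  have h4 : (((N : ℂ)⁻¹) ^ 2)⁻¹ * (‖(N : ℂ)⁻¹‖ : ℂ) ^ (-2 * s) =
      ((N ^ 2 : ℕ) : ℂ) ^ (s + 1) := by
    have h5 : (‖(N : ℂ)⁻¹‖ : ℂ) ^ (-2 * s) = ((N ^ 2 : ℕ) : ℂ) ^ s := by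
      rw [norm_inv, Complex.norm_natCast]
      have h6 : ((((N : ℝ)⁻¹ : ℝ)) : ℂ) = ((N : ℂ))⁻¹ := by push_cast; rfl
      rw [h6, show (-2 * s) = -(2 * s) by ring, Complex.cpow_neg, Complex.inv_cpow, inv_inv,
        Complex.cpow_ofNat_mul, pow_two, ← Complex.natCast_mul_natCast_cpow, ← Nat.cast_mul,
        ← pow_two]
      rw [Complex.natCast_arg]
      exact Real.pi_ne_zero.symm
    rw [h5, Complex.cpow_add _ _ (Nat.cast_ne_zero.2 (pow_ne_zero 2 hN)), Complex.cpow_one]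
    push_cast
    rw [inv_pow, inv_inv, mul_comm]
  rw [h2, h4] at h1
  linear_combination h1

private theorem hgB_diff {L L' : Submodule ℤ ℂ} (hL : IsLat L) (h : L ≤ L') {S : Finset ℂ}
    (hS : IsReps L L' S) : DifferentiableOn ℂ (hgB L S) (HP (-1)) := by
  unfold hgB
  refine DifferentiableOn.fun_sum fun t ht => ?_
  have ht' := reps_notMem h hS ht
  have ht0 : t ≠ 0 := fun h0 => ht' (h0 ▸ L.zero_mem)
  refine DifferentiableOn.add ?_ (Rem2_diff hL ht')
  intro s _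
  have hn : (‖t‖ : ℂ) ≠ 0 := by exact_mod_cast (norm_pos_iff.2 ht0).ne'
  have h1 : DifferentiableAt ℂ (fun s : ℂ => (‖t‖ : ℂ) ^ (-2 * s)) s :=
    DifferentiableAt.const_cpow (by fun_prop) (Or.inl hn)
  exact (h1.const_mul _).differentiableWithinAt

private theorem hgA_diff {L L' : Submodule ℤ ℂ} (hL : IsLat L) (h : L ≤ L') {S : Finset ℂ}
    (hS : IsReps L L' S) : DifferentiableOn ℂ (fun s => hgB L S (s - 1)) (HP 0) := by
  refine (hgB_diff hL h hS).comp (by fun_prop) ?_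
  intro s hs
  change -1 < (s - 1).re
  have : (0 : ℝ) < s.re := hs
  simp
  linarith

theorem G_cont {L : Submodule ℤ ℂ} (hL : IsLat L) : ∃ G G' : ℂ → ℂ, DifferentiableOn ℂ G (HP (-1)) ∧
    DifferentiableOn ℂ G' (HP (-1)) ∧ (∀ s : ℂ, 0 < s.re → G s = G0 L s) ∧ (∀ s : ℂ, 0 < s.re → G' s = G1 L s) ∧
    G' 0 = (starRingEnd ℂ) (G 0) := by
  have hc2 : ((2 : ℕ) : ℂ)⁻¹ ≠ 0 := by norm_num
  have hc3 : ((3 : ℕ) : ℂ)⁻¹ ≠ 0 := by norm_num
  have hle2 := le_sc_inv (N := 2) (by norm_num) L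
  have hle3 := le_sc_inv (N := 3) (by norm_num) L
  obtain ⟨S, hS⟩ := exists_reps hL (isLat_sc hL hc2) hle2
  obtain ⟨T, hT⟩ := exists_reps hL (isLat_sc hL hc3) hle3
  obtain ⟨e1, hd, he, hrel⟩ := two_three (a := 0) (by norm_num) (E := fun s => G0 L (s - 1))
    (hgA_diff hL hle2 hS) (hgA_diff hL hle3 hT)
    (fun s hs => by
      have h := hg_rel hL (N := 2) (by norm_num) hS (s := s - 1) (by simp; linarith)
      rw [sub_add_cancel] at h
      norm_num at h
      exact h)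
    (fun s hs => by
      have h := hg_rel hL (N := 3) (by norm_num) hT (s := s - 1) (by simp; linarith)
      rw [sub_add_cancel] at h
      norm_num at h
      exact h)
  obtain ⟨g, hg⟩ : ∃ g : ℂ → ℂ, g = fun s => e1 (s + 1) := ⟨_, rfl⟩
  have hgd : DifferentiableOn ℂ g (HP (-1)) := by
    rw [hg]
    refine hd.comp (by fun_prop) ?_
    intro s hs
    change 0 < (s + 1).re
    have : (-1 : ℝ) < s.re := hs
    simp
    linarith
  have hg0 : ∀ s : ℂ, 0 < s.re → g s = s * G0 L s := by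
    intro s hs
    rw [hg]
    simp only
    rw [he (s + 1) (by simp; linarith)]
    simp
  have hgr : ∀ s ∈ HP (-1), ((4 : ℂ) ^ (s + 1) - 4) * g s = s * hgB L S s := by
    intro s hs
    have h : s + 1 ∈ HP 0 := by
      change 0 < (s + 1).re
      have : (-1 : ℝ) < s.re := hs
      simp
      linarith
    have h1 := hrel _ h
    simp only [add_sub_cancel_right] at h1
    rw [hg]
    exact h1
  have h0mem : (0 : ℂ) ∈ HP (-1) := by
    change (-1 : ℝ) < (0 : ℂ).re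
    simp
  have hnhds : HP (-1) ∈ nhds (0 : ℂ) := (hg_open _).mem_nhds h0mem
  have hB0 : hgB L S 0 = 0 := by
    have h2 : IsReps L (sc ((2 : ℂ)⁻¹) L) S := by
      have h3 : ((2 : ℕ) : ℂ) = 2 := by norm_num
      rwa [h3] at hS
    refine Eq.trans ?_ (half_sum hL h2)
    rw [hgB]
    refine Finset.sum_congr rfl fun t ht => ?_
    rw [← Rem2_zero hL (reps_notMem hle2 hS ht), mul_zero, Complex.cpow_zero, mul_one]
  have hgz : g 0 = 0 := by
    have hlog : Complex.log 4 ≠ 0 := by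
      have h4 : (4 : ℂ) = ((4 : ℝ) : ℂ) := by norm_num
      rw [h4, ← Complex.ofReal_log (by norm_num)]
      exact_mod_cast (Real.log_pos (by norm_num)).ne'
    have d1 : HasDerivAt (fun s : ℂ => (4 : ℂ) ^ (s + 1) - 4) (4 * Complex.log 4) 0 := by
      have h1 : HasDerivAt (fun s : ℂ => s + 1) 1 0 := (hasDerivAt_id 0).add_const 1
      have h2 := (h1.const_cpow (c := (4 : ℂ)) (Or.inl (by norm_num))).sub_const 4
      simpa using h2
    have d2 : HasDerivAt g (deriv g 0) 0 := (hgd.differentiableAt hnhds).hasDerivAt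
    have d3 := d1.mul d2
    have d4 : HasDerivAt (hgB L S) (deriv (hgB L S) 0) 0 :=
      ((hgB_diff hL hle2 hS).differentiableAt hnhds).hasDerivAt
    have d5 := (hasDerivAt_id (0 : ℂ)).mul d4
    have heq : (fun s : ℂ => ((4 : ℂ) ^ (s + 1) - 4) * g s) =ᶠ[nhds 0] fun s => id s * hgB L S s := by
      filter_upwards [hnhds] with s hs
      exact hgr s hs
    have h6 := d3.unique (d5.congr_of_eventuallyEq heq)
    rw [hB0] at h6
    simp at h6
    rcases h6 with h6 | h6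
    · exact absurd h6 hlog
    · exact h6
  have hGd : DifferentiableOn ℂ (dslope g 0) (HP (-1)) :=
    (Complex.differentiableOn_dslope hnhds).2 hgd
  refine ⟨dslope g 0, fun s => (starRingEnd ℂ) (dslope g 0 ((starRingEnd ℂ) s)), hGd, ?_, ?_, ?_, ?_⟩
  · intro s hs
    have hs' : (starRingEnd ℂ) s ∈ HP (-1) := by
      change (-1 : ℝ) < ((starRingEnd ℂ) s).re
      rw [Complex.conj_re]
      exact hs
    have h1 : DifferentiableAt ℂ (dslope g 0) ((starRingEnd ℂ) s) :=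
      hGd.differentiableAt ((hg_open _).mem_nhds hs')
    have h2 := h1.conj_conj
    rw [Complex.conj_conj] at h2
    exact h2.differentiableWithinAt
  · intro s hs
    have hs0 : s ≠ 0 := by
      rintro rfl
      simp at hs
    rw [dslope_of_ne _ hs0, slope_def_field, hgz, hg0 s hs]
    field_simp
    ring
  · intro s hs
    have hs' : 0 < ((starRingEnd ℂ) s).re := by rw [Complex.conj_re]; exact hs
    have hs0 : (starRingEnd ℂ) s ≠ 0 := by
      intro h
      rw [h] at hs'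
      simp at hs'
    simp only
    rw [G1_conj, dslope_of_ne _ hs0, slope_def_field, hgz, hg0 _ hs']
    congr 1
    field_simp
    ring
  · simp

end CMS
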