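import Mathlib
import Pool.Agent.Lib.CMS.HDefs
import Pool.Agent.Lib.CMS.HSum
import Pool.Agent.Lib.MP_d9f52e_nt.HTay

/-!
# HRem: the remainder sum Rem and the expansion (1) of the lattice zeta function  (about 280 lines)

PROOF. Adapt Lib/MP_d9f52e_nt/HAna.lean (`Rem_diff`) and Lib/MP_d9f52e_nt/HSer.lean (`Hc_hasSum`), where the lattice was `ec(Eis)`; the estimates
`remT_bound`, `remT_diff`, `remT_zero` of Lib/MP_d9f52e_nt/HTay.lean are for arbitrary `l : ℂ` and can be used directly.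
`Rem_summable`: `‖remT z s l‖ ≤ C ‖l‖^{-2 Re s - 3}` for `‖l‖ ≥ 2‖z‖` (`remT_bound`), summable for `2 Re s + 3 > 2` by `sum_norm`.
`Rem_diff`: locally uniform convergence on `{-1/2 + δ < Re s, ‖s‖ < R}`.
`H0_expand`: (Re s > 1) `remT z s l = |z+l|^{-2s} - |l|^{-2s}(1 - s(x + x') + (s(s+1)/2)(x² + x'²) + s² x x')`, `x = z/l`; sum over `l ≠ 0`; every part is
summable (`|l|^{-2s} |x|^k` is bounded by `C |l|^{-2 Re s}`), the sums with `x`, `x'` vanish because they change sign under `l ↦ -l`;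
`|l|^{-2s} x x' = |z|² |l|^{-2(s+1)}` and `|l|^{-2s} x² = z² l^{-2}|l|^{-2s}`.  The term `l = 0` of `H0` gives `|z|^{-2s}`.
-/

set_option autoImplicit false

namespace CMS

open Complex MPd9f52e

variable {L : Submodule ℤ ℂ}

private theorem hr_add_ne {z : ℂ} (hz : z ∉ L) (l : L) : z + (l : ℂ) ≠ 0 := by
  intro h
  apply hz
  rw [eq_neg_of_add_eq_zero_left h]
  exact L.neg_mem l.2

private theorem hr_large (hL : IsLat L) (R : ℝ) : ∃ F : Finset L, ∀ l : L, l ∉ F → R < ‖(l : ℂ)‖ := by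
  refine ⟨(fin_le hL R).toFinset, fun l hl => ?_⟩
  rw [Set.Finite.mem_toFinset] at hl
  exact not_le.1 hl

private theorem hr_cofin (F : Finset L) : ∀ᶠ l : L in Filter.cofinite, l ∉ F := by
  rw [Filter.eventually_cofinite]
  simp only [not_not]
  exact F.finite_toSet

theorem Rem_summable (hL : IsLat L) {z : ℂ} (hz : z ∉ L) {s : ℂ} (hs : -1 / 2 < s.re) :
    Summable (fun l : L => if (l : ℂ) = 0 then (0 : ℂ) else remT z s l) := by
  obtain ⟨C, hC0, hCb⟩ := remT_bound z ‖s‖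
  obtain ⟨F, hF⟩ := hr_large hL (2 * ‖z‖)
  refine Summable.of_norm_bounded_eventually
    ((sum_norm hL (p := 2 * s.re + 3) (by linarith)).mul_left C) ?_
  filter_upwards [hr_cofin F] with l hl
  by_cases h0 : (l : ℂ) = 0
  · simp [h0]
  · rw [if_neg h0, if_neg h0]
    have h2 := hCb s le_rfl l h0 (hF l hl).le
    rwa [show -2 * s.re - 3 = -(2 * s.re + 3) by ring] at h2

theorem Rem_diff (hL : IsLat L) {z : ℂ} (hz : z ∉ L) : DifferentiableOn ℂ (Rem L z) (HP (-1 / 2)) := by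
  classical
  intro s₀ hs₀
  have hs₀' : -1 / 2 < s₀.re := hs₀
  set ε : ℝ := (s₀.re + 1 / 2) / 2 with hε
  have hε0 : 0 < ε := by rw [hε]; linarith
  set R : ℝ := ‖s₀‖ + 1 with hR
  set U : Set ℂ := Metric.ball 0 R ∩ {s : ℂ | -1 / 2 + ε < s.re} with hU
  have hUo : IsOpen U := Metric.isOpen_ball.inter (isOpen_lt continuous_const Complex.continuous_re)
  have hsU : s₀ ∈ U := by
    refine ⟨by rw [mem_ball_zero_iff, hR]; linarith, ?_⟩
    show -1 / 2 + ε < s₀.re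
    rw [hε]
    linarith
  obtain ⟨C, hC0, hC⟩ := remT_bound z R
  obtain ⟨F, hF⟩ := hr_large hL (max (2 * ‖z‖) 1)
  have hM : ∀ l : L, ∃ M : ℝ, 0 ≤ M ∧ ∀ s ∈ U, (l : ℂ) ≠ 0 → ‖remT z s l‖ ≤ M := by
    intro l
    by_cases hl : (l : ℂ) = 0
    · exact ⟨0, le_rfl, fun s _ h => absurd hl h⟩
    obtain ⟨M, hM⟩ := (isCompact_closedBall (0 : ℂ) R).exists_bound_of_continuousOn
      (f := fun s => remT z s (l : ℂ))
      (remT_diff hl (hr_add_ne hz l)).continuous.continuousOn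
    refine ⟨max M 0, le_max_right _ _, fun s hs _ => ?_⟩
    exact (hM s (Metric.ball_subset_closedBall hs.1)).trans (le_max_left _ _)
  choose M hM0 hM using hM
  set v : L → ℝ := fun l => if (l : ℂ) = 0 then (0 : ℝ) else ‖(l : ℂ)‖ ^ (-(2 + 2 * ε)) with hv
  have hvs : Summable v := sum_norm hL (by linarith)
  set u : L → ℝ := fun l => C * v l + (if l ∈ F then M l else 0) with hu
  have hus : Summable u := by
    refine (hvs.mul_left C).add ?_
    exact summable_of_ne_finset_zero (s := F) fun l hl => by rw [if_neg hl]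
  have hv0 : ∀ l, 0 ≤ v l := by
    intro l
    simp only [hv]
    split_ifs
    · exact le_rfl
    · exact Real.rpow_nonneg (norm_nonneg _) _
  have hbound : ∀ (l : L) (s : ℂ), s ∈ U →
      ‖(if (l : ℂ) = 0 then (0 : ℂ) else remT z s (l : ℂ))‖ ≤ u l := by
    intro l s hs
    have h2 : 0 ≤ (if l ∈ F then M l else 0) := by
      split_ifs
      · exact hM0 l
      · exact le_rfl
    by_cases hl : (l : ℂ) = 0
    · rw [if_pos hl, norm_zero]
      exact add_nonneg (mul_nonneg hC0 (hv0 l)) h2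
    rw [if_neg hl]
    by_cases hlF : l ∈ F
    · simp only [hu, if_pos hlF]
      exact (hM l s hs hl).trans (le_add_of_nonneg_left (mul_nonneg hC0 (hv0 l)))
    · simp only [hu, if_neg hlF, add_zero]
      have h3 : ‖s‖ ≤ R := by
        have := hs.1
        rw [mem_ball_zero_iff] at this
        exact this.le
      have h5 := hF l hlF
      refine (hC s h3 (l : ℂ) hl ((le_max_left _ _).trans h5.le)).trans ?_
      refine mul_le_mul_of_nonneg_left ?_ hC0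
      simp only [hv, if_neg hl]
      have h4 : -1 / 2 + ε < s.re := hs.2
      exact Real.rpow_le_rpow_of_exponent_le ((le_max_right _ _).trans h5.le) (by linarith)
  have hd : DifferentiableOn ℂ (fun s => ∑' l : L, if (l : ℂ) = 0 then (0 : ℂ) else remT z s (l : ℂ)) U := by
    refine differentiableOn_tsum_of_summable_norm hus (fun l => ?_) hUo hbound
    by_cases hl : (l : ℂ) = 0
    · simp only [if_pos hl]
      exact differentiableOn_const _
    · simp only [if_neg hl]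
      exact (remT_diff hl (hr_add_ne hz l)).differentiableOn
  exact ((hd s₀ hsU).differentiableAt (hUo.mem_nhds hsU)).differentiableWithinAt

theorem Rem_zero (hL : IsLat L) {z : ℂ} (hz : z ∉ L) : Rem L z 0 = 0 := by
  unfold Rem
  refine (tsum_congr fun l => ?_).trans tsum_zero
  by_cases hl : (l : ℂ) = 0
  · rw [if_pos hl]
  · rw [if_neg hl, remT_zero hl (hr_add_ne hz l)]

private theorem hr_cp {l : ℂ} (hl : l ≠ 0) (s : ℂ) : ‖(‖l‖ : ℂ) ^ (-2 * s)‖ = ‖l‖ ^ (-(2 * s.re)) := by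
  rw [Complex.norm_cpow_eq_rpow_re_of_pos (norm_pos_iff.2 hl)]
  congr 1
  simp

private theorem hr_gen (hL : IsLat L) {s : ℂ} (hs : 1 < s.re) {G : ℂ → ℂ} (K : ℝ) (k : ℕ)
    (hG : ∀ l : ℂ, l ≠ 0 → ‖G l‖ ≤ K * ‖l‖ ^ (-(k : ℝ))) :
    Summable (fun l : L => if (l : ℂ) = 0 then (0 : ℂ) else (‖(l : ℂ)‖ : ℂ) ^ (-2 * s) * G l) := by
  have hS := (sum_norm hL (p := 2 * s.re + k) (by
    have : (0 : ℝ) ≤ k := Nat.cast_nonneg k
    linarith)).mul_left K
  refine Summable.of_norm_bounded hS ?_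
  intro l
  by_cases h0 : (l : ℂ) = 0
  · simp [h0]
  · have hpos : 0 < ‖(l : ℂ)‖ := norm_pos_iff.2 h0
    rw [if_neg h0, if_neg h0, norm_mul, hr_cp h0]
    calc ‖(l : ℂ)‖ ^ (-(2 * s.re)) * ‖G l‖ ≤
          ‖(l : ℂ)‖ ^ (-(2 * s.re)) * (K * ‖(l : ℂ)‖ ^ (-(k : ℝ))) := by
          apply mul_le_mul_of_nonneg_left (hG l h0) (Real.rpow_nonneg hpos.le _)
      _ = K * ‖(l : ℂ)‖ ^ (-(2 * s.re + k)) := by
          rw [neg_add, Real.rpow_add hpos]
          ring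

private theorem hr_odd (hL : IsLat L) {s : ℂ} (hs : 1 < s.re) {G : ℂ → ℂ} (K : ℝ) (k : ℕ)
    (hG : ∀ l : ℂ, l ≠ 0 → ‖G l‖ ≤ K * ‖l‖ ^ (-(k : ℝ))) (hodd : ∀ l : ℂ, G (-l) = -G l) :
    HasSum (fun l : L => if (l : ℂ) = 0 then (0 : ℂ) else (‖(l : ℂ)‖ : ℂ) ^ (-2 * s) * G l) 0 := by
  have hS := hr_gen hL hs K k hG
  have h1 := hS.hasSum
  set F : L → ℂ := fun l : L => if (l : ℂ) = 0 then (0 : ℂ) else (‖(l : ℂ)‖ : ℂ) ^ (-2 * s) * G l with hF
  have h2 : ∀ l : L, F (-l) = -F l := by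
    intro l
    simp only [hF, Submodule.coe_neg, neg_eq_zero, norm_neg, hodd]
    by_cases h0 : (l : ℂ) = 0
    · simp [h0]
    · rw [if_neg h0, if_neg h0]
      ring
  have h3 : ∑' l, F l = -∑' l, F l := by
    calc ∑' l, F l = ∑' l, F (-l) := ((Equiv.neg L).tsum_eq F).symm
      _ = ∑' l, -F l := tsum_congr h2
      _ = -∑' l, F l := tsum_neg
  have h4 : ∑' l, F l = 0 := by
    have h5 : (2 : ℂ) * ∑' l, F l = 0 := by linear_combination h3
    rcases mul_eq_zero.1 h5 with h6 | h6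
    · norm_num at h6
    · exact h6
  rwa [h4] at h1

private theorem hr_x (z l : ℂ) : ‖z / l‖ = ‖z‖ * ‖l‖ ^ (-((1 : ℕ) : ℝ)) := by
  rw [norm_div, Real.rpow_neg (norm_nonneg _), Real.rpow_natCast, pow_one]
  rfl

private theorem hr_congr {f g : L → ℂ} {a : ℂ} (hg : HasSum g a) (h : ∀ l, f l = g l) : HasSum f a := by
  have : f = g := funext h
  rw [this]
  exact hg

/-- formula (1) of the paper, for `Re s > 1` -/
theorem H0_expand (hL : IsLat L) {z : ℂ} (hz : z ∉ L) {s : ℂ} (hs : 1 < s.re) :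
    H0 L z s = (‖z‖ : ℂ) ^ (-2 * s) + E0 L s + (‖z‖ : ℂ) ^ 2 * (s ^ 2 * E0 L (s + 1)) +
      s * (s + 1) / 2 * (z ^ 2 * G0 L s + (starRingEnd ℂ) z ^ 2 * G1 L s) + Rem L z s := by
  classical
  have hA : HasSum (fun l : L => if (l : ℂ) = 0 then (0 : ℂ) else (‖(l : ℂ)‖ : ℂ) ^ (-2 * s)) (E0 L s) :=
    (sum_E hL hs).hasSum
  have hB : HasSum (fun l : L => if (l : ℂ) = 0 then (0 : ℂ) else
      (‖(l : ℂ)‖ : ℂ) ^ (-2 * s) * (z / (l : ℂ))) 0 := by
    refine hr_odd hL hs (G := fun l => z / l) ‖z‖ 1 (fun l _ => (hr_x z l).le) (fun l => ?_)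
    rw [div_neg]
  have hB' : HasSum (fun l : L => if (l : ℂ) = 0 then (0 : ℂ) else
      (‖(l : ℂ)‖ : ℂ) ^ (-2 * s) * (starRingEnd ℂ) (z / (l : ℂ))) 0 := by
    refine hr_odd hL hs (G := fun l => (starRingEnd ℂ) (z / l)) ‖z‖ 1 (fun l _ => ?_) (fun l => ?_)
    · rw [Complex.norm_conj]
      exact (hr_x z l).le
    · rw [div_neg, map_neg]
  have hC : HasSum (fun l : L => if (l : ℂ) = 0 then (0 : ℂ) else
      (‖(l : ℂ)‖ : ℂ) ^ (-2 * s) * (z / (l : ℂ)) ^ 2) (z ^ 2 * G0 L s) := by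
    have h1 : HasSum _ (G0 L s) := (sum_G hL (s := s) (by linarith)).hasSum
    refine hr_congr (h1.mul_left (z ^ 2)) fun l => ?_
    by_cases h0 : (l : ℂ) = 0
    · rw [if_pos h0, if_pos h0, mul_zero]
    · rw [if_neg h0, if_neg h0, div_pow]
      ring
  have hC' : HasSum (fun l : L => if (l : ℂ) = 0 then (0 : ℂ) else
      (‖(l : ℂ)‖ : ℂ) ^ (-2 * s) * (starRingEnd ℂ) (z / (l : ℂ)) ^ 2)
      ((starRingEnd ℂ) z ^ 2 * G1 L s) := by
    have h1 : HasSum _ (G1 L s) := (sum_G1 hL (s := s) (by linarith)).hasSum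
    refine hr_congr (h1.mul_left ((starRingEnd ℂ) z ^ 2)) fun l => ?_
    by_cases h0 : (l : ℂ) = 0
    · rw [if_pos h0, if_pos h0, mul_zero]
    · rw [if_neg h0, if_neg h0, map_div₀, div_pow]
      ring
  have hD : HasSum (fun l : L => if (l : ℂ) = 0 then (0 : ℂ) else
      (‖(l : ℂ)‖ : ℂ) ^ (-2 * s) * (z / (l : ℂ) * (starRingEnd ℂ) (z / (l : ℂ))))
      ((‖z‖ : ℂ) ^ 2 * E0 L (s + 1)) := by
    have h1 : HasSum _ (E0 L (s + 1)) :=
      (sum_E hL (s := s + 1) (by rw [Complex.add_re, Complex.one_re]; linarith)).hasSum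
    refine hr_congr (h1.mul_left ((‖z‖ : ℂ) ^ 2)) fun l => ?_
    by_cases h0 : (l : ℂ) = 0
    · rw [if_pos h0, if_pos h0, mul_zero]
    · rw [if_neg h0, if_neg h0]
      have hpos : 0 < ‖(l : ℂ)‖ := norm_pos_iff.2 h0
      have hne : (‖(l : ℂ)‖ : ℂ) ≠ 0 := by exact_mod_cast hpos.ne'
      have e1 : z / (l : ℂ) * (starRingEnd ℂ) (z / (l : ℂ)) = (‖z‖ : ℂ) ^ 2 / (‖(l : ℂ)‖ : ℂ) ^ 2 := by
        rw [Complex.mul_conj, Complex.normSq_eq_norm_sq, norm_div]
        push_cast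
        rw [div_pow]
      have e2 : (‖(l : ℂ)‖ : ℂ) ^ (-2 * (s + 1)) = (‖(l : ℂ)‖ : ℂ) ^ (-2 * s) / (‖(l : ℂ)‖ : ℂ) ^ 2 := by
        rw [show -2 * (s + 1) = -2 * s - ((2 : ℕ) : ℂ) by push_cast; ring, Complex.cpow_sub _ _ hne,
          Complex.cpow_natCast]
      rw [e1, e2]
      ring
  have hR : HasSum (fun l : L => if (l : ℂ) = 0 then (0 : ℂ) else remT z s (l : ℂ)) (Rem L z s) :=
    (Rem_summable hL hz (by linarith)).hasSum
  have hZ : HasSum (fun l : L => if (l : ℂ) = 0 then (‖z‖ : ℂ) ^ (-2 * s) else 0)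
      ((‖z‖ : ℂ) ^ (-2 * s)) := by
    refine hr_congr (hasSum_ite_eq (0 : L) ((‖z‖ : ℂ) ^ (-2 * s))) fun l => ?_
    by_cases h0 : (l : ℂ) = 0
    · have h1 : l = 0 := Subtype.ext h0
      rw [if_pos h0, if_pos h1]
    · have h1 : l ≠ 0 := fun h => h0 (by rw [h]; rfl)
      rw [if_neg h0, if_neg h1]
  have hall := ((((hZ.add hA).add ((hD.mul_left (s ^ 2)))).add hR).add
    (((hB.add hB').mul_left (-s)).add ((hC.add hC').mul_left (s * (s + 1) / 2))))
  have hfin : HasSum (fun l : L => (‖z + (l : ℂ)‖ : ℂ) ^ (-2 * s))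
      ((‖z‖ : ℂ) ^ (-2 * s) + E0 L s + s ^ 2 * ((‖z‖ : ℂ) ^ 2 * E0 L (s + 1)) + Rem L z s +
      (-s * (0 + 0) + s * (s + 1) / 2 * (z ^ 2 * G0 L s + (starRingEnd ℂ) z ^ 2 * G1 L s))) := by
    refine hr_congr hall fun l => ?_
    by_cases h0 : (l : ℂ) = 0
    · simp only [h0, if_true, add_zero, mul_zero]
    · simp only [if_neg h0, remT]
      ring
  unfold H0
  rw [hfin.tsum_eq]
  ring

end CMS
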