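import Mathlib
import Pool.Agent.Lib.CMS.HDefs
import Pool.Agent.Lib.CMS.HSum
import Pool.Agent.Lib.CMS.HRem
import Pool.Agent.Lib.CMS.HRep
import Pool.Agent.Lib.CMS.HTwo
import Pool.Agent.Lib.CMS.HG

/-!
# HE: continuation of E(s): existence of the data Ctn

`G`, `G'` from `G_cont`.  For `N = 2, 3` the distribution relation of `E0` for `L ≤ N⁻¹L` and the expansion `H0_expand` give
`(N² ^ s - N²) E0(s) = A_N(s)` with `A_N` built from a continuation `X` of `s² E0(s+1)` (`he_key`).  First `X(s) = s² E0(s+1)` on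
`HP 0`, then `X(s) = s e1(s+1)` on `HP (-1/2)`; both times `two_three`.
-/

set_option autoImplicit false

namespace CMS

open Complex MPd9f52e

private theorem he_open (a : ℝ) : IsOpen (HP a) := isOpen_lt continuous_const Complex.continuous_re

private theorem he_mono {a b : ℝ} (h : a ≤ b) : HP b ⊆ HP a := fun _ hs => lt_of_le_of_lt h hs

private theorem he_pow {N : ℕ} (hN : N ≠ 0) (s : ℂ) : (‖((N : ℂ)⁻¹)‖ : ℂ) ^ (-2 * s) = ((N : ℂ) ^ 2) ^ s := by
  have h0 : (0 : ℝ) < N := by exact_mod_cast Nat.pos_of_ne_zero hN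
  have h1 : (N : ℂ) ≠ 0 := Nat.cast_ne_zero.2 hN
  have h2 : ((N : ℂ) ^ 2) = (((N : ℝ) ^ 2 : ℝ) : ℂ) := by push_cast; rfl
  rw [norm_inv, Complex.norm_natCast, h2, Complex.cpow_def_of_ne_zero, Complex.cpow_def_of_ne_zero,
    ← Complex.ofReal_log, ← Complex.ofReal_log, Real.log_inv, Real.log_pow]
  · congr 1
    push_cast
    ring
  · positivity
  · positivity
  · exact_mod_cast (by positivity : ((N : ℝ) ^ 2) ≠ 0)
  · exact_mod_cast (by positivity : ((N : ℝ)⁻¹) ≠ 0)

private theorem he_key {L : Submodule ℤ ℂ} (hL : IsLat L) {G G' : ℂ → ℂ} (hG : DifferentiableOn ℂ G (HP (-1)))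
    (hG' : DifferentiableOn ℂ G' (HP (-1))) (hG0 : ∀ s : ℂ, 0 < s.re → G s = G0 L s)
    (hG1 : ∀ s : ℂ, 0 < s.re → G' s = G1 L s) {N : ℕ} (hN : N ≠ 0) {a : ℝ} (ha : -1 / 2 ≤ a) {X : ℂ → ℂ}
    (hX : DifferentiableOn ℂ X (HP a)) (hX' : ∀ s : ℂ, 1 < s.re → X s = s ^ 2 * E0 L (s + 1)) :
    ∃ A : ℂ → ℂ, DifferentiableOn ℂ A (HP a) ∧
      ∀ s : ℂ, 1 < s.re → (((N : ℂ) ^ 2) ^ s - (N : ℂ) ^ 2) * E0 L s = A s := by
  have hN' : ((N : ℂ)⁻¹) ≠ 0 := inv_ne_zero (Nat.cast_ne_zero.2 hN)
  have hL' : IsLat (sc ((N : ℂ)⁻¹) L) := isLat_sc hL hN'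
  have hle : L ≤ sc ((N : ℂ)⁻¹) L := le_sc_inv hN L
  obtain ⟨S, hS⟩ := exists_reps hL hL' hle
  have hcard : S.card = N ^ 2 := reps_card_inv hL hN hS
  refine ⟨fun s => ∑ t ∈ S.erase 0, ((‖t‖ : ℂ) ^ (-2 * s) + (‖t‖ : ℂ) ^ 2 * X s +
    s * (s + 1) / 2 * (t ^ 2 * G s + (starRingEnd ℂ) t ^ 2 * G' s) + Rem L t s), ?_, ?_⟩
  · refine DifferentiableOn.fun_sum fun t ht => ?_
    have htL : t ∉ L := reps_notMem hle hS ht
    have ht0 : t ≠ 0 := fun h => htL (h ▸ L.zero_mem)
    have hn : (‖t‖ : ℂ) ≠ 0 := by exact_mod_cast (norm_pos_iff.2 ht0).ne'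
    have d1 : DifferentiableOn ℂ (fun s : ℂ => (‖t‖ : ℂ) ^ (-2 * s)) (HP a) := by
      intro s _
      exact (DifferentiableAt.const_cpow (differentiableAt_id.const_mul _) (Or.inl hn)).differentiableWithinAt
    have d2 : DifferentiableOn ℂ (Rem L t) (HP a) := (Rem_diff hL htL).mono (he_mono ha)
    have d3 : DifferentiableOn ℂ G (HP a) := hG.mono (he_mono (by linarith))
    have d4 : DifferentiableOn ℂ G' (HP a) := hG'.mono (he_mono (by linarith))
    have d5 : DifferentiableOn ℂ (fun s : ℂ => s * (s + 1) / 2) (HP a) := by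
      intro s _
      exact (((differentiableAt_id.mul (differentiableAt_id.add_const 1))).div_const 2).differentiableWithinAt
    exact ((d1.add (hX.const_mul _)).add (d5.mul ((d3.const_mul _).add (d4.const_mul _)))).add d2
  · intro s hs
    have e1 := E0_sc hN' L s
    rw [he_pow hN] at e1
    have e2 := E0_dist hL hL' hle hS hs
    rw [e1] at e2
    have e3 : ∀ t ∈ S.erase 0, H0 L t s = E0 L s + ((‖t‖ : ℂ) ^ (-2 * s) + (‖t‖ : ℂ) ^ 2 * X s +
        s * (s + 1) / 2 * (t ^ 2 * G s + (starRingEnd ℂ) t ^ 2 * G' s) + Rem L t s) := by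
      intro t ht
      rw [H0_expand hL (reps_notMem hle hS ht) hs, hX' s hs, hG0 s (by linarith), hG1 s (by linarith)]
      ring
    rw [Finset.sum_congr rfl e3, Finset.sum_add_distrib, Finset.sum_const, Finset.card_erase_of_mem hS.1, hcard,
      nsmul_eq_mul] at e2
    have h1 : ((N ^ 2 - 1 : ℕ) : ℂ) = (N : ℂ) ^ 2 - 1 := by
      rw [Nat.cast_sub (Nat.one_le_iff_ne_zero.2 (pow_ne_zero 2 hN))]
      push_cast
      ring
    rw [h1] at e2
    simp only []
    linear_combination e2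

private theorem he_cont {L : Submodule ℤ ℂ} (hL : IsLat L) {G G' : ℂ → ℂ} (hG : DifferentiableOn ℂ G (HP (-1)))
    (hG' : DifferentiableOn ℂ G' (HP (-1))) (hG0 : ∀ s : ℂ, 0 < s.re → G s = G0 L s)
    (hG1 : ∀ s : ℂ, 0 < s.re → G' s = G1 L s) {a : ℝ} (ha : -1 / 2 ≤ a) (ha' : a < 1) {X : ℂ → ℂ}
    (hX : DifferentiableOn ℂ X (HP a)) (hX' : ∀ s : ℂ, 1 < s.re → X s = s ^ 2 * E0 L (s + 1)) :
    ∃ e : ℂ → ℂ, DifferentiableOn ℂ e (HP a) ∧ ∀ s : ℂ, 1 < s.re → e s = (s - 1) * E0 L s := by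
  obtain ⟨A₂, hA₂, h₂⟩ := he_key hL hG hG' hG0 hG1 two_ne_zero ha hX hX'
  obtain ⟨A₃, hA₃, h₃⟩ := he_key hL hG hG' hG0 hG1 three_ne_zero ha hX hX'
  obtain ⟨e, he, he', -⟩ := two_three ha' hA₂ hA₃ (E := E0 L) (fun s hs => by
      have := h₂ s hs
      have h4 : (((2 : ℕ) : ℂ) ^ 2) = 4 := by norm_num
      rwa [h4] at this) (fun s hs => by
      have := h₃ s hs
      have h4 : (((3 : ℕ) : ℂ) ^ 2) = 9 := by norm_num
      rwa [h4] at this)
  exact ⟨e, he, he'⟩

theorem ctn_exists {L : Submodule ℤ ℂ} (hL : IsLat L) : Nonempty (Ctn L) := by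
  obtain ⟨G, G', hG, hG', hG0, hG1, hGG⟩ := G_cont hL
  -- step 1
  obtain ⟨e1, he1, he1'⟩ : ∃ e : ℂ → ℂ, DifferentiableOn ℂ e (HP 0) ∧
      ∀ s : ℂ, 1 < s.re → e s = (s - 1) * E0 L s := by
    refine he_cont hL hG hG' hG0 hG1 (by norm_num) (by norm_num) (X := fun s => s ^ 2 * E0 L (s + 1)) ?_
      (fun s _ => rfl)
    have d1 : DifferentiableOn ℂ (fun s : ℂ => E0 L (s + 1)) (HP 0) := by
      refine (E0_diff hL).comp (differentiable_id.add_const 1).differentiableOn ?_
      intro s hs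
      have hs' : 0 < s.re := hs
      show 1 < (s + 1).re
      simp only [Complex.add_re, Complex.one_re]
      linarith
    exact (differentiable_id.pow 2).differentiableOn.mul d1
  -- step 2
  obtain ⟨e, he, he'⟩ : ∃ e : ℂ → ℂ, DifferentiableOn ℂ e (HP (-1 / 2)) ∧
      ∀ s : ℂ, 1 < s.re → e s = (s - 1) * E0 L s := by
    refine he_cont hL hG hG' hG0 hG1 le_rfl (by norm_num) (X := fun s => s * e1 (s + 1)) ?_ ?_
    · have d1 : DifferentiableOn ℂ (fun s : ℂ => e1 (s + 1)) (HP (-1 / 2)) := by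
        refine he1.comp (differentiable_id.add_const 1).differentiableOn ?_
        intro s hs
        have hs' : -1 / 2 < s.re := hs
        show 0 < (s + 1).re
        simp only [Complex.add_re, Complex.one_re]
        linarith
      exact differentiable_id.differentiableOn.mul d1
    · intro s hs
      have h1 : e1 (s + 1) = (s + 1 - 1) * E0 L (s + 1) := he1' (s + 1) (by
        simp only [Complex.add_re, Complex.one_re]
        linarith)
      simp only [h1]
      ring
  have hmem1 : (1 : ℂ) ∈ HP (-1 / 2) := by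
    show (-1 / 2 : ℝ) < (1 : ℂ).re
    norm_num
  have hd1 : DifferentiableAt ℂ e 1 := (he 1 hmem1).differentiableAt ((he_open _).mem_nhds hmem1)
  -- `e 1` is real
  have hreal : (((e 1).re : ℝ) : ℂ) = e 1 := by
    have him : (e 1).im = 0 := by
      have ht : Filter.Tendsto (fun x : ℝ => (e (x : ℂ)).im) (nhdsWithin 1 (Set.Ioi 1)) (nhds (e 1).im) := by
        have h1 : Filter.Tendsto (fun x : ℝ => (x : ℂ)) (nhds 1) (nhds (1 : ℂ)) := by
          have := Complex.continuous_ofReal.tendsto 1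
          rwa [Complex.ofReal_one] at this
        exact ((Complex.continuous_im.tendsto _).comp (hd1.continuousAt.tendsto.comp h1)).mono_left
          nhdsWithin_le_nhds
      have hz : Filter.Tendsto (fun x : ℝ => (e (x : ℂ)).im) (nhdsWithin 1 (Set.Ioi 1)) (nhds 0) := by
        refine Filter.Tendsto.congr' ?_ tendsto_const_nhds
        filter_upwards [self_mem_nhdsWithin] with x hx
        have hx' : (1 : ℝ) < x := hx
        have h2 : e (x : ℂ) = ((x : ℂ) - 1) * E0 L x := he' x (by simpa using hx')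
        have h3 : (starRingEnd ℂ) (E0 L (x : ℂ)) = E0 L x := by
          rw [← E0_conj, Complex.conj_ofReal]
        have h4 : (starRingEnd ℂ) (e (x : ℂ)) = e x := by
          rw [h2, map_mul, h3, map_sub, Complex.conj_ofReal, map_one]
        exact (Complex.conj_eq_iff_im.1 h4).symm
      exact tendsto_nhds_unique ht hz
    exact Complex.ext (by simp) (by simp [him])
  refine ⟨{
    E := fun s => e s / (s - 1)
    F := fun s => s * e (s + 1)
    G := G
    G' := G'
    r0 := (e 1).re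
    E_diff := ?_
    E_sum := ?_
    F_diff := ?_
    F_eq := ?_
    F_zero := by simp
    F_deriv := ?_
    G_diff := hG.mono (he_mono (by norm_num))
    G_sum := ?_
    G'_diff := hG'.mono (he_mono (by norm_num))
    G'_sum := ?_
    G'_zero := hGG }⟩
  · refine DifferentiableOn.div (he.mono fun s hs => hs.1) (differentiable_id.sub_const 1).differentiableOn ?_
    intro s hs
    exact sub_ne_zero.2 hs.2
  · intro s hs
    have h0 : s - 1 ≠ 0 := by
      intro h
      rw [sub_eq_zero.1 h] at hs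
      simp at hs
    have h1 : e s / (s - 1) = E0 L s := by
      rw [he' s hs, mul_div_cancel_left₀ _ h0]
    rw [h1]
    exact (sum_E hL hs).hasSum
  · have d1 : DifferentiableOn ℂ (fun s : ℂ => e (s + 1)) (HP (-1 / 2)) := by
      refine he.comp (differentiable_id.add_const 1).differentiableOn ?_
      intro s hs
      have hs' : -1 / 2 < s.re := hs
      show -1 / 2 < (s + 1).re
      simp only [Complex.add_re, Complex.one_re]
      linarith
    exact differentiable_id.differentiableOn.mul d1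
  · intro s hs
    have h0 : s ≠ 0 := by
      rintro rfl
      simp at hs
      linarith
    have h1 : s + 1 - 1 = s := by ring
    simp only [h1]
    field_simp
  · have h1 : HasDerivAt (fun s : ℂ => e (s + 1)) (deriv e 1) 0 := by
      have h2 : HasDerivAt e (deriv e 1) (0 + 1) := by
        rw [zero_add]
        exact hd1.hasDerivAt
      exact HasDerivAt.comp_add_const 0 1 h2
    have h3 := (hasDerivAt_id (0 : ℂ)).mul h1
    have h4 : (1 : ℂ) * e (0 + 1) + id (0 : ℂ) * deriv e 1 = (((e 1).re : ℝ) : ℂ) := by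
      rw [hreal, zero_add, id, zero_mul, add_zero, one_mul]
    rw [← h4]
    exact h3
  · intro s hs
    rw [hG0 s (by linarith)]
    exact (sum_G hL (by linarith)).hasSum
  · intro s hs
    rw [hG1 s (by linarith)]
    exact (sum_G1 hL (by linarith)).hasSum

/-- the chosen continuation data -/
noncomputable def ctn {L : Submodule ℤ ℂ} (hL : IsLat L) : Ctn L := (ctn_exists hL).some

/-- the constant `exp(-E'(0)/2)` -/
noncomputable def c0L {L : Submodule ℤ ℂ} (hL : IsLat L) : ℝ := Real.exp (-(deriv (ctn hL).E 0).re / 2)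

theorem Hc_eq {L : Submodule ℤ ℂ} (hL : IsLat L) (z s : ℂ) : Hc L z s = (ctn hL).H z s := by
  unfold Hc ctn
  rw [dif_pos (ctn_exists hL)]

end CMS
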