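import Mathlib
import Pool.Agent.Lib.CMS.HDefs
import Pool.Agent.Lib.CMS.HSum
import Pool.Agent.Lib.CMS.HRem
import Pool.Agent.Lib.CMS.HE

/-!
# HHc: analyticity and series of the lattice zeta function  (about 170 lines)

PROOF. `Hc_eq`.  `Hc_diff`: `Ctn.H` is a sum of products of functions differentiable on `Dom ⊆ HP (-1/2)`.
`Hc_hasSum`: for `Re s > 1`: `E_sum`, `G_sum`, `G'_sum` and `F_eq` give `(ctn hL).E s = E0 L s`, `.F s = s² E0 L (s+1)` (here `.E (s+1) = E0 L (s+1)` since `Re (s+1) > 1`), `.G s = G0 L s`, `.G' s = G1 L s`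
(HasSum.tsum_eq), so `(ctn hL).H z s = H0 L z s` by `H0_expand`; `sum_H`.
`dom_ext`: copy `isOpen_Dom`, `preconn_Dom`, `ident` from Lib/MP_d9f52e_nt/SInv.lean.  `dom_ext_deriv`: `Dom` is an open neighbourhood of `0`.
-/

set_option autoImplicit false

namespace CMS

open Complex MPd9f52e

variable {L : Submodule ℤ ℂ}

theorem Hc_diff (hL : IsLat L) {z : ℂ} (hz : z ∉ L) : DifferentiableOn ℂ (Hc L z) Dom := by
  have hz0 : z ≠ 0 := fun h => hz (h ▸ L.zero_mem)
  have hzn : (‖z‖ : ℂ) ≠ 0 := by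
    rw [Ne, Complex.ofReal_eq_zero, norm_eq_zero]
    exact hz0
  have hDH : Dom ⊆ HP (-1 / 2) := fun s hs => hs.1
  have hcp : Differentiable ℂ (fun s : ℂ => (‖z‖ : ℂ) ^ (-2 * s)) := fun s =>
    (differentiableAt_id.const_mul (-2 : ℂ)).const_cpow (Or.inl hzn)
  have hpol : Differentiable ℂ (fun s : ℂ => s * (s + 1) / 2) := by fun_prop
  have heq : Hc L z = fun s => (ctn hL).H z s := funext fun s => Hc_eq hL z s
  rw [heq]
  unfold Ctn.H
  have hE := (ctn hL).E_diff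
  have hF := (ctn hL).F_diff.mono hDH
  have hG := (ctn hL).G_diff.mono hDH
  have hG' := (ctn hL).G'_diff.mono hDH
  have hR := (Rem_diff hL hz).mono hDH
  exact (((hcp.differentiableOn.add hE).add (hF.const_mul _)).add
    (hpol.differentiableOn.mul ((hG.const_mul _).add (hG'.const_mul _)))).add hR

theorem Hc_hasSum (hL : IsLat L) {z : ℂ} (hz : z ∉ L) {s : ℂ} (hs : 1 < s.re) :
    HasSum (fun l : L => (‖z + (l : ℂ)‖ : ℂ) ^ (-2 * s)) (Hc L z s) := by
  have hs1 : 1 < (s + 1).re := by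
    rw [Complex.add_re, Complex.one_re]
    linarith
  have hE : (ctn hL).E s = E0 L s := ((ctn hL).E_sum s hs).tsum_eq.symm
  have hE1 : (ctn hL).E (s + 1) = E0 L (s + 1) := ((ctn hL).E_sum (s + 1) hs1).tsum_eq.symm
  have hF : (ctn hL).F s = s ^ 2 * E0 L (s + 1) := by rw [(ctn hL).F_eq s hs, hE1]
  have hG : (ctn hL).G s = G0 L s := ((ctn hL).G_sum s hs).tsum_eq.symm
  have hG' : (ctn hL).G' s = G1 L s := ((ctn hL).G'_sum s hs).tsum_eq.symm
  have h : Hc L z s = H0 L z s := by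
    rw [Hc_eq hL, H0_expand hL hz hs]
    unfold Ctn.H
    rw [hE, hF, hG, hG']
  rw [h]
  exact (sum_H hL z hs).hasSum

theorem isOpen_Dom : IsOpen Dom := by
  have h1 : IsOpen {s : ℂ | -1 / 2 < s.re} := isOpen_lt continuous_const Complex.continuous_re
  have h2 : IsOpen {s : ℂ | s ≠ 1} := isOpen_ne
  exact h1.inter h2

theorem zero_mem_Dom : (0 : ℂ) ∈ Dom := by
  exact ⟨by norm_num, by norm_num⟩

private theorem preconn_Dom : IsPreconnected Dom := by
  have c1 : Convex ℝ {s : ℂ | 1 < s.re} := convex_halfSpace_re_gt 1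
  have c2 : Convex ℝ ({s : ℂ | -1 / 2 < s.re} ∩ {s : ℂ | 0 < s.im}) :=
    (convex_halfSpace_re_gt _).inter (convex_halfSpace_im_gt _)
  have c3 : Convex ℝ ({s : ℂ | -1 / 2 < s.re} ∩ {s : ℂ | s.im < 0}) :=
    (convex_halfSpace_re_gt _).inter (convex_halfSpace_im_lt _)
  have c4 : Convex ℝ ({s : ℂ | -1 / 2 < s.re} ∩ {s : ℂ | s.re < 1}) :=
    (convex_halfSpace_re_gt _).inter (convex_halfSpace_re_lt _)
  have u1 := IsPreconnected.union (⟨2, 1⟩ : ℂ) (by show (1 : ℝ) < 2; norm_num)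
    (by constructor <;> simp <;> norm_num) c1.isPreconnected c2.isPreconnected
  have u2 := IsPreconnected.union (⟨2, -1⟩ : ℂ) (Or.inl (by show (1 : ℝ) < 2; norm_num))
    (by constructor <;> simp <;> norm_num) u1 c3.isPreconnected
  have u3 := IsPreconnected.union (⟨0, 1⟩ : ℂ) (Or.inl (Or.inr (by constructor <;> simp <;> norm_num)))
    (by constructor <;> simp <;> norm_num) u2 c4.isPreconnected
  convert u3 using 1
  ext s
  simp only [Dom, Set.mem_ofPred_eq, Set.mem_union, Set.mem_inter_iff]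
  constructor
  · rintro ⟨h1, h2⟩
    rcases lt_trichotomy s.im 0 with h | h | h
    · exact Or.inl (Or.inr ⟨h1, h⟩)
    · rcases lt_trichotomy s.re 1 with h' | h' | h'
      · exact Or.inr ⟨h1, h'⟩
      · exact absurd (Complex.ext h' h) h2
      · exact Or.inl (Or.inl (Or.inl h'))
    · exact Or.inl (Or.inl (Or.inr ⟨h1, h⟩))
  · rintro (((h | ⟨h1, h⟩) | ⟨h1, h⟩) | ⟨h1, h⟩)
    · exact ⟨by linarith, by rintro rfl; simp at h⟩
    · exact ⟨h1, by rintro rfl; simp at h⟩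
    · exact ⟨h1, by rintro rfl; simp at h⟩
    · exact ⟨h1, by rintro rfl; simp at h⟩

/-- identity theorem on `Dom` -/
theorem dom_ext {A B : ℂ → ℂ} (hA : DifferentiableOn ℂ A Dom) (hB : DifferentiableOn ℂ B Dom)
    (h : ∀ s : ℂ, 1 < s.re → A s = B s) : Set.EqOn A B Dom := by
  have hFa := hA.analyticOnNhd isOpen_Dom
  have hGa := hB.analyticOnNhd isOpen_Dom
  have h2 : (2 : ℂ) ∈ Dom := ⟨by norm_num, by norm_num⟩
  refine hFa.eqOn_of_preconnected_of_eventuallyEq hGa preconn_Dom h2 ?_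
  have h3 : {s : ℂ | 1 < s.re} ∈ nhds (2 : ℂ) :=
    (isOpen_lt continuous_const Complex.continuous_re).mem_nhds (by simp)
  filter_upwards [h3] with s hs
  exact h s hs

theorem dom_ext_deriv {A B : ℂ → ℂ} (hA : DifferentiableOn ℂ A Dom) (hB : DifferentiableOn ℂ B Dom)
    (h : ∀ s : ℂ, 1 < s.re → A s = B s) : deriv A 0 = deriv B 0 := by
  refine Filter.EventuallyEq.deriv_eq ?_
  filter_upwards [isOpen_Dom.mem_nhds zero_mem_Dom] with s hs
  exact dom_ext hA hB h hs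

end CMS
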