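import Mathlib
import Pool.Agent.Lib.CMS.HDefs
import Pool.Agent.Lib.CMS.HHc
import Pool.Agent.Lib.CMS.HRep

/-!
# HSym: functional properties of the lattice zeta function  (about 220 lines)

PROOF. All by `dom_ext` from the series `Hc_hasSum` for `Re s > 1` (`HasSum.unique`, `HasSum.tsum_eq`):
`Hc_add`: `m ↦ l + m` is a bijection of `L`.  `Hc_neg`: `m ↦ -m`.  `Hc_sc`: `sc c L` is `L` by `m ↦ c m`, `‖c z + c m‖^(-2s) = ‖c‖^(-2s) ‖z+m‖^(-2s)`.
`Hc_cj`: `m ↦ conj m`, the terms are equal.  `Hc_conj`: the function `s ↦ conj (Hc L z (conj s))` is differentiable on `Dom` (`Dom` is stable under conj), the terms satisfy `conj(x^(-2 conj s)) = x^(-2s)`, `x > 0`.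
`Hc_dist`: `H0_dist` (or `reps_equiv`) and `HasSum`; note `z + t ∉ L` since `z ∉ L'`.
`Hc_zero`: by `Hc_eq` and `Rem_zero`, `Hc L z 0 = |z|^0 + E(0) + |z|² F(0) + 0 + 0 = 1 + E(0) =: h` for every `z ∉ L` (`F_zero`).  Let `L' = 2⁻¹ L`, `z ∉ L'`: `Hc L' z 0 = Hc L (2z) 0 = h` by `Hc_sc` with
`c = 2⁻¹` (at `s = 0` the factor is `1`), and `Hc L' z 0 = ∑_{t ∈ S} Hc L (z+t) 0 = 4h` (`Hc_dist`, `reps_card_inv`).  So `h = 0`.
(a `z ∉ L'` exists: `countable_lat`; the statement for an arbitrary `z ∉ L` follows because `Hc L z 0 = h` for all `z ∉ L`).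
-/

set_option autoImplicit false

namespace CMS

open Complex MPd9f52e

variable {L L' : Submodule ℤ ℂ}

theorem Hc_add (hL : IsLat L) {z l : ℂ} (hz : z ∉ L) (hl : l ∈ L) : Set.EqOn (Hc L (z + l)) (Hc L z) Dom := by
  have hzl : z + l ∉ L := fun h => hz (by simpa using L.sub_mem h hl)
  refine dom_ext (Hc_diff hL hzl) (Hc_diff hL hz) fun s hs => ?_
  have h2 := (Equiv.hasSum_iff (Equiv.addLeft (⟨l, hl⟩ : L))).2 (Hc_hasSum hL hz hs)
  refine (Hc_hasSum hL hzl hs).unique ?_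
  convert h2 using 2 with m
  simp [add_assoc]

theorem Hc_neg (hL : IsLat L) {z : ℂ} (hz : z ∉ L) : Set.EqOn (Hc L (-z)) (Hc L z) Dom := by
  have hzl : -z ∉ L := fun h => hz (by simpa using L.neg_mem h)
  refine dom_ext (Hc_diff hL hzl) (Hc_diff hL hz) fun s hs => ?_
  have h2 := (Equiv.hasSum_iff (Equiv.neg L)).2 (Hc_hasSum hL hz hs)
  refine (Hc_hasSum hL hzl hs).unique ?_
  convert h2 using 2 with m
  have e : ‖-z + (m : ℂ)‖ = ‖z + ((Equiv.neg L m : L) : ℂ)‖ := by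
    rw [← norm_neg]
    congr 1
    simp
    ring
  simp only [Function.comp_apply, e]

theorem Hc_sc (hL : IsLat L) {c z : ℂ} (hc : c ≠ 0) (hz : z ∉ L) :
    Set.EqOn (Hc (sc c L) (c * z)) (fun s => (‖c‖ : ℂ) ^ (-2 * s) * Hc L z s) Dom := by
  have hL' := isLat_sc hL hc
  have hz' : c * z ∉ sc c L := fun h => hz ((mem_sc_iff hc).1 h)
  have hc' : (‖c‖ : ℂ) ≠ 0 := by
    rw [Ne, ofReal_eq_zero, norm_eq_zero]
    exact hc
  refine dom_ext (Hc_diff hL' hz') ?_ fun s hs => ?_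
  · refine DifferentiableOn.mul ?_ (Hc_diff hL hz)
    have h1 : DifferentiableOn ℂ (fun s : ℂ => -2 * s) Dom :=
      (differentiableOn_id.const_mul (-2 : ℂ))
    exact h1.const_cpow (Or.inl hc')
  · let e : L ≃ sc c L := Equiv.ofBijective (fun m => ⟨c * m, (mem_sc_iff hc).2 m.2⟩) (by
      constructor
      · intro a b hab
        have h1 : c * (a : ℂ) = c * (b : ℂ) := congrArg Subtype.val hab
        exact Subtype.ext (mul_left_cancel₀ hc h1)
      · rintro ⟨w, hw⟩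
        obtain ⟨l, hl, rfl⟩ := mem_sc.1 hw
        exact ⟨⟨l, hl⟩, rfl⟩)
    have h2 := (Equiv.hasSum_iff e).2 (Hc_hasSum hL' hz' hs)
    have h3 := (Hc_hasSum hL hz hs).mul_left ((‖c‖ : ℂ) ^ (-2 * s))
    have hf : ((fun l : sc c L => (‖c * z + (l : ℂ)‖ : ℂ) ^ (-2 * s)) ∘ e) =
        fun m : L => (‖c‖ : ℂ) ^ (-2 * s) * (‖z + (m : ℂ)‖ : ℂ) ^ (-2 * s) := by
      funext m
      have h4 : ‖c * z + ((e m : sc c L) : ℂ)‖ = ‖c‖ * ‖z + (m : ℂ)‖ := by
        have h5 : c * z + ((e m : sc c L) : ℂ) = c * (z + (m : ℂ)) := by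
          change c * z + c * (m : ℂ) = _
          ring
        rw [h5, norm_mul]
      simp only [Function.comp_apply, h4]
      rw [ofReal_mul, mul_cpow_ofReal_nonneg (norm_nonneg _) (norm_nonneg _)]
    rw [hf] at h2
    exact h2.unique h3

theorem Hc_cj (hL : IsLat L) {z : ℂ} (hz : z ∉ L) : Set.EqOn (Hc (cjL L) ((starRingEnd ℂ) z)) (Hc L z) Dom := by
  have hL' := isLat_cjL hL
  have hz' : (starRingEnd ℂ) z ∉ cjL L := fun h => hz (by
    have := mem_cjL.1 h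
    rwa [conj_conj] at this)
  refine dom_ext (Hc_diff hL' hz') (Hc_diff hL hz) fun s hs => ?_
  let e : L ≃ cjL L := Equiv.ofBijective (fun m => ⟨(starRingEnd ℂ) m, mem_cjL.2 (by
      rw [conj_conj]
      exact m.2)⟩) (by
    constructor
    · intro a b hab
      have h1 : (starRingEnd ℂ) (a : ℂ) = (starRingEnd ℂ) (b : ℂ) := congrArg Subtype.val hab
      exact Subtype.ext ((starRingEnd ℂ).injective h1)
    · rintro ⟨w, hw⟩
      exact ⟨⟨(starRingEnd ℂ) w, mem_cjL.1 hw⟩, Subtype.ext (conj_conj w)⟩)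
  have h2 := (Equiv.hasSum_iff e).2 (Hc_hasSum hL' hz' hs)
  refine h2.unique ?_
  convert Hc_hasSum hL hz hs using 2 with m
  have h4 : ‖(starRingEnd ℂ) z + ((e m : cjL L) : ℂ)‖ = ‖z + (m : ℂ)‖ := by
    have h5 : (starRingEnd ℂ) z + ((e m : cjL L) : ℂ) = (starRingEnd ℂ) (z + (m : ℂ)) := by
      rw [map_add]
      rfl
    rw [h5, RCLike.norm_conj]
  simp only [Function.comp_apply, h4]

theorem Hc_conj (hL : IsLat L) {z : ℂ} (hz : z ∉ L) {s : ℂ} (hs : s ∈ Dom) :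
    Hc L z ((starRingEnd ℂ) s) = (starRingEnd ℂ) (Hc L z s) := by
  have hDom : ∀ s ∈ Dom, (starRingEnd ℂ) s ∈ Dom := by
    intro s hs
    refine ⟨by rw [conj_re]; exact hs.1, fun h => hs.2 ?_⟩
    have := congrArg (starRingEnd ℂ) h
    rwa [conj_conj, map_one] at this
  have key : Set.EqOn (fun s => (starRingEnd ℂ) (Hc L z ((starRingEnd ℂ) s))) (Hc L z) Dom := by
    refine dom_ext ?_ (Hc_diff hL hz) fun s hs => ?_
    · intro s hs
      have h1 : DifferentiableAt ℂ (Hc L z) ((starRingEnd ℂ) s) :=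
        (Hc_diff hL hz).differentiableAt (isOpen_Dom.mem_nhds (hDom s hs))
      have h2 := h1.conj_conj
      rw [conj_conj] at h2
      exact h2.differentiableWithinAt
    · have h1 := Hc_hasSum hL hz (s := (starRingEnd ℂ) s) (by rwa [conj_re])
      have h2 := h1.map (starRingEnd ℂ) continuous_conj
      refine HasSum.unique ?_ (Hc_hasSum hL hz hs)
      convert h2 using 2 with m
      simp only [Function.comp_apply]
      have h3 : (starRingEnd ℂ) (-2 * s) = -2 * (starRingEnd ℂ) s := by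
        rw [map_mul, map_neg, map_ofNat]
      rw [← h3, cpow_conj _ _ (by
        rw [arg_ofReal_of_nonneg (norm_nonneg _)]
        exact Real.pi_pos.ne), conj_conj, conj_ofReal]
  have h1 := key hs
  have h2 := congrArg (starRingEnd ℂ) h1
  simpa using h2

theorem Hc_dist (hL : IsLat L) (hL' : IsLat L') (h : L ≤ L') {S : Finset ℂ} (hS : IsReps L L' S) {z : ℂ} (hz : z ∉ L') :
    Set.EqOn (Hc L' z) (fun s => ∑ t ∈ S, Hc L (z + t) s) Dom := by
  have hzt : ∀ t ∈ S, z + t ∉ L := fun t ht h' => hz (by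
    simpa using L'.sub_mem (h h') (hS.2.1 t ht))
  refine dom_ext (Hc_diff hL' hz) ?_ fun s hs => ?_
  · exact DifferentiableOn.fun_sum fun t ht => Hc_diff hL (hzt t ht)
  · have h1 : Hc L' z s = H0 L' z s := (Hc_hasSum hL' hz hs).tsum_eq.symm
    rw [h1, H0_dist hL hL' h hS z hs]
    exact Finset.sum_congr rfl fun t ht => (Hc_hasSum hL (hzt t ht) hs).tsum_eq

theorem Hc_zero (hL : IsLat L) {z : ℂ} (hz : z ∉ L) : Hc L z 0 = 0 := by
  have h0 : ∀ z, z ∉ L → Hc L z 0 = 1 + (ctn hL).E 0 := by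
    intro z hz
    rw [Hc_eq hL]
    unfold Ctn.H
    rw [Rem_zero hL hz, (ctn hL).F_zero]
    simp
  have hc : (((2 : ℕ) : ℂ)⁻¹) ≠ 0 := by norm_num
  have hL' := isLat_sc hL hc
  have hle := le_sc_inv (N := 2) (by norm_num) L
  obtain ⟨S, hS⟩ := exists_reps hL hL' hle
  have hcard := reps_card_inv hL (N := 2) (by norm_num) hS
  obtain ⟨w, hw⟩ : ∃ w : ℂ, w ∉ sc (((2 : ℕ) : ℂ)⁻¹) L := by
    by_contra hcon
    push Not at hcon
    apply not_countable_complex
    refine (countable_lat hL').mono fun w _ => hcon w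
  have h1 : Hc (sc (((2 : ℕ) : ℂ)⁻¹) L) w 0 = 4 * (1 + (ctn hL).E 0) := by
    have h2 := Hc_dist hL hL' hle hS hw zero_mem_Dom
    have h3 : ∀ t ∈ S, Hc L (w + t) 0 = 1 + (ctn hL).E 0 := fun t ht => h0 _ fun h' => hw (by
      simpa using (sc (((2 : ℕ) : ℂ)⁻¹) L).sub_mem (hle h') (hS.2.1 t ht))
    rw [h2]
    simp only
    rw [Finset.sum_congr rfl h3, Finset.sum_const, hcard, nsmul_eq_mul]
    push_cast
    ring
  have hw2 : (2 : ℂ) * w ∉ L := fun h' => hw (by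
    have h2 := (mem_sc_iff hc).2 h'
    have e : (((2 : ℕ) : ℂ)⁻¹) * (2 * w) = w := by
      push_cast
      ring
    rwa [e] at h2)
  have h4 : Hc (sc (((2 : ℕ) : ℂ)⁻¹) L) w 0 = 1 + (ctn hL).E 0 := by
    have h2 := Hc_sc hL hc hw2 zero_mem_Dom
    have e : (((2 : ℕ) : ℂ)⁻¹) * (2 * w) = w := by
      push_cast
      ring
    rw [e] at h2
    rw [h2]
    simp only
    rw [h0 _ hw2, mul_zero, cpow_zero, one_mul]
  rw [h0 z hz]
  have h5 : 4 * (1 + (ctn hL).E 0) = 1 + (ctn hL).E 0 := h1.symm.trans h4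
  linear_combination (1 / 3 : ℂ) * h5

end CMS
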