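import Mathlib
import Pool.Agent.Lib.CMS.HDefs
import Pool.Agent.Lib.CMS.HSum
import Pool.Agent.Lib.CMS.HRem
import Pool.Agent.Lib.CMS.HE
import Pool.Agent.Lib.CMS.HHc
import Pool.Agent.Lib.CMS.HSym
import Pool.Agent.Lib.MP_d9f52e_nt.HTay

/-!
# HDer: the derivative of the lattice zeta function at 0  (about 240 lines)

PROOF. Adapt Lib/MP_d9f52e_nt/HDer.lean (there the lattice is `ec(Eis)`).  For `l ≠ 0`, `z + l ≠ 0`, `x = z/l`: `d/ds remT z s l` at `s = 0` is
`-2 log|z+l| + 2 log|l| + (x + x') - (x² + x'²)/2 = -2 log ‖(1+x) exp(-x + x²/2)‖ = -2 log ‖sigF z l‖` (see `remT_deriv` in HTay.lean, stated there for `l = ec l`: redo for `l : ℂ`).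
The derivative of the sum `Rem L z` at `0` is the sum of the derivatives (locally uniform convergence of analytic functions, `hasSum_deriv_of_summable_norm` / as in HDer.lean `rem_hasSum`).
`Hc_eq`: `Ctn.H = |z|^{-2s} + E + |z|² F + (s(s+1)/2)(z² G + z'² G') + Rem`; derivatives at `0`: `-2 log|z|`, `E'(0)`, `|z|² r0` (`F_deriv`), `(1/2)(z² G(0) + z'² G'(0)) = Re(z² G(0))` (`G'_zero`), and
`∑ -2 log ‖sigF z l‖`.  `E'(0)` is real: `E(conj s) = conj E(s)` on `Dom` by `dom_ext` (`E_sum`, real terms), so the derivative at the real point `0` is real (or: `Hc_conj` and the other terms are real).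
-/

set_option autoImplicit false

namespace CMS

open Complex MPd9f52e

variable {L : Submodule ℤ ℂ}

private theorem hd_br (s x : ℂ) : br s x = 1 - s * (x + (starRingEnd ℂ) x) +
    s * (s + 1) / 2 * (x ^ 2 + (starRingEnd ℂ) x ^ 2) + s ^ 2 * (x * (starRingEnd ℂ) x) := rfl

private theorem hd_remT {z l : ℂ} (hl' : l ≠ 0) (hz : z + l ≠ 0) :
    HasDerivAt (fun s => remT z s l) ((-2 * Real.log ‖sigF z l‖ : ℝ) : ℂ) 0 := by
  have n1 : (0 : ℝ) < ‖l‖ := norm_pos_iff.2 hl'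
  have n2 : (0 : ℝ) < ‖z + l‖ := norm_pos_iff.2 hz
  set x : ℂ := z / l with hx
  set x' : ℂ := (starRingEnd ℂ) x with hx'
  have c1 : (‖l‖ : ℂ) ≠ 0 := by exact_mod_cast n1.ne'
  have c2 : (‖z + l‖ : ℂ) ≠ 0 := by exact_mod_cast n2.ne'
  have d1 : HasDerivAt (fun s : ℂ => -2 * s) (-2) 0 := by
    simpa using (hasDerivAt_id (0 : ℂ)).const_mul (-2 : ℂ)
  have d2 : HasDerivAt (fun s : ℂ => (‖z + l‖ : ℂ) ^ (-2 * s))
      ((‖z + l‖ : ℂ) ^ (-2 * (0 : ℂ)) * Complex.log (‖z + l‖ : ℂ) * (-2)) 0 :=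
    d1.const_cpow (Or.inl c2)
  have d3 : HasDerivAt (fun s : ℂ => (‖l‖ : ℂ) ^ (-2 * s))
      ((‖l‖ : ℂ) ^ (-2 * (0 : ℂ)) * Complex.log (‖l‖ : ℂ) * (-2)) 0 :=
    d1.const_cpow (Or.inl c1)
  have i0 : HasDerivAt (fun s : ℂ => s) 1 0 := hasDerivAt_id 0
  have d4 : HasDerivAt (fun s : ℂ => br s x) (-(x + x') + (x ^ 2 + x' ^ 2) / 2) 0 := by
    have a1 := (i0.mul_const (x + x')).const_sub 1
    have a2 := ((i0.mul (i0.add_const 1)).div_const 2).mul_const (x ^ 2 + x' ^ 2)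
    have a3 := (i0.pow 2).mul_const (x * x')
    have a4 := (a1.add a2).add a3
    refine (a4.congr_deriv ?_).congr_of_eventuallyEq ?_
    · simp
      ring
    · filter_upwards with s
      simp only [hd_br, Pi.add_apply, Pi.mul_apply, Pi.pow_apply, ← hx']
  have d5 := d2.sub (d3.mul d4)
  refine (d5.congr_deriv ?_).congr_of_eventuallyEq ?_
  · have hb : br 0 x = 1 := by rw [hd_br]; simp
    have hx1 : ‖z + l‖ = ‖l‖ * ‖1 + x‖ := by
      rw [← norm_mul, hx]
      congr 1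
      field_simp
      ring
    have n3 : (0 : ℝ) < ‖1 + x‖ := by
      rw [hx1] at n2
      exact (pos_iff_pos_of_mul_pos n2).1 n1
    have hs : ‖sigF z l‖ = ‖1 + x‖ * Real.exp (-x.re + (x ^ 2).re / 2) := by
      unfold sigF
      rw [norm_mul, Complex.norm_exp, ← hx]
      congr 2
      have : z ^ 2 / (2 * l ^ 2) = x ^ 2 / 2 := by
        rw [hx, div_pow]; field_simp
      rw [this]
      simp
    have hlog : Real.log ‖sigF z l‖ = Real.log ‖1 + x‖ + (-x.re + (x ^ 2).re / 2) := by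
      rw [hs, Real.log_mul n3.ne' (Real.exp_pos _).ne', Real.log_exp]
    rw [hlog, hb, ← Complex.ofReal_log n1.le, ← Complex.ofReal_log n2.le, hx1,
      Real.log_mul n1.ne' n3.ne']
    have e1 : x + x' = ((2 * x.re : ℝ) : ℂ) := by rw [hx']; exact Complex.add_conj x
    have e2 : x ^ 2 + x' ^ 2 = ((2 * (x ^ 2).re : ℝ) : ℂ) := by
      rw [hx', ← map_pow]; exact Complex.add_conj (x ^ 2)
    rw [e1, e2]
    simp only [mul_zero, Complex.cpow_zero]
    push_cast
    ring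
  · filter_upwards with s
    simp only [Pi.sub_apply, Pi.mul_apply]
    unfold remT
    rw [hd_br, ← hx]

/-- only finitely many lattice points are small -/
private theorem hd_large (hL : IsLat L) (M : ℝ) : ∀ᶠ l : L in Filter.cofinite, M ≤ ‖(l : ℂ)‖ := by
  rw [Filter.eventually_cofinite]
  refine (fin_le hL M).subset fun l hl => ?_
  exact (not_le.1 hl).le

private theorem hd_add_ne {z : ℂ} (hz : z ∉ L) (l : L) : z + (l : ℂ) ≠ 0 := by
  intro h
  apply hz
  have h1 : z = -(l : ℂ) := by linear_combination h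
  rw [h1]
  exact L.neg_mem l.2

/-- the terms of `Rem` -/
private noncomputable def fT (z : ℂ) (l : L) (s : ℂ) : ℂ := if (l : ℂ) = 0 then 0 else remT z s l

private theorem fT_diff {z : ℂ} (hz : z ∉ L) (l : L) : Differentiable ℂ (fT z l) := by
  by_cases h : (l : ℂ) = 0
  · have : fT z l = fun _ => 0 := by funext s; simp [fT, h]
    rw [this]
    exact differentiable_const _
  · have : fT z l = fun s => remT z s (l : ℂ) := by funext s; simp [fT, h]
    rw [this]
    exact remT_diff h (hd_add_ne hz l)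

private theorem fT_deriv {z : ℂ} (hz : z ∉ L) (l : L) :
    deriv (fT z l) 0 = ((-2 * (if (l : ℂ) = 0 then (0 : ℝ) else Real.log ‖sigF z l‖) : ℝ) : ℂ) := by
  by_cases h : (l : ℂ) = 0
  · have : fT z l = fun _ => 0 := by funext s; simp [fT, h]
    rw [this]
    simp [h]
  · have : fT z l = fun s => remT z s (l : ℂ) := by funext s; simp [fT, h]
    rw [this, if_neg h]
    exact (hd_remT h (hd_add_ne hz l)).deriv

private theorem hd_hasSum (hL : IsLat L) {z : ℂ} (hz : z ∉ L) :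
    HasSum (fun l : L => ((-2 * (if (l : ℂ) = 0 then (0 : ℝ) else Real.log ‖sigF z l‖) : ℝ) : ℂ))
      (deriv (Rem L z) 0) := by
  obtain ⟨C, hC, hB⟩ := remT_bound z (1 / 4)
  have hbd : ∀ l : L, ∃ M : ℝ, ∀ s ∈ Metric.closedBall (0 : ℂ) (1 / 4), ‖fT z l s‖ ≤ M := fun l =>
    (isCompact_closedBall (0 : ℂ) (1 / 4)).exists_bound_of_continuousOn
      (fT_diff hz l).continuous.continuousOn
  choose M hM using hbd
  classical
  let u : L → ℝ := fun l => if 2 * ‖z‖ + 1 ≤ ‖(l : ℂ)‖ then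
    C * (if (l : ℂ) = 0 then (0 : ℝ) else ‖(l : ℂ)‖ ^ (-(5 / 2 : ℝ))) else M l
  have hu : Summable u := by
    have h1 : Summable fun l : L => C * (if (l : ℂ) = 0 then (0 : ℝ) else ‖(l : ℂ)‖ ^ (-(5 / 2 : ℝ))) :=
      (sum_norm hL (p := 5 / 2) (by norm_num)).mul_left C
    refine h1.congr_cofinite ?_
    filter_upwards [hd_large hL (2 * ‖z‖ + 1)] with l hl
    simp only [u]
    rw [if_pos hl]
  have hF : ∀ (l : L), ∀ s ∈ Metric.ball (0 : ℂ) (1 / 4), ‖fT z l s‖ ≤ u l := by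
    intro l s hs
    simp only [u]
    by_cases h : 2 * ‖z‖ + 1 ≤ ‖(l : ℂ)‖
    · have h1l : 1 ≤ ‖(l : ℂ)‖ := by linarith [norm_nonneg z]
      have h0 : (l : ℂ) ≠ 0 := by
        intro h0
        rw [h0, norm_zero] at h1l
        linarith
      rw [if_pos h, if_neg h0]
      have hs' : ‖s‖ ≤ 1 / 4 := by
        rw [Metric.mem_ball, dist_zero_right] at hs
        exact hs.le
      have h1 : fT z l s = remT z s (l : ℂ) := by simp [fT, h0]
      rw [h1]
      refine (hB s hs' (l : ℂ) h0 (by linarith)).trans (mul_le_mul_of_nonneg_left ?_ hC)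
      refine Real.rpow_le_rpow_of_exponent_le h1l ?_
      have h2 : |s.re| ≤ 1 / 4 := (Complex.abs_re_le_norm s).trans hs'
      have h3 := (abs_le.1 h2).1
      linarith
    · rw [if_neg h]
      exact hM l s (Metric.ball_subset_closedBall hs)
  have key := hasSum_deriv_of_summable_norm (U := Metric.ball (0 : ℂ) (1 / 4)) (z := 0)
    (F := fT z) hu (fun l => (fT_diff hz l).differentiableOn) Metric.isOpen_ball hF
    (Metric.mem_ball_self (by norm_num))
  have h1 : (fun l => deriv (fT z l) 0) =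
      fun l : L => ((-2 * (if (l : ℂ) = 0 then (0 : ℝ) else Real.log ‖sigF z l‖) : ℝ) : ℂ) := by
    funext l
    exact fT_deriv hz l
  rw [h1] at key
  exact key

theorem logF_summable (hL : IsLat L) {z : ℂ} (hz : z ∉ L) :
    Summable (fun l : L => if (l : ℂ) = 0 then (0 : ℝ) else Real.log ‖sigF z l‖) := by
  have h1 := (hd_hasSum hL hz).summable
  rw [Complex.summable_ofReal] at h1
  have h2 := h1.mul_left (-1 / 2)
  refine h2.congr fun l => ?_
  ring

/-- the derivative of `E` at `0` is real -/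
private theorem hd_real (hL : IsLat L) : deriv (ctn hL).E 0 = ((deriv (ctn hL).E 0).re : ℂ) := by
  have h1 : ∀ s : ℂ, 1 < s.re → (ctn hL).E s = E0 L s := fun s hs =>
    ((ctn hL).E_sum s hs).tsum_eq.symm
  have hD : ∀ s : ℂ, s ∈ Dom → (starRingEnd ℂ) s ∈ Dom := by
    intro s hs
    refine ⟨by rw [Complex.conj_re]; exact hs.1, fun h => hs.2 ?_⟩
    have h2 := congrArg (starRingEnd ℂ) h
    rwa [Complex.conj_conj, map_one] at h2
  have hdiff : ∀ s ∈ Dom, DifferentiableAt ℂ (ctn hL).E s := fun s hs =>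
    (ctn hL).E_diff.differentiableAt (isOpen_Dom.mem_nhds hs)
  have hB : ∀ s ∈ Dom, HasDerivAt (fun s => (starRingEnd ℂ) ((ctn hL).E ((starRingEnd ℂ) s)))
      ((starRingEnd ℂ) (deriv (ctn hL).E ((starRingEnd ℂ) s))) s := by
    intro s hs
    have h2 := (hdiff _ (hD s hs)).hasDerivAt.conj_conj
    rw [Complex.conj_conj] at h2
    exact h2
  have h2 := dom_ext_deriv (A := (ctn hL).E)
    (B := fun s => (starRingEnd ℂ) ((ctn hL).E ((starRingEnd ℂ) s))) (ctn hL).E_diff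
    (fun s hs => (hB s hs).differentiableAt.differentiableWithinAt) (by
      intro s hs
      rw [h1 s hs, h1 _ (by rw [Complex.conj_re]; exact hs), E0_conj, Complex.conj_conj])
  rw [(hB 0 zero_mem_Dom).deriv, map_zero] at h2
  exact (Complex.conj_eq_iff_real.1 h2.symm).elim fun r hr => by rw [hr, Complex.ofReal_re]

theorem Hc_deriv (hL : IsLat L) {z : ℂ} (hz : z ∉ L) :
    HasDerivAt (Hc L z) (((-2 * Real.log ‖z‖ + (deriv (ctn hL).E 0).re + (ctn hL).r0 * ‖z‖ ^ 2 +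
      (z ^ 2 * (ctn hL).G 0).re - 2 * ∑' l : L, (if (l : ℂ) = 0 then (0 : ℝ) else Real.log ‖sigF z l‖) : ℝ) : ℂ)) 0 := by
  have hz0 : z ≠ 0 := fun h => hz (by rw [h]; exact zero_mem _)
  have hzn : (‖z‖ : ℂ) ≠ 0 := by
    rw [Ne, Complex.ofReal_eq_zero, norm_eq_zero]
    exact hz0
  have hHP : HP (-1 / 2) ∈ nhds (0 : ℂ) := by
    have hopen : IsOpen (HP (-1 / 2)) := isOpen_lt continuous_const Complex.continuous_re
    refine hopen.mem_nhds ?_
    show (-1 / 2 : ℝ) < (0 : ℂ).re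
    rw [Complex.zero_re]
    norm_num
  -- the first term
  have h1 : HasDerivAt (fun s : ℂ => (‖z‖ : ℂ) ^ (-2 * s)) ((-2 * Real.log ‖z‖ : ℝ) : ℂ) 0 := by
    have h2 : HasDerivAt (fun s : ℂ => -2 * s) (-2) 0 := by
      simpa using (hasDerivAt_id (0 : ℂ)).const_mul (-2)
    have h3 := h2.const_cpow (c := (‖z‖ : ℂ)) (Or.inl hzn)
    refine h3.congr_deriv ?_
    rw [mul_zero, Complex.cpow_zero, one_mul, ← Complex.ofReal_log (norm_nonneg z)]
    push_cast
    ring
  have h2 : HasDerivAt (ctn hL).E (((deriv (ctn hL).E 0).re : ℝ) : ℂ) 0 := by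
    have h3 := ((ctn hL).E_diff.differentiableAt (isOpen_Dom.mem_nhds zero_mem_Dom)).hasDerivAt
    rwa [hd_real hL] at h3
  have h3 : HasDerivAt (fun s : ℂ => (‖z‖ : ℂ) ^ 2 * (ctn hL).F s)
      (((ctn hL).r0 * ‖z‖ ^ 2 : ℝ) : ℂ) 0 := by
    refine ((ctn hL).F_deriv.const_mul ((‖z‖ : ℂ) ^ 2)).congr_deriv ?_
    push_cast
    ring
  have h4 : HasDerivAt (fun s : ℂ => s * (s + 1) / 2 *
      (z ^ 2 * (ctn hL).G s + (starRingEnd ℂ) z ^ 2 * (ctn hL).G' s))
      (((z ^ 2 * (ctn hL).G 0).re : ℝ) : ℂ) 0 := by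
    have i0 : HasDerivAt (fun s : ℂ => s) 1 0 := hasDerivAt_id 0
    have a1 := (i0.mul (i0.add_const 1)).div_const 2
    have a2 := (((ctn hL).G_diff.differentiableAt hHP).hasDerivAt).const_mul (z ^ 2)
    have a3 := (((ctn hL).G'_diff.differentiableAt hHP).hasDerivAt).const_mul ((starRingEnd ℂ) z ^ 2)
    have a4 := a1.mul (a2.add a3)
    refine (a4.congr_deriv ?_).congr_of_eventuallyEq ?_
    · have e1 : z ^ 2 * (ctn hL).G 0 + (starRingEnd ℂ) z ^ 2 * (ctn hL).G' 0 =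
          ((2 * (z ^ 2 * (ctn hL).G 0).re : ℝ) : ℂ) := by
        rw [(ctn hL).G'_zero, ← map_pow, ← map_mul]
        exact Complex.add_conj _
      simp only [Pi.add_apply, Pi.mul_apply]
      rw [e1]
      push_cast
      ring
    · filter_upwards with s
      simp only [Pi.add_apply, Pi.mul_apply]
  have h5 : HasDerivAt (Rem L z) (deriv (Rem L z) 0) 0 :=
    ((Rem_diff hL hz).differentiableAt hHP).hasDerivAt
  have h6 : deriv (Rem L z) 0 =
      ((-2 * ∑' l : L, (if (l : ℂ) = 0 then (0 : ℝ) else Real.log ‖sigF z l‖) : ℝ) : ℂ) := by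
    rw [← (hd_hasSum hL hz).tsum_eq, ← Complex.ofReal_tsum, tsum_mul_left]
  rw [h6] at h5
  have h7 := (((h1.add h2).add h3).add h4).add h5
  have h8 : (Hc L z) = (((((fun s : ℂ => (‖z‖ : ℂ) ^ (-2 * s)) + (ctn hL).E) +
      fun s : ℂ => (‖z‖ : ℂ) ^ 2 * (ctn hL).F s) +
      fun s : ℂ => s * (s + 1) / 2 *
        (z ^ 2 * (ctn hL).G s + (starRingEnd ℂ) z ^ 2 * (ctn hL).G' s)) + Rem L z) := by
    funext s
    rw [Hc_eq hL]
    simp only [Ctn.H, Pi.add_apply]
  rw [h8]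
  refine h7.congr_deriv ?_
  push_cast
  ring

end CMS
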