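import Mathlib
import Pool.Agent.Lib.CMS.HDefs
import Pool.Agent.Lib.CMS.HSum

/-!
# HSig: the Weierstrass sigma function  (about 260 lines)

PROOF. Adapt Lib/MP_d9f52e_nt/SSig.lean (there the lattice is `ec(Eis)`; `sigF z l` is the same function for `l ≠ 0`).  `‖sigF z l - 1‖ ≤ 100 ‖z/l‖³` for `‖z‖ ≤ ‖l‖`, `∑ ‖l‖^{-3}` converges
(`sum_norm`): the product converges locally uniformly to an entire function `PP`, nonzero off `L` (and at `0`: `PP(0) = 1`), `sigma L z = z PP(z)`.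
Zeros: a factor `sigF z l` vanishes iff `z = -l`; `sigma L z = 0` iff some factor vanishes or `z = 0` (as in SSig `sigma_eq_zero`).
`sigma_log`: `log` of the absolute value of the product (as in SSig).
-/

set_option autoImplicit false

namespace CMS

open Complex MPd9f52e

variable {L : Submodule ℤ ℂ}

private noncomputable def EE (x : ℂ) : ℂ := (1 + x) * Complex.exp (-x + x ^ 2 / 2)

private lemma EE_bound {x : ℂ} (hx : ‖x‖ ≤ 1) : ‖EE x - 1‖ ≤ 100 * ‖x‖ ^ 3 := by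
  have hx0 : 0 ≤ ‖x‖ := norm_nonneg x
  set y : ℂ := -x + x ^ 2 / 2 with hy
  have hyn : ‖y‖ ≤ 3 / 2 * ‖x‖ := by
    calc ‖y‖ ≤ ‖-x‖ + ‖x ^ 2 / 2‖ := norm_add_le _ _
      _ = ‖x‖ + ‖x‖ ^ 2 / 2 := by rw [norm_neg, norm_div, norm_pow]; norm_num
      _ ≤ 3 / 2 * ‖x‖ := by nlinarith
  have hy1 : ‖y‖ ≤ 3 / 2 := by nlinarith
  have hexp := norm_exp_sub_sum_le_norm_mul_exp y 3
  have hsum : ∑ m ∈ Finset.range 3, y ^ m / (m.factorial : ℂ) = 1 + y + y ^ 2 / 2 := by
    simp [Finset.sum_range_succ, Nat.factorial]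
  rw [hsum] at hexp
  have he : Real.exp ‖y‖ ≤ 9 / 2 := by
    have h1 : Real.exp (3 / 2) ≤ 9 / 2 := by
      have h2 := Real.exp_one_lt_d9
      have h3 : Real.exp (3 / 2) ^ 2 = Real.exp 1 ^ 3 := by
        rw [← Real.exp_nat_mul, ← Real.exp_nat_mul]
        norm_num
      have h4 : Real.exp 1 ^ 3 ≤ (2.72 : ℝ) ^ 3 := by
        apply pow_le_pow_left₀ (Real.exp_pos 1).le
        linarith
      have h5 : Real.exp (3 / 2) ^ 2 ≤ (9 / 2 : ℝ) ^ 2 := by
        rw [h3]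
        refine h4.trans ?_
        norm_num
      exact (pow_le_pow_iff_left₀ (Real.exp_pos _).le (by norm_num) (by norm_num)).1 h5
    exact (Real.exp_le_exp.2 hy1).trans h1
  have hR : ‖Complex.exp y - (1 + y + y ^ 2 / 2)‖ ≤ 16 * ‖x‖ ^ 3 := by
    refine hexp.trans ?_
    have h1 : ‖y‖ ^ 3 ≤ (3 / 2 * ‖x‖) ^ 3 := pow_le_pow_left₀ (norm_nonneg _) hyn 3
    calc ‖y‖ ^ 3 * Real.exp ‖y‖ ≤ (3 / 2 * ‖x‖) ^ 3 * (9 / 2) :=
          mul_le_mul h1 he (Real.exp_pos _).le (by positivity)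
      _ ≤ 16 * ‖x‖ ^ 3 := by
          have : 0 ≤ ‖x‖ ^ 3 := by positivity
          nlinarith
  have hid : EE x - 1 = (1 + x) * (Complex.exp y - (1 + y + y ^ 2 / 2)) +
      x ^ 3 * (1 / 2 - 3 / 8 * x + x ^ 2 / 8) := by
    rw [EE, hy]
    ring
  have h1x : ‖1 + x‖ ≤ 2 := (norm_add_le _ _).trans (by rw [norm_one]; linarith)
  have h2x : ‖(1 / 2 - 3 / 8 * x + x ^ 2 / 8 : ℂ)‖ ≤ 1 := by
    calc ‖(1 / 2 - 3 / 8 * x + x ^ 2 / 8 : ℂ)‖ ≤ ‖(1 / 2 - 3 / 8 * x : ℂ)‖ + ‖x ^ 2 / 8‖ := norm_add_le _ _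
      _ ≤ ‖(1 / 2 : ℂ)‖ + ‖(3 / 8 * x : ℂ)‖ + ‖x ^ 2 / 8‖ := by
          gcongr
          exact norm_sub_le _ _
      _ = 1 / 2 + 3 / 8 * ‖x‖ + ‖x‖ ^ 2 / 8 := by
          simp only [norm_mul, norm_div, norm_pow]
          norm_num
      _ ≤ 1 := by nlinarith
  rw [hid]
  calc ‖(1 + x) * (Complex.exp y - (1 + y + y ^ 2 / 2)) + x ^ 3 * (1 / 2 - 3 / 8 * x + x ^ 2 / 8)‖
      ≤ ‖(1 + x) * (Complex.exp y - (1 + y + y ^ 2 / 2))‖ + ‖x ^ 3 * (1 / 2 - 3 / 8 * x + x ^ 2 / 8)‖ :=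
        norm_add_le _ _
    _ ≤ 2 * (16 * ‖x‖ ^ 3) + ‖x‖ ^ 3 * 1 := by
        rw [norm_mul, norm_mul, norm_pow]
        gcongr
    _ ≤ 100 * ‖x‖ ^ 3 := by
        have : 0 ≤ ‖x‖ ^ 3 := by positivity
        linarith

/-- the factors of the product -/
private noncomputable def sF (L : Submodule ℤ ℂ) (z : ℂ) (l : L) : ℂ :=
  if (l : ℂ) = 0 then 1 else sigF z l

private lemma sF_eq {z : ℂ} {l : L} (hl : (l : ℂ) ≠ 0) : sF L z l = EE (z / l) := by
  rw [sF, if_neg hl, sigF, EE]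
  congr 2
  field_simp

private noncomputable def uu (L : Submodule ℤ ℂ) (R : ℝ) (l : L) : ℝ :=
  (100 * R ^ 3) * (if (l : ℂ) = 0 then (0 : ℝ) else ‖(l : ℂ)‖ ^ (-(3 : ℝ)))

private lemma uu_summable (hL : IsLat L) (R : ℝ) : Summable (uu L R) :=
  (sum_norm hL (p := 3) (by norm_num)).mul_left _

private lemma eventually_large (hL : IsLat L) (R : ℝ) :
    ∀ᶠ l : L in Filter.cofinite, (l : ℂ) ≠ 0 ∧ R ≤ ‖(l : ℂ)‖ := by
  rw [Filter.eventually_cofinite]
  refine (fin_le hL (max R 0)).subset ?_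
  intro l hl
  by_contra hcon
  apply hl
  have h1 : max R 0 < ‖(l : ℂ)‖ := by
    by_contra h2
    exact hcon (not_lt.1 h2)
  refine ⟨fun h0 => ?_, (le_max_left R 0).trans h1.le⟩
  rw [h0, norm_zero] at h1
  exact absurd (le_max_right R 0) (not_le.2 h1)

private lemma sF_bound (hL : IsLat L) (R : ℝ) : ∀ᶠ l : L in Filter.cofinite,
    ∀ z ∈ Metric.ball (0 : ℂ) R, ‖sF L z l - 1‖ ≤ uu L R l := by
  filter_upwards [eventually_large hL R] with l hl z hz
  obtain ⟨hl0, hlR⟩ := hl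
  have hz' : ‖z‖ < R := by simpa using hz
  have h4 : 0 < ‖(l : ℂ)‖ := norm_pos_iff.2 hl0
  have hx : ‖z / l‖ ≤ 1 := by
    rw [norm_div, div_le_one h4]
    linarith
  rw [sF_eq hl0, uu, if_neg hl0]
  refine (EE_bound hx).trans ?_
  rw [norm_div, Real.rpow_neg h4.le, div_pow]
  have h5 : ‖(l : ℂ)‖ ^ (3 : ℝ) = ‖(l : ℂ)‖ ^ 3 := by
    rw [← Real.rpow_natCast]; norm_num
  rw [h5, mul_assoc, ← div_eq_mul_inv]
  gcongr

private lemma sF_diff (l : L) : Differentiable ℂ (fun z => sF L z l - 1) := by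
  by_cases hl : (l : ℂ) = 0
  · have : (fun z => sF L z l - 1) = fun _ => (0 : ℂ) := by
      funext z; rw [sF, if_pos hl, sub_self]
    rw [this]
    exact differentiable_const _
  · have : (fun z => sF L z l - 1) = fun z => (1 + z / (l : ℂ)) *
        Complex.exp (-(z / (l : ℂ)) + z ^ 2 / (2 * (l : ℂ) ^ 2)) - 1 := by
      funext z; rw [sF, if_neg hl, sigF]
    rw [this]
    fun_prop

private noncomputable def PP (L : Submodule ℤ ℂ) (z : ℂ) : ℂ := ∏' l : L, sF L z l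

private lemma PP_eq (z : ℂ) : PP L z = ∏' l : L, (1 + (sF L z l - 1)) := by
  rw [PP]
  congr 1
  funext l
  ring

private lemma PP_diff (hL : IsLat L) : Differentiable ℂ (PP L) := by
  intro z
  have h1 := (uu_summable hL (‖z‖ + 1)).hasProdLocallyUniformlyOn_one_add
    (f := fun l z => sF L z l - 1) (K := Metric.ball (0 : ℂ) (‖z‖ + 1)) Metric.isOpen_ball
    (sF_bound hL _) (fun l => (sF_diff l).continuous.continuousOn)
  have h2 : DifferentiableOn ℂ (fun z => ∏' l : L, (1 + (sF L z l - 1))) (Metric.ball (0 : ℂ) (‖z‖ + 1)) :=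
    h1.differentiableOn (Filter.Eventually.of_forall fun s => by
      have h3 : DifferentiableOn ℂ (fun z => ∏ l ∈ s, (1 + (sF L z l - 1))) (Metric.ball (0 : ℂ) (‖z‖ + 1)) := by
        refine DifferentiableOn.fun_finsetProd fun l _ => ?_
        exact ((differentiable_const (1 : ℂ)).add (sF_diff l)).differentiableOn
      exact h3) Metric.isOpen_ball
  have h3 : PP L = fun z => ∏' l : L, (1 + (sF L z l - 1)) := funext PP_eq
  rw [h3]
  exact h2.differentiableAt (Metric.isOpen_ball.mem_nhds (by simp))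

private lemma sigma_eq (z : ℂ) : sigma L z = z * PP L z := rfl

private lemma sF_sum_norm (hL : IsLat L) (z : ℂ) : Summable (fun l : L => ‖sF L z l - 1‖) := by
  refine (uu_summable hL (‖z‖ + 1)).of_norm_bounded_eventually ?_
  filter_upwards [sF_bound hL (‖z‖ + 1)] with l hl
  rw [norm_norm]
  exact hl z (by simp)

private lemma sF_ne_zero {z : ℂ} (hz : z ∉ L) (l : L) : sF L z l ≠ 0 := by
  by_cases hl : (l : ℂ) = 0
  · rw [sF, if_pos hl]; exact one_ne_zero
  · rw [sF, if_neg hl, sigF]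
    refine mul_ne_zero ?_ (Complex.exp_ne_zero _)
    intro h
    apply hz
    have h1 : z = -(l : ℂ) := by
      field_simp at h
      linear_combination h
    rw [h1]
    exact neg_mem l.2

private lemma PP_neg (z : ℂ) : PP L (-z) = PP L z := by
  rw [PP, PP, ← (Equiv.neg L).tprod_eq]
  congr 1
  funext l
  simp only [Equiv.neg_apply]
  by_cases hl : (l : ℂ) = 0
  · have h2 : ((-l : L) : ℂ) = 0 := by rw [NegMemClass.coe_neg, hl, neg_zero]
    rw [sF, sF, if_pos hl, if_pos h2]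
  · have h2 : ((-l : L) : ℂ) ≠ 0 := by rw [NegMemClass.coe_neg]; exact neg_ne_zero.2 hl
    rw [sF_eq hl, sF_eq h2, NegMemClass.coe_neg, neg_div_neg_eq]

private lemma PP_zero : PP L 0 = 1 := by
  rw [PP]
  have : (fun l : L => sF L 0 l) = fun _ => 1 := by
    funext l
    by_cases hl : (l : ℂ) = 0
    · rw [sF, if_pos hl]
    · rw [sF_eq hl, EE]
      simp
  rw [this, tprod_one]

theorem sigma_diff (hL : IsLat L) : Differentiable ℂ (sigma L) := by
  have h1 : sigma L = fun z => z * PP L z := funext fun z => sigma_eq z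
  rw [h1]
  exact differentiable_id.mul (PP_diff hL)

theorem sigma_eq_zero (hL : IsLat L) (z : ℂ) : sigma L z = 0 ↔ z ∈ L := by
  constructor
  · intro h
    by_contra hz
    have hz0 : z ≠ 0 := by
      rintro rfl
      exact hz (zero_mem _)
    rw [sigma_eq, mul_eq_zero] at h
    rcases h with h | h
    · exact hz0 h
    · rw [PP_eq] at h
      refine tprod_one_add_ne_zero_of_summable (f := fun l => sF L z l - 1) (fun l => ?_)
        (sF_sum_norm hL z) h
      have := sF_ne_zero hz l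
      simpa using this
  · intro h
    by_cases hb : z = 0
    · rw [hb, sigma_eq, zero_mul]
    · rw [sigma_eq, PP]
      have h1 : ∃ l, sF L z l = 0 := by
        refine ⟨⟨-z, neg_mem h⟩, ?_⟩
        have h2 : ((⟨-z, neg_mem h⟩ : L) : ℂ) ≠ 0 := neg_ne_zero.2 hb
        rw [sF, if_neg h2, sigF]
        show (1 + z / -z) * _ = 0
        rw [div_neg, div_self hb]
        ring
      rw [tprod_of_exists_eq_zero h1, mul_zero]

theorem sigma_neg (hL : IsLat L) (z : ℂ) : sigma L (-z) = -sigma L z := by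
  rw [sigma_eq, sigma_eq, PP_neg]
  ring

theorem sigma_lim (hL : IsLat L) : Filter.Tendsto (fun z => sigma L z / z) (nhdsWithin 0 {0}ᶜ) (nhds 1) := by
  have h1 : Filter.Tendsto (PP L) (nhdsWithin 0 {0}ᶜ) (nhds 1) := by
    have h2 := (PP_diff hL).continuous.tendsto 0
    rw [PP_zero] at h2
    exact h2.mono_left nhdsWithin_le_nhds
  refine h1.congr' ?_
  filter_upwards [self_mem_nhdsWithin] with z hz
  have hz0 : z ≠ 0 := hz
  rw [sigma_eq, mul_div_cancel_left₀ _ hz0]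

theorem sigma_log (hL : IsLat L) {z : ℂ} (hz : z ∉ L) : Real.log ‖sigma L z‖ =
    Real.log ‖z‖ + ∑' l : L, (if (l : ℂ) = 0 then (0 : ℝ) else Real.log ‖sigF z l‖) := by
  have hz0 : z ≠ 0 := by
    rintro rfl
    exact hz (zero_mem _)
  have hne : ∀ l, 1 + (sF L z l - 1) ≠ 0 := by
    intro l
    have := sF_ne_zero hz l
    simpa using this
  have hP : PP L z ≠ 0 := by
    rw [PP_eq]
    exact tprod_one_add_ne_zero_of_summable hne (sF_sum_norm hL z)
  rw [sigma_eq, norm_mul, Real.log_mul (norm_ne_zero_iff.2 hz0) (norm_ne_zero_iff.2 hP)]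
  congr 1
  have h1 : ‖PP L z‖ = ∏' l : L, ‖1 + (sF L z l - 1)‖ := by
    rw [PP_eq, Multipliable.norm_tprod]
    exact multipliable_one_add_of_summable (sF_sum_norm hL z)
  rw [h1, ← Real.rexp_tsum_eq_tprod (fun l => norm_pos_iff.2 (hne l))
    (sF_sum_norm hL z).summable_log_norm_one_add, Real.log_exp]
  congr 1
  funext l
  rw [add_sub_cancel]
  by_cases hl : (l : ℂ) = 0
  · rw [if_pos hl, sF, if_pos hl, norm_one, Real.log_one]
  · rw [if_neg hl, sF, if_neg hl]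

end CMS
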