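import Mathlib
import Pool.Agent.Lib.CMS.HDefs
import Pool.Agent.Lib.CMS.HE
import Pool.Agent.Lib.CMS.HHc
import Pool.Agent.Lib.CMS.HSym
import Pool.Agent.Lib.CMS.HDer
import Pool.Agent.Lib.CMS.HSig

/-!
# HPhi: properties of phi  (about 250 lines)

PROOF. `phi_eq`: both sides are `0` on `L` (`sigma_eq_zero`); off `L` use the definition of `phi`, `Hc_deriv` and `sigma_log` (`‖sigma‖ = exp(log ‖sigma‖)`).
`phi_pos`, `phi_mem`: definition.  `phi_cont`: from `phi_eq` (`sigma` entire).  `phi_lim`: `phi_eq` and `sigma_lim`.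
`Hc_deriv_phi`: by `Hc_deriv` the derivative is real, so it is `-2 log phi` by the definition of `phi`.
`phi_add`, `phi_neg`, `phi_cj`: `Hc_add`, `Hc_neg`, `Hc_cj` and equality of derivatives at `0` (`Dom` is a neighbourhood of `0`, `isOpen_Dom`, `zero_mem_Dom`; `Set.EqOn` on a neighbourhood gives equal derivatives);
`z ∈ L` separately (both sides `0`).  `phi_sc`: `Hc_sc`, `d/ds (‖c‖^(-2s) Hc L z s)` at `0` is `-2 log‖c‖ Hc L z 0 + (Hc L z)'(0) = (Hc L z)'(0)` by `Hc_zero`.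
`phi_dist`: for `z ∉ L'` by `Hc_dist` (derivative of a finite sum) and `Hc_deriv_phi`; for `z ∈ L'` both sides are `0` (some `t ∈ S` with `z + t ∈ L`: take the representative of `-z`).
-/

set_option autoImplicit false

namespace CMS

open Complex MPd9f52e

variable {L L' : Submodule ℤ ℂ}

private theorem phi_deriv_congr {A B : ℂ → ℂ} (h : Set.EqOn A B Dom) : deriv A 0 = deriv B 0 :=
  (h.eventuallyEq_of_mem (isOpen_Dom.mem_nhds zero_mem_Dom)).deriv_eq

theorem c0L_pos (hL : IsLat L) : 0 < c0L hL := by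
  exact Real.exp_pos _

theorem phi_eq (hL : IsLat L) (z : ℂ) : phi L z = c0L hL * ‖sigma L z‖ *
    Real.exp (-((ctn hL).r0 * ‖z‖ ^ 2 / 2) - (z ^ 2 * (ctn hL).G 0).re / 2) := by
  by_cases hz : z ∈ L
  · rw [phi, if_pos hz, (sigma_eq_zero hL z).2 hz, norm_zero, mul_zero, zero_mul]
  · have hσ : 0 < ‖sigma L z‖ := norm_pos_iff.2 fun h => hz ((sigma_eq_zero hL z).1 h)
    rw [phi, if_neg hz, (Hc_deriv hL hz).deriv, Complex.ofReal_re]
    have h1 := sigma_log hL hz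
    have h2 : c0L hL * ‖sigma L z‖ * Real.exp (-((ctn hL).r0 * ‖z‖ ^ 2 / 2) -
        (z ^ 2 * (ctn hL).G 0).re / 2) = Real.exp (-(deriv (ctn hL).E 0).re / 2 +
        Real.log ‖sigma L z‖ + (-((ctn hL).r0 * ‖z‖ ^ 2 / 2) - (z ^ 2 * (ctn hL).G 0).re / 2)) := by
      rw [Real.exp_add, Real.exp_add, Real.exp_log hσ]
      rfl
    rw [h2, h1]
    congr 1
    ring

theorem phi_pos {z : ℂ} (hz : z ∉ L) : 0 < phi L z := by
  rw [phi, if_neg hz]
  exact Real.exp_pos _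

theorem phi_mem {z : ℂ} (hz : z ∈ L) : phi L z = 0 := by
  rw [phi, if_pos hz]

theorem phi_cont (hL : IsLat L) : Continuous (phi L) := by
  have h1 : phi L = fun z => c0L hL * ‖sigma L z‖ *
      Real.exp (-((ctn hL).r0 * ‖z‖ ^ 2 / 2) - (z ^ 2 * (ctn hL).G 0).re / 2) :=
    funext fun z => phi_eq hL z
  rw [h1]
  have h2 : Continuous (sigma L) := (sigma_diff hL).continuous
  have h3 : Continuous fun z : ℂ => (z ^ 2 * (ctn hL).G 0).re :=
    Complex.continuous_re.comp (by fun_prop)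
  fun_prop

theorem phi_lim (hL : IsLat L) : Filter.Tendsto (fun z => phi L z / ‖z‖) (nhdsWithin 0 {0}ᶜ) (nhds (c0L hL)) := by
  have h1 : ∀ z : ℂ, z ≠ 0 → phi L z / ‖z‖ = c0L hL * ‖sigma L z / z‖ *
      Real.exp (-((ctn hL).r0 * ‖z‖ ^ 2 / 2) - (z ^ 2 * (ctn hL).G 0).re / 2) := by
    intro z _
    rw [phi_eq hL z, norm_div]
    ring
  have h2 : Filter.Tendsto (fun z : ℂ => c0L hL * ‖sigma L z / z‖ *
      Real.exp (-((ctn hL).r0 * ‖z‖ ^ 2 / 2) - (z ^ 2 * (ctn hL).G 0).re / 2))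
      (nhdsWithin 0 {0}ᶜ) (nhds (c0L hL * ‖(1 : ℂ)‖ * Real.exp 0)) := by
    refine (tendsto_const_nhds.mul (sigma_lim hL).norm).mul ?_
    refine (Real.continuous_exp.tendsto 0).comp ?_
    have h3 : Continuous fun z : ℂ => -((ctn hL).r0 * ‖z‖ ^ 2 / 2) -
        (z ^ 2 * (ctn hL).G 0).re / 2 := by
      have h4 : Continuous fun z : ℂ => (z ^ 2 * (ctn hL).G 0).re :=
        Complex.continuous_re.comp (by fun_prop)
      fun_prop
    have h5 := h3.tendsto 0
    have h6 : -((ctn hL).r0 * ‖(0 : ℂ)‖ ^ 2 / 2) - ((0 : ℂ) ^ 2 * (ctn hL).G 0).re / 2 = 0 := by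
      simp
    rw [h6] at h5
    exact h5.mono_left nhdsWithin_le_nhds
  rw [norm_one, Real.exp_zero, mul_one, mul_one] at h2
  refine h2.congr' ?_
  filter_upwards [self_mem_nhdsWithin] with z hz
  exact (h1 z hz).symm

theorem Hc_deriv_phi (hL : IsLat L) {z : ℂ} (hz : z ∉ L) : deriv (Hc L z) 0 = ((-2 * Real.log (phi L z) : ℝ) : ℂ) := by
  have h1 := (Hc_deriv hL hz).deriv
  rw [phi, if_neg hz, Real.log_exp, h1]
  rw [Complex.ofReal_re]
  congr 1
  ring

theorem phi_add (hL : IsLat L) {l : ℂ} (hl : l ∈ L) (z : ℂ) : phi L (z + l) = phi L z := by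
  by_cases hz : z ∈ L
  · rw [phi_mem hz, phi_mem (add_mem hz hl)]
  · have hz' : z + l ∉ L := fun h => hz (by
      have h2 := sub_mem h hl
      rwa [add_sub_cancel_right] at h2)
    rw [phi, phi, if_neg hz, if_neg hz', phi_deriv_congr (Hc_add hL hz hl)]

theorem phi_neg (hL : IsLat L) (z : ℂ) : phi L (-z) = phi L z := by
  by_cases hz : z ∈ L
  · rw [phi_mem hz, phi_mem (neg_mem hz)]
  · have hz' : -z ∉ L := fun h => hz (by
      have h2 := neg_mem h
      rwa [neg_neg] at h2)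
    rw [phi, phi, if_neg hz, if_neg hz', phi_deriv_congr (Hc_neg hL hz)]

theorem phi_sc (hL : IsLat L) {c : ℂ} (hc : c ≠ 0) (z : ℂ) : phi (sc c L) (c * z) = phi L z := by
  by_cases hz : z ∈ L
  · rw [phi_mem hz, phi_mem (mem_sc.2 ⟨z, hz, rfl⟩)]
  · have hz' : c * z ∉ sc c L := fun h => hz (by
      obtain ⟨l, hl, h2⟩ := mem_sc.1 h
      rwa [← mul_left_cancel₀ hc h2])
    rw [phi, phi, if_neg hz, if_neg hz', phi_deriv_congr (Hc_sc hL hc hz)]
    have hc0 : (‖c‖ : ℂ) ≠ 0 := by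
      rw [Ne, Complex.ofReal_eq_zero, norm_eq_zero]
      exact hc
    have hd : HasDerivAt (fun s : ℂ => (‖c‖ : ℂ) ^ (-2 * s)) ((‖c‖ : ℂ) ^ (-2 * (0 : ℂ)) *
        Complex.log (‖c‖ : ℂ) * (-2)) 0 := by
      have h1 : HasDerivAt (fun s : ℂ => -2 * s) (-2) 0 := by
        simpa using (hasDerivAt_id (0 : ℂ)).const_mul (-2)
      exact h1.const_cpow (Or.inl hc0)
    have hH : HasDerivAt (Hc L z) (deriv (Hc L z) 0) 0 :=
      ((Hc_diff hL hz).differentiableAt (isOpen_Dom.mem_nhds zero_mem_Dom)).hasDerivAt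
    have h2 := (hd.mul hH).deriv
    have h3 : deriv (fun s : ℂ => (‖c‖ : ℂ) ^ (-2 * s) * Hc L z s) 0 = deriv (Hc L z) 0 := by
      have h4 : (fun s : ℂ => (‖c‖ : ℂ) ^ (-2 * s) * Hc L z s) =
          ((fun s : ℂ => (‖c‖ : ℂ) ^ (-2 * s)) * Hc L z) := rfl
      rw [h4, h2, Hc_zero hL hz, mul_zero, mul_zero, Complex.cpow_zero]
      ring
    rw [h3]

theorem phi_cj (hL : IsLat L) (z : ℂ) : phi (cjL L) ((starRingEnd ℂ) z) = phi L z := by
  by_cases hz : z ∈ L
  · have h1 : (starRingEnd ℂ) z ∈ cjL L := mem_cjL.2 (by simpa using hz)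
    rw [phi_mem hz, phi_mem h1]
  · have h1 : (starRingEnd ℂ) z ∉ cjL L := fun h => hz (by simpa using mem_cjL.1 h)
    rw [phi, phi, if_neg hz, if_neg h1, phi_deriv_congr (Hc_cj hL hz)]

theorem phi_dist (hL : IsLat L) (hL' : IsLat L') (h : L ≤ L') {S : Finset ℂ} (hS : IsReps L L' S) (z : ℂ) :
    ∏ t ∈ S, phi L (z + t) = phi L' z := by
  by_cases hz : z ∈ L'
  · obtain ⟨t, ⟨htS, ht⟩, -⟩ := hS.2.2 (-z) (neg_mem hz)
    have h1 : z + t ∈ L := by
      have h2 := neg_mem ht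
      have h3 : -(-z - t) = z + t := by ring
      rwa [h3] at h2
    rw [phi_mem hz]
    exact Finset.prod_eq_zero htS (phi_mem h1)
  · have hzt : ∀ t ∈ S, z + t ∉ L := fun t ht h1 => hz (by
      have h2 := sub_mem (h h1) (hS.2.1 t ht)
      rwa [add_sub_cancel_right] at h2)
    have hd : HasDerivAt (fun s => ∑ t ∈ S, Hc L (z + t) s)
        (∑ t ∈ S, deriv (Hc L (z + t)) 0) 0 := by
      refine HasDerivAt.fun_sum fun t ht => ?_
      exact ((Hc_diff hL (hzt t ht)).differentiableAt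
        (isOpen_Dom.mem_nhds zero_mem_Dom)).hasDerivAt
    have h1 : deriv (Hc L' z) 0 = ∑ t ∈ S, deriv (Hc L (z + t)) 0 := by
      rw [phi_deriv_congr (Hc_dist hL hL' h hS hz)]
      exact hd.deriv
    rw [Hc_deriv_phi hL' hz, Finset.sum_congr rfl fun t ht => Hc_deriv_phi hL (hzt t ht),
      ← Complex.ofReal_sum, Complex.ofReal_inj, ← Finset.mul_sum] at h1
    have h2 : Real.log (phi L' z) = ∑ t ∈ S, Real.log (phi L (z + t)) := by linarith
    rw [← Real.log_prod fun t ht => (phi_pos (hzt t ht)).ne'] at h2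
    exact (Real.log_injOn_pos (phi_pos hz)
      (Finset.prod_pos fun t ht => phi_pos (hzt t ht)) h2).symm

end CMS
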