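import Mathlib
import Pool.Agent.Lib.CMS.LAdd

/-!
# LXV: the values wp(u), u in L^{-1}-torsion, and the elliptic numbers  (about 190 lines)

`XV_spec` : the set is finite: by periodicity it is the image of the finite set `S.erase 0` (for `S` from `exists_reps`).
`prod_reps` : `N = S.card` odd.  The map `s ↦ wp L s` from `S.erase 0` onto `XV L L'` has exactly two preimages of each value: `wp L s = wp L s'` iff `s' ≡ ±s` mod `L` (`wp_eq_iff`), and `-s` is represented by an element of `S` different from `s` because `2s ∈ L` and `N s ∈ L` (`card_mul_mem`), `N` odd, would give `s ∈ L`, i.e. `s = 0` (uniqueness of the representative of `s`: `s` and `0`).  `Finset.prod_fiberwise_of_maps_to` or `Finset.prod_comp`-style.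
`XV_card` : `prod_reps` in the monoid `Multiplicative ℕ`, or count directly.
`XV_perm` : `n` prime to `N`: multiplication by `n` permutes the classes of `L'/L` other than `0` up to sign, so for every `F`: `∏_{x ∈ XV} F(wp(n u_x)) = ∏_{x ∈ XV} F x` - stated with representatives: `∏_{s ∈ S.erase 0} F (wp L (n s)) = ∏_{s ∈ S.erase 0} F (wp L s)` (the map `s ↦` representative of `n s` is a bijection of `S.erase 0`: injective as `n` is prime to `N` and `N s ∈ L`).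
`RQ_sc` : `XV (sc c L) (sc c L')` is the image of `XV L L'` under `x ↦ x/c²` (`wp_sc`), `dup (sc c L) (x/c²) = dup L x / c²` (`g2_sc`, `g3_sc`).  `RQ_add_mem` : `wp_add_mem`.
-/

set_option autoImplicit false

namespace CMS

open Complex NumberField MPd9f52e

variable {L L' : Submodule ℤ ℂ}

private theorem xv_add {L : Submodule ℤ ℂ} (hL : IsLat L) {u s : ℂ} (h : u - s ∈ L) : wp L u = wp L s := by
  have h1 := wp_add_mem hL h s
  rwa [add_sub_cancel] at h1

private theorem xv_finite (hL : IsLat L) (hL' : IsLat L') (h : L ≤ L') :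
    {x : ℂ | ∃ u ∈ L', u ∉ L ∧ wp L u = x}.Finite := by
  obtain ⟨S, hS⟩ := exists_reps hL hL' h
  refine (S.finite_toSet.image (wp L)).subset ?_
  rintro x ⟨u, hu, -, rfl⟩
  obtain ⟨s, ⟨hs, hus⟩, -⟩ := hS.2.2 u hu
  exact ⟨s, hs, (xv_add hL hus).symm⟩

/-- a nonzero representative is not in `L` -/
private theorem xv_notMem {S : Finset ℂ} (hS : IsReps L L' S) {s : ℂ} (hs : s ∈ S) (hs0 : s ≠ 0) :
    s ∉ L := by
  intro hsL
  obtain ⟨t, -, ht⟩ := hS.2.2 s (hS.2.1 s hs)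
  have h1 : s = t := ht s ⟨hs, by rw [sub_self]; exact L.zero_mem⟩
  have h2 : (0 : ℂ) = t := ht 0 ⟨hS.1, by rwa [sub_zero]⟩
  exact hs0 (h1.trans h2.symm)

/-- two representatives congruent modulo `L` are equal -/
private theorem xv_uniq {S : Finset ℂ} (hS : IsReps L L' S) {s t : ℂ} (hs : s ∈ S) (ht : t ∈ S)
    (h : s - t ∈ L) : s = t := by
  obtain ⟨u, -, hu⟩ := hS.2.2 s (hS.2.1 s hs)
  have h1 : s = u := hu s ⟨hs, by rw [sub_self]; exact L.zero_mem⟩
  have h2 : t = u := hu t ⟨ht, h⟩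
  exact h1.trans h2.symm

private theorem xv_nat {L : Submodule ℤ ℂ} {x : ℂ} (h : x ∈ L) (m : ℤ) : (m : ℂ) * x ∈ L := by
  have h1 := L.smul_mem m h
  rwa [zsmul_eq_mul] at h1

theorem XV_spec (hL : IsLat L) (hL' : IsLat L') (h : L ≤ L') (x : ℂ) : x ∈ XV L L' ↔ ∃ u ∈ L', u ∉ L ∧ wp L u = x := by
  classical
  have hf := xv_finite hL hL' h
  unfold XV
  rw [dif_pos hf, Set.Finite.mem_toFinset]
  exact Iff.rfl

/-- the fibers of `s ↦ wp L s` have two elements -/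
private theorem xv_fiber (hL : IsLat L) (hL' : IsLat L') (h : L ≤ L') {S : Finset ℂ} (hS : IsReps L L' S) (hodd : Odd S.card)
    {x : ℂ} (hx : x ∈ XV L L') : ((S.erase 0).filter fun s => wp L s = x).card = 2 := by
  obtain ⟨u, hu, huL, rfl⟩ := (XV_spec hL hL' h x).1 hx
  obtain ⟨s, ⟨hs, hus⟩, -⟩ := hS.2.2 u hu
  obtain ⟨t, ⟨ht, hut⟩, -⟩ := hS.2.2 (-u) (L'.neg_mem hu)
  have hst : s ≠ t := by
    rintro rfl
    have h1 : (2 : ℂ) * u ∈ L := by
      have h2 := L.sub_mem hus hut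
      have h3 : u - s - (-u - s) = 2 * u := by ring
      rwa [h3] at h2
    obtain ⟨m, hm⟩ := hodd
    have h4 := card_mul_mem h hS hu
    have h5 := xv_nat h1 (m : ℤ)
    have h6 := L.sub_mem h4 h5
    have h7 : (S.card : ℂ) * u - ((m : ℤ) : ℂ) * (2 * u) = u := by
      rw [hm]
      push_cast
      ring
    rw [h7] at h6
    exact huL h6
  have hsL : s ∉ L := fun h1 => huL (by
    have h2 := L.add_mem hus h1
    rwa [sub_add_cancel] at h2)
  have htL : t ∉ L := fun h1 => huL (by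
    have h2 := L.neg_mem (L.add_mem hut h1)
    rwa [sub_add_cancel, neg_neg] at h2)
  have hs0 : s ≠ 0 := fun h1 => hsL (by rw [h1]; exact L.zero_mem)
  have ht0 : t ≠ 0 := fun h1 => htL (by rw [h1]; exact L.zero_mem)
  have h8 : ((S.erase 0).filter fun s => wp L s = wp L u) = {s, t} := by
    ext v
    rw [Finset.mem_filter, Finset.mem_erase, Finset.mem_insert, Finset.mem_singleton]
    constructor
    · rintro ⟨⟨hv0, hv⟩, hvu⟩
      rcases (wp_eq_iff hL (xv_notMem hS hv hv0) huL).1 hvu with h9 | h9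
      · left
        refine xv_uniq hS hv hs ?_
        have h10 := L.add_mem h9 hus
        rwa [sub_add_sub_cancel] at h10
      · right
        refine xv_uniq hS hv ht ?_
        have h10 := L.add_mem h9 hut
        have h11 : v + u + (-u - t) = v - t := by ring
        rwa [h11] at h10
    · rintro (rfl | rfl)
      · exact ⟨⟨hs0, hs⟩, (xv_add hL hus).symm⟩
      · refine ⟨⟨ht0, ht⟩, ?_⟩
        rw [← xv_add hL hut, wp_neg hL]
  rw [h8, Finset.card_pair hst]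

private theorem xv_maps (hL : IsLat L) (hL' : IsLat L') (h : L ≤ L') {S : Finset ℂ} (hS : IsReps L L' S) :
    ∀ s ∈ S.erase 0, wp L s ∈ XV L L' := by
  intro s hs
  have h1 := Finset.mem_erase.1 hs
  exact (XV_spec hL hL' h _).2 ⟨s, hS.2.1 s h1.2, xv_notMem hS h1.2 h1.1, rfl⟩

theorem prod_reps (hL : IsLat L) (hL' : IsLat L') (h : L ≤ L') {S : Finset ℂ} (hS : IsReps L L' S) (hodd : Odd S.card)
    {M : Type*} [CommMonoid M] (F : ℂ → M) : ∏ s ∈ S.erase 0, F (wp L s) = (∏ x ∈ XV L L', F x) ^ 2 := by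
  rw [← Finset.prod_fiberwise_of_maps_to (xv_maps hL hL' h hS), ← Finset.prod_pow]
  refine Finset.prod_congr rfl fun x hx => ?_
  have h1 : ∀ s ∈ (S.erase 0).filter (fun s => wp L s = x), F (wp L s) = F x := by
    intro s hs
    rw [(Finset.mem_filter.1 hs).2]
  rw [Finset.prod_congr rfl h1, Finset.prod_const, xv_fiber hL hL' h hS hodd hx]

theorem XV_card (hL : IsLat L) (hL' : IsLat L') (h : L ≤ L') {S : Finset ℂ} (hS : IsReps L L' S) (hodd : Odd S.card) :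
    2 * (XV L L').card + 1 = S.card := by
  have h1 := Finset.card_eq_sum_card_fiberwise (xv_maps hL hL' h hS)
  have h2 : ∑ x ∈ XV L L', ((S.erase 0).filter fun s => wp L s = x).card = ∑ x ∈ XV L L', 2 :=
    Finset.sum_congr rfl fun x hx => xv_fiber hL hL' h hS hodd hx
  rw [h2, Finset.sum_const, smul_eq_mul, Finset.card_erase_of_mem hS.1] at h1
  have h3 : 0 < S.card := Finset.card_pos.2 ⟨0, hS.1⟩
  omega

private theorem xv_bez {L : Submodule ℤ ℂ} {n N : ℕ} (hn : n.Coprime N) {x : ℂ} (h1 : (n : ℂ) * x ∈ L)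
    (h2 : (N : ℂ) * x ∈ L) : x ∈ L := by
  have h3 := L.add_mem (xv_nat h1 (n.gcdA N)) (xv_nat h2 (n.gcdB N))
  have h4 : ((n.gcdA N : ℤ) : ℂ) * ((n : ℂ) * x) + ((n.gcdB N : ℤ) : ℂ) * ((N : ℂ) * x) = x := by
    have h5 := Nat.gcd_eq_gcd_ab n N
    rw [hn.gcd_eq_one] at h5
    have h6 : (1 : ℂ) = (n : ℂ) * ((n.gcdA N : ℤ) : ℂ) + (N : ℂ) * ((n.gcdB N : ℤ) : ℂ) := by
      exact_mod_cast h5
    calc _ = ((n : ℂ) * ((n.gcdA N : ℤ) : ℂ) + (N : ℂ) * ((n.gcdB N : ℤ) : ℂ)) * x := by ring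
      _ = x := by rw [← h6, one_mul]
  rwa [h4] at h3

theorem reps_perm (hL : IsLat L) (hL' : IsLat L') (h : L ≤ L') {S : Finset ℂ} (hS : IsReps L L' S) {n : ℕ}
    (hn : n.Coprime S.card) {M : Type*} [CommMonoid M] (F : ℂ → M)
    (hF : ∀ z l : ℂ, l ∈ L → F (z + l) = F z) :
    ∏ s ∈ S.erase 0, F ((n : ℂ) * s) = ∏ s ∈ S.erase 0, F s := by
  classical
  have hex : ∀ s : ℂ, ∃ t : ℂ, s ∈ S → t ∈ S ∧ (n : ℂ) * s - t ∈ L := by
    intro s
    by_cases hs : s ∈ S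
    · obtain ⟨t, ht, -⟩ := hS.2.2 ((n : ℂ) * s) (by
        have h1 := xv_nat (hS.2.1 s hs) (n : ℤ)
        rwa [Int.cast_natCast] at h1)
      exact ⟨t, fun _ => ht⟩
    · exact ⟨0, fun h1 => absurd h1 hs⟩
  choose ρ hρ using hex
  have hinj : Set.InjOn ρ (S : Set ℂ) := by
    intro s hs t ht hst
    have h1 := hρ s hs
    have h2 := hρ t ht
    refine xv_uniq hS hs ht (xv_bez hn ?_ (card_mul_mem h hS (L'.sub_mem (hS.2.1 s hs) (hS.2.1 t ht))))
    have h3 := L.sub_mem h1.2 h2.2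
    have h4 : (n : ℂ) * s - ρ s - ((n : ℂ) * t - ρ t) = (n : ℂ) * (s - t) := by
      rw [hst]
      ring
    rwa [h4] at h3
  have hmem : ∀ s ∈ S.erase 0, ρ s ∈ S.erase 0 := by
    intro s hs
    have h1 := Finset.mem_erase.1 hs
    have h2 := hρ s h1.2
    refine Finset.mem_erase.2 ⟨fun h3 => ?_, h2.1⟩
    rw [h3, sub_zero] at h2
    exact xv_notMem hS h1.2 h1.1 (xv_bez hn h2.2 (card_mul_mem h hS (hS.2.1 s h1.2)))
  have hinj' : Set.InjOn ρ ((S.erase 0 : Finset ℂ) : Set ℂ) :=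
    hinj.mono fun s hs => (Finset.mem_erase.1 hs).2
  have himg : (S.erase 0).image ρ = S.erase 0 := by
    refine Finset.eq_of_subset_of_card_le (fun t ht => ?_) ?_
    · obtain ⟨s, hs, rfl⟩ := Finset.mem_image.1 ht
      exact hmem s hs
    · rw [Finset.card_image_of_injOn hinj']
  calc ∏ s ∈ S.erase 0, F ((n : ℂ) * s) = ∏ s ∈ S.erase 0, F (ρ s) := by
        refine Finset.prod_congr rfl fun s hs => ?_
        have h1 := hF (ρ s) _ (hρ s (Finset.mem_erase.1 hs).2).2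
        rw [add_sub_cancel] at h1
        exact h1
    _ = ∏ t ∈ (S.erase 0).image ρ, F t := (Finset.prod_image hinj').symm
    _ = ∏ s ∈ S.erase 0, F s := by rw [himg]

theorem dup_sc {c : ℂ} (hc : c ≠ 0) (L : Submodule ℤ ℂ) (x : ℂ) : dup (sc c L) (x / c ^ 2) = dup L x / c ^ 2 := by
  unfold dup
  rw [g2_sc hc, g3_sc hc]
  have hn : ((x / c ^ 2) ^ 2 + g2 L / c ^ 4 / 4) ^ 2 + 2 * (g3 L / c ^ 6) * (x / c ^ 2) =
      ((x ^ 2 + g2 L / 4) ^ 2 + 2 * g3 L * x) / c ^ 8 := by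
    field_simp
  have hd : 4 * (x / c ^ 2) ^ 3 - g2 L / c ^ 4 * (x / c ^ 2) - g3 L / c ^ 6 =
      (4 * x ^ 3 - g2 L * x - g3 L) / c ^ 6 := by
    field_simp
  rw [hn, hd]
  by_cases h0 : 4 * x ^ 3 - g2 L * x - g3 L = 0
  · rw [h0]
    simp
  · field_simp

theorem XV_sc {c : ℂ} (hc : c ≠ 0) (L L' : Submodule ℤ ℂ) : XV (sc c L) (sc c L') = (XV L L').image (fun x => x / c ^ 2) := by
  classical
  have hc2 : c ^ 2 ≠ 0 := pow_ne_zero 2 hc
  have hset : {x : ℂ | ∃ u ∈ sc c L', u ∉ sc c L ∧ wp (sc c L) u = x} =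
      (fun x => x / c ^ 2) '' {x : ℂ | ∃ u ∈ L', u ∉ L ∧ wp L u = x} := by
    ext x
    constructor
    · rintro ⟨u, hu, huL, rfl⟩
      obtain ⟨v, hv, rfl⟩ := mem_sc.1 hu
      rw [mem_sc_iff hc] at huL
      exact ⟨wp L v, ⟨v, hv, huL, rfl⟩, (wp_sc hc L v).symm⟩
    · rintro ⟨_, ⟨v, hv, hvL, rfl⟩, rfl⟩
      exact ⟨c * v, (mem_sc_iff hc).2 hv, fun h => hvL ((mem_sc_iff hc).1 h), wp_sc hc L v⟩
  have hinj : Function.Injective fun x : ℂ => x / c ^ 2 := fun x y hxy => (div_left_inj' hc2).1 hxy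
  by_cases hf : {x : ℂ | ∃ u ∈ L', u ∉ L ∧ wp L u = x}.Finite
  · have hf' : {x : ℂ | ∃ u ∈ sc c L', u ∉ sc c L ∧ wp (sc c L) u = x}.Finite := by
      rw [hset]
      exact hf.image _
    ext x
    unfold XV
    rw [dif_pos hf, dif_pos hf', Set.Finite.mem_toFinset, hset, Finset.mem_image]
    constructor
    · rintro ⟨y, hy, hyx⟩
      exact ⟨y, (Set.Finite.mem_toFinset hf).2 hy, hyx⟩
    · rintro ⟨y, hy, hyx⟩
      exact ⟨y, (Set.Finite.mem_toFinset hf).1 hy, hyx⟩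
  · have hf' : ¬ {x : ℂ | ∃ u ∈ sc c L', u ∉ sc c L ∧ wp (sc c L) u = x}.Finite := by
      rw [hset]
      exact fun h => hf ((Set.finite_image_iff hinj.injOn).1 h)
    unfold XV
    rw [dif_neg hf, dif_neg hf', Finset.image_empty]

theorem RQ_sc {c : ℂ} (hc : c ≠ 0) (L L' : Submodule ℤ ℂ) (z : ℂ) : RQ (sc c L) (sc c L') (c * z) = RQ L L' z := by
  have hc2 : c ^ 2 ≠ 0 := pow_ne_zero 2 hc
  have hinj : Function.Injective fun x : ℂ => x / c ^ 2 := fun x y hxy => (div_left_inj' hc2).1 hxy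
  unfold RQ
  rw [XV_sc hc, Finset.prod_image hinj.injOn]
  refine Finset.prod_congr rfl fun x _ => ?_
  rw [dup_sc hc, wp_sc hc, ← sub_div, ← sub_div, div_div_div_cancel_right₀ hc2]

theorem RQ_add_mem (hL : IsLat L) (L' : Submodule ℤ ℂ) {l : ℂ} (hl : l ∈ L) (z : ℂ) : RQ L L' (z + l) = RQ L L' z := by
  unfold RQ
  rw [wp_add_mem hL hl]

end CMS
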