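import Mathlib
import Pool.Agent.Lib.CMS.Defs
import Pool.Agent.Lib.CMS.LBas
import Pool.Agent.Lib.CMS.OLc1
import Pool.Agent.Lib.CMS.CBas

/-!
# OReq: equivalent ideals have homothetic lattices  (about 150 lines)

PROOF. `(x) b = (y) c`, `x ≡ y ≡ 1 mod f`.  `l = e(x)/e(y)`.  `(x)(P b) = (y)(P c)`, so by `Lc_span` `e(x)⁻¹ Lc(P b) = e(y)⁻¹ Lc(P c)`, `Lc(P b) = l Lc(P c)` (`sc_sc`).
`e(a)/f - l e(a)/f = e(a) e(y-x)/(f e(y))`.  `y - x = f d`; let `z ∈ b`: to show `w := a d z/y ∈ 𝓞 k` (element of `k`).  `y w = a d z ∈ 𝓞 k`; `f w = a (y - x) z/y = a z - a x z/y` and `x z ∈ (x) b = (y) c ⊆ (y)`, so `f w ∈ 𝓞 k`.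
`y ≡ 1 mod f`: `1 = y - f d'`, `w = y w - d' f w ∈ 𝓞 k`.
-/

set_option autoImplicit false

namespace CMS

open Complex NumberField MPd9f52e

variable {k : Type} [Field k] [NumberField k]

theorem req_lat (e : k →+* ℂ) {f : ℕ} (hf : f ≠ 0) {b c : Ideal (𝓞 k)} (h : Req f b c) :
    ∃ l : ℂ, l ≠ 0 ∧ (∀ P : Ideal (𝓞 k), Lc e (P * b) = sc l (Lc e (P * c))) ∧
      ∀ a : 𝓞 k, e (a : k) / f - l * (e (a : k) / f) ∈ Lc e b := by
  obtain ⟨x, y, hx, hy, ⟨d1, hd1⟩, ⟨d2, hd2⟩, hxy⟩ := h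
  have hne : ∀ z : 𝓞 k, z ≠ 0 → e (z : k) ≠ 0 := fun z hz => by
    rw [_root_.map_ne_zero]
    exact fun h => hz (RingOfIntegers.ext h)
  have hex := hne x hx
  have hey := hne y hy
  have hf0 : (f : ℂ) ≠ 0 := Nat.cast_ne_zero.2 hf
  have h1 : e (x : k) - 1 = f * e (d1 : k) := by
    have := congrArg (fun z : 𝓞 k => e (z : k)) hd1
    simpa using this
  have h2 : e (y : k) - 1 = f * e (d2 : k) := by
    have := congrArg (fun z : 𝓞 k => e (z : k)) hd2
    simpa using this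
  refine ⟨e (x : k) * (e (y : k))⁻¹, mul_ne_zero hex (inv_ne_zero hey), fun P => ?_, fun a => ?_⟩
  · have h3 : sc (e (x : k))⁻¹ (Lc e (P * b)) = sc (e (y : k))⁻¹ (Lc e (P * c)) := by
      rw [← Lc_span hx, ← Lc_span hy, mul_left_comm, hxy, mul_left_comm]
    rw [← sc_sc, ← h3, sc_sc, mul_inv_cancel₀ hex, sc_one]
  · intro z hz
    have h3 : x * z ∈ Ideal.span {y} * c := by
      rw [← hxy]
      exact Ideal.mul_mem_mul (Ideal.mem_span_singleton_self x) hz
    have hle : Ideal.span {y} * c ≤ Ideal.span {y} := Ideal.mul_le_left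
    obtain ⟨g, hg⟩ := Ideal.mem_span_singleton'.1 (hle h3)
    have h4 : e (x : k) * e (z : k) = e (y : k) * e (g : k) := by
      have := congrArg (fun z : 𝓞 k => e (z : k)) hg
      simp only [map_mul] at this
      rw [← this]
      ring
    refine ⟨a * (d2 - d1) * z - d2 * (a * z - a * g), ?_⟩
    have h5 : e (((a * (d2 - d1) * z - d2 * (a * z - a * g) : 𝓞 k)) : k) =
        e (a : k) * (e (d2 : k) - e (d1 : k)) * e (z : k) -
          e (d2 : k) * (e (a : k) * e (z : k) - e (a : k) * e (g : k)) := by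
      simp
    rw [h5]
    apply mul_left_cancel₀ (mul_ne_zero hey hf0)
    have h6 : e (y : k) * f * ((e (a : k) / f - e (x : k) * (e (y : k))⁻¹ * (e (a : k) / f)) *
        e (z : k)) = e (a : k) * e (z : k) * (e (y : k) - e (x : k)) := by
      field_simp
    rw [h6]
    linear_combination (f * e (d2 : k) * e (a : k)) * h4 -
      e (a : k) * e (z : k) * e (y : k) * h1 + e (a : k) * e (z : k) * e (x : k) * h2

end CMS
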