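import Mathlib
import Pool.Agent.Lib.CMS.Defs
import Pool.Agent.Lib.CMS.LBas
import Pool.Agent.Lib.CMS.LWp
import Pool.Agent.Lib.CMS.LXV
import Pool.Agent.Lib.CMS.HPhi
import Pool.Agent.Lib.CMS.OLc1
import Pool.Agent.Lib.CMS.OLc2
import Pool.Agent.Lib.CMS.OReq
import Pool.Agent.Lib.CMS.CBas

/-!
# OCr: cross ratios, values of phi and elliptic numbers depend only on the ray class (paper 2.8)  (about 220 lines)

PROOF. `req_lat`: `Lc e b = sc l (Lc e c)` (take `P = ⊤`), `e(a)/f ≡ l e(a)/f mod Lc e b`.  So `wp (Lc e b) (e a/f) = wp (sc l (Lc e c)) (l e a/f) = wp (Lc e c) (e a/f)/l²` (`wp_add_mem`, `wp_sc`): `crr_req` (if the denominator is zero on one side it is on the other;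
`(A/l²)/(B/l²) = A/B`).  `phi_req`: `phi_add`, `phi_sc`.  `RQ_req`: `RQ_add_mem`, `RQ_sc`.  (`1/f = e(1)/f`.)
`crr_act`: the four points `e(a_i)/f` are not in `Lc e c` (`div_mem_Lc`), `f (e a/f) = e a ∈ Lc e c`: `Act.awp`.  `crr_mod`: `wp_add_mem`, `e(a - a')/f ∈ e(𝓞 k) ⊆ Lc e c`.
-/

set_option autoImplicit false

namespace CMS

open Complex NumberField MPd9f52e

variable {k : Type} [Field k] [NumberField k]

variable {e : k →+* ℂ} {f : ℕ}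

private theorem oCr_lat (hk : IQ k) (e : k →+* ℂ) (hf : f ≠ 0) {b c : Ideal (𝓞 k)} (hb : Cop f b)
    (h : Req f b c) : IsLat (Lc e b) ∧ IsLat (Lc e c) ∧ ∃ l : ℂ, l ≠ 0 ∧ Lc e b = sc l (Lc e c) ∧
      (∀ P : Ideal (𝓞 k), Lc e (P * b) = sc l (Lc e (P * c))) ∧
      ∀ a : 𝓞 k, e (a : k) / f - l * (e (a : k) / f) ∈ Lc e b := by
  obtain ⟨l, hl, h1, h2⟩ := req_lat e hf h
  refine ⟨isLat_Lc hk e hb.1, isLat_Lc hk e ((req_cop h).1 hb).1, l, hl, ?_, h1, h2⟩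
  have h3 := h1 ⊤
  rwa [← Ideal.one_eq_top, one_mul, one_mul] at h3

omit [NumberField k] in
private theorem oCr_one (e : k →+* ℂ) (f : ℕ) : (1 / f : ℂ) = e ((1 : 𝓞 k) : k) / f := by
  have h1 : ((1 : 𝓞 k) : k) = 1 := map_one (algebraMap (𝓞 k) k)
  rw [h1, map_one]

private theorem oCr_wp (hk : IQ k) (hf : f ≠ 0) {b c : Ideal (𝓞 k)} (hb : Cop f b)
    (h : Req f b c) : ∃ l : ℂ, l ≠ 0 ∧ ∀ a : 𝓞 k,
      wp (Lc e b) (e (a : k) / f) = wp (Lc e c) (e (a : k) / f) / l ^ 2 := by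
  obtain ⟨hLb, -, l, hl, h1, -, h2⟩ := oCr_lat hk e hf hb h
  refine ⟨l, hl, fun a => ?_⟩
  have h3 := wp_add_mem hLb (h2 a) (l * (e (a : k) / f))
  rw [add_sub_cancel] at h3
  rw [h3, h1, wp_sc hl]

theorem phi_req (hk : IQ k) (hf : f ≠ 0) {b c : Ideal (𝓞 k)} (hb : Cop f b) (h : Req f b c) :
    phi (Lc e b) (1 / f) = phi (Lc e c) (1 / f) := by
  obtain ⟨hLb, hLc, l, hl, h1, -, h2⟩ := oCr_lat hk e hf hb h
  have h3 := phi_add hLb (h2 1) (l * (e ((1 : 𝓞 k) : k) / f))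
  rw [add_sub_cancel] at h3
  rw [oCr_one e f, h3, h1, phi_sc hLc hl]

theorem crr_req (hk : IQ k) (hf : f ≠ 0) {b c : Ideal (𝓞 k)} (hb : Cop f b) (h : Req f b c) (a : Fin 4 → 𝓞 k) :
    crr e f b a = crr e f c a := by
  obtain ⟨l, hl, h1⟩ := oCr_wp (e := e) hk hf hb h
  unfold crr
  rw [h1, h1, h1, h1, ← sub_div, ← sub_div, div_div_div_cancel_right₀ (pow_ne_zero 2 hl)]

theorem RQ_req (hk : IQ k) (hf : f ≠ 0) {b c : Ideal (𝓞 k)} (hb : Cop f b) (h : Req f b c) (P : Ideal (𝓞 k)) :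
    RQ (Lc e b) (Lc e (P * b)) (1 / f) = RQ (Lc e c) (Lc e (P * c)) (1 / f) := by
  obtain ⟨hLb, -, l, hl, h1, h1', h2⟩ := oCr_lat hk e hf hb h
  have h3 := RQ_add_mem hLb (Lc e (P * b)) (h2 1) (l * (e ((1 : 𝓞 k) : k) / f))
  rw [add_sub_cancel] at h3
  rw [oCr_one e f, h3, h1', h1, RQ_sc hl]

theorem crr_act {t : ℂ ≃+* ℂ} {γ : ℂ} {u : Ideal (𝓞 k)} (h : Act e t f γ u) (hf : f ≠ 0) {c : Ideal (𝓞 k)}
    (hc : Cop f c) {a : Fin 4 → 𝓞 k} (ha : Adm f a) : t (crr e f c a) = crr e f (u * c) a := by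
  have hfC : (f : ℂ) ≠ 0 := Nat.cast_ne_zero.2 hf
  have h1 : ∀ i, t (wp (Lc e c) (e (a i : k) / f)) = wp (Lc e (u * c)) (e (a i : k) / f) / γ ^ 2 := by
    intro i
    refine h.awp c hc.1 _ ?_ ?_
    · rw [mul_div_cancel₀ _ hfC]
      exact emb_mem_Lc c (a i)
    · rw [div_mem_Lc hf hc]
      exact ha.1 i
  unfold crr
  rw [map_div₀, map_sub, map_sub, h1, h1, h1, h1, ← sub_div, ← sub_div,
    div_div_div_cancel_right₀ (pow_ne_zero 2 h.gne)]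

theorem crr_mod (hk : IQ k) (hf : f ≠ 0) {c : Ideal (𝓞 k)} (hc : Cop f c) {a a' : Fin 4 → 𝓞 k}
    (h : ∀ i, (f : 𝓞 k) ∣ a i - a' i) : crr e f c a = crr e f c a' := by
  have hfC : (f : ℂ) ≠ 0 := Nat.cast_ne_zero.2 hf
  have hL := isLat_Lc hk e hc.1
  have h1 : ∀ i, wp (Lc e c) (e (a i : k) / f) = wp (Lc e c) (e (a' i : k) / f) := by
    intro i
    obtain ⟨d, hd⟩ := h i
    have h2 : e (a i : k) / f = e (a' i : k) / f + e (d : k) := by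
      have h3 : ((a i : 𝓞 k) : k) = (a' i : k) + (f : k) * (d : k) := by
        have h4 : a i = a' i + (f : 𝓞 k) * d := by rw [← hd]; ring
        rw [h4]
        push_cast
        ring
      rw [h3, map_add, map_mul, map_natCast]
      field_simp
    rw [h2, wp_add_mem hL (emb_mem_Lc c d)]
  unfold crr
  rw [h1, h1, h1, h1]

end CMS
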