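import Mathlib
import Pool.Agent.Lib.CMS.Defs
import Pool.Agent.Lib.MP_d9f52e_nt.GExt

/-!
# OAlg: complex numbers with finite orbit are algebraic  (about 130 lines)

PROOF. Suppose `x` is transcendental over `ℚ`, hence over the subfield `e(k)` (algebraic over `ℚ`).  For `n ∈ ℕ` let `i, j : k(X) → ℂ` (rational functions `RatFunc k`, or `FractionRing k[X]`) be the embeddings extending `e` with `X ↦ x` and `X ↦ x + n`
(`x + n` is transcendental too).  `k(X)` is countable, so there is an automorphism `t` of `ℂ` with `t ∘ i = j` (`aut_aux` in Lib/MP_d9f52e_nt/GExt.lean is private: copy its proof, two embeddings of a countable field in `ℂ` are conjugate).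
`t` fixes `e(k)` and `t x = x + n`.  So the orbit is infinite, contradiction.
-/

set_option autoImplicit false

namespace CMS

open Complex NumberField MPd9f52e

open Cardinal in
private theorem oAlg_aut {F : Type*} {K L : Type} [Field F] [Field K] [Field L] [Algebra F K] [Algebra F L]
    [IsAlgClosed K] [IsAlgClosed L] (hF : #F ≤ ℵ₀) (hK : ℵ₀ < #K) (hL : ℵ₀ < #L) (hKL : #K = #L) :
    ∃ e : K ≃+* L, ∀ x : F, e (algebraMap F K x) = algebraMap F L x := by
  obtain ⟨s, hs⟩ := exists_isTranscendenceBasis F K
  obtain ⟨t, ht⟩ := exists_isTranscendenceBasis F L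
  have h1 := IsAlgClosed.cardinal_eq_cardinal_transcendence_basis_of_aleph0_lt _ hs hF hK
  have h2 := IsAlgClosed.cardinal_eq_cardinal_transcendence_basis_of_aleph0_lt _ ht hF hL
  have h3 : #s = #t := by
    have h1' := h1
    have h2' := h2
    simp only [Cardinal.lift_id] at h1' h2'
    rw [← h1', ← h2', hKL]
  obtain ⟨e0⟩ := Cardinal.eq.1 h3
  let := IsAlgClosed.isAlgClosure_of_transcendence_basis _ hs
  let := IsAlgClosed.isAlgClosure_of_transcendence_basis _ ht
  let e : Algebra.adjoin F (Set.range ((↑) : s → K)) ≃ₐ[F] Algebra.adjoin F (Set.range ((↑) : t → L)) :=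
    (hs.1.aevalEquiv.symm.trans (MvPolynomial.renameEquiv F e0)).trans ht.1.aevalEquiv
  refine ⟨IsAlgClosure.equivOfEquiv K L e.toRingEquiv, fun x => ?_⟩
  have h4 := IsAlgClosure.equivOfEquiv_algebraMap K L e.toRingEquiv
    (algebraMap F (Algebra.adjoin F (Set.range ((↑) : s → K))) x)
  have h5 : algebraMap (Algebra.adjoin F (Set.range ((↑) : s → K))) K
      (algebraMap F (Algebra.adjoin F (Set.range ((↑) : s → K))) x) = algebraMap F K x := rfl
  rw [h5] at h4
  rw [h4]
  have h6 : e.toRingEquiv (algebraMap F (Algebra.adjoin F (Set.range ((↑) : s → K))) x) =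
    algebraMap F (Algebra.adjoin F (Set.range ((↑) : t → L))) x := e.commutes x
  rw [h6]
  rfl

variable {k : Type} [Field k] [NumberField k]

theorem alg_of_finite_orbit (e : k →+* ℂ) {x : ℂ} {T : Finset ℂ}
    (h : ∀ t : ℂ ≃+* ℂ, (∀ y, t (e y) = e y) → t x ∈ T) : IsAlgebraic ℚ x := by
  by_contra hx
  let _ : Algebra k ℂ := e.toAlgebra
  have hek : ∀ y, algebraMap k ℂ y = e y := fun y => rfl
  have hxk : ¬ IsAlgebraic k x := by
    intro h1
    have : IsScalarTower ℚ k ℂ := IsScalarTower.of_algebraMap_eq' (Subsingleton.elim _ _)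
    exact hx (h1.restrictScalars ℚ)
  have hinj : ∀ n : ℕ, Function.Injective (Polynomial.aeval (R := k) (x + n)) := by
    intro n
    have h1 : Transcendental k (x + n) := by
      intro h2
      apply hxk
      have h3 : IsAlgebraic k ((n : ℕ) : ℂ) := by
        have h4 := isAlgebraic_algebraMap (R := k) (A := ℂ) (n : k)
        rwa [map_natCast] at h4
      have h5 := h2.sub h3
      rwa [add_sub_cancel_right] at h5
    exact transcendental_iff_injective.1 h1
  let j : ℕ → FractionRing (Polynomial k) →+* ℂ := fun n =>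
    IsFractionRing.lift (A := Polynomial k) (g := (Polynomial.aeval (R := k) (x + n) : Polynomial k →+* ℂ))
      (hinj n)
  have hj : ∀ n p, j n (algebraMap (Polynomial k) (FractionRing (Polynomial k)) p) =
      Polynomial.aeval (R := k) (x + n) p := fun n p => IsFractionRing.lift_algebraMap _ _
  have hcard : Cardinal.mk (FractionRing (Polynomial k)) ≤ Cardinal.aleph0 := by
    have hc : Countable k := (Module.finBasis ℚ k).equivFun.toEquiv.injective.countable
    rw [Cardinal.mk_fractionRing]
    exact (Polynomial.cardinalMk_le_max).trans (max_le (Cardinal.mk_le_aleph0_iff.mpr hc) le_rfl)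
  have hC : Cardinal.aleph0 < Cardinal.mk ℂ := by
    rw [Cardinal.mk_complex]; exact Cardinal.aleph0_lt_continuum
  have key : ∀ n : ℕ, x + n ∈ T := by
    intro n
    obtain ⟨t, ht⟩ := @oAlg_aut (FractionRing (Polynomial k)) ℂ ℂ _ _ _ (j 0).toAlgebra (j n).toAlgebra
      _ _ hcard hC hC rfl
    have ht' : ∀ p : Polynomial k, t (Polynomial.aeval (R := k) (x + (0 : ℕ)) p) =
        Polynomial.aeval (R := k) (x + n) p := by
      intro p
      rw [← hj, ← hj]
      exact ht _
    have h1 := ht' Polynomial.X
    rw [Polynomial.aeval_X, Polynomial.aeval_X, Nat.cast_zero, add_zero] at h1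
    have h2 := h t (fun y => by
      have h3 := ht' (Polynomial.C y)
      rw [Polynomial.aeval_C, Polynomial.aeval_C] at h3
      exact h3)
    rwa [h1] at h2
  have hinf : (T : Set ℂ).Infinite := by
    refine Set.infinite_of_injective_forall_mem (f := fun n : ℕ => x + n) ?_ key
    intro m n hmn
    exact Nat.cast_injective (add_left_cancel hmn)
  exact hinf T.finite_toSet

end CMS
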