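import Mathlib
import Pool.Agent.Lib.CMS.Defs
import Pool.Agent.Lib.CMS.LBas
import Pool.Agent.Lib.CMS.LWp
import Pool.Agent.Lib.CMS.LAdd
import Pool.Agent.Lib.CMS.LUni
import Pool.Agent.Lib.CMS.OLc1
import Pool.Agent.Lib.CMS.OLc2
import Pool.Agent.Lib.CMS.CBas

/-!
# OSep: cross ratios separate the ray classes (paper 2.9)  (about 300 lines)

PROOF. For `a ∈ 𝓞 k`, `f ∤ a`: `X(a) = wp (Lc e b) (e a/f)`, `X'(a) = wp (Lc e c) (e a/f)`.  `X(a) = X(a')` iff `a ≡ ± a' mod f` iff `X'(a) = X'(a')` (`wp_eq_iff`, `div_mem_Lc`).  There are `a_1, .., a_4`, not divisible by `f`, pairwise not congruent up to sign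
(`𝓞 k/f` has `f² ≥ 9` elements, `f² - 1 ≥ 8` nonzero, each value is taken by at most 2 classes; e.g. with a `ℤ`-basis `1?, β`: take a basis `(β₁, β₂)` of `𝓞 k` and `β₁, β₂, β₁+β₂, β₁-β₂`).
(1) AFFINE. Fix `a3, a4` with `X(a3) ≠ X(a4)`.  From `crr` equal for `(a, a3?, ...)`: `(X(a)-X(a'))/(X(a3)-X(a4)) = (X'(a)-X'(a'))/(X'(a3)-X'(a4))` for all `a, a'` not divisible by `f` (these quadruples are admissible), so `X' = λ X + μ` on all `a` with `f ∤ a`,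
`λ = (X'(a3)-X'(a4))/(X(a3)-X(a4)) ≠ 0`.
(2) For `a, a'` with `X(a) ≠ X(a')` (so `a ± a'` are not divisible by `f`), `x = X(a)`, `y = X(a')`, by `wp_sum` for both lattices (points `e a/f`, `e a'/f`, sum and difference `e(a ± a')/f`):
`(X(a+a') + X(a-a')) (x-y)² = 2xy(x+y) - (g2/2)(x+y) - g3`, and for `X' = λX + μ` with `g2', g3'`.  Subtract `λ³` times the first from the second:
`-12 μ λ² x y + A (x+y) + B = 0`, `A = (λ g2' - λ³ g2)/2 - 6 λ μ²`, `B = g3' - λ³ g3 - 4 μ³ + μ g2'`.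
(3) This holds for all pairs of distinct values among 4 distinct values.  For fixed `y` it is linear in `x` with 3 roots: `-12 μ λ² y + A = 0` and `A y + B = 0`; for two different `y`: `μ λ² = 0`, so `μ = 0`, `A = 0`, `B = 0`; so `g2' = λ² g2`, `g3' = λ³ g3`.
(4) Choose `ε` with `ε² = λ⁻¹`.  `g2' = g2/ε⁴`, `g3' = g3/ε⁶`, so `Lc e c = sc ε (Lc e b)` (`lat_scaled`), and `wp (Lc e c) (e a/f) = λ X(a) = wp (Lc e c) (ε e a/f)` (`wp_sc`).  For `a = 1`: `1/f - ε/f ∈ Lc e c` or `1/f + ε/f ∈ Lc e c` (`wp_eq_iff`; `ε/f ∉ Lc e c` as `1/f ∉ Lc e b`);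
replace `ε` by `-ε` (`sc (-ε) L = sc ε L`): `(ε - 1)/f ∈ Lc e c`.
(5) Choose `0 ≠ y ∈ c`, `y ≡ 1 mod f` (`c` prime to `f`).  `((ε-1)/f) e(y) ∈ e(𝓞 k)`, so `ε e(y) = e(x)` with `x ∈ 𝓞 k`, `x ≡ y ≡ 1 mod f`, `x ≠ 0`.  `Lc e ((y) b) = e(y)⁻¹ Lc e b = e(y)⁻¹ ε⁻¹ Lc e c = e(x)⁻¹ Lc e c = Lc e ((x) c)` (`Lc_span`), so `(y) b = (x) c` (`Lc_inj`): `Req f b c`.
-/

set_option autoImplicit false

namespace CMS

open Complex NumberField MPd9f52e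

variable {k : Type} [Field k] [NumberField k]

private lemma sep_alg {x1 x2 x3 P A B : ℂ} (h12 : P * (x1 * x2) + A * (x1 + x2) + B = 0)
    (h13 : P * (x1 * x3) + A * (x1 + x3) + B = 0) (h23 : P * (x2 * x3) + A * (x2 + x3) + B = 0)
    (n12 : x1 ≠ x2) (n13 : x1 ≠ x3) (n23 : x2 ≠ x3) : P = 0 ∧ A = 0 ∧ B = 0 := by
  have e1 : P * x1 + A = 0 := by
    have h : (x2 - x3) * (P * x1 + A) = 0 := by linear_combination h12 - h13
    exact (mul_eq_zero.1 h).resolve_left (sub_ne_zero.2 n23)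
  have e2 : P * x2 + A = 0 := by
    have h : (x1 - x3) * (P * x2 + A) = 0 := by linear_combination h12 - h23
    exact (mul_eq_zero.1 h).resolve_left (sub_ne_zero.2 n13)
  have hP : P = 0 := by
    have h : (x1 - x2) * P = 0 := by linear_combination e1 - e2
    exact (mul_eq_zero.1 h).resolve_left (sub_ne_zero.2 n12)
  have hA : A = 0 := by
    rw [hP] at e1
    linear_combination e1
  refine ⟨hP, hA, ?_⟩
  rw [hP, hA] at h12
  linear_combination h12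

private lemma sep_pair {x y s t g2 g3 g2' g3' lam mu x' y' s' t' : ℂ}
    (h : (s + t) * (x - y) ^ 2 = 2 * x * y * (x + y) - g2 / 2 * (x + y) - g3)
    (h' : (s' + t') * (x' - y') ^ 2 = 2 * x' * y' * (x' + y') - g2' / 2 * (x' + y') - g3')
    (hx : x' = lam * x + mu) (hy : y' = lam * y + mu) (hs : s' = lam * s + mu)
    (ht : t' = lam * t + mu) :
    (-12 * mu * lam ^ 2) * (x * y) + ((lam * g2' - lam ^ 3 * g2) / 2 - 6 * lam * mu ^ 2) * (x + y) +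
      (g3' - lam ^ 3 * g3 - 4 * mu ^ 3 + mu * g2') = 0 := by
  subst hx hy hs ht
  linear_combination h' - lam ^ 3 * h

private lemma sep_basis (hk : IQ k) : ∃ β₁ β₂ : 𝓞 k, ∀ (f : ℕ), 3 ≤ f → ∀ m n : ℤ,
    (f : 𝓞 k) ∣ (m : 𝓞 k) * β₁ + (n : 𝓞 k) * β₂ → (f : ℤ) ∣ m ∧ (f : ℤ) ∣ n := by
  have hr : Module.finrank ℤ (𝓞 k) = 2 := by
    rw [RingOfIntegers.rank, hk.two]
  let B := Module.finBasisOfFinrankEq ℤ (𝓞 k) hr
  refine ⟨B 0, B 1, fun f _ m n h => ?_⟩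
  obtain ⟨d, hd⟩ := h
  have h1 : m • B 0 + n • B 1 = (f : ℤ) • d := by
    rw [zsmul_eq_mul, zsmul_eq_mul, zsmul_eq_mul, hd]
    push_cast
    rfl
  have h2 := congrArg B.repr h1
  rw [map_add, map_zsmul, map_zsmul, map_zsmul, B.repr_self, B.repr_self] at h2
  have h3 := DFunLike.congr_fun h2 0
  have h4 := DFunLike.congr_fun h2 1
  simp at h3 h4
  exact ⟨⟨_, h3⟩, ⟨_, h4⟩⟩

theorem crr_sep (hk : IQ k) (e : k →+* ℂ) {f : ℕ} (hf : 3 ≤ f) {b c : Ideal (𝓞 k)} (hb : Cop f b) (hc : Cop f c)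
    (h : ∀ a : Fin 4 → 𝓞 k, Adm f a → crr e f b a = crr e f c a) : Req f b c := by
  have hf0 : f ≠ 0 := by omega
  have hfC : (f : ℂ) ≠ 0 := Nat.cast_ne_zero.2 hf0
  have hL := isLat_Lc hk e hb.1
  have hL' := isLat_Lc hk e hc.1
  have n1 : ∀ a : 𝓞 k, ¬ (f : 𝓞 k) ∣ a → e (a : k) / f ∉ Lc e b :=
    fun a ha h1 => ha ((div_mem_Lc hf0 hb a).1 h1)
  have n2 : ∀ a : 𝓞 k, ¬ (f : 𝓞 k) ∣ a → e (a : k) / f ∉ Lc e c :=
    fun a ha h1 => ha ((div_mem_Lc hf0 hc a).1 h1)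
  have hadd : ∀ a a' : 𝓞 k, e ((a + a' : 𝓞 k) : k) / f = e (a : k) / f + e (a' : k) / f := by
    intro a a'
    rw [← add_div]
    simp
  have hsub : ∀ a a' : 𝓞 k, e ((a - a' : 𝓞 k) : k) / f = e (a : k) / f - e (a' : k) / f := by
    intro a a'
    rw [← sub_div]
    simp
  -- the values
  have hv1 : ∀ a a' : 𝓞 k, ¬ (f : 𝓞 k) ∣ a → ¬ (f : 𝓞 k) ∣ a' → ¬ (f : 𝓞 k) ∣ a - a' →
      ¬ (f : 𝓞 k) ∣ a + a' → wp (Lc e b) (e (a : k) / f) ≠ wp (Lc e b) (e (a' : k) / f) := by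
    intro a a' ha ha' hs hp h1
    rcases (wp_eq_iff hL (n1 a ha) (n1 a' ha')).1 h1 with h2 | h2
    · rw [← hsub] at h2
      exact hs ((div_mem_Lc hf0 hb _).1 h2)
    · rw [← hadd] at h2
      exact hp ((div_mem_Lc hf0 hb _).1 h2)
  have hv2 : ∀ a a' : 𝓞 k, ¬ (f : 𝓞 k) ∣ a → ¬ (f : 𝓞 k) ∣ a' → ¬ (f : 𝓞 k) ∣ a - a' →
      ¬ (f : 𝓞 k) ∣ a + a' → wp (Lc e c) (e (a : k) / f) ≠ wp (Lc e c) (e (a' : k) / f) := by
    intro a a' ha ha' hs hp h1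
    rcases (wp_eq_iff hL' (n2 a ha) (n2 a' ha')).1 h1 with h2 | h2
    · rw [← hsub] at h2
      exact hs ((div_mem_Lc hf0 hc _).1 h2)
    · rw [← hadd] at h2
      exact hp ((div_mem_Lc hf0 hc _).1 h2)
  -- three elements
  obtain ⟨β₁, β₂, hβ⟩ := sep_basis hk
  have hnd : ∀ m n : ℤ, (m = 1 ∨ m = -1 ∨ n = 1 ∨ n = -1) →
      ¬ (f : 𝓞 k) ∣ (m : 𝓞 k) * β₁ + (n : 𝓞 k) * β₂ := by
    intro m n hmn h1
    obtain ⟨h2, h3⟩ := hβ f hf m n h1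
    have key : ∀ z : ℤ, (z = 1 ∨ z = -1) → ¬ (f : ℤ) ∣ z := by
      intro z hz hd
      have h4 : (f : ℤ) ∣ 1 := by
        rcases hz with rfl | rfl
        · exact hd
        · exact (dvd_neg).1 hd
      have h5 := Int.le_of_dvd one_pos h4
      omega
    rcases hmn with h4 | h4 | h4 | h4
    · exact key m (Or.inl h4) h2
    · exact key m (Or.inr h4) h2
    · exact key n (Or.inl h4) h3
    · exact key n (Or.inr h4) h3
  have c1 : ¬ (f : 𝓞 k) ∣ β₁ := by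
    have := hnd 1 0 (by simp)
    simpa using this
  have c2 : ¬ (f : 𝓞 k) ∣ β₂ := by
    have := hnd 0 1 (by simp)
    simpa using this
  have c12 : ¬ (f : 𝓞 k) ∣ β₁ + β₂ := by
    have := hnd 1 1 (by simp)
    simpa using this
  have c12' : ¬ (f : 𝓞 k) ∣ β₁ - β₂ := by
    have := hnd 1 (-1) (by simp)
    have e1 : ((1 : ℤ) : 𝓞 k) * β₁ + ((-1 : ℤ) : 𝓞 k) * β₂ = β₁ - β₂ := by push_cast; ring
    rwa [e1] at this
  have c13 : ¬ (f : 𝓞 k) ∣ β₁ + (β₁ + β₂) := by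
    have := hnd 2 1 (by simp)
    have e1 : ((2 : ℤ) : 𝓞 k) * β₁ + ((1 : ℤ) : 𝓞 k) * β₂ = β₁ + (β₁ + β₂) := by push_cast; ring
    rwa [e1] at this
  have c13' : ¬ (f : 𝓞 k) ∣ β₁ - (β₁ + β₂) := by
    have := hnd 0 (-1) (by simp)
    have e1 : ((0 : ℤ) : 𝓞 k) * β₁ + ((-1 : ℤ) : 𝓞 k) * β₂ = β₁ - (β₁ + β₂) := by push_cast; ring
    rwa [e1] at this
  have c23 : ¬ (f : 𝓞 k) ∣ β₂ + (β₁ + β₂) := by
    have := hnd 1 2 (by simp)
    have e1 : ((1 : ℤ) : 𝓞 k) * β₁ + ((2 : ℤ) : 𝓞 k) * β₂ = β₂ + (β₁ + β₂) := by push_cast; ring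
    rwa [e1] at this
  have c23' : ¬ (f : 𝓞 k) ∣ β₂ - (β₁ + β₂) := by
    have := hnd (-1) 0 (by simp)
    have e1 : ((-1 : ℤ) : 𝓞 k) * β₁ + ((0 : ℤ) : 𝓞 k) * β₂ = β₂ - (β₁ + β₂) := by push_cast; ring
    rwa [e1] at this
  -- the affine relation
  have hx12 := hv1 β₁ β₂ c1 c2 c12' c12
  have hx12' := hv2 β₁ β₂ c1 c2 c12' c12
  obtain ⟨lam, mu, hlam, haff⟩ : ∃ lam mu : ℂ, lam ≠ 0 ∧ ∀ a : 𝓞 k, ¬ (f : 𝓞 k) ∣ a →
      wp (Lc e c) (e (a : k) / f) = lam * wp (Lc e b) (e (a : k) / f) + mu := by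
    refine ⟨(wp (Lc e c) (e (β₁ : k) / f) - wp (Lc e c) (e (β₂ : k) / f)) /
      (wp (Lc e b) (e (β₁ : k) / f) - wp (Lc e b) (e (β₂ : k) / f)),
      wp (Lc e c) (e (β₂ : k) / f) -
      (wp (Lc e c) (e (β₁ : k) / f) - wp (Lc e c) (e (β₂ : k) / f)) /
      (wp (Lc e b) (e (β₁ : k) / f) - wp (Lc e b) (e (β₂ : k) / f)) *
        wp (Lc e b) (e (β₂ : k) / f),
      div_ne_zero (sub_ne_zero.2 hx12') (sub_ne_zero.2 hx12), fun a ha => ?_⟩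
    have h1 := h ![a, β₂, β₁, β₂] (by
      refine ⟨fun i => ?_, c12', c12⟩
      fin_cases i
      · exact ha
      · exact c2
      · exact c1
      · exact c2)
    have h2 : (wp (Lc e b) (e (a : k) / f) - wp (Lc e b) (e (β₂ : k) / f)) /
        (wp (Lc e b) (e (β₁ : k) / f) - wp (Lc e b) (e (β₂ : k) / f)) =
        (wp (Lc e c) (e (a : k) / f) - wp (Lc e c) (e (β₂ : k) / f)) /
        (wp (Lc e c) (e (β₁ : k) / f) - wp (Lc e c) (e (β₂ : k) / f)) := h1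
    have n3 := sub_ne_zero.2 hx12
    have n4 := sub_ne_zero.2 hx12'
    rw [div_eq_div_iff n3 n4] at h2
    field_simp
    linear_combination -h2
  -- the relation between the coefficients
  have hrel : ∀ a a' : 𝓞 k, ¬ (f : 𝓞 k) ∣ a → ¬ (f : 𝓞 k) ∣ a' → ¬ (f : 𝓞 k) ∣ a - a' →
      ¬ (f : 𝓞 k) ∣ a + a' →
      (-12 * mu * lam ^ 2) * (wp (Lc e b) (e (a : k) / f) * wp (Lc e b) (e (a' : k) / f)) +
      ((lam * g2 (Lc e c) - lam ^ 3 * g2 (Lc e b)) / 2 - 6 * lam * mu ^ 2) *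
        (wp (Lc e b) (e (a : k) / f) + wp (Lc e b) (e (a' : k) / f)) +
      (g3 (Lc e c) - lam ^ 3 * g3 (Lc e b) - 4 * mu ^ 3 + mu * g2 (Lc e c)) = 0 := by
    intro a a' ha ha' hs hp
    have h1 := wp_sum hL (n1 a ha) (n1 a' ha') (by rw [← hadd]; exact n1 _ hp)
      (by rw [← hsub]; exact n1 _ hs)
    have h2 := wp_sum hL' (n2 a ha) (n2 a' ha') (by rw [← hadd]; exact n2 _ hp)
      (by rw [← hsub]; exact n2 _ hs)
    rw [← hadd, ← hsub] at h1 h2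
    exact sep_pair h1 h2 (haff a ha) (haff a' ha') (haff _ hp) (haff _ hs)
  obtain ⟨hP, hA, hB⟩ := sep_alg (hrel β₁ β₂ c1 c2 c12' c12) (hrel β₁ (β₁ + β₂) c1 c12 c13' c13)
    (hrel β₂ (β₁ + β₂) c2 c12 c23' c23) hx12 (hv1 β₁ (β₁ + β₂) c1 c12 c13' c13)
    (hv1 β₂ (β₁ + β₂) c2 c12 c23' c23)
  have hmu : mu = 0 := by
    have h1 : mu * (-12 * lam ^ 2) = 0 := by linear_combination hP
    refine (mul_eq_zero.1 h1).resolve_right ?_
    exact mul_ne_zero (by norm_num) (pow_ne_zero 2 hlam)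
  rw [hmu] at hA hB
  have hg2 : g2 (Lc e c) = lam ^ 2 * g2 (Lc e b) := by
    have h1 : lam * (g2 (Lc e c) - lam ^ 2 * g2 (Lc e b)) = 0 := by linear_combination 2 * hA
    exact sub_eq_zero.1 ((mul_eq_zero.1 h1).resolve_left hlam)
  have hg3 : g3 (Lc e c) = lam ^ 3 * g3 (Lc e b) := by linear_combination hB
  -- scaling
  have hnd1 : ¬ (f : 𝓞 k) ∣ 1 := by
    intro h1
    have h2 := (div_mem_Lc (e := e) hf0 hc 1).2 h1
    refine one_div_notMem (e := e) (by omega) hc ?_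
    simpa using h2
  have hone : e ((1 : 𝓞 k) : k) / f = 1 / f := by simp
  obtain ⟨ε, hε0, hεL, hε1⟩ : ∃ ε : ℂ, ε ≠ 0 ∧ Lc e c = sc ε (Lc e b) ∧
      (ε - 1) / f ∈ Lc e c := by
    obtain ⟨ε, hε⟩ := IsAlgClosed.exists_pow_nat_eq lam⁻¹ (n := 2) (by norm_num)
    have hε0 : ε ≠ 0 := by
      rintro rfl
      rw [zero_pow two_ne_zero] at hε
      exact inv_ne_zero hlam hε.symm
    have hlamε : lam = (ε ^ 2)⁻¹ := by rw [hε, inv_inv]
    have hsc : ∀ ε : ℂ, ε ≠ 0 → lam = (ε ^ 2)⁻¹ → Lc e c = sc ε (Lc e b) := by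
      intro ε hε0 hlamε
      apply lat_scaled hL hL' hε0
      · rw [hg2, hlamε]
        field_simp
      · rw [hg3, hlamε]
        field_simp
    have h1 := haff 1 hnd1
    rw [hmu, add_zero, hone] at h1
    have m1 : (1 / f : ℂ) ∉ Lc e b := one_div_notMem (by omega) hb
    have m2 : (1 / f : ℂ) ∉ Lc e c := one_div_notMem (by omega) hc
    have hs := hsc ε hε0 hlamε
    have m3 : ε * (1 / f : ℂ) ∉ Lc e c := by
      rw [hs, mem_sc_iff hε0]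
      exact m1
    have h2 : wp (Lc e c) (ε * (1 / f)) = lam * wp (Lc e b) (1 / f) := by
      rw [hs, wp_sc hε0, hlamε]
      field_simp
    have h3 : wp (Lc e c) (ε * (1 / f)) = wp (Lc e c) (1 / f) := by rw [h2, h1]
    rcases (wp_eq_iff hL' m3 m2).1 h3 with h4 | h4
    · refine ⟨ε, hε0, hs, ?_⟩
      have e1 : (ε - 1) / f = ε * (1 / f) - 1 / f := by ring
      rw [e1]
      exact h4
    · refine ⟨-ε, neg_ne_zero.2 hε0, hsc (-ε) (neg_ne_zero.2 hε0) (by rw [neg_sq, hlamε]), ?_⟩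
      have e1 : (-ε - 1) / f = -(ε * (1 / f) + 1 / f) := by ring
      rw [e1]
      exact neg_mem h4
  -- the generators
  obtain ⟨y, hy, z, hz, hyz⟩ := Ideal.isCoprime_iff_exists.1 hc.2
  obtain ⟨d, rfl⟩ := Ideal.mem_span_singleton'.1 hz
  have hy1 : (f : 𝓞 k) ∣ y - 1 := ⟨-d, by linear_combination hyz⟩
  have hy0 : y ≠ 0 := by
    rintro rfl
    apply hnd1
    exact ⟨d, by linear_combination -hyz⟩
  obtain ⟨w, hw⟩ := Lc_mul_mem hy hε1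
  have hx : e ((y + f * w : 𝓞 k) : k) = ε * e (y : k) := by
    have e1 : e ((y + f * w : 𝓞 k) : k) = e (y : k) + f * e (w : k) := by simp
    rw [e1, ← hw]
    field_simp
    ring
  have hey : e (y : k) ≠ 0 := by
    rw [map_ne_zero]
    simpa using hy0
  have hx0 : (y + f * w : 𝓞 k) ≠ 0 := by
    intro h0
    rw [h0] at hx
    have h1 : e ((0 : 𝓞 k) : k) = 0 := by simp
    rw [h1] at hx
    exact mul_ne_zero hε0 hey hx.symm
  refine ⟨y, y + f * w, hy0, hx0, hy1, ?_, ?_⟩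
  · obtain ⟨d', hd'⟩ := hy1
    exact ⟨d' + w, by linear_combination hd'⟩
  · apply Lc_inj (e := e)
    · rw [ne_eq, Ideal.mul_eq_bot, not_or, Ideal.span_singleton_eq_bot]
      exact ⟨hy0, hb.1⟩
    · rw [ne_eq, Ideal.mul_eq_bot, not_or, Ideal.span_singleton_eq_bot]
      exact ⟨hx0, hc.1⟩
    · rw [Lc_span hy0, Lc_span hx0, hεL, sc_sc, hx]
      congr 1
      field_simp

end CMS
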