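import Mathlib
import Pool.Agent.Lib.CMS.Defs
import Pool.Agent.Lib.CMS.CBas
import Pool.Agent.Lib.CMS.CFin
import Pool.Agent.Lib.CMS.OLc1
import Pool.Agent.Lib.CMS.OCr
import Pool.Agent.Lib.CMS.OSep
import Pool.Agent.Lib.CMS.OAlg
import Pool.Agent.Lib.CMS.OAct

/-!
# OFin: uniqueness of the class, finiteness of the cross ratios  (about 170 lines)

PROOF. `act_unique`: `crr e f u a = crr e f (u * ⊤) a = t (crr e f ⊤ a) = crr e f u' a` for admissible `a` (`crr_act`), so `crr_sep`.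
`crr_alg`: for `t` fixing `e(k)` there are `γ, u` with `Act e t f γ u` (`act_exists`), and `t (crr e f c a) = crr e f (u c) a = crr e f c' a` with `c' ∈ Sys k f` (`sys_spec`, `crr_req`): the orbit is finite: `alg_of_finite_orbit`.
`act_fix`: `S` = the values `crr e f ⊤ a`, `a` admissible with all `a_i` in a finite system of representatives of `𝓞 k/(f)` (finite quotient; `crr_mod`, `Adm` depends only on `a` modulo `f`).  If `t` fixes `S`: `crr e f u a = t (crr e f ⊤ a) = crr e f ⊤ a` for all admissible `a`; `crr_sep`.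
-/

set_option autoImplicit false

namespace CMS

open Complex NumberField MPd9f52e

variable {k : Type} [Field k] [NumberField k]

variable {e : k →+* ℂ} {t : ℂ ≃+* ℂ} {f : ℕ} {γ γ' : ℂ} {u u' : Ideal (𝓞 k)}

theorem act_unique (hk : IQ k) (ht : ∀ x, t (e x) = e x) (hf : 3 ≤ f) (h : Act e t f γ u) (h' : Act e t f γ' u') :
    Req f u u' := by
  have hf0 : f ≠ 0 := by omega
  refine crr_sep hk e hf h.cop h'.cop fun a ha => ?_
  have h1 := crr_act h hf0 (cop_top f) ha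
  have h2 := crr_act h' hf0 (cop_top f) ha
  rw [Ideal.mul_top] at h1 h2
  rw [← h1, h2]

theorem crr_alg (hk : IQ k) (hf : 3 ≤ f) {c : Ideal (𝓞 k)} (hc : Cop f c) {a : Fin 4 → 𝓞 k} (ha : Adm f a) :
    IsAlgebraic ℚ (crr e f c a) := by
  classical
  have hf0 : f ≠ 0 := by omega
  refine alg_of_finite_orbit e (T := (Sys k f).image fun c' => crr e f c' a) fun t ht => ?_
  obtain ⟨γ, u, h⟩ := act_exists hk ht hf
  rw [crr_act h hf0 hc ha]
  have h1 : Cop f (u * c) := cop_mul.2 ⟨h.cop, hc⟩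
  obtain ⟨c', hc', hreq⟩ := (sys_spec k hf0).2.2 (u * c) h1
  exact Finset.mem_image.2 ⟨c', hc', (crr_req hk hf0 h1 hreq a).symm⟩

private theorem ofin_reps (k : Type) [Field k] [NumberField k] {f : ℕ} (hf : f ≠ 0) :
    ∃ R : Finset (𝓞 k), ∀ x : 𝓞 k, ∃ r ∈ R, (f : 𝓞 k) ∣ x - r := by
  classical
  have hI : Ideal.span {(f : 𝓞 k)} ≠ ⊥ := by
    rw [ne_eq, Ideal.span_singleton_eq_bot]
    exact Nat.cast_ne_zero.2 hf
  have hfin : Finite (𝓞 k ⧸ Ideal.span {(f : 𝓞 k)}) := Ideal.finiteQuotientOfFreeOfNeBot _ hI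
  have hft : Fintype (𝓞 k ⧸ Ideal.span {(f : 𝓞 k)}) := Fintype.ofFinite _
  refine ⟨Finset.univ.image fun q : 𝓞 k ⧸ Ideal.span {(f : 𝓞 k)} => Quotient.out q, fun x => ?_⟩
  refine ⟨Quotient.out (Ideal.Quotient.mk (Ideal.span {(f : 𝓞 k)}) x),
    Finset.mem_image.2 ⟨_, Finset.mem_univ _, rfl⟩, ?_⟩
  rw [← Ideal.mem_span_singleton, ← Ideal.Quotient.eq]
  exact (Quotient.out_eq (Ideal.Quotient.mk (Ideal.span {(f : 𝓞 k)}) x)).symm

/-- the cross ratios of level `f` form a finite set -/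
theorem crr_finite (hk : IQ k) (e : k →+* ℂ) (hf : 3 ≤ f) :
    {x : ℂ | ∃ (c : Ideal (𝓞 k)) (a : Fin 4 → 𝓞 k), Cop f c ∧ Adm f a ∧ crr e f c a = x}.Finite := by
  classical
  have hf0 : f ≠ 0 := by omega
  obtain ⟨R, hR⟩ := ofin_reps k hf0
  refine Set.Finite.subset (((Sys k f) ×ˢ (Fintype.piFinset fun _ : Fin 4 => R)).image
    (fun p => crr e f p.1 p.2)).finite_toSet ?_
  rintro x ⟨c, a, hc, ha, rfl⟩
  obtain ⟨c', hc', hreq⟩ := (sys_spec k hf0).2.2 c hc
  have hcc : Cop f c' := (sys_spec k hf0).1 c' hc'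
  choose r hr hrd using hR
  refine Finset.mem_coe.2 (Finset.mem_image.2 ⟨(c', fun i => r (a i)), ?_, ?_⟩)
  · refine Finset.mem_product.2 ⟨hc', Fintype.mem_piFinset.2 fun i => hr (a i)⟩
  · show crr e f c' (fun i => r (a i)) = crr e f c a
    rw [crr_req hk hf0 hc hreq a]
    exact (crr_mod hk hf0 hcc fun i => hrd (a i)).symm

/-- finitely many algebraic numbers control the class of `u` -/
theorem act_fix (hk : IQ k) (e : k →+* ℂ) (hf : 3 ≤ f) : ∃ S : Finset ℂ, (∀ x ∈ S, IsAlgebraic ℚ x) ∧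
    ∀ t : ℂ ≃+* ℂ, (∀ x, t (e x) = e x) → (∀ x ∈ S, t x = x) → ∀ γ u, Act e t f γ u → Req f u ⊤ := by
  have hf0 : f ≠ 0 := by omega
  refine ⟨(crr_finite hk e hf).toFinset, fun x hx => ?_, fun t ht hS γ u h => ?_⟩
  · obtain ⟨c, a, hc, ha, rfl⟩ := (crr_finite hk e hf).mem_toFinset.1 hx
    exact crr_alg hk hf hc ha
  · refine crr_sep hk e hf h.cop (cop_top f) fun a ha => ?_
    have h1 := crr_act h hf0 (cop_top f) ha
    rw [Ideal.mul_top] at h1
    rw [← h1]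
    exact hS _ ((crr_finite hk e hf).mem_toFinset.2 ⟨⊤, a, cop_top f, ha, rfl⟩)

end CMS
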