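import Mathlib
import Pool.Agent.Lib.CMS.Defs
import Pool.Agent.Lib.CMS.OCr
import Pool.Agent.Lib.CMS.OSep
import Pool.Agent.Lib.CMS.OFin
import Pool.Agent.Lib.CMS.OAct
import Pool.Agent.Lib.CMS.CBas
import Pool.Agent.Lib.CMS.FKron
import Pool.Agent.Lib.CMS.FDist

/-!
# FFrob: the Frobenius law for valuations (paper 4.1)  (about 170 lines)

PROOF. The set `T` of all cross ratios of level `f` is finite (`crr_finite`) and consists of algebraic numbers (`crr_alg`).  Let `N0 ≥ f` be larger than all the numbers `n` of `alg_val` for the nonzero differences of elements of `T`.  For a prime `q > N0`: `q` is prime to `f` and to these `n`; `q = absNorm P ∈ P`, so `v q < 1`, `v n = 1` (`val_coprime`):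
two distinct elements of `T` have difference of value `1`.  `Cop f P` (`cop_prime`).
For admissible `a`: `t (crr e f ⊤ a) = crr e f u a` (`crr_act`, `u * ⊤ = u`), `v (t (crr e f ⊤ a) - crr e f ⊤ a ^ q) < 1`, `v (crr e f P a - crr e f ⊤ a ^ q) < 1` (`kron`, `c = ⊤`).  So `v (crr e f u a - crr e f P a) < 1`, hence they are equal.  `crr_sep`.
-/

set_option autoImplicit false

namespace CMS

open Complex NumberField MPd9f52e

variable {k : Type} [Field k] [NumberField k]

theorem frob_val (hk : IQ k) (e : k →+* ℂ) {f : ℕ} (hf : 3 ≤ f) : ∃ N0 : ℕ, ∀ q : ℕ, q.Prime → N0 < q →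
    ∀ P : Ideal (𝓞 k), P.IsPrime → Ideal.absNorm P = q →
    ∀ (Γ : Type) [LinearOrderedCommGroupWithZero Γ] (v : Valuation ℂ Γ), (∀ x ∈ P, v (e (x : k)) < 1) →
    ∀ t : ℂ ≃+* ℂ, (∀ x, t (e x) = e x) →
    (∀ (c : Ideal (𝓞 k)) (a : Fin 4 → 𝓞 k), Cop f c → Adm f a → v (t (crr e f c a) - crr e f c a ^ q) < 1) →
    ∀ γ u, Act e t f γ u → Req f u P := by
  classical
  have hf0 : f ≠ 0 := by omega
  have hfin := crr_finite hk e hf
  have hmem : ∀ (c : Ideal (𝓞 k)) (a : Fin 4 → 𝓞 k), Cop f c → Adm f a → crr e f c a ∈ hfin.toFinset :=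
    fun c a hc ha => hfin.mem_toFinset.2 ⟨c, a, hc, ha, rfl⟩
  have halg : ∀ x ∈ hfin.toFinset, IsAlgebraic ℚ x := by
    intro x hx
    obtain ⟨c, a, hc, ha, rfl⟩ := hfin.mem_toFinset.1 hx
    exact crr_alg hk hf hc ha
  have hex : ∀ x y : ℂ, ∃ n : ℕ, x ∈ hfin.toFinset → y ∈ hfin.toFinset → x ≠ y → n ≠ 0 ∧
      ∀ (Γ : Type) [LinearOrderedCommGroupWithZero Γ] (v : Valuation ℂ Γ), v (n : ℂ) = 1 → v (x - y) = 1 := by
    intro x y
    by_cases h : x ∈ hfin.toFinset ∧ y ∈ hfin.toFinset ∧ x ≠ y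
    · obtain ⟨n, hn⟩ := alg_val ((halg x h.1).sub (halg y h.2.1)) (sub_ne_zero.2 h.2.2)
      exact ⟨n, fun _ _ _ => hn⟩
    · exact ⟨0, fun h1 h2 h3 => absurd ⟨h1, h2, h3⟩ h⟩
  choose n hn using hex
  refine ⟨f + ∑ x ∈ hfin.toFinset, ∑ y ∈ hfin.toFinset, n x y,
    fun q hq hq0 P hP hN Γ _ v hv t ht hval γ u hact => ?_⟩
  have hqf : q.Coprime f := by
    rw [Nat.Prime.coprime_iff_not_dvd hq]
    intro hd
    exact absurd (Nat.le_of_dvd (by omega) hd) (by omega)
  have hqP : (q : 𝓞 k) ∈ P := by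
    have h1 := Ideal.absNorm_mem P
    rwa [hN] at h1
  have hP0 : P ≠ ⊥ := by
    rintro rfl
    rw [Ideal.absNorm_bot] at hN
    exact hq.ne_zero hN.symm
  have hcP : Cop f P := by
    rw [cop_prime hq hP hqP hP0]
    intro hd
    exact absurd (Nat.le_of_dvd (by omega) hd) (by omega)
  have hvq : v (q : ℂ) < 1 := by
    have h1 := hv _ hqP
    have e1 : e (((q : 𝓞 k) : 𝓞 k) : k) = (q : ℂ) := by simp
    rwa [e1] at h1
  refine crr_sep hk e hf hact.cop hcP fun a ha => ?_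
  by_contra hne
  have m1 := hmem u a hact.cop ha
  have m2 := hmem P a hcP ha
  obtain ⟨hn0, hn1⟩ := hn _ _ m1 m2 hne
  have hlt : n (crr e f u a) (crr e f P a) < q := by
    have h1 : n (crr e f u a) (crr e f P a) ≤ ∑ y ∈ hfin.toFinset, n (crr e f u a) y :=
      Finset.single_le_sum (f := fun y => n (crr e f u a) y) (fun _ _ => Nat.zero_le _) m2
    have h2 : ∑ y ∈ hfin.toFinset, n (crr e f u a) y ≤
        ∑ x ∈ hfin.toFinset, ∑ y ∈ hfin.toFinset, n x y :=
      Finset.single_le_sum (f := fun x => ∑ y ∈ hfin.toFinset, n x y) (fun _ _ => Nat.zero_le _) m1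
    omega
  have hco : q.Coprime (n (crr e f u a) (crr e f P a)) := by
    rw [Nat.Prime.coprime_iff_not_dvd hq]
    intro hd
    exact absurd (Nat.le_of_dvd (Nat.pos_of_ne_zero hn0) hd) (by omega)
  have hone := hn1 Γ v (val_coprime hco hvq)
  have h1 := crr_act hact hf0 (cop_top f) ha
  rw [Ideal.mul_top] at h1
  have h2 := hval ⊤ a (cop_top f) ha
  rw [h1] at h2
  have h3 := (kron hk e v hf hq hqf hP hN hv (cop_top f) ha).1
  rw [Ideal.mul_top] at h3
  have h4 : v (crr e f u a - crr e f P a) < 1 := by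
    have e1 : crr e f u a - crr e f P a =
        (crr e f u a - crr e f ⊤ a ^ q) - (crr e f P a - crr e f ⊤ a ^ q) := by ring
    rw [e1]
    exact (v.map_sub _ _).trans_lt (max_lt h2 h3)
  rw [hone] at h4
  exact lt_irrefl _ h4

end CMS
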