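import Mathlib
import Pool.Agent.Lib.CMS.Defs

/-!
# FUnq: uniqueness of the Frobenius element for almost all primes  (about 150 lines)

PROOF. `F ≃ₐ[k] F` is finite.  For `g ≠ g'` there is `θ ∈ 𝓞 F` with `g θ ≠ g' θ` (`F` is generated by `𝓞 F` as a field: fractions).  `δ = g θ - g' θ ∈ 𝓞 F`, nonzero (both are integral), and `n = |N(δ)|` (`absNorm (span {δ})`, `≠ 0`).  Let `N0` be larger than all these `n`.
If `q > N0`, `q ∈ Q`, and `g, g'` are both Frobenius elements at `Q`: `δ = (gθ - θ^q) - (g'θ - θ^q) ∈ Q`, `n ∈ (δ) ⊆ Q` (`Ideal.absNorm_mem`), `q ∈ Q`, `q` prime `> n > 0` so coprime to `n`: `1 ∈ Q`, contradiction.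
-/

set_option autoImplicit false

namespace CMS

open Complex NumberField MPd9f52e

variable {k : Type} [Field k] [NumberField k]

private theorem funq_pair {F : Type} [Field F] [NumberField F] [Algebra k F] (g g' : F ≃ₐ[k] F) (h : g ≠ g') :
    ∃ n : ℕ, 0 < n ∧ ∀ (q : ℕ) (Q : Ideal (𝓞 F)),
    (∀ x y : 𝓞 F, (y : F) = g x → y - x ^ q ∈ Q) → (∀ x y : 𝓞 F, (y : F) = g' x → y - x ^ q ∈ Q) →
      (n : 𝓞 F) ∈ Q := by
  obtain ⟨θ, hθ⟩ : ∃ θ : 𝓞 F, g (θ : F) ≠ g' (θ : F) := by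
    by_contra hcon
    push Not at hcon
    apply h
    ext x
    obtain ⟨a, b, hb, rfl⟩ := IsFractionRing.div_surjective (A := 𝓞 F) x
    rw [map_div₀, map_div₀]
    have h1 := hcon a
    have h2 := hcon b
    rw [h1, h2]
  have hint : ∀ g : F ≃ₐ[k] F, ∃ y : 𝓞 F, (y : F) = g (θ : F) := by
    intro g
    have h1 : IsIntegral ℤ (g (θ : F)) := map_isIntegral_int g.toAlgHom.toRingHom θ.isIntegral_coe
    exact ⟨⟨g (θ : F), h1⟩, rfl⟩
  obtain ⟨y, hy⟩ := hint g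
  obtain ⟨y', hy'⟩ := hint g'
  have hne : y - y' ≠ 0 := by
    intro h0
    apply hθ
    rw [← hy, ← hy', sub_eq_zero.1 h0]
  refine ⟨Ideal.absNorm (Ideal.span {y - y'}), ?_, fun q Q h1 h2 => ?_⟩
  · rw [Nat.pos_iff_ne_zero, ne_eq, Ideal.absNorm_eq_zero_iff, Ideal.span_singleton_eq_bot]
    exact hne
  · have h3 : y - y' ∈ Q := by
      have e : y - y' = (y - θ ^ q) - (y' - θ ^ q) := by ring
      rw [e]
      exact Q.sub_mem (h1 θ y hy) (h2 θ y' hy')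
    have h4 : Ideal.span {y - y'} ≤ Q := (Ideal.span_singleton_le_iff_mem Q).2 h3
    exact h4 (Ideal.absNorm_mem _)

theorem frob_unique_large {F : Type} [Field F] [NumberField F] [Algebra k F] : ∃ N0 : ℕ, ∀ q : ℕ, q.Prime → N0 < q →
    ∀ Q : Ideal (𝓞 F), Q.IsPrime → (q : 𝓞 F) ∈ Q → ∀ g g' : F ≃ₐ[k] F,
    (∀ x y : 𝓞 F, (y : F) = g x → y - x ^ q ∈ Q) → (∀ x y : 𝓞 F, (y : F) = g' x → y - x ^ q ∈ Q) → g = g' := by
  classical
  have hfd : FiniteDimensional k F := Module.Finite.of_restrictScalars_finite ℚ k F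
  have hfin : Finite (F ≃ₐ[k] F) := inferInstance
  have hft : Fintype (F ≃ₐ[k] F) := Fintype.ofFinite _
  have hex : ∀ g g' : F ≃ₐ[k] F, ∃ n : ℕ, g ≠ g' → 0 < n ∧ ∀ (q : ℕ) (Q : Ideal (𝓞 F)),
      (∀ x y : 𝓞 F, (y : F) = g x → y - x ^ q ∈ Q) → (∀ x y : 𝓞 F, (y : F) = g' x → y - x ^ q ∈ Q) →
        (n : 𝓞 F) ∈ Q := by
    intro g g'
    by_cases h : g = g'
    · exact ⟨0, fun h' => absurd h h'⟩
    · obtain ⟨n, hn⟩ := funq_pair g g' h
      exact ⟨n, fun _ => hn⟩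
  choose n hn using hex
  refine ⟨∑ g, ∑ g', n g g', fun q hq hq0 Q hQ hqQ g g' h1 h2 => ?_⟩
  by_contra hne
  obtain ⟨hpos, hmem⟩ := hn g g' hne
  have h3 := hmem q Q h1 h2
  have h4 : n g g' < q := by
    refine lt_of_le_of_lt ?_ hq0
    refine le_trans ?_ (Finset.single_le_sum (f := fun g => ∑ g', n g g') (fun _ _ => Nat.zero_le _)
      (Finset.mem_univ g))
    exact Finset.single_le_sum (f := fun g' => n g g') (fun _ _ => Nat.zero_le _) (Finset.mem_univ g')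
  have hco : Nat.Coprime q (n g g') := by
    rw [Nat.Prime.coprime_iff_not_dvd hq]
    intro hd
    exact absurd (Nat.le_of_dvd hpos hd) (by omega)
  apply hQ.ne_top
  rw [Ideal.eq_top_iff_one]
  obtain ⟨a, b, hab⟩ := Nat.isCoprime_iff_coprime.2 hco
  have h5 : ((a * q + b * (n g g' : ℤ) : ℤ) : 𝓞 F) = 1 := by rw [hab]; simp
  rw [← h5]
  push_cast
  exact Q.add_mem (Q.mul_mem_left _ hqQ) (Q.mul_mem_left _ h3)

end CMS
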