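import Mathlib
import Pool.Agent.Lib.CMS.Defs
import Pool.Agent.Lib.CMS.FBig
import Pool.Agent.Lib.CMS.FUnq
import Pool.Agent.Lib.CMS.FExt
import Pool.Agent.Lib.CMS.FFrob
import Pool.Agent.Lib.CMS.OFin
import Pool.Agent.Lib.CMS.OCr
import Pool.Agent.Lib.CMS.OAct
import Pool.Agent.Lib.CMS.FKron

/-!
# FLift: the Frobenius law for number fields (paper 4.1)  (about 240 lines)

PROOF. `e = jF ∘ algebraMap k F`.  `T` = the finite set of cross ratios of level `f` (`crr_finite`, `crr_alg`).  `F'`, `j'` from `exists_big jF T`.  `N0` larger than the bounds of `frob_val`, `frob_unique_large` for `F/k`, `frob_ext` for `F', j', T`, and `≥ f`.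
Let `q, P, Q, g` be given.  `Q'` a prime of `𝓞 F'` above `Q` (integral extension, `Ideal.exists_ideal_over_prime_of_isIntegral` or `exists_ideal_comap_eq`), `g'` a Frobenius element of `F'/k` at `Q'` (`frob_elt`).  Its restriction to `F` (`AlgEquiv.restrictNormalHom F`; `F/k` normal) is a Frobenius element at `Q`, so equal to `g` (`frob_unique_large`).
`t` with `t ∘ j' = j' ∘ g'` (`exists_aut`); so `t (jF x) = jF (g x)` and `t` fixes `e(k)`.  `V` from `frob_ext` with `g'`: `V (e x) < 1` for `x ∈ P`; for cross ratios `x ∈ T`: `V x ≤ 1` (`kron`, `q` prime to `f`), so `V (t x - x^q) < 1`.  `act_exists`, `frob_val`.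
-/

set_option autoImplicit false

namespace CMS

open Complex NumberField MPd9f52e

variable {k : Type} [Field k] [NumberField k]

/-- Frobenius law (4.1) -/
theorem frob_lift (hk : IQ k) {f : ℕ} (hf : 3 ≤ f) (F : Type) [Field F] [NumberField F] [Algebra k F] [IsGalois k F]
    (jF : F →+* ℂ) : ∃ N0 : ℕ, ∀ q : ℕ, q.Prime → N0 < q → ∀ P : Ideal (𝓞 k), P.IsPrime → Ideal.absNorm P = q →
      ∀ Q : Ideal (𝓞 F), Q.IsPrime → Q.comap (algebraMap (𝓞 k) (𝓞 F)) = P → ∀ g : F ≃ₐ[k] F,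
        (∀ x y : 𝓞 F, (y : F) = g x → y - x ^ q ∈ Q) →
        ∃ t : ℂ ≃+* ℂ, (∀ x, t (jF x) = jF (g x)) ∧ ∃ γ u, Act (jF.comp (algebraMap k F)) t f γ u ∧ Req f u P := by
  classical
  set e : k →+* ℂ := jF.comp (algebraMap k F) with he
  obtain ⟨F', iF1, iF2, iF3, iF4, iF5, iF6, j', hj', hTj⟩ := exists_big (k := k) jF (crr_finite hk e hf).toFinset
    (fun x hx => by
      obtain ⟨c, a, hc, ha, rfl⟩ := (crr_finite hk e hf).mem_toFinset.1 hx
      exact crr_alg hk hf hc ha)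
  obtain ⟨N1, h1⟩ := frob_val hk e hf
  obtain ⟨N2, h2⟩ := frob_unique_large (k := k) (F := F)
  obtain ⟨N3, h3⟩ := frob_ext (k := k) j' (crr_finite hk e hf).toFinset hTj
  refine ⟨N1 + N2 + N3 + f, ?_⟩
  intro q hq hN P hP hPN Q hQ hQP g hg
  have hqP : (q : 𝓞 k) ∈ P := by
    rw [← hPN]; exact Ideal.absNorm_mem P
  have hqQ : (q : 𝓞 F) ∈ Q := by
    rw [← hQP, Ideal.mem_comap, map_natCast] at hqP
    exact hqP
  have hQ0 : Q ≠ ⊥ := by
    rintro rfl
    rw [Ideal.mem_bot] at hqQ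
    exact hq.ne_zero (by exact_mod_cast hqQ)
  have hQm : Q.IsMaximal := hQ.isMaximal hQ0
  obtain ⟨Q', hQ'm, hover⟩ := Ideal.exists_maximal_ideal_liesOver_of_isIntegral (S := 𝓞 F') Q
  have hQ'Q : Q'.comap (algebraMap (𝓞 F) (𝓞 F')) = Q := hover.over.symm
  have htow : ∀ x : 𝓞 k, algebraMap (𝓞 k) (𝓞 F') x =
      algebraMap (𝓞 F) (𝓞 F') (algebraMap (𝓞 k) (𝓞 F) x) := by
    intro x
    apply RingOfIntegers.coe_injective
    exact IsScalarTower.algebraMap_apply k F F' (x : k)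
  have hQ'P : Q'.comap (algebraMap (𝓞 k) (𝓞 F')) = P := by
    rw [← hQP, ← hQ'Q]
    ext x
    rw [Ideal.mem_comap, Ideal.mem_comap, Ideal.mem_comap, htow]
  have hqQ' : (q : 𝓞 F') ∈ Q' := by
    rw [← hQ'Q, Ideal.mem_comap, map_natCast] at hqQ
    exact hqQ
  obtain ⟨g', hg'⟩ := frob_elt hq hP hPN hQ'm.isPrime hQ'P
  have hcomm : ∀ x : F, algebraMap F F' (g'.restrictNormal F x) = g' (algebraMap F F' x) :=
    fun x => AlgEquiv.restrictNormal_commutes g' F x
  have hgr : g'.restrictNormal F = g := by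
    apply h2 q hq (by omega) Q hQ hqQ _ _ _ hg
    intro x y hxy
    rw [← hQ'Q, Ideal.mem_comap, map_sub, map_pow]
    apply hg'
    show algebraMap F F' (y : F) = g' (algebraMap F F' (x : F))
    rw [hxy, hcomm]
  rw [hgr] at hcomm
  obtain ⟨t, ht⟩ := MPd9f52e.exists_aut j' (j'.comp ((g' : F' ≃+* F') : F' →+* F'))
  have ht' : ∀ x, t (j' x) = j' (g' x) := ht
  have htF : ∀ x, t (jF x) = jF (g x) := by
    intro x
    rw [← hj', ht', ← hcomm, hj']
  refine ⟨t, htF, ?_⟩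
  have hte : ∀ x, t (e x) = e x := by
    intro x
    rw [he, RingHom.comp_apply, htF, g.commutes]
  obtain ⟨γ, u, hAct⟩ := act_exists hk hte hf
  refine ⟨γ, u, hAct, ?_⟩
  obtain ⟨V, hV1, hV2⟩ := h3 q hq (by omega) Q' hQ'm.isPrime hqQ' g' hg'
  have hVP : ∀ x ∈ P, V.valuation (e (x : k)) < 1 := by
    intro x hx
    rw [← hQ'P, Ideal.mem_comap] at hx
    have h4 := hV1 _ hx
    have h5 : j' ((algebraMap (𝓞 k) (𝓞 F') x : 𝓞 F') : F') = e (x : k) := by
      rw [htow, he, RingHom.comp_apply, ← hj']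
      rfl
    rwa [h5] at h4
  have hcop : q.Coprime f := (Nat.Prime.coprime_iff_not_dvd hq).2 fun hd =>
    absurd (Nat.le_of_dvd (by omega) hd) (by omega)
  apply h1 q hq (by omega) P hP hPN _ V.valuation hVP t hte _ γ u hAct
  intro c a hc ha
  exact hV2 t ht' _ ((crr_finite hk e hf).mem_toFinset.2 ⟨c, a, hc, ha, rfl⟩)
    (kron hk e V.valuation hf hq hcop hP hPN hVP hc ha).2

end CMS
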