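import Mathlib
import Pool.Agent.Lib.CMS.Defs
import Pool.Agent.Lib.CMS.LBas
import Pool.Agent.Lib.CMS.LWp
import Pool.Agent.Lib.CMS.OLc1
import Pool.Agent.Lib.CMS.OLc2
import Pool.Agent.Lib.CMS.CBas
import Pool.Agent.Lib.CMS.CCj
import Pool.Agent.Lib.MP_d9f52e_nt.GExt

/-!
# OAct2: composition, conjugation and change of level of actions (paper 2.7)  (about 220 lines)

PROOF. `act_refl`: `⊤ * c = c`.  `act_mul`: `γ'' = γ' · t' γ`: `t'(t(wp (Lc e c) x)) = t'(wp (Lc e (u c)) x / γ²) = wp (Lc e (u' (u c))) x / (γ'² (t' γ)²)`; here `f x ∈ Lc e c ≤ Lc e (u c)` and `x ∉ Lc e (u c)` by `Lc_cop`; `u' * (u * c) = (u * u') * c`.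
`act_dvd`: `f x ∈ Lc e c` implies `f' x ∈ Lc e c`; `cop_dvd`.
`act_conj`: `γ' = conj γ`.  `Lc e c = cjL (Lc e (cjI c))` (`Lc_cj`, `cjI_cjI`), `wp_cj`, and the same for `wq`, `g2`, `g3` (prove them like `wp_cj`: conjugate the sums, `cjL L` is in bijection with `L`): for `x` with `f x ∈ Lc e c`, `x ∉ Lc e c`:
`conj t conj (wp (Lc e c) x) = conj t (wp (Lc e (cjI c)) (conj x)) = conj (wp (Lc e (u * cjI c)) (conj x) / γ²) = wp (Lc e (cjI u * c)) x / (conj γ)²`.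
-/

set_option autoImplicit false

namespace CMS

open Complex NumberField MPd9f52e

variable {k : Type} [Field k] [NumberField k]

variable {e : k →+* ℂ} {t t' : ℂ ≃+* ℂ} {f : ℕ} {γ γ' : ℂ} {u u' : Ideal (𝓞 k)}

private theorem oa_tsum_cj (L : Submodule ℤ ℂ) (f : ℂ → ℂ) :
    ∑' l : cjL L, f l = ∑' l : L, f ((starRingEnd ℂ) l) := by
  let E : L ≃ cjL L :=
    Equiv.ofBijective (fun l : L => (⟨(starRingEnd ℂ) (l : ℂ), by
        rw [mem_cjL, Complex.conj_conj]; exact l.2⟩ : cjL L)) (by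
      constructor
      · intro a b hab
        have h1 : (starRingEnd ℂ) (a : ℂ) = (starRingEnd ℂ) (b : ℂ) := congrArg Subtype.val hab
        exact Subtype.ext ((starRingEnd ℂ).injective h1)
      · rintro ⟨b, hb⟩
        exact ⟨⟨(starRingEnd ℂ) b, mem_cjL.1 hb⟩, Subtype.ext (Complex.conj_conj b)⟩)
  exact (E.tsum_eq (fun l : cjL L => f l)).symm

private theorem oa_nat (n : ℕ) [n.AtLeastTwo] :
    (starRingEnd ℂ) (OfNat.ofNat n : ℂ) = (OfNat.ofNat n : ℂ) := map_ofNat _ n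

private theorem oa_wq_cj (L : Submodule ℤ ℂ) (z : ℂ) :
    wq (cjL L) ((starRingEnd ℂ) z) = (starRingEnd ℂ) (wq L z) := by
  unfold wq
  rw [oa_tsum_cj L (fun l => 2 / ((starRingEnd ℂ) z - l) ^ 3), map_neg, Complex.conj_tsum]
  congr 1
  refine tsum_congr fun l => ?_
  rw [map_div₀, map_pow, map_sub, oa_nat 2]

private theorem oa_g2_cj (L : Submodule ℤ ℂ) : g2 (cjL L) = (starRingEnd ℂ) (g2 L) := by
  unfold g2
  rw [oa_tsum_cj L (fun l => (l ^ 4)⁻¹), map_mul, Complex.conj_tsum, oa_nat 60]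
  congr 1
  refine tsum_congr fun l => ?_
  rw [map_inv₀, map_pow]

private theorem oa_g3_cj (L : Submodule ℤ ℂ) : g3 (cjL L) = (starRingEnd ℂ) (g3 L) := by
  unfold g3
  rw [oa_tsum_cj L (fun l => (l ^ 6)⁻¹), map_mul, Complex.conj_tsum, oa_nat 140]
  congr 1
  refine tsum_congr fun l => ?_
  rw [map_inv₀, map_pow]

private theorem oa_cj (z : ℂ) : cj z = (starRingEnd ℂ) z := rfl

theorem act_refl (hf : 1 ≤ f) : Act e (RingEquiv.refl ℂ) f 1 (⊤ : Ideal (𝓞 k)) := by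
  have _ := hf
  refine ⟨one_ne_zero, cop_top f, fun c _ => ?_, fun c _ => ?_, fun c _ x _ _ => ?_,
    fun c _ x _ _ => ?_⟩ <;>
  rw [Ideal.top_mul, one_pow, div_one] <;> rfl

theorem act_mul (h : Act e t f γ u) (h' : Act e t' f γ' u') : ∃ γ'', Act e (t.trans t') f γ'' (u * u') := by
  have hne : ∀ c : Ideal (𝓞 k), c ≠ ⊥ → u * c ≠ ⊥ := fun c hc => mul_ne_zero h.cop.1 hc
  have hmul : ∀ c : Ideal (𝓞 k), u' * (u * c) = u * u' * c := fun c => by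
    rw [← mul_assoc, mul_comm u' u]
  refine ⟨γ' * t' γ, mul_ne_zero h'.gne ((map_ne_zero t').2 h.gne), cop_mul.2 ⟨h.cop, h'.cop⟩,
    fun c hc => ?_, fun c hc => ?_, fun c hc x h1 h2 => ?_, fun c hc x h1 h2 => ?_⟩
  · show t' (t _) = _
    rw [h.ag2 c hc, map_div₀, map_pow, h'.ag2 _ (hne c hc), hmul, div_div, mul_pow]
  · show t' (t _) = _
    rw [h.ag3 c hc, map_div₀, map_pow, h'.ag3 _ (hne c hc), hmul, div_div, mul_pow]
  · show t' (t _) = _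
    rw [h.awp c hc x h1 h2, map_div₀, map_pow, h'.awp _ (hne c hc) x (Lc_le u c h1)
      (fun h3 => h2 (Lc_cop h.cop h1 h3)), hmul, div_div, mul_pow]
  · show t' (t _) = _
    rw [h.awq c hc x h1 h2, map_div₀, map_pow, h'.awq _ (hne c hc) x (Lc_le u c h1)
      (fun h3 => h2 (Lc_cop h.cop h1 h3)), hmul, div_div, mul_pow]

theorem act_dvd {f' : ℕ} (hf : f ∣ f') (h0 : f' ≠ 0) (h : Act e t f' γ u) : Act e t f γ u := by
  have _ := h0
  have key : ∀ (c : Ideal (𝓞 k)) (x : ℂ), (f : ℂ) * x ∈ Lc e c → (f' : ℂ) * x ∈ Lc e c := by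
    intro c x hx
    obtain ⟨m, rfl⟩ := hf
    have h1 := (Lc e c).smul_mem (m : ℤ) hx
    rw [zsmul_eq_mul] at h1
    have h2 : ((f * m : ℕ) : ℂ) * x = ((m : ℤ) : ℂ) * ((f : ℂ) * x) := by
      push_cast
      ring
    rw [h2]
    exact h1
  exact ⟨h.gne, cop_dvd hf h.cop, h.ag2, h.ag3, fun c hc x h1 h2 => h.awp c hc x (key c x h1) h2,
    fun c hc x h1 h2 => h.awq c hc x (key c x h1) h2⟩

theorem act_conj (hk : IQ k) (h : Act e t f γ u) : ∃ γ', Act e ((cj.trans t).trans cj) f γ' (cjI hk u) := by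
  have hI : ∀ c : Ideal (𝓞 k), cjL (Lc e (u * cjI hk c)) = Lc e (cjI hk u * c) := fun c => by
    rw [Lc_cj, cjI_mul, cjI_cjI]
  have hL : ∀ c : Ideal (𝓞 k), cjL (Lc e c) = Lc e (cjI hk c) := fun c => Lc_cj hk e c
  have hmem : ∀ (c : Ideal (𝓞 k)) (x : ℂ), (starRingEnd ℂ) x ∈ Lc e (cjI hk c) ↔ x ∈ Lc e c := by
    intro c x
    rw [← hL, mem_cjL, Complex.conj_conj]
  have hmem2 : ∀ (c : Ideal (𝓞 k)) (x : ℂ), (f : ℂ) * x ∈ Lc e c →
      (f : ℂ) * (starRingEnd ℂ) x ∈ Lc e (cjI hk c) := by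
    intro c x hx
    have h1 := (hmem c _).2 hx
    rwa [map_mul, Complex.conj_natCast] at h1
  refine ⟨cj γ, (map_ne_zero cj).2 h.gne, cop_cj.2 h.cop, fun c hc => ?_, fun c hc => ?_,
    fun c hc x h1 h2 => ?_, fun c hc x h1 h2 => ?_⟩
  · show cj (t (cj _)) = _
    rw [oa_cj (g2 (Lc e c)), ← oa_g2_cj, hL, h.ag2 _ (cjI_ne hk hc), map_div₀, map_pow, oa_cj,
      ← oa_g2_cj, hI]
  · show cj (t (cj _)) = _
    rw [oa_cj (g3 (Lc e c)), ← oa_g3_cj, hL, h.ag3 _ (cjI_ne hk hc), map_div₀, map_pow, oa_cj,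
      ← oa_g3_cj, hI]
  · show cj (t (cj _)) = _
    rw [oa_cj (wp (Lc e c) x), ← wp_cj, hL, h.awp _ (cjI_ne hk hc) _ (hmem2 c x h1)
      (fun h3 => h2 ((hmem c x).1 h3)), map_div₀, map_pow, oa_cj, ← wp_cj, hI, Complex.conj_conj]
  · show cj (t (cj _)) = _
    rw [oa_cj (wq (Lc e c) x), ← oa_wq_cj, hL, h.awq _ (cjI_ne hk hc) _ (hmem2 c x h1)
      (fun h3 => h2 ((hmem c x).1 h3)), map_div₀, map_pow, oa_cj, ← oa_wq_cj, hI,
      Complex.conj_conj]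

end CMS
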