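import Mathlib
import Pool.Agent.Lib.CMS.Defs
import Pool.Agent.Lib.CMS.CBas
import Pool.Agent.Lib.CMS.CNrm
import Pool.Agent.Lib.CMS.OAct
import Pool.Agent.Lib.CMS.OAct2
import Pool.Agent.Lib.CMS.OFin
import Pool.Agent.Lib.CMS.OCr
import Pool.Agent.Lib.CMS.FKron
import Pool.Agent.Lib.CMS.FFrob
import Pool.Agent.Lib.CMS.FCheb

/-!
# FZeta: the action on roots of unity is given by the norm (paper 4.3)  (about 200 lines)

PROOF. `ζ = exp(2πi/f)`, a primitive `f`-th root of unity.  For `t` fixing `e(k)` choose `γ, u` with `Act e t f γ u` (`act_exists`); `absNorm u` is prime to `f` (`u` prime to `f`), let `χ(t) ∈ (ZMod f)ˣ` be its class; it depends only on `t` (`act_unique`, `req_norm`), `χ(t.trans t') = χ(t) χ(t')` (`act_mul`).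
`κ(t) ∈ (ZMod f)ˣ` with `t ζ = ζ^{κ(t)}`; `κ(t.trans t') = κ(t) κ(t')`.  `Θ = χ κ⁻¹`.  `T` = cross ratios of level `f` (`crr_finite`, `crr_alg`) and `ζ`.  `htriv`: if `t` fixes `T` then `κ = 1`, and `u ~ ⊤` (`crr_act` and `crr_sep`, or as in `act_fix`), `χ = 1`.
`hfr`: `N0 ≥ f` and the bound of `frob_val`.  `V x ≤ 1` for cross ratios (`kron`), so `frob_val` gives `u ~ P`, `χ(t) = q`.  `V (t ζ - ζ^q) < 1`: `V f = 1` (`val_coprime`), and for `i ≢ j mod f`, `V (ζ^i - ζ^j) = 1` (`f = ∏_{0<i<f} (1 - ζ^i)`, all factors `≤ 1`), so `t ζ = ζ^q`, `κ(t) = q`.  So `Θ t = 1`.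
`cheb_hom`: `χ = κ`.  For the given `u`: `t ζ = ζ^{κ(t)} = ζ^{absNorm u}`.
-/

set_option autoImplicit false

namespace CMS

open Complex NumberField MPd9f52e

variable {k : Type} [Field k] [NumberField k]

/-! ### Norms of ideals prime to `f` -/

private theorem fz_coprime {f : ℕ} {u : Ideal (𝓞 k)} (h : Cop f u) : (Ideal.absNorm u).Coprime f := by
  apply Nat.coprime_of_dvd
  intro p hp hpa hpf
  have hfin : Finite (𝓞 k ⧸ u) := Ideal.finiteQuotientOfFreeOfNeBot u h.1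
  have hcard : Nat.card (𝓞 k ⧸ u) = Ideal.absNorm u := by
    rw [Ideal.absNorm_apply]; rfl
  have hF : Fact p.Prime := ⟨hp⟩
  rw [← hcard] at hpa
  obtain ⟨z, hz⟩ := exists_prime_addOrderOf_dvd_card' p hpa
  have h0 := h.2
  rw [Ideal.isCoprime_iff_sup_eq] at h0
  have h1 : (1 : 𝓞 k) ∈ u ⊔ Ideal.span {(f : 𝓞 k)} := by rw [h0]; trivial
  obtain ⟨x, hx, y, hy, hxy⟩ := Submodule.mem_sup.1 h1
  obtain ⟨c, hc⟩ := Ideal.mem_span_singleton'.1 hy
  have h2 : (Ideal.Quotient.mk u c) * (f : 𝓞 k ⧸ u) = 1 := by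
    have h3 : Ideal.Quotient.mk u x = 0 := Ideal.Quotient.eq_zero_iff_mem.2 hx
    have h4 : Ideal.Quotient.mk u (x + y) = 1 := by rw [hxy, map_one]
    rw [map_add, h3, zero_add, ← hc, map_mul, map_natCast] at h4
    exact h4
  have h5 : (f : 𝓞 k ⧸ u) * z = 0 := by
    obtain ⟨g, rfl⟩ := hpf
    have h6 : (p : 𝓞 k ⧸ u) * z = 0 := by
      rw [← nsmul_eq_mul, ← hz]
      exact addOrderOf_nsmul_eq_zero z
    rw [Nat.cast_mul, mul_comm (p : 𝓞 k ⧸ u), mul_assoc, h6, mul_zero]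
  have h6 : z = 0 := by
    calc z = (Ideal.Quotient.mk u c * (f : 𝓞 k ⧸ u)) * z := by rw [h2, one_mul]
      _ = Ideal.Quotient.mk u c * ((f : 𝓞 k ⧸ u) * z) := by ring
      _ = 0 := by rw [h5, mul_zero]
  rw [h6, addOrderOf_zero] at hz
  exact hp.one_lt.ne hz

/-! ### Roots of unity -/

private theorem fz_pow_iff {ζ : ℂ} {f : ℕ} (hf : 3 ≤ f) (hζ : IsPrimitiveRoot ζ f) (m n : ℕ) :
    ζ ^ m = ζ ^ n ↔ (m : ZMod f) = n := by
  rw [ZMod.natCast_eq_natCast_iff]
  have hz : ζ ≠ 0 := hζ.ne_zero (by omega)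
  have key : ∀ a b, a ≤ b → (ζ ^ a = ζ ^ b ↔ a ≡ b [MOD f]) := by
    intro a b hab
    rw [Nat.modEq_iff_dvd' hab]
    obtain ⟨d, rfl⟩ := Nat.exists_eq_add_of_le hab
    rw [Nat.add_sub_cancel_left, pow_add, ← hζ.pow_eq_one_iff_dvd]
    constructor
    · intro h
      exact (mul_left_cancel₀ (pow_ne_zero a hz) (by rw [mul_one]; exact h)).symm
    · intro h
      rw [h, mul_one]
  rcases le_total m n with h | h
  · exact key m n h
  · rw [eq_comm, key n m h]
    exact Nat.ModEq.comm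

/-- differences of roots of unity are units at valuations that are trivial on `f` -/
private theorem fz_val {Γ : Type*} [LinearOrderedCommGroupWithZero Γ] (v : Valuation ℂ Γ) {f : ℕ}
    (hf : 3 ≤ f) {ζ : ℂ} (hζ : IsPrimitiveRoot ζ f) (hv : v (f : ℂ) = 1) {m n : ℕ}
    (h : v (ζ ^ m - ζ ^ n) < 1) : ζ ^ m = ζ ^ n := by
  have hf0 : f ≠ 0 := by omega
  have hz1 : v ζ = 1 := by
    have h1 : v ζ ^ f = 1 := by rw [← map_pow, hζ.pow_eq_one, map_one]
    exact ((pow_eq_one_iff.1 h1).resolve_right hf0)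
  have hle : ∀ j : ℕ, v (1 - ζ ^ j) ≤ 1 := by
    intro j
    refine (v.map_sub _ _).trans (max_le ?_ ?_)
    · rw [map_one]
    · rw [map_pow, hz1, one_pow]
  obtain ⟨g, rfl⟩ : ∃ g, f = g + 1 := ⟨f - 1, by omega⟩
  have hprod := hζ.prod_one_sub_pow_eq_order
  have hall : ∀ j, 0 < j → j < g + 1 → v (1 - ζ ^ j) = 1 := by
    intro j hj hj'
    by_contra hne
    have hlt : v (1 - ζ ^ j) < 1 := lt_of_le_of_ne (hle j) hne
    have h1 : v (∏ i ∈ Finset.range g, (1 - ζ ^ (i + 1))) < 1 := by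
      rw [map_prod]
      have hmem : j - 1 ∈ Finset.range g := Finset.mem_range.2 (by omega)
      rw [← Finset.mul_prod_erase _ _ hmem]
      have e : j - 1 + 1 = j := by omega
      rw [e]
      calc v (1 - ζ ^ j) * ∏ i ∈ (Finset.range g).erase (j - 1), v (1 - ζ ^ (i + 1))
          ≤ v (1 - ζ ^ j) * 1 := mul_le_mul_right (Finset.prod_le_one' fun i _ => hle _) _
        _ < 1 := by rwa [mul_one]
    rw [hprod] at h1
    have h2 : ((g : ℂ) + 1) = ((g + 1 : ℕ) : ℂ) := by push_cast; ring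
    rw [h2, hv] at h1
    exact lt_irrefl _ h1
  -- reduce to `m ≤ n`
  have key : ∀ a b : ℕ, a ≤ b → v (ζ ^ a - ζ ^ b) < 1 → ζ ^ a = ζ ^ b := by
    intro a b hab hlt
    obtain ⟨d, rfl⟩ := Nat.exists_eq_add_of_le hab
    have e : ζ ^ a - ζ ^ (a + d) = ζ ^ a * (1 - ζ ^ d) := by rw [pow_add]; ring
    rw [e, map_mul, map_pow, hz1, one_pow, one_mul] at hlt
    have hd : ζ ^ d = ζ ^ (d % (g + 1)) := by
      conv_lhs => rw [← Nat.div_add_mod d (g + 1)]
      rw [pow_add, pow_mul, hζ.pow_eq_one, one_pow, one_mul]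
    rcases Nat.eq_zero_or_pos (d % (g + 1)) with h0 | h0
    · rw [pow_add, hd, h0, pow_zero, mul_one]
    · rw [hd, hall _ h0 (Nat.mod_lt _ (by omega))] at hlt
      exact absurd hlt (lt_irrefl _)
  rcases le_total m n with hmn | hmn
  · exact key m n hmn h
  · refine (key n m hmn ?_).symm
    rw [Valuation.map_sub_swap]
    exact h

/-! ### The relation between the action on torsion points and on roots of unity -/

/-- `a` is the quotient of the norm of the class of `t` by the exponent of `t` on the roots of unity -/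
private def fzP (e : k →+* ℂ) (f : ℕ) (t : ℂ ≃+* ℂ) (a : (ZMod f)ˣ) : Prop :=
  ∃ (γ : ℂ) (u : Ideal (𝓞 k)) (n : ℕ), Act e t f γ u ∧
    t (Complex.exp (2 * Real.pi * I / f)) = Complex.exp (2 * Real.pi * I / f) ^ n ∧
    (a : ZMod f) * n = Ideal.absNorm u

private theorem fz_ex (hk : IQ k) {e : k →+* ℂ} {t : ℂ ≃+* ℂ} {f : ℕ} (ht : ∀ x, t (e x) = e x)
    (hf : 3 ≤ f) : ∃ a, fzP e f t a := by
  have hf0 : f ≠ 0 := by omega
  have : NeZero f := ⟨hf0⟩
  obtain ⟨γ, u, h⟩ := act_exists hk ht hf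
  have hζ := Complex.isPrimitiveRoot_exp f hf0
  have h1 : IsPrimitiveRoot (t (Complex.exp (2 * Real.pi * I / f))) f :=
    hζ.map_of_injective t.injective
  obtain ⟨n, -, hn, hn'⟩ := (hζ.isPrimitiveRoot_iff).1 h1
  refine ⟨ZMod.unitOfCoprime _ (fz_coprime h.cop) * (ZMod.unitOfCoprime n hn)⁻¹, γ, u, n, h,
    hn'.symm, ?_⟩
  have h2 : ((ZMod.unitOfCoprime n hn : (ZMod f)ˣ) : ZMod f) = n := ZMod.coe_unitOfCoprime n hn
  rw [← h2, Units.val_mul, mul_assoc, Units.inv_mul, mul_one, ZMod.coe_unitOfCoprime]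

private theorem fz_unit {f n : ℕ} (hf : 3 ≤ f) {t : ℂ ≃+* ℂ}
    (hn : t (Complex.exp (2 * Real.pi * I / f)) = Complex.exp (2 * Real.pi * I / f) ^ n) :
    IsUnit (n : ZMod f) := by
  have hf0 : f ≠ 0 := by omega
  have : NeZero f := ⟨hf0⟩
  have hζ := Complex.isPrimitiveRoot_exp f hf0
  have h1 : IsPrimitiveRoot (t (Complex.exp (2 * Real.pi * I / f))) f :=
    hζ.map_of_injective t.injective
  rw [hn] at h1
  rw [ZMod.isUnit_iff_coprime]
  exact (hζ.pow_iff_coprime (Nat.pos_of_ne_zero hf0) n).1 h1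

private theorem fz_uniq (hk : IQ k) {e : k →+* ℂ} {t : ℂ ≃+* ℂ} {f : ℕ} (ht : ∀ x, t (e x) = e x)
    (hf : 3 ≤ f) {a b : (ZMod f)ˣ} (ha : fzP e f t a) (hb : fzP e f t b) : a = b := by
  have hf0 : f ≠ 0 := by omega
  have hζ := Complex.isPrimitiveRoot_exp f hf0
  obtain ⟨γ, u, n, h, hn, hu⟩ := ha
  obtain ⟨γ', u', n', h', hn', hu'⟩ := hb
  have h1 := req_norm hk (act_unique hk ht hf h h')
  have h2 : (n : ZMod f) = n' := (fz_pow_iff hf hζ n n').1 (hn.symm.trans hn')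
  rw [← hu, ← hu', ← h2] at h1
  exact Units.ext ((fz_unit hf hn).mul_right_cancel h1)

private theorem fz_mul {e : k →+* ℂ} {t t' : ℂ ≃+* ℂ} {f : ℕ} {a b : (ZMod f)ˣ}
    (ha : fzP e f t a) (hb : fzP e f t' b) : fzP e f (t.trans t') (a * b) := by
  obtain ⟨γ, u, n, h, hn, hu⟩ := ha
  obtain ⟨γ', u', n', h', hn', hu'⟩ := hb
  obtain ⟨γ'', h''⟩ := act_mul h h'
  refine ⟨γ'', u * u', n * n', h'', ?_, ?_⟩
  · change t' (t _) = _
    rw [hn, map_pow, hn', ← pow_mul, mul_comm n' n]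
  · rw [map_mul, Nat.cast_mul, Nat.cast_mul, ← hu, ← hu', Units.val_mul]
    ring

open Classical in
private noncomputable def fzT (e : k →+* ℂ) (f : ℕ) (t : ℂ ≃+* ℂ) : (ZMod f)ˣ :=
  if h : ∃ a, fzP e f t a then h.choose else 1

private theorem fzT_spec (hk : IQ k) {e : k →+* ℂ} {t : ℂ ≃+* ℂ} {f : ℕ} (ht : ∀ x, t (e x) = e x)
    (hf : 3 ≤ f) : fzP e f t (fzT e f t) := by
  have h := fz_ex hk ht hf
  unfold fzT
  rw [dif_pos h]
  exact h.choose_spec

theorem act_zeta (hk : IQ k) {e : k →+* ℂ} {t : ℂ ≃+* ℂ} {f : ℕ} {γ : ℂ} {u : Ideal (𝓞 k)} (ht : ∀ x, t (e x) = e x)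
    (hf : 3 ≤ f) (h : Act e t f γ u) :
    t (Complex.exp (2 * Real.pi * I / f)) = Complex.exp (2 * Real.pi * I / f) ^ Ideal.absNorm u := by
  classical
  have hf0 : f ≠ 0 := by omega
  have : NeZero f := ⟨hf0⟩
  have hζ := Complex.isPrimitiveRoot_exp f hf0
  obtain ⟨N1, hN1⟩ := frob_val hk e hf
  have key : fzT e f t = 1 := by
    refine cheb_hom e (fzT e f) (fun t t' ht ht' => ?_)
      (insert (Complex.exp (2 * Real.pi * I / f)) (crr_finite hk e hf).toFinset)
      (fun x hx => ?_) (fun t ht hT => ?_) (max f N1) (fun q hq hqN P hP hPq V hV t ht hT => ?_) t ht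
    · refine fz_uniq hk (t := t.trans t') (fun x => ?_) hf
        (fzT_spec hk (t := t.trans t') (fun x => ?_) hf)
        (fz_mul (fzT_spec hk ht hf) (fzT_spec hk ht' hf))
      · change t' (t (e x)) = e x
        rw [ht, ht']
      · change t' (t (e x)) = e x
        rw [ht, ht']
    · rcases Finset.mem_insert.1 hx with rfl | hx
      · have h1 : IsIntegral ℤ (Complex.exp (2 * Real.pi * I / f)) :=
          hζ.isIntegral (Nat.pos_of_ne_zero hf0)
        exact (h1.tower_top (A := ℚ)).isAlgebraic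
      · obtain ⟨c, a, hc, ha, rfl⟩ := (crr_finite hk e hf).mem_toFinset.1 hx
        exact crr_alg hk hf hc ha
    · obtain ⟨γ, u, hu⟩ := act_exists hk ht hf
      have h1 : Req f u ⊤ := by
        refine crr_sep hk e hf hu.cop (cop_top f) fun a ha => ?_
        have h1 := crr_act hu hf0 (cop_top f) ha
        rw [Ideal.mul_top] at h1
        rw [← h1]
        exact hT _ (Finset.mem_insert_of_mem ((crr_finite hk e hf).mem_toFinset.2
          ⟨⊤, a, cop_top f, ha, rfl⟩))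
      have h2 := req_norm hk h1
      rw [Ideal.absNorm_top, Nat.cast_one] at h2
      refine fz_uniq hk ht hf (fzT_spec hk ht hf) ⟨γ, u, 1, hu, ?_, ?_⟩
      · rw [pow_one]
        exact hT _ (Finset.mem_insert_self _ _)
      · rw [h2, Units.val_one, Nat.cast_one, mul_one]
    · have hqf : f < q := lt_of_le_of_lt (le_max_left _ _) hqN
      have hqN1 : N1 < q := lt_of_le_of_lt (le_max_right _ _) hqN
      have hcop : q.Coprime f := (Nat.Prime.coprime_iff_not_dvd hq).2 fun hd =>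
        absurd (Nat.le_of_dvd (Nat.pos_of_ne_zero hf0) hd) (not_le.2 hqf)
      have hqP : (q : 𝓞 k) ∈ P := by
        rw [← hPq]
        exact Ideal.absNorm_mem P
      have hvq : V.valuation (q : ℂ) < 1 := by
        have h1 := hV _ hqP
        have h2 : e ((q : 𝓞 k) : k) = (q : ℂ) := by simp
        rwa [h2] at h1
      have hvf : V.valuation (f : ℂ) = 1 := val_coprime hcop hvq
      obtain ⟨γ, u, hu⟩ := act_exists hk ht hf
      have h1 : Req f u P := by
        refine hN1 q hq hqN1 P hP hPq _ V.valuation hV t ht (fun c a hc ha => ?_) γ u hu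
        exact hT _ (Finset.mem_insert_of_mem ((crr_finite hk e hf).mem_toFinset.2
          ⟨c, a, hc, ha, rfl⟩)) (kron hk e V.valuation hf hq hcop hP hPq hV hc ha).2
      have h2 := req_norm hk h1
      rw [hPq] at h2
      have hz1 : V.valuation (Complex.exp (2 * Real.pi * I / f)) = 1 := by
        have h3 : V.valuation (Complex.exp (2 * Real.pi * I / f)) ^ f = 1 := by
          rw [← map_pow, hζ.pow_eq_one, map_one]
        exact ((pow_eq_one_iff.1 h3).resolve_right hf0)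
      have h3 := hT _ (Finset.mem_insert_self _ _) hz1.le
      have h4 : IsPrimitiveRoot (t (Complex.exp (2 * Real.pi * I / f))) f :=
        hζ.map_of_injective t.injective
      obtain ⟨n, -, -, hn⟩ := (hζ.isPrimitiveRoot_iff).1 h4
      rw [← hn] at h3
      have h5 := fz_val V.valuation hf hζ hvf h3
      refine fz_uniq hk ht hf (fzT_spec hk ht hf) ⟨γ, u, q, hu, ?_, ?_⟩
      · rw [← hn, h5]
      · rw [h2, Units.val_one, one_mul]
  have h1 := fzT_spec hk ht hf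
  rw [key] at h1
  obtain ⟨γ', u', n, hu', hn, hnu⟩ := h1
  have h2 := req_norm hk (act_unique hk ht hf h hu')
  rw [hn, fz_pow_iff hf hζ, h2, ← hnu, Units.val_one, one_mul]

end CMS
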