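import Mathlib
import Pool.Agent.Lib.CMS.Defs
import Pool.Agent.Lib.CMS.LLiou

/-!
# HLio: Liouville for functions with periodic absolute value  (about 110 lines)

PROOF. Copy the proof of `liouville_lat` in LLiou.lean (finished): the function extends to an entire function (removable singularities), its absolute value is `L`-periodic off `A`, by continuity
everywhere (the complement of `A` is dense), bounded on a compact fundamental set, so bounded; Liouville.
-/

set_option autoImplicit false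

namespace CMS

open Complex MPd9f52e

open Filter Topology in
theorem liouville_norm {L : Submodule ℤ ℂ} (hL : IsLat L) {A : Set ℂ} (hA : IsClosed A)
    (hdisc : ∀ a ∈ A, ∀ᶠ z in nhdsWithin a {a}ᶜ, z ∉ A) {H : ℂ → ℂ} (hd : DifferentiableOn ℂ H Aᶜ)
    (hb : ∀ a ∈ A, ∃ C : ℝ, ∀ᶠ z in nhdsWithin a {a}ᶜ, ‖H z‖ ≤ C)
    (hper : ∀ l ∈ L, ∀ z, z ∉ A → z + l ∉ A ∧ ‖H (z + l)‖ = ‖H z‖) : ∃ c : ℂ, ∀ z, z ∉ A → H z = c := by
  classical
  have hdisc' : ∀ a : ℂ, ∀ᶠ z in nhdsWithin a {a}ᶜ, z ∉ A := by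
    intro a
    by_cases ha : a ∈ A
    · exact hdisc a ha
    · exact eventually_nhdsWithin_of_eventually_nhds (hA.isOpen_compl.mem_nhds ha)
  obtain ⟨J, hJ1, hJ2⟩ : ∃ J : ℂ → ℂ, (∀ z, z ∉ A → J z = H z) ∧ ∀ z, z ∈ A →
      J z = limUnder (nhdsWithin z {z}ᶜ) H :=
    ⟨fun z => if z ∈ A then limUnder (nhdsWithin z {z}ᶜ) H else H z,
      fun z hz => if_neg hz, fun z hz => if_pos hz⟩
  have hJd : Differentiable ℂ J := by
    intro a
    by_cases ha : a ∈ A
    · obtain ⟨C, hC⟩ := hb a ha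
      have hs : {z | z ∉ A} ∈ nhdsWithin a {a}ᶜ := hdisc a ha
      have h1 : DifferentiableOn ℂ H {z | z ∉ A} := hd
      have h2 : (fun z => H z - H a) =o[nhdsWithin a {a}ᶜ] fun z => (z - a)⁻¹ := by
        apply IsBoundedUnder.isLittleO_sub_self_inv
        refine ⟨C + ‖H a‖, eventually_map.2 ?_⟩
        filter_upwards [hC] with z hz
        exact (norm_sub_le _ _).trans (add_le_add hz le_rfl)
      have h3 := Complex.differentiableOn_update_limUnder_insert_of_isLittleO hs h1 h2
      have h4 : insert a {z | z ∉ A} ∈ 𝓝 a := insert_mem_nhds_iff.2 hs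
      refine (h3.differentiableAt h4).congr_of_eventuallyEq ?_
      filter_upwards [h4] with z hz
      rcases hz with rfl | hz
      · rw [hJ2 z ha, Function.update_self]
      · have hza : z ≠ a := by
          rintro rfl
          exact hz ha
        rw [hJ1 z hz, Function.update_of_ne hza]
    · have h1 : Aᶜ ∈ 𝓝 a := hA.isOpen_compl.mem_nhds ha
      refine (hd.differentiableAt h1).congr_of_eventuallyEq ?_
      filter_upwards [h1] with z hz
      exact hJ1 z hz
  have hJper : ∀ l ∈ L, ∀ z, ‖J (z + l)‖ = ‖J z‖ := by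
    intro l hl z
    have hc1 : Continuous fun w => J (w + l) := hJd.continuous.comp (continuous_id.add continuous_const)
    have h1 : Tendsto (fun w => ‖J (w + l)‖) (nhdsWithin z {z}ᶜ) (𝓝 ‖J (z + l)‖) :=
      (hc1.norm.tendsto z).mono_left nhdsWithin_le_nhds
    have h2 : Tendsto (fun w => ‖J w‖) (nhdsWithin z {z}ᶜ) (𝓝 ‖J z‖) :=
      (hJd.continuous.norm.tendsto z).mono_left nhdsWithin_le_nhds
    refine tendsto_nhds_unique h1 (h2.congr' ?_)
    filter_upwards [hdisc' z] with w hw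
    obtain ⟨h3, h4⟩ := hper l hl w hw
    rw [hJ1 w hw, hJ1 _ h3, h4]
  obtain ⟨B, hB⟩ := exists_bound hL
  have hbd : Bornology.IsBounded (Set.range J) := by
    obtain ⟨C, hC⟩ := isBounded_iff_forall_norm_le.1
      ((isCompact_closedBall (0 : ℂ) B).image hJd.continuous).isBounded
    refine isBounded_iff_forall_norm_le.2 ⟨C, ?_⟩
    rintro _ ⟨x, rfl⟩
    obtain ⟨l, hl, hb⟩ := hB x
    rw [← hJper l hl x]
    exact hC _ ⟨x + l, by simpa using hb, rfl⟩
  refine ⟨J 0, fun z hz => ?_⟩
  rw [← hJ1 z hz]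
  exact hJd.apply_eq_apply_of_bounded hbd z 0

end CMS
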