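import Mathlib
import Pool.Agent.Lib.CMS.HDefs
import Pool.Agent.Lib.CMS.HPhi
import Pool.Agent.Lib.CMS.HLio
import Pool.Agent.Lib.CMS.LWp

/-!
# HRat: the absolute value of differences of wp (formula (4))  (about 260 lines)

PROOF. FIRST let `u + u ∉ L`, `u ∉ L`.  `A = L ∪ (L + u) ∪ (L - u)` (closed, discrete: translates of `L`, `isClosed_lat`).  `Q(z) = (wp z - wp u) σ(z)²/(σ(z+u) σ(z-u))` is differentiable off `A`
(`wp_deriv`, `sigma_diff`, `sigma_eq_zero`).  By `phi_eq` for `z ∉ A` (the exponents: `|z+u|² + |z-u|² = 2|z|² + 2|u|²`, `(z+u)² + (z-u)² = 2z² + 2u²`)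
`‖Q(z)‖ = κ R(z)`, `R(z) = ‖wp z - wp u‖ phi(z)²/(phi(z+u) phi(z-u))`, `κ = exp(- r0|u|² - Re(u² G(0))) > 0` or its inverse (a constant independent of `z`).
`R` is `L`-periodic (`wp_add_mem`, `phi_add`).  Bounded near the points of `A`: by periodicity near `0`, `u`, `-u`.  Near `0`: `‖wp z‖ phi(z)² → c0²` (`wp_lim`, `phi_lim`), `phi(z)² wp u → 0`, and
`phi(z+u) phi(z-u) → phi(u)²` (`phi_cont`, `phi_neg`), so `R(z) → c0²/phi(u)²`.  Near `u`: `‖wp z - wp u‖/‖z-u‖ → ‖wq u‖` (`wp_deriv`), `phi(z-u)/‖z-u‖ → c0`, `phi(z+u) → phi(2u) ≠ 0`.  Near `-u`: replace `z` by `-z`.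
`liouville_norm`: `Q` is constant off `A`, so `R` is constant off `A`, `= c0²/phi(u)²` (limit `z → 0`).  This is (4) for `z ∉ A`; for `z ∈ ±u + L` both sides are `0`.
SECOND, `u + u ∈ L`: both sides are continuous in `u` near `u` (off `L`; `phi u ≠ 0`), and the points `u'` near `u`, `u' ≠ u`, satisfy `u' + u' ∉ L` (`L` discrete). Take the limit `u' → u`.
-/

set_option autoImplicit false

namespace CMS

open Complex MPd9f52e

private theorem hrat_mem2 {L : Submodule ℤ ℂ} {u : ℂ} (hu2 : u + u ∉ L) : u ∉ L := fun h =>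
  hu2 (L.add_mem h h)

open Filter Topology in
private theorem hrat_disc {L : Submodule ℤ ℂ} (hL : IsLat L) (c a : ℂ) :
    ∀ᶠ z in nhdsWithin a {a}ᶜ, z + c ∉ L := by
  obtain ⟨P, rfl⟩ := hL
  have h2 := P.compl_lattice_sdiff_singleton_mem_nhds (a + c)
  have h3 : Tendsto (fun z : ℂ => z + c) (𝓝 a) (𝓝 (a + c)) := by
    have h5 : Continuous fun w : ℂ => w + c := continuous_id.add continuous_const
    exact h5.tendsto a
  filter_upwards [mem_nhdsWithin_of_mem_nhds (h3 h2), self_mem_nhdsWithin] with x hx hx0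
  intro h
  refine hx ⟨h, fun h4 => hx0 ?_⟩
  exact add_right_cancel h4

/-- the exponent -/
private noncomputable def hrA {L : Submodule ℤ ℂ} (hL : IsLat L) (z : ℂ) : ℝ :=
  (ctn hL).r0 * ‖z‖ ^ 2 / 2 + (z ^ 2 * (ctn hL).G 0).re / 2

private theorem hrA_add {L : Submodule ℤ ℂ} (hL : IsLat L) (z u : ℂ) :
    hrA hL (z + u) + hrA hL (z - u) = 2 * hrA hL z + 2 * hrA hL u := by
  have h1 : ‖z + u‖ ^ 2 + ‖z - u‖ ^ 2 = 2 * ‖z‖ ^ 2 + 2 * ‖u‖ ^ 2 := by
    have := parallelogram_law_with_norm ℝ z u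
    nlinarith
  have h2 : ((z + u) ^ 2 * (ctn hL).G 0).re + ((z - u) ^ 2 * (ctn hL).G 0).re =
      2 * (z ^ 2 * (ctn hL).G 0).re + 2 * (u ^ 2 * (ctn hL).G 0).re := by
    have e : (z + u) ^ 2 * (ctn hL).G 0 + (z - u) ^ 2 * (ctn hL).G 0 =
        z ^ 2 * (ctn hL).G 0 + z ^ 2 * (ctn hL).G 0 + (u ^ 2 * (ctn hL).G 0 + u ^ 2 * (ctn hL).G 0) := by
      ring
    have e' := congrArg Complex.re e
    simp only [Complex.add_re] at e'
    linarith
  unfold hrA
  linear_combination (ctn hL).r0 / 2 * h1 + h2 / 2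

private theorem hrat_phi {L : Submodule ℤ ℂ} (hL : IsLat L) (z : ℂ) :
    phi L z * Real.exp (hrA hL z) = c0L hL * ‖sigma L z‖ := by
  rw [phi_eq hL, mul_assoc, ← Real.exp_add]
  have e : -((ctn hL).r0 * ‖z‖ ^ 2 / 2) - (z ^ 2 * (ctn hL).G 0).re / 2 + hrA hL z = 0 := by
    unfold hrA
    ring
  rw [e, Real.exp_zero, mul_one]

/-- the quotient -/
private noncomputable def hrQ (L : Submodule ℤ ℂ) (u z : ℂ) : ℂ :=
  (wp L z - wp L u) * sigma L z ^ 2 / (sigma L (z + u) * sigma L (z - u))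

/-- the exceptional set -/
private def hrS (L : Submodule ℤ ℂ) (u : ℂ) : Set ℂ := {z | z ∈ L ∨ z + u ∈ L ∨ z - u ∈ L}

private theorem hrat_norm {L : Submodule ℤ ℂ} (hL : IsLat L) (u z : ℂ) :
    ‖hrQ L u z‖ = Real.exp (2 * hrA hL z - (hrA hL (z + u) + hrA hL (z - u))) *
      (‖wp L z - wp L u‖ * phi L z ^ 2 / (phi L (z + u) * phi L (z - u))) := by
  have hc := c0L_pos hL
  have h1 : ∀ w : ℂ, ‖sigma L w‖ = phi L w * Real.exp (hrA hL w) / c0L hL := by
    intro w
    rw [hrat_phi hL, mul_div_cancel_left₀ _ hc.ne']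
  unfold hrQ
  rw [norm_div, norm_mul, norm_mul, norm_pow, h1, h1, h1, Real.exp_sub, Real.exp_add, two_mul,
    Real.exp_add]
  have e1 := Real.exp_pos (hrA hL z)
  have e2 := Real.exp_pos (hrA hL (z + u))
  have e3 := Real.exp_pos (hrA hL (z - u))
  by_cases h2 : phi L (z + u) = 0
  · rw [h2]
    simp
  by_cases h3 : phi L (z - u) = 0
  · rw [h3]
    simp
  field_simp

open Filter Topology in
private theorem hrat_lim0 {L : Submodule ℤ ℂ} (hL : IsLat L) {u : ℂ} (hu : u ∉ L) :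
    Tendsto (hrQ L u) (nhdsWithin 0 {0}ᶜ) (𝓝 (-(1 / sigma L u ^ 2))) := by
  have hs : Continuous (sigma L) := (sigma_diff hL).continuous
  have hsu : sigma L u ≠ 0 := fun h => hu ((sigma_eq_zero hL u).1 h)
  have h1 : Tendsto (fun z : ℂ => z ^ 2 * wp L z - z ^ 2 * wp L u) (nhdsWithin 0 {0}ᶜ)
      (𝓝 (1 - 0 ^ 2 * wp L u)) := by
    refine (wp_lim hL).sub ?_
    have : Continuous fun z : ℂ => z ^ 2 * wp L u := by fun_prop
    exact (this.tendsto 0).mono_left nhdsWithin_le_nhds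
  have h2 := (sigma_lim hL).pow 2
  have h3 : Tendsto (fun z : ℂ => sigma L (z + u) * sigma L (z - u)) (nhdsWithin 0 {0}ᶜ)
      (𝓝 (sigma L (0 + u) * sigma L (0 - u))) := by
    have : Continuous fun z : ℂ => sigma L (z + u) * sigma L (z - u) := by fun_prop
    exact (this.tendsto 0).mono_left nhdsWithin_le_nhds
  rw [zero_add, zero_sub, sigma_neg hL] at h3
  have h4 := (h1.mul h2).div h3 (by
    rw [mul_neg]
    exact neg_ne_zero.2 (mul_ne_zero hsu hsu))
  have e : (1 - 0 ^ 2 * wp L u) * 1 ^ 2 / (sigma L u * -sigma L u) = -(1 / sigma L u ^ 2) := by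
    field_simp
    ring
  rw [e] at h4
  refine h4.congr' ?_
  filter_upwards [self_mem_nhdsWithin] with z hz
  have hz0 : z ≠ 0 := hz
  simp only [Pi.div_apply, hrQ]
  field_simp

open Filter Topology in
private theorem hrat_limu {L : Submodule ℤ ℂ} (hL : IsLat L) {u : ℂ} (hu : u + u ∉ L) :
    ∃ k, Tendsto (hrQ L u) (nhdsWithin u {u}ᶜ) (𝓝 k) := by
  have hs : Continuous (sigma L) := (sigma_diff hL).continuous
  have hu1 := hrat_mem2 hu
  have hsu : sigma L (u + u) ≠ 0 := fun h => hu ((sigma_eq_zero hL _).1 h)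
  have h1 := hasDerivAt_iff_tendsto_slope.1 (wp_deriv hL hu1)
  have h2 : Tendsto (fun z : ℂ => sigma L (z - u) / (z - u)) (nhdsWithin u {u}ᶜ) (𝓝 1) := by
    have h5 : Tendsto (fun w : ℂ => w - u) (nhdsWithin u {u}ᶜ) (nhdsWithin 0 {0}ᶜ) := by
      refine tendsto_nhdsWithin_iff.2 ⟨?_, ?_⟩
      · have h5 : Continuous fun w : ℂ => w - u := continuous_id.sub continuous_const
        have h6 := h5.tendsto u
        rw [sub_self] at h6
        exact h6.mono_left nhdsWithin_le_nhds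
      · filter_upwards [self_mem_nhdsWithin] with w hw
        exact sub_ne_zero.2 hw
    exact (sigma_lim hL).comp h5
  have h3 : Tendsto (fun z : ℂ => sigma L z ^ 2 / sigma L (z + u)) (nhdsWithin u {u}ᶜ)
      (𝓝 (sigma L u ^ 2 / sigma L (u + u))) := by
    have e1 : ContinuousAt (fun z : ℂ => sigma L z ^ 2 / sigma L (z + u)) u := by
      refine ContinuousAt.div ?_ ?_ hsu
      · exact (hs.pow 2).continuousAt
      · exact (hs.comp (continuous_id.add continuous_const)).continuousAt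
    exact e1.tendsto.mono_left nhdsWithin_le_nhds
  have h4 := (h1.mul h3).div h2 one_ne_zero
  refine ⟨_, h4.congr' ?_⟩
  filter_upwards [self_mem_nhdsWithin, hrat_disc hL (-u) u] with z hz hz2
  have hz0 : z - u ≠ 0 := sub_ne_zero.2 hz
  have hz3 : sigma L (z - u) ≠ 0 := fun h => hz2 ((sigma_eq_zero hL _).1 h)
  simp only [Pi.div_apply, hrQ, slope_def_field]
  by_cases h5 : sigma L (z + u) = 0
  · rw [h5]
    simp
  field_simp

private theorem hrat_even {L : Submodule ℤ ℂ} (hL : IsLat L) (u z : ℂ) :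
    hrQ L u (-z) = hrQ L u z := by
  unfold hrQ
  have e1 : -z + u = -(z - u) := by ring
  have e2 : -z - u = -(z + u) := by ring
  rw [wp_neg hL, sigma_neg hL, e1, e2, sigma_neg hL, sigma_neg hL]
  congr 1
  · ring
  · ring

open Filter Topology in
private theorem hrat_A {L : Submodule ℤ ℂ} (hL : IsLat L) {z u : ℂ} (hz : z ∉ L) (hu : u + u ∉ L) :
    ‖wp L z - wp L u‖ * (‖sigma L z‖ ^ 2 * ‖sigma L u‖ ^ 2) =
      ‖sigma L (z + u)‖ * ‖sigma L (z - u)‖ := by
  have hs : Continuous (sigma L) := (sigma_diff hL).continuous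
  have hu1 := hrat_mem2 hu
  by_cases h1 : z + u ∈ L
  · rw [(wp_eq_iff hL hz hu1).2 (Or.inr h1), (sigma_eq_zero hL _).2 h1]
    simp
  by_cases h2 : z - u ∈ L
  · rw [(wp_eq_iff hL hz hu1).2 (Or.inl h2), (sigma_eq_zero hL (z - u)).2 h2]
    simp
  have hclosed : IsClosed (hrS L u) := by
    have c1 : IsClosed {z : ℂ | z ∈ L} := isClosed_lat hL
    have c2 : IsClosed {z : ℂ | z + u ∈ L} :=
      (isClosed_lat hL).preimage (continuous_id.add continuous_const)
    have c3 : IsClosed {z : ℂ | z - u ∈ L} :=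
      (isClosed_lat hL).preimage (continuous_id.sub continuous_const)
    exact c1.union (c2.union c3)
  have hdisc : ∀ a : ℂ, ∀ᶠ z in nhdsWithin a {a}ᶜ, z ∉ hrS L u := by
    intro a
    filter_upwards [hrat_disc hL 0 a, hrat_disc hL u a, hrat_disc hL (-u) a] with w w1 w2 w3
    rintro (h | h | h)
    · exact w1 (by rwa [add_zero])
    · exact w2 h
    · exact w3 h
  have hd : DifferentiableOn ℂ (hrQ L u) (hrS L u)ᶜ := by
    intro w hw
    have hw' : ¬ (w ∈ L ∨ w + u ∈ L ∨ w - u ∈ L) := hw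
    push Not at hw'
    obtain ⟨w1, w2, w3⟩ := hw'
    have d1 : DifferentiableAt ℂ (wp L) w := (wp_deriv hL w1).differentiableAt
    have d2 : DifferentiableAt ℂ (sigma L) w := (sigma_diff hL) w
    have d3 : DifferentiableAt ℂ (fun t => sigma L (t + u)) w :=
      (sigma_diff hL _).comp w (differentiableAt_id.add_const u)
    have d4 : DifferentiableAt ℂ (fun t => sigma L (t - u)) w :=
      (sigma_diff hL _).comp w (differentiableAt_id.sub_const u)
    refine DifferentiableAt.differentiableWithinAt ?_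
    refine DifferentiableAt.div ((d1.sub_const _).mul (d2.pow 2)) (d3.mul d4) ?_
    exact mul_ne_zero (fun h => w2 ((sigma_eq_zero hL _).1 h)) fun h => w3 ((sigma_eq_zero hL _).1 h)
  have hper : ∀ l ∈ L, ∀ w, ‖hrQ L u (w + l)‖ = ‖hrQ L u w‖ := by
    intro l hl w
    rw [hrat_norm hL, hrat_norm hL, hrA_add, hrA_add, wp_add_mem hL hl, phi_add hL hl]
    have e1 : w + l + u = w + u + l := by ring
    have e2 : w + l - u = w - u + l := by ring
    rw [e1, e2, phi_add hL hl, phi_add hL hl]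
    congr 2
    ring
  have hshift : ∀ (a l : ℂ), l ∈ L → (∃ C : ℝ, ∀ᶠ z in nhdsWithin a {a}ᶜ, ‖hrQ L u z‖ ≤ C) →
      ∃ C : ℝ, ∀ᶠ z in nhdsWithin (a + l) {a + l}ᶜ, ‖hrQ L u z‖ ≤ C := by
    rintro a l hl ⟨C, hC⟩
    refine ⟨C, ?_⟩
    have h5 : Tendsto (fun w : ℂ => w - l) (nhdsWithin (a + l) {a + l}ᶜ) (nhdsWithin a {a}ᶜ) := by
      refine tendsto_nhdsWithin_iff.2 ⟨?_, ?_⟩
      · have h5 : Continuous fun w : ℂ => w - l := continuous_id.sub continuous_const
        have h6 := h5.tendsto (a + l)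
        rw [add_sub_cancel_right] at h6
        exact h6.mono_left nhdsWithin_le_nhds
      · filter_upwards [self_mem_nhdsWithin] with w hw
        intro h
        exact hw (eq_add_of_sub_eq h)
    filter_upwards [h5.eventually hC] with w hw
    have h6 := hper l hl (w - l)
    rw [sub_add_cancel] at h6
    rw [h6]
    exact hw
  have hbl : ∀ (a k : ℂ), Tendsto (hrQ L u) (nhdsWithin a {a}ᶜ) (𝓝 k) →
      ∃ C : ℝ, ∀ᶠ z in nhdsWithin a {a}ᶜ, ‖hrQ L u z‖ ≤ C := fun a k h =>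
    ⟨_, (h.norm.eventually_lt_const (lt_add_one _)).mono fun w hw => hw.le⟩
  obtain ⟨k, hk⟩ := hrat_limu hL hu
  have hk' : Tendsto (hrQ L u) (nhdsWithin (-u) {-u}ᶜ) (𝓝 k) := by
    have h5 : Tendsto (fun w : ℂ => -w) (nhdsWithin (-u) {-u}ᶜ) (nhdsWithin u {u}ᶜ) := by
      refine tendsto_nhdsWithin_iff.2 ⟨?_, ?_⟩
      · have h6 := continuous_neg.tendsto (-u)
        rw [neg_neg] at h6
        exact h6.mono_left nhdsWithin_le_nhds
      · filter_upwards [self_mem_nhdsWithin] with w hw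
        intro h
        exact hw (neg_eq_iff_eq_neg.1 h)
    refine (hk.comp h5).congr fun w => ?_
    exact hrat_even hL u w
  have hb : ∀ a ∈ hrS L u, ∃ C : ℝ, ∀ᶠ z in nhdsWithin a {a}ᶜ, ‖hrQ L u z‖ ≤ C := by
    rintro a (ha | ha | ha)
    · have h5 := hshift 0 a ha (hbl 0 _ (hrat_lim0 hL hu1))
      rwa [zero_add] at h5
    · have h5 := hshift (-u) (a + u) ha (hbl (-u) _ hk')
      rwa [neg_add_cancel_comm_assoc] at h5
    · have h5 := hshift u (a - u) ha (hbl u _ hk)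
      rwa [add_sub_cancel] at h5
  obtain ⟨c, hc⟩ := liouville_norm hL hclosed (fun a _ => hdisc a) hd hb (fun l hl w hw => by
    refine ⟨fun h => hw ?_, hper l hl w⟩
    rcases h with h | h | h
    · left
      have h5 := L.sub_mem h hl
      rwa [add_sub_cancel_right] at h5
    · right; left
      have h5 := L.sub_mem h hl
      have e : w + l + u - l = w + u := by ring
      rwa [e] at h5
    · right; right
      have h5 := L.sub_mem h hl
      have e : w + l - u - l = w - u := by ring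
      rwa [e] at h5)
  have hc0 : c = -(1 / sigma L u ^ 2) := by
    refine tendsto_nhds_unique (l := nhdsWithin (0 : ℂ) {0}ᶜ) ?_ (hrat_lim0 hL hu1)
    refine tendsto_const_nhds.congr' ?_
    filter_upwards [hdisc 0] with w hw
    exact (hc w hw).symm
  have h3 := hc z (by
    rintro (h | h | h)
    · exact hz h
    · exact h1 h
    · exact h2 h)
  rw [hc0] at h3
  have n1 : sigma L u ≠ 0 := fun h => hu1 ((sigma_eq_zero hL u).1 h)
  have n2 : sigma L (z + u) ≠ 0 := fun h => h1 ((sigma_eq_zero hL _).1 h)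
  have n3 : sigma L (z - u) ≠ 0 := fun h => h2 ((sigma_eq_zero hL _).1 h)
  have h4 : (wp L z - wp L u) * (sigma L z ^ 2 * sigma L u ^ 2) =
      -(sigma L (z + u) * sigma L (z - u)) := by
    unfold hrQ at h3
    field_simp at h3
    linear_combination h3
  have h5 := congrArg norm h4
  rwa [norm_mul, norm_mul, norm_neg, norm_mul, norm_pow, norm_pow] at h5

open Filter Topology in
private theorem hrat_B {L : Submodule ℤ ℂ} (hL : IsLat L) {z u : ℂ} (hz : z ∉ L) (hu : u ∉ L) :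
    ‖wp L z - wp L u‖ * (‖sigma L z‖ ^ 2 * ‖sigma L u‖ ^ 2) =
      ‖sigma L (z + u)‖ * ‖sigma L (z - u)‖ := by
  have hs : Continuous (sigma L) := (sigma_diff hL).continuous
  have c1 : Tendsto (fun w => ‖wp L w - wp L u‖ * (‖sigma L w‖ ^ 2 * ‖sigma L u‖ ^ 2))
      (nhdsWithin z {z}ᶜ) (𝓝 (‖wp L z - wp L u‖ * (‖sigma L z‖ ^ 2 * ‖sigma L u‖ ^ 2))) := by
    have d1 : ContinuousAt (wp L) z := (wp_deriv hL hz).continuousAt
    have d2 : ContinuousAt (fun w => ‖wp L w - wp L u‖ * (‖sigma L w‖ ^ 2 * ‖sigma L u‖ ^ 2)) z :=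
      (d1.sub continuousAt_const).norm.mul
        (((hs.norm.pow 2).continuousAt).mul continuousAt_const)
    exact d2.tendsto.mono_left nhdsWithin_le_nhds
  have c2 : Tendsto (fun w => ‖sigma L (w + u)‖ * ‖sigma L (w - u)‖)
      (nhdsWithin z {z}ᶜ) (𝓝 (‖sigma L (z + u)‖ * ‖sigma L (z - u)‖)) := by
    have : Continuous fun w => ‖sigma L (w + u)‖ * ‖sigma L (w - u)‖ := by fun_prop
    exact (this.tendsto z).mono_left nhdsWithin_le_nhds
  refine tendsto_nhds_unique c1 (c2.congr' ?_)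
  have h2 : ∀ᶠ w in nhdsWithin z {z}ᶜ, w + w ∉ L := by
    have hd2 := hrat_disc hL 0 (z + z)
    have h5 : Tendsto (fun w : ℂ => w + w) (nhdsWithin z {z}ᶜ) (nhdsWithin (z + z) {z + z}ᶜ) := by
      refine tendsto_nhdsWithin_iff.2 ⟨?_, ?_⟩
      · have h5 : Continuous fun w : ℂ => w + w := by fun_prop
        exact (h5.tendsto z).mono_left nhdsWithin_le_nhds
      · filter_upwards [self_mem_nhdsWithin] with w hw
        intro h
        apply hw
        have h' : w + w = z + z := h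
        have : (2 : ℂ) * w = 2 * z := by linear_combination h'
        exact mul_left_cancel₀ two_ne_zero this
    filter_upwards [h5.eventually hd2] with w hw
    rwa [add_zero] at hw
  filter_upwards [h2] with w hw
  have h3 := hrat_A hL hu hw
  rw [norm_sub_rev, mul_comm (‖sigma L u‖ ^ 2)] at h3
  rw [h3, add_comm u w]
  have e : u - w = -(w - u) := by ring
  rw [e, sigma_neg hL, norm_neg]

theorem phi_ratio {L : Submodule ℤ ℂ} (hL : IsLat L) {z u : ℂ} (hz : z ∉ L) (hu : u ∉ L) :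
    ‖wp L z - wp L u‖ = c0L hL ^ 2 * (phi L (z + u) * phi L (z - u)) / (phi L z ^ 2 * phi L u ^ 2) := by
  have hc := c0L_pos hL
  have h1 := hrat_B hL hz hu
  have p1 := phi_pos hz
  have p2 := phi_pos hu
  have hσ : ∀ w : ℂ, ‖sigma L w‖ = phi L w * Real.exp (hrA hL w) / c0L hL := by
    intro w
    rw [hrat_phi hL, mul_div_cancel_left₀ _ hc.ne']
  rw [hσ, hσ, hσ, hσ] at h1
  have h2 : Real.exp (hrA hL (z + u)) * Real.exp (hrA hL (z - u)) =
      Real.exp (hrA hL z) ^ 2 * Real.exp (hrA hL u) ^ 2 := by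
    rw [← Real.exp_add, hrA_add, Real.exp_add, two_mul, two_mul, Real.exp_add, Real.exp_add,
      pow_two, pow_two]
  have e1 := Real.exp_pos (hrA hL z)
  have e2 := Real.exp_pos (hrA hL u)
  rw [eq_div_iff (by positivity)]
  have h3 : ‖wp L z - wp L u‖ * (phi L z ^ 2 * phi L u ^ 2) *
      (Real.exp (hrA hL z) ^ 2 * Real.exp (hrA hL u) ^ 2) =
      c0L hL ^ 2 * (phi L (z + u) * phi L (z - u)) *
      (Real.exp (hrA hL z) ^ 2 * Real.exp (hrA hL u) ^ 2) := by
    field_simp at h1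
    linear_combination h1 + c0L hL ^ 2 * (phi L (z + u) * phi L (z - u)) * h2
  exact mul_right_cancel₀ (by positivity) h3

end CMS
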