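import Mathlib
import Pool.Agent.Lib.CMS.HDefs
import Pool.Agent.Lib.CMS.HPhi
import Pool.Agent.Lib.CMS.HRat
import Pool.Agent.Lib.CMS.LXV
import Pool.Agent.Lib.CMS.LAdd
import Pool.Agent.Lib.CMS.HRep

/-!
# HRq: the absolute value of the elliptic numbers (formula (7))

`N = S.card`, odd and prime to 3, `c = c0L hL`, `P = ∏_{t ∈ S.erase 0} phi L t > 0`.
`∏_{x ∈ XV} ‖wp z - x‖ = c^{N-1} phi(L',z)/(phi(L,z)^N P)` and `∏_{x ∈ XV} ‖x - dup x‖ = c^{N-1}/P`.
-/

set_option autoImplicit false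

namespace CMS

open Complex MPd9f52e

theorem RQ_abs {L L' : Submodule ℤ ℂ} (hL : IsLat L) (hL' : IsLat L') (h : L ≤ L') {S : Finset ℂ} (hS : IsReps L L' S)
    (h6 : S.card.Coprime 6) {z : ℂ} (hz : z ∉ L') : ‖RQ L L' z‖ = phi L z ^ S.card / phi L' z := by
  classical
  have hzL : z ∉ L := fun h' => hz (h h')
  have hc2 : (2 : ℕ).Coprime S.card := (Nat.Coprime.coprime_dvd_right (by norm_num : 2 ∣ 6) h6).symm
  have hc3 : (3 : ℕ).Coprime S.card := (Nat.Coprime.coprime_dvd_right (by norm_num : 3 ∣ 6) h6).symm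
  have hodd : Odd S.card := by
    rw [← Nat.not_even_iff_odd, even_iff_two_dvd]
    intro h2
    have := Nat.dvd_gcd (dvd_refl 2) h2
    rw [hc2] at this
    omega
  have h0S : (0 : ℂ) ∈ S := hS.1
  have hcard : (S.erase 0).card = S.card - 1 := Finset.card_erase_of_mem h0S
  have hpos : 0 < S.card := Finset.card_pos.2 ⟨0, h0S⟩
  set c := c0L hL with hc
  have hc0 : 0 < c := c0L_pos hL
  set P := ∏ t ∈ S.erase 0, phi L t with hP
  have hPt : ∀ t ∈ S.erase 0, 0 < phi L t := fun t ht => phi_pos (reps_notMem h hS ht)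
  have hP0 : 0 < P := Finset.prod_pos hPt
  have hfz : 0 < phi L z := phi_pos hzL
  have hfz' : 0 < phi L' z := phi_pos hz
  -- doubles are not in `L`
  have h2t : ∀ t ∈ S.erase 0, t + t ∉ L := by
    intro t ht h2
    have htL := reps_notMem h hS ht
    have hN := card_mul_mem h hS (hS.2.1 t (Finset.mem_of_mem_erase ht))
    obtain ⟨m, hm⟩ := hodd
    apply htL
    have h3 : (m : ℤ) • (t + t) ∈ L := L.smul_mem _ h2
    have h4 := L.sub_mem hN h3
    rw [zsmul_eq_mul, hm] at h4
    have h5 : ((2 * m + 1 : ℕ) : ℂ) * t - ((m : ℤ) : ℂ) * (t + t) = t := by push_cast; ring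
    rwa [h5] at h4
  -- part (a)
  have hA2 : (∏ x ∈ XV L L', ‖wp L z - x‖) ^ 2 = (c ^ (S.card - 1) * phi L' z / (phi L z ^ S.card * P)) ^ 2 := by
    rw [← prod_reps hL hL' h hS hodd (fun x => ‖wp L z - x‖)]
    have e1 : ∀ t ∈ S.erase 0, ‖wp L z - wp L t‖ =
        c ^ 2 * (phi L (z + t) * phi L (z - t)) / (phi L z ^ 2 * phi L t ^ 2) := fun t ht =>
      phi_ratio hL hzL (reps_notMem h hS ht)
    rw [Finset.prod_congr rfl e1, Finset.prod_div_distrib, Finset.prod_mul_distrib,
      Finset.prod_mul_distrib, Finset.prod_mul_distrib, Finset.prod_const, Finset.prod_const, hcard,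
      Finset.prod_pow]
    have d1 : phi L z * ∏ t ∈ S.erase 0, phi L (z + t) = phi L' z := by
      have := phi_dist hL hL' h hS z
      rw [← Finset.mul_prod_erase S (fun t => phi L (z + t)) h0S, add_zero] at this
      exact this
    have d2 : phi L z * ∏ t ∈ S.erase 0, phi L (z - t) = phi L' z := by
      have h1 := phi_dist hL hL' h hS (-z)
      rw [phi_neg hL'] at h1
      have h2 : ∀ t ∈ S, phi L (-z + t) = phi L (z - t) := fun t _ => by
        rw [← phi_neg hL (z - t), neg_sub, sub_eq_add_neg, add_comm]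
      rw [Finset.prod_congr rfl h2, ← Finset.mul_prod_erase S (fun t => phi L (z - t)) h0S,
        sub_zero] at h1
      exact h1
    have d1' : ∏ t ∈ S.erase 0, phi L (z + t) = phi L' z / phi L z := by
      rw [eq_div_iff hfz.ne', mul_comm]
      exact d1
    have d2' : ∏ t ∈ S.erase 0, phi L (z - t) = phi L' z / phi L z := by
      rw [eq_div_iff hfz.ne', mul_comm]
      exact d2
    rw [d1', d2', ← hP]
    have e2 : phi L z ^ S.card = phi L z ^ (S.card - 1) * phi L z := by
      rw [← pow_succ]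
      congr 1
      omega
    rw [e2, ← pow_mul, ← pow_mul, mul_comm 2 (S.card - 1), pow_mul, pow_mul]
    have hne : phi L z ^ (S.card - 1) ≠ 0 := (pow_pos hfz _).ne'
    field_simp
  -- part (b)
  have hB2 : (∏ x ∈ XV L L', ‖x - dup L x‖) ^ 2 = (c ^ (S.card - 1) / P) ^ 2 := by
    rw [← prod_reps hL hL' h hS hodd (fun x => ‖x - dup L x‖)]
    have e1 : ∀ t ∈ S.erase 0, ‖wp L t - dup L (wp L t)‖ =
        c ^ 2 * (phi L ((3 : ℕ) * t) * phi L t) / (phi L t ^ 2 * phi L ((2 : ℕ) * t) ^ 2) := by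
      intro t ht
      rw [← wp_dup_eq hL (reps_notMem h hS ht) (h2t t ht),
        phi_ratio hL (reps_notMem h hS ht) (h2t t ht)]
      have e2 : t + (t + t) = ((3 : ℕ) : ℂ) * t := by push_cast; ring
      have e3 : t - (t + t) = -t := by ring
      have e4 : t + t = ((2 : ℕ) : ℂ) * t := by push_cast; ring
      rw [e2, e3, phi_neg hL, e4]
    have q2 := reps_perm hL hL' h hS hc2 (phi L) (fun z l hl => phi_add hL hl z)
    have q3 := reps_perm hL hL' h hS hc3 (phi L) (fun z l hl => phi_add hL hl z)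
    rw [Finset.prod_congr rfl e1, Finset.prod_div_distrib, Finset.prod_mul_distrib,
      Finset.prod_mul_distrib, Finset.prod_mul_distrib, Finset.prod_const, hcard,
      Finset.prod_pow, Finset.prod_pow, q2, q3, ← hP, ← pow_mul, mul_comm 2 (S.card - 1), pow_mul]
    field_simp
  have hA : ∏ x ∈ XV L L', ‖wp L z - x‖ = c ^ (S.card - 1) * phi L' z / (phi L z ^ S.card * P) :=
    (pow_left_inj₀ (Finset.prod_nonneg fun _ _ => norm_nonneg _) (by positivity) two_ne_zero).1 hA2
  have hB : ∏ x ∈ XV L L', ‖x - dup L x‖ = c ^ (S.card - 1) / P :=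
    (pow_left_inj₀ (Finset.prod_nonneg fun _ _ => norm_nonneg _) (by positivity) two_ne_zero).1 hB2
  unfold RQ
  rw [norm_prod]
  simp only [norm_div]
  rw [Finset.prod_div_distrib, hA, hB]
  field_simp

end CMS
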