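import Mathlib
import Pool.Agent.Lib.CMS.Defs
import Pool.Agent.Lib.CMS.CBas
import Pool.Agent.Lib.CMS.CCj
import Pool.Agent.Lib.CMS.CNrm
import Pool.Agent.Lib.CMS.CFin
import Pool.Agent.Lib.CMS.OLc1
import Pool.Agent.Lib.CMS.OLc2
import Pool.Agent.Lib.CMS.HPhi
import Pool.Agent.Lib.CMS.OCr

/-!
# TgP: the numbers Phi(i,g)  (about 180 lines)

PROOF. `S = Sys k f`, `sys_spec`; all `c ∈ S` are prime to `f`, `1/f ∉ Lc e c` (`one_div_notMem`), so `phi > 0` (`phi_pos`).
`Phi_neg`: write the product over the filter as `∏_{c ∈ S} F c`, `F c = phi (Lc e c) (1/f)` if `φ c = i ∧ N c = g`, else `1` (`Finset.prod_filter`); `F` depends only on the class (`phi_req`, `ray_req`, `req_norm_dvd`).  `prod_sys` with `T = cjI hk` (`cop_cj`, `req_cj`, `cjI_cjI`): `φ (cjI c) = -φ c`, `N (cjI c) = N c` (`cjI_norm`),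
`phi (Lc e (cjI c)) (1/f) = phi (cjL (Lc e c)) (conj (1/f)) = phi (Lc e c) (1/f)` (`Lc_cj`, `phi_cj`).
`Phi_shift`: `prod_sys` with `T c = P * c` (`cop_mul`, `req_cancel`, `req_mul`) for `F c = phi (Lc e c) (1/f)` if `φ c = φ P + i ∧ N c = g`, else `1`; `φ (P c) = φ P + φ c`, `N(P c) = N P N c`.
-/

set_option autoImplicit false

namespace CMS

open Complex NumberField MPd9f52e

variable {k : Type} [Field k] [NumberField k]

variable {m f : ℕ} {φ : Ideal (𝓞 k) → ZMod 3}

private theorem tgp_ite {p q : Prop} [Decidable p] [Decidable q] (h : p ↔ q) {a b : ℝ}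
    (hab : a = b) : (if p then a else 1) = if q then b else 1 := by
  subst hab
  by_cases hp : p
  · rw [if_pos hp, if_pos (h.1 hp)]
  · rw [if_neg hp, if_neg fun hq => hp (h.2 hq)]

theorem Phi_pos (hk : IQ k) (e : k →+* ℂ) (hf : 3 ≤ f) (i : ZMod 3) (g : ZMod m) : 0 < Phi e f m φ i g := by
  classical
  unfold Phi
  refine Finset.prod_pos fun c hc => ?_
  have h1 := (sys_spec k (f := f) (by omega)).1 c (Finset.mem_filter.1 hc).1
  exact phi_pos (one_div_notMem (by omega) h1)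

theorem Phi_neg (hk : IQ k) (e : k →+* ℂ) (hf : 3 ≤ f) (hmf : m ∣ f) (hφ : RayChar f φ)
    (hcj : ∀ a, Cop f a → φ (cjI hk a) = - φ a) (i : ZMod 3) (g : ZMod m) :
    Phi e f m φ (-i) g = Phi e f m φ i g := by
  classical
  have hf0 : f ≠ 0 := by omega
  unfold Phi
  rw [Finset.prod_filter, Finset.prod_filter]
  have hF : ∀ a b : Ideal (𝓞 k), Cop f a → Req f a b →
      (if φ a = i ∧ (Ideal.absNorm a : ZMod m) = g then phi (Lc e a) (1 / f) else 1) =
      if φ b = i ∧ (Ideal.absNorm b : ZMod m) = g then phi (Lc e b) (1 / f) else 1 := by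
    intro a b ha hab
    have h1 := ray_req hφ ha hab
    have h2 := req_norm_dvd hk hmf hab
    have h3 := phi_req (e := e) hk hf0 ha hab
    refine tgp_ite ?_ h3
    rw [h1, h2]
  have key := prod_sys (k := k) hf0 hF (T := cjI hk) (fun a ha => cop_cj.2 ha)
    (fun a b _ _ h => by
      have h1 := req_cj (hk := hk) h
      rwa [cjI_cjI, cjI_cjI] at h1)
  refine Eq.trans ?_ (key.trans ?_)
  · refine Finset.prod_congr rfl fun c hc => ?_
    have hcc := (sys_spec k hf0).1 c hc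
    refine tgp_ite ?_ ?_
    · rw [hcj c hcc, cjI_norm, neg_eq_iff_eq_neg]
    · have h1 := phi_cj (isLat_Lc hk e hcc.1) (1 / f)
      rw [Lc_cj hk e c] at h1
      have h2 : (starRingEnd ℂ) (1 / f : ℂ) = 1 / f := by simp
      rw [h2] at h1
      exact h1.symm
  · exact Finset.prod_congr rfl fun c _ => tgp_ite Iff.rfl rfl

open Classical in
theorem Phi_shift (hk : IQ k) (e : k →+* ℂ) (hf : 3 ≤ f) (hmf : m ∣ f) (hφ : RayChar f φ) {P : Ideal (𝓞 k)}
    (hP : Cop f P) (i : ZMod 3) (g : ZMod m) :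
    ∏ c ∈ (Sys k f).filter (fun c => φ c = i ∧ ((Ideal.absNorm P * Ideal.absNorm c : ℕ) : ZMod m) = g),
      phi (Lc e (P * c)) (1 / f) = Phi e f m φ (φ P + i) g := by
  have hf0 : f ≠ 0 := by omega
  unfold Phi
  rw [Finset.prod_filter, Finset.prod_filter]
  have hF : ∀ a b : Ideal (𝓞 k), Cop f a → Req f a b →
      (if φ a = φ P + i ∧ (Ideal.absNorm a : ZMod m) = g then phi (Lc e a) (1 / f) else 1) =
      if φ b = φ P + i ∧ (Ideal.absNorm b : ZMod m) = g then phi (Lc e b) (1 / f) else 1 := by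
    intro a b ha hab
    have h1 := ray_req hφ ha hab
    have h2 := req_norm_dvd hk hmf hab
    have h3 := phi_req (e := e) hk hf0 ha hab
    refine tgp_ite ?_ h3
    rw [h1, h2]
  have key := prod_sys (k := k) hf0 hF (T := fun c => P * c) (fun a ha => cop_mul.2 ⟨hP, ha⟩)
    (fun a b _ _ h => req_cancel hP.1 h)
  refine Eq.trans ?_ (key.trans ?_)
  · refine Finset.prod_congr rfl fun c hc => ?_
    have hcc := (sys_spec k hf0).1 c hc
    refine tgp_ite ?_ rfl
    rw [hφ.mul P c hP hcc, map_mul, add_right_inj]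
  · exact Finset.prod_congr rfl fun c _ => tgp_ite Iff.rfl rfl

end CMS
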