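import Mathlib
import Pool.Agent.Lib.CMS.Defs
import Pool.Agent.Lib.CMS.CBas
import Pool.Agent.Lib.CMS.CFin
import Pool.Agent.Lib.CMS.OLc1
import Pool.Agent.Lib.CMS.OLc2
import Pool.Agent.Lib.CMS.HHc
import Pool.Agent.Lib.CMS.HSym
import Pool.Agent.Lib.CMS.HPhi
import Pool.Agent.Lib.CMS.TgP

/-!
# TgD: T_g: analyticity, value and derivative at 0  (about 170 lines)

PROOF. `TT` is a finite sum of `wj(φ c) (N c)^(-s) f^(-2s) Hc (Lc e c) (1/f) s`, `c ∈ Sys k f` (`sys_spec`, prime to `f`, so `N c ≠ 0`, `1/f ∉ Lc e c`, `Lc e c` a lattice).  `TT_diff`: `Hc_diff`, `(N c)^(-s)`, `f^(-2s)` are entire.  `TT_zero`: `Hc_zero`.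
`TT_deriv`: `Hc L z 0 = 0`, so the derivative at `0` is `∑ wj(φ c) (Hc (Lc e c) (1/f))'(0) = -2 ∑ wj(φ c) log phi (Lc e c) (1/f)` (`Hc_deriv_phi`), the sum over `N c = g`.  Split by `φ c = 0, 1, 2`: `-2 (log Phi 0 g + w log Phi 1 g + w² log Phi 2 g)` (`Real.log_prod`, `phi_pos`); `wj 0 = 1, wj 1 = w, wj 2 = w²`;
`Phi 2 g = Phi (-1) g = Phi 1 g` (`Phi_neg`), `w + w² = -1` (`w_sq`).
-/

set_option autoImplicit false

namespace CMS

open Complex NumberField MPd9f52e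

variable {k : Type} [Field k] [NumberField k]

variable {m f : ℕ} {φ : Ideal (𝓞 k) → ZMod 3}

private theorem tgd_rep (e : k →+* ℂ) (f m : ℕ) (φ : Ideal (𝓞 k) → ZMod 3) (g : ZMod m) :
    ∃ S : Finset (Ideal (𝓞 k)),
      (∀ c, c ∈ S ↔ c ∈ Sys k f ∧ (Ideal.absNorm c : ZMod m) = g) ∧
      TT e f m φ g = fun s => ∑ c ∈ S, wj (φ c) * (Ideal.absNorm c : ℂ) ^ (-s) *
        (f : ℂ) ^ (-2 * s) * Hc (Lc e c) (1 / f) s :=
  ⟨_, fun _ => Finset.mem_filter, rfl⟩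

private theorem tgd_phi (e : k →+* ℂ) (f m : ℕ) (φ : Ideal (𝓞 k) → ZMod 3) (i : ZMod 3)
    (g : ZMod m) :
    ∃ S : Finset (Ideal (𝓞 k)),
      (∀ c, c ∈ S ↔ c ∈ Sys k f ∧ (φ c = i ∧ (Ideal.absNorm c : ZMod m) = g)) ∧
      Phi e f m φ i g = ∏ c ∈ S, phi (Lc e c) (1 / f) :=
  ⟨_, fun _ => Finset.mem_filter, rfl⟩

theorem TT_diff (hk : IQ k) (e : k →+* ℂ) (hf : 3 ≤ f) (g : ZMod m) : DifferentiableOn ℂ (TT e f m φ g) Dom := by
  obtain ⟨S, hS, hT⟩ := tgd_rep e f m φ g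
  rw [hT]
  refine DifferentiableOn.fun_sum fun c hc => ?_
  have hcf : Cop f c := (sys_spec k (by omega)).1 c ((hS c).1 hc).1
  have hN : (Ideal.absNorm c : ℂ) ≠ 0 := Nat.cast_ne_zero.2 (by
    rw [Ne, Ideal.absNorm_eq_zero_iff]
    exact hcf.1)
  have hf0 : (f : ℂ) ≠ 0 := Nat.cast_ne_zero.2 (by omega)
  refine DifferentiableOn.mul (DifferentiableOn.mul (DifferentiableOn.mul
    (differentiableOn_const _) ?_) ?_) (Hc_diff (isLat_Lc hk e hcf.1)
      (one_div_notMem (by omega) hcf))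
  · exact DifferentiableOn.const_cpow differentiableOn_id.neg (Or.inl hN)
  · exact DifferentiableOn.const_cpow (differentiableOn_id.const_mul _) (Or.inl hf0)

theorem TT_zero (hk : IQ k) (e : k →+* ℂ) (hf : 3 ≤ f) (g : ZMod m) : TT e f m φ g 0 = 0 := by
  obtain ⟨S, hS, hT⟩ := tgd_rep e f m φ g
  rw [hT]
  refine Finset.sum_eq_zero fun c hc => ?_
  have hcf : Cop f c := (sys_spec k (by omega)).1 c ((hS c).1 hc).1
  rw [Hc_zero (isLat_Lc hk e hcf.1) (one_div_notMem (by omega) hcf), mul_zero]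

private theorem tgd_term {a N F : ℂ} (hN : N ≠ 0) (hF : F ≠ 0) {H : ℂ → ℂ} {d : ℂ}
    (hH : HasDerivAt H d 0) (h0 : H 0 = 0) :
    HasDerivAt (fun s => a * N ^ (-s) * F ^ (-2 * s) * H s) (a * d) 0 := by
  have h1 : DifferentiableAt ℂ (fun s : ℂ => a * N ^ (-s) * F ^ (-2 * s)) 0 := by
    refine DifferentiableAt.mul (DifferentiableAt.mul (differentiableAt_const _) ?_) ?_
    · exact DifferentiableAt.const_cpow differentiableAt_id.neg (Or.inl hN)
    · exact DifferentiableAt.const_cpow (differentiableAt_id.const_mul _) (Or.inl hF)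
  have h2 := h1.hasDerivAt.mul hH
  rw [h0, mul_zero, zero_add, neg_zero, mul_zero, Complex.cpow_zero, Complex.cpow_zero, mul_one,
    mul_one] at h2
  exact h2

theorem TT_deriv (hk : IQ k) (e : k →+* ℂ) (hf : 3 ≤ f) (hmf : m ∣ f) (hφ : RayChar f φ)
    (hcj : ∀ a, Cop f a → φ (cjI hk a) = - φ a) (g : ZMod m) :
    deriv (TT e f m φ g) 0 =
      ((-2 * (Real.log (Phi e f m φ 0 g) - Real.log (Phi e f m φ 1 g)) : ℝ) : ℂ) := by
  classical
  obtain ⟨S, hS, hT⟩ := tgd_rep e f m φ g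
  have hcop : ∀ c ∈ Sys k f, Cop f c := (sys_spec k (by omega)).1
  have hf0 : (f : ℂ) ≠ 0 := Nat.cast_ne_zero.2 (by omega)
  have h1 : HasDerivAt (TT e f m φ g)
      (∑ c ∈ S, wj (φ c) * ((-2 * Real.log (phi (Lc e c) (1 / f)) : ℝ) : ℂ)) 0 := by
    rw [hT]
    refine HasDerivAt.fun_sum fun c hc => ?_
    have hcf : Cop f c := hcop c ((hS c).1 hc).1
    have hN : (Ideal.absNorm c : ℂ) ≠ 0 := Nat.cast_ne_zero.2 (by
      rw [Ne, Ideal.absNorm_eq_zero_iff]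
      exact hcf.1)
    have hL := isLat_Lc hk e hcf.1
    have hz := one_div_notMem (e := e) (by omega) hcf
    refine tgd_term hN hf0 ?_ (Hc_zero hL hz)
    rw [← Hc_deriv_phi hL hz]
    exact ((Hc_diff hL hz).differentiableAt (isOpen_Dom.mem_nhds zero_mem_Dom)).hasDerivAt
  have h2 : ∀ i : ZMod 3, ∑ c ∈ S with φ c = i,
      wj (φ c) * ((-2 * Real.log (phi (Lc e c) (1 / f)) : ℝ) : ℂ) =
      wj i * ((-2 * Real.log (Phi e f m φ i g) : ℝ) : ℂ) := by
    intro i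
    obtain ⟨T, hTm, hP⟩ := tgd_phi e f m φ i g
    have hTS : S.filter (fun c => φ c = i) = T := by
      ext c
      rw [Finset.mem_filter, hS, hTm]
      tauto
    rw [hTS, hP, Real.log_prod (fun c hc => by
      have hcf : Cop f c := hcop c ((hTm c).1 hc).1
      exact (phi_pos (one_div_notMem (e := e) (by omega) hcf)).ne')]
    rw [Finset.mul_sum, Complex.ofReal_sum, Finset.mul_sum]
    refine Finset.sum_congr rfl fun c hc => ?_
    rw [((hTm c).1 hc).2.1]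
  rw [h1.deriv, ← Finset.sum_fiberwise S φ]
  simp only [h2]
  have h3 : ∀ F : ZMod 3 → ℂ, ∑ i, F i = F 0 + F 1 + F 2 := fun F => Fin.sum_univ_three F
  rw [h3]
  have h4 : Phi e f m φ 2 g = Phi e f m φ 1 g := by
    have := Phi_neg hk e hf hmf hφ hcj 1 g
    have h5 : (-1 : ZMod 3) = 2 := by decide
    rwa [h5] at this
  have w0 : wj 0 = 1 := by
    show w ^ (0 : ZMod 3).val = 1
    rw [ZMod.val_zero, pow_zero]
  have w1 : wj 1 = w := by
    show w ^ (1 : ZMod 3).val = w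
    have : (1 : ZMod 3).val = 1 := by decide
    rw [this, pow_one]
  have w2 : wj 2 = -1 - w := by
    show w ^ (2 : ZMod 3).val = -1 - w
    have : (2 : ZMod 3).val = 2 := by decide
    rw [this, w_sq]
  rw [h4, w0, w1, w2]
  push_cast
  ring

end CMS
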