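import Mathlib
import Pool.Agent.Lib.CMS.Defs
import Pool.Agent.Lib.CMS.LBas
import Pool.Agent.Lib.CMS.OLc1
import Pool.Agent.Lib.CMS.OLc2
import Pool.Agent.Lib.CMS.CBas
import Pool.Agent.Lib.CMS.CNrm

/-!
# TgB: the ideals in a ray class are the numbers 1 + f l (paper 5.2)  (about 250 lines)

PROOF. For `l ∈ Lc e c` let `α = 1 + f l ∈ Lc e c`; `α ≠ 0` (`one_div_notMem`), `α = e(α₀)`, `α₀ ∈ k` (`Lc_emb`).  `Ψ l := {y ∈ 𝓞 k : e y = α e z for some z ∈ c}`, an ideal (`Lc_mul_mem`), `= α₀ c`.  Choose `y₀ ∈ c`, `y₀ ≡ 1 mod f`, `y₀ ≠ 0` (`c` prime to `f`).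
(i) `x := α₀ y₀ = y₀ + f (l y₀) ∈ 𝓞 k`, `x ≡ 1 mod f`, `x ≠ 0`, and `(x) c = (y₀) Ψ(l)`.  So `Req f c (Ψ l)` and `Cop f (Ψ l)` (`req_cop`).
(ii) INJECTIVE. `α c = α' c`: `ε = α'₀/α₀` satisfies `ε c = c`, so `ε` is a unit of `𝓞 k`; `(ε - 1) x = f ((l' - l) y₀) ∈ f 𝓞 k` (with `x = α₀ y₀`), `x ≡ 1 mod f`, so `ε ≡ 1 mod f`, `ε = 1` (`unit_one`).
(iii) SURJECTIVE. `(x) c = (y) b`, `x ≡ y ≡ 1 mod f`: `α = e(x)/e(y)`, `b = (x/y) c`.  `(α - 1)/f ∈ Lc e c`: for `z ∈ c`, `w = ((x - y)/f) z/y` satisfies `y w ∈ 𝓞 k` and `f w = x z/y - z ∈ 𝓞 k` (`x z ∈ (x) c = (y) b ⊆ (y)`), and `1 = y - f d`, so `w ∈ 𝓞 k`.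
(iv) NORM. `N(x) N(c) = N(y₀) N(Ψ l)`, `N(x)/N(y₀) = ‖e x‖²/‖e y₀‖² = ‖α‖²` (`nm_emb`).
-/

set_option autoImplicit false

namespace CMS

open Complex NumberField MPd9f52e

variable {k : Type} [Field k] [NumberField k]

omit [NumberField k] in
private theorem tgb_inj {e : k →+* ℂ} {x y : 𝓞 k} (h : e (x : k) = e (y : k)) : x = y :=
  RingOfIntegers.ext (e.injective h)

omit [NumberField k] in
private theorem tgb_mul {e : k →+* ℂ} (x y : 𝓞 k) : e ((x * y : 𝓞 k) : k) = e (x : k) * e (y : k) := by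
  rw [← map_mul]
  rfl

private theorem tgb_add {e : k →+* ℂ} (x y : 𝓞 k) : e ((x + y : 𝓞 k) : k) = e (x : k) + e (y : k) := by
  rw [← map_add]
  rfl

private theorem tgb_sub {e : k →+* ℂ} (x y : 𝓞 k) : e ((x - y : 𝓞 k) : k) = e (x : k) - e (y : k) := by
  rw [← map_sub]
  rfl

omit [NumberField k] in
private theorem tgb_one {e : k →+* ℂ} : e ((1 : 𝓞 k) : k) = 1 := by
  rw [← map_one e]
  rfl

omit [NumberField k] in
private theorem tgb_nat {e : k →+* ℂ} (n : ℕ) : e ((n : 𝓞 k) : k) = n := by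
  rw [← map_natCast e n]
  rfl

/-- the fractional ideal `α c` intersected with `𝓞 k` (it is contained in `𝓞 k` in the application) -/
private def tgI (e : k →+* ℂ) (c : Ideal (𝓞 k)) (α : ℂ) : Ideal (𝓞 k) where
  carrier := {y | ∃ z ∈ c, e (y : k) = α * e (z : k)}
  add_mem' := by
    rintro a b ⟨z, hz, h⟩ ⟨w, hw, h'⟩
    exact ⟨z + w, c.add_mem hz hw, by rw [tgb_add, tgb_add, h, h', mul_add]⟩
  zero_mem' := ⟨0, c.zero_mem, by simp⟩
  smul_mem' := by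
    rintro a y ⟨z, hz, h⟩
    exact ⟨a * z, c.mul_mem_left a hz, by rw [smul_eq_mul, tgb_mul, tgb_mul, h]; ring⟩

private theorem tgI_mul {e : k →+* ℂ} {c : Ideal (𝓞 k)} {α : ℂ} {x y : 𝓞 k} (h : e (x : k) = α * e (y : k))
    (hα : ∀ z ∈ c, ∃ w : 𝓞 k, α * e (z : k) = e (w : k)) :
    Ideal.span {x} * c = Ideal.span {y} * tgI e c α := by
  ext t
  rw [Ideal.mem_span_singleton_mul, Ideal.mem_span_singleton_mul]
  constructor
  · rintro ⟨z, hz, rfl⟩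
    obtain ⟨w, hw⟩ := hα z hz
    refine ⟨w, ⟨z, hz, hw.symm⟩, ?_⟩
    apply tgb_inj (e := e)
    rw [tgb_mul, tgb_mul, ← hw, h]
    ring
  · rintro ⟨w, ⟨z, hz, hw⟩, rfl⟩
    refine ⟨z, hz, ?_⟩
    apply tgb_inj (e := e)
    rw [tgb_mul, tgb_mul, hw, h]
    ring

theorem cls_equiv (hk : IQ k) (e : k →+* ℂ) {f : ℕ} (hf : 3 ≤ f) {c : Ideal (𝓞 k)} (hc : Cop f c) :
    ∃ Ψ : Lc e c ≃ {b : Ideal (𝓞 k) // Cop f b ∧ Req f c b}, ∀ l : Lc e c,
      (Ideal.absNorm (Ψ l).1 : ℝ) = ‖1 + (f : ℂ) * (l : ℂ)‖ ^ 2 * Ideal.absNorm c := by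
  classical
  have hf0 : f ≠ 0 := by omega
  have hfC : (f : ℂ) ≠ 0 := by exact_mod_cast hf0
  have hf1 : ¬ (f : 𝓞 k) ∣ 1 := by
    intro h
    have h1 := (div_mem_Lc (e := e) hf0 hc 1).2 h
    rw [tgb_one] at h1
    exact one_div_notMem (e := e) (by omega) hc h1
  have hne : ∀ x : 𝓞 k, (f : 𝓞 k) ∣ x - 1 → x ≠ 0 := by
    rintro x hx rfl
    apply hf1
    rw [zero_sub, dvd_neg] at hx
    exact hx
  -- multiplication by `1 + f l` preserves integrality on `c`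
  have hint : ∀ l ∈ Lc e c, ∀ z ∈ c, ∃ y : 𝓞 k, (1 + (f : ℂ) * l) * e (z : k) = e ((z + f * y : 𝓞 k) : k) := by
    intro l hl z hz
    obtain ⟨y, hy⟩ := Lc_mul_mem hz hl
    refine ⟨y, ?_⟩
    rw [tgb_add, tgb_mul, tgb_nat, ← hy]
    ring
  have hint' : ∀ l ∈ Lc e c, ∀ z ∈ c, ∃ w : 𝓞 k, (1 + (f : ℂ) * l) * e (z : k) = e (w : k) := by
    intro l hl z hz
    obtain ⟨y, hy⟩ := hint l hl z hz
    exact ⟨_, hy⟩
  -- the element `y₀`
  obtain ⟨y₀, hy₀c, hy₀⟩ : ∃ y₀ ∈ c, (f : 𝓞 k) ∣ y₀ - 1 := by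
    obtain ⟨i, hi, j, hj, hij⟩ := Ideal.isCoprime_iff_exists.1 hc.2
    refine ⟨i, hi, ?_⟩
    rw [Ideal.mem_span_singleton] at hj
    have h1 : i - 1 = -j := by rw [← hij]; ring
    rw [h1, dvd_neg]
    exact hj
  have hy₀0 := hne _ hy₀
  -- the element `x`
  have hx : ∀ l ∈ Lc e c, ∃ x : 𝓞 k, (f : 𝓞 k) ∣ x - 1 ∧ e (x : k) = (1 + (f : ℂ) * l) * e (y₀ : k) ∧
      Ideal.span {x} * c = Ideal.span {y₀} * tgI e c (1 + (f : ℂ) * l) := by
    intro l hl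
    obtain ⟨y, hy⟩ := hint l hl y₀ hy₀c
    refine ⟨y₀ + f * y, ?_, hy.symm, tgI_mul hy.symm (hint' l hl)⟩
    have h1 : y₀ + f * y - 1 = (y₀ - 1) + f * y := by ring
    rw [h1]
    exact dvd_add hy₀ (dvd_mul_right _ _)
  have hreq : ∀ l ∈ Lc e c, Req f c (tgI e c (1 + (f : ℂ) * l)) := by
    intro l hl
    obtain ⟨x, hx1, -, hx3⟩ := hx l hl
    exact ⟨x, y₀, hne _ hx1, hy₀0, hx1, hy₀, hx3⟩
  let F : Lc e c → {b : Ideal (𝓞 k) // Cop f b ∧ Req f c b} := fun l =>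
    ⟨tgI e c (1 + (f : ℂ) * (l : ℂ)), (req_cop (hreq l l.2)).1 hc, hreq l l.2⟩
  have hspan0 : ∀ y : 𝓞 k, y ≠ 0 → Ideal.span {y} ≠ 0 := by
    intro y hy h
    exact hy (Ideal.span_singleton_eq_bot.1 h)
  have hinj : Function.Injective F := by
    intro l l' hll
    have h1 : tgI e c (1 + (f : ℂ) * (l : ℂ)) = tgI e c (1 + (f : ℂ) * (l' : ℂ)) := congrArg Subtype.val hll
    obtain ⟨x, hx1, hx2, hx3⟩ := hx l l.2
    obtain ⟨x', hx1', hx2', hx3'⟩ := hx l' l'.2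
    rw [h1, ← hx3'] at hx3
    have h2 : Ideal.span {x} = Ideal.span {x'} := mul_right_cancel₀ hc.1 hx3
    obtain ⟨u, hu⟩ := Ideal.span_singleton_eq_span_singleton.1 h2
    have h3 : (f : 𝓞 k) ∣ (u : 𝓞 k) - 1 := by
      have h4 : (u : 𝓞 k) - 1 = (x' - 1) - (x - 1) - ((u : 𝓞 k) - 1) * (x - 1) := by
        rw [← hu]
        ring
      rw [h4]
      exact dvd_sub (dvd_sub hx1' hx1) (dvd_mul_of_dvd_right hx1 _)
    have h4 := unit_one hk hf u.isUnit h3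
    rw [h4, mul_one] at hu
    rw [← hu, hx2] at hx2'
    have h5 : e (y₀ : k) ≠ 0 := by
      intro h0
      apply hy₀0
      apply tgb_inj (e := e)
      rw [h0]
      simp
    have h6 := mul_right_cancel₀ h5 hx2'
    have h7 : (f : ℂ) * (l : ℂ) = (f : ℂ) * (l' : ℂ) := add_left_cancel h6
    exact Subtype.ext (mul_left_cancel₀ hfC h7)
  have hsurj : Function.Surjective F := by
    rintro ⟨b, hb, x, y, hx0, hy0, hx1, hy1, hxy⟩
    have hey : e (y : k) ≠ 0 := by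
      intro h0
      apply hy0
      apply tgb_inj (e := e)
      rw [h0]
      simp
    obtain ⟨d', hd'⟩ := hy1
    obtain ⟨d, hd⟩ : (f : 𝓞 k) ∣ x - y := by
      have h1 : x - y = (x - 1) - (y - 1) := by ring
      rw [h1]
      exact dvd_sub hx1 ⟨d', hd'⟩
    have hed : e (x : k) - e (y : k) = f * e (d : k) := by
      rw [← tgb_sub, hd, tgb_mul, tgb_nat]
    have hed' : e (y : k) - 1 = f * e (d' : k) := by
      have h1 : e ((y - 1 : 𝓞 k) : k) = e (y : k) - 1 := by rw [tgb_sub, tgb_one]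
      rw [← h1, hd', tgb_mul, tgb_nat]
    let l : ℂ := e (d : k) / e (y : k)
    have hα : 1 + (f : ℂ) * l = e (x : k) / e (y : k) := by
      show 1 + (f : ℂ) * (e (d : k) / e (y : k)) = e (x : k) / e (y : k)
      rw [eq_div_iff hey, add_mul, one_mul, mul_assoc, div_mul_cancel₀ _ hey, ← hed]
      ring
    have hl : l ∈ Lc e c := by
      intro z hz
      have h1 : x * z ∈ Ideal.span {y} * b := by
        rw [← hxy]
        exact Ideal.mul_mem_mul (Ideal.mem_span_singleton_self x) hz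
      obtain ⟨b₁, -, hb₁⟩ := Ideal.mem_span_singleton_mul.1 h1
      have h2 : e (y : k) * e (b₁ : k) = e (x : k) * e (z : k) := by rw [← tgb_mul, hb₁, tgb_mul]
      refine ⟨d * z - d' * (b₁ - z), ?_⟩
      rw [tgb_sub, tgb_mul, tgb_mul, tgb_sub]
      show e (d : k) / e (y : k) * e (z : k) = _
      rw [div_mul_eq_mul_div, div_eq_iff hey]
      apply mul_left_cancel₀ hfC
      linear_combination (-(e (z : k) - e (z : k) * e (y : k))) * hed - ((e (b₁ : k) - e (z : k)) * e (y : k)) * hed' +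
        (e (y : k) - 1) * h2
    refine ⟨⟨l, hl⟩, Subtype.ext ?_⟩
    show tgI e c (1 + (f : ℂ) * l) = b
    have h1 := tgI_mul (e := e) (c := c) (α := 1 + (f : ℂ) * l) (x := x) (y := y)
      (by rw [hα, div_mul_cancel₀ _ hey]) (hint' l hl)
    rw [hxy] at h1
    exact (mul_left_cancel₀ (hspan0 y hy0) h1).symm
  refine ⟨Equiv.ofBijective F ⟨hinj, hsurj⟩, fun l => ?_⟩
  obtain ⟨x, hx1, hx2, hx3⟩ := hx l l.2
  show (Ideal.absNorm (tgI e c (1 + (f : ℂ) * (l : ℂ))) : ℝ) = _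
  have h1 := congrArg (fun I : Ideal (𝓞 k) => (Ideal.absNorm I : ℝ)) hx3
  simp only [map_mul, Nat.cast_mul] at h1
  rw [nm_emb hk e, nm_emb hk e, hx2, norm_mul, mul_pow] at h1
  have h5 : ‖e (y₀ : k)‖ ^ 2 ≠ 0 := by
    apply pow_ne_zero
    rw [norm_ne_zero_iff]
    intro h0
    apply hy₀0
    apply tgb_inj (e := e)
    rw [h0]
    simp
  apply mul_left_cancel₀ h5
  rw [← h1]
  ring

end CMS
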