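import Mathlib
import Pool.Agent.Lib.CMS.Defs
import Pool.Agent.Lib.CMS.CBas
import Pool.Agent.Lib.CMS.CNrm
import Pool.Agent.Lib.CMS.CFin
import Pool.Agent.Lib.CMS.OLc1
import Pool.Agent.Lib.CMS.OLc2
import Pool.Agent.Lib.CMS.HHc
import Pool.Agent.Lib.CMS.TgB

/-!
# TgS: the Dirichlet series of T_g (paper 5.2)  (about 220 lines)

PROOF. `S = Sys k f` (`sys_spec`).  The type `{b // Cop f b ∧ N b = g in ZMod m}` is the disjoint union over the `c ∈ S` with `N c = g` of the types `{b // Cop f b ∧ Req f c b}` (`req_norm_dvd`: equivalent ideals have the same norm mod `m`; every `b` prime to `f` is equivalent to exactly one `c ∈ S`).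
For `c`: by `cls_equiv` and `Hc_hasSum` (lattice `Lc e c`, point `1/f ∉ Lc e c`): `∑_l ‖1/f + l‖^(-2s) = Hc (Lc e c) (1/f) s`, and `N(Ψ l)^(-s) = (‖1 + f l‖² N c)^(-s) = f^(-2s) ‖1/f + l‖^(-2s) (N c)^(-s)` (positive reals), `φ (Ψ l) = φ c` (`ray_req`).
So `∑_{b ~ c} wj(φ b) N b^(-s) = wj(φ c) (N c)^(-s) f^(-2s) Hc (Lc e c) (1/f) s`, the `c`-term of `TT`.  Finite sum of HasSum (`HasSum.sigma` / `hasSum_sum` over the fibres; e.g. `(Equiv.sigmaFiberEquiv ..)` or sums of indicator functions on the big type).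
-/

set_option autoImplicit false

namespace CMS

open Complex NumberField MPd9f52e

variable {k : Type} [Field k] [NumberField k]

variable {m f : ℕ} {φ : Ideal (𝓞 k) → ZMod 3}

private theorem tgs_sq {x : ℝ} (hx : 0 < x) (s : ℂ) : ((x : ℂ) * (x : ℂ)) ^ (-s) = (x : ℂ) ^ (-2 * s) := by
  have hx0 : (x : ℂ) ≠ 0 := by exact_mod_cast hx.ne'
  rw [Complex.mul_cpow_ofReal_nonneg hx.le hx.le, ← Complex.cpow_add _ _ hx0]
  congr 1
  ring

private theorem tgs_cls (hk : IQ k) (e : k →+* ℂ) (hf : 3 ≤ f) (hφ : RayChar f φ) {c : Ideal (𝓞 k)} (hc : Cop f c)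
    {s : ℂ} (hs : 1 < s.re) :
    HasSum ({b : Ideal (𝓞 k) | Cop f b ∧ Req f c b}.indicator fun b => wj (φ b) * (Ideal.absNorm b : ℂ) ^ (-s))
      (wj (φ c) * (Ideal.absNorm c : ℂ) ^ (-s) * (f : ℂ) ^ (-2 * s) * Hc (Lc e c) (1 / f) s) := by
  classical
  obtain ⟨Ψ, hΨ⟩ := cls_equiv hk e hf hc
  have hnot : (1 / f : ℂ) ∉ Lc e c := one_div_notMem (by omega) hc
  have h1 := (Hc_hasSum (isLat_Lc hk e hc.1) hnot hs).mul_left
    (wj (φ c) * (Ideal.absNorm c : ℂ) ^ (-s) * (f : ℂ) ^ (-2 * s))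
  rw [← hasSum_subtype_iff_indicator]
  refine (Equiv.hasSum_iff Ψ).1 ?_
  have h2 : (fun l : Lc e c => wj (φ c) * (Ideal.absNorm c : ℂ) ^ (-s) * (f : ℂ) ^ (-2 * s) *
      (‖(1 / f : ℂ) + (l : ℂ)‖ : ℂ) ^ (-2 * s)) =
      ((fun b : Ideal (𝓞 k) => wj (φ b) * (Ideal.absNorm b : ℂ) ^ (-s)) ∘
        (Subtype.val : {b : Ideal (𝓞 k) | Cop f b ∧ Req f c b} → Ideal (𝓞 k))) ∘ Ψ := by
    funext l
    show _ = wj (φ (Ψ l).1) * (Ideal.absNorm (Ψ l).1 : ℂ) ^ (-s)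
    have hfR : (0 : ℝ) < f := by exact_mod_cast (show 0 < f by omega)
    have hfC : (f : ℂ) ≠ 0 := by exact_mod_cast (show f ≠ 0 by omega)
    have hr : 0 < ‖(1 / f : ℂ) + (l : ℂ)‖ := by
      rw [norm_pos_iff]
      intro h0
      apply hnot
      rw [eq_neg_of_add_eq_zero_left h0]
      exact neg_mem l.2
    have h3 : (Ideal.absNorm (Ψ l).1 : ℝ) = (f * f) * ((‖(1 / f : ℂ) + (l : ℂ)‖ * ‖(1 / f : ℂ) + (l : ℂ)‖) *
        Ideal.absNorm c) := by
      rw [hΨ l]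
      have h4 : (1 : ℂ) + (f : ℂ) * (l : ℂ) = f * ((1 / f : ℂ) + (l : ℂ)) := by
        field_simp
      rw [h4, norm_mul, Complex.norm_natCast]
      ring
    have h4 : (Ideal.absNorm (Ψ l).1 : ℂ) = (((f * f : ℝ)) : ℂ) *
        (((‖(1 / f : ℂ) + (l : ℂ)‖ * ‖(1 / f : ℂ) + (l : ℂ)‖) * Ideal.absNorm c : ℝ) : ℂ) := by
      rw [← Complex.ofReal_mul, ← h3, Complex.ofReal_natCast]
    rw [h4, Complex.mul_cpow_ofReal_nonneg (by positivity) (by positivity), Complex.ofReal_mul (‖(1 / f : ℂ) + (l : ℂ)‖ * _),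
      Complex.mul_cpow_ofReal_nonneg (by positivity) (by positivity), Complex.ofReal_mul, Complex.ofReal_mul,
      tgs_sq hfR, tgs_sq hr, Complex.ofReal_natCast, Complex.ofReal_natCast, ray_req hφ hc (Ψ l).2.2]
    ring
  rw [h2] at h1
  exact h1

theorem TT_hasSum (hk : IQ k) (e : k →+* ℂ) (hf : 3 ≤ f) (hmf : m ∣ f) (hφ : RayChar f φ) (g : ZMod m) {s : ℂ}
    (hs : 1 < s.re) : HasSum (fun b : {b : Ideal (𝓞 k) // Cop f b ∧ (Ideal.absNorm b : ZMod m) = g} =>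
      wj (φ b) * (Ideal.absNorm b.1 : ℂ) ^ (-s)) (TT e f m φ g s) := by
  classical
  have hf0 : f ≠ 0 := by omega
  obtain ⟨hS1, hS2, hS3⟩ := sys_spec k hf0
  have key : ({b : Ideal (𝓞 k) | Cop f b ∧ (Ideal.absNorm b : ZMod m) = g}.indicator
      fun b => wj (φ b) * (Ideal.absNorm b : ℂ) ^ (-s)) =
      fun b => ∑ c ∈ (Sys k f).filter (fun c => (Ideal.absNorm c : ZMod m) = g),
        ({b : Ideal (𝓞 k) | Cop f b ∧ Req f c b}.indicator
          fun b => wj (φ b) * (Ideal.absNorm b : ℂ) ^ (-s)) b := by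
    funext b
    by_cases hb : b ∈ {b : Ideal (𝓞 k) | Cop f b ∧ (Ideal.absNorm b : ZMod m) = g}
    · rw [Set.indicator_of_mem hb]
      obtain ⟨c, hcS, hbc⟩ := hS3 b hb.1
      have hcT : c ∈ (Sys k f).filter (fun c => (Ideal.absNorm c : ZMod m) = g) := by
        rw [Finset.mem_filter]
        exact ⟨hcS, by rw [← req_norm_dvd hk hmf hbc]; exact hb.2⟩
      rw [Finset.sum_eq_single_of_mem c hcT]
      · rw [Set.indicator_of_mem]
        exact ⟨hb.1, req_symm hbc⟩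
      · intro c' hc' hne
        rw [Set.indicator_of_notMem]
        rintro ⟨-, h2⟩
        exact hne (hS2 c' (Finset.mem_filter.1 hc').1 c hcS (req_trans h2 hbc))
    · rw [Set.indicator_of_notMem hb]
      symm
      apply Finset.sum_eq_zero
      intro c hc
      rw [Set.indicator_of_notMem]
      rintro ⟨h1, h2⟩
      apply hb
      refine ⟨h1, ?_⟩
      rw [← req_norm_dvd hk hmf h2]
      exact (Finset.mem_filter.1 hc).2
  have h1 : HasSum ({b : Ideal (𝓞 k) | Cop f b ∧ (Ideal.absNorm b : ZMod m) = g}.indicator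
      fun b => wj (φ b) * (Ideal.absNorm b : ℂ) ^ (-s)) (TT e f m φ g s) := by
    rw [key]
    refine hasSum_sum fun c hc => ?_
    exact tgs_cls hk e hf hφ (hS1 c (Finset.mem_filter.1 hc).1) hs
  rw [← hasSum_subtype_iff_indicator] at h1
  exact h1

end CMS
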