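import Mathlib
import Pool.Agent.Lib.CMS.Defs
import Pool.Agent.Lib.CMS.LBas
import Pool.Agent.Lib.CMS.LWp
import Pool.Agent.Lib.CMS.LXV
import Pool.Agent.Lib.CMS.OLc1
import Pool.Agent.Lib.CMS.OLc2
import Pool.Agent.Lib.CMS.CBas

/-!
# XRQ: automorphisms act on the elliptic numbers (paper 6.2)  (about 260 lines)

PROOF. `q = absNorm P ∈ P` (`Ideal.absNorm_mem`), `F = f q`, `L = Lc e c`, `L' = Lc e (P * c)`, `M = Lc e (u * c)`, `M' = Lc e (P * (u * c))`; all are lattices, `L ≤ L'`, `M ≤ M'`.  `y' ∈ L'` has `q y' ∈ L`, so `F y' ∈ L`.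
(a) `XV M M' = {γ² t(x) : x ∈ XV L L'}` (`XV_spec`): for `y' ∈ L'`, `y' ∉ L`: `y' ∈ M'` (`Lc_le` after reordering the product), `y' ∉ M` (`Lc_cop` with level `F`: `Cop F u`), `t (wp L y') = wp M y' / γ²` (`Act.awp`).  Conversely for `y'' ∈ M'`, `y'' ∉ M`:
`u` is prime to `q` (`Cop F u`), `1 = y + q a`, `y ∈ u`: `y' := e(y) y'' ∈ L'` (`mem_Lc_mul`), `y'' - y' = e(a) q y'' ∈ M`, so `wp M y'' = wp M y'` and `y' ∉ L`.  The map `x ↦ γ² t(x)` is injective.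
(b) For `x = wp L y' ∈ XV L L'` and `x' = γ² t(x)`: `t (dup L x) = dup M x' / γ²` (as in `dup_sc`: `t (g2 L) = g2 M / γ⁴`, `t (g3 L) = g3 M / γ⁶`), `t (wp L (1/f)) = wp M (1/f) / γ²` (`F (1/f) = q ∈ L`, `1/f ∉ L`).
So `t ((x - dup L x)/(wp L (1/f) - x)) = (x' - dup M x')/(wp M (1/f) - x')`.  Multiply (`Finset.prod_bij` / `Finset.prod_image`).
-/

set_option autoImplicit false

namespace CMS

open Complex NumberField MPd9f52e

variable {k : Type} [Field k] [NumberField k]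

private theorem xrq_dup {g X G2 G3 : ℂ} (hg : g ≠ 0) :
    (((X / g ^ 2) ^ 2 + G2 / g ^ 4 / 4) ^ 2 + 2 * (G3 / g ^ 6) * (X / g ^ 2)) /
      (4 * (X / g ^ 2) ^ 3 - G2 / g ^ 4 * (X / g ^ 2) - G3 / g ^ 6) =
    ((X ^ 2 + G2 / 4) ^ 2 + 2 * G3 * X) / (4 * X ^ 3 - G2 * X - G3) / g ^ 2 := by
  have h1 : ((X / g ^ 2) ^ 2 + G2 / g ^ 4 / 4) ^ 2 + 2 * (G3 / g ^ 6) * (X / g ^ 2) =
      ((X ^ 2 + G2 / 4) ^ 2 + 2 * G3 * X) / g ^ 8 := by
    field_simp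
  have h2 : 4 * (X / g ^ 2) ^ 3 - G2 / g ^ 4 * (X / g ^ 2) - G3 / g ^ 6 =
      (4 * X ^ 3 - G2 * X - G3) / g ^ 6 := by
    field_simp
  rw [h1, h2]
  by_cases hD : 4 * X ^ 3 - G2 * X - G3 = 0
  · rw [hD, zero_div, div_zero, div_zero, zero_div]
  · field_simp

private theorem xrq_nat (e : k →+* ℂ) (n : ℕ) : e (((n : 𝓞 k)) : k) = (n : ℂ) := by
  simp

theorem RQ_act (hk : IQ k) {e : k →+* ℂ} {t : ℂ ≃+* ℂ} {f : ℕ} (hf : 3 ≤ f) {P : Ideal (𝓞 k)} (hP0 : P ≠ ⊥)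
    {γ : ℂ} {u : Ideal (𝓞 k)} (h : Act e t (f * Ideal.absNorm P) γ u) {c : Ideal (𝓞 k)} (hc : Cop f c) :
    t (RQ (Lc e c) (Lc e (P * c)) (1 / f)) = RQ (Lc e (u * c)) (Lc e (P * (u * c))) (1 / f) := by
  have hc0 : c ≠ ⊥ := hc.1
  have hu0 : u ≠ ⊥ := h.cop.1
  have hL : IsLat (Lc e c) := isLat_Lc hk e hc0
  have hL' : IsLat (Lc e (P * c)) := isLat_Lc hk e (mul_ne_zero hP0 hc0)
  have hM : IsLat (Lc e (u * c)) := isLat_Lc hk e (mul_ne_zero hu0 hc0)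
  have hM' : IsLat (Lc e (P * (u * c))) :=
    isLat_Lc hk e (mul_ne_zero hP0 (mul_ne_zero hu0 hc0))
  have hLL' : Lc e c ≤ Lc e (P * c) := Lc_le P c
  have hMM' : Lc e (u * c) ≤ Lc e (P * (u * c)) := Lc_le P (u * c)
  have hLM : Lc e c ≤ Lc e (u * c) := Lc_le u c
  have hswap : Lc e (P * (u * c)) = Lc e (u * (P * c)) := by rw [mul_left_comm]
  have hL'M' : Lc e (P * c) ≤ Lc e (P * (u * c)) := by
    rw [hswap]
    exact Lc_le u (P * c)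
  have hq : ((Ideal.absNorm P : ℕ) : 𝓞 k) ∈ P := Ideal.absNorm_mem P
  -- multiplication by `F`
  have hF : ∀ (d : Ideal (𝓞 k)) (y : ℂ), y ∈ Lc e (P * d) →
      ((f * Ideal.absNorm P : ℕ) : ℂ) * y ∈ Lc e d := by
    intro d y hy
    have h1 := mem_Lc_mul.1 hy _ hq
    rw [xrq_nat] at h1
    have h2 := (Lc e d).smul_mem (f : ℤ) h1
    rw [zsmul_eq_mul] at h2
    have h3 : ((f * Ideal.absNorm P : ℕ) : ℂ) * y =
        ((f : ℤ) : ℂ) * ((Ideal.absNorm P : ℂ) * y) := by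
      push_cast
      ring
    rw [h3]
    exact h2
  have hγ2 : γ ^ 2 ≠ 0 := pow_ne_zero 2 h.gne
  have ha : ∀ y : ℂ, y ∈ Lc e (P * c) → y ∉ Lc e c →
      y ∈ Lc e (P * (u * c)) ∧ y ∉ Lc e (u * c) ∧
        γ ^ 2 * t (wp (Lc e c) y) = wp (Lc e (u * c)) y := by
    intro y hy hy0
    refine ⟨hL'M' hy, fun h1 => hy0 (Lc_cop h.cop (hF c y hy) h1), ?_⟩
    rw [h.awp c hc0 y (hF c y hy) hy0, mul_div_cancel₀ _ hγ2]
  have hf0 : (f : ℂ) ≠ 0 := Nat.cast_ne_zero.2 (by omega)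
  have h1f : (1 / f : ℂ) ∉ Lc e c := one_div_notMem (by omega) hc
  have hw : t (wp (Lc e c) (1 / f)) = wp (Lc e (u * c)) (1 / f) / γ ^ 2 := by
    refine h.awp c hc0 _ ?_ h1f
    have h1 : ((f * Ideal.absNorm P : ℕ) : ℂ) * (1 / f) = (Ideal.absNorm P : ℂ) := by
      push_cast
      field_simp
    rw [h1, ← xrq_nat e]
    exact emb_mem_Lc c _
  unfold RQ
  rw [map_prod]
  refine Finset.prod_bij (fun x _ => γ ^ 2 * t x) ?_ ?_ ?_ ?_
  · intro x hx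
    obtain ⟨y, hy, hy0, rfl⟩ := (XV_spec hL hL' hLL' x).1 hx
    obtain ⟨h1, h2, h3⟩ := ha y hy hy0
    exact (XV_spec hM hM' hMM' _).2 ⟨y, h1, h2, h3.symm⟩
  · intro x _ x' _ hxx
    exact t.injective (mul_left_cancel₀ hγ2 hxx)
  · intro x hx
    obtain ⟨y, hy, hy0, rfl⟩ := (XV_spec hM hM' hMM' x).1 hx
    obtain ⟨r, hr, s, hs, hrs⟩ := Submodule.mem_sup.1
      ((Ideal.eq_top_iff_one _).1 (Ideal.isCoprime_iff_sup_eq.1 h.cop.2))
    obtain ⟨a, rfl⟩ := Ideal.mem_span_singleton'.1 hs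
    have h1 : e (r : k) * y ∈ Lc e (P * c) := by
      rw [hswap] at hy
      exact mem_Lc_mul.1 hy r hr
    have h2 : y - e (r : k) * y ∈ Lc e (u * c) := by
      have h3 := Lc_smul a (hF (u * c) y hy)
      have h4 : e (r : k) + e (a : k) * ((f * Ideal.absNorm P : ℕ) : ℂ) = 1 := by
        have h5 := congrArg (fun z : 𝓞 k => e (z : k)) hrs
        simp only [map_add, map_mul, map_one] at h5
        rw [xrq_nat] at h5
        exact h5
      have h6 : y - e (r : k) * y = e (a : k) * (((f * Ideal.absNorm P : ℕ) : ℂ) * y) := by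
        linear_combination -(y * h4)
      rw [h6]
      exact h3
    have h3 : e (r : k) * y ∉ Lc e c := by
      intro h4
      apply hy0
      have h5 := add_mem h2 (hLM h4)
      rwa [sub_add_cancel] at h5
    have h4 : wp (Lc e (u * c)) y = wp (Lc e (u * c)) (e (r : k) * y) := by
      have h5 := wp_add_mem hM h2 (e (r : k) * y)
      rwa [add_sub_cancel] at h5
    refine ⟨wp (Lc e c) (e (r : k) * y), (XV_spec hL hL' hLL' _).2 ⟨_, h1, h3, rfl⟩, ?_⟩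
    rw [(ha _ h1 h3).2.2, h4]
  · intro x _
    have h1 : t x = γ ^ 2 * t x / γ ^ 2 := by
      rw [mul_div_cancel_left₀ _ hγ2]
    have h2 : t (dup (Lc e c) x) = dup (Lc e (u * c)) (γ ^ 2 * t x) / γ ^ 2 := by
      unfold dup
      rw [← xrq_dup h.gne, ← h1, ← h.ag2 c hc0, ← h.ag3 c hc0]
      simp only [map_div₀, map_add, map_sub, map_mul, map_pow, map_ofNat]
    rw [map_div₀, map_sub, map_sub, hw, h2]
    have h3 : t x - dup (Lc e (u * c)) (γ ^ 2 * t x) / γ ^ 2 =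
        (γ ^ 2 * t x - dup (Lc e (u * c)) (γ ^ 2 * t x)) / γ ^ 2 := by
      rw [sub_div, ← h1]
    have h4 : wp (Lc e (u * c)) (1 / f) / γ ^ 2 - t x =
        (wp (Lc e (u * c)) (1 / f) - γ ^ 2 * t x) / γ ^ 2 := by
      rw [sub_div, ← h1]
    rw [h3, h4, div_div_div_cancel_right₀ hγ2]

end CMS
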