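import Mathlib
import Pool.Agent.Lib.CMS.Defs
import Pool.Agent.Lib.CMS.CBas
import Pool.Agent.Lib.CMS.CNrm
import Pool.Agent.Lib.CMS.CFin
import Pool.Agent.Lib.CMS.OCr
import Pool.Agent.Lib.CMS.XRQ
import Pool.Agent.Lib.CMS.OAct
import Pool.Agent.Lib.CMS.OAct2
import Pool.Agent.Lib.CMS.OFin

/-!
# XDef: the numbers xiN and the action of automorphisms  (about 200 lines)

PROOF. `xiN_ray`: let `F = f · q`, `q = absNorm P = absNorm P'` (`≠ 0`); `act_exists` at level `F`: `Act e t F γ' u'`; `act_dvd`, `act_unique`: `Req f u u'`, so `φ u = φ u'` (`ray_req`) and `N u = N u'` mod `m`.  By `RQ_act` (for `P` and `P'`) `t` maps the factor of `c` to the factor of `u' * c`.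
The factor `R(c) = RQ (Lc e c) (Lc e (P*c)) (1/f) / RQ (Lc e c) (Lc e (P'*c)) (1/f)` depends only on the class of `c` (`RQ_req`).  `prod_sys` with `T c = u' * c` for the function `G c = R(c)` if `φ c = i + φ u' ∧ N P N c = g N u'`, else `1`:
`G (u' c) = R(u' c)` iff `φ u' + φ c = i + φ u'` and `N P N u' N c = g N u'` in `ZMod m`, i.e. `φ c = i` and `N P N c = g`, as `N u'` is a unit mod `m` (`u'` is prime to `f`, `m ∣ f`; the norm of an ideal prime to `f` is prime to `f`).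
-/

set_option autoImplicit false

namespace CMS

open Complex NumberField MPd9f52e

variable {k : Type} [Field k] [NumberField k]

open Classical in
/-- products of quotients of elliptic numbers over the classes with `φ(c) = i`, `N P N c = g` -/
noncomputable def xiN (e : k →+* ℂ) (f m : ℕ) (φ : Ideal (𝓞 k) → ZMod 3) (P P' : Ideal (𝓞 k)) (i : ZMod 3)
    (g : ZMod m) : ℂ :=
  ∏ c ∈ (Sys k f).filter (fun c => φ c = i ∧ ((Ideal.absNorm P * Ideal.absNorm c : ℕ) : ZMod m) = g),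
    RQ (Lc e c) (Lc e (P * c)) (1 / f) / RQ (Lc e c) (Lc e (P' * c)) (1 / f)

private theorem xd_unit (hk : IQ k) {m f : ℕ} (hmf : m ∣ f) {u : Ideal (𝓞 k)} (hu : Cop f u) :
    ∃ b : ZMod m, (Ideal.absNorm u : ZMod m) * b = 1 := by
  obtain ⟨x, hx, y, hy, hxy⟩ := Ideal.isCoprime_iff_exists.1 hu.2
  obtain ⟨z, rfl⟩ := Ideal.mem_span_singleton'.1 hy
  have h1 : (m : 𝓞 k) ∣ x - 1 := by
    obtain ⟨n, rfl⟩ := hmf
    refine ⟨-(z * n), ?_⟩
    push_cast at hxy ⊢
    linear_combination hxy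
  have h2 := nm_mod hk h1
  obtain ⟨d, hd⟩ := Ideal.absNorm_dvd_absNorm_of_le ((Ideal.span_singleton_le_iff_mem u).2 hx)
  rw [hd] at h2
  push_cast at h2
  exact ⟨d, h2⟩

theorem xiN_ray (hk : IQ k) {e : k →+* ℂ} {m f : ℕ} {φ : Ideal (𝓞 k) → ZMod 3} (hf : 3 ≤ f) (hmf : m ∣ f)
    (hφ : RayChar f φ) {P P' : Ideal (𝓞 k)} (hP0 : P ≠ ⊥) (hN : Ideal.absNorm P' = Ideal.absNorm P)
    {t : ℂ ≃+* ℂ} (ht : ∀ x, t (e x) = e x) {γ : ℂ} {u : Ideal (𝓞 k)} (h : Act e t f γ u) (i : ZMod 3) (g : ZMod m) :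
    t (xiN e f m φ P P' i g) = xiN e f m φ P P' (i + φ u) (g * (Ideal.absNorm u : ZMod m)) := by
  classical
  have hf0 : f ≠ 0 := by omega
  have hq0 : Ideal.absNorm P ≠ 0 := fun h0 => hP0 (Ideal.absNorm_eq_zero_iff.1 h0)
  have hP0' : P' ≠ ⊥ := by
    rintro rfl
    rw [Ideal.absNorm_bot] at hN
    exact hq0 hN.symm
  have hF : 3 ≤ f * Ideal.absNorm P := by
    have := Nat.pos_of_ne_zero hq0
    nlinarith
  obtain ⟨γ', u', h'⟩ := act_exists hk ht hF
  have h'f : Act e t f γ' u' := act_dvd (Dvd.intro _ rfl) (by omega) h'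
  have hreq : Req f u u' := act_unique hk ht hf h h'f
  have hφu : φ u = φ u' := ray_req hφ h.cop hreq
  have hNu : (Ideal.absNorm u : ZMod m) = (Ideal.absNorm u' : ZMod m) := req_norm_dvd hk hmf hreq
  have hsys := sys_spec k hf0
  rw [hφu, hNu]
  have hR : ∀ c, Cop f c →
      t (RQ (Lc e c) (Lc e (P * c)) (1 / f) / RQ (Lc e c) (Lc e (P' * c)) (1 / f)) =
      RQ (Lc e (u' * c)) (Lc e (P * (u' * c))) (1 / f) /
        RQ (Lc e (u' * c)) (Lc e (P' * (u' * c))) (1 / f) := by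
    intro c hc
    rw [map_div₀, RQ_act hk hf hP0 h' hc, RQ_act hk hf hP0' (by rw [hN]; exact h') hc]
  let G : Ideal (𝓞 k) → ℂ := fun c =>
    if φ c = i + φ u' ∧ ((Ideal.absNorm P * Ideal.absNorm c : ℕ) : ZMod m) =
        g * (Ideal.absNorm u' : ZMod m)
      then RQ (Lc e c) (Lc e (P * c)) (1 / f) / RQ (Lc e c) (Lc e (P' * c)) (1 / f) else 1
  obtain ⟨b, hb⟩ := xd_unit hk hmf h'f.cop
  have hG : ∀ a b, Cop f a → Req f a b → G a = G b := by
    intro a b ha hab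
    have h1 : φ a = φ b := ray_req hφ ha hab
    have h2 : (Ideal.absNorm a : ZMod m) = (Ideal.absNorm b : ZMod m) := req_norm_dvd hk hmf hab
    simp only [G]
    rw [h1, Nat.cast_mul, Nat.cast_mul, h2, RQ_req hk hf0 ha hab P, RQ_req hk hf0 ha hab P']
  have hprod := prod_sys (k := k) hf0 (F := G) (T := fun c => u' * c) hG
    (fun a ha => cop_mul.2 ⟨h'f.cop, ha⟩) (fun a b _ _ hab => req_cancel h'f.cop.1 hab)
  have hL : t (xiN e f m φ P P' i g) = ∏ c ∈ Sys k f, G (u' * c) := by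
    unfold xiN
    rw [map_prod, Finset.prod_filter]
    refine Finset.prod_congr rfl fun c hc => ?_
    have hcc := hsys.1 c hc
    rw [hR c hcc]
    simp only [G]
    have h1 : φ (u' * c) = φ u' + φ c := hφ.mul _ _ h'f.cop hcc
    have h2 : (φ c = i ∧ ((Ideal.absNorm P * Ideal.absNorm c : ℕ) : ZMod m) = g) ↔
        (φ (u' * c) = i + φ u' ∧ ((Ideal.absNorm P * Ideal.absNorm (u' * c) : ℕ) : ZMod m) =
          g * (Ideal.absNorm u' : ZMod m)) := by
      rw [h1, map_mul]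
      push_cast
      constructor
      · rintro ⟨h3, h4⟩
        refine ⟨by rw [h3]; ring, ?_⟩
        rw [← h4]
        ring
      · rintro ⟨h3, h4⟩
        refine ⟨by linear_combination h3, ?_⟩
        linear_combination b * h4 + (g - (Ideal.absNorm P : ZMod m) * (Ideal.absNorm c : ZMod m)) * hb
    by_cases h5 : φ c = i ∧ ((Ideal.absNorm P * Ideal.absNorm c : ℕ) : ZMod m) = g
    · rw [if_pos h5, if_pos (h2.1 h5)]
    · rw [if_neg h5, if_neg (fun h6 => h5 (h2.2 h6))]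
  rw [hL, hprod]
  unfold xiN
  rw [Finset.prod_filter]

end CMS
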