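import Mathlib
import Pool.Agent.Lib.CMS.Defs
import Pool.Agent.Lib.CMS.CBas
import Pool.Agent.Lib.CMS.CNrm
import Pool.Agent.Lib.CMS.CFin
import Pool.Agent.Lib.CMS.OLc1
import Pool.Agent.Lib.CMS.OLc2
import Pool.Agent.Lib.CMS.OCard
import Pool.Agent.Lib.CMS.HRq
import Pool.Agent.Lib.CMS.TgP
import Pool.Agent.Lib.CMS.XDef

/-!
# XAbs: absolute values of xiN  (about 180 lines)

PROOF. `q = absNorm P = absNorm P'` prime to 6.  `L = Lc e c`, `L' = Lc e (P * c)`: `S` representatives (`exists_reps`), `S.card = q` (`Lc_card`).  `1/f ∉ Lc e (P * c)` (`one_div_notMem`, `cop_mul`).  `RQ_abs`: `‖RQ L L' (1/f)‖ = phi L (1/f)^q / phi L' (1/f)`.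
So each factor has absolute value `phi (Lc e (P' c)) (1/f) / phi (Lc e (P c)) (1/f)` (`phi > 0`).  The product over the filter: the filter conditions for `P` and `P'` are the same (`hN`), `Phi_shift` for `P'` and `P`.
-/

set_option autoImplicit false

namespace CMS

open Complex NumberField MPd9f52e

variable {k : Type} [Field k] [NumberField k]

theorem xiN_abs (hk : IQ k) {e : k →+* ℂ} {m f : ℕ} {φ : Ideal (𝓞 k) → ZMod 3} (hf : 3 ≤ f) (hmf : m ∣ f)
    (hφ : RayChar f φ) {P P' : Ideal (𝓞 k)} (hP : Cop f P) (hP' : Cop f P') (hN : Ideal.absNorm P' = Ideal.absNorm P)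
    (h6 : (Ideal.absNorm P).Coprime 6) (i : ZMod 3) (g : ZMod m) :
    ‖xiN e f m φ P P' i g‖ = Phi e f m φ (φ P' + i) g / Phi e f m φ (φ P + i) g := by
  classical
  have hf0 : f ≠ 0 := by omega
  have hsys := sys_spec k hf0
  have key : ∀ c ∈ Sys k f, ‖RQ (Lc e c) (Lc e (P * c)) (1 / f) / RQ (Lc e c) (Lc e (P' * c)) (1 / f)‖ =
      phi (Lc e (P' * c)) (1 / f) / phi (Lc e (P * c)) (1 / f) := by
    intro c hc
    have hcc : Cop f c := hsys.1 c hc
    have one : ∀ Q : Ideal (𝓞 k), Cop f Q → (Ideal.absNorm Q).Coprime 6 →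
        ‖RQ (Lc e c) (Lc e (Q * c)) (1 / f)‖ =
          phi (Lc e c) (1 / f) ^ (Ideal.absNorm Q) / phi (Lc e (Q * c)) (1 / f) := by
      intro Q hQ hQ6
      have hQc : Cop f (Q * c) := cop_mul.2 ⟨hQ, hcc⟩
      obtain ⟨S, hS⟩ := exists_reps (isLat_Lc hk e hcc.1) (isLat_Lc hk e hQc.1) (Lc_le Q c)
      have hcard := Lc_card hk e hQ.1 hcc.1 hS
      rw [RQ_abs (isLat_Lc hk e hcc.1) (isLat_Lc hk e hQc.1) (Lc_le Q c) hS
        (by rw [hcard]; exact hQ6) (one_div_notMem (by omega) hQc), hcard]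
    rw [norm_div, one P hP h6, one P' hP' (by rw [hN]; exact h6), hN]
    have h1 : 0 < phi (Lc e c) (1 / f) := phi_pos (one_div_notMem (by omega) hcc)
    have h2 : 0 < phi (Lc e (P * c)) (1 / f) :=
      phi_pos (one_div_notMem (by omega) (cop_mul.2 ⟨hP, hcc⟩))
    have h3 : 0 < phi (Lc e (P' * c)) (1 / f) :=
      phi_pos (one_div_notMem (by omega) (cop_mul.2 ⟨hP', hcc⟩))
    have h4 : phi (Lc e c) (1 / f) ^ Ideal.absNorm P ≠ 0 := (pow_pos h1 _).ne'
    field_simp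
  unfold xiN
  rw [norm_prod, Finset.prod_congr rfl (fun c hc => key c (Finset.mem_filter.1 hc).1),
    Finset.prod_div_distrib, Phi_shift hk e hf hmf hφ hP]
  have h3 := Phi_shift hk e hf hmf hφ hP' i g
  rw [hN] at h3
  rw [h3]

end CMS
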