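import Mathlib
import Pool.Agent.Lib.CMS.VRed
import Pool.Agent.Lib.CMS.LXV

/-!
# V36: valuations of the elliptic numbers
-/

set_option autoImplicit false

namespace CMS

open Complex NumberField

variable {Γ : Type*} [LinearOrderedCommGroupWithZero Γ] {v : Valuation ℂ Γ} {L : Submodule ℤ ℂ} {b2 b4 b6 b8 : ℂ}

private theorem v36_mem {q m : ℕ} (h : m.Coprime q) {u : ℂ} (hq : (q : ℂ) * u ∈ L) (hm : (m : ℂ) * u ∈ L) : u ∈ L := by
  have h1 : (m : ℤ) * Nat.gcdA m q + (q : ℤ) * Nat.gcdB m q = 1 := by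
    have := Nat.gcd_eq_gcd_ab m q
    rw [h] at this
    push_cast at this
    linarith
  have h2 : (Nat.gcdA m q) • ((m : ℂ) * u) + (Nat.gcdB m q) • ((q : ℂ) * u) = u := by
    rw [zsmul_eq_mul, zsmul_eq_mul]
    have h3 : ((m : ℂ)) * (Nat.gcdA m q : ℂ) + (q : ℂ) * (Nat.gcdB m q : ℂ) = 1 := by
      exact_mod_cast h1
    linear_combination u * h3
  rw [← h2]
  exact L.add_mem (L.smul_mem _ hm) (L.smul_mem _ hq)

private theorem v36_int (v : Valuation ℂ Γ) (n : ℤ) : v (n : ℂ) ≤ 1 := by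
  have h1 : ∀ k : ℕ, v (k : ℂ) ≤ 1 := by
    intro k
    induction k with
    | zero => simp
    | succ k ih =>
      push_cast
      exact (v.map_add _ _).trans (max_le ih (by rw [map_one]))
  obtain ⟨k, rfl | rfl⟩ := n.eq_nat_or_neg
  · simpa using h1 k
  · rw [Int.cast_neg, Valuation.map_neg]
    simpa using h1 k

private theorem v36_one (v : Valuation ℂ Γ) {m q : ℕ} (h : m.Coprime q) (hq : v (q : ℂ) < 1) : v (m : ℂ) = 1 := by
  refine le_antisymm (by simpa using v36_int v (m : ℤ)) ?_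
  by_contra hlt
  rw [not_le] at hlt
  have h1 : (m : ℤ) * Nat.gcdA m q + (q : ℤ) * Nat.gcdB m q = 1 := by
    have := Nat.gcd_eq_gcd_ab m q
    rw [h] at this
    push_cast at this
    linarith
  have h3 : ((m : ℂ)) * (Nat.gcdA m q : ℂ) + (q : ℂ) * (Nat.gcdB m q : ℂ) = 1 := by
    exact_mod_cast h1
  have h4 : v (((m : ℂ)) * (Nat.gcdA m q : ℂ) + (q : ℂ) * (Nat.gcdB m q : ℂ)) < 1 := by
    refine (v.map_add _ _).trans_lt (max_lt ?_ ?_)
    · rw [map_mul]
      exact mul_lt_one_of_lt_of_le hlt (v36_int v _)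
    · rw [map_mul]
      exact mul_lt_one_of_lt_of_le hq (v36_int v _)
  rw [h3, map_one] at h4
  exact lt_irrefl _ h4

variable {X : ℂ → ℂ}

private theorem v36_e1 (hX : Crd v L X b2 b4 b6 b8) {q m : ℕ} (hq1 : 1 < q) (h : m.Coprime q) {u : ℂ}
    (hq : (q : ℂ) * u ∈ L) (hm : E1 v L X ((m : ℂ) * u)) : E1 v L X u := by
  obtain ⟨a, -, ha⟩ := Nat.exists_mul_mod_eq_one_of_coprime h hq1
  have h1 : m * a = 1 + q * (m * a / q) := by
    have := Nat.mod_add_div (m * a) q
    rw [ha] at this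
    exact this.symm
  have h2 := e1_nsmul hX hm a
  have h3 : E1 v L X (-((m * a / q : ℕ) : ℂ) * ((q : ℂ) * u)) := by
    refine Or.inl ?_
    have h4 : (-((m * a / q : ℕ) : ℤ)) • ((q : ℂ) * u) ∈ L := L.smul_mem _ hq
    rw [zsmul_eq_mul] at h4
    push_cast at h4 ⊢
    exact h4
  have h4 := e1_add hX h2 h3
  have h5 : (a : ℂ) * ((m : ℂ) * u) + -((m * a / q : ℕ) : ℂ) * ((q : ℂ) * u) = u := by
    have h6 : (m : ℂ) * (a : ℂ) = 1 + (q : ℂ) * ((m * a / q : ℕ) : ℂ) := by
      have := congrArg (Nat.cast : ℕ → ℂ) h1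
      rw [Nat.cast_mul, Nat.cast_add, Nat.cast_mul, Nat.cast_one] at this
      exact this
    linear_combination u * h6
  rwa [h5] at h4

/-- the sum or difference of `z` and `u` is not in the kernel of reduction -/
private theorem v36_pm (hX : Crd v L X b2 b4 b6 b8) {q n : ℕ} (hq1 : 1 < q) (h : n.Coprime q) {z u : ℂ}
    (hq : (q : ℂ) * u ∈ L) (hz : (n : ℂ) * z ∈ L) (hu : ¬ E1 v L X u) :
    ¬ E1 v L X (z + u) ∧ ¬ E1 v L X (z - u) := by
  have hzn : E1 v L X (-((n : ℂ) * z)) := e1_neg hX (Or.inl hz)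
  constructor
  · intro h1
    have h2 := e1_add hX (e1_nsmul hX h1 n) hzn
    have h3 : (n : ℂ) * (z + u) + -((n : ℂ) * z) = (n : ℂ) * u := by ring
    rw [h3] at h2
    exact hu (v36_e1 hX hq1 h hq h2)
  · intro h1
    have h2 := e1_neg hX (e1_add hX (e1_nsmul hX h1 n) hzn)
    have h3 : -((n : ℂ) * (z - u) + -((n : ℂ) * z)) = (n : ℂ) * u := by ring
    rw [h3] at h2
    exact hu (v36_e1 hX hq1 h hq h2)

/-- the valuation of a factor -/
private theorem v36_fac (hX : Crd v L X b2 b4 b6 b8) (hG : GR v b2 b4 b6 b8) {q : ℕ} (hq : q.Prime) (hq5 : 5 ≤ q)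
    {z : ℂ} {n : ℕ} (hz : z ∉ L) (hn : n.Coprime q) (hnz : (n : ℂ) * z ∈ L) {u : ℂ} (hqu : (q : ℂ) * u ∈ L)
    (hu : u ∉ L) : v ((X u - X (u + u)) / (X z - X u)) =
      if v (q : ℂ) = 1 ∧ 1 < v (X z) then (v (X z))⁻¹ else 1 := by
  have hq1 : 1 < q := by omega
  have hc : ∀ m : ℕ, m ≠ 0 → m < q → m.Coprime q := fun m h0 hm => (Nat.coprime_of_lt_prime h0 hm hq).symm
  have hmu : ∀ m : ℕ, m ≠ 0 → m < q → (m : ℂ) * u ∉ L := fun m h0 hm h => hu (v36_mem (hc m h0 hm) hqu h)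
  have h2u : u + u ∉ L := by
    have := hmu 2 (by norm_num) (by omega)
    rwa [show ((2 : ℕ) : ℂ) * u = u + u by push_cast; ring] at this
  have h3u : u + (u + u) ∉ L := by
    have := hmu 3 (by norm_num) (by omega)
    rwa [show ((3 : ℕ) : ℂ) * u = u + (u + u) by push_cast; ring] at this
  have hneg : u - (u + u) ∉ L := by
    intro h
    apply hu
    have := L.neg_mem h
    rwa [show -(u - (u + u)) = u by ring] at this
  rw [map_div₀]
  by_cases hvq : v (q : ℂ) = 1
  · -- the residue characteristic is not `q`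
    have htu : TP v L u := ⟨q, hvq, hqu⟩
    have ht2 : TP v L (u + u) := tp_add htu htu
    have h1 : v (X u - X (u + u)) = 1 := red_tp hX hG htu ht2 hu h2u h3u hneg
    have hgu := tp_good htu hu
    have hvu := good_le hX hgu
    have hEu := good_not_e1 hX hgu
    rw [h1]
    by_cases hvz : 1 < v (X z)
    · rw [if_pos ⟨hvq, hvz⟩, Valuation.map_sub_swap, red_far hvu hvz, one_div]
    · rw [if_neg fun h => hvz h.2]
      have hEz : ¬ E1 v L X z := fun h => h.elim hz hvz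
      obtain ⟨h2, h3⟩ := v36_pm hX hq1 hn hqu hnz hEu
      rw [red_sub hX hG hEz hEu h2 h3, div_one]
  · have hvq' : v (q : ℂ) < 1 := lt_of_le_of_ne (by simpa using v36_int v (q : ℤ)) hvq
    rw [if_neg fun h => hvq h.1]
    have hv2 : v (2 : ℂ) = 1 := by
      have := v36_one v (hc 2 (by norm_num) (by omega)) hvq'
      simpa using this
    have hv3 : v (3 : ℂ) = 1 := by
      have := v36_one v (hc 3 (by norm_num) (by omega)) hvq'
      simpa using this
    have htz : TP v L z := ⟨n, v36_one v hn hvq', hnz⟩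
    have hgz := tp_good htz hz
    have hvz := good_le hX hgz
    have hEz := good_not_e1 hX hgz
    by_cases hEu : E1 v L X u
    · have hvu : 1 < v (X u) := hEu.resolve_left hu
      have h1 : v (X u - X (u + u)) = v (X u) := e1_dbl_sub hX hu hvu hv2 hv3
      rw [h1, red_far hvz hvu, div_self]
      exact (lt_trans zero_lt_one hvu).ne'
    · have h2E : ¬ E1 v L X (u + u) := by
        intro h
        apply hEu
        refine v36_e1 hX hq1 (hc 2 (by norm_num) (by omega)) hqu ?_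
        rwa [show ((2 : ℕ) : ℂ) * u = u + u by push_cast; ring]
      have h3E : ¬ E1 v L X (u + (u + u)) := by
        intro h
        apply hEu
        refine v36_e1 hX hq1 (hc 3 (by norm_num) (by omega)) hqu ?_
        rwa [show ((3 : ℕ) : ℂ) * u = u + (u + u) by push_cast; ring]
      have hnE : ¬ E1 v L X (u - (u + u)) := by
        intro h
        apply hEu
        have := e1_neg hX h
        rwa [show -(u - (u + u)) = u by ring] at this
      obtain ⟨h2, h3⟩ := v36_pm hX hq1 hn hqu hnz hEu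
      rw [red_sub hX hG hEu h2E h3E hnE, red_sub hX hG hEz hEu h2 h3, div_one]

open Classical in
theorem RQ_val (hL : IsLat L) {r : ℂ} (hr : r ≠ 0)
    (hX : Crd v L (fun z => r ^ 2 * wp L z - b2 / 12) b2 b4 b6 b8) (hG : GR v b2 b4 b6 b8) {q : ℕ} (hq : q.Prime)
    (hq5 : 5 ≤ q) {L' : Submodule ℤ ℂ} (hL' : IsLat L') (h : L ≤ L') {S : Finset ℂ} (hS : IsReps L L' S)
    (hc : S.card = q) {z : ℂ} {n : ℕ} (hz : z ∉ L) (hn : n.Coprime q) (hnz : (n : ℂ) * z ∈ L) :
    v (RQ L L' z) = (if v (q : ℂ) = 1 ∧ 1 < v (r ^ 2 * wp L z - b2 / 12) then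
      (v (r ^ 2 * wp L z - b2 / 12))⁻¹ else 1) ^ ((q - 1) / 2) := by
  have hodd : Odd S.card := by
    rw [hc]
    exact hq.odd_of_ne_two (by omega)
  have hcard := XV_card hL hL' h hS hodd
  have hfac : ∀ x ∈ XV L L', v ((x - dup L x) / (wp L z - x)) =
      if v (q : ℂ) = 1 ∧ 1 < v (r ^ 2 * wp L z - b2 / 12) then
      (v (r ^ 2 * wp L z - b2 / 12))⁻¹ else 1 := by
    intro x hx
    obtain ⟨u, huL', hu, rfl⟩ := (XV_spec hL hL' h x).1 hx
    have hqu : (q : ℂ) * u ∈ L := by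
      rw [← hc]
      exact card_mul_mem h hS huL'
    have h2u : u + u ∉ L := by
      intro h2
      refine hu (v36_mem (m := 2) (q := q) (Nat.coprime_of_lt_prime (by norm_num) (by omega) hq).symm hqu ?_)
      rwa [show ((2 : ℕ) : ℂ) * u = u + u by push_cast; ring]
    have h1 := v36_fac hX hG hq hq5 hz hn hnz hqu hu
    rw [← h1]
    congr 1
    rw [← wp_dup_eq hL hu h2u]
    have e1 : (r ^ 2 * wp L u - b2 / 12) - (r ^ 2 * wp L (u + u) - b2 / 12) =
        r ^ 2 * (wp L u - wp L (u + u)) := by ring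
    have e2 : (r ^ 2 * wp L z - b2 / 12) - (r ^ 2 * wp L u - b2 / 12) = r ^ 2 * (wp L z - wp L u) := by ring
    change _ = ((r ^ 2 * wp L u - b2 / 12) - (r ^ 2 * wp L (u + u) - b2 / 12)) /
      ((r ^ 2 * wp L z - b2 / 12) - (r ^ 2 * wp L u - b2 / 12))
    rw [e1, e2, mul_div_mul_left _ _ (pow_ne_zero 2 hr)]
  unfold RQ
  rw [map_prod, Finset.prod_congr rfl hfac, Finset.prod_const]
  congr 1
  omega

end CMS
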