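import Mathlib
import Pool.Agent.Lib.CMS.Defs
import Pool.Agent.Lib.CMS.CBas
import Pool.Agent.Lib.CMS.CFin
import Pool.Agent.Lib.CMS.OLc1
import Pool.Agent.Lib.CMS.OLc2
import Pool.Agent.Lib.CMS.OCard
import Pool.Agent.Lib.CMS.VMod
import Pool.Agent.Lib.CMS.V3f
import Pool.Agent.Lib.CMS.V36
import Pool.Agent.Lib.CMS.XDef
import Pool.Agent.Lib.MP_d9f52e_nt.UR

/-!
# XVal: xiN is a unit (paper 6.3)  (about 180 lines)

PROOF. Let `V` be a valuation subring of `ℂ`, `v` its valuation.  For `c` prime to `f`: `L = Lc e c` is stable under `𝓞 k` (`Lc_smul`), `v (jj L) ≤ 1` (`j_int`), a good model `r, b2, ..` (`model_good`).  `L' = Lc e (P * c)`: representatives `S`, `S.card = q := absNorm P` prime (`Lc_card`), `q ≥ 5`.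
`z = 1/f ∉ L`, `f z = 1 ∈ L`, `f` prime to `q`.  `RQ_val` (V36) gives `v (RQ L L' (1/f))`, an expression depending only on `q, r, L` and not on `P`; the same for `P'`; it is nonzero (the base is `1` or the inverse of an element `> 1`).  So `v` of the quotient is `1`, and `v (xiN ...) = 1` (product).
Since this holds for all valuation subrings, `xiN` and its inverse are integral over `ℤ` (`isIntegral_of_val` in Lib/MP_d9f52e_nt/UR.lean; see the end of XUnit.lean), and `xiN ≠ 0` (take `V = ⊤`).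
-/

set_option autoImplicit false

namespace CMS

open Complex NumberField MPd9f52e

variable {k : Type} [Field k] [NumberField k]

theorem xiN_unit (hk : IQ k) {e : k →+* ℂ} {m f : ℕ} {φ : Ideal (𝓞 k) → ZMod 3} (hf : 3 ≤ f)
    {P P' : Ideal (𝓞 k)} (hP : Cop f P) (hP' : Cop f P') (hN : Ideal.absNorm P' = Ideal.absNorm P)
    (hq : (Ideal.absNorm P).Prime) (hq5 : 5 ≤ Ideal.absNorm P) (hqf : (Ideal.absNorm P).Coprime f) (i : ZMod 3)
    (g : ZMod m) : IsIntegral ℤ (xiN e f m φ P P' i g) ∧ IsIntegral ℤ (xiN e f m φ P P' i g)⁻¹ ∧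
      xiN e f m φ P P' i g ≠ 0 := by
  classical
  have hval : ∀ V : ValuationSubring ℂ, V.valuation (xiN e f m φ P P' i g) = 1 := by
    intro V
    unfold xiN
    rw [map_prod]
    refine Finset.prod_eq_one fun c hc => ?_
    have hcf : Cop f c := (sys_spec k (by omega)).1 c (Finset.mem_filter.1 hc).1
    have hL : IsLat (Lc e c) := isLat_Lc hk e hcf.1
    obtain ⟨r, b2, b4, b6, b8, hr, hX, hG⟩ := model_good hL V.valuation
      (j_int hk e hL (fun a l hl => Lc_smul a hl) V.valuation)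
    have hz : (1 / f : ℂ) ∉ Lc e c := one_div_notMem (by omega) hcf
    have hf0 : (f : ℂ) ≠ 0 := by
      have : f ≠ 0 := by omega
      exact_mod_cast this
    have hfz : (f : ℂ) * (1 / f) ∈ Lc e c := by
      rw [mul_one_div_cancel hf0]
      exact one_mem_Lc c
    have key : ∀ Q : Ideal (𝓞 k), Cop f Q → Ideal.absNorm Q = Ideal.absNorm P →
        V.valuation (RQ (Lc e c) (Lc e (Q * c)) (1 / f)) =
          (if V.valuation ((Ideal.absNorm P : ℕ) : ℂ) = 1 ∧
            1 < V.valuation (r ^ 2 * wp (Lc e c) (1 / f) - b2 / 12) then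
            (V.valuation (r ^ 2 * wp (Lc e c) (1 / f) - b2 / 12))⁻¹ else 1) ^
            ((Ideal.absNorm P - 1) / 2) := by
      intro Q hQ hQN
      have hQc : Q * c ≠ ⊥ := (cop_mul.2 ⟨hQ, hcf⟩).1
      have hL' : IsLat (Lc e (Q * c)) := isLat_Lc hk e hQc
      obtain ⟨S, hS⟩ := exists_reps hL hL' (Lc_le Q c)
      exact RQ_val hL hr hX hG hq hq5 hL' (Lc_le Q c) hS
        ((Lc_card hk e hQ.1 hcf.1 hS).trans hQN) hz hqf.symm hfz
    rw [map_div₀, key P hP rfl, key P' hP' hN]
    refine div_self (pow_ne_zero _ ?_)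
    split_ifs with h1
    · exact inv_ne_zero (zero_lt_one.trans h1.2).ne'
    · exact one_ne_zero
  refine ⟨isIntegral_of_val fun V => (hval V).le, isIntegral_of_val fun V => ?_, ?_⟩
  · rw [map_inv₀, hval V, inv_one]
  · intro h0
    have := hval ⊤
    rw [h0, map_zero] at this
    exact zero_ne_one this

end CMS
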