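import Mathlib
import Pool.Agent.Lib.CMS.Defs
import Pool.Agent.Lib.CMS.CBas
import Pool.Agent.Lib.CMS.CCj
import Pool.Agent.Lib.CMS.CPrm
import Pool.Agent.Lib.CMS.XDef
import Pool.Agent.Lib.CMS.XAbs
import Pool.Agent.Lib.CMS.XVal

/-!
# XXi: existence of the unit xi (paper 6.1)  (about 160 lines)

PROOF. `a` with `φ a ≠ 0`, prime to `f`.  `exists_deg_one` with `N0 = 6 f`: `a ~ P₁ ⋯ P_r`, so some `P ∈ l` has `φ P ≠ 0` (`ray_req`, `RayChar.mul`, `ray_top`; induction on the multiset), `P` prime, `q = absNorm P` prime, `q > 6 f` (so `q ≥ 5`, prime to `6` and to `f`), `Cop f P`.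
Replace `P` by `cjI hk P` if `φ P = 2` (`φ (cjI P) = -φ P`; `cjI_prime`, `cjI_norm`, `cop_cj`): `φ P = 1`.  `P' = cjI hk P`, `φ P' = -1`.  `xi := xiN e f m φ P P' 1 1`.  `xiN_unit`.  For `t`: `t xi = xiN .. (1 + φ u) (N u)` (`xiN_ray`, `g = 1`),
`‖t xi‖ = Phi (φ P' + 1 + φ u) (N u) / Phi (φ P + 1 + φ u) (N u) = Phi (φ u) (N u) / Phi (φ u + 2) (N u)` (`xiN_abs`).  If `φ u = 0` and `N u = 1` then `t xi = xi`.
-/

set_option autoImplicit false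

namespace CMS

open Complex NumberField MPd9f52e

variable {k : Type} [Field k] [NumberField k]

private theorem xx_prod {f : ℕ} {φ : Ideal (𝓞 k) → ZMod 3} (hφ : RayChar f φ)
    (l : Multiset (Ideal (𝓞 k))) (h : ∀ P ∈ l, Cop f P ∧ φ P = 0) : Cop f l.prod ∧ φ l.prod = 0 := by
  induction l using Multiset.induction_on with
  | empty =>
    rw [Multiset.prod_zero, Ideal.one_eq_top]
    exact ⟨cop_top f, ray_top hφ⟩
  | cons P l ih =>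
    have h1 := h P (Multiset.mem_cons_self P l)
    have h2 := ih fun Q hQ => h Q (Multiset.mem_cons_of_mem hQ)
    rw [Multiset.prod_cons]
    refine ⟨cop_mul.2 ⟨h1.1, h2.1⟩, ?_⟩
    rw [hφ.mul _ _ h1.1 h2.1, h1.2, h2.2, add_zero]

private theorem xx_prime (hk : IQ k) {f : ℕ} {φ : Ideal (𝓞 k) → ZMod 3} (hf : 3 ≤ f)
    (hφ : RayChar f φ) (hne : ∃ a, Cop f a ∧ φ a ≠ 0)
    (hcj : ∀ a, Cop f a → φ (cjI hk a) = - φ a) : ∃ P : Ideal (𝓞 k), P.IsPrime ∧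
      (Ideal.absNorm P).Prime ∧ 6 * f < Ideal.absNorm P ∧ Cop f P ∧ φ P = 1 := by
  obtain ⟨a, ha, hφa⟩ := hne
  obtain ⟨l, hl, hreq⟩ := exists_deg_one hk (by omega : f ≠ 0) (6 * f) ha
  obtain ⟨P, hP, hφP⟩ : ∃ P ∈ l, φ P ≠ 0 := by
    by_contra hno
    push Not at hno
    have h1 := xx_prod hφ l fun P hP => ⟨(hl P hP).2.2.2, hno P hP⟩
    exact hφa ((ray_req hφ ha hreq).trans h1.2)
  obtain ⟨h1, h2, h3, h4⟩ := hl P hP
  have h5 : ∀ x : ZMod 3, x ≠ 0 → x = 1 ∨ -x = 1 := by decide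
  rcases h5 _ hφP with h6 | h6
  · exact ⟨P, h1, h2, h3, h4, h6⟩
  · refine ⟨cjI hk P, cjI_prime hk h1, ?_, ?_, cop_cj.2 h4, ?_⟩
    · rw [cjI_norm]; exact h2
    · rw [cjI_norm]; exact h3
    · rw [hcj P h4]; exact h6

theorem xi_exists (hk : IQ k) (e : k →+* ℂ) {m f : ℕ} {φ : Ideal (𝓞 k) → ZMod 3} (hf : 3 ≤ f) (hmf : m ∣ f)
    (hm : 1 ≤ m) (hφ : RayChar f φ)
    (hne : ∃ a, Cop f a ∧ φ a ≠ 0) (hcj : ∀ a, Cop f a → φ (cjI hk a) = - φ a) :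
    ∃ xi : ℂ, xi ≠ 0 ∧ IsIntegral ℤ xi ∧ IsIntegral ℤ xi⁻¹ ∧ ∀ t : ℂ ≃+* ℂ, (∀ x, t (e x) = e x) →
      ∀ γ u, Act e t f γ u →
        ‖t xi‖ = Phi e f m φ (φ u) (Ideal.absNorm u : ZMod m) / Phi e f m φ (φ u + 2) (Ideal.absNorm u : ZMod m) ∧
        (φ u = 0 → (Ideal.absNorm u : ZMod m) = 1 → t xi = xi) := by
  obtain ⟨P, hPp, hq, hlt, hP, hφP⟩ := xx_prime hk hf hφ hne hcj
  have _ := hm
  have _ := hPp
  have hN : Ideal.absNorm (cjI hk P) = Ideal.absNorm P := cjI_norm hk P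
  have hP' : Cop f (cjI hk P) := cop_cj.2 hP
  have hφP' : φ (cjI hk P) = -1 := by rw [hcj P hP, hφP]
  have hq5 : 5 ≤ Ideal.absNorm P := by omega
  have hqf : (Ideal.absNorm P).Coprime f := by
    refine (Nat.Prime.coprime_iff_not_dvd hq).2 fun hd => ?_
    have := Nat.le_of_dvd (by omega) hd
    omega
  have hq6 : (Ideal.absNorm P).Coprime 6 := by
    refine (Nat.Prime.coprime_iff_not_dvd hq).2 fun hd => ?_
    have := Nat.le_of_dvd (by omega) hd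
    omega
  obtain ⟨hu1, hu2, hu3⟩ := xiN_unit (m := m) (φ := φ) (e := e) hk hf hP hP' hN hq hq5 hqf 1 1
  refine ⟨xiN e f m φ P (cjI hk P) 1 1, hu3, hu1, hu2, fun t ht γ u h => ?_⟩
  have h1 := xiN_ray hk hf hmf hφ hP.1 hN ht h (1 : ZMod 3) (1 : ZMod m)
  rw [one_mul] at h1
  constructor
  · rw [h1, xiN_abs hk hf hmf hφ hP hP' hN hq6, hφP, hφP']
    have h2 : -1 + (1 + φ u) = φ u := by ring
    have h3 : 1 + (1 + φ u) = φ u + 2 := by ring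
    rw [h2, h3]
  · intro h2 h3
    rw [h1, h2, h3, add_zero]

end CMS
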