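import Pool.Agent.Lib.CMS.ADef
import Pool.Agent.Lib.MP_d9f52e_nt.GExt
import Pool.Agent.Lib.CMS.CBas
import Pool.Agent.Lib.CMS.CCj
import Pool.Agent.Lib.CMS.CPrm
import Pool.Agent.Lib.CMS.OAct
import Pool.Agent.Lib.CMS.OAct2
import Pool.Agent.Lib.CMS.OFin
import Pool.Agent.Lib.CMS.FZeta
import Pool.Agent.Lib.CMS.FLift
import Pool.Agent.Lib.CMS.TgP
import Pool.Agent.Lib.CMS.TgS
import Pool.Agent.Lib.CMS.TgD
import Pool.Agent.Lib.CMS.XXi

/-!
# Ifc: the results on imaginary quadratic fields, ray classes, automorphisms and units used by the algebraic end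
-/
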