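import Pool.Agent.Lib.MP_d9f52e_nt.KJ

/-!
# KEf: ramification indices and residue degrees; the local factor of a cubic field
-/

set_option autoImplicit false

open ArithmeticFunction NumberField MPd9f52e

namespace CMS

section gen

variable {F : Type} [Field F] [NumberField F]

theorem kef_span {p : ℕ} (hp : p.Prime) : (Ideal.span {(p : ℤ)}).IsMaximal ∧
    Ideal.span {(p : ℤ)} ≠ ⊥ := by
  have hpi : Prime (p : ℤ) := Nat.prime_iff_prime_int.1 hp
  exact ⟨((Ideal.span_singleton_prime hpi.ne_zero).mpr hpi).isMaximal (by simpa using hpi.ne_zero),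
    by simpa using hpi.ne_zero⟩

theorem kef_mem {p : ℕ} (hp : p.Prime) {P : Ideal (𝓞 F)} (hP : P ∈ primesAt F p) :
    P.IsPrime ∧ P.LiesOver (Ideal.span {(p : ℤ)}) ∧ P ≠ ⊥ := by
  have h := (mem_primesAt F hp P).1 hP
  have hmax := (kef_span hp).1
  unfold primesAt at hP
  rw [IsDedekindDomain.mem_primesOverFinset_iff (kef_span hp).2] at hP
  refine ⟨h.1, hP.2, ?_⟩
  rintro rfl
  have := h.2
  rw [Ideal.mem_bot] at this
  exact hp.ne_zero (by exact_mod_cast this)

theorem kef_sum {p : ℕ} (hp : p.Prime) :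
    ∑ P ∈ primesAt F p, P.ramificationIdx ℤ * P.inertiaDeg ℤ = Module.finrank ℚ F := by
  classical
  have hmax := (kef_span hp).1
  have hne := (kef_span hp).2
  have hset : ∀ P, P ∈ primesAt F p ↔ P ∈ (Ideal.span {(p : ℤ)}).primesOver (𝓞 F) := by
    intro P
    unfold primesAt
    rw [IsDedekindDomain.mem_primesOverFinset_iff hne]
  have hfin : ((Ideal.span {(p : ℤ)}).primesOver (𝓞 F)).Finite :=
    Set.Finite.subset (primesAt F p).finite_toSet (fun P hP => (hset P).2 hP)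
  have := hfin.fintype
  have h1 := Ideal.sum_ramification_inertia_eq_finrank (p := Ideal.span {(p : ℤ)}) (S := 𝓞 F)
  rw [RingOfIntegers.rank] at h1
  rw [← h1]
  exact (Finset.sum_subtype (primesAt F p) hset (fun P => P.ramificationIdx ℤ * P.inertiaDeg ℤ))

theorem kef_norm {p : ℕ} (hp : p.Prime) {P : Ideal (𝓞 F)} (hP : P ∈ primesAt F p) :
    Ideal.absNorm P = p ^ P.inertiaDeg ℤ := by
  obtain ⟨h1, h2, -⟩ := kef_mem hp hP
  exact (Ideal.pow_inertiaDeg p P).symm

theorem kef_pos {p : ℕ} (hp : p.Prime) {P : Ideal (𝓞 F)} (hP : P ∈ primesAt F p) :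
    1 ≤ P.ramificationIdx ℤ ∧ 1 ≤ P.inertiaDeg ℤ := by
  obtain ⟨h1, h2, -⟩ := kef_mem hp hP
  exact ⟨Ideal.ramificationIdx_pos P ℤ, Ideal.inertiaDeg_pos P ℤ⟩

theorem kef_prod {p : ℕ} (hp : p.Prime) : locD F p =
    ∏ P ∈ primesAt F p, (1 - dl (p ^ P.inertiaDeg ℤ)) := by
  unfold locD
  exact Finset.prod_congr rfl (fun P hP => by rw [kef_norm hp hP])

end gen

section cubic

variable {K : Type} [Field K] [NumberField K]

theorem kef_single (h3 : Module.finrank ℚ K = 3) {p : ℕ} (hp : p.Prime) {P : Ideal (𝓞 K)}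
    (hP : P ∈ primesAt K p) (h : 3 ≤ P.ramificationIdx ℤ * P.inertiaDeg ℤ) :
    primesAt K p = {P} ∧ P.ramificationIdx ℤ * P.inertiaDeg ℤ = 3 := by
  classical
  have hsum := kef_sum (F := K) hp
  rw [h3] at hsum
  have hone : primesAt K p = {P} := by
    apply Finset.eq_singleton_iff_unique_mem.2 ⟨hP, ?_⟩
    intro Q hQ
    by_contra hne
    have h1 : P.ramificationIdx ℤ * P.inertiaDeg ℤ + Q.ramificationIdx ℤ * Q.inertiaDeg ℤ ≤
        ∑ P ∈ primesAt K p, P.ramificationIdx ℤ * P.inertiaDeg ℤ := by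
      rw [← Finset.sum_pair (f := fun P : Ideal (𝓞 K) => P.ramificationIdx ℤ * P.inertiaDeg ℤ)
        (Ne.symm hne)]
      apply Finset.sum_le_sum_of_subset
      intro R hR
      rw [Finset.mem_insert, Finset.mem_singleton] at hR
      rcases hR with rfl | rfl
      · exact hP
      · exact hQ
    have h2 := kef_pos hp hQ
    have h4 : 1 ≤ Q.ramificationIdx ℤ * Q.inertiaDeg ℤ := Nat.mul_le_mul h2.1 h2.2
    omega
  refine ⟨hone, ?_⟩
  rw [hone, Finset.sum_singleton] at hsum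
  exact hsum

theorem kd_A (h3 : Module.finrank ℚ K = 3) {p : ℕ} (hp : p.Prime)
    (h : ∀ P ∈ primesAt K p, P.ramificationIdx ℤ = 1 ∧ P.inertiaDeg ℤ = 1) :
    locD K p = (1 - dl p) ^ 3 := by
  have hsum := kef_sum (F := K) hp
  rw [h3, Finset.sum_congr rfl (fun P hP => by rw [(h P hP).1, (h P hP).2])] at hsum
  simp only [mul_one, Finset.sum_const, smul_eq_mul] at hsum
  rw [kef_prod hp, Finset.prod_congr rfl (fun P hP => by rw [(h P hP).2, pow_one]),
    Finset.prod_const, hsum]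

theorem kd_B (h3 : Module.finrank ℚ K = 3) {p : ℕ} (hp : p.Prime) {P : Ideal (𝓞 K)}
    (hP : P ∈ primesAt K p) (h : P.inertiaDeg ℤ = 3) :
    locD K p = 1 - dl (p ^ 3) := by
  have hpos := kef_pos hp hP
  obtain ⟨h1, -⟩ := kef_single h3 hp hP (by rw [h]; omega)
  rw [kef_prod hp, h1, Finset.prod_singleton, h]

theorem kd_R (h3 : Module.finrank ℚ K = 3) {p : ℕ} (hp : p.Prime) {P : Ideal (𝓞 K)}
    (hP : P ∈ primesAt K p) (h : 3 ∣ P.ramificationIdx ℤ) :
    locD K p = 1 - dl p := by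
  have hpos := kef_pos hp hP
  have h2 : 3 ≤ P.ramificationIdx ℤ := Nat.le_of_dvd hpos.1 h
  obtain ⟨h1, h4⟩ := kef_single h3 hp hP (by nlinarith [hpos.2])
  have h5 : P.inertiaDeg ℤ = 1 := by
    by_contra hne
    have : 2 ≤ P.inertiaDeg ℤ := by omega
    nlinarith
  rw [kef_prod hp, h1, Finset.prod_singleton, h5, pow_one]

theorem kd_C (h3 : Module.finrank ℚ K = 3) {p : ℕ} (hp : p.Prime)
    (h : ∀ P ∈ primesAt K p, P.ramificationIdx ℤ = 1 ∧ P.inertiaDeg ℤ ≤ 2)
    (hc : (primesAt K p).card ≠ 3) :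
    locD K p = (1 - dl p) * (1 - dl (p ^ 2)) := by
  classical
  have hsum := kef_sum (F := K) hp
  rw [h3, Finset.sum_congr rfl (fun P hP => by rw [(h P hP).1, one_mul])] at hsum
  have hf : ∀ P ∈ primesAt K p, P.inertiaDeg ℤ ≠ 1 → P.inertiaDeg ℤ = 2 := by
    intro P hP hne
    have h1 := (h P hP).2
    have h2 := (kef_pos hp hP).2
    omega
  rw [← Finset.sum_filter_add_sum_filter_not (primesAt K p)
    (fun P : Ideal (𝓞 K) => P.inertiaDeg ℤ = 1)] at hsum
  rw [← Finset.card_filter_add_card_filter_not (s := primesAt K p)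
    (fun P : Ideal (𝓞 K) => P.inertiaDeg ℤ = 1)] at hc
  rw [kef_prod hp, ← Finset.prod_filter_mul_prod_filter_not (primesAt K p)
    (fun P : Ideal (𝓞 K) => P.inertiaDeg ℤ = 1)]
  set S1 := (primesAt K p).filter (fun P : Ideal (𝓞 K) => P.inertiaDeg ℤ = 1) with hS1
  set S2 := (primesAt K p).filter (fun P : Ideal (𝓞 K) => ¬ P.inertiaDeg ℤ = 1) with hS2
  have e1 : ∑ P ∈ S1, P.inertiaDeg ℤ = S1.card := by
    rw [Finset.sum_congr rfl (fun P hP => (Finset.mem_filter.1 hP).2), Finset.sum_const,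
      smul_eq_mul, mul_one]
  have e2 : ∑ P ∈ S2, P.inertiaDeg ℤ = 2 * S2.card := by
    rw [Finset.sum_congr rfl (fun P hP => hf P (Finset.mem_filter.1 hP).1
      (Finset.mem_filter.1 hP).2), Finset.sum_const, smul_eq_mul, mul_comm]
  have e3 : ∏ P ∈ S1, (1 - dl (p ^ P.inertiaDeg ℤ)) = (1 - dl p) ^ S1.card := by
    rw [Finset.prod_congr rfl (fun P hP => by rw [(Finset.mem_filter.1 hP).2, pow_one]),
      Finset.prod_const]
  have e4 : ∏ P ∈ S2, (1 - dl (p ^ P.inertiaDeg ℤ)) = (1 - dl (p ^ 2)) ^ S2.card := by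
    rw [Finset.prod_congr rfl (fun P hP => by
      rw [hf P (Finset.mem_filter.1 hP).1 (Finset.mem_filter.1 hP).2]), Finset.prod_const]
  rw [e1, e2] at hsum
  have h1 : S1.card = 1 ∧ S2.card = 1 := by omega
  rw [e3, e4, h1.1, h1.2, pow_one, pow_one]

theorem kd_D (h3 : Module.finrank ℚ K = 3) {p : ℕ} (hp : p.Prime)
    (h : ∀ P ∈ primesAt K p, P.inertiaDeg ℤ = 1 ∧ P.ramificationIdx ℤ ≤ 2)
    (hc : (primesAt K p).card ≠ 3) :
    locD K p = (1 - dl p) * (1 - dl p) := by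
  classical
  have hsum := kef_sum (F := K) hp
  rw [h3, Finset.sum_congr rfl (fun P hP => by rw [(h P hP).1, mul_one])] at hsum
  have hf : ∀ P ∈ primesAt K p, P.ramificationIdx ℤ ≠ 1 → P.ramificationIdx ℤ = 2 := by
    intro P hP hne
    have h1 := (h P hP).2
    have h2 := (kef_pos hp hP).1
    omega
  rw [← Finset.sum_filter_add_sum_filter_not (primesAt K p)
    (fun P : Ideal (𝓞 K) => P.ramificationIdx ℤ = 1)] at hsum
  have hcc := Finset.card_filter_add_card_filter_not (s := primesAt K p)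
    (fun P : Ideal (𝓞 K) => P.ramificationIdx ℤ = 1)
  set S1 := (primesAt K p).filter (fun P : Ideal (𝓞 K) => P.ramificationIdx ℤ = 1) with hS1
  set S2 := (primesAt K p).filter (fun P : Ideal (𝓞 K) => ¬ P.ramificationIdx ℤ = 1) with hS2
  have e1 : ∑ P ∈ S1, P.ramificationIdx ℤ = S1.card := by
    rw [Finset.sum_congr rfl (fun P hP => (Finset.mem_filter.1 hP).2), Finset.sum_const,
      smul_eq_mul, mul_one]
  have e2 : ∑ P ∈ S2, P.ramificationIdx ℤ = 2 * S2.card := by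
    rw [Finset.sum_congr rfl (fun P hP => hf P (Finset.mem_filter.1 hP).1
      (Finset.mem_filter.1 hP).2), Finset.sum_const, smul_eq_mul, mul_comm]
  rw [e1, e2] at hsum
  have h1 : (primesAt K p).card = 2 := by omega
  rw [kef_prod hp, Finset.prod_congr rfl (fun P hP => by rw [(h P hP).1, pow_one]),
    Finset.prod_const, h1, pow_two]

end cubic

end CMS
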