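import Pool.Agent.Lib.CMS.Defs
import Pool.Agent.Lib.CMS.KEf

/-!
# KT: the arithmetic function `tt f φ` prime by prime
-/

set_option autoImplicit false

open ArithmeticFunction NumberField MPd9f52e

namespace CMS

theorem kt_w_cube : (w : ℂ) ^ 3 = 1 := by
  have h := w_sq
  have : (w : ℂ) ^ 3 = w * w ^ 2 := by ring
  rw [this, h]
  have h2 : w * (-1 - w) = -w - w ^ 2 := by ring
  rw [h2, h]
  ring

theorem kt_wj_add (a b : ZMod 3) : wj (a + b) = wj a * wj b := by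
  unfold wj
  rw [← pow_add, ZMod.val_add]
  conv_rhs => rw [← Nat.div_add_mod (a.val + b.val) 3, pow_add, pow_mul, kt_w_cube, one_pow, one_mul]

theorem kt_wj_zero : wj 0 = 1 := by
  unfold wj
  simp

variable {k : Type} [Field k] [NumberField k]

/-- the ideals prime to `f`, of norm `n`, divisible by no member of `S` -/
def tset (f : ℕ) (S : Finset (Ideal (𝓞 k))) (n : ℕ) : Set (Ideal (𝓞 k)) :=
  {a | (Cop f a ∧ Ideal.absNorm a = n) ∧ ∀ P ∈ S, ¬ P ∣ a}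

theorem tset_finite (f : ℕ) (S : Finset (Ideal (𝓞 k))) (n : ℕ) : (tset f S n).Finite :=
  (Ideal.finite_setOfPred_absNorm_eq n).subset fun _ h => h.1.2

theorem tset_zero (f : ℕ) (S : Finset (Ideal (𝓞 k))) : tset f S 0 = ∅ := by
  rw [Set.eq_empty_iff_forall_notMem]
  rintro a ⟨⟨h1, h2⟩, -⟩
  exact h1.1 (Ideal.absNorm_eq_zero_iff.1 h2)

/-- the partial sums -/
noncomputable def TSS (f : ℕ) (φ : Ideal (𝓞 k) → ZMod 3) (S : Finset (Ideal (𝓞 k))) :
    ArithmeticFunction ℂ :=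
  ⟨fun n => ∑ᶠ a ∈ tset f S n, wj (φ a), by rw [tset_zero]; simp⟩

theorem TSS_apply (f : ℕ) (φ : Ideal (𝓞 k) → ZMod 3) (S : Finset (Ideal (𝓞 k))) (n : ℕ) :
    TSS f φ S n = ∑ᶠ a ∈ tset f S n, wj (φ a) := rfl

theorem TSS_empty (f : ℕ) (φ : Ideal (𝓞 k) → ZMod 3) (n : ℕ) : TSS f φ ∅ n = tt f φ n := by
  rw [TSS_apply]
  unfold tt
  have : tset f (∅ : Finset (Ideal (𝓞 k))) n = {a : Ideal (𝓞 k) | Cop f a ∧ Ideal.absNorm a = n} := by
    ext a
    constructor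
    · intro h; exact h.1
    · intro h; exact ⟨h, fun P hP => absurd hP (Finset.notMem_empty P)⟩
  rw [this]

theorem kt_cop_mul {f : ℕ} {a b : Ideal (𝓞 k)} : Cop f (a * b) ↔ Cop f a ∧ Cop f b := by
  constructor
  · rintro ⟨h1, h2⟩
    exact ⟨⟨left_ne_zero_of_mul h1, h2.of_mul_left_left⟩,
      ⟨right_ne_zero_of_mul h1, h2.of_mul_left_right⟩⟩
  · rintro ⟨h1, h2⟩
    exact ⟨mul_ne_zero h1.1 h2.1, h1.2.mul_left h2.2⟩

theorem TSS_step {f : ℕ} {φ : Ideal (𝓞 k) → ZMod 3} (hφ : RayChar f φ)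
    (S : Finset (Ideal (𝓞 k))) (hS : ∀ Q ∈ S, Q.IsPrime ∧ Q ≠ ⊥)
    (P : Ideal (𝓞 k)) (hP : P.IsPrime) (hPc : Cop f P) (hPS : P ∉ S) :
    (1 - wj (φ P) • dl (Ideal.absNorm P)) * TSS f φ S = TSS f φ (insert P S) := by
  classical
  have hP0 := hPc.1
  have hq : 0 < Ideal.absNorm P :=
    Nat.pos_of_ne_zero fun h => hP0 (Ideal.absNorm_eq_zero_iff.1 h)
  ext n
  rcases eq_or_ne n 0 with rfl | hn
  · simp
  have e1 : ((1 - wj (φ P) • dl (Ideal.absNorm P)) * TSS f φ S) n =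
      TSS f φ S n - wj (φ P) * (dl (Ideal.absNorm P) * TSS f φ S) n := by
    rw [sub_mul, one_mul, smul_mul_assoc]; rfl
  rw [e1, dl_mul_apply hq _ hn]
  set A2 : Set (Ideal (𝓞 k)) := {I | I ∈ tset f S n ∧ P ∣ I} with hA2
  have hdec : tset f S n = tset f (insert P S) n ∪ A2 := by
    ext I
    constructor
    · intro h
      by_cases hd : P ∣ I
      · exact Or.inr ⟨h, hd⟩
      · refine Or.inl ⟨h.1, fun Q hQ => ?_⟩
        rcases Finset.mem_insert.1 hQ with rfl | hQ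
        · exact hd
        · exact h.2 Q hQ
    · rintro (h | h)
      · exact ⟨h.1, fun Q hQ => h.2 Q (Finset.mem_insert_of_mem hQ)⟩
      · exact h.1
  have hdis : Disjoint (tset f (insert P S) n) A2 := by
    rw [Set.disjoint_left]
    intro I h1 h2
    exact h1.2 P (Finset.mem_insert_self _ _) h2.2
  have hf2 : A2.Finite := (tset_finite f S n).subset fun _ h => h.1
  have hS1 : TSS f φ S n = TSS f φ (insert P S) n + ∑ᶠ a ∈ A2, wj (φ a) := by
    rw [TSS_apply, TSS_apply, hdec, finsum_mem_union hdis (tset_finite f _ n) hf2]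
  have hA2sum : ∑ᶠ a ∈ A2, wj (φ a) = wj (φ P) * (if Ideal.absNorm P ∣ n then
      TSS f φ S (n / Ideal.absNorm P) else 0) := by
    split_ifs with hd
    · obtain ⟨j, rfl⟩ := hd
      have hj : Ideal.absNorm P * j / Ideal.absNorm P = j := Nat.mul_div_cancel_left j hq
      rw [hj, TSS_apply]
      have himg : A2 = (fun J => P * J) '' (tset f S j) := by
        ext I
        constructor
        · rintro ⟨⟨⟨h0, h1⟩, h2⟩, J, rfl⟩
          refine ⟨J, ⟨⟨(kt_cop_mul.1 h0).2, ?_⟩, ?_⟩, rfl⟩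
          · rw [map_mul] at h1
            exact Nat.eq_of_mul_eq_mul_left hq h1
          · intro Q hQ hQJ
            exact h2 Q hQ (Dvd.dvd.mul_left hQJ P)
        · rintro ⟨J, ⟨⟨h0, h1⟩, h2⟩, rfl⟩
          refine ⟨⟨⟨kt_cop_mul.2 ⟨hPc, h0⟩, ?_⟩, ?_⟩, dvd_mul_right P J⟩
          · rw [map_mul, h1]
          · intro Q hQ hQd
            have hQp : Prime Q := (Ideal.prime_iff_isPrime (hS Q hQ).2).2 (hS Q hQ).1
            rcases hQp.dvd_or_dvd hQd with h3 | h3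
            · have hPmax : P.IsMaximal := hP.isMaximal hP0
              have hle : P ≤ Q := Ideal.dvd_iff_le.1 h3
              have heq := hPmax.eq_of_le (hS Q hQ).1.ne_top hle
              exact hPS (heq ▸ hQ)
            · exact h2 Q hQ h3
      rw [himg, finsum_mem_image (fun J _ J' _ hJ => mul_left_cancel₀ hP0 hJ),
        mul_finsum_mem]
      apply finsum_mem_congr rfl
      intro J hJ
      rw [hφ.mul P J hPc hJ.1.1, kt_wj_add]
    · have : A2 = ∅ := by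
        rw [Set.eq_empty_iff_forall_notMem]
        rintro I ⟨⟨⟨-, h1⟩, -⟩, J, rfl⟩
        apply hd
        rw [← h1, map_mul]
        exact dvd_mul_right _ _
      rw [this]; simp
  rw [hS1, hA2sum]
  ring

theorem kt_cop_of_mem {f p : ℕ} (hp : p.Prime) (hpf : ¬ p ∣ f) {P : Ideal (𝓞 k)}
    (hP : P ∈ primesAt k p) : Cop f P := by
  obtain ⟨h1, h2, h3⟩ := kef_mem hp hP
  have hPm := h1.isMaximal h3
  refine ⟨h3, ?_⟩
  rw [Ideal.isCoprime_iff_sup_eq]
  by_contra hne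
  have h4 := hPm.eq_of_le hne le_sup_left
  have h5 : (f : 𝓞 k) ∈ P := by
    rw [h4]
    exact Ideal.mem_sup_right (Ideal.mem_span_singleton_self _)
  have h6 : (p : 𝓞 k) ∈ P := ((mem_primesAt k hp P).1 hP).2
  have hcop : IsCoprime (p : ℤ) (f : ℤ) :=
    Nat.isCoprime_iff_coprime.2 ((Nat.Prime.coprime_iff_not_dvd hp).2 hpf)
  obtain ⟨a, b, hab⟩ := hcop
  apply h1.ne_top
  rw [Ideal.eq_top_iff_one]
  have h7 : ((a : ℤ) : 𝓞 k) * (p : 𝓞 k) + ((b : ℤ) : 𝓞 k) * (f : 𝓞 k) = 1 := by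
    exact_mod_cast congrArg (Int.cast : ℤ → 𝓞 k) hab
  rw [← h7]
  exact P.add_mem (P.mul_mem_left _ h6) (P.mul_mem_left _ h5)

theorem TSS_prod {f : ℕ} {φ : Ideal (𝓞 k) → ZMod 3} (hφ : RayChar f φ) {p : ℕ} (hp : p.Prime)
    (hpf : ¬ p ∣ f) (T : Finset (Ideal (𝓞 k))) (hT : T ⊆ primesAt k p) :
    (∏ P ∈ T, (1 - wj (φ P) • dl (Ideal.absNorm P))) * TSS f φ ∅ = TSS f φ T := by
  classical
  induction T using Finset.induction_on with
  | empty => rw [Finset.prod_empty, one_mul]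
  | insert P T hPT ih =>
    have hPp := hT (Finset.mem_insert_self P T)
    rw [Finset.prod_insert hPT, mul_assoc, ih (fun Q hQ => hT (Finset.mem_insert_of_mem hQ))]
    apply TSS_step hφ T _ P (kef_mem hp hPp).1 (kt_cop_of_mem hp hpf hPp) hPT
    intro Q hQ
    have := kef_mem hp (hT (Finset.mem_insert_of_mem hQ))
    exact ⟨this.1, this.2.2⟩

theorem kt_exists_prime {p : ℕ} (hp : p.Prime) {I : Ideal (𝓞 k)}
    (h : p ∣ Ideal.absNorm I) : ∃ P ∈ primesAt k p, P ∣ I := by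
  obtain ⟨P, hPm, hPu, hPI⟩ := Ideal.exists_isMaximal_dvd_of_dvd_absNorm' hp I h
  refine ⟨P, (mem_primesAt k hp P).2 ⟨hPm.isPrime, ?_⟩, hPI⟩
  have h3 : (p : ℤ) ∈ P.under ℤ := by
    rw [hPu]
    exact Ideal.mem_span_singleton_self _
  have h4 : algebraMap ℤ (𝓞 k) (p : ℤ) ∈ P := h3
  simpa using h4

theorem kt_off {f : ℕ} {φ : Ideal (𝓞 k) → ZMod 3} (hφ : RayChar f φ) {p : ℕ} (hp : p.Prime)
    (hpf : ¬ p ∣ f) :
    Off p ((∏ P ∈ primesAt k p, (1 - wj (φ P) • dl (Ideal.absNorm P))) * TSS f φ ∅) := by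
  intro n hn
  rw [TSS_prod hφ hp hpf _ subset_rfl, TSS_apply]
  have : tset f (primesAt k p) n = ∅ := by
    rw [Set.eq_empty_iff_forall_notMem]
    rintro I ⟨⟨h1, h2⟩, h3⟩
    obtain ⟨P, hP, hPI⟩ := kt_exists_prime hp (h2 ▸ hn)
    exact h3 P hP hPI
  rw [this]; simp

theorem kt_off' {f : ℕ} (φ : Ideal (𝓞 k) → ZMod 3) {p : ℕ} (hp : p.Prime)
    (hpf : p ∣ f) : Off p (TSS f φ ∅) := by
  intro n hn
  rw [TSS_apply]
  have : tset f (∅ : Finset (Ideal (𝓞 k))) n = ∅ := by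
    rw [Set.eq_empty_iff_forall_notMem]
    rintro I ⟨⟨h1, h2⟩, h3⟩
    obtain ⟨P, hP, hPI⟩ := kt_exists_prime hp (h2 ▸ hn)
    obtain ⟨J, rfl⟩ := hPI
    have h4 : Cop f P := (kt_cop_mul.1 h1).1
    obtain ⟨h5, h6⟩ := (mem_primesAt k hp P).1 hP
    have h7 : (f : 𝓞 k) ∈ P := by
      obtain ⟨c, rfl⟩ := hpf
      rw [Nat.cast_mul]
      exact P.mul_mem_right _ h6
    have h8 := h4.2
    rw [Ideal.isCoprime_iff_sup_eq, sup_eq_left.2 ((Ideal.span_singleton_le_iff_mem _).2 h7)] at h8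
    exact h5.ne_top h8
  rw [this]; simp

theorem kt_one {f : ℕ} {φ : Ideal (𝓞 k) → ZMod 3} (hφ : RayChar f φ) : TSS f φ ∅ 1 = 1 := by
  rw [TSS_apply]
  have : tset f (∅ : Finset (Ideal (𝓞 k))) 1 = {1} := by
    ext I
    rw [Set.mem_singleton_iff]
    constructor
    · rintro ⟨⟨h1, h2⟩, h3⟩
      rw [Ideal.absNorm_eq_one_iff] at h2
      rw [h2, Ideal.one_eq_top]
    · rintro rfl
      exact ⟨⟨⟨one_ne_zero, isCoprime_one_left⟩, by rw [map_one]⟩,
        fun P hP => absurd hP (Finset.notMem_empty P)⟩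
  rw [this, finsum_mem_singleton]
  have h1 : φ 1 = 0 := by
    have hc : Cop f (1 : Ideal (𝓞 k)) := ⟨one_ne_zero, isCoprime_one_left⟩
    have := hφ.mul 1 1 hc hc
    rw [mul_one] at this
    exact left_eq_add.1 this
  rw [h1, kt_wj_zero]

end CMS
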