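import Pool.Agent.Lib.CMS.KQd
import Pool.Agent.Lib.CMS.KT
import Pool.Agent.Lib.CMS.ADef

/-!
# KDec: the local factor of a complex cubic field
-/

set_option autoImplicit false
set_option linter.unusedSectionVars false

open ArithmeticFunction NumberField MPd9f52e

namespace CMS

section local_factor

variable {K k E : Type} [Field K] [NumberField K] [Field k] [NumberField k] [Field E]
  [NumberField E] [Algebra k E] [Algebra K E]

/-- the four numbers attached to a prime of `K` -/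
theorem kd_data (h2 : Module.finrank K E = 2) {p : ℕ} (hp : p.Prime) {P : Ideal (𝓞 K)}
    (hP : P ∈ primesAt K p) : ∃ Q ∈ primesAt E p, ∃ e' f' : ℕ, 1 ≤ e' ∧ 1 ≤ f' ∧ e' * f' ≤ 2 ∧
      Q.ramificationIdx ℤ = P.ramificationIdx ℤ * e' ∧ Q.inertiaDeg ℤ = P.inertiaDeg ℤ * f' := by
  obtain ⟨Q, hQ, hQP⟩ := kd_exists_over (E := E) hp hP
  have h1 := kd_rel_pos (F := K) hp hQ
  have h3 := kd_rel_le (F := K) Q (kef_mem hp hQ).1
  have h4 := kd_e_tower (F := K) Q
  have h5 := kd_f_tower (F := K) Q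
  rw [hQP] at h4 h5
  exact ⟨Q, hQ, _, _, h1.1, h1.2, h2 ▸ h3, h4, h5⟩

theorem kl_R (h3 : Module.finrank ℚ K = 3) (h2 : Module.finrank K E = 2)
    {p : ℕ} (hp : p.Prime) {P : Ideal (𝓞 k)} (hP : P ∈ primesAt k p) (hr : RamIn E P) :
    locD K p = 1 - dl p := by
  obtain ⟨Q, hQ, hQP⟩ := kd_exists_over (E := E) hp hP
  have hQm := kef_mem hp hQ
  have h4 : Q.ramificationIdx (𝓞 k) = 3 := kd_ram Q hQm.1 hQm.2.2 (hQP ▸ hr)
  have h5 := kd_e_tower (F := k) Q
  have h6 := kd_e_tower (F := K) Q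
  have h7 := kd_rel_le (F := K) Q hQm.1
  have h8 := kd_rel_pos (F := K) hp hQ
  rw [h2] at h7
  have h9 : Q.ramificationIdx (𝓞 K) ≤ 2 := by nlinarith [h8.1, h8.2]
  have h10 : 3 ∣ (Q.comap (algebraMap (𝓞 K) (𝓞 E))).ramificationIdx ℤ * Q.ramificationIdx (𝓞 K) := by
    rw [← h6, h5, h4]
    exact dvd_mul_left _ _
  rcases (Nat.Prime.dvd_mul Nat.prime_three).1 h10 with h | h
  · exact kd_R h3 hp (kd_mem_comap hp hQ) h
  · have := Nat.le_of_dvd h8.1 h
    omega

theorem kl_A (h3 : Module.finrank ℚ K = 3) (h2 : Module.finrank K E = 2) (hE : CycCubic k E)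
    {p : ℕ} (hp : p.Prime) (h : ∀ P ∈ primesAt k p, P.ramificationIdx ℤ = 1 ∧
      P.inertiaDeg ℤ = 1 ∧ SplitsIn E P) : locD K p = (1 - dl p) ^ 3 := by
  apply kd_A h3 hp
  intro P hP
  obtain ⟨Q, hQ, e', f', a1, a2, a3, a4, a5⟩ := kd_data (E := E) h2 hp hP
  have hQm := kef_mem hp hQ
  obtain ⟨b1, b2, b3⟩ := h _ (kd_mem_comap (F := k) hp hQ)
  obtain ⟨-, c1, c2⟩ := kd_split hE Q hQm.1 b3
  have d1 := kd_e_tower (F := k) Q
  have d2 := kd_f_tower (F := k) Q
  rw [b1, c1] at d1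
  rw [b2, c2] at d2
  rw [d1] at a4
  rw [d2] at a5
  exact ⟨Nat.eq_one_of_mul_eq_one_right (by omega : P.ramificationIdx ℤ * e' = 1),
    Nat.eq_one_of_mul_eq_one_right (by omega : P.inertiaDeg ℤ * f' = 1)⟩

theorem kl_B (h3 : Module.finrank ℚ K = 3) (h2 : Module.finrank K E = 2) (hE : CycCubic k E)
    {p : ℕ} (hp : p.Prime) {P0 : Ideal (𝓞 k)} (hP0 : P0 ∈ primesAt k p)
    (hs : ¬ SplitsIn E P0) (hr : ¬ RamIn E P0) : locD K p = 1 - dl (p ^ 3) := by
  obtain ⟨Q, hQ, hQP⟩ := kd_exists_over (E := E) hp hP0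
  have hQm := kef_mem hp hQ
  obtain ⟨-, c2⟩ := kd_inert hE Q hQm.1 hQm.2.2 (hQP.symm ▸ hs) (hQP.symm ▸ hr)
  have d2 := kd_f_tower (F := k) Q
  have h6 := kd_f_tower (F := K) Q
  have h7 := kd_rel_le (F := K) Q hQm.1
  have h8 := kd_rel_pos (F := K) hp hQ
  rw [h2] at h7
  have h9 : Q.inertiaDeg (𝓞 K) ≤ 2 := by nlinarith [h8.1, h8.2]
  have h10 : 3 ∣ (Q.comap (algebraMap (𝓞 K) (𝓞 E))).inertiaDeg ℤ * Q.inertiaDeg (𝓞 K) := by
    rw [← h6, d2, c2]
    exact dvd_mul_left _ _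
  have hPK := kd_mem_comap (F := K) hp hQ
  have hpos := kef_pos hp hPK
  rcases (Nat.Prime.dvd_mul Nat.prime_three).1 h10 with h | h
  · have h11 := Nat.le_of_dvd hpos.2 h
    have h12 : 3 ≤ (Q.comap (algebraMap (𝓞 K) (𝓞 E))).ramificationIdx ℤ *
        (Q.comap (algebraMap (𝓞 K) (𝓞 E))).inertiaDeg ℤ := by nlinarith [hpos.1]
    obtain ⟨-, h13⟩ := kef_single h3 hp hPK h12
    apply kd_B h3 hp hPK
    have h14 : (Q.comap (algebraMap (𝓞 K) (𝓞 E))).inertiaDeg ℤ ∣ 3 := ⟨_, by rw [mul_comm]; exact h13.symm⟩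
    exact Nat.dvd_antisymm h14 h
  · have := Nat.le_of_dvd h8.2 h
    omega

theorem kl_C (h3 : Module.finrank ℚ K = 3) (h2 : Module.finrank K E = 2) (hE : CycCubic k E)
    {p : ℕ} (hp : p.Prime) {P0 : Ideal (𝓞 k)} (hone : primesAt k p = {P0})
    (he : P0.ramificationIdx ℤ = 1) (hf : P0.inertiaDeg ℤ = 2)
    (hs : SplitsIn E P0) (hc : (primesAt K p).card ≠ 3) :
    locD K p = (1 - dl p) * (1 - dl (p ^ 2)) := by
  apply kd_C h3 hp _ hc
  intro P hP
  obtain ⟨Q, hQ, e', f', a1, a2, a3, a4, a5⟩ := kd_data (E := E) h2 hp hP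
  have hQm := kef_mem hp hQ
  have hQk : Q.comap (algebraMap (𝓞 k) (𝓞 E)) = P0 := by
    have := kd_mem_comap (F := k) hp hQ
    rwa [hone, Finset.mem_singleton] at this
  obtain ⟨-, c1, c2⟩ := kd_split hE Q hQm.1 (hQk.symm ▸ hs)
  have d1 := kd_e_tower (F := k) Q
  have d2 := kd_f_tower (F := k) Q
  rw [hQk, he, c1] at d1
  rw [hQk, hf, c2] at d2
  rw [d1] at a4
  rw [d2] at a5
  refine ⟨Nat.eq_one_of_mul_eq_one_right (by omega : P.ramificationIdx ℤ * e' = 1), ?_⟩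
  have : P.inertiaDeg ℤ ∣ 2 := ⟨f', by omega⟩
  exact Nat.le_of_dvd (by norm_num) this

theorem kl_D (h3 : Module.finrank ℚ K = 3) (h2 : Module.finrank K E = 2) (hE : CycCubic k E)
    {p : ℕ} (hp : p.Prime) {P0 : Ideal (𝓞 k)} (hone : primesAt k p = {P0})
    (he : P0.ramificationIdx ℤ = 2) (hf : P0.inertiaDeg ℤ = 1)
    (hs : SplitsIn E P0) (hc : (primesAt K p).card ≠ 3) :
    locD K p = (1 - dl p) * (1 - dl p) := by
  apply kd_D h3 hp _ hc
  intro P hP
  obtain ⟨Q, hQ, e', f', a1, a2, a3, a4, a5⟩ := kd_data (E := E) h2 hp hP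
  have hQm := kef_mem hp hQ
  have hQk : Q.comap (algebraMap (𝓞 k) (𝓞 E)) = P0 := by
    have := kd_mem_comap (F := k) hp hQ
    rwa [hone, Finset.mem_singleton] at this
  obtain ⟨-, c1, c2⟩ := kd_split hE Q hQm.1 (hQk.symm ▸ hs)
  have d1 := kd_e_tower (F := k) Q
  have d2 := kd_f_tower (F := k) Q
  rw [hQk, he, c1] at d1
  rw [hQk, hf, c2] at d2
  rw [d1] at a4
  rw [d2] at a5
  refine ⟨Nat.eq_one_of_mul_eq_one_right (by omega : P.inertiaDeg ℤ * f' = 1), ?_⟩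
  have : P.ramificationIdx ℤ ∣ 2 := ⟨e', by omega⟩
  exact Nat.le_of_dvd (by norm_num) this

end local_factor

section dih

variable {K k E : Type} [Field K] [NumberField K] [Field k] [NumberField k] [Field E]
  [NumberField E] [Algebra k E] {s : ZMod 3 → K →+* E} {j : E →+* ℂ}

/-- the reflection that fixes `s i` -/
theorem kd_refl (h : Dih K k E s j) (i : ZMod 3) :
    ∃ g : E ≃+* E, ∀ l x, g (s l x) = s (2 * i - l) x := by
  obtain ⟨g, hg⟩ := h.ofperm (Equiv.subLeft (2 * i))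
  exact ⟨g, fun l x => by rw [hg]; rfl⟩

theorem kd_rot (h : Dih K k E s j) (σ : E ≃ₐ[k] E) :
    ∃ g g' : E ≃+* E, ∃ i i' : ZMod 3, (∀ l x, g (s l x) = s (2 * i - l) x) ∧
      (∀ l x, g' (s l x) = s (2 * i' - l) x) ∧ ∀ y, σ y = g' (g y) := by
  obtain ⟨π, hπ⟩ := h.perm (σ : E ≃+* E)
  obtain ⟨c, hc⟩ := (h.fix (σ : E ≃+* E) π hπ).1 (fun x => σ.commutes x)
  obtain ⟨g, hg⟩ := kd_refl h 0
  obtain ⟨g', hg'⟩ := kd_refl h (2 * c)
  refine ⟨g, g', 0, 2 * c, hg, hg', ?_⟩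
  have key := h.faith ((g.trans g').trans (σ : E ≃+* E).symm) (by
    intro i x
    show (σ : E ≃+* E).symm (g' (g (s i x))) = s i x
    rw [RingEquiv.symm_apply_eq, hπ, hc, hg, hg']
    congr 2
    have : ∀ c i : ZMod 3, 2 * (2 * c) - (2 * 0 - i) = i + c := by decide
    exact this c i)
  intro y
  have h1 : (σ : E ≃+* E).symm (g' (g y)) = y := key y
  rw [RingEquiv.symm_apply_eq] at h1
  exact h1.symm

theorem kd_ne3 (h : Dih K k E s j) {p : ℕ} (hp : p.Prime) {P : Ideal (𝓞 k)}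
    (h1 : primesAt k p = {P}) (hs : SplitsIn E P) : (primesAt K p).card ≠ 3 := by
  classical
  intro h3
  -- three primes of E
  have hE : (primesAt E p).card = 3 := by
    obtain ⟨Q, Q', hQ, hQ', hne, e1, e2⟩ := id hs
    have hset : ((primesAt E p : Finset (Ideal (𝓞 E))) : Set (Ideal (𝓞 E))) =
        (Q.comap (algebraMap (𝓞 k) (𝓞 E))).primesOver (𝓞 E) := by
      ext R
      rw [Finset.mem_coe, e1]
      constructor
      · intro hR
        have h4 := kd_mem_comap (F := k) hp hR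
        rw [h1, Finset.mem_singleton] at h4
        exact ⟨(kef_mem hp hR).1, ⟨h4.symm⟩⟩
      · rintro ⟨h4, h5⟩
        apply kd_mem_of_comap (F := k) hp h4
        have h6 : R.comap (algebraMap (𝓞 k) (𝓞 E)) = P := h5.over.symm
        rw [h6, h1]
        exact Finset.mem_singleton_self P
    obtain ⟨h4, -⟩ := kd_split h.cyc Q hQ (e1.symm ▸ hs)
    rw [← hset, Set.ncard_coe_finset] at h4
    exact h4
  -- reflections fix every prime
  have hfix : ∀ (i : ZMod 3) (g : E ≃+* E), (∀ l x, g (s l x) = s (2 * i - l) x) →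
      ∀ Q ∈ primesAt E p, Q.map (aO g) = Q := by
    intro i g hg Q hQ
    letI : Algebra K E := (s i).toAlgebra
    have hinj : Set.InjOn (fun Q : Ideal (𝓞 E) => Q.comap (algebraMap (𝓞 K) (𝓞 E)))
        (primesAt E p : Finset (Ideal (𝓞 E))) := by
      apply Finset.injOn_of_surjOn_of_card_le (t := primesAt K p)
      · intro R hR
        exact kd_mem_comap hp hR
      · intro R hR
        obtain ⟨Q1, hQ1, hQR⟩ := kd_exists_over (E := E) hp hR
        exact ⟨Q1, hQ1, hQR⟩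
      · rw [hE, h3]
    apply hinj (map_aO_mem g hp hQ) hQ
    show (Q.map (aO g)).comap (algebraMap (𝓞 K) (𝓞 E)) = Q.comap (algebraMap (𝓞 K) (𝓞 E))
    have hgx : ∀ x : 𝓞 K, aO g (algebraMap (𝓞 K) (𝓞 E) x) = algebraMap (𝓞 K) (𝓞 E) x := by
      intro x
      apply RingOfIntegers.coe_injective
      show g (s i (x : K)) = s i (x : K)
      rw [hg]
      congr 2
      ring
    ext x
    rw [Ideal.mem_comap, Ideal.mem_comap, mem_map_aO]
    constructor
    · rintro ⟨y, hy, hyx⟩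
      have : y = algebraMap (𝓞 K) (𝓞 E) x := (aO g).injective (hyx.trans (hgx x).symm)
      rwa [← this]
    · intro hx
      exact ⟨_, hx, hgx x⟩
  -- the generator fixes every prime
  obtain ⟨σ, hσ⟩ := kd_gen h.cyc
  obtain ⟨g, g', i, i', hg, hg', hgg⟩ := kd_rot h σ
  have hσQ : ∀ Q ∈ primesAt E p, Q.map (CF3.sO σ) = Q := by
    intro Q hQ
    have e1 := hfix i g hg Q hQ
    have e2 := hfix i' g' hg' Q hQ
    ext x
    rw [CF3.mem_map_sO]
    constructor
    · rintro ⟨y, hy, rfl⟩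
      have : CF3.sO σ y = aO g' (aO g y) := by
        apply RingOfIntegers.coe_injective
        exact hgg _
      rw [this]
      have h5 : aO g y ∈ Q := by
        rw [← e1]; exact Ideal.mem_map_of_mem _ hy
      rw [← e2]
      exact Ideal.mem_map_of_mem _ h5
    · intro hx
      rw [← e2] at hx
      obtain ⟨y, hy, rfl⟩ := (mem_map_aO _ _ _).1 hx
      rw [← e1] at hy
      obtain ⟨z, hz, rfl⟩ := (mem_map_aO _ _ _).1 hy
      refine ⟨z, hz, ?_⟩
      apply RingOfIntegers.coe_injective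
      exact hgg _
  obtain ⟨Q, Q', hQ, hQ', hne, e1, e2⟩ := hs
  have hQm : Q ∈ primesAt E p := by
    apply kd_mem_of_comap (F := k) hp hQ
    rw [e1, h1]
    exact Finset.mem_singleton_self P
  rcases hσ.trans P Q Q' hQ hQ' e1 e2 with h5 | h5 | h5
  · exact hne h5.symm
  · rw [hσQ Q hQm] at h5
    exact hne h5.symm
  · rw [hσQ Q hQm, hσQ Q hQm] at h5
    exact hne h5.symm

theorem kd_finrank (h : Dih K k E s j) (i : ZMod 3) :
    letI : Algebra K E := (s i).toAlgebra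
    Module.finrank K E = 2 := by
  letI : Algebra K E := (s i).toAlgebra
  have h1 : Module.finrank ℚ k * Module.finrank k E = Module.finrank ℚ E :=
    Module.finrank_mul_finrank ℚ k E
  have h2 : Module.finrank ℚ K * Module.finrank K E = Module.finrank ℚ E :=
    Module.finrank_mul_finrank ℚ K E
  rw [h.iq.two, h.cyc.three] at h1
  rw [h.three, ← h1] at h2
  show Module.finrank K E = 2
  omega

end dih

end CMS
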