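import Pool.Agent.Lib.CMS.KTow
import Pool.Agent.Lib.CMS.Cj

/-!
# KQd: the primes above `p` in an imaginary quadratic field
-/

set_option autoImplicit false
set_option linter.unusedSectionVars false

open ArithmeticFunction NumberField MPd9f52e

namespace CMS

section auto

variable {F : Type} [Field F] [NumberField F]

/-- the action of an automorphism on the integers -/
noncomputable abbrev aO (g : F ≃+* F) : 𝓞 F ≃+* 𝓞 F := RingOfIntegers.mapRingEquiv g

theorem mem_map_aO (g : F ≃+* F) (I : Ideal (𝓞 F)) (x : 𝓞 F) :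
    x ∈ I.map (aO g) ↔ ∃ y ∈ I, aO g y = x := Ideal.mem_map_of_equiv (aO g) x

theorem map_aO_mem (g : F ≃+* F) {p : ℕ} (hp : p.Prime) {P : Ideal (𝓞 F)}
    (hP : P ∈ primesAt F p) : P.map (aO g) ∈ primesAt F p := by
  obtain ⟨h1, h2⟩ := (mem_primesAt F hp P).1 hP
  refine (mem_primesAt F hp _).2 ⟨Ideal.map_isPrime_of_equiv (aO g), ?_⟩
  rw [mem_map_aO]
  exact ⟨_, h2, map_natCast _ p⟩

end auto

variable {k : Type} [Field k] [NumberField k]

theorem kq_cjI_mem (hk : IQ k) {p : ℕ} (hp : p.Prime) {P : Ideal (𝓞 k)}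
    (hP : P ∈ primesAt k p) : cjI hk P ∈ primesAt k p := map_aO_mem (cjk hk) hp hP

theorem kq_cjk_ne (hk : IQ k) : ∃ x : k, cjk hk x ≠ x := by
  by_contra hcon
  push Not at hcon
  obtain ⟨e⟩ : Nonempty (k →+* ℂ) := inferInstance
  have h3 := hk.cpx (InfinitePlace.mk e)
  rw [InfinitePlace.isComplex_mk_iff] at h3
  apply h3
  rw [ComplexEmbedding.isReal_iff]
  ext x
  rw [ComplexEmbedding.conjugate_coe_eq, ← cjk_spec hk, hcon]

/-- the Galois group of `k` acts transitively -/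
theorem kq_trans (hk : IQ k) {p : ℕ} (hp : p.Prime) {P P' : Ideal (𝓞 k)}
    (hP : P ∈ primesAt k p) (hP' : P' ∈ primesAt k p) : P' = P ∨ P' = cjI hk P := by
  classical
  have hq : Algebra.IsQuadraticExtension ℚ k := ⟨hk.two⟩
  have hgal : IsGalois ℚ k := inferInstance
  have hcard : Nat.card (k ≃ₐ[ℚ] k) = 2 := by
    rw [IsGalois.card_aut_eq_finrank, hk.two]
  set c : k ≃ₐ[ℚ] k := AlgEquiv.ofRingEquiv (f := cjk hk) (fun r => map_ratCast (cjk hk) r) with hc
  have hc1 : c ≠ 1 := by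
    intro h
    obtain ⟨x, hx⟩ := kq_cjk_ne hk
    apply hx
    exact congrArg (fun t : k ≃ₐ[ℚ] k => t x) h
  have hall : ∀ τ : k ≃ₐ[ℚ] k, τ = 1 ∨ τ = c := by
    intro τ
    by_contra hcon
    push Not at hcon
    have := Fintype.ofFinite (k ≃ₐ[ℚ] k)
    have h3 : ({1, c, τ} : Finset (k ≃ₐ[ℚ] k)).card = 3 := by
      rw [Finset.card_eq_three]
      exact ⟨_, _, _, hc1.symm, hcon.1.symm, hcon.2.symm, rfl⟩
    have h4 := Finset.card_le_univ ({1, c, τ} : Finset (k ≃ₐ[ℚ] k))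
    rw [h3, ← Nat.card_eq_fintype_card, hcard] at h4
    omega
  obtain ⟨h1, h2, h3⟩ := kef_mem hp hP
  obtain ⟨h1', h2', h3'⟩ := kef_mem hp hP'
  open Pointwise in
  obtain ⟨τ, hτ⟩ := Ideal.exists_smul_eq_of_isGaloisGroup (Ideal.span {(p : ℤ)}) P P' (k ≃ₐ[ℚ] k)
  have hτ' : ∀ x : 𝓞 k, x ∈ P' ↔ ∃ y ∈ P, aO (τ : k ≃+* k) y = x := by
    intro x
    rw [← hτ]
    open Pointwise in
    rw [Ideal.mem_pointwise_smul_iff_inv_smul_mem]
    constructor
    · intro hx
      refine ⟨_, hx, ?_⟩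
      apply RingOfIntegers.coe_injective
      show τ (τ⁻¹ (x : k)) = x
      exact AlgEquiv.apply_symm_apply τ _
    · rintro ⟨y, hy, rfl⟩
      have : τ⁻¹ • (aO (τ : k ≃+* k) y) = y := by
        apply RingOfIntegers.coe_injective
        show τ⁻¹ (τ (y : k)) = y
        exact AlgEquiv.symm_apply_apply τ _
      rwa [this]
  rcases hall τ with rfl | rfl
  · left
    ext x
    rw [hτ']
    constructor
    · rintro ⟨y, hy, rfl⟩
      exact hy
    · intro hx
      exact ⟨x, hx, rfl⟩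
  · right
    ext x
    rw [hτ']
    exact (mem_map_aO _ _ _).symm

/-- the three types of decomposition -/
theorem kq_cases (hk : IQ k) {p : ℕ} (hp : p.Prime) :
    (∃ P : Ideal (𝓞 k), P ≠ cjI hk P ∧ primesAt k p = {P, cjI hk P} ∧
      P.ramificationIdx ℤ = 1 ∧ P.inertiaDeg ℤ = 1 ∧
      (cjI hk P).ramificationIdx ℤ = 1 ∧ (cjI hk P).inertiaDeg ℤ = 1) ∨
    (∃ P : Ideal (𝓞 k), cjI hk P = P ∧ primesAt k p = {P} ∧
      ((P.ramificationIdx ℤ = 1 ∧ P.inertiaDeg ℤ = 2) ∨
        (P.ramificationIdx ℤ = 2 ∧ P.inertiaDeg ℤ = 1))) := by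
  classical
  have hsum := kef_sum (F := k) hp
  rw [hk.two] at hsum
  obtain ⟨P, hP⟩ : (primesAt k p).Nonempty := by
    rw [Finset.nonempty_iff_ne_empty]
    intro h0
    rw [h0, Finset.sum_empty] at hsum
    omega
  by_cases h : P = cjI hk P
  · right
    have hone : primesAt k p = {P} := by
      apply Finset.eq_singleton_iff_unique_mem.2 ⟨hP, ?_⟩
      intro Q hQ
      rcases kq_trans hk hp hP hQ with h1 | h1
      · exact h1
      · rw [h1, ← h]
    refine ⟨P, h.symm, hone, ?_⟩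
    rw [hone, Finset.sum_singleton] at hsum
    have h1 : P.ramificationIdx ℤ ∣ 2 := ⟨_, hsum.symm⟩
    rcases (Nat.dvd_prime Nat.prime_two).1 h1 with h2 | h2
    · left
      rw [h2] at hsum
      exact ⟨h2, by omega⟩
    · right
      rw [h2] at hsum
      exact ⟨h2, by omega⟩
  · left
    have htwo : primesAt k p = {P, cjI hk P} := by
      ext Q
      rw [Finset.mem_insert, Finset.mem_singleton]
      constructor
      · intro hQ
        exact kq_trans hk hp hP hQ
      · rintro (rfl | rfl)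
        · exact hP
        · exact kq_cjI_mem hk hp hP
    refine ⟨P, h, htwo, ?_⟩
    rw [htwo, Finset.sum_pair h] at hsum
    have h1 := kef_pos hp hP
    have h2 := kef_pos hp (kq_cjI_mem hk hp hP)
    have h3 : 1 ≤ P.ramificationIdx ℤ * P.inertiaDeg ℤ := Nat.mul_le_mul h1.1 h1.2
    have h4 : 1 ≤ (cjI hk P).ramificationIdx ℤ * (cjI hk P).inertiaDeg ℤ :=
      Nat.mul_le_mul h2.1 h2.2
    have h5 : P.ramificationIdx ℤ * P.inertiaDeg ℤ = 1 := by omega
    have h6 : (cjI hk P).ramificationIdx ℤ * (cjI hk P).inertiaDeg ℤ = 1 := by omega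
    exact ⟨Nat.eq_one_of_mul_eq_one_right h5, Nat.eq_one_of_mul_eq_one_left h5,
      Nat.eq_one_of_mul_eq_one_right h6, Nat.eq_one_of_mul_eq_one_left h6⟩

end CMS
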